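import Pool.Agent.Lib.FOLD.Defs
import Pool.Agent.Lib.P670edc.Triangle

/-!
# FOLD.Are: two-dimensional Hausdorff measure (1 h)
PROOF. `μH[2] = μH[finrank ℝ E2]` is an additive Haar measure on `E2` (`isAddHaarMeasure_hausdorffMeasure`), so `μH[2] = c • volume` with `0 < c < ∞` (`Measure.isAddHaarMeasure_eq_smul`). For `p, x, y : E3` there is a linear
isometry `J : E2 → E3` whose range contains `x - p` and `y - p` (the span has dimension `≤ 2`: take an orthonormal pair `n0, n1` whose span contains it), `x - p = J x'`, `y - p = J y'`. The triangle is the image of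
`convexHull {0, x', y'}` under the isometry `z ↦ p + J z` (`Isometry.hausdorffMeasure_image`), and `Pool.Agent.Lib.P670edc.volume_triangle` gives its area; `J` preserves norms and inner products.
`haus_seg`: `μH[1]` of a segment is finite (`hausdorffMeasure_segment`), so `μH[2] = 0` (`hausdorffMeasure_zero_or_top`).
-/

set_option autoImplicit false

open MeasureTheory Set Filter Topology Metric
open scoped MeasureTheory ENNReal

namespace Pool.Agent.Lib.FOLD

namespace AreAux

open Module

/-- a linear isometry of the plane into space whose range contains two given vectors -/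
theorem exists_isometry (u v : E3) : ∃ (J : E2 →ₗᵢ[ℝ] E3) (a b : E2), J a = u ∧ J b = v := by
  obtain ⟨n, hn, hn0⟩ := (Submodule.ne_bot_iff _).1
    (LinearMap.ker_ne_bot_of_finrank_lt (f := (innerₛₗ ℝ u).prod (innerₛₗ ℝ v))
      (by simp))
  have hu : inner ℝ u n = 0 := (Prod.ext_iff.1 (LinearMap.mem_ker.1 hn)).1
  have hv : inner ℝ v n = 0 := (Prod.ext_iff.1 (LinearMap.mem_ker.1 hn)).2
  have : Fact (finrank ℝ E3 = 2 + 1) := ⟨by simp⟩
  let B : OrthonormalBasis (Fin 2) ℝ (ℝ ∙ n)ᗮ := OrthonormalBasis.fromOrthogonalSpanSingleton 2 hn0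
  have hu' : u ∈ (ℝ ∙ n)ᗮ := by
    rw [Submodule.mem_orthogonal_singleton_iff_inner_left]; exact hu
  have hv' : v ∈ (ℝ ∙ n)ᗮ := by
    rw [Submodule.mem_orthogonal_singleton_iff_inner_left]; exact hv
  refine ⟨(ℝ ∙ n)ᗮ.subtypeₗᵢ.comp B.repr.symm.toLinearIsometry, B.repr ⟨u, hu'⟩,
    B.repr ⟨v, hv'⟩, ?_, ?_⟩
  · simp
  · simp

end AreAux

theorem haus_two : ∃ c : ℝ≥0∞, c ≠ 0 ∧ c ≠ ⊤ ∧ (∀ s : Set E2, μH[2] s = c * volume s) ∧
    ∀ p x y : E3, μH[2] (convexHull ℝ ({p, x, y} : Set E3)) = c * ENNReal.ofReal (tar (x - p) (y - p)) := by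
  have h2 : (μH[2] : Measure E2).IsAddHaarMeasure := by
    have := (inferInstance : (μH[(2 : ℕ)] : Measure (EuclideanSpace ℝ (Fin 2))).IsAddHaarMeasure)
    simpa using this
  have hc := Measure.isAddLeftInvariant_eq_smul (μH[2] : Measure E2) volume
  set c := Measure.addHaarScalarFactor (μH[2] : Measure E2) volume with hcdef
  have hs : ∀ s : Set E2, μH[2] s = (c : ℝ≥0∞) * volume s := by
    intro s
    rw [hc, Measure.smul_apply]
    rfl
  refine ⟨c, ?_, ENNReal.coe_ne_top, hs, ?_⟩
  · intro h0
    have h1 := hs (ball (0 : E2) 1)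
    rw [h0, zero_mul] at h1
    exact (measure_ball_pos (μH[2] : Measure E2) (0 : E2) one_pos).ne' h1
  · intro p x y
    obtain ⟨J, a, b, ha, hb⟩ := AreAux.exists_isometry (x - p) (y - p)
    let f : E2 →ᵃ[ℝ] E3 := ⟨fun z => p + J z, J.toLinearMap, fun q v => by
      change p + J (v + q) = J v + (p + J q)
      rw [map_add]; abel⟩
    have hf : Isometry f := Isometry.of_dist_eq fun s t => by
      change dist (p + J s) (p + J t) = dist s t
      rw [dist_add_left, J.dist_map]
    have him : convexHull ℝ ({p, x, y} : Set E3) = f '' convexHull ℝ ({0, a, b} : Set E2) := by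
      rw [AffineMap.image_convexHull]
      congr 1
      rw [image_insert_eq, image_insert_eq, image_singleton]
      change ({p, x, y} : Set E3) = {p + J 0, p + J a, p + J b}
      rw [map_zero, add_zero, ha, hb, add_sub_cancel, add_sub_cancel]
    rw [him, hf.hausdorffMeasure_image (by simp), hs, Pool.Agent.Lib.P670edc.volume_triangle,
      sub_zero, sub_zero, tar, ← ha, ← hb, J.norm_map, J.norm_map, J.inner_map_map]

theorem haus_seg (x y : E3) : μH[2] (segment ℝ x y) = 0 := by
  rcases Measure.hausdorffMeasure_zero_or_top (show (1 : ℝ) < 2 by norm_num) (segment ℝ x y) with h | h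
  · exact h
  · rw [hausdorffMeasure_segment] at h
    exact absurd h (edist_ne_top x y)

end Pool.Agent.Lib.FOLD
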