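import Pool.Agent.Lib.FOLD.Defs

/-!
# FOLD.FLip: the folding map is 1-Lipschitz (1 h)
PROOF. Let `p, q ∈ C`, `g t = f(p + t(q - p))`, `t ∈ [0,1]`, `c = ‖q - p‖`. The sets `Fk = {t ∈ [0,1] | p + t(q-p) ∈ tri (V k)}` are closed and convex and cover `[0,1]` (`C` convex, `cover`); on `Fk` `g` is
`c`-Lipschitz (isometry `A k`). So `g` is continuous on `[0,1]` (finite closed cover: `LocallyFinite.continuousOn_iUnion`..). The set `S = {s ∈ [0,1] | dist (g s) (g 0) ≤ c s}` is closed, contains `0`; for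
`s ∈ S`, `s < 1` and `y > s` there is a `k` with points of `Fk` arbitrarily close to `s` from the right (finitely many `k`), so `s ∈ Fk` and there is `s' ∈ Fk ∩ (s, min y 1]`, and
`dist (g s') (g 0) ≤ c (s' - s) + c s = c s'`. `IsClosed.Icc_subset_of_forall_exists_gt` gives `1 ∈ S`.
-/

set_option autoImplicit false

open MeasureTheory Set Filter Topology Metric
open scoped MeasureTheory ENNReal

namespace Pool.Agent.Lib.FOLD

variable {C : Set E2} {L : ℝ} {γ : ℝ → E2} {Q : Set E3}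

theorem f_lip (F : Fold C L γ Q) : LipschitzOnWith 1 F.f C := by
  classical
  refine LipschitzOnWith.of_dist_le_mul ?_
  intro p hp q hq
  simp only [NNReal.coe_one, one_mul]
  -- the segment
  let l : ℝ → E2 := fun t => AffineMap.lineMap p q t
  have hlc : Continuous l := AffineMap.lineMap_continuous
  have hl0 : l 0 = p := AffineMap.lineMap_apply_zero p q
  have hl1 : l 1 = q := AffineMap.lineMap_apply_one p q
  have hld : ∀ s t : ℝ, dist (l s) (l t) = dist s t * dist p q := fun s t =>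
    dist_lineMap_lineMap p q s t
  have hlC : ∀ t ∈ Icc (0 : ℝ) 1, l t ∈ C := by
    intro t ht
    have : l t ∈ segment ℝ p q := by
      rw [segment_eq_image_lineMap]
      exact ⟨t, ht, rfl⟩
    exact F.region.cvx.segment_subset hp hq this
  have htri : ∀ k, IsClosed (tri (F.V k)) := by
    intro k
    have : IsCompact (convexHull ℝ (range (F.V k))) :=
      (Set.finite_range (F.V k)).isCompact_convexHull ℝ
    exact this.isClosed
  let G : Fin F.n → Set ℝ := fun k => l ⁻¹' tri (F.V k)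
  have hG : ∀ k, IsClosed (G k) := fun k => (htri k).preimage hlc
  have hcov : ∀ t ∈ Icc (0 : ℝ) 1, ∃ k, t ∈ G k := by
    intro t ht
    have h1 := hlC t ht
    rw [← F.cover] at h1
    obtain ⟨k, hk⟩ := mem_iUnion.1 h1
    exact ⟨k, hk⟩
  let S : Set ℝ := {s | dist (F.f (l s)) (F.f (l 0)) ≤ s * dist p q}
  have hSeq : S ∩ Icc (0 : ℝ) 1 =
      (⋃ k, (G k ∩ {s | dist (F.A k (l s)) (F.f (l 0)) ≤ s * dist p q})) ∩ Icc (0 : ℝ) 1 := by
    ext s
    constructor
    · rintro ⟨h1, h2⟩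
      obtain ⟨k, hk⟩ := hcov s h2
      refine ⟨mem_iUnion.2 ⟨k, hk, ?_⟩, h2⟩
      have : F.f (l s) = F.A k (l s) := F.rigid k _ hk
      show dist (F.A k (l s)) (F.f (l 0)) ≤ s * dist p q
      rw [← this]
      exact h1
    · rintro ⟨h1, h2⟩
      obtain ⟨k, hk, h3⟩ := mem_iUnion.1 h1
      refine ⟨?_, h2⟩
      have : F.f (l s) = F.A k (l s) := F.rigid k _ hk
      show dist (F.f (l s)) (F.f (l 0)) ≤ s * dist p q
      rw [this]
      exact h3
  have hScl : IsClosed (S ∩ Icc (0 : ℝ) 1) := by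
    rw [hSeq]
    refine IsClosed.inter (isClosed_iUnion_of_finite fun k => (hG k).inter ?_) isClosed_Icc
    refine isClosed_le ?_ (by fun_prop)
    exact ((F.A k).continuous.comp hlc).dist continuous_const
  have h0 : (0 : ℝ) ∈ S := by simp [S]
  have key : Icc (0 : ℝ) 1 ⊆ S := by
    refine IsClosed.Icc_subset_of_forall_exists_gt hScl h0 ?_
    rintro x ⟨hxS, hx⟩ y hy
    -- some `k` is frequent to the right of `x`
    have hfr : ∃ k, ∃ᶠ t in 𝓝[>] x, t ∈ G k := by
      by_contra hcon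
      push Not at hcon
      have h1 : ∀ᶠ t in 𝓝[>] x, ∀ k, t ∉ G k := by
        rw [Filter.eventually_all]
        intro k
        exact hcon k
      have h2 : ∀ᶠ t in 𝓝[>] x, t ∈ Ioo x 1 := Ioo_mem_nhdsGT hx.2
      obtain ⟨t, ht1, ht2⟩ := (h1.and h2).exists
      obtain ⟨k, hk⟩ := hcov t ⟨hx.1.trans ht2.1.le, ht2.2.le⟩
      exact ht1 k hk
    obtain ⟨k, hk⟩ := hfr
    have hxk : x ∈ G k := by
      have h1 : ∃ᶠ t in 𝓝 x, t ∈ G k := hk.filter_mono nhdsWithin_le_nhds
      have h2 : x ∈ closure (G k) := mem_closure_iff_frequently.2 h1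
      rwa [(hG k).closure_eq] at h2
    have h3 : ∀ᶠ t in 𝓝[>] x, t ∈ Ioc x y := Ioc_mem_nhdsGT hy
    obtain ⟨t, ht1, ht2⟩ := (hk.and_eventually h3).exists
    refine ⟨t, ?_, ht2⟩
    have e1 : F.f (l t) = F.A k (l t) := F.rigid k _ ht1
    have e2 : F.f (l x) = F.A k (l x) := F.rigid k _ hxk
    have e3 : dist (F.f (l t)) (F.f (l x)) = (t - x) * dist p q := by
      rw [e1, e2, (F.A k).dist_map, hld, Real.dist_eq, abs_of_pos (sub_pos.2 ht2.1)]
    have e4 : dist (F.f (l x)) (F.f (l 0)) ≤ x * dist p q := hxS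
    show dist (F.f (l t)) (F.f (l 0)) ≤ t * dist p q
    calc dist (F.f (l t)) (F.f (l 0))
        ≤ dist (F.f (l t)) (F.f (l x)) + dist (F.f (l x)) (F.f (l 0)) := dist_triangle _ _ _
      _ ≤ (t - x) * dist p q + x * dist p q := add_le_add e3.le e4
      _ = t * dist p q := by ring
  have h1 : dist (F.f (l 1)) (F.f (l 0)) ≤ 1 * dist p q := key (right_mem_Icc.2 zero_le_one)
  rw [hl0, hl1, one_mul, dist_comm] at h1
  exact h1

end Pool.Agent.Lib.FOLD
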