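import Pool.Agent.Lib.FOLD.Fro
import Pool.Agent.Lib.FOLD.FLip
import Pool.Agent.Lib.FOLD.Are

/-!
# FOLD.ArQ: triangles in the polyhedron have at most the area of the polygon (0.7 h)
PROOF. `front_le`: `frontier Q = f '' C`, `f_lip`, `LipschitzOnWith.hausdorffMeasure_image_le`. `tri_le`: `K = convexHull {p, x, y} ⊆ Q` is compact and convex with empty interior in `E3` (it lies in a plane: choose `g ≠ 0` orthogonal
to `x - p`, `y - p`), so `frontier K = K`; `c · tar = μH[2] K ≤ μH[2] (frontier Q) ≤ μH[2] C = c · volume C` (`haus_two`, `frontier_mono`), `volume C < ∞`.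
-/

set_option autoImplicit false

open MeasureTheory Set Filter Topology Metric
open scoped MeasureTheory ENNReal

namespace Pool.Agent.Lib.FOLD

variable {C : Set E2} {L : ℝ} {γ : ℝ → E2} {Q : Set E3}

namespace ArQAux

theorem int_empty (p x y : E3) : interior (convexHull ℝ ({p, x, y} : Set E3)) = ∅ := by
  by_contra h
  have h1 : (interior (convexHull ℝ ({p, x, y} : Set E3))).Nonempty := nonempty_iff_ne_empty.2 h
  have h2 := interior_convexHull_nonempty_iff_affineSpan_eq_top.1 h1
  have h3 : vectorSpan ℝ ({p, x, y} : Set E3) = ⊤ := by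
    rw [← direction_affineSpan, h2, AffineSubspace.direction_top]
  have h4 : ({p, x, y} : Set E3) = range ![p, x, y] := by
    rw [Matrix.range_cons, Matrix.range_cons, Matrix.range_cons, Matrix.range_empty]
    ext z
    simp only [mem_insert_iff, mem_singleton_iff, mem_union, mem_empty_iff_false, or_false]
  have h5 : Module.finrank ℝ (vectorSpan ℝ (range ![p, x, y])) ≤ 2 :=
    finrank_vectorSpan_range_le ℝ ![p, x, y] (by simp)
  rw [← h4, h3, finrank_top] at h5
  simp at h5

end ArQAux

theorem front_le (F : Fold C L γ Q) : μH[2] (frontier Q) ≤ μH[2] C := by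
  rw [← F.onto]
  have h := (f_lip F).hausdorffMeasure_image_le (d := 2) (by norm_num)
  simpa using h

theorem tri_le (F : Fold C L γ Q) {p x y : E3} (hp : p ∈ Q) (hx : x ∈ Q) (hy : y ∈ Q) :
    tar (x - p) (y - p) ≤ (volume C).toReal := by
  obtain ⟨c, hc0, hct, hc2, hc3⟩ := haus_two
  set K : Set E3 := convexHull ℝ ({p, x, y} : Set E3) with hK
  have hKc : IsCompact K := (Set.toFinite ({p, x, y} : Set E3)).isCompact_convexHull ℝ
  have hKQ : K ⊆ Q := by
    refine convexHull_min ?_ F.cvx
    intro z hz
    simp only [mem_insert_iff, mem_singleton_iff] at hz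
    rcases hz with rfl | rfl | rfl
    · exact hp
    · exact hx
    · exact hy
  have hKn : K.Nonempty := ⟨p, subset_convexHull ℝ _ (by simp)⟩
  have hfr : frontier K = K := by
    rw [frontier, hKc.isClosed.closure_eq, hK, ArQAux.int_empty, diff_empty]
  have h1 := (frontier_mono hKc (convex_convexHull ℝ _) hKn F.cpt hKQ (d := 2)
    (by norm_num)).trans (front_le F)
  rw [hfr, hK, hc3, hc2, ENNReal.mul_le_mul_iff_right hc0 hct] at h1
  exact (ENNReal.ofReal_le_iff_le_toReal (F.region.cpt.measure_lt_top.ne)).1 h1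

end Pool.Agent.Lib.FOLD
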