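import Pool.Agent.Lib.FOLD.Defs

/-!
# FOLD.Arz: Arzelà-Ascoli for Lipschitz maps (1 h)
PROOF. Diagonal argument or `BoundedContinuousFunction.arzela_ascoli`: the restrictions to the compact set `S` of `K`-Lipschitz maps with values in a ball are equicontinuous. The limit on `S` is `K`-Lipschitz. (Direct proof: `S` has a countable dense
subset, choose a subsequence that converges at all its points (compactness of a countable product of balls, `tendsto_subseq`), and equicontinuity gives uniform convergence.)
-/

set_option autoImplicit false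

open MeasureTheory Set Filter Topology Metric
open scoped MeasureTheory ENNReal NNReal

namespace Pool.Agent.Lib.FOLD

theorem arzela {X E : Type*} [MetricSpace X] [NormedAddCommGroup E] [InnerProductSpace ℝ E]
    [FiniteDimensional ℝ E] {S : Set X} (hS : IsCompact S) {h : ℕ → X → E} {K : ℝ≥0} {R : ℝ}
    (hL : ∀ i, LipschitzOnWith K (h i) S) (hb : ∀ i, ∀ x ∈ S, h i x ∈ closedBall (0 : E) R) :
    ∃ (φ : ℕ → ℕ) (h' : X → E), StrictMono φ ∧ LipschitzOnWith K h' S ∧
      ∀ ε > 0, ∀ᶠ i in atTop, ∀ x ∈ S, dist (h (φ i) x) (h' x) < ε := by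
  classical
  have : CompactSpace S := isCompact_iff_compactSpace.mp hS
  have hL' : ∀ i, LipschitzWith K (fun x : S => h i x) := fun i =>
    (lipschitzOnWith_iff_restrict).mp (hL i)
  set f : ℕ → BoundedContinuousFunction S E := fun i =>
    BoundedContinuousFunction.mkOfCompact ⟨fun x : S => h i x, (hL' i).continuous⟩ with hf
  have hcl : IsCompact (closure (range f)) := by
    refine BoundedContinuousFunction.arzela_ascoli (closedBall (0 : E) R)
      (isCompact_closedBall 0 R) (range f) ?_ ?_
    · rintro _ x ⟨i, rfl⟩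
      exact hb i x x.2
    · refine (LipschitzWith.uniformEquicontinuous _ K ?_).equicontinuous
      rintro ⟨_, i, rfl⟩
      exact hL' i
  obtain ⟨a, _, φ, hφ, ha⟩ := hcl.tendsto_subseq fun i => subset_closure (mem_range_self i)
  have hpt : ∀ x : S, Tendsto (fun i => h (φ i) x) atTop (𝓝 (a x)) := by
    intro x
    rw [tendsto_iff_dist_tendsto_zero] at ha ⊢
    refine squeeze_zero (fun _ => dist_nonneg) (fun i => ?_) ha
    exact BoundedContinuousFunction.dist_coe_le_dist (f := f (φ i)) (g := a) x
  refine ⟨φ, fun x => if hx : x ∈ S then a ⟨x, hx⟩ else 0, hφ, ?_, ?_⟩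
  · refine LipschitzOnWith.of_dist_le_mul fun x hx y hy => ?_
    simp only [hx, hy, dif_pos]
    refine le_of_tendsto ((hpt ⟨x, hx⟩).dist (hpt ⟨y, hy⟩)) (Eventually.of_forall fun i => ?_)
    exact (hL (φ i)).dist_le_mul x hx y hy
  · intro ε hε
    have h1 := (tendsto_iff_dist_tendsto_zero.mp ha).eventually (gt_mem_nhds hε)
    filter_upwards [h1] with i hi x hx
    simp only [hx, dif_pos]
    exact lt_of_le_of_lt
      (BoundedContinuousFunction.dist_coe_le_dist (f := f (φ i)) (g := a) ⟨x, hx⟩) hi

end Pool.Agent.Lib.FOLD
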