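import Pool.Agent.Lib.FOLD.BD

/-!
# FOLD.BP: strictly convex polygons (1.4 h)
General: `b 0, …, b (N-1)`, `b N = b 0`, all other vertices strictly to the left of each edge. `ori` is defined in FOLD.BD.
PROOF. `ori` is affine in each variable, cyclic, antisymmetric. `poly_half`: `⊆`: vertices satisfy the inequalities. `⊇`: let `p` satisfy them, `f j = ori (b 0) (b j) p`; `f 1 ≥ 0` (edge `0`), `f (N-1) = - ori (b (N-1)) (b 0) p ≤ 0` (edge `N-1`), so there is `j` with `1 ≤ j ≤ N-2`, `f j ≥ 0 ≥ f (j+1)`;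
with `ori (b j) (b (j+1)) p ≥ 0` the point `p` has nonnegative barycentric coordinates in the triangle `b 0, b j, b (j+1)`: `D p = ori (b j) (b (j+1)) p • b 0 + ori (b (j+1)) (b 0) p • b j + ori (b 0) (b j) p • b (j+1)`, `D = ori (b 0) (b j) (b (j+1)) > 0` (edge `j`, vertex `0`). `poly_region`: compact (hull of a finite set), the
interior contains `{p | ∀ i < N, 0 < ori (b i) (b (i+1)) p}` (open, by `poly_half`), which contains the mean of the vertices. `poly_frontier`: the hull is closed; a point of the hull with all `ori > 0` is interior; a point `p` of the hull with `ori (b i) (b (i+1)) p = 0` is not interior (move outwards) and, being a convex combination of the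
vertices, only `b i`, `b (i+1)` have positive weight: `p ∈ segment`. `poly_inj`: if `i ≠ j` and `p = lineMap (b i) (b (i+1)) s = lineMap (b j) (b (j+1)) t` then `0 = ori (b i) (b (i+1)) p = (1-t) ori (b i) (b (i+1)) (b j) + t ori (b i) (b (i+1)) (b (j+1))`, `1 - t > 0`, both terms `≥ 0`, so `ori (b i) (b (i+1)) (b j) = 0`,
`j = (i+1) % N`; in the same way `i = (j+1) % N`, impossible for `N ≥ 3`; for `i = j` the line map is injective (`b i ≠ b (i+1)`: otherwise `ori (b i) (b (i+1)) (b k) = 0`).
-/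

set_option autoImplicit false

open MeasureTheory Set Filter Topology Metric
open scoped MeasureTheory ENNReal

namespace Pool.Agent.Lib.FOLD

namespace BPAux

/-- `ori` is affine in the third variable -/
lemma ori_comb (a b x y : E2) {u v : ℝ} (huv : u + v = 1) :
    ori a b (u • x + v • y) = u * ori a b x + v * ori a b y := by
  have hv : v = 1 - u := by linarith
  subst hv
  unfold ori
  simp only [PiLp.add_apply, PiLp.smul_apply, smul_eq_mul]
  ring

lemma ori_swap (a b c : E2) : ori a b c = -ori b a c := by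
  unfold ori
  ring

lemma ori_cyc (a b c : E2) : ori a b c = ori b c a := by
  unfold ori
  ring

lemma ori_left (a b : E2) : ori a b a = 0 := by
  unfold ori
  ring

lemma ori_right (a b : E2) : ori a b b = 0 := by
  unfold ori
  ring

lemma ori_same (a c : E2) : ori a a c = 0 := by
  unfold ori
  ring

lemma ori_bary (a b c p : E2) :
    ori a b c • p = ori b c p • a + ori c a p • b + ori a b p • c := by
  ext k
  fin_cases k
  · simp only [PiLp.add_apply, PiLp.smul_apply, smul_eq_mul, ori]
    simp only [Fin.zero_eta]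
    ring
  · simp only [PiLp.add_apply, PiLp.smul_apply, smul_eq_mul, ori]
    simp only [Fin.mk_one]
    ring

lemma ori_sum (a b c p : E2) : ori b c p + ori c a p + ori a b p = ori a b c := by
  unfold ori
  ring

lemma ori_cont (a b : E2) : Continuous (fun p => ori a b p) := by
  unfold ori
  fun_prop

lemma ori_line (a b p q : E2) (t : ℝ) :
    ori a b (AffineMap.lineMap p q t) = (1 - t) * ori a b p + t * ori a b q := by
  rw [AffineMap.lineMap_apply_module]
  exact ori_comb a b p q (by ring)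

lemma ex3 (a c : ℕ) : ∃ k < 3, k ≠ a ∧ k ≠ c := by
  by_cases h0 : 0 ≠ a ∧ 0 ≠ c
  · exact ⟨0, by norm_num, h0⟩
  by_cases h1 : 1 ≠ a ∧ 1 ≠ c
  · exact ⟨1, by norm_num, h1⟩
  exact ⟨2, by norm_num, by omega, by omega⟩

section

variable {N : ℕ} {b : ℕ → E2}

lemma b_mod (hb : b N = b 0) {i : ℕ} (hi : i < N) : b ((i + 1) % N) = b (i + 1) := by
  by_cases h : i + 1 = N
  · rw [h, Nat.mod_self, hb]
  · rw [Nat.mod_eq_of_lt (by omega)]

/-- all vertices satisfy the inequalities -/
lemma vert (hb : b N = b 0)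
    (he : ∀ i < N, ∀ k < N, k ≠ i → k ≠ (i + 1) % N → 0 < ori (b i) (b (i + 1)) (b k))
    {i k : ℕ} (hi : i < N) (hk : k < N) : 0 ≤ ori (b i) (b (i + 1)) (b k) := by
  by_cases h1 : k = i
  · rw [h1, ori_left]
  by_cases h2 : k = (i + 1) % N
  · rw [h2, b_mod hb hi, ori_right]
  exact (he i hi k hk h1 h2).le

lemma conv_half : Convex ℝ {p : E2 | ∀ i < N, 0 ≤ ori (b i) (b (i + 1)) p} := by
  intro x hx y hy u v hu hv huv i hi
  rw [ori_comb _ _ _ _ huv]
  exact add_nonneg (mul_nonneg hu (hx i hi)) (mul_nonneg hv (hy i hi))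

lemma mem_hull {k : ℕ} (hk : k < N) : b k ∈ convexHull ℝ (b '' Iio N) :=
  subset_convexHull ℝ _ ⟨k, hk, rfl⟩

lemma mem_hull' (hN : 3 ≤ N) (hb : b N = b 0) {k : ℕ} (hk : k ≤ N) :
    b k ∈ convexHull ℝ (b '' Iio N) := by
  rcases hk.lt_or_eq with h | h
  · exact mem_hull h
  · rw [h, hb]
    exact mem_hull (by omega)

/-- a point with positive inequalities -/
noncomputable def ctr (b : ℕ → E2) : E2 := (1 / 3 : ℝ) • b 0 + (2 / 3 : ℝ) • ((1 / 2 : ℝ) • b 1 + (1 / 2 : ℝ) • b 2)

lemma ctr_pos (hN : 3 ≤ N) (hb : b N = b 0)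
    (he : ∀ i < N, ∀ k < N, k ≠ i → k ≠ (i + 1) % N → 0 < ori (b i) (b (i + 1)) (b k))
    {i : ℕ} (hi : i < N) : 0 < ori (b i) (b (i + 1)) (ctr b) := by
  unfold ctr
  rw [ori_comb _ _ _ _ (by norm_num), ori_comb _ _ _ _ (by norm_num)]
  have h0 := vert hb he hi (show 0 < N by omega)
  have h1 := vert hb he hi (show 1 < N by omega)
  have h2 := vert hb he hi (show 2 < N by omega)
  obtain ⟨k, hk, hk1, hk2⟩ := ex3 i ((i + 1) % N)
  have h3 := he i hi k (by omega) hk1 hk2
  have hk' : k = 0 ∨ k = 1 ∨ k = 2 := by omega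
  rcases hk' with rfl | rfl | rfl
  · linarith
  · linarith
  · linarith

end

end BPAux

open BPAux

theorem poly_half {N : ℕ} (hN : 3 ≤ N) {b : ℕ → E2} (hb : b N = b 0)
    (he : ∀ i < N, ∀ k < N, k ≠ i → k ≠ (i + 1) % N → 0 < ori (b i) (b (i + 1)) (b k)) :
    convexHull ℝ (b '' Iio N) = {p | ∀ i < N, 0 ≤ ori (b i) (b (i + 1)) p} := by
  apply Subset.antisymm
  · apply convexHull_min _ conv_half
    rintro _ ⟨k, hk, rfl⟩ i hi
    exact vert hb he hi hk
  · intro p hp
    have h1 : 0 ≤ ori (b 0) (b 1) p := hp 0 (by omega)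
    have hlast : ori (b 0) (b (N - 1)) p ≤ 0 := by
      have h2 := hp (N - 1) (by omega)
      rw [show N - 1 + 1 = N by omega, hb, ori_swap] at h2
      linarith
    have hex : ∃ m, ori (b 0) (b (m + 2)) p ≤ 0 := ⟨N - 3, by
      rw [show N - 3 + 2 = N - 1 by omega]
      exact hlast⟩
    classical
    obtain ⟨m, hm, hmin⟩ : ∃ m, ori (b 0) (b (m + 2)) p ≤ 0 ∧
        ∀ n < m, ¬ ori (b 0) (b (n + 2)) p ≤ 0 :=
      ⟨Nat.find hex, Nat.find_spec hex, fun n hn => Nat.find_min hex hn⟩
    have hmN : m + 2 ≤ N - 1 := by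
      by_contra hcon
      have := hmin (N - 3) (by omega)
      rw [show N - 3 + 2 = N - 1 by omega] at this
      exact this hlast
    have hpos : 0 ≤ ori (b 0) (b (m + 1)) p := by
      rcases Nat.eq_zero_or_pos m with h | h
      · rw [h]
        exact h1
      · have h3 := hmin (m - 1) (by omega)
        rw [show m - 1 + 2 = m + 1 by omega] at h3
        linarith
    have hD : 0 < ori (b 0) (b (m + 1)) (b (m + 2)) := by
      rw [ori_cyc]
      refine he (m + 1) (by omega) 0 (by omega) (by omega) ?_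
      rw [Nat.mod_eq_of_lt (by omega)]
      omega
    have hw0 : 0 ≤ ori (b (m + 1)) (b (m + 2)) p := hp (m + 1) (by omega)
    have hw1 : 0 ≤ ori (b (m + 2)) (b 0) p := by
      rw [ori_swap]
      linarith
    have hsum := ori_sum (b 0) (b (m + 1)) (b (m + 2)) p
    have hbary := ori_bary (b 0) (b (m + 1)) (b (m + 2)) p
    set D := ori (b 0) (b (m + 1)) (b (m + 2)) with hDdef
    have hp' : p = ∑ k : Fin 3, (![ori (b (m + 1)) (b (m + 2)) p / D, ori (b (m + 2)) (b 0) p / D,
        ori (b 0) (b (m + 1)) p / D] : Fin 3 → ℝ) k •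
          (![b 0, b (m + 1), b (m + 2)] : Fin 3 → E2) k := by
      rw [Fin.sum_univ_three]
      simp only [Matrix.cons_val_zero, Matrix.cons_val_one, Matrix.cons_val]
      have h5 : p = (1 / D) • (D • p) := by
        rw [smul_smul, one_div, inv_mul_cancel₀ hD.ne', one_smul]
      rw [hbary] at h5
      rw [smul_add, smul_add, smul_smul, smul_smul, smul_smul] at h5
      simp only [div_eq_inv_mul] at h5 ⊢
      rw [mul_one] at h5
      exact h5
    rw [hp']
    apply (convex_convexHull ℝ (b '' Iio N)).sum_mem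
    · intro k _
      fin_cases k
      · exact div_nonneg hw0 hD.le
      · exact div_nonneg hw1 hD.le
      · exact div_nonneg hpos hD.le
    · rw [Fin.sum_univ_three]
      simp only [Matrix.cons_val_zero, Matrix.cons_val_one, Matrix.cons_val]
      rw [← add_div, ← add_div, hsum, div_self hD.ne']
    · intro k _
      fin_cases k
      · exact mem_hull (by omega)
      · exact mem_hull (by omega)
      · exact mem_hull (by omega)

theorem poly_region {N : ℕ} (hN : 3 ≤ N) {b : ℕ → E2} (hb : b N = b 0)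
    (he : ∀ i < N, ∀ k < N, k ≠ i → k ≠ (i + 1) % N → 0 < ori (b i) (b (i + 1)) (b k)) :
    Region (convexHull ℝ (b '' Iio N)) := by
  refine ⟨((finite_Iio N).image b).isCompact_convexHull ℝ, convex_convexHull ℝ _, ?_⟩
  have hU : IsOpen {p : E2 | ∀ i ∈ Iio N, 0 < ori (b i) (b (i + 1)) p} := by
    have h1 : {p : E2 | ∀ i ∈ Iio N, 0 < ori (b i) (b (i + 1)) p} =
        ⋂ i ∈ Iio N, {p | 0 < ori (b i) (b (i + 1)) p} := by
      ext p
      simp only [mem_ofPred_eq, mem_iInter]
    rw [h1]
    exact (finite_Iio N).isOpen_biInter fun i _ =>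
      isOpen_lt continuous_const (ori_cont _ _)
  refine ⟨ctr b, interior_maximal ?_ hU ?_⟩
  · rw [poly_half hN hb he]
    intro p hp i hi
    exact (hp i hi).le
  · intro i hi
    exact ctr_pos hN hb he hi

theorem poly_frontier {N : ℕ} (hN : 3 ≤ N) {b : ℕ → E2} (hb : b N = b 0)
    (he : ∀ i < N, ∀ k < N, k ≠ i → k ≠ (i + 1) % N → 0 < ori (b i) (b (i + 1)) (b k)) :
    frontier (convexHull ℝ (b '' Iio N)) = ⋃ i ∈ Finset.range N, segment ℝ (b i) (b (i + 1)) := by
  have hcl : IsClosed (convexHull ℝ (b '' Iio N)) := (poly_region hN hb he).cpt.isClosed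
  rw [hcl.frontier_eq]
  have hU : IsOpen {p : E2 | ∀ i ∈ Iio N, 0 < ori (b i) (b (i + 1)) p} := by
    have h1 : {p : E2 | ∀ i ∈ Iio N, 0 < ori (b i) (b (i + 1)) p} =
        ⋂ i ∈ Iio N, {p | 0 < ori (b i) (b (i + 1)) p} := by
      ext p
      simp only [mem_ofPred_eq, mem_iInter]
    rw [h1]
    exact (finite_Iio N).isOpen_biInter fun i _ =>
      isOpen_lt continuous_const (ori_cont _ _)
  apply Subset.antisymm
  · rintro p ⟨hp, hpi⟩
    have hhalf := hp
    rw [poly_half hN hb he] at hhalf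
    have hex : ∃ i < N, ori (b i) (b (i + 1)) p = 0 := by
      by_contra hcon
      push Not at hcon
      apply hpi
      refine interior_maximal ?_ hU (?_ : p ∈ {p : E2 | ∀ i ∈ Iio N, 0 < ori (b i) (b (i + 1)) p})
      · rw [poly_half hN hb he]
        intro q hq i hi
        exact (hq i hi).le
      · intro i hi
        exact lt_of_le_of_ne (hhalf i hi) (Ne.symm (hcon i hi))
    obtain ⟨i, hi, hi0⟩ := hex
    have hS : Convex ℝ {q : E2 | 0 < ori (b i) (b (i + 1)) q ∨ q ∈ segment ℝ (b i) (b (i + 1))} := by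
      have hseg : ∀ q ∈ segment ℝ (b i) (b (i + 1)), ori (b i) (b (i + 1)) q = 0 := by
        rintro q ⟨u, v, hu, hv, huv, rfl⟩
        rw [ori_comb _ _ _ _ huv, ori_left, ori_right, mul_zero, mul_zero, add_zero]
      intro x hx y hy u v hu hv huv
      have hx0 : 0 ≤ ori (b i) (b (i + 1)) x := by
        rcases hx with h | h
        · exact h.le
        · exact (hseg x h).ge
      have hy0 : 0 ≤ ori (b i) (b (i + 1)) y := by
        rcases hy with h | h
        · exact h.le
        · exact (hseg y h).ge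
      rcases hu.eq_or_lt with hu0 | hu0
      · have hv1 : v = 1 := by linarith
        rw [← hu0, hv1, zero_smul, zero_add, one_smul]
        exact hy
      rcases hv.eq_or_lt with hv0 | hv0
      · have hu1 : u = 1 := by linarith
        rw [← hv0, hu1, zero_smul, add_zero, one_smul]
        exact hx
      rcases hx with hx1 | hx1
      · left
        rw [ori_comb _ _ _ _ huv]
        exact add_pos_of_pos_of_nonneg (mul_pos hu0 hx1) (mul_nonneg hv hy0)
      · rcases hy with hy1 | hy1
        · left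
          rw [ori_comb _ _ _ _ huv]
          exact add_pos_of_nonneg_of_pos (mul_nonneg hu hx0) (mul_pos hv0 hy1)
        · right
          exact convex_segment _ _ hx1 hy1 hu hv huv
    have hsub : convexHull ℝ (b '' Iio N) ⊆
        {q : E2 | 0 < ori (b i) (b (i + 1)) q ∨ q ∈ segment ℝ (b i) (b (i + 1))} := by
      apply convexHull_min _ hS
      rintro _ ⟨k, hk, rfl⟩
      by_cases h1 : k = i
      · right
        rw [h1]
        exact left_mem_segment ℝ _ _
      by_cases h2 : k = (i + 1) % N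
      · right
        rw [h2, b_mod hb hi]
        exact right_mem_segment ℝ _ _
      · left
        exact he i hi k hk h1 h2
    rcases hsub hp with h | h
    · exact absurd hi0 h.ne'
    · simp only [mem_iUnion]
      exact ⟨i, Finset.mem_range.2 hi, h⟩
  · intro p hp
    simp only [mem_iUnion] at hp
    obtain ⟨i, hi, hp⟩ := hp
    rw [Finset.mem_range] at hi
    have hpC : p ∈ convexHull ℝ (b '' Iio N) :=
      (convex_convexHull ℝ (b '' Iio N)).segment_subset (mem_hull' hN hb hi.le)
        (mem_hull' hN hb (by omega)) hp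
    refine ⟨hpC, ?_⟩
    intro hint
    have hp0 : ori (b i) (b (i + 1)) p = 0 := by
      obtain ⟨u, v, hu, hv, huv, rfl⟩ := hp
      rw [ori_comb _ _ _ _ huv, ori_left, ori_right, mul_zero, mul_zero, add_zero]
    have hcont : Continuous (fun ε : ℝ => (1 + ε) • p + (-ε) • ctr b) := by fun_prop
    have hnhds : ∀ᶠ ε in 𝓝 (0 : ℝ), (1 + ε) • p + (-ε) • ctr b ∈ interior (convexHull ℝ (b '' Iio N)) := by
      apply hcont.continuousAt.eventually
      apply isOpen_interior.mem_nhds
      simp only [add_zero, one_smul, neg_zero, zero_smul]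
      exact hint
    have hfreq : ∀ᶠ ε in 𝓝[>] (0 : ℝ), (1 + ε) • p + (-ε) • ctr b ∈ interior (convexHull ℝ (b '' Iio N)) :=
      hnhds.filter_mono nhdsWithin_le_nhds
    obtain ⟨ε, hε1, hε2⟩ := (hfreq.and self_mem_nhdsWithin).exists
    have hε3 := interior_subset hε1
    rw [poly_half hN hb he] at hε3
    have h4 := hε3 i hi
    rw [ori_comb _ _ _ _ (by ring), hp0] at h4
    have h5 := ctr_pos hN hb he hi
    have h6 : 0 < ε := hε2
    nlinarith [mul_pos h6 h5]

theorem poly_inj {N : ℕ} (hN : 3 ≤ N) {b : ℕ → E2} (hb : b N = b 0)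
    (he : ∀ i < N, ∀ k < N, k ≠ i → k ≠ (i + 1) % N → 0 < ori (b i) (b (i + 1)) (b k)) :
    ∀ i < N, ∀ j < N, ∀ s ∈ Ico (0 : ℝ) 1, ∀ t ∈ Ico (0 : ℝ) 1,
      AffineMap.lineMap (b i) (b (i + 1)) s = AffineMap.lineMap (b j) (b (j + 1)) t → i = j ∧ s = t := by
  have key : ∀ i < N, ∀ j < N, ∀ s ∈ Ico (0 : ℝ) 1, ∀ t ∈ Ico (0 : ℝ) 1,
      AffineMap.lineMap (b i) (b (i + 1)) s = AffineMap.lineMap (b j) (b (j + 1)) t →
        i ≠ j → j = (i + 1) % N := by
    intro i hi j hj s hs t ht heq hij
    have h1 : ori (b i) (b (i + 1)) (AffineMap.lineMap (b i) (b (i + 1)) s) = 0 := by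
      rw [ori_line, ori_left, ori_right, mul_zero, mul_zero, add_zero]
    rw [heq, ori_line] at h1
    by_contra hcon
    have h2 := he i hi j hj (Ne.symm hij) hcon
    have h3 : 0 ≤ ori (b i) (b (i + 1)) (b (j + 1)) := by
      rw [← b_mod hb hj]
      exact vert hb he hi (Nat.mod_lt _ (by omega))
    have h4 : 0 < (1 - t) * ori (b i) (b (i + 1)) (b j) := mul_pos (by linarith [ht.2]) h2
    have h5 : 0 ≤ t * ori (b i) (b (i + 1)) (b (j + 1)) := mul_nonneg ht.1 h3
    linarith
  intro i hi j hj s hs t ht heq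
  by_cases hij : i = j
  · subst hij
    refine ⟨rfl, ?_⟩
    have hne : b i ≠ b (i + 1) := by
      intro h
      obtain ⟨k, hk, hk1, hk2⟩ := ex3 i ((i + 1) % N)
      have h3 := he i hi k (by omega) hk1 hk2
      rw [← h, ori_same] at h3
      exact lt_irrefl _ h3
    exact AffineMap.lineMap_injective ℝ hne heq
  · exfalso
    have h1 := key i hi j hj s hs t ht heq hij
    have h2 := key j hj i hi t ht s hs heq.symm (Ne.symm hij)
    have e1 : (i + 1 = N ∧ j = 0) ∨ (i + 1 < N ∧ j = i + 1) := by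
      rcases Nat.lt_or_ge (i + 1) N with h | h
      · right
        rw [Nat.mod_eq_of_lt h] at h1
        exact ⟨h, h1⟩
      · left
        have h3 : i + 1 = N := by omega
        rw [h3, Nat.mod_self] at h1
        exact ⟨h3, h1⟩
    have e2 : (j + 1 = N ∧ i = 0) ∨ (j + 1 < N ∧ i = j + 1) := by
      rcases Nat.lt_or_ge (j + 1) N with h | h
      · right
        rw [Nat.mod_eq_of_lt h] at h2
        exact ⟨h, h2⟩
      · left
        have h3 : j + 1 = N := by omega
        rw [h3, Nat.mod_self] at h2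
        exact ⟨h3, h2⟩
    omega

end Pool.Agent.Lib.FOLD
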