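import Pool.Agent.Lib.FOLD.BT
import Pool.Agent.Lib.FOLD.BP
import Pool.Agent.Lib.P670edc.Triangle

/-!
# FOLD.BA: cover and area of the polygon with 34 vertices (1.1 h)
Definitions in FOLD.BD.
PROOF. `bC_cover`: `⊆`: vertices of the triangles are vertices of the polygon. `⊇`: let `p ∈ bC`, so `0 ≤ ori (bb i) (bb (i+1)) p` for `i < 34` (`poly_half`, `b_edge`). By the symmetry `p ↦ -p` (exchanges `T_k` and `T_{k+16}`, `bb i` and `bb (i+17)`) assume `0 ≤ ori (bc 16) (bc 17) p`. `f j = ori (bc 0) (bc j) p`, `1 ≤ j ≤ 17`: `f 1 ≥ 0` (edge `0`),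
`f 17 ≤ 0` (edge `33`: `bb 33 = - bc 16 = bc 17`, `bb 34 = bc 0`). So there is `j ≤ 16` with `f j ≥ 0 ≥ f (j+1)`, and `0 ≤ ori (bc j) (bc (j+1)) p` (edge `j` if `j < 16`, assumption if `j = 16`): nonnegative barycentric coordinates in `T_{j-1}` (denominator `ori (bc 0) (bc j) (bc (j+1)) > 0`, `b_fan`). `bC_vol`: the sum over the 32 triangles (pairwise
null intersections: `bV_disj`, frontiers of convex sets are null) of `volume (tri (bV k)) = |ori|/2 = bs j / 2` (`volume_triangle` in Pool.Agent.Lib.P670edc.Triangle, `bu_cross`; the area of `- T` is the area of `T`).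
-/

set_option autoImplicit false

open MeasureTheory Set Filter Topology Metric
open scoped MeasureTheory ENNReal

namespace Pool.Agent.Lib.FOLD

namespace BAAux

theorem bb34 : bb 34 = bb 0 := rfl

theorem edge' : ∀ i < 34, ∀ k < 34, k ≠ i → k ≠ (i + 1) % 34 → 0 < ori (bb i) (bb (i + 1)) (bb k) :=
  fun _ hi _ hk h1 h2 => b_edge hi hk h1 h2

theorem bC_half : bC = {p | ∀ i < 34, 0 ≤ ori (bb i) (bb (i + 1)) p} :=
  poly_half (by norm_num) bb34 edge'

theorem bb_bc {j : ℕ} (hj : j < 17) : bb j = bc j := by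
  unfold bb
  rw [Nat.mod_eq_of_lt (by omega), if_pos hj]

theorem bb_33 : bb 33 = bc 17 := by
  rw [bc_17, ← bb_bc (j := 16) (by norm_num)]
  exact bb_neg 16

theorem ori_swap (a b p : E2) : ori b a p = -ori a b p := by
  unfold ori
  ring

theorem ori_neg (a b p : E2) : ori (-a) (-b) (-p) = ori a b p := by
  unfold ori
  simp only [PiLp.neg_apply]
  ring

theorem mem_tri {a b c p : E2} (hD : 0 < ori a b c) (h1 : 0 ≤ ori b c p) (h2 : 0 ≤ ori c a p)
    (h3 : 0 ≤ ori a b p) : p ∈ tri ![a, b, c] := by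
  have hs : ori b c p + ori c a p + ori a b p = ori a b c := by
    unfold ori
    ring
  have hp : p = (ori b c p / ori a b c) • a + (ori c a p / ori a b c) • b +
      (ori a b p / ori a b c) • c := by
    have h0 : ori a b c ≠ 0 := hD.ne'
    ext i
    have key : ∀ i : Fin 2, ori a b c * p i =
        ori b c p * a i + ori c a p * b i + ori a b p * c i := by
      intro i
      fin_cases i
      · change ori a b c * p 0 = ori b c p * a 0 + ori c a p * b 0 + ori a b p * c 0
        unfold ori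
        ring
      · change ori a b c * p 1 = ori b c p * a 1 + ori c a p * b 1 + ori a b p * c 1
        unfold ori
        ring
    simp only [PiLp.add_apply, PiLp.smul_apply, smul_eq_mul]
    field_simp
    linarith [key i]
  have hcv : Convex ℝ (tri ![a, b, c]) := convex_convexHull ℝ _
  have ha : a ∈ tri ![a, b, c] := subset_convexHull ℝ _ ⟨0, rfl⟩
  have hb : b ∈ tri ![a, b, c] := subset_convexHull ℝ _ ⟨1, rfl⟩
  have hc : c ∈ tri ![a, b, c] := subset_convexHull ℝ _ ⟨2, rfl⟩
  have hsum : ori b c p / ori a b c + ori c a p / ori a b c + ori a b p / ori a b c = 1 := by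
    rw [← add_div, ← add_div, hs, div_self hD.ne']
  have := hcv.sum_mem (t := (Finset.univ : Finset (Fin 3)))
    (w := ![ori b c p / ori a b c, ori c a p / ori a b c, ori a b p / ori a b c])
    (z := ![a, b, c])
    (by
      intro i _
      fin_cases i
      · exact div_nonneg h1 hD.le
      · exact div_nonneg h2 hD.le
      · exact div_nonneg h3 hD.le)
    (by
      rw [Fin.sum_univ_three]
      exact hsum)
    (by
      intro i _
      fin_cases i
      · exact ha
      · exact hb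
      · exact hc)
  rw [Fin.sum_univ_three] at this
  rw [hp]
  exact this

theorem find_j (f : ℕ → ℝ) (h1 : 0 ≤ f 1) (h17 : f 17 ≤ 0) :
    ∃ j, 1 ≤ j ∧ j ≤ 16 ∧ 0 ≤ f j ∧ f (j + 1) ≤ 0 := by
  by_contra h
  push Not at h
  have key : ∀ j, 1 ≤ j → j ≤ 16 → 0 ≤ f j := by
    intro j hj
    induction j, hj using Nat.le_induction with
    | base => intro _; exact h1
    | succ j hj ih =>
      intro hj'
      exact (h j hj (by omega) (ih (by omega))).le
  have := h 16 (by norm_num) le_rfl (key 16 (by norm_num) le_rfl)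
  exact absurd h17 (not_le.2 this)

/-- the half on the side of `x` -/
theorem half_cover {p : E2} (hp : ∀ i < 34, 0 ≤ ori (bb i) (bb (i + 1)) p)
    (hs : 0 ≤ ori (bc 16) (bc 17) p) : ∃ k : Fin 32, (k : ℕ) < 16 ∧ p ∈ tri (bV k) := by
  have f1 : 0 ≤ ori (bc 0) (bc 1) p := by
    have h := hp 0 (by norm_num)
    rw [bb_bc (j := 0) (by norm_num), bb_bc (j := 0 + 1) (by norm_num)] at h
    exact h
  have f17 : ori (bc 0) (bc 17) p ≤ 0 := by
    have h := hp 33 (by norm_num)
    rw [bb_33, show 33 + 1 = 34 from rfl, bb34, bb_bc (j := 0) (by norm_num), ori_swap] at h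
    linarith
  obtain ⟨j, hj1, hj2, hj3, hj4⟩ := find_j (fun j => ori (bc 0) (bc j) p) f1 f17
  have hD : 0 < ori (bc 0) (bc j) (bc (j + 1)) := b_fan (by omega) (by omega) (by omega)
  have he : 0 ≤ ori (bc j) (bc (j + 1)) p := by
    rcases Nat.lt_or_ge j 16 with h | h
    · have h' := hp j (by omega)
      rw [bb_bc (j := j) (by omega), bb_bc (j := j + 1) (by omega)] at h'
      exact h'
    · have : j = 16 := by omega
      subst this
      exact hs
  have hc : 0 ≤ ori (bc (j + 1)) (bc 0) p := by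
    rw [ori_swap]
    linarith
  refine ⟨⟨j - 1, by omega⟩, ?_, ?_⟩
  · change j - 1 < 16
    omega
  · rw [bV_fan ⟨j - 1, by omega⟩ (by change j - 1 < 16; omega)]
    have e1 : ((⟨j - 1, by omega⟩ : Fin 32) : ℕ) + 1 = j := by
      change j - 1 + 1 = j
      omega
    have e2 : ((⟨j - 1, by omega⟩ : Fin 32) : ℕ) + 2 = j + 1 := by
      change j - 1 + 2 = j + 1
      omega
    rw [e1, e2]
    exact mem_tri hD he hc hj3

theorem bi_lt : ∀ k : Fin 32, ∀ i : Fin 3, bi k i < 34 := by decide +kernel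

theorem neg_half {p : E2} (hp : ∀ i < 34, 0 ≤ ori (bb i) (bb (i + 1)) p) :
    ∀ i < 34, 0 ≤ ori (bb i) (bb (i + 1)) (-p) := by
  intro i hi
  rcases Nat.lt_or_ge i 17 with h | h
  · have h1 := hp (i + 17) (by omega)
    rw [show i + 17 + 1 = (i + 1) + 17 by ring, bb_neg, bb_neg] at h1
    have h2 := ori_neg (-bb i) (-bb (i + 1)) p
    rw [neg_neg, neg_neg] at h2
    rw [h2]
    exact h1
  · obtain ⟨m, rfl⟩ : ∃ m, i = m + 17 := ⟨i - 17, by omega⟩
    have h1 := hp m (by omega)
    rw [show m + 17 + 1 = (m + 1) + 17 by ring, bb_neg, bb_neg, ori_neg]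
    exact h1

theorem tri_neg (k k' : Fin 32) (hk : (k' : ℕ) = k + 16) {p : E2} (hp : p ∈ tri (bV k)) :
    -p ∈ tri (bV k') := by
  have h1 : range (bV k') = -range (bV k) := by
    ext q
    rw [Set.mem_neg]
    constructor
    · rintro ⟨i, rfl⟩
      exact ⟨i, by rw [bV_neg k k' hk, neg_neg]⟩
    · rintro ⟨i, hi⟩
      exact ⟨i, by rw [bV_neg k k' hk, hi, neg_neg]⟩
  unfold tri
  rw [h1, convexHull_neg, Set.mem_neg, neg_neg]
  exact hp

theorem bc_sub_zero (j i : ℕ) (hi : i < 2) :
    (bc j - bc 0) ⟨i, hi⟩ = if i = 0 then (bu j).1 else (bu j).2 := by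
  have h0 : bu 0 = (0, 0) := rfl
  interval_cases i
  · change b0.1 + (bu j).1 - (b0.1 + (bu 0).1) = (bu j).1
    rw [h0]
    ring
  · change b0.2 + (bu j).2 - (b0.2 + (bu 0).2) = (bu j).2
    rw [h0]
    ring

theorem vol_aux (a b c : E2) :
    volume (tri ![a, b, c]) = ENNReal.ofReal (|(b - a) 0 * (c - a) 1 - (c - a) 0 * (b - a) 1| / 2) := by
  have h := Pool.Agent.Lib.P670edc.volume_triangle a b c
  rw [← Pool.Agent.Lib.P670edc.det_sq, Real.sqrt_sq_eq_abs] at h
  rw [← h]
  congr 1
  unfold tri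
  congr 1
  ext q
  simp [Matrix.range_cons, Matrix.range_empty]
  try tauto

theorem vol_fan (k : Fin 32) (hk : (k : ℕ) < 16) :
    volume (tri (bV k)) = ENNReal.ofReal (bs (k + 1) / 2) := by
  rw [bV_fan k hk, vol_aux]
  congr 2
  have h0 : ∀ j, (bc j - bc 0) 0 = (bu j).1 := fun j => bc_sub_zero j 0 (by norm_num)
  have h1 : ∀ j, (bc j - bc 0) 1 = (bu j).2 := fun j => bc_sub_zero j 1 (by norm_num)
  rw [h0, h0, h1, h1]
  have h := bu_cross (j := (k : ℕ) + 1) (by omega) (by omega)
  have hn : 0 ≤ bs ((k : ℕ) + 1) := Real.sqrt_nonneg _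
  rw [mul_comm (bu ((k : ℕ) + 2)).1]
  rw [show (bu ((k : ℕ) + 1)).1 * (bu ((k : ℕ) + 2)).2 - (bu ((k : ℕ) + 1)).2 * (bu ((k : ℕ) + 2)).1 =
    bs ((k : ℕ) + 1) from h, abs_of_nonneg hn]

theorem vol_neg (k k' : Fin 32) (hk : (k' : ℕ) = k + 16) :
    volume (tri (bV k')) = volume (tri (bV k)) := by
  have h1 : tri (bV k') = -tri (bV k) := by
    unfold tri
    rw [← convexHull_neg]
    congr 1
    ext q
    rw [Set.mem_neg]
    constructor
    · rintro ⟨i, rfl⟩
      exact ⟨i, by rw [bV_neg k k' hk, neg_neg]⟩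
    · rintro ⟨i, hi⟩
      exact ⟨i, by rw [bV_neg k k' hk, hi, neg_neg]⟩
  rw [h1, Measure.measure_neg]

theorem tri_compact (k : Fin 32) : IsCompact (tri (bV k)) :=
  (Set.finite_range _).isCompact_convexHull (𝕜 := ℝ)

theorem ae_disj : Pairwise (Function.onFun (AEDisjoint volume) fun k => tri (bV k)) := by
  intro j k hjk
  change volume (tri (bV j) ∩ tri (bV k)) = 0
  have h1 : volume (frontier (tri (bV j))) = 0 :=
    (convex_convexHull ℝ _ : Convex ℝ (tri (bV j))).addHaar_frontier volume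
  have h2 : volume (frontier (tri (bV k))) = 0 :=
    (convex_convexHull ℝ _ : Convex ℝ (tri (bV k))).addHaar_frontier volume
  refine measure_mono_null ?_ (measure_union_null h1 h2)
  rintro p ⟨hj, hk⟩
  by_contra hn
  rw [mem_union, not_or] at hn
  have a1 : p ∈ interior (tri (bV j)) := by
    by_contra h
    exact hn.1 ⟨subset_closure hj, h⟩
  have a2 : p ∈ interior (tri (bV k)) := by
    by_contra h
    exact hn.2 ⟨subset_closure hk, h⟩
  exact Set.disjoint_left.1 (bV_disj j k hjk) a1 a2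

end BAAux

open BAAux

theorem bC_region : Region bC := poly_region (by norm_num) bb34 edge'

theorem bC_cover : (⋃ k, tri (bV k)) = bC := by
  apply Subset.antisymm
  · apply iUnion_subset
    intro k
    apply convexHull_mono
    rintro _ ⟨i, rfl⟩
    exact ⟨bi k i, bi_lt k i, rfl⟩
  · intro p hp
    rw [bC_half] at hp
    rw [mem_iUnion]
    rcases le_total 0 (ori (bc 16) (bc 17) p) with h | h
    · obtain ⟨k, _, hk⟩ := half_cover hp h
      exact ⟨k, hk⟩
    · have h' : 0 ≤ ori (bc 16) (bc 17) (-p) := by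
        have e := ori_neg (bc 17) (bc 16) p
        have e1 : -bc 17 = bc 16 := by rw [bc_17, neg_neg]
        have e2 : -bc 16 = bc 17 := bc_17.symm
        rw [e1, e2] at e
        rw [e, ori_swap]
        linarith
      obtain ⟨k, hk, hk'⟩ := half_cover (neg_half hp) h'
      refine ⟨⟨(k : ℕ) + 16, by omega⟩, ?_⟩
      have := tri_neg k ⟨(k : ℕ) + 16, by omega⟩ rfl hk'
      rwa [neg_neg] at this

theorem bC_vol : volume bC = ENNReal.ofReal bA := by
  rw [← bC_cover, measure_iUnion₀ ae_disj fun k => (tri_compact k).measurableSet.nullMeasurableSet,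
    tsum_fintype]
  rw [Fin.sum_univ_add (a := 16) (b := 16) fun k => volume (tri (bV k))]
  have e1 : ∀ k : Fin 16, volume (tri (bV (Fin.castAdd 16 k))) = ENNReal.ofReal (bs ((k : ℕ) + 1) / 2) :=
    fun k => vol_fan (Fin.castAdd 16 k) k.isLt
  have e2 : ∀ k : Fin 16, volume (tri (bV (Fin.natAdd 16 k))) = ENNReal.ofReal (bs ((k : ℕ) + 1) / 2) := by
    intro k
    rw [vol_neg (Fin.castAdd 16 k) (Fin.natAdd 16 k) (by
      change 16 + (k : ℕ) = (k : ℕ) + 16
      ring), e1]
  simp_rw [e1, e2]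
  have hn : ∀ j, 0 ≤ bs j := fun j => Real.sqrt_nonneg _
  rw [← ENNReal.ofReal_sum_of_nonneg fun k _ => div_nonneg (hn _) (by norm_num),
    ← ENNReal.ofReal_add (Finset.sum_nonneg fun k _ => div_nonneg (hn _) (by norm_num))
      (Finset.sum_nonneg fun k _ => div_nonneg (hn _) (by norm_num))]
  congr 1
  rw [← Finset.sum_add_distrib]
  simp only [add_halves]
  unfold bA
  rw [Fin.sum_univ_eq_sum_range (fun k => bs (k + 1)) 16]
  refine Finset.sum_bij' (fun i _ => i + 1) (fun j _ => j - 1) ?_ ?_ ?_ ?_ ?_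
  · intro i hi
    rw [Finset.mem_range] at hi
    rw [Finset.mem_Icc]
    omega
  · intro j hj
    rw [Finset.mem_Icc] at hj
    rw [Finset.mem_range]
    omega
  · intro i _
    rfl
  · intro j hj
    rw [Finset.mem_Icc] at hj
    omega
  · intro i _
    rfl

end Pool.Agent.Lib.FOLD
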