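import Pool.Agent.Lib.FOLD.Defs

/-!
# FOLD.BD: a polygon with 34 vertices, definitions
The polyhedron has the 18 vertices `bw 0 = x = (0,0,4789)`, `bw 1 = y = (0,0,-4789)`, `bw (j+1) = E_j` (`1 ≤ j ≤ 16`), integer coordinates `bp`; the rotation `(X,Y,Z) ↦ (X,-Y,-Z)` exchanges `x`, `y` and `E_j`, `E_{17-j}`. Its 32 faces are `x E_j E_{j+1}`, `x E_16 E_1`, `y E_{j+1} E_j`, `y E_1 E_16`.
The faces at `x` are developed around `x` into the plane: `bu j` (`1 ≤ j ≤ 17`) is the planar vector from `x` to `E_j` (`bu 17`: the second copy of `E_1`), by a complex multiplication: `bu (j+1) = bu j * (bg j + i bs j) / br j`.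
The origin of the plane is the middle of the planar edge `E_16 E_1`; `bc 0` is `x`, `bc j = bc 0 + bu j`; `bb i`, `i < 34`, are the vertices of the polygon `bC` in counterclockwise order: `bb i = bc i` (`i ≤ 16`), `bb (i + 17) = - bb i`. `bi k` are the indices of the vertices of the triangle `k` (counterclockwise), `bl` is the label of a boundary index
(`0 ↦ x = 0`, `17 ↦ y = 1`, `i ↦ E_i = i + 1` for `1 ≤ i ≤ 16` and `i ↦ E_{34-i} = 35 - i` for `18 ≤ i ≤ 33`): `bb i` and `bb (34 - i)` are glued.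
-/

set_option autoImplicit false

open MeasureTheory Set Filter Topology Metric
open scoped MeasureTheory ENNReal

namespace Pool.Agent.Lib.FOLD

/-- integer coordinates of the vertices of the polyhedron -/
def bp (l : ℕ) : ℤ × ℤ × ℤ :=
  ([(0, 0, 4789), (0, 0, -4789), (3531, 2446, 281), (2314, 2732, -287), (1327, 2769, -565), (476, 2599, -667),
    (-250, 2243, -645), (-829, 1728, -525), (-1237, 1089, -322), (-1446, 372, -109), (-1446, -372, 109),
    (-1237, -1089, 322), (-829, -1728, 525), (-250, -2243, 645), (476, -2599, 667), (1327, -2769, 565),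
    (2314, -2732, 287), (3531, -2446, -281)] : List (ℤ × ℤ × ℤ)).getD l (0, 0, 0)

/-- integer dot product -/
def dotI (a b : ℤ × ℤ × ℤ) : ℤ := a.1 * b.1 + a.2.1 * b.2.1 + a.2.2 * b.2.2

/-- integer difference -/
def subI (a b : ℤ × ℤ × ℤ) : ℤ × ℤ × ℤ := (a.1 - b.1, a.2.1 - b.2.1, a.2.2 - b.2.2)

/-- integer vector product -/
def crI (a b : ℤ × ℤ × ℤ) : ℤ × ℤ × ℤ :=
  (a.2.1 * b.2.2 - a.2.2 * b.2.1, a.2.2 * b.1 - a.1 * b.2.2, a.1 * b.2.1 - a.2.1 * b.1)

/-- label of a boundary index -/
def bl (i : ℕ) : ℕ := if i = 0 then 0 else if i = 17 then 1 else if i ≤ 16 then i + 1 else 35 - i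

/-- boundary indices of the vertices of the triangles (counterclockwise) -/
def bi (k : Fin 32) (i : Fin 3) : ℕ :=
  if (k : ℕ) < 15 then (![0, (k : ℕ) + 1, (k : ℕ) + 2] : Fin 3 → ℕ) i
  else if (k : ℕ) = 15 then (![0, 16, 33] : Fin 3 → ℕ) i
  else if (k : ℕ) < 31 then (![17, (k : ℕ) + 2, (k : ℕ) + 3] : Fin 3 → ℕ) i
  else (![17, 33, 16] : Fin 3 → ℕ) i

/-- labels of the vertices of the triangles -/
def blab (k : Fin 32) (i : Fin 3) : Fin 18 := Fin.ofNat 18 (bl (bi k i))

/-- integer coordinates of the vertices of the face `k` -/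
def bf (k : Fin 32) (i : Fin 3) : ℤ × ℤ × ℤ := bp (bl (bi k i))

/-- integer outer normals -/
def bnI (k : Fin 32) : ℤ × ℤ × ℤ := crI (subI (bf k 1) (bf k 0)) (subI (bf k 2) (bf k 0))

/-- integer right sides -/
def bhI (k : Fin 32) : ℤ := dotI (bnI k) (bf k 0)

/-- the point of space with the given integer coordinates -/
noncomputable def toE3 (a : ℤ × ℤ × ℤ) : E3 := !₂[(a.1 : ℝ), (a.2.1 : ℝ), (a.2.2 : ℝ)]

/-- the vertices of the polyhedron -/
noncomputable def bw (l : Fin 18) : E3 := toE3 (bp l)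

/-- the outer normals -/
noncomputable def bn (k : Fin 32) : E3 := toE3 (bnI k)

/-- the right sides -/
noncomputable def bh (k : Fin 32) : ℝ := bhI k

/-- the vectors from `x` to `E_1, …, E_16, E_1` (index `1` to `17`) -/
def ba (j : ℕ) : ℤ × ℤ × ℤ := subI (bp (if j = 17 then 2 else j + 1)) (bp 0)

/-- squared length of `ba j` -/
def br (j : ℕ) : ℤ := dotI (ba j) (ba j)

/-- inner product of `ba j` and `ba (j + 1)` -/
def bg (j : ℕ) : ℤ := dotI (ba j) (ba (j + 1))

/-- `bs j ^ 2` -/
def bq (j : ℕ) : ℤ := br j * br (j + 1) - bg j ^ 2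

/-- twice the area of the triangle `x E_j E_{j+1}` -/
noncomputable def bs (j : ℕ) : ℝ := √(bq j)

/-- the developed vectors -/
noncomputable def bu : ℕ → ℝ × ℝ
  | 0 => (0, 0)
  | 1 => (√(br 1), 0)
  | (j + 2) => ((bg (j + 1) * (bu (j + 1)).1 - bs (j + 1) * (bu (j + 1)).2) / br (j + 1),
      (bg (j + 1) * (bu (j + 1)).2 + bs (j + 1) * (bu (j + 1)).1) / br (j + 1))

/-- coordinates of `x` in the plane -/
noncomputable def b0 : ℝ × ℝ := (-((bu 16).1 + (bu 17).1) / 2, -((bu 16).2 + (bu 17).2) / 2)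

/-- the developed points (`bc 0 = x`, `bc j = E_j`) -/
noncomputable def bc (j : ℕ) : E2 := !₂[b0.1 + (bu j).1, b0.2 + (bu j).2]

/-- the vertices of the polygon -/
noncomputable def bb (i : ℕ) : E2 := if i % 34 < 17 then bc (i % 34) else -bc (i % 34 - 17)

/-- the polygon -/
def bC : Set E2 := convexHull ℝ (bb '' Iio 34)

/-- the triangles in the plane -/
noncomputable def bV (k : Fin 32) (i : Fin 3) : E2 := bb (bi k i)

/-- orientation of three points of the plane: twice the signed area -/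
def ori (a b c : E2) : ℝ := (b 0 - a 0) * (c 1 - a 1) - (b 1 - a 1) * (c 0 - a 0)

/-- area of the polygon -/
noncomputable def bA : ℝ := ∑ j ∈ Finset.Icc 1 16, bs j

/-- approximations of `10000 * bu j`, first coordinate -/
def buA (j : ℕ) : ℤ :=
  ([0, 62267922, 60602334, 57155336, 52339806, 46445394, 39724371, 32353777, 24829054, 17176165, 9436819, 1588473,
    -6252714, -14341457, -23079281, -33339953, -47071304, -62267888] : List ℤ).getD j 0

/-- approximations of `10000 * bu j`, second coordinate -/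
def buB (j : ℕ) : ℤ :=
  ([0, 0, 13629993, 23294382, 30585553, 36125003, 40164118, 42861104, 44782680, 46023357, 46668666, 46722252,
    46771060, 46813980, 46844353, 46873126, 46902772, 64597] : List ℤ).getD j 0

/-- approximations of `20000 * bc j` -/
def bcI (j : ℕ) : ℤ × ℤ :=
  if j = 0 then (-(buA 16 + buA 17), -(buB 16 + buB 17))
  else (2 * buA j - (buA 16 + buA 17), 2 * buB j - (buB 16 + buB 17))

/-- approximations of `20000 * bb i` -/
def bbI (i : ℕ) : ℤ × ℤ := if i % 34 < 17 then bcI (i % 34) else (-(bcI (i % 34 - 17)).1, -(bcI (i % 34 - 17)).2)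

/-- integer orientation -/
def oriI (a b c : ℤ × ℤ) : ℤ := (b.1 - a.1) * (c.2 - a.2) - (b.2 - a.2) * (c.1 - a.1)

/-- glued oriented boundary edges: `(a, b)` is a boundary edge (in one of the two orders) and `(a', b')` is its mirror
image under `i ↦ 34 - i` (indices modulo `34`) -/
def bG (a b a' b' : ℕ) : Prop :=
  (a < 34 ∧ b = (a + 1) % 34 ∧ a' = (34 - a) % 34 ∧ b' = 33 - a) ∨
  (b < 34 ∧ a = (b + 1) % 34 ∧ b' = (34 - b) % 34 ∧ a' = 33 - b)

instance (a b a' b' : ℕ) : Decidable (bG a b a' b') := by unfold bG; infer_instance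

end Pool.Agent.Lib.FOLD
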