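import Pool.Agent.Lib.FOLD.BN

/-!
# FOLD.BS: sign conditions of the polygon with 34 vertices (1 h)
Definitions in FOLD.BD, finite checks in FOLD.BK (`bk_edge`, `bk_fan`, `bk_sep`, `bk_bound`), numerical values in FOLD.BN (`bu_approx`).
PROOF. By `bu_approx`, `|20000 * bc j - bcI j| ≤ 4` in each coordinate (`0 ≤ j ≤ 17`; `bu 0 = 0`), so the same for `bb i` and `bbI i`. `|bcI j| ≤ 20000 · 12000`, so the differences of two approximate points are at most `4.8 · 10⁸` with error at most `8`, and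
`|20000² ori a b c - oriI a' b' c'| ≤ 2 (2 · 8 · 4.8 · 10⁸ + 64) < 1.6 · 10¹⁰ < 4 · 10¹⁰ = 100 · 20000²`. So `ori > 0` by the checks.
-/

set_option autoImplicit false

open MeasureTheory Set Filter Topology Metric
open scoped MeasureTheory ENNReal

namespace Pool.Agent.Lib.FOLD

namespace BSAux

theorem mul_err {x y e f M : ℝ} (hx : |x| ≤ M) (hy : |y| ≤ M) (he : |e| ≤ 8) (hf : |f| ≤ 8) :
    |(x + e) * (y + f) - x * y| ≤ 16 * M + 64 := by
  have hM : 0 ≤ M := le_trans (abs_nonneg x) hx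
  have h1 : |x * f| ≤ M * 8 := by rw [abs_mul]; exact mul_le_mul hx hf (abs_nonneg _) hM
  have h2 : |e * y| ≤ 8 * M := by rw [abs_mul]; exact mul_le_mul he hy (abs_nonneg _) (by norm_num)
  have h3 : |e * f| ≤ 8 * 8 := by rw [abs_mul]; exact mul_le_mul he hf (abs_nonneg _) (by norm_num)
  have e1 : (x + e) * (y + f) - x * y = x * f + e * y + e * f := by ring
  rw [e1]
  rw [abs_le] at h1 h2 h3 ⊢
  constructor <;> linarith [h1.1, h1.2, h2.1, h2.2, h3.1, h3.2]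

/-- `a'` approximates `20000 * a` -/
def App (a : E2) (a' : ℤ × ℤ) : Prop :=
  (|20000 * a 0 - a'.1| ≤ 4 ∧ |20000 * a 1 - a'.2| ≤ 4) ∧ |a'.1| ≤ 20000 * 12000 ∧ |a'.2| ≤ 20000 * 12000

theorem diff_bound {x y : ℤ} (hx : |x| ≤ 20000 * 12000) (hy : |y| ≤ 20000 * 12000) :
    |(x : ℝ) - y| ≤ 480000000 := by
  have h : |x - y| ≤ 480000000 := by
    rw [abs_le] at hx hy ⊢
    constructor <;> linarith [hx.1, hx.2, hy.1, hy.2]
  exact_mod_cast h

theorem diff_err {u v : ℝ} {x y : ℤ} (hx : |20000 * u - x| ≤ 4) (hy : |20000 * v - y| ≤ 4) :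
    |20000 * (u - v) - ((x : ℝ) - y)| ≤ 8 := by
  rw [abs_le] at hx hy ⊢
  constructor <;> linarith [hx.1, hx.2, hy.1, hy.2]

theorem ori_pos {a b c : E2} {a' b' c' : ℤ × ℤ} (ha : App a a') (hb : App b b') (hc : App c c')
    (h : 100 * 20000 ^ 2 ≤ oriI a' b' c') : 0 < ori a b c := by
  obtain ⟨⟨a1, a2⟩, a3, a4⟩ := ha
  obtain ⟨⟨b1, b2⟩, b3, b4⟩ := hb
  obtain ⟨⟨c1, c2⟩, c3, c4⟩ := hc
  have h' : (100 : ℝ) * 20000 ^ 2 ≤ ((b'.1 : ℝ) - a'.1) * (c'.2 - a'.2) - (b'.2 - a'.2) * (c'.1 - a'.1) := by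
    have := h
    unfold oriI at this
    exact_mod_cast this
  have k1 := mul_err (diff_bound b3 a3) (diff_bound c4 a4) (diff_err b1 a1) (diff_err c2 a2)
  have k2 := mul_err (diff_bound b4 a4) (diff_bound c3 a3) (diff_err b2 a2) (diff_err c1 a1)
  rw [abs_le] at k1 k2
  have e1 : 20000 ^ 2 * ori a b c =
      ((b'.1 : ℝ) - a'.1 + (20000 * (b 0 - a 0) - ((b'.1 : ℝ) - a'.1))) *
        ((c'.2 : ℝ) - a'.2 + (20000 * (c 1 - a 1) - ((c'.2 : ℝ) - a'.2))) -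
      ((b'.2 : ℝ) - a'.2 + (20000 * (b 1 - a 1) - ((b'.2 : ℝ) - a'.2))) *
        ((c'.1 : ℝ) - a'.1 + (20000 * (c 0 - a 0) - ((c'.1 : ℝ) - a'.1))) := by
    unfold ori
    ring
  have h3 : 0 < 20000 ^ 2 * ori a b c := by
    rw [e1]
    norm_num at h' k1 k2 ⊢
    linarith [k1.1, k2.2]
  exact pos_of_mul_pos_right h3 (by norm_num)

theorem bc_zero (j : ℕ) : (bc j) 0 = b0.1 + (bu j).1 := rfl

theorem bc_one (j : ℕ) : (bc j) 1 = b0.2 + (bu j).2 := rfl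

theorem bc_app {j : ℕ} (hj : j ≤ 17) : App (bc j) (bcI j) := by
  obtain ⟨p1, p2⟩ := bu_approx (show 1 ≤ 16 by norm_num) (show 16 ≤ 17 by norm_num)
  obtain ⟨q1, q2⟩ := bu_approx (show 1 ≤ 17 by norm_num) (show 17 ≤ 17 by norm_num)
  have hb := bk_bound ⟨j, by omega⟩
  refine ⟨?_, hb⟩
  rw [bc_zero, bc_one]
  unfold b0
  rw [abs_le] at p1 p2 q1 q2
  rcases Nat.eq_zero_or_pos j with rfl | h
  · have e0 : bu 0 = (0, 0) := by rw [bu]
    rw [e0]
    unfold bcI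
    rw [if_pos rfl]
    push_cast
    constructor
    · rw [abs_le]
      constructor <;> linarith [p1.1, p1.2, q1.1, q1.2]
    · rw [abs_le]
      constructor <;> linarith [p2.1, p2.2, q2.1, q2.2]
  · obtain ⟨r1, r2⟩ := bu_approx (show 1 ≤ j from h) hj
    rw [abs_le] at r1 r2
    unfold bcI
    rw [if_neg (by omega)]
    push_cast
    constructor
    · rw [abs_le]
      constructor <;> linarith [p1.1, p1.2, q1.1, q1.2, r1.1, r1.2]
    · rw [abs_le]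
      constructor <;> linarith [p2.1, p2.2, q2.1, q2.2, r2.1, r2.2]

theorem App.neg {a : E2} {a' : ℤ × ℤ} (h : App a a') : App (-a) (-a'.1, -a'.2) := by
  obtain ⟨⟨a1, a2⟩, a3, a4⟩ := h
  have e0 : (-a) 0 = -(a 0) := rfl
  have e1 : (-a) 1 = -(a 1) := rfl
  refine ⟨⟨?_, ?_⟩, ?_, ?_⟩
  · rw [e0]
    push_cast
    rw [abs_le] at a1 ⊢
    constructor <;> linarith [a1.1, a1.2]
  · rw [e1]
    push_cast
    rw [abs_le] at a2 ⊢
    constructor <;> linarith [a2.1, a2.2]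
  · simpa using a3
  · simpa using a4

theorem bb_app (i : ℕ) : App (bb i) (bbI i) := by
  have hi : i % 34 < 34 := Nat.mod_lt _ (by norm_num)
  unfold bb bbI
  by_cases h : i % 34 < 17
  · rw [if_pos h, if_pos h]
    exact bc_app (by omega)
  · rw [if_neg h, if_neg h]
    exact (bc_app (by omega)).neg

end BSAux

open BSAux

theorem b_edge {i k : ℕ} (hi : i < 34) (hk : k < 34) (h1 : k ≠ i) (h2 : k ≠ (i + 1) % 34) :
    0 < ori (bb i) (bb (i + 1)) (bb k) :=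
  ori_pos (bb_app i) (bb_app (i + 1)) (bb_app k) (bk_edge ⟨i, hi⟩ ⟨k, hk⟩ h1 h2)

theorem b_fan {j k : ℕ} (hj : 0 < j) (hjk : j < k) (hk : k ≤ 17) : 0 < ori (bc 0) (bc j) (bc k) :=
  ori_pos (bc_app (by omega)) (bc_app (by omega)) (bc_app hk)
    (bk_fan ⟨j, by omega⟩ ⟨k, by omega⟩ (by exact_mod_cast hj) (by exact_mod_cast hjk))

theorem b_sep {j : ℕ} (hj : j < 16) : 0 < ori (bc 16) (bc 17) (bc j) :=
  ori_pos (bc_app (by omega)) (bc_app (by omega)) (bc_app (by omega)) (bk_sep ⟨j, hj⟩)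

end Pool.Agent.Lib.FOLD
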