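import Pool.Agent.Lib.FOLD.Defs

/-!
# FOLD.PArc: arc length parametrisation of a polygon (1.5 h)
PROOF. `d i = dist (b i) (b (i+1)) > 0` (`hinj` with `i = j`, `s = 0`, `t = 1/2`), `σ i = ∑_{k<i} d k`, `L = σ m`. `γ s = lineMap (b i) (b (i+1)) ((s - σ i)/d i)` for the largest `i < m` with `σ i ≤ s` (constant outside `[0,L]`; any choice). On `[σ i, σ (i+1)]` `γ` is this affine map
(continuous at the corners), so it is `1`-Lipschitz on each piece and on `[0,L]` (triangle inequality through the corners, induction). Onto by `hfr`, injective on `[0,L)` by `hinj`. Length: `μH[1]` of the union of the segments is the sum (`hausdorffMeasure_segment`; two segments meet at most in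
end points by `hinj`, a finite set, `μH[1]` has no atoms; `AEDisjoint`). Glued: by `hsym` and reflection of sums `L - σ i = σ (m - i)`, so for `s = σ i + t d i`: `L - s = σ (m-i) - t d i`, which is in the piece `m - i - 1` (`d (m-1-i) = d i`), so
`γ (L - s) = lineMap (b (m-i)) (b (m-i-1)) t`.
-/

set_option autoImplicit false

open MeasureTheory Set Filter Topology Metric
open scoped MeasureTheory ENNReal

namespace Pool.Agent.Lib.FOLD

namespace PArcAux

/-- side lengths -/
noncomputable def dd (b : ℕ → E2) (i : ℕ) : ℝ := dist (b i) (b (i + 1))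

/-- partial sums -/
noncomputable def sg (b : ℕ → E2) (n : ℕ) : ℝ := ∑ k ∈ Finset.range n, dd b k

/-- clamped length in the piece `i` -/
noncomputable def cl (b : ℕ → E2) (i : ℕ) (s : ℝ) : ℝ := max 0 (min (dd b i) (s - sg b i))

/-- the parametrisation -/
noncomputable def gm (b : ℕ → E2) (m : ℕ) (s : ℝ) : E2 :=
  b 0 + ∑ i ∈ Finset.range m, (cl b i s / dd b i) • (b (i + 1) - b i)

theorem dd_nonneg (b : ℕ → E2) (i : ℕ) : 0 ≤ dd b i := dist_nonneg

theorem sg_zero (b : ℕ → E2) : sg b 0 = 0 := by simp [sg]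

theorem sg_succ (b : ℕ → E2) (n : ℕ) : sg b (n + 1) = sg b n + dd b n := by
  rw [sg, Finset.sum_range_succ, ← sg]

theorem sg_mono (b : ℕ → E2) : Monotone (sg b) := by
  apply monotone_nat_of_le_succ
  intro n
  rw [sg_succ]
  linarith [dd_nonneg b n]

theorem sg_nonneg (b : ℕ → E2) (n : ℕ) : 0 ≤ sg b n := by
  rw [← sg_zero b]
  exact sg_mono b (Nat.zero_le n)

theorem cl_sum (b : ℕ → E2) (n : ℕ) {s : ℝ} (hs : 0 ≤ s) :
    ∑ i ∈ Finset.range n, cl b i s = min s (sg b n) := by
  induction n with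
  | zero => simp [sg_zero, hs]
  | succ n ih =>
    rw [Finset.sum_range_succ, ih, sg_succ, cl]
    have h0 := dd_nonneg b n
    rcases le_total s (sg b n) with h | h
    · rw [min_eq_left h, max_eq_left, add_zero, min_eq_left (by linarith)]
      exact (min_le_right _ _).trans (by linarith)
    · rw [min_eq_right h, max_eq_right (le_min h0 (by linarith))]
      rcases le_total (dd b n) (s - sg b n) with h' | h'
      · rw [min_eq_left h', min_eq_right (by linarith)]
      · rw [min_eq_right h', min_eq_left (by linarith)]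
        ring

theorem cl_mono (b : ℕ → E2) (i : ℕ) {s s' : ℝ} (h : s ≤ s') : cl b i s ≤ cl b i s' := by
  unfold cl
  exact max_le_max_left _ (min_le_min_left _ (by linarith))

theorem gm_lip_aux {b : ℕ → E2} {m : ℕ} (hd : ∀ i < m, 0 < dd b i) {s s' : ℝ} (hs : 0 ≤ s)
    (h : s ≤ s') (hs' : s' ≤ sg b m) : dist (gm b m s) (gm b m s') ≤ s' - s := by
  rw [dist_comm, dist_eq_norm, gm, gm, add_sub_add_left_eq_sub, ← Finset.sum_sub_distrib]
  refine (norm_sum_le _ _).trans ?_
  have h1 : ∑ i ∈ Finset.range m, cl b i s' - ∑ i ∈ Finset.range m, cl b i s = s' - s := by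
    rw [cl_sum b m hs, cl_sum b m (hs.trans h), min_eq_left hs', min_eq_left (h.trans hs')]
  rw [← h1, ← Finset.sum_sub_distrib]
  apply Finset.sum_le_sum
  intro i hi
  have hdi := hd i (Finset.mem_range.1 hi)
  rw [← sub_smul, ← sub_div, norm_smul, Real.norm_eq_abs, abs_div, abs_of_pos hdi,
    abs_of_nonneg (sub_nonneg.2 (cl_mono b i h))]
  have h2 : ‖b (i + 1) - b i‖ = dd b i := by
    rw [dd, dist_comm, dist_eq_norm]
  rw [h2, div_mul_cancel₀ _ hdi.ne']

theorem gm_lip {b : ℕ → E2} {m : ℕ} (hd : ∀ i < m, 0 < dd b i) :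
    LipschitzOnWith 1 (gm b m) (Icc 0 (sg b m)) := by
  apply LipschitzOnWith.of_dist_le_mul
  intro s hs s' hs'
  rw [NNReal.coe_one, one_mul]
  rcases le_total s s' with h | h
  · refine (gm_lip_aux hd hs.1 h hs'.2).trans ?_
    rw [Real.dist_eq, abs_sub_comm]
    exact le_abs_self _
  · rw [dist_comm]
    refine (gm_lip_aux hd hs'.1 h hs.2).trans ?_
    rw [Real.dist_eq]
    exact le_abs_self _

/-- on the piece `j` the curve is affine -/
theorem gm_piece {b : ℕ → E2} {m : ℕ} (hd : ∀ i < m, 0 < dd b i) {j : ℕ} (hj : j < m) {t : ℝ}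
    (ht : t ∈ Icc (0 : ℝ) 1) :
    gm b m (sg b j + t * dd b j) = AffineMap.lineMap (b j) (b (j + 1)) t := by
  have hdj := hd j hj
  set s := sg b j + t * dd b j with hs
  have h0 : sg b j ≤ s := by
    have := mul_nonneg ht.1 hdj.le
    linarith
  have h1 : s ≤ sg b (j + 1) := by
    rw [sg_succ]
    have := mul_le_mul_of_nonneg_right ht.2 hdj.le
    linarith
  -- the first pieces
  have A : ∀ n ≤ j, ∑ i ∈ Finset.range n, (cl b i s / dd b i) • (b (i + 1) - b i) = b n - b 0 := by
    intro n hn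
    induction n with
    | zero => simp
    | succ n ih =>
      rw [Finset.sum_range_succ, ih (by omega)]
      have hdn := hd n (by omega)
      have h2 : sg b (n + 1) ≤ s := (sg_mono b hn).trans h0
      rw [sg_succ] at h2
      have h3 : cl b n s = dd b n := by
        rw [cl, min_eq_left (by linarith), max_eq_right hdn.le]
      rw [h3, div_self hdn.ne', one_smul]
      abel
  have B : ∀ k, j + 1 + k ≤ m → ∑ i ∈ Finset.range (j + 1 + k),
      (cl b i s / dd b i) • (b (i + 1) - b i) = (b j - b 0) + t • (b (j + 1) - b j) := by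
    intro k hk
    induction k with
    | zero =>
      rw [Nat.add_zero, Finset.sum_range_succ, A j le_rfl]
      have h3 : cl b j s = t * dd b j := by
        rw [cl, hs, add_sub_cancel_left, min_eq_right, max_eq_right (mul_nonneg ht.1 hdj.le)]
        have := mul_le_mul_of_nonneg_right ht.2 hdj.le
        linarith
      rw [h3, mul_div_cancel_right₀ _ hdj.ne']
    | succ k ih =>
      rw [← Nat.add_assoc, Finset.sum_range_succ, ih (by omega)]
      have h2 : s ≤ sg b (j + 1 + k) := h1.trans (sg_mono b (by omega))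
      have h3 : cl b (j + 1 + k) s = 0 := by
        rw [cl]
        apply max_eq_left
        exact (min_le_right _ _).trans (by linarith)
      rw [h3, zero_div, zero_smul, add_zero]
  obtain ⟨k, hk⟩ := Nat.exists_eq_add_of_le (show j + 1 ≤ m from hj)
  have hB := B k (by omega)
  rw [← hk] at hB
  rw [gm, hB, AffineMap.lineMap_apply, vsub_eq_sub, vadd_eq_add]
  abel

theorem exists_piece {b : ℕ → E2} {n : ℕ} (hd : ∀ i < n, 0 < dd b i) {s : ℝ} (hs : 0 ≤ s)
    (h : s < sg b n) : ∃ j < n, ∃ t ∈ Ico (0 : ℝ) 1, s = sg b j + t * dd b j := by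
  induction n with
  | zero =>
    rw [sg_zero] at h
    linarith
  | succ n ih =>
    rcases lt_or_ge s (sg b n) with h' | h'
    · obtain ⟨j, hj, t, ht, he⟩ := ih (fun i hi => hd i (by omega)) h'
      exact ⟨j, by omega, t, ht, he⟩
    · have hdn := hd n (by omega)
      rw [sg_succ] at h
      refine ⟨n, by omega, (s - sg b n) / dd b n, ⟨?_, ?_⟩, ?_⟩
      · exact div_nonneg (by linarith) hdn.le
      · rw [div_lt_one hdn]
        linarith
      · rw [div_mul_cancel₀ _ hdn.ne']
        ring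

theorem exists_piece' {b : ℕ → E2} {m : ℕ} (hm : 0 < m) (hd : ∀ i < m, 0 < dd b i) {s : ℝ}
    (hs : s ∈ Icc 0 (sg b m)) : ∃ j < m, ∃ t ∈ Icc (0 : ℝ) 1, s = sg b j + t * dd b j := by
  rcases lt_or_ge s (sg b m) with h | h
  · obtain ⟨j, hj, t, ht, he⟩ := exists_piece hd hs.1 h
    exact ⟨j, hj, t, ⟨ht.1, ht.2.le⟩, he⟩
  · have he : s = sg b m := le_antisymm hs.2 h
    obtain ⟨k, rfl⟩ : ∃ k, m = k + 1 := ⟨m - 1, by omega⟩
    refine ⟨k, by omega, 1, ⟨zero_le_one, le_rfl⟩, ?_⟩
    rw [he, sg_succ, one_mul]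

theorem piece_mem {b : ℕ → E2} {m : ℕ} {j : ℕ} (hj : j < m) {t : ℝ}
    (ht : t ∈ Icc (0 : ℝ) 1) : sg b j + t * dd b j ∈ Icc 0 (sg b m) := by
  have h0 := dd_nonneg b j
  constructor
  · exact add_nonneg (sg_nonneg b j) (mul_nonneg ht.1 h0)
  · have h1 : sg b (j + 1) ≤ sg b m := sg_mono b hj
    rw [sg_succ] at h1
    have := mul_le_mul_of_nonneg_right ht.2 h0
    linarith

theorem seg_eq (x y : E2) : segment ℝ x y = AffineMap.lineMap x y '' Icc (0 : ℝ) 1 :=
  segment_eq_image_lineMap ℝ x y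

/-- reflection of the partial sums -/
theorem sg_refl {b : ℕ → E2} {m : ℕ} (hsym : ∀ i < m, dd b i = dd b (m - 1 - i)) :
    ∀ j ≤ m, sg b m - sg b j = sg b (m - j) := by
  intro j hj
  induction j with
  | zero => rw [sg_zero, Nat.sub_zero, sub_zero]
  | succ j ih =>
    have h1 := ih (by omega)
    have h2 : m - j = (m - (j + 1)) + 1 := by omega
    rw [h2, sg_succ] at h1
    have h3 := hsym j (by omega)
    have h4 : m - 1 - j = m - (j + 1) := by omega
    rw [h4] at h3
    rw [sg_succ]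
    linarith

/-- half-open side -/
def hs (b : ℕ → E2) (i : ℕ) : Set E2 := AffineMap.lineMap (b i) (b (i + 1)) '' Ico (0 : ℝ) 1

theorem hs_eq (b : ℕ → E2) (i : ℕ) : segment ℝ (b i) (b (i + 1)) = hs b i ∪ {b (i + 1)} := by
  rw [seg_eq, hs]
  ext p
  constructor
  · rintro ⟨t, ht, rfl⟩
    rcases lt_or_ge t 1 with h | h
    · exact Or.inl ⟨t, ⟨ht.1, h⟩, rfl⟩
    · right
      have : t = 1 := le_antisymm ht.2 h
      rw [this, AffineMap.lineMap_apply_one]
      exact mem_singleton _
  · rintro (⟨t, ht, rfl⟩ | h)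
    · exact ⟨t, ⟨ht.1, ht.2.le⟩, rfl⟩
    · rw [mem_singleton_iff] at h
      rw [h]
      exact ⟨1, ⟨zero_le_one, le_rfl⟩, AffineMap.lineMap_apply_one _ _⟩

theorem not_mem_hs {b : ℕ → E2} {i : ℕ} (hd : 0 < dd b i) : b (i + 1) ∉ hs b i := by
  rintro ⟨t, ht, h⟩
  have h1 : dist (AffineMap.lineMap (b i) (b (i + 1)) t) (b (i + 1)) = ‖1 - t‖ * dist (b i) (b (i + 1)) :=
    dist_lineMap_right _ _ _
  rw [h, dist_self, Real.norm_eq_abs, abs_of_pos (by linarith [ht.2])] at h1
  have h2 : 0 < (1 - t) * dist (b i) (b (i + 1)) := mul_pos (by linarith [ht.2]) hd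
  linarith

theorem hs_diff {b : ℕ → E2} {i : ℕ} (hd : 0 < dd b i) :
    hs b i = segment ℝ (b i) (b (i + 1)) \ {b (i + 1)} := by
  rw [hs_eq, union_sdiff_right, sdiff_singleton_eq_self (not_mem_hs hd)]

theorem meas_hs {b : ℕ → E2} {i : ℕ} (hd : 0 < dd b i) : MeasurableSet (hs b i) := by
  rw [hs_diff hd]
  apply MeasurableSet.diff
  · have : IsCompact (segment ℝ (b i) (b (i + 1))) := by
      rw [seg_eq]
      exact isCompact_Icc.image AffineMap.lineMap_continuous
    exact this.isClosed.measurableSet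
  · exact measurableSet_singleton _

theorem vol_hs {b : ℕ → E2} {i : ℕ} (hd : 0 < dd b i) : μH[1] (hs b i) = ENNReal.ofReal (dd b i) := by
  have : NullSingletonClass (μH[1] : Measure E2) := Measure.nullSingletonClass_hausdorff E2 one_pos
  rw [hs_diff hd, measure_sdiff_null (measure_singleton _), hausdorffMeasure_segment, edist_dist]
  rfl

theorem union_hs {b : ℕ → E2} {m : ℕ} (hm : 0 < m) (hb : b m = b 0) :
    (⋃ i ∈ Finset.range m, segment ℝ (b i) (b (i + 1))) = ⋃ i ∈ Finset.range m, hs b i := by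
  have hstart : ∀ i, b i ∈ hs b i := fun i =>
    ⟨0, ⟨le_rfl, one_pos⟩, AffineMap.lineMap_apply_zero _ _⟩
  apply subset_antisymm
  · intro p hp
    simp only [mem_iUnion, Finset.mem_range, exists_prop] at hp ⊢
    obtain ⟨i, hi, hp⟩ := hp
    rw [hs_eq] at hp
    rcases hp with hp | hp
    · exact ⟨i, hi, hp⟩
    · rw [mem_singleton_iff] at hp
      rcases Nat.lt_or_ge (i + 1) m with h | h
      · exact ⟨i + 1, h, by rw [hp]; exact hstart _⟩
      · have : i + 1 = m := by omega
        rw [this, hb] at hp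
        exact ⟨0, hm, by rw [hp]; exact hstart _⟩
  · intro p hp
    simp only [mem_iUnion, Finset.mem_range, exists_prop] at hp ⊢
    obtain ⟨i, hi, hp⟩ := hp
    refine ⟨i, hi, ?_⟩
    rw [hs_eq]
    exact Or.inl hp

end PArcAux

open PArcAux in
theorem poly_arc {C : Set E2} {m : ℕ} (hm : 0 < m) (b : ℕ → E2) (hb : b m = b 0)
    (hfr : frontier C = ⋃ i ∈ Finset.range m, segment ℝ (b i) (b (i + 1)))
    (hinj : ∀ i < m, ∀ j < m, ∀ s ∈ Ico (0 : ℝ) 1, ∀ t ∈ Ico (0 : ℝ) 1,
      AffineMap.lineMap (b i) (b (i + 1)) s = AffineMap.lineMap (b j) (b (j + 1)) t → i = j ∧ s = t)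
    (hsym : ∀ i < m, dist (b i) (b (i + 1)) = dist (b (m - 1 - i)) (b (m - i))) :
    ∃ (L : ℝ) (γ : ℝ → E2), ArcParam C L γ ∧ InjOn γ (Ico 0 L) ∧ ∀ p q, Glued L γ p q ↔
      ∃ i < m, ∃ t ∈ Icc (0 : ℝ) 1, p = AffineMap.lineMap (b i) (b (i + 1)) t ∧
        q = AffineMap.lineMap (b (m - i)) (b (m - i - 1)) t := by
  have hd : ∀ i < m, 0 < dd b i := by
    intro i hi
    rw [dd, dist_pos]
    intro he
    have h1 := hinj i hi i hi 0 ⟨le_rfl, one_pos⟩ (1 / 2) ⟨by norm_num, by norm_num⟩ (by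
      rw [← he, AffineMap.lineMap_same]
      rfl)
    norm_num at h1
  have hsym' : ∀ i < m, dd b i = dd b (m - 1 - i) := by
    intro i hi
    rw [dd, dd, hsym i hi]
    congr 2
    omega
  have hL : 0 < sg b m := by
    have h1 : sg b 1 ≤ sg b m := sg_mono b hm
    rw [show (1 : ℕ) = 0 + 1 from rfl, sg_succ, sg_zero] at h1
    have := hd 0 hm
    linarith
  have h0 : gm b m 0 = b 0 := by
    have := gm_piece hd hm (t := 0) ⟨le_rfl, zero_le_one⟩
    rwa [sg_zero, zero_mul, add_zero, AffineMap.lineMap_apply_zero] at this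
  have h1 : gm b m (sg b m) = b 0 := by
    obtain ⟨k, hk⟩ : ∃ k, m = k + 1 := ⟨m - 1, by omega⟩
    have := gm_piece hd (show k < m by omega) (t := 1) ⟨zero_le_one, le_rfl⟩
    rw [one_mul, ← sg_succ, AffineMap.lineMap_apply_one, ← hk, hb] at this
    exact this
  refine ⟨sg b m, gm b m, ⟨hL, gm_lip hd, h1.trans h0.symm, ?_, ?_⟩, ?_, ?_⟩
  · rw [hfr]
    ext p
    simp only [mem_image, mem_iUnion, Finset.mem_range, exists_prop]
    constructor
    · rintro ⟨s, hs, rfl⟩
      obtain ⟨j, hj, t, ht, rfl⟩ := exists_piece' hm hd hs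
      refine ⟨j, hj, ?_⟩
      rw [gm_piece hd hj ht, seg_eq]
      exact ⟨t, ht, rfl⟩
    · rintro ⟨j, hj, hp⟩
      rw [seg_eq] at hp
      obtain ⟨t, ht, rfl⟩ := hp
      exact ⟨_, piece_mem hj ht, gm_piece hd hj ht⟩
  · rw [hfr, union_hs hm hb, measure_biUnion_finset]
    · rw [sg, ENNReal.ofReal_sum_of_nonneg (fun i _ => dd_nonneg b i)]
      apply Finset.sum_congr rfl
      intro i hi
      exact vol_hs (hd i (Finset.mem_range.1 hi))
    · intro i hi j hj hij
      rw [Function.onFun, Set.disjoint_left]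
      rintro p ⟨s, hs, rfl⟩ ⟨t, ht, h⟩
      have hi' : i < m := Finset.mem_range.1 hi
      have hj' : j < m := Finset.mem_range.1 hj
      exact hij (hinj i hi' j hj' s hs t ht h.symm).1
    · intro i hi
      exact meas_hs (hd i (Finset.mem_range.1 hi))
  · intro s hs s' hs' he
    obtain ⟨j, hj, t, ht, rfl⟩ := exists_piece hd hs.1 hs.2
    obtain ⟨j', hj', t', ht', rfl⟩ := exists_piece hd hs'.1 hs'.2
    rw [gm_piece hd hj ⟨ht.1, ht.2.le⟩, gm_piece hd hj' ⟨ht'.1, ht'.2.le⟩] at he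
    obtain ⟨rfl, rfl⟩ := hinj j hj j' hj' t ht t' ht' he
    rfl
  · have key : ∀ i < m, ∀ t ∈ Icc (0 : ℝ) 1, gm b m (sg b m - (sg b i + t * dd b i)) =
        AffineMap.lineMap (b (m - i)) (b (m - i - 1)) t := by
      intro i hi t ht
      have e1 := sg_refl hsym' i hi.le
      have e2 : m - i = (m - i - 1) + 1 := by omega
      have e3 : sg b (m - i) = sg b (m - i - 1) + dd b (m - i - 1) := by
        rw [← sg_succ, ← e2]
      have e4 := hsym' i hi
      have e5 : m - 1 - i = m - i - 1 := by omega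
      rw [e5] at e4
      have e6 : sg b m - (sg b i + t * dd b i) =
          sg b (m - i - 1) + (1 - t) * dd b (m - i - 1) := by
        rw [← e4] at e3 ⊢
        linarith
      rw [e6, gm_piece hd (show m - i - 1 < m by omega) ⟨by linarith [ht.2], by linarith [ht.1]⟩,
        ← e2, AffineMap.lineMap_apply_one_sub]
    intro p q
    constructor
    · rintro ⟨s, hs, rfl, rfl⟩
      obtain ⟨j, hj, t, ht, rfl⟩ := exists_piece' hm hd hs
      exact ⟨j, hj, t, ht, gm_piece hd hj ht, key j hj t ht⟩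
    · rintro ⟨j, hj, t, ht, rfl, rfl⟩
      exact ⟨_, piece_mem hj ht, (gm_piece hd hj ht).symm, (key j hj t ht).symm⟩

end Pool.Agent.Lib.FOLD
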