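import Pool.Agent.Lib.FOLD.BU
import Pool.Agent.Lib.FOLD.BS
import Pool.Agent.Lib.FOLD.BP
import Pool.Agent.Lib.FOLD.PArc

/-!
# FOLD.BG: boundary and gluing of the polygon with 34 vertices
Definitions in FOLD.BD, finite checks `bk_glue`, `bk_glue2`, `bk_back` in FOLD.BK.
PROOF. `poly_arc` with `m = 34`, `b = bb`: `bb 34 = bb 0`, `hfr` and `hinj` from `poly_frontier`, `poly_inj` (`b_edge`), `hsym`: `dist (bb i) (bb (i+1)) = dist (bb (33-i)) (bb (34-i))`: by `bk_back` `(i, i+1)` and `(34-i, 33-i)` are edges of two triangles with the same labels, so `b_iso` gives the same length (`bb` has period `34`). The gluing: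
`Glued L γ p q ↔ ∃ i < 34, ∃ t ∈ [0,1], p = lineMap (bb i) (bb (i+1)) t ∧ q = lineMap (bb (34-i)) (bb (33-i)) t`. Third statement: `bk_glue`: equal index, or `bi j i = a > 0`, `bi k i' = 34 - a`: `t = 0`. Fourth: `bk_glue2`: equal indices, or `bG`: `a = bi j i1`, `b = a + 1 (mod 34)`: the pair is glued with `i = a` and the same `t`; or `bi j i2 = b`, `bi j i1 = b + 1 (mod 34)`:
glued with `i = b` and `1 - t` (`AffineMap.lineMap_apply_one_sub`). Fifth: `bk_back`.
-/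

set_option autoImplicit false

open MeasureTheory Set Filter Topology Metric
open scoped MeasureTheory ENNReal

namespace Pool.Agent.Lib.FOLD

namespace BGAux

theorem bb_mod (i : ℕ) : bb (i % 34) = bb i := by
  unfold bb
  rw [Nat.mod_mod]

theorem bb_per : bb 34 = bb 0 := by
  rw [← bb_mod 34]

theorem bi_lt : ∀ (j : Fin 32) (i : Fin 3), bi j i < 34 := by decide +kernel

theorem bb_edge : ∀ i < 34, ∀ k < 34, k ≠ i → k ≠ (i + 1) % 34 → 0 < ori (bb i) (bb (i + 1)) (bb k) :=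
  fun _ hi _ hk h1 h2 => b_edge hi hk h1 h2

/-- the two triangles of a boundary edge and of its mirror image -/
theorem key (i : ℕ) (hi : i < 34) : ∃ (j k : Fin 32) (i1 i2 i1' i2' : Fin 3),
    blab j i1 = blab k i1' ∧ blab j i2 = blab k i2' ∧ bV j i1 = bb i ∧ bV j i2 = bb (i + 1) ∧
      bV k i1' = bb (34 - i) ∧ bV k i2' = bb (33 - i) := by
  obtain ⟨e1, e2, e3, e4, e5, e6⟩ := bk_back ⟨i, hi⟩
  refine ⟨_, _, _, _, _, _, e5, e6, ?_, ?_, ?_, ?_⟩
  · exact congrArg bb e1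
  · exact (congrArg bb e2).trans (bb_mod _)
  · exact (congrArg bb e3).trans (bb_mod _)
  · exact congrArg bb e4

theorem sym : ∀ i < 34, dist (bb i) (bb (i + 1)) = dist (bb (34 - 1 - i)) (bb (34 - i)) := by
  intro i hi
  obtain ⟨j, k, i1, i2, i1', i2', e1, e2, k1, k2, k3, k4⟩ := key i hi
  have h1 : (34 : ℕ) - 1 - i = 33 - i := rfl
  rw [h1, ← k1, ← k2, ← k3, ← k4, b_iso, b_iso, e1, e2, dist_comm]

end BGAux

open BGAux

theorem b_arc : ∃ (L : ℝ) (γ : ℝ → E2), ArcParam bC L γ ∧ InjOn γ (Ico 0 L) ∧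
    (∀ j k i i', blab j i = blab k i' → bV j i = bV k i' ∨ Glued L γ (bV j i) (bV k i')) ∧
    (∀ j k, j ≠ k → ∀ i1 i2 i1' i2', i1 ≠ i2 → blab j i1 = blab k i1' → blab j i2 = blab k i2' →
      (bV j i1 = bV k i1' ∧ bV j i2 = bV k i2') ∨ ∀ t ∈ Icc (0 : ℝ) 1,
        Glued L γ (AffineMap.lineMap (bV j i1) (bV j i2) t) (AffineMap.lineMap (bV k i1') (bV k i2') t)) ∧
    (∀ p q, Glued L γ p q → ∃ j k i1 i2 i1' i2', ∃ t ∈ Icc (0 : ℝ) 1,
      blab j i1 = blab k i1' ∧ blab j i2 = blab k i2' ∧ p = AffineMap.lineMap (bV j i1) (bV j i2) t ∧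
        q = AffineMap.lineMap (bV k i1') (bV k i2') t) := by
  obtain ⟨L, γ, h1, h2, h3⟩ := poly_arc (C := bC) (m := 34) (by norm_num) bb bb_per
    (poly_frontier (by norm_num) bb_per bb_edge) (poly_inj (by norm_num) bb_per bb_edge) sym
  refine ⟨L, γ, h1, h2, ?_, ?_, ?_⟩
  · intro j k i i' h
    rcases bk_glue j k i i' h with h4 | ⟨h4, h5⟩
    · exact Or.inl (congrArg bb h4)
    · right
      rw [h3]
      refine ⟨bi j i, bi_lt j i, 0, ⟨le_rfl, zero_le_one⟩, ?_, ?_⟩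
      · rw [AffineMap.lineMap_apply_zero]
        rfl
      · rw [AffineMap.lineMap_apply_zero]
        refine congrArg bb (?_ : bi k i' = 34 - bi j i)
        omega
  · intro j k hjk i1 i2 i1' i2' hi e1 e2
    rcases bk_glue2 j k hjk i1 i2 i1' i2' hi e1 e2 with h4 | ⟨h0, h4, h5, h6⟩ | ⟨h0, h4, h5, h6⟩
    · exact Or.inl ⟨congrArg bb h4.1, congrArg bb h4.2⟩
    · right
      intro t ht
      rw [h3]
      refine ⟨bi j i1, h0, t, ht, ?_, ?_⟩
      · unfold bV
        rw [h4, bb_mod]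
      · unfold bV
        rw [h5, h6, bb_mod]
        have e : 34 - bi j i1 - 1 = 33 - bi j i1 := by omega
        rw [e]
    · right
      intro t ht
      rw [h3]
      refine ⟨bi j i2, h0, 1 - t, ⟨by linarith [ht.2], by linarith [ht.1]⟩, ?_, ?_⟩
      · unfold bV
        rw [h4, bb_mod, AffineMap.lineMap_apply_one_sub]
      · unfold bV
        have e : 34 - bi j i2 - 1 = 33 - bi j i2 := by omega
        rw [h5, h6, bb_mod, AffineMap.lineMap_apply_one_sub, e]
  · intro p q h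
    rw [h3] at h
    obtain ⟨i, hi, t, ht, rfl, rfl⟩ := h
    obtain ⟨j, k, i1, i2, i1', i2', e1, e2, k1, k2, k3, k4⟩ := key i hi
    refine ⟨j, k, i1, i2, i1', i2', t, ht, e1, e2, ?_, ?_⟩
    · rw [k1, k2]
    · rw [k3, k4]
      have e : 34 - i - 1 = 33 - i := by omega
      rw [e]

end Pool.Agent.Lib.FOLD
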