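import Pool.Agent.Lib.FOLD.BD

/-!
# FOLD.BK: the finite checks for the polygon with 34 vertices
-/

set_option autoImplicit false

namespace Pool.Agent.Lib.FOLD

/-- all vertices of the polyhedron are on the inner side of the face planes, strictly except for the vertices of the
face -/
theorem bk_sup : ∀ k : Fin 32, ∀ m : Fin 18, dotI (bnI k) (bp m) ≤ bhI k ∧
    (dotI (bnI k) (bp m) = bhI k → ∃ i, blab k i = m) := by decide +kernel

theorem bk_nor : ∀ k : Fin 32, ∀ i : Fin 3, dotI (bnI k) (bf k i) = bhI k ∧ 0 < dotI (bnI k) (bnI k) := by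
  decide +kernel

theorem bk_three : ∀ j k : Fin 32, j ≠ k → ∃ i, ∀ i', blab j i ≠ blab k i' := by decide +kernel

/-- the edges of the polygon are supporting (approximate coordinates) -/
theorem bk_edge : ∀ i k : Fin 34, (k : ℕ) ≠ i → (k : ℕ) ≠ (i + 1) % 34 →
    100 * 20000 ^ 2 ≤ oriI (bbI i) (bbI (i + 1)) (bbI k) := by decide +kernel

theorem bk_fan : ∀ j k : Fin 18, 0 < j → j < k → 100 * 20000 ^ 2 ≤ oriI (bcI 0) (bcI j) (bcI k) := by
  decide +kernel

theorem bk_sep : ∀ j : Fin 16, 100 * 20000 ^ 2 ≤ oriI (bcI 16) (bcI 17) (bcI j) := by decide +kernel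

theorem bk_bound : ∀ i : Fin 18, |(bcI i).1| ≤ 20000 * 12000 ∧ |(bcI i).2| ≤ 20000 * 12000 := by decide +kernel

theorem bk_glue : ∀ j k : Fin 32, ∀ i i', blab j i = blab k i' → bi j i = bi k i' ∨
    (0 < bi j i ∧ bi j i + bi k i' = 34) := by decide +kernel

theorem bk_glue2 : ∀ j k : Fin 32, j ≠ k → ∀ i1 i2 i1' i2', i1 ≠ i2 → blab j i1 = blab k i1' →
    blab j i2 = blab k i2' →
      (bi j i1 = bi k i1' ∧ bi j i2 = bi k i2') ∨ bG (bi j i1) (bi j i2) (bi k i1') (bi k i2') := by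
  decide +kernel

/-- triangle and corners of the boundary edge `(i, i + 1)` -/
def bt (i : Fin 34) : Fin 32 × Fin 3 × Fin 3 :=
  if (i : ℕ) = 0 then (0, 0, 1) else if (i : ℕ) ≤ 15 then (Fin.ofNat 32 (i - 1), 1, 2)
  else if (i : ℕ) = 16 then (31, 2, 0) else if (i : ℕ) = 17 then (16, 0, 1)
  else if (i : ℕ) ≤ 32 then (Fin.ofNat 32 (i - 2), 1, 2) else (15, 2, 0)

theorem bk_back : ∀ i : Fin 34, bi (bt i).1 (bt i).2.1 = i ∧ bi (bt i).1 (bt i).2.2 = (i + 1) % 34 ∧
    bi (bt (Fin.ofNat 34 (33 - i))).1 (bt (Fin.ofNat 34 (33 - i))).2.2 = (34 - i) % 34 ∧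
    bi (bt (Fin.ofNat 34 (33 - i))).1 (bt (Fin.ofNat 34 (33 - i))).2.1 = 33 - i ∧
    blab (bt i).1 (bt i).2.1 = blab (bt (Fin.ofNat 34 (33 - i))).1 (bt (Fin.ofNat 34 (33 - i))).2.2 ∧
    blab (bt i).1 (bt i).2.2 = blab (bt (Fin.ofNat 34 (33 - i))).1 (bt (Fin.ofNat 34 (33 - i))).2.1 := by
  decide +kernel

/-- the projections of `E_1, …, E_16` to the plane `z = 0` run once around the origin: consecutive ones have a positive
determinant -/
theorem bk_wind : ∀ j : Fin 16, 0 < (bp (j + 2)).1 * (bp (if (j : ℕ) = 15 then 2 else j + 3)).2.1 -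
    (bp (j + 2)).2.1 * (bp (if (j : ℕ) = 15 then 2 else j + 3)).1 := by decide +kernel

/-- two different cones between consecutive projections are separated by a line through the origin -/
theorem bk_cone : ∀ j k : Fin 16, j ≠ k → ∃ l : Fin 16, ∃ s : Fin 2,
    let f : ℕ → ℤ := fun i => (if s = 0 then 1 else -1) *
      ((bp (l + 2)).1 * (bp (if i = 16 then 2 else i + 2)).2.1 -
        (bp (l + 2)).2.1 * (bp (if i = 16 then 2 else i + 2)).1)
    0 ≤ f j ∧ 0 ≤ f (j + 1) ∧ f k ≤ 0 ∧ f (k + 1) ≤ 0 := by decide +kernel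

/-- six times the volume -/
def bV6 : ℤ := ∑ j ∈ Finset.range 16, 9578 * ((bp (j + 2)).1 * (bp (if j = 15 then 2 else j + 3)).2.1 -
    (bp (j + 2)).2.1 * (bp (if j = 15 then 2 else j + 3)).1)

theorem bV6_eq : bV6 = 451477553852 := by decide +kernel

end Pool.Agent.Lib.FOLD
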