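import Pool.Agent.Lib.FOLD.BK

/-!
# FOLD.BN: numerical values of the development (1.2 h)
Polygon with 34 vertices, definitions in FOLD.BD (read the comment there).
PROOF. Rational arithmetic with certified errors. Compute (python, exact integers and decimals) rational approximations `p_j, q_j` of `bu j` with 12 digits after the point and `t_j` of `bs j / br j` with 16 digits. Step lemma: if `|u - p| ≤ ε`, `|v - q| ≤ ε`, `|T - t| ≤ δ` then
`|(G u - T v) - (G p - t q)| ≤ |G| ε + |t| ε + δ (|q| + ε)` (`G = bg j / br j`, `T = bs j / br j`, `|G|, |t| ≤ 1.2`, so the error grows at most by a factor `2.4` per step; `ε = 10⁻¹⁰ · 3^j` is enough: it stays below `0.3 / 10000`), and the same for the other coordinate. `|T - t| ≤ δ` from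
`(t - δ)² ≤ bq j / br j² ≤ (t + δ)²` (`Real.sqrt` monotone). Put the numbers in lists (`List.getD`) of integers (numerators for a fixed denominator) so that all steps are ONE check by `decide +kernel` over `Fin 16` (integers, denominators cleared) and one induction. Initial value: `√(br 1)`. Final: `|10000 p_j - buA j| ≤ 1/2 + small`.
-/

set_option autoImplicit false

open MeasureTheory Set Filter Topology Metric
open scoped MeasureTheory ENNReal

namespace Pool.Agent.Lib.FOLD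

namespace BNAux

/-- numerators over `10 ^ 12` of the first coordinates -/
def pN (j : ℕ) : ℤ :=
  ([
    0, 6226792191811125, 6060233397482975, 5715533557620973, 5233980584283180, 4644539429283965,
    3972437149985826, 3235377663144844, 2482905441072016, 1717616463269093, 943681863675515, 158847304809402,
    -625271422104296, -1434145688553045, -2307928141455561, -3333995254643222, -4707130430566824,
    -6226788841155433] : List ℤ).getD j 0

/-- numerators over `10 ^ 12` of the second coordinates -/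
def qN (j : ℕ) : ℤ :=
  ([
    0, 0, 1362999327964601, 2329438162241820, 3058555254257588, 3612500310010586, 4016411842604353,
    4286110401847275, 4478268032475834, 4602335677143397, 4666866565498729, 4672225222926950,
    4677106012129688, 4681397990344841, 4684435258798811, 4687312624736746, 4690277188997659, 6459695208292] : List ℤ).getD j 0

/-- numerators over `10 ^ 16` of `bs j / br j` -/
def tN (j : ℕ) : ℤ :=
  ([
    0, 2188926956253792, 1639705165864472, 1388432767453209, 1279527595051740, 1243129958157304,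
    1263386074923849, 1333943650385576, 1424584119983590, 1521959139104875, 1617885341817932,
    1676672541559746, 1697861607062966, 1704539898659616, 1760110813320447, 1942316281263531,
    6607280183177244] : List ℤ).getD j 0

theorem chk : ∀ i : Fin 16, 0 < br (i + 1) ∧ 1 ≤ tN (i + 1) ∧
    10 * (10 ^ 16 * |bg (i + 1)| + tN (i + 1) * br (i + 1)) ≤ 19 * 10 ^ 16 * br (i + 1) ∧
    (tN (i + 1) - 1) ^ 2 * br (i + 1) ^ 2 ≤ bq (i + 1) * 10 ^ 32 ∧
    bq (i + 1) * 10 ^ 32 ≤ (tN (i + 1) + 1) ^ 2 * br (i + 1) ^ 2 ∧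
    |pN (i + 2) * 10 ^ 16 * br (i + 1) - (bg (i + 1) * 10 ^ 16 * pN (i + 1) - tN (i + 1) * br (i + 1) * qN (i + 1))|
      ≤ 10 ^ 16 * br (i + 1) ∧
    |qN (i + 2) * 10 ^ 16 * br (i + 1) - (bg (i + 1) * 10 ^ 16 * qN (i + 1) + tN (i + 1) * br (i + 1) * pN (i + 1))|
      ≤ 10 ^ 16 * br (i + 1) ∧
    |pN (i + 1)| ≤ 10 ^ 16 ∧ |qN (i + 1)| ≤ 10 ^ 16 := by decide +kernel

theorem chk0 : 0 < br 1 ∧ (pN 1 - 1) ^ 2 ≤ br 1 * 10 ^ 24 ∧ br 1 * 10 ^ 24 ≤ (pN 1 + 1) ^ 2 ∧ 1 ≤ pN 1 ∧ qN 1 = 0 := by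
  decide +kernel

theorem chkF : ∀ i : Fin 17, |pN (i + 1) - buA (i + 1) * 10 ^ 8| ≤ 6 * 10 ^ 7 ∧
    |qN (i + 1) - buB (i + 1) * 10 ^ 8| ≤ 6 * 10 ^ 7 := by decide +kernel

/-- one step of the error estimate -/
theorem step {G T t u v p q u' v' p' q' e : ℝ} (hu : |u - p| ≤ e) (hv : |v - q| ≤ e) (hT : |T - t| ≤ 10⁻¹ ^ 16)
    (hG : |G| + |t| ≤ 19 / 10) (hp : |p| ≤ 10 ^ 4) (hq : |q| ≤ 10 ^ 4) (he : 10⁻¹ ^ 10 ≤ e)
    (hu' : u' = G * u - T * v) (hv' : v' = G * v + T * u)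
    (hp' : |p' - (G * p - t * q)| ≤ 10⁻¹ ^ 12) (hq' : |q' - (G * q + t * p)| ≤ 10⁻¹ ^ 12) :
    |u' - p'| ≤ 2 * e ∧ |v' - q'| ≤ 2 * e := by
  have he0 : 0 ≤ e := le_trans (by positivity) he
  have hGu : |G * (u - p)| ≤ |G| * e := by rw [abs_mul]; exact mul_le_mul_of_nonneg_left hu (abs_nonneg _)
  have hGv : |G * (v - q)| ≤ |G| * e := by rw [abs_mul]; exact mul_le_mul_of_nonneg_left hv (abs_nonneg _)
  have htu : |t * (u - p)| ≤ |t| * e := by rw [abs_mul]; exact mul_le_mul_of_nonneg_left hu (abs_nonneg _)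
  have htv : |t * (v - q)| ≤ |t| * e := by rw [abs_mul]; exact mul_le_mul_of_nonneg_left hv (abs_nonneg _)
  have hua : |u| ≤ 10 ^ 4 + e := by
    have h := abs_sub_abs_le_abs_sub u p
    linarith
  have hva : |v| ≤ 10 ^ 4 + e := by
    have h := abs_sub_abs_le_abs_sub v q
    linarith
  have hTu : |(T - t) * u| ≤ 10⁻¹ ^ 16 * (10 ^ 4 + e) := by
    rw [abs_mul]; exact mul_le_mul hT hua (abs_nonneg _) (by positivity)
  have hTv : |(T - t) * v| ≤ 10⁻¹ ^ 16 * (10 ^ 4 + e) := by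
    rw [abs_mul]; exact mul_le_mul hT hva (abs_nonneg _) (by positivity)
  have hs : |G| * e + |t| * e ≤ 19 / 10 * e := by nlinarith [mul_le_mul_of_nonneg_right hG he0]
  have e1 : u' - p' = G * (u - p) - t * (v - q) - (T - t) * v - (p' - (G * p - t * q)) := by rw [hu']; ring
  have e2 : v' - q' = G * (v - q) + t * (u - p) + (T - t) * u - (q' - (G * q + t * p)) := by rw [hv']; ring
  rw [abs_le] at hGu hGv htu htv hTu hTv hp' hq'
  norm_num at hTu hTv hp' hq' he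
  constructor
  · rw [e1, abs_le]
    constructor <;> linarith [hGu.1, hGu.2, htv.1, htv.2, hTv.1, hTv.2, hp'.1, hp'.2]
  · rw [e2, abs_le]
    constructor <;> linarith [hGv.1, hGv.2, htu.1, htu.2, hTu.1, hTu.2, hq'.1, hq'.2]

theorem ind (i : ℕ) : i ≤ 16 → |(bu (i + 1)).1 - pN (i + 1) / 10 ^ 12| ≤ 10⁻¹ ^ 10 * 2 ^ i ∧
    |(bu (i + 1)).2 - qN (i + 1) / 10 ^ 12| ≤ 10⁻¹ ^ 10 * 2 ^ i := by
  induction i with
  | zero =>
    intro _
    obtain ⟨h0, h1, h2, h3, h4⟩ := chk0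
    have hb : (bu (0 + 1)).1 = √(br 1) := rfl
    have hb2 : (bu (0 + 1)).2 = 0 := rfl
    have r1 : ((pN 1 : ℝ) - 1) ^ 2 ≤ br 1 * 10 ^ 24 := by exact_mod_cast h1
    have r2 : (br 1 : ℝ) * 10 ^ 24 ≤ (pN 1 + 1) ^ 2 := by exact_mod_cast h2
    have r3 : (1 : ℝ) ≤ pN 1 := by exact_mod_cast h3
    have hs1 : ((pN 1 : ℝ) - 1) / 10 ^ 12 ≤ √(br 1) := by
      apply Real.le_sqrt_of_sq_le
      rw [div_pow, div_le_iff₀ (by positivity)]
      calc ((pN 1 : ℝ) - 1) ^ 2 ≤ br 1 * 10 ^ 24 := r1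
        _ = _ := by ring
    have hs2 : √(br 1 : ℝ) ≤ ((pN 1 : ℝ) + 1) / 10 ^ 12 := by
      apply Real.sqrt_le_iff.mpr
      refine ⟨by positivity, ?_⟩
      rw [div_pow, le_div_iff₀ (by positivity)]
      calc (br 1 : ℝ) * (10 ^ 12) ^ 2 = br 1 * 10 ^ 24 := by ring
        _ ≤ _ := r2
    rw [hb, hb2]
    constructor
    · rw [abs_le]
      constructor
      · norm_num at hs1 ⊢
        linarith
      · norm_num at hs2 ⊢
        linarith
    · have : (qN (0 + 1) : ℝ) = 0 := by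
        have : qN (0 + 1) = 0 := h4
        rw [this]; norm_num
      rw [this]
      norm_num
  | succ i ih =>
    intro hi
    obtain ⟨ihu, ihv⟩ := ih (by omega)
    obtain ⟨c1, c2, c3, c4, c5, c6, c7, c8, c9⟩ := chk ⟨i, by omega⟩
    simp only [] at c1 c2 c3 c4 c5 c6 c7 c8 c9
    have r0 : (0 : ℝ) < br (i + 1) := by exact_mod_cast c1
    have r2 : (1 : ℝ) ≤ tN (i + 1) := by exact_mod_cast c2
    have r3 : 10 * (10 ^ 16 * |(bg (i + 1) : ℝ)| + tN (i + 1) * br (i + 1)) ≤ 19 * 10 ^ 16 * br (i + 1) := by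
      exact_mod_cast c3
    have r4 : ((tN (i + 1) : ℝ) - 1) ^ 2 * br (i + 1) ^ 2 ≤ bq (i + 1) * 10 ^ 32 := by exact_mod_cast c4
    have r5 : (bq (i + 1) : ℝ) * 10 ^ 32 ≤ (tN (i + 1) + 1) ^ 2 * br (i + 1) ^ 2 := by exact_mod_cast c5
    have r6 : |(pN (i + 2) : ℝ) * 10 ^ 16 * br (i + 1) - (bg (i + 1) * 10 ^ 16 * pN (i + 1) -
        tN (i + 1) * br (i + 1) * qN (i + 1))| ≤ (10 : ℝ) ^ 16 * (br (i + 1) : ℝ) := by exact_mod_cast c6
    have r7 : |(qN (i + 2) : ℝ) * 10 ^ 16 * br (i + 1) - (bg (i + 1) * 10 ^ 16 * qN (i + 1) +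
        tN (i + 1) * br (i + 1) * pN (i + 1))| ≤ (10 : ℝ) ^ 16 * (br (i + 1) : ℝ) := by exact_mod_cast c7
    have r8 : |(pN (i + 1) : ℝ)| ≤ 10 ^ 16 := by exact_mod_cast c8
    have r9 : |(qN (i + 1) : ℝ)| ≤ 10 ^ 16 := by exact_mod_cast c9
    have hs1 : ((tN (i + 1) : ℝ) - 1) / 10 ^ 16 * br (i + 1) ≤ bs (i + 1) := by
      apply Real.le_sqrt_of_sq_le
      rw [mul_pow, div_pow, div_mul_eq_mul_div, div_le_iff₀ (by positivity)]
      calc _ ≤ (bq (i + 1) : ℝ) * 10 ^ 32 := r4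
        _ = _ := by ring
    have hs2 : bs (i + 1) ≤ ((tN (i + 1) : ℝ) + 1) / 10 ^ 16 * br (i + 1) := by
      apply Real.sqrt_le_iff.mpr
      refine ⟨by positivity, ?_⟩
      rw [mul_pow, div_pow, div_mul_eq_mul_div, le_div_iff₀ (by positivity)]
      calc (bq (i + 1) : ℝ) * (10 ^ 16) ^ 2 = bq (i + 1) * 10 ^ 32 := by ring
        _ ≤ _ := r5
    have hT : |bs (i + 1) / br (i + 1) - tN (i + 1) / 10 ^ 16| ≤ 10⁻¹ ^ 16 := by
      have k1 : ((tN (i + 1) : ℝ) - 1) / 10 ^ 16 ≤ bs (i + 1) / br (i + 1) := by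
        rw [le_div_iff₀ r0]; exact hs1
      have k2 : bs (i + 1) / br (i + 1) ≤ ((tN (i + 1) : ℝ) + 1) / 10 ^ 16 := by
        rw [div_le_iff₀ r0]; exact hs2
      rw [abs_le]
      constructor
      · norm_num at k1 ⊢
        linarith
      · norm_num at k2 ⊢
        linarith
    have hG : |(bg (i + 1) : ℝ) / br (i + 1)| + |(tN (i + 1) : ℝ) / 10 ^ 16| ≤ 19 / 10 := by
      rw [abs_div, abs_of_pos r0, abs_of_nonneg (by positivity : (0 : ℝ) ≤ (tN (i + 1) : ℝ) / 10 ^ 16)]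
      have : |(bg (i + 1) : ℝ)| / br (i + 1) + (tN (i + 1) : ℝ) / 10 ^ 16 =
          (10 * (10 ^ 16 * |(bg (i + 1) : ℝ)| + tN (i + 1) * br (i + 1))) / (10 * 10 ^ 16 * br (i + 1)) := by
        field_simp
      rw [this, div_le_iff₀ (by positivity)]
      linarith
    have hp : |(pN (i + 1) : ℝ) / 10 ^ 12| ≤ 10 ^ 4 := by
      rw [abs_div, abs_of_pos (by positivity : (0 : ℝ) < 10 ^ 12), div_le_iff₀ (by positivity)]
      calc _ ≤ _ := r8
        _ = _ := by norm_num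
    have hq : |(qN (i + 1) : ℝ) / 10 ^ 12| ≤ 10 ^ 4 := by
      rw [abs_div, abs_of_pos (by positivity : (0 : ℝ) < 10 ^ 12), div_le_iff₀ (by positivity)]
      calc _ ≤ _ := r9
        _ = _ := by norm_num
    have hp' : |(pN (i + 2) : ℝ) / 10 ^ 12 - ((bg (i + 1) : ℝ) / br (i + 1) * ((pN (i + 1) : ℝ) / 10 ^ 12) -
        (tN (i + 1) : ℝ) / 10 ^ 16 * ((qN (i + 1) : ℝ) / 10 ^ 12))| ≤ 10⁻¹ ^ 12 := by
      have : (pN (i + 2) : ℝ) / 10 ^ 12 - ((bg (i + 1) : ℝ) / br (i + 1) * ((pN (i + 1) : ℝ) / 10 ^ 12) -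
        (tN (i + 1) : ℝ) / 10 ^ 16 * ((qN (i + 1) : ℝ) / 10 ^ 12)) =
        ((pN (i + 2) : ℝ) * 10 ^ 16 * br (i + 1) - (bg (i + 1) * 10 ^ 16 * pN (i + 1) -
        tN (i + 1) * br (i + 1) * qN (i + 1))) / (10 ^ 12 * (10 ^ 16 * br (i + 1))) := by
        field_simp
      rw [this, abs_div, abs_of_pos (by positivity : (0 : ℝ) < 10 ^ 12 * (10 ^ 16 * br (i + 1))),
        div_le_iff₀ (by positivity)]
      refine r6.trans_eq ?_
      rw [← mul_assoc (10⁻¹ ^ 12), ← mul_pow, inv_mul_cancel₀ (by norm_num : (10 : ℝ) ≠ 0), one_pow, one_mul]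
    have hq' : |(qN (i + 2) : ℝ) / 10 ^ 12 - ((bg (i + 1) : ℝ) / br (i + 1) * ((qN (i + 1) : ℝ) / 10 ^ 12) +
        (tN (i + 1) : ℝ) / 10 ^ 16 * ((pN (i + 1) : ℝ) / 10 ^ 12))| ≤ 10⁻¹ ^ 12 := by
      have : (qN (i + 2) : ℝ) / 10 ^ 12 - ((bg (i + 1) : ℝ) / br (i + 1) * ((qN (i + 1) : ℝ) / 10 ^ 12) +
        (tN (i + 1) : ℝ) / 10 ^ 16 * ((pN (i + 1) : ℝ) / 10 ^ 12)) =
        ((qN (i + 2) : ℝ) * 10 ^ 16 * br (i + 1) - (bg (i + 1) * 10 ^ 16 * qN (i + 1) +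
        tN (i + 1) * br (i + 1) * pN (i + 1))) / (10 ^ 12 * (10 ^ 16 * br (i + 1))) := by
        field_simp
      rw [this, abs_div, abs_of_pos (by positivity : (0 : ℝ) < 10 ^ 12 * (10 ^ 16 * br (i + 1))),
        div_le_iff₀ (by positivity)]
      refine r7.trans_eq ?_
      rw [← mul_assoc (10⁻¹ ^ 12), ← mul_pow, inv_mul_cancel₀ (by norm_num : (10 : ℝ) ≠ 0), one_pow, one_mul]
    have he : (10⁻¹ : ℝ) ^ 10 ≤ 10⁻¹ ^ 10 * 2 ^ i := le_mul_of_one_le_right (by positivity) (one_le_pow₀ (by norm_num))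
    have hu' : (bu (i + 1 + 1)).1 = (bg (i + 1) : ℝ) / br (i + 1) * (bu (i + 1)).1 -
        bs (i + 1) / br (i + 1) * (bu (i + 1)).2 := by
      have : (bu (i + 1 + 1)).1 = ((bg (i + 1)) * (bu (i + 1)).1 - bs (i + 1) * (bu (i + 1)).2) / br (i + 1) := rfl
      rw [this]; ring
    have hv' : (bu (i + 1 + 1)).2 = (bg (i + 1) : ℝ) / br (i + 1) * (bu (i + 1)).2 +
        bs (i + 1) / br (i + 1) * (bu (i + 1)).1 := by
      have : (bu (i + 1 + 1)).2 = ((bg (i + 1)) * (bu (i + 1)).2 + bs (i + 1) * (bu (i + 1)).1) / br (i + 1) := rfl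
      rw [this]; ring
    obtain ⟨k1, k2⟩ := step ihu ihv hT hG hp hq he hu' hv' hp' hq'
    have e2 : (2 : ℝ) * (10⁻¹ ^ 10 * 2 ^ i) = 10⁻¹ ^ 10 * 2 ^ (i + 1) := by ring
    exact ⟨k1.trans_eq e2, k2.trans_eq e2⟩

end BNAux

theorem bu_approx {j : ℕ} (h1 : 1 ≤ j) (h2 : j ≤ 17) :
    |10000 * (bu j).1 - buA j| ≤ 1 ∧ |10000 * (bu j).2 - buB j| ≤ 1 := by
  obtain ⟨i, rfl⟩ : ∃ i, j = i + 1 := ⟨j - 1, by omega⟩
  obtain ⟨k1, k2⟩ := BNAux.ind i (by omega)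
  obtain ⟨f1, f2⟩ := BNAux.chkF ⟨i, by omega⟩
  simp only [] at f1 f2
  have g1 : |(BNAux.pN (i + 1) : ℝ) - buA (i + 1) * 10 ^ 8| ≤ 6 * 10 ^ 7 := by exact_mod_cast f1
  have g2 : |(BNAux.qN (i + 1) : ℝ) - buB (i + 1) * 10 ^ 8| ≤ 6 * 10 ^ 7 := by exact_mod_cast f2
  have he : (10⁻¹ : ℝ) ^ 10 * 2 ^ i ≤ 10⁻¹ ^ 10 * 2 ^ 16 :=
    mul_le_mul_of_nonneg_left (pow_le_pow_right₀ (by norm_num) (by omega)) (by positivity)
  have k1' := le_trans k1 he
  have k2' := le_trans k2 he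
  norm_num at k1' k2' g1 g2
  rw [abs_le] at k1' k2' g1 g2
  constructor
  · rw [abs_le]
    constructor <;> linarith [k1'.1, k1'.2, g1.1, g1.2]
  · rw [abs_le]
    constructor <;> linarith [k2'.1, k2'.2, g2.1, g2.2]

end Pool.Agent.Lib.FOLD
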