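import Pool.Agent.Lib.FOLD.Defs

/-!
# FOLD.TeV: the volume of a tetrahedron (1 h)
PROOF. Standard simplex `S = {x : E3 | 0 ≤ x 0, 0 ≤ x 1, 0 ≤ x 2, x 0 + x 1 + x 2 ≤ 1}` has volume `1/6` (Fubini: `∫_0^1 (1-t)²/2 dt`; see `Pool.Agent.Lib.P670edc.Triangle` for the plane case, volume `1/2` of `{(s,t) | 0 ≤ s, t, s+t ≤ 1}`).
`convexHull (range p) = p 0 + J '' S`, `J x = x 0 • (p 1 - p 0) + x 1 • (p 2 - p 0) + x 2 • (p 3 - p 0)`, `det J = ± det3 ..` (`Measure.addHaar_image_linearMap`, `measure_preimage_add`).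
-/

set_option autoImplicit false

open MeasureTheory Set Filter Topology Metric
open scoped MeasureTheory ENNReal

namespace Pool.Agent.Lib.FOLD

namespace TeVAux

lemma vol_tri (c : ℝ) (hc : 0 ≤ c) :
    volume {q : ℝ × ℝ | 0 ≤ q.1 ∧ 0 ≤ q.2 ∧ q.1 + q.2 ≤ c} = ENNReal.ofReal (c ^ 2 / 2) := by
  set S : Set (ℝ × ℝ) := {q : ℝ × ℝ | 0 ≤ q.1 ∧ 0 ≤ q.2 ∧ q.1 + q.2 ≤ c} with hS
  have hSm : MeasurableSet S := by
    apply MeasurableSet.inter
    · exact measurableSet_le measurable_const measurable_fst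
    · apply MeasurableSet.inter
      · exact measurableSet_le measurable_const measurable_snd
      · exact measurableSet_le (measurable_fst.add measurable_snd) measurable_const
  rw [Measure.volume_eq_prod, Measure.prod_apply hSm]
  have h1 : ∀ x : ℝ, volume (Prod.mk x ⁻¹' S) =
      (Set.Icc (0 : ℝ) c).indicator (fun x => ENNReal.ofReal (c - x)) x := by
    intro x
    by_cases hx : x ∈ Set.Icc (0 : ℝ) c
    · rw [Set.indicator_of_mem hx]
      have : Prod.mk x ⁻¹' S = Set.Icc 0 (c - x) := by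
        ext y
        simp only [hS, Set.mem_preimage, Set.mem_ofPred_eq, Set.mem_Icc]
        constructor
        · rintro ⟨_, h2, h3⟩; exact ⟨h2, by linarith⟩
        · rintro ⟨h2, h3⟩; exact ⟨hx.1, h2, by linarith⟩
      rw [this, Real.volume_Icc, sub_zero]
    · rw [Set.indicator_of_notMem hx]
      have : Prod.mk x ⁻¹' S = ∅ := by
        ext y
        simp only [hS, Set.mem_preimage, Set.mem_ofPred_eq, Set.mem_empty_iff_false, iff_false]
        rintro ⟨h1, h2, h3⟩
        exact hx ⟨h1, by linarith⟩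
      rw [this, measure_empty]
  simp_rw [h1]
  rw [lintegral_indicator measurableSet_Icc, ← ofReal_integral_eq_lintegral_ofReal]
  · congr 1
    rw [integral_Icc_eq_integral_Ioc, ← intervalIntegral.integral_of_le hc,
      intervalIntegral.integral_sub intervalIntegrable_const
        intervalIntegral.intervalIntegrable_id, integral_id]
    simp
    ring
  · exact (continuous_const.sub continuous_id).integrableOn_Icc
  · apply (ae_restrict_iff' measurableSet_Icc).mpr
    exact Filter.Eventually.of_forall fun x hx => by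
      have := hx.2
      simp only [Pi.zero_apply]
      linarith

lemma vol_prod :
    volume {q : ℝ × (ℝ × ℝ) | 0 ≤ q.1 ∧ 0 ≤ q.2.1 ∧ 0 ≤ q.2.2 ∧ q.1 + q.2.1 + q.2.2 ≤ 1} =
      ENNReal.ofReal (1 / 6) := by
  set S : Set (ℝ × (ℝ × ℝ)) :=
    {q | 0 ≤ q.1 ∧ 0 ≤ q.2.1 ∧ 0 ≤ q.2.2 ∧ q.1 + q.2.1 + q.2.2 ≤ 1} with hS
  have hSm : MeasurableSet S := by
    apply MeasurableSet.inter
    · exact measurableSet_le measurable_const measurable_fst
    · apply MeasurableSet.inter
      · exact measurableSet_le measurable_const (measurable_fst.comp measurable_snd)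
      · apply MeasurableSet.inter
        · exact measurableSet_le measurable_const (measurable_snd.comp measurable_snd)
        · exact measurableSet_le ((measurable_fst.add (measurable_fst.comp measurable_snd)).add
            (measurable_snd.comp measurable_snd)) measurable_const
  rw [Measure.volume_eq_prod, Measure.prod_apply hSm]
  have h1 : ∀ x : ℝ, volume (Prod.mk x ⁻¹' S) =
      (Set.Icc (0 : ℝ) 1).indicator (fun x => ENNReal.ofReal ((1 - x) ^ 2 / 2)) x := by
    intro x
    by_cases hx : x ∈ Set.Icc (0 : ℝ) 1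
    · rw [Set.indicator_of_mem hx, ← vol_tri (1 - x) (by linarith [hx.2])]
      congr 1
      ext y
      simp only [hS, Set.mem_preimage, Set.mem_ofPred_eq]
      constructor
      · rintro ⟨_, h2, h3, h4⟩; exact ⟨h2, h3, by linarith⟩
      · rintro ⟨h2, h3, h4⟩; exact ⟨hx.1, h2, h3, by linarith⟩
    · rw [Set.indicator_of_notMem hx]
      have : Prod.mk x ⁻¹' S = ∅ := by
        ext y
        simp only [hS, Set.mem_preimage, Set.mem_ofPred_eq, Set.mem_empty_iff_false, iff_false]
        rintro ⟨h1, h2, h3, h4⟩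
        exact hx ⟨h1, by linarith⟩
      rw [this, measure_empty]
  simp_rw [h1]
  rw [lintegral_indicator measurableSet_Icc, ← ofReal_integral_eq_lintegral_ofReal]
  · congr 1
    rw [integral_Icc_eq_integral_Ioc, ← intervalIntegral.integral_of_le zero_le_one]
    have h2 : ∀ x ∈ Set.uIcc (0 : ℝ) 1,
        HasDerivAt (fun x : ℝ => -(1 - x) ^ 3 / 6) ((1 - x) ^ 2 / 2) x := by
      intro x _
      have h3 := ((((hasDerivAt_const x (1 : ℝ)).sub (hasDerivAt_id x)).pow 3).neg).div_const 6
      refine h3.congr_deriv ?_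
      simp
      ring
    rw [intervalIntegral.integral_eq_sub_of_hasDerivAt h2
      (by apply Continuous.intervalIntegrable; fun_prop)]
    norm_num
  · exact Continuous.integrableOn_Icc (by fun_prop)
  · exact Filter.Eventually.of_forall fun x => by
      simp only [Pi.zero_apply]
      positivity

/-- the standard simplex of space -/
def std : Set E3 := {v | 0 ≤ v 0 ∧ 0 ≤ v 1 ∧ 0 ≤ v 2 ∧ v 0 + v 1 + v 2 ≤ 1}

lemma vol_std : volume std = ENNReal.ofReal (1 / 6) := by
  have h1 : MeasurePreserving (fun v : E3 => Prod.map (id : ℝ → ℝ)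
      (MeasurableEquiv.finTwoArrow (α := ℝ))
      (MeasurableEquiv.piFinSuccAbove (fun _ : Fin 3 => ℝ) 0 (v.ofLp))) volume volume :=
    ((MeasurePreserving.id volume).prod (volume_preserving_finTwoArrow ℝ)).comp
      ((volume_preserving_piFinSuccAbove (fun _ : Fin 3 => ℝ) 0).comp
        (PiLp.volume_preserving_ofLp (Fin 3)))
  have hSm : MeasurableSet {q : ℝ × (ℝ × ℝ) | 0 ≤ q.1 ∧ 0 ≤ q.2.1 ∧ 0 ≤ q.2.2 ∧
      q.1 + q.2.1 + q.2.2 ≤ 1} := by
    apply MeasurableSet.inter
    · exact measurableSet_le measurable_const measurable_fst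
    · apply MeasurableSet.inter
      · exact measurableSet_le measurable_const (measurable_fst.comp measurable_snd)
      · apply MeasurableSet.inter
        · exact measurableSet_le measurable_const (measurable_snd.comp measurable_snd)
        · exact measurableSet_le ((measurable_fst.add (measurable_fst.comp measurable_snd)).add
            (measurable_snd.comp measurable_snd)) measurable_const
  have h2 := h1.measure_preimage hSm.nullMeasurableSet
  rw [vol_prod] at h2
  rw [← h2]
  rfl

/-- the linear map with the columns `a`, `b`, `c` -/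
noncomputable def lm (a b c : E3) : E3 →ₗ[ℝ] E3 :=
  Matrix.toEuclideanLin !![a 0, b 0, c 0; a 1, b 1, c 1; a 2, b 2, c 2]

lemma lm_apply (a b c v : E3) : lm a b c v = v 0 • a + v 1 • b + v 2 • c := by
  unfold lm
  ext i
  rw [Matrix.toEuclideanLin_apply]
  fin_cases i <;> simp [Matrix.mulVec, dotProduct, Fin.sum_univ_three] <;> ring

lemma lm_det (a b c : E3) : LinearMap.det (lm a b c) = det3 a b c := by
  unfold lm det3
  rw [Matrix.toEuclideanLin_eq_toLin, LinearMap.det_toLin, Matrix.det_fin_three]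
  simp
  ring

lemma std_convex : Convex ℝ std := by
  rintro x ⟨x0, x1, x2, x3⟩ y ⟨y0, y1, y2, y3⟩ a b ha hb hab
  refine ⟨?_, ?_, ?_, ?_⟩
  · simp only [PiLp.add_apply, PiLp.smul_apply, smul_eq_mul]
    positivity
  · simp only [PiLp.add_apply, PiLp.smul_apply, smul_eq_mul]
    positivity
  · simp only [PiLp.add_apply, PiLp.smul_apply, smul_eq_mul]
    positivity
  · simp only [PiLp.add_apply, PiLp.smul_apply, smul_eq_mul]
    nlinarith [mul_le_mul_of_nonneg_left x3 ha, mul_le_mul_of_nonneg_left y3 hb]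

lemma hull (p : Fin 4 → E3) : convexHull ℝ (range p) =
    (fun v => p 0 + v) '' (lm (p 1 - p 0) (p 2 - p 0) (p 3 - p 0) '' std) := by
  apply Set.Subset.antisymm
  · refine convexHull_min ?_ ?_
    · rintro _ ⟨i, rfl⟩
      fin_cases i
      · refine ⟨_, ⟨0, ?_, rfl⟩, ?_⟩
        · refine ⟨?_, ?_, ?_, ?_⟩ <;> simp
        · simp
      · refine ⟨_, ⟨!₂[1, 0, 0], ?_, rfl⟩, ?_⟩
        · refine ⟨?_, ?_, ?_, ?_⟩ <;> simp
        · rw [lm_apply]; simp
      · refine ⟨_, ⟨!₂[0, 1, 0], ?_, rfl⟩, ?_⟩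
        · refine ⟨?_, ?_, ?_, ?_⟩ <;> simp
        · rw [lm_apply]; simp
      · refine ⟨_, ⟨!₂[0, 0, 1], ?_, rfl⟩, ?_⟩
        · refine ⟨?_, ?_, ?_, ?_⟩ <;> simp
        · rw [lm_apply]; simp
    · exact (std_convex.linear_image _).translate (p 0)
  · rintro _ ⟨_, ⟨v, ⟨h0, h1, h2, h3⟩, rfl⟩, rfl⟩
    refine mem_convexHull_of_exists_fintype ![1 - v 0 - v 1 - v 2, v 0, v 1, v 2] p ?_ ?_
      (fun i => ⟨i, rfl⟩) ?_
    · intro i
      fin_cases i
      · show 0 ≤ 1 - v 0 - v 1 - v 2
        linarith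
      · exact h0
      · exact h1
      · exact h2
    · simp [Fin.sum_univ_four]
      ring
    · rw [lm_apply]
      simp only [Fin.sum_univ_four, Matrix.cons_val]
      module

end TeVAux

open TeVAux in
theorem vol_tet (p : Fin 4 → E3) : volume (convexHull ℝ (range p)) =
    ENNReal.ofReal (|det3 (p 1 - p 0) (p 2 - p 0) (p 3 - p 0)| / 6) := by
  rw [hull, Set.image_add_left, measure_preimage_add, Measure.addHaar_image_linearMap, vol_std,
    lm_det, ← ENNReal.ofReal_mul (abs_nonneg _)]
  congr 1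
  ring

end Pool.Agent.Lib.FOLD
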