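import Pool.Agent.Lib.FOLD.BK
import Pool.Agent.Lib.FOLD.TeV

/-!
# FOLD.BQ: the polyhedron with 18 vertices and 32 faces (1.4 h)
Definitions in FOLD.BD (read the comment there), finite checks in FOLD.BK.
PROOF. `inner ℝ (toE3 a) (toE3 b) = dotI a b` (cast), so `b_n0`, `b_n`, `b_sup`, `b_eq` are `bk_nor`, `bk_sup`. `b_Q`: let `e_i = (E_i 0, E_i 1)`, `1 ≤ i ≤ 16`, `e_17 = e_1`: `cr e_i e_{i+1} > 0` (`bk_wind`) and a positive combination of the `e_i` is `0` (e.g. `∑ (e_i)` over the indices with positive first coordinate times `3762` plus the others times `7648`: finite check).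
For `ζ = (z 0, z 1)` there is `i ≤ 16` with `cr e_i ζ ≥ 0` and `cr ζ e_{i+1} ≥ 0`: if `ζ = 0` clear; if not, assume there is none; if `cr e_i ζ ≥ 0` for some `i` then `cr e_{i+1} ζ > 0`, and so on cyclically: all `cr e_i ζ > 0`, contradiction to the positive combination; otherwise all `cr e_i ζ < 0`, the same contradiction. Then `ζ = γ e_i + δ e_{i+1}`,
`γ, δ ≥ 0`, and `z = α x + β y + γ E_i + δ E_{i+1}` with `α + β + γ + δ = 1` (`x = (0,0,4789)`, `y = (0,0,-4789)` determine `α`, `β`). The face `k` with the vertices `y, E_i, E_{i+1}`: `0 ≥ ⟨n_k, z⟩ - h_k = α (⟨n_k, x⟩ - h_k)` and `⟨n_k, x⟩ < h_k` (`bk_sup`: strict, as `x` is not a vertex of the face), so `α ≥ 0`; in the same way `β ≥ 0` from the face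
`x, E_i, E_{i+1}`. `b_int`: the hull contains a tetrahedron with positive volume (`vol_tet`), a convex set of positive volume has interior points; or affine independence.
-/

set_option autoImplicit false

open MeasureTheory Set Filter Topology Metric
open scoped MeasureTheory ENNReal

namespace Pool.Agent.Lib.FOLD

namespace BQAux

theorem toE3_0 (a : ℤ × ℤ × ℤ) : toE3 a 0 = (a.1 : ℝ) := by simp [toE3]

theorem toE3_1 (a : ℤ × ℤ × ℤ) : toE3 a 1 = (a.2.1 : ℝ) := by simp [toE3]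

theorem toE3_2 (a : ℤ × ℤ × ℤ) : toE3 a 2 = (a.2.2 : ℝ) := by simp [toE3]

theorem lab_val : ∀ k : Fin 32, ∀ i : Fin 3, ((blab k i : Fin 18) : ℕ) = bl (bi k i) := by
  decide +kernel

/-- weights with sum of the weighted projections zero -/
def wt (j : Fin 16) : ℤ := if 0 < (bp (j + 2)).1 then 3762 else 7648

theorem wt_pos : ∀ j : Fin 16, 0 < wt j := by decide +kernel

theorem wt_sum1 : ∑ j : Fin 16, wt j * (bp (j + 2)).1 = 0 := by decide +kernel

theorem wt_sum2 : ∑ j : Fin 16, wt j * (bp (j + 2)).2.1 = 0 := by decide +kernel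

theorem wind : ∀ j : Fin 16, 0 < (bp (j + 2)).1 * (bp (((j + 1 : Fin 16) : ℕ) + 2)).2.1 -
    (bp (j + 2)).2.1 * (bp (((j + 1 : Fin 16) : ℕ) + 2)).1 := by decide +kernel

theorem face_y : ∀ j : Fin 16, ∃ k : Fin 32, dotI (bnI k) (bp 1) = bhI k ∧
    dotI (bnI k) (bp (j + 2)) = bhI k ∧ dotI (bnI k) (bp (((j + 1 : Fin 16) : ℕ) + 2)) = bhI k ∧
    dotI (bnI k) (bp 0) < bhI k := by decide +kernel

theorem face_x : ∀ j : Fin 16, ∃ k : Fin 32, dotI (bnI k) (bp 0) = bhI k ∧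
    dotI (bnI k) (bp (j + 2)) = bhI k ∧ dotI (bnI k) (bp (((j + 1 : Fin 16) : ℕ) + 2)) = bhI k ∧
    dotI (bnI k) (bp 1) < bhI k := by decide +kernel

theorem cyc (f c : Fin 16 → ℝ) (hc : ∀ j, 0 < c j) (h0 : ∑ j, c j * f j = 0) :
    ∃ j, 0 ≤ f j ∧ f (j + 1) ≤ 0 := by
  by_contra! h
  by_cases h1 : ∃ j, 0 ≤ f j
  · obtain ⟨j, hj⟩ := h1
    have h2 : ∀ n : ℕ, 0 < f (j + 1 + (Fin.ofNat 16 n)) := by
      intro n
      induction n with
      | zero =>
        have h3 : ∀ j : Fin 16, j + 1 + (Fin.ofNat 16 0) = j + 1 := by decide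
        rw [h3]
        exact h j hj
      | succ n ih =>
        have h3 : j + 1 + (Fin.ofNat 16 (n + 1)) = (j + 1 + Fin.ofNat 16 n) + 1 := by
          have h4 : (Fin.ofNat 16 (n + 1)) = Fin.ofNat 16 n + 1 := by
            apply Fin.ext
            simp [Fin.val_add, Fin.ofNat]
          rw [h4, add_assoc (j + 1)]
        rw [h3]
        exact h _ ih.le
    have h3 : ∀ i, 0 < f i := by
      intro i
      have h4 := h2 ((i - (j + 1) : Fin 16) : ℕ)
      have h5 : j + 1 + (Fin.ofNat 16 ((i - (j + 1) : Fin 16) : ℕ)) = i := by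
        have h6 : (Fin.ofNat 16 ((i - (j + 1) : Fin 16) : ℕ)) = i - (j + 1) := by
          apply Fin.ext
          simp [Fin.ofNat, Nat.mod_eq_of_lt (Fin.is_lt _)]
        rw [h6, add_sub_cancel]
      rwa [h5] at h4
    have h4 : 0 < ∑ j, c j * f j :=
      Finset.sum_pos (fun i _ => mul_pos (hc i) (h3 i)) Finset.univ_nonempty
    linarith
  · push Not at h1
    have h4 : ∑ j, c j * f j < 0 :=
      Finset.sum_neg (fun i _ => mul_neg_of_pos_of_neg (hc i) (h1 i)) Finset.univ_nonempty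
    linarith

/-- the inner product with a point given by a convex combination -/
theorem comb (n : E3) (h α β γ δ : ℝ) (x y u v z : E3) (hz : z = α • x + β • y + γ • u + δ • v)
    (hs : α + β + γ + δ = 1) (hy : inner ℝ n y = h) (hu : inner ℝ n u = h)
    (hv : inner ℝ n v = h) (hx : inner ℝ n x < h) (hle : inner ℝ n z ≤ h) : 0 ≤ α := by
  rw [hz, inner_add_right, inner_add_right, inner_add_right, inner_smul_right, inner_smul_right,
    inner_smul_right, inner_smul_right, hy, hu, hv] at hle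
  by_contra hα
  push Not at hα
  have h1 : α * inner ℝ n x > α * h := mul_lt_mul_of_neg_left hx hα
  have h2 : α * h + β * h + γ * h + δ * h = h := by
    rw [← add_mul, ← add_mul, ← add_mul, hs, one_mul]
  linarith

end BQAux

open BQAux

theorem inner_toE3 (a b : ℤ × ℤ × ℤ) : inner ℝ (toE3 a) (toE3 b) = ((dotI a b : ℤ) : ℝ) := by
  rw [PiLp.inner_apply, Fin.sum_univ_three, toE3_0, toE3_0, toE3_1, toE3_1, toE3_2, toE3_2]
  simp only [dotI, RCLike.inner_apply, conj_trivial]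
  push_cast
  ring

theorem b_n0 (k : Fin 32) : bn k ≠ 0 := by
  intro h
  have h1 := (bk_nor k 0).2
  have h2 : inner ℝ (bn k) (bn k) = ((dotI (bnI k) (bnI k) : ℤ) : ℝ) := inner_toE3 _ _
  rw [h, inner_zero_left] at h2
  have h3 : dotI (bnI k) (bnI k) = 0 := by exact_mod_cast h2.symm
  omega

theorem b_n (k : Fin 32) (i : Fin 3) : inner ℝ (bn k) (bw (blab k i)) = bh k := by
  have h1 : inner ℝ (bn k) (bw (blab k i)) = ((dotI (bnI k) (bp (blab k i)) : ℤ) : ℝ) :=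
    inner_toE3 _ _
  rw [h1, lab_val k i]
  have h2 : dotI (bnI k) (bp (bl (bi k i))) = bhI k := (bk_nor k i).1
  rw [h2]
  rfl

theorem b_sup (k : Fin 32) (m : Fin 18) : inner ℝ (bn k) (bw m) ≤ bh k := by
  have h1 : inner ℝ (bn k) (bw m) = ((dotI (bnI k) (bp m) : ℤ) : ℝ) := inner_toE3 _ _
  rw [h1]
  have h2 := (bk_sup k m).1
  unfold bh
  exact_mod_cast h2

theorem b_eq (k : Fin 32) (m : Fin 18) (h : inner ℝ (bn k) (bw m) = bh k) : ∃ i, blab k i = m := by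
  have h1 : inner ℝ (bn k) (bw m) = ((dotI (bnI k) (bp m) : ℤ) : ℝ) := inner_toE3 _ _
  rw [h1] at h
  unfold bh at h
  have h2 : dotI (bnI k) (bp m) = bhI k := by exact_mod_cast h
  exact (bk_sup k m).2 h2

theorem b_Q (z : E3) (h : ∀ k, inner ℝ (bn k) z ≤ bh k) : z ∈ convexHull ℝ (range bw) := by
  obtain ⟨j, hj1, hj2⟩ := cyc (fun j => ((bp (j + 2)).1 : ℝ) * z 1 - ((bp (j + 2)).2.1 : ℝ) * z 0)
    (fun j => (wt j : ℝ)) (fun j => by exact_mod_cast wt_pos j) (by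
      have h1 : ((∑ j : Fin 16, wt j * (bp (j + 2)).1 : ℤ) : ℝ) = 0 := by
        rw [wt_sum1]
        norm_num
      have h2 : ((∑ j : Fin 16, wt j * (bp (j + 2)).2.1 : ℤ) : ℝ) = 0 := by
        rw [wt_sum2]
        norm_num
      push_cast at h1 h2
      calc ∑ j : Fin 16, (wt j : ℝ) * (((bp (j + 2)).1 : ℝ) * z 1 - ((bp (j + 2)).2.1 : ℝ) * z 0)
          = (∑ j : Fin 16, (wt j : ℝ) * ((bp (j + 2)).1 : ℝ)) * z 1 -
            (∑ j : Fin 16, (wt j : ℝ) * ((bp (j + 2)).2.1 : ℝ)) * z 0 := by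
            rw [Finset.sum_mul, Finset.sum_mul, ← Finset.sum_sub_distrib]
            refine Finset.sum_congr rfl fun i _ => ?_
            ring
        _ = 0 := by rw [h1, h2]; ring)
  have hw := wind j
  obtain ⟨ky, y1, y2, y3, y4⟩ := face_y j
  obtain ⟨kx, x1, x2, x3, x4⟩ := face_x j
  have hlt : ((j + 1 : Fin 16) : ℕ) + 2 < 18 := by
    have := (j + 1 : Fin 16).is_lt
    omega
  have hlt0 : (j : ℕ) + 2 < 18 := by
    have := j.is_lt
    omega
  obtain ⟨P, hP⟩ : ∃ P, bp (j + 2) = P := ⟨_, rfl⟩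
  obtain ⟨P', hP'⟩ : ∃ P', bp (((j + 1 : Fin 16) : ℕ) + 2) = P' := ⟨_, rfl⟩
  simp only [hP, hP'] at hj1 hj2 hw y2 y3 x2 x3
  obtain ⟨p1, p2, p3⟩ := P
  obtain ⟨q1, q2, q3⟩ := P'
  simp only at hj1 hj2 hw
  have hw' : (0 : ℝ) < (p1 : ℝ) * q2 - (p2 : ℝ) * q1 := by exact_mod_cast hw
  obtain ⟨D, hD⟩ : ∃ D : ℝ, D = (p1 : ℝ) * q2 - (p2 : ℝ) * q1 := ⟨_, rfl⟩
  rw [← hD] at hw'
  -- coefficients
  obtain ⟨γ, hγ⟩ : ∃ γ : ℝ, γ = (z 0 * q2 - z 1 * q1) / D := ⟨_, rfl⟩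
  obtain ⟨δ, hδ⟩ : ∃ δ : ℝ, δ = ((p1 : ℝ) * z 1 - (p2 : ℝ) * z 0) / D := ⟨_, rfl⟩
  have hγ0 : 0 ≤ γ := by
    rw [hγ]
    apply div_nonneg _ hw'.le
    linarith
  have hδ0 : 0 ≤ δ := by
    rw [hδ]
    exact div_nonneg hj1 hw'.le
  have hz0 : z 0 = γ * p1 + δ * q1 := by
    rw [hγ, hδ]
    field_simp
    rw [hD]
    ring
  have hz1 : z 1 = γ * p2 + δ * q2 := by
    rw [hγ, hδ]
    field_simp
    rw [hD]
    ring
  obtain ⟨α, hα⟩ : ∃ α : ℝ, α = ((1 - γ - δ) + (z 2 - γ * p3 - δ * q3) / 4789) / 2 := ⟨_, rfl⟩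
  obtain ⟨β, hβ⟩ : ∃ β : ℝ, β = ((1 - γ - δ) - (z 2 - γ * p3 - δ * q3) / 4789) / 2 := ⟨_, rfl⟩
  have hs : α + β + γ + δ = 1 := by
    rw [hα, hβ]
    ring
  have hz2 : z 2 = 4789 * α - 4789 * β + γ * p3 + δ * q3 := by
    rw [hα, hβ]
    ring
  have b0 : bp 0 = (0, 0, 4789) := rfl
  have b1 : bp 1 = (0, 0, -4789) := rfl
  have hz : z = α • toE3 (bp 0) + β • toE3 (bp 1) + γ • toE3 (p1, p2, p3) +
      δ • toE3 (q1, q2, q3) := by
    ext i
    fin_cases i
    · simp [toE3, b0, b1]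
      linarith
    · simp [toE3, b0, b1]
      linarith
    · simp [toE3, b0, b1]
      linarith
  have hin : ∀ (k : Fin 32) (a : ℤ × ℤ × ℤ), dotI (bnI k) a = bhI k →
      inner ℝ (bn k) (toE3 a) = bh k := by
    intro k a ha
    have h1 : inner ℝ (bn k) (toE3 a) = ((dotI (bnI k) a : ℤ) : ℝ) := inner_toE3 _ _
    rw [h1, ha]
    rfl
  have hin' : ∀ (k : Fin 32) (a : ℤ × ℤ × ℤ), dotI (bnI k) a < bhI k →
      inner ℝ (bn k) (toE3 a) < bh k := by
    intro k a ha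
    have h1 : inner ℝ (bn k) (toE3 a) = ((dotI (bnI k) a : ℤ) : ℝ) := inner_toE3 _ _
    rw [h1]
    unfold bh
    exact_mod_cast ha
  have hα0 : 0 ≤ α := comb (bn ky) (bh ky) α β γ δ _ _ _ _ z hz hs (hin _ _ y1) (hin _ _ y2)
    (hin _ _ y3) (hin' _ _ y4) (h ky)
  have hβ0 : 0 ≤ β := comb (bn kx) (bh kx) β α γ δ _ _ _ _ z (by rw [hz, add_comm (α • _)])
    (by linarith) (hin _ _ x1) (hin _ _ x2) (hin _ _ x3) (hin' _ _ x4) (h kx)
  refine mem_convexHull_of_exists_fintype ![α, β, γ, δ]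
    ![bw 0, bw 1, bw ⟨j + 2, hlt0⟩, bw ⟨((j + 1 : Fin 16) : ℕ) + 2, hlt⟩] ?_ ?_ ?_ ?_
  · intro i
    fin_cases i
    · exact hα0
    · exact hβ0
    · exact hγ0
    · exact hδ0
  · simp [Fin.sum_univ_four]
    linarith
  · intro i
    fin_cases i
    · exact ⟨0, rfl⟩
    · exact ⟨1, rfl⟩
    · exact ⟨⟨j + 2, hlt0⟩, rfl⟩
    · exact ⟨⟨((j + 1 : Fin 16) : ℕ) + 2, hlt⟩, rfl⟩
  · simp only [Fin.sum_univ_four, Matrix.cons_val]
    have e1 : bw ⟨j + 2, hlt0⟩ = toE3 (p1, p2, p3) := by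
      unfold bw
      rw [← hP]
    have e2 : bw ⟨((j + 1 : Fin 16) : ℕ) + 2, hlt⟩ = toE3 (q1, q2, q3) := by
      unfold bw
      rw [← hP']
    have e3 : bw 0 = toE3 (bp 0) := rfl
    have e4 : bw 1 = toE3 (bp 1) := rfl
    rw [e1, e2, e3, e4]
    exact hz.symm

theorem b_int : (interior (convexHull ℝ (range bw))).Nonempty := by
  have h1 := vol_tet ![bw 0, bw 1, bw 2, bw 3]
  have h2 : convexHull ℝ (range ![bw 0, bw 1, bw 2, bw 3]) ⊆ convexHull ℝ (range bw) := by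
    apply convexHull_mono
    rintro _ ⟨i, rfl⟩
    fin_cases i
    · exact ⟨0, rfl⟩
    · exact ⟨1, rfl⟩
    · exact ⟨2, rfl⟩
    · exact ⟨3, rfl⟩
  have b0 : bp 0 = (0, 0, 4789) := rfl
  have b1 : bp 1 = (0, 0, -4789) := rfl
  have b2 : bp 2 = (3531, 2446, 281) := rfl
  have b3 : bp 3 = (2314, 2732, -287) := rfl
  have c0 : bw 0 = toE3 (0, 0, 4789) := rfl
  have c1 : bw 1 = toE3 (0, 0, -4789) := rfl
  have c2 : bw 2 = toE3 (3531, 2446, 281) := rfl
  have c3 : bw 3 = toE3 (2314, 2732, -287) := rfl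
  have h3 : 0 < volume (convexHull ℝ (range ![bw 0, bw 1, bw 2, bw 3])) := by
    rw [h1, ENNReal.ofReal_pos]
    simp only [Matrix.cons_val, c0, c1, c2, c3]
    have h4 : det3 (toE3 (0, 0, -4789) - toE3 (0, 0, 4789))
        (toE3 (3531, 2446, 281) - toE3 (0, 0, 4789))
        (toE3 (2314, 2732, -287) - toE3 (0, 0, 4789)) = -9578 * 3986648 := by
      simp [det3, toE3]
      norm_num
    rw [h4]
    norm_num
  have h5 : 0 < volume (convexHull ℝ (range bw)) := lt_of_lt_of_le h3 (measure_mono h2)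
  by_contra h6
  rw [Set.not_nonempty_iff_eq_empty] at h6
  have h7 : convexHull ℝ (range bw) ⊆ frontier (convexHull ℝ (range bw)) := by
    rw [frontier, h6, Set.sdiff_empty]
    exact subset_closure
  have h8 := (convex_convexHull ℝ (range bw)).addHaar_frontier volume
  have h9 := measure_mono_null h7 h8
  rw [h9] at h5
  exact lt_irrefl _ h5

end Pool.Agent.Lib.FOLD
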