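import Pool.Agent.Lib.FOLD.BU
import Pool.Agent.Lib.FOLD.BS

/-!
# FOLD.BT: the triangulation of the polygon with 34 vertices (1.4 h)
Definitions in FOLD.BD. Use `bV_fan`, `bV_neg`, `bc_17` (FOLD.BU) and `b_edge`, `b_fan`, `b_sep` (FOLD.BS).
PROOF. Write `T_k = tri (bV k)`, `k < 16`: the triangle `bc 0, bc (k+1), bc (k+2)`, `T_{k+16} = - T_k`. Points of `T_k` are convex combinations `p = α bc 0 + β bc (k+1) + γ bc (k+2)`. Fan: for `j < k < 16` and the line through `bc 0` and `bc (j+2)`: `ori (bc 0) (bc (j+2)) p ≤ 0` on `T_j` (equality iff `β = 0`) and `≥ 0` on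
`T_k` (`b_fan`; if `k = j + 1` equality iff `γ = 0`; if `k > j + 1` equality iff `p = bc 0`). So interiors are disjoint (interior points have `ori ≠ 0`: the affine function is not constant; or: an open set where `ori = 0` is impossible) and a common point is in the segment `[bc 0, bc (j+2)]` (`k = j+1`, common edge, equal labels) or is `bc 0`.
Separation: `g p = ori (bc 16) (bc 17) p` is odd (`bc 17 = - bc 16`), `≥ 0` on `T_k`, `k < 16` (`b_sep`), with equality only for `p ∈ segment (bc 16) (bc 17)` if `k = 15`, only for `p = bc 16` if `k = 14` and never otherwise; so `≤ 0` on `T_{k+16}`, equality only on the same segment (`k = 15`) or at `- bc 16 = bc 17` (`k = 14`).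
A common point of `T_j`, `j < 16`, and `T_{k+16}`: `(15, 15)`: the common edge `bc 16, bc 17` (labels `17, 2` on both sides); `(15, 14)`: `p = bc 17`, label `2` on both sides; `(14, 15)`: `p = bc 16`, label `17`; `(14, 14)`: `bc 16 = bc 17`, impossible (`b_fan` or `b_sep`). Two triangles `T_{j+16}`, `T_{k+16}`: by the symmetry `p ↦ -p`
(`blab`: finite check). `j = k`: the hull of the three vertices.
-/

set_option autoImplicit false

open MeasureTheory Set Filter Topology Metric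
open scoped MeasureTheory ENNReal

namespace Pool.Agent.Lib.FOLD

namespace BTAux

theorem mem_tri {V : Fin 3 → E2} {p : E2} (hp : p ∈ tri V) :
    ∃ α : Fin 3 → ℝ, (∀ i, 0 ≤ α i) ∧ ∑ i, α i = 1 ∧ ∑ i, α i • V i = p := by
  have hconv : Convex ℝ {p : E2 | ∃ α : Fin 3 → ℝ, (∀ i, 0 ≤ α i) ∧ ∑ i, α i = 1 ∧
      ∑ i, α i • V i = p} := by
    rintro x ⟨α, ha0, ha1, hax⟩ y ⟨β, hb0, hb1, hby⟩ s t hs ht hst
    refine ⟨fun i => s * α i + t * β i, fun i => add_nonneg (mul_nonneg hs (ha0 i))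
      (mul_nonneg ht (hb0 i)), ?_, ?_⟩
    · rw [Finset.sum_add_distrib, ← Finset.mul_sum, ← Finset.mul_sum, ha1, hb1, mul_one, mul_one,
        hst]
    · rw [← hax, ← hby, Finset.smul_sum, Finset.smul_sum, ← Finset.sum_add_distrib]
      refine Finset.sum_congr rfl fun i _ => ?_
      rw [add_smul, mul_smul, mul_smul]
  refine convexHull_min ?_ hconv hp
  rintro _ ⟨i, rfl⟩
  refine ⟨Pi.single i 1, fun j => ?_, ?_, ?_⟩
  · by_cases hji : j = i
    · subst hji; simp
    · simp [hji]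
  · simp
  · rw [Finset.sum_eq_single i]
    · simp
    · intro j _ hj
      simp [hj]
    · intro hi
      exact absurd (Finset.mem_univ i) hi

theorem sum_cvx {ι : Type*} [Fintype ι] (c : ι → ℝ) (hc : ∀ i, 0 ≤ c i) (hs : ∑ i, c i = 1)
    (v : ι → E2) (S : Set E2) (h : ∀ i, c i ≠ 0 → v i ∈ S) :
    ∑ i, c i • v i ∈ convexHull ℝ S := by
  classical
  have h1 : ∑ i, c i • v i = ∑ i ∈ Finset.univ.filter (fun i => c i ≠ 0), c i • v i := by
    rw [Finset.sum_filter]
    refine Finset.sum_congr rfl fun i _ => ?_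
    split_ifs with h2
    · rfl
    · rw [not_not] at h2
      rw [h2, zero_smul]
  have h2 : ∑ i ∈ Finset.univ.filter (fun i => c i ≠ 0), c i = 1 := by
    rw [Finset.sum_filter_ne_zero]
    exact hs
  rw [h1]
  refine (convex_convexHull ℝ S).sum_mem (fun i _ => hc i) h2 fun i hi => ?_
  exact subset_convexHull ℝ S (h i (Finset.mem_filter.1 hi).2)

theorem disj_of_sep (A B : Set E2) (a b c : ℝ) (hab : 0 < a * a + b * b)
    (hA : ∀ p ∈ A, a * p 0 + b * p 1 ≤ c) (hB : ∀ p ∈ B, c ≤ a * p 0 + b * p 1) :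
    Disjoint (interior A) (interior B) := by
  rw [Set.disjoint_left]
  intro p hpA hpB
  have hB' := hB p (interior_subset hpB)
  have hc : ContinuousAt (fun t : ℝ => p + t • (!₂[a, b] : E2)) 0 := by fun_prop
  have hm : A ∈ 𝓝 ((fun t : ℝ => p + t • (!₂[a, b] : E2)) 0) := by
    simp only [zero_smul, add_zero]
    exact mem_interior_iff_mem_nhds.1 hpA
  have he : ∀ᶠ t in 𝓝 (0 : ℝ), p + t • (!₂[a, b] : E2) ∈ A := hc.eventually_mem hm
  have he2 : ∀ᶠ t in 𝓝[>] (0 : ℝ), p + t • (!₂[a, b] : E2) ∈ A := he.filter_mono nhdsWithin_le_nhds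
  obtain ⟨t, ht, ht0⟩ := (he2.and self_mem_nhdsWithin).exists
  have hA' := hA _ ht
  have ht0' : 0 < t := ht0
  simp at hA'
  nlinarith [mul_pos ht0' hab]

theorem ori_sum (P Q : E2) (V : Fin 3 → E2) (α : Fin 3 → ℝ) (h : ∑ i, α i = 1) :
    ori P Q (∑ i, α i • V i) = ∑ i, α i * ori P Q (V i) := by
  rw [Fin.sum_univ_three] at h
  rw [Fin.sum_univ_three, Fin.sum_univ_three]
  have h0 : α 0 = 1 - α 1 - α 2 := by linarith
  unfold ori
  simp only [PiLp.add_apply, PiLp.smul_apply, smul_eq_mul]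
  rw [h0]
  ring

theorem ori_swap (P Q x : E2) : ori Q P x = -ori P Q x := by
  unfold ori
  ring

theorem ori_swap' (P Q x : E2) : ori P Q x = -ori P x Q := by
  unfold ori
  ring

theorem ori_self (P Q : E2) : ori P Q P = 0 := by
  unfold ori
  ring

theorem ori_self' (P Q : E2) : ori P Q Q = 0 := by
  unfold ori
  ring

theorem ori_neg (P Q x : E2) : ori (-P) (-Q) (-x) = ori P Q x := by
  unfold ori
  simp only [PiLp.neg_apply]
  ring

theorem ori_odd (P x : E2) : ori P (-P) (-x) = -ori P (-P) x := by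
  unfold ori
  simp only [PiLp.neg_apply]
  ring

theorem ori_disj {V W : Fin 3 → E2} {P Q : E2} (h0 : ∃ x, ori P Q x ≠ 0)
    (hV : ∀ i, ori P Q (V i) ≤ 0) (hW : ∀ i, 0 ≤ ori P Q (W i)) :
    Disjoint (interior (tri V)) (interior (tri W)) := by
  have e : ∀ p : E2, ori P Q p = -(Q 1 - P 1) * p 0 + (Q 0 - P 0) * p 1 -
      ((Q 0 - P 0) * P 1 - (Q 1 - P 1) * P 0) := by
    intro p
    unfold ori
    ring
  refine disj_of_sep (tri V) (tri W) (-(Q 1 - P 1)) (Q 0 - P 0)
    ((Q 0 - P 0) * P 1 - (Q 1 - P 1) * P 0) ?_ ?_ ?_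
  · obtain ⟨x, hx⟩ := h0
    by_contra h
    have h1 : -(Q 1 - P 1) * -(Q 1 - P 1) + (Q 0 - P 0) * (Q 0 - P 0) ≤ 0 := not_lt.1 h
    have h2 : Q 1 - P 1 = 0 := by nlinarith [mul_self_nonneg (Q 1 - P 1), mul_self_nonneg (Q 0 - P 0)]
    have h3 : Q 0 - P 0 = 0 := by nlinarith [mul_self_nonneg (Q 1 - P 1), mul_self_nonneg (Q 0 - P 0)]
    apply hx
    unfold ori
    rw [h2, h3]
    ring
  · intro p hp
    obtain ⟨α, ha0, ha1, hap⟩ := mem_tri hp
    have h1 : ori P Q p ≤ 0 := by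
      rw [← hap, ori_sum P Q V α ha1]
      exact Finset.sum_nonpos fun i _ => mul_nonpos_of_nonneg_of_nonpos (ha0 i) (hV i)
    rw [e] at h1
    linarith
  · intro p hp
    obtain ⟨α, ha0, ha1, hap⟩ := mem_tri hp
    have h1 : 0 ≤ ori P Q p := by
      rw [← hap, ori_sum P Q W α ha1]
      exact Finset.sum_nonneg fun i _ => mul_nonneg (ha0 i) (hW i)
    rw [e] at h1
    linarith

theorem over_left {V W : Fin 3 → E2} {P Q : E2} {S : Set E2} {p : E2} (hp : p ∈ tri V)
    (hq : p ∈ tri W) (hV : ∀ i, ori P Q (V i) ≤ 0) (hW : ∀ i, 0 ≤ ori P Q (W i))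
    (h : ∀ i, ori P Q (V i) = 0 → V i ∈ S) : p ∈ convexHull ℝ S := by
  obtain ⟨β, hb0, hb1, hbp⟩ := mem_tri hq
  obtain ⟨α, ha0, ha1, hap⟩ := mem_tri hp
  have h1 : 0 ≤ ori P Q p := by
    rw [← hbp, ori_sum P Q W β hb1]
    exact Finset.sum_nonneg fun i _ => mul_nonneg (hb0 i) (hW i)
  rw [← hap, ori_sum P Q V α ha1] at h1
  have h2 : ∀ i ∈ Finset.univ, α i * ori P Q (V i) ≤ 0 :=
    fun i _ => mul_nonpos_of_nonneg_of_nonpos (ha0 i) (hV i)
  have h3 : ∑ i, α i * ori P Q (V i) = 0 := le_antisymm (Finset.sum_nonpos h2) h1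
  have h4 := (Finset.sum_eq_zero_iff_of_nonpos h2).1 h3
  rw [← hap]
  refine sum_cvx α ha0 ha1 V S fun i hi => ?_
  have h5 := h4 i (Finset.mem_univ i)
  exact h i ((mul_eq_zero.1 h5).resolve_left hi)

theorem over_right {V W : Fin 3 → E2} {P Q : E2} {S : Set E2} {p : E2} (hp : p ∈ tri V)
    (hq : p ∈ tri W) (hV : ∀ i, ori P Q (V i) ≤ 0) (hW : ∀ i, 0 ≤ ori P Q (W i))
    (h : ∀ i, ori P Q (W i) = 0 → W i ∈ S) : p ∈ convexHull ℝ S := by
  refine over_left (P := Q) (Q := P) hq hp (fun i => ?_) (fun i => ?_) (fun i hi => ?_)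
  · rw [ori_swap]
    linarith [hW i]
  · rw [ori_swap]
    linarith [hV i]
  · apply h
    rw [ori_swap] at hi
    linarith

theorem indep_of_ori {V : Fin 3 → E2} (h : 0 < ori (V 0) (V 1) (V 2)) : AffineIndependent ℝ V := by
  rw [affineIndependent_iff_of_fintype]
  intro w hw h'
  rw [Finset.weightedVSub_eq_linear_combination _ hw] at h'
  have h0 : (∑ i, w i • V i : E2) 0 = 0 := by
    rw [h']
    rfl
  have h1 : (∑ i, w i • V i : E2) 1 = 0 := by
    rw [h']
    rfl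
  rw [Fin.sum_univ_three] at hw h0 h1
  simp only [PiLp.add_apply, PiLp.smul_apply, smul_eq_mul] at h0 h1
  unfold ori at h
  have e0 : w 0 = -w 1 - w 2 := by linarith
  have k1 : w 1 * ((V 1 0 - V 0 0) * (V 2 1 - V 0 1) - (V 1 1 - V 0 1) * (V 2 0 - V 0 0)) = 0 := by
    rw [e0] at h0 h1
    linear_combination (V 2 1 - V 0 1) * h0 - (V 2 0 - V 0 0) * h1
  have k2 : w 2 * ((V 1 0 - V 0 0) * (V 2 1 - V 0 1) - (V 1 1 - V 0 1) * (V 2 0 - V 0 0)) = 0 := by
    rw [e0] at h0 h1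
    linear_combination (V 1 0 - V 0 0) * h1 - (V 1 1 - V 0 1) * h0
  have h2 : w 1 = 0 := (mul_eq_zero.1 k1).resolve_right h.ne'
  have h3 : w 2 = 0 := (mul_eq_zero.1 k2).resolve_right h.ne'
  intro i
  fin_cases i
  · change w 0 = 0
    linarith
  · exact h2
  · exact h3

/-- the point sets of common vertices -/
def CS (j k : Fin 32) : Set E2 := {q | ∃ i i', bV j i = q ∧ bV k i' = q ∧ blab j i = blab k i'}

theorem CS_comm (j k : Fin 32) : CS j k = CS k j := by
  ext q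
  constructor
  · rintro ⟨i, i', h1, h2, h3⟩
    exact ⟨i', i, h2, h1, h3.symm⟩
  · rintro ⟨i, i', h1, h2, h3⟩
    exact ⟨i', i, h2, h1, h3.symm⟩

theorem lab0 : ∀ k : Fin 32, (k : ℕ) < 16 → blab k 0 = 0 := by decide

theorem lab0' : ∀ k : Fin 32, ¬ (k : ℕ) < 16 → blab k 0 = 1 := by decide

theorem lab1 : ∀ j k : Fin 32, (j : ℕ) ≠ 15 → (k : ℕ) = j + 1 → blab j 2 = blab k 1 := by decide

theorem lab_a : blab 14 2 = blab 31 2 := by decide

theorem lab_b : blab 15 2 = blab 30 2 := by decide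

theorem lab_c : blab 15 1 = blab 31 2 := by decide

theorem lab_d : blab 15 2 = blab 31 1 := by decide

/-- the vertices of the first 16 triangles -/
noncomputable def cV (k : ℕ) : Fin 3 → E2 := ![bc 0, bc (k + 1), bc (k + 2)]

theorem bV_lo (k : Fin 32) (hk : (k : ℕ) < 16) : bV k = cV k := bV_fan k hk

theorem bV_hi (k : Fin 32) (hk : ¬ (k : ℕ) < 16) (i : Fin 3) : bV k i = -cV (k - 16) i := by
  have h1 : (k : ℕ) - 16 < 16 := by omega
  have h2 := bV_neg ⟨(k : ℕ) - 16, by omega⟩ k (by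
    change (k : ℕ) = (k : ℕ) - 16 + 16
    omega) i
  rw [h2, bV_lo ⟨(k : ℕ) - 16, by omega⟩ h1]

/-- the fan: left side -/
theorem fan_left {j : ℕ} (hj : j < 16) (i : Fin 3) : ori (bc 0) (bc (j + 2)) (cV j i) ≤ 0 ∧
    (ori (bc 0) (bc (j + 2)) (cV j i) = 0 → i = 0 ∨ i = 2) := by
  fin_cases i
  · exact ⟨(ori_self _ _).le, fun _ => Or.inl rfl⟩
  · have h := b_fan (j := j + 1) (k := j + 2) (by omega) (by omega) (by omega)
    have h2 := ori_swap' (bc 0) (bc (j + 2)) (bc (j + 1))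
    refine ⟨?_, fun h3 => ?_⟩
    · change ori (bc 0) (bc (j + 2)) (bc (j + 1)) ≤ 0
      linarith
    · exfalso
      have h4 : ori (bc 0) (bc (j + 2)) (bc (j + 1)) = 0 := h3
      linarith
  · exact ⟨(ori_self' _ _).le, fun _ => Or.inr rfl⟩

/-- the fan: right side -/
theorem fan_right {j k : ℕ} (hjk : j < k) (hk : k < 16) (i : Fin 3) :
    0 ≤ ori (bc 0) (bc (j + 2)) (cV k i) ∧
    (ori (bc 0) (bc (j + 2)) (cV k i) = 0 → i = 0 ∨ (i = 1 ∧ k = j + 1)) := by
  fin_cases i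
  · exact ⟨(ori_self _ _).ge, fun _ => Or.inl rfl⟩
  · rcases Nat.lt_or_ge (j + 1) k with h | h
    · have h1 := b_fan (j := j + 2) (k := k + 1) (by omega) (by omega) (by omega)
      refine ⟨h1.le, fun h3 => ?_⟩
      exact absurd h3 h1.ne'
    · have h2 : k = j + 1 := by omega
      subst h2
      exact ⟨(ori_self' _ _).ge, fun _ => Or.inr ⟨rfl, rfl⟩⟩
  · have h1 := b_fan (j := j + 2) (k := k + 2) (by omega) (by omega) (by omega)
    refine ⟨h1.le, fun h3 => ?_⟩
    exact absurd h3 h1.ne'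

/-- the separation of the two fans -/
theorem sep_pos {j : ℕ} (hj : j < 16) (i : Fin 3) : 0 ≤ ori (bc 16) (bc 17) (cV j i) ∧
    (ori (bc 16) (bc 17) (cV j i) = 0 → (i = 1 ∧ j = 15) ∨ (i = 2 ∧ j = 14) ∨ (i = 2 ∧ j = 15)) := by
  have key : ∀ m : ℕ, m ≤ 17 → 0 ≤ ori (bc 16) (bc 17) (bc m) ∧
      (ori (bc 16) (bc 17) (bc m) = 0 → m = 16 ∨ m = 17) := by
    intro m hm
    rcases Nat.lt_or_ge m 16 with h | h
    · have h1 := b_sep h
      exact ⟨h1.le, fun h3 => absurd h3 h1.ne'⟩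
    · rcases Nat.lt_or_ge m 17 with h2 | h2
      · have h3 : m = 16 := by omega
        subst h3
        exact ⟨(ori_self _ _).ge, fun _ => Or.inl rfl⟩
      · have h3 : m = 17 := by omega
        subst h3
        exact ⟨(ori_self' _ _).ge, fun _ => Or.inr rfl⟩
  fin_cases i
  · obtain ⟨h1, h2⟩ := key 0 (by omega)
    refine ⟨h1, fun h3 => ?_⟩
    rcases h2 h3 with h | h <;> omega
  · obtain ⟨h1, h2⟩ := key (j + 1) (by omega)
    refine ⟨h1, fun h3 => ?_⟩
    rcases h2 h3 with h | h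
    · exact Or.inl ⟨rfl, by omega⟩
    · omega
  · obtain ⟨h1, h2⟩ := key (j + 2) (by omega)
    refine ⟨h1, fun h3 => ?_⟩
    rcases h2 h3 with h | h
    · exact Or.inr (Or.inl ⟨rfl, by omega⟩)
    · exact Or.inr (Or.inr ⟨rfl, by omega⟩)

theorem sep_odd (x : E2) : ori (bc 16) (bc 17) (-x) = -ori (bc 16) (bc 17) x := by
  rw [bc_17]
  exact ori_odd _ _

/-- the three kinds of pairs: separation -/
theorem sep_cases (j k : Fin 32) (h : j < k) :
    ∃ P Q : E2, (∃ x, ori P Q x ≠ 0) ∧ (((∀ i, ori P Q (bV j i) ≤ 0) ∧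
      ∀ i, 0 ≤ ori P Q (bV k i)) ∨ ((∀ i, ori P Q (bV k i) ≤ 0) ∧ ∀ i, 0 ≤ ori P Q (bV j i))) := by
  have hjk : (j : ℕ) < k := h
  by_cases hk : (k : ℕ) < 16
  · have hj : (j : ℕ) < 16 := by omega
    refine ⟨bc 0, bc (j + 2), ⟨bc (j + 1), ?_⟩, Or.inl ⟨fun i => ?_, fun i => ?_⟩⟩
    · have h1 := b_fan (j := (j : ℕ) + 1) (k := (j : ℕ) + 2) (by omega) (by omega) (by omega)
      have h2 := ori_swap' (bc 0) (bc ((j : ℕ) + 2)) (bc ((j : ℕ) + 1))
      intro h3
      linarith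
    · rw [bV_lo j hj]
      exact (fan_left hj i).1
    · rw [bV_lo k hk]
      exact (fan_right hjk hk i).1
  · by_cases hj : (j : ℕ) < 16
    · refine ⟨bc 16, bc 17, ⟨bc 0, (b_sep (by omega)).ne'⟩, Or.inr ⟨fun i => ?_, fun i => ?_⟩⟩
      · rw [bV_hi k hk, sep_odd]
        have := (sep_pos (j := (k : ℕ) - 16) (by omega) i).1
        linarith
      · rw [bV_lo j hj]
        exact (sep_pos hj i).1
    · refine ⟨-bc 0, -bc ((j : ℕ) - 16 + 2), ⟨-bc ((j : ℕ) - 16 + 1), ?_⟩,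
        Or.inl ⟨fun i => ?_, fun i => ?_⟩⟩
      · have h1 := b_fan (j := (j : ℕ) - 16 + 1) (k := (j : ℕ) - 16 + 2) (by omega) (by omega)
          (by omega)
        have h2 := ori_swap' (bc 0) (bc ((j : ℕ) - 16 + 2)) (bc ((j : ℕ) - 16 + 1))
        rw [ori_neg]
        intro h3
        linarith
      · rw [bV_hi j hj, ori_neg]
        exact (fan_left (by omega) i).1
      · rw [bV_hi k hk, ori_neg]
        exact (fan_right (by omega) (by omega) i).1

theorem cV_0 (m : ℕ) : cV m 0 = bc 0 := rfl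

theorem cV_1 (m : ℕ) : cV m 1 = bc (m + 1) := rfl

theorem cV_2 (m : ℕ) : cV m 2 = bc (m + 2) := rfl

theorem cV_zero (m n : ℕ) : cV m 0 = cV n 0 := by
  rw [cV_0, cV_0]

theorem cV_step (m : ℕ) : cV (m + 1) 1 = cV m 2 := by
  rw [cV_1, cV_2]

theorem over_A (j k : Fin 32) (hjk : (j : ℕ) < k) (hk : (k : ℕ) < 16) (p : E2)
    (hpj : p ∈ tri (bV j)) (hpk : p ∈ tri (bV k)) : p ∈ convexHull ℝ (CS j k) := by
  have hj : (j : ℕ) < 16 := by omega
  have hV : ∀ i, ori (bc 0) (bc ((j : ℕ) + 2)) (bV j i) ≤ 0 := by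
    intro i
    rw [bV_lo j hj]
    exact (fan_left hj i).1
  have hW : ∀ i, 0 ≤ ori (bc 0) (bc ((j : ℕ) + 2)) (bV k i) := by
    intro i
    rw [bV_lo k hk]
    exact (fan_right hjk hk i).1
  have m0 : bV j 0 ∈ CS j k := by
    refine ⟨0, 0, rfl, ?_, ?_⟩
    · rw [bV_lo j hj, bV_lo k hk]
      exact cV_zero _ _
    · rw [lab0 j hj, lab0 k hk]
  have m0' : bV k 0 ∈ CS j k := by
    refine ⟨0, 0, ?_, rfl, ?_⟩
    · rw [bV_lo j hj, bV_lo k hk]
      exact cV_zero _ _
    · rw [lab0 j hj, lab0 k hk]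
  by_cases h1 : (k : ℕ) = j + 1
  · refine over_left hpj hpk hV hW fun i hi => ?_
    rw [bV_lo j hj] at hi
    rcases (fan_left hj i).2 hi with h2 | h2
    · rw [h2]
      exact m0
    · rw [h2]
      refine ⟨2, 1, rfl, ?_, lab1 j k (by omega) h1⟩
      rw [bV_lo j hj, bV_lo k hk, h1]
      exact cV_step _
  · refine over_right hpj hpk hV hW fun i hi => ?_
    rw [bV_lo k hk] at hi
    rcases (fan_right hjk hk i).2 hi with h2 | h2
    · rw [h2]
      exact m0'
    · exact absurd h2.2 h1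

theorem val_1 : cV 14 2 = bc 16 := by
  rw [cV_2]

theorem val_2 : cV 15 1 = bc 16 := by
  rw [cV_1]

theorem val_3 : cV 15 2 = bc 17 := by
  rw [cV_2]

theorem over_B (j k : Fin 32) (hj : (j : ℕ) < 16) (hk : ¬ (k : ℕ) < 16) (p : E2)
    (hpj : p ∈ tri (bV j)) (hpk : p ∈ tri (bV k)) : p ∈ convexHull ℝ (CS j k) := by
  have hV : ∀ i, ori (bc 16) (bc 17) (bV k i) ≤ 0 := by
    intro i
    rw [bV_hi k hk, sep_odd]
    have := (sep_pos (j := (k : ℕ) - 16) (by omega) i).1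
    linarith
  have hW : ∀ i, 0 ≤ ori (bc 16) (bc 17) (bV j i) := by
    intro i
    rw [bV_lo j hj]
    exact (sep_pos hj i).1
  have zV : ∀ i, ori (bc 16) (bc 17) (bV k i) = 0 → (i = 1 ∧ (k : ℕ) = 31) ∨
      (i = 2 ∧ (k : ℕ) = 30) ∨ (i = 2 ∧ (k : ℕ) = 31) := by
    intro i hi
    rw [bV_hi k hk, sep_odd] at hi
    have h2 := (sep_pos (j := (k : ℕ) - 16) (by omega) i).2 (by linarith)
    rcases h2 with h2 | h2 | h2
    · exact Or.inl ⟨h2.1, by omega⟩
    · exact Or.inr (Or.inl ⟨h2.1, by omega⟩)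
    · exact Or.inr (Or.inr ⟨h2.1, by omega⟩)
  have zW : ∀ i, ori (bc 16) (bc 17) (bV j i) = 0 → (i = 1 ∧ (j : ℕ) = 15) ∨
      (i = 2 ∧ (j : ℕ) = 14) ∨ (i = 2 ∧ (j : ℕ) = 15) := by
    intro i hi
    rw [bV_lo j hj] at hi
    exact (sep_pos hj i).2 hi
  by_cases hj1 : (j : ℕ) < 14
  · refine over_right hpk hpj hV hW fun i hi => ?_
    rcases zW i hi with h | h | h <;> omega
  by_cases hk1 : (k : ℕ) < 30
  · refine over_left hpk hpj hV hW fun i hi => ?_
    rcases zV i hi with h | h | h <;> omega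
  by_cases hj2 : (j : ℕ) = 14
  · have ej : j = 14 := Fin.ext hj2
    have e1 : bV j 2 = bc 16 := by
      rw [bV_lo j hj, hj2]
      exact val_1
    have zW' : ∀ i, ori (bc 16) (bc 17) (bV j i) = 0 → i = 2 := by
      intro i hi
      rcases zW i hi with h | h | h
      · omega
      · exact h.1
      · exact h.1
    by_cases hk2 : (k : ℕ) = 30
    · have hk3 : (k : ℕ) - 16 = 14 := by omega
      exfalso
      have e2 : bV k 2 = -bc 16 := by
        rw [bV_hi k hk, hk3, val_1]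
      have zV' : ∀ i, ori (bc 16) (bc 17) (bV k i) = 0 → i = 2 := by
        intro i hi
        rcases zV i hi with h | h | h
        · omega
        · exact h.1
        · exact h.1
      have a1 : p ∈ convexHull ℝ {bc 16} := by
        refine over_right hpk hpj hV hW fun i hi => ?_
        rw [zW' i hi, e1]
        exact mem_singleton _
      have a2 : p ∈ convexHull ℝ {-bc 16} := by
        refine over_left hpk hpj hV hW fun i hi => ?_
        rw [zV' i hi, e2]
        exact mem_singleton _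
      rw [convexHull_singleton, mem_singleton_iff] at a1 a2
      have a3 : bc 17 = bc 16 := by
        rw [bc_17, ← a2, a1]
      have a4 := b_sep (j := 0) (by omega)
      rw [a3] at a4
      have a5 : ori (bc 16) (bc 16) (bc 0) = 0 := by
        unfold ori
        ring
      linarith
    · have hk3 : (k : ℕ) - 16 = 15 := by omega
      have ek : k = 31 := Fin.ext (by change (k : ℕ) = 31; omega)
      refine over_right hpk hpj hV hW fun i hi => ?_
      rw [zW' i hi]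
      refine ⟨2, 2, rfl, ?_, ?_⟩
      · rw [bV_hi k hk, hk3, val_3, e1, bc_17, neg_neg]
      · rw [ej, ek]
        exact lab_a
  · have hj3 : (j : ℕ) = 15 := by omega
    have ej : j = 15 := Fin.ext hj3
    have e1 : bV j 1 = bc 16 := by
      rw [bV_lo j hj, hj3, val_2]
    have e2 : bV j 2 = bc 17 := by
      rw [bV_lo j hj, hj3, val_3]
    by_cases hk2 : (k : ℕ) = 30
    · have hk3 : (k : ℕ) - 16 = 14 := by omega
      have ek : k = 30 := Fin.ext hk2
      refine over_left hpk hpj hV hW fun i hi => ?_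
      have h3 : i = 2 := by
        rcases zV i hi with h | h | h
        · omega
        · exact h.1
        · exact h.1
      rw [h3]
      refine ⟨2, 2, ?_, rfl, ?_⟩
      · rw [bV_hi k hk, hk3, val_1, e2, bc_17]
      · rw [ej, ek]
        exact lab_b
    · have hk3 : (k : ℕ) - 16 = 15 := by omega
      have ek : k = 31 := Fin.ext (by change (k : ℕ) = 31; omega)
      refine over_right hpk hpj hV hW fun i hi => ?_
      have h3 : i = 1 ∨ i = 2 := by
        rcases zW i hi with h | h | h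
        · exact Or.inl h.1
        · exact Or.inr h.1
        · exact Or.inr h.1
      rcases h3 with h3 | h3
      · rw [h3]
        refine ⟨1, 2, rfl, ?_, ?_⟩
        · rw [bV_hi k hk, hk3, val_3, e1, bc_17, neg_neg]
        · rw [ej, ek]
          exact lab_c
      · rw [h3]
        refine ⟨2, 1, rfl, ?_, ?_⟩
        · rw [bV_hi k hk, hk3, val_2, e2, bc_17]
        · rw [ej, ek]
          exact lab_d

theorem over_C (j k : Fin 32) (hjk : (j : ℕ) < k) (hj : ¬ (j : ℕ) < 16) (p : E2)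
    (hpj : p ∈ tri (bV j)) (hpk : p ∈ tri (bV k)) : p ∈ convexHull ℝ (CS j k) := by
  have hk : ¬ (k : ℕ) < 16 := by omega
  have hj' : (j : ℕ) - 16 < 16 := by omega
  have hk' : (k : ℕ) - 16 < 16 := by omega
  have hjk' : (j : ℕ) - 16 < (k : ℕ) - 16 := by omega
  have hV : ∀ i, ori (-bc 0) (-bc ((j : ℕ) - 16 + 2)) (bV j i) ≤ 0 := by
    intro i
    rw [bV_hi j hj, ori_neg]
    exact (fan_left hj' i).1
  have hW : ∀ i, 0 ≤ ori (-bc 0) (-bc ((j : ℕ) - 16 + 2)) (bV k i) := by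
    intro i
    rw [bV_hi k hk, ori_neg]
    exact (fan_right hjk' hk' i).1
  have m0 : bV j 0 ∈ CS j k := by
    refine ⟨0, 0, rfl, ?_, ?_⟩
    · rw [bV_hi j hj, bV_hi k hk, cV_zero]
    · rw [lab0' j hj, lab0' k hk]
  have m0' : bV k 0 ∈ CS j k := by
    refine ⟨0, 0, ?_, rfl, ?_⟩
    · rw [bV_hi j hj, bV_hi k hk, cV_zero]
    · rw [lab0' j hj, lab0' k hk]
  by_cases h1 : (k : ℕ) = j + 1
  · refine over_left hpj hpk hV hW fun i hi => ?_
    rw [bV_hi j hj, ori_neg] at hi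
    rcases (fan_left hj' i).2 hi with h2 | h2
    · rw [h2]
      exact m0
    · rw [h2]
      refine ⟨2, 1, rfl, ?_, lab1 j k (by omega) h1⟩
      have e : (k : ℕ) - 16 = (j : ℕ) - 16 + 1 := by omega
      rw [bV_hi j hj, bV_hi k hk, e, cV_step]
  · refine over_right hpj hpk hV hW fun i hi => ?_
    rw [bV_hi k hk, ori_neg] at hi
    rcases (fan_right hjk' hk' i).2 hi with h2 | h2
    · rw [h2]
      exact m0'
    · omega

theorem over_lt (j k : Fin 32) (h : j < k) (p : E2) (hpj : p ∈ tri (bV j)) (hpk : p ∈ tri (bV k)) :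
    p ∈ convexHull ℝ (CS j k) := by
  have hjk : (j : ℕ) < k := h
  by_cases hk : (k : ℕ) < 16
  · exact over_A j k hjk hk p hpj hpk
  · by_cases hj : (j : ℕ) < 16
    · exact over_B j k hj hk p hpj hpk
    · exact over_C j k hjk hj p hpj hpk

end BTAux

open BTAux

theorem bV_indep (k : Fin 32) : AffineIndependent ℝ (bV k) := by
  apply indep_of_ori
  by_cases hk : (k : ℕ) < 16
  · rw [bV_lo k hk]
    exact b_fan (j := (k : ℕ) + 1) (k := (k : ℕ) + 2) (by omega) (by omega) (by omega)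
  · rw [bV_hi k hk, bV_hi k hk, bV_hi k hk, ori_neg]
    exact b_fan (j := (k : ℕ) - 16 + 1) (k := (k : ℕ) - 16 + 2) (by omega) (by omega) (by omega)

theorem bV_disj (j k : Fin 32) (h : j ≠ k) : Disjoint (interior (tri (bV j))) (interior (tri (bV k))) := by
  rcases lt_or_gt_of_ne h with h1 | h1
  · obtain ⟨P, Q, h0, ⟨hV, hW⟩ | ⟨hV, hW⟩⟩ := sep_cases j k h1
    · exact ori_disj h0 hV hW
    · exact (ori_disj h0 hV hW).symm
  · obtain ⟨P, Q, h0, ⟨hV, hW⟩ | ⟨hV, hW⟩⟩ := sep_cases k j h1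
    · exact (ori_disj h0 hV hW).symm
    · exact ori_disj h0 hV hW

theorem bV_over (j k : Fin 32) (p : E2) (hj : p ∈ tri (bV j)) (hk : p ∈ tri (bV k)) :
    p ∈ convexHull ℝ {q | ∃ i i', bV j i = q ∧ bV k i' = q ∧ blab j i = blab k i'} := by
  change p ∈ convexHull ℝ (CS j k)
  rcases lt_trichotomy j k with h | h | h
  · exact over_lt j k h p hj hk
  · subst h
    refine convexHull_mono ?_ hj
    rintro _ ⟨i, rfl⟩
    exact ⟨i, i, rfl, rfl, rfl⟩
  · rw [CS_comm]
    exact over_lt k j h p hk hj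

end Pool.Agent.Lib.FOLD
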