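import Pool.Agent.Lib.FOLD.BK

/-!
# FOLD.BU: the development is isometric (1.2 h)
Polygon with 34 vertices, definitions in FOLD.BD (read the comment there), finite checks in FOLD.BK (you may add further checks by `decide +kernel`: never by `native_decide`).
PROOF. `0 < br j` (`1 ≤ j ≤ 17`) and `0 < bq j` (`1 ≤ j ≤ 16`) by `decide +kernel` over `Fin`. With `z = (g + i s)/r`, `|z|² = (g² + s²)/r² = br (j+1)/br j`, so by induction `|bu j|² = br j` (`br 17 = br 1`), `⟨bu j, bu (j+1)⟩ = g |bu j|²/r = g` and the determinant is `s`. `b_iso`: `bV (k + 16) i = - bV k i` for `k < 16`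
(`bc 17 = - bc 16` by definition of `b0`), `bV k = (bc 0, bc (k+1), bc (k+2))` for `k < 16` (`k = 15`: `bb 33 = - bc 16 = bc 17`); `dist (bc 0) (bc j) ^ 2 = br j`, `dist (bc j) (bc (j+1)) ^ 2 = br j + br (j+1) - 2 bg j`; on the other side `dist (toE3 a) (toE3 b) ^ 2 = dotI (subI a b) (subI a b)`; the equality of the
integers by `decide +kernel` (for the faces `k ≥ 16` compare with the face `k - 16`: also a finite check of integers).
-/

set_option autoImplicit false

open MeasureTheory Set Filter Topology Metric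
open scoped MeasureTheory ENNReal

namespace Pool.Agent.Lib.FOLD

namespace BUAux

theorem brpos : ∀ j : Fin 18, 0 < j → 0 < br j := by decide +kernel

theorem bqpos : ∀ j : Fin 17, 0 < j → 0 < bq j := by decide +kernel

/-- integer squared distances of the vertices of the faces -/
def dI (k : Fin 32) (i j : Fin 3) : ℤ :=
  dotI (subI (bp (blab k i)) (bp (blab k j))) (subI (bp (blab k i)) (bp (blab k j)))

/-- the values for the face `k < 16` -/
def eI (k : ℕ) (i j : Fin 3) : ℤ :=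
  if i = j then 0
  else if (i = 0 ∧ j = 1) ∨ (i = 1 ∧ j = 0) then br (k + 1)
  else if (i = 0 ∧ j = 2) ∨ (i = 2 ∧ j = 0) then br (k + 2)
  else br (k + 1) + br (k + 2) - 2 * bg (k + 1)

theorem dI_eq : ∀ k : Fin 16, ∀ i j : Fin 3, dI (Fin.castLE (by norm_num) k) i j = eI k i j := by
  decide +kernel

theorem dI_eq2 : ∀ k : Fin 16, ∀ i j : Fin 3,
    dI (Fin.ofNat 32 ((k : ℕ) + 16)) i j = dI (Fin.castLE (by norm_num) k) i j := by
  decide +kernel

theorem r_pos {j : ℕ} (h1 : 1 ≤ j) (h2 : j ≤ 17) : (0 : ℝ) < br j := by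
  have := brpos ⟨j, by omega⟩ (by
    rw [Fin.lt_def]
    exact h1)
  exact_mod_cast this

theorem s_sq {j : ℕ} (h1 : 1 ≤ j) (h2 : j ≤ 16) :
    bs j ^ 2 = (br j : ℝ) * br (j + 1) - (bg j : ℝ) ^ 2 := by
  have h := bqpos ⟨j, by omega⟩ (by
    rw [Fin.lt_def]
    exact h1)
  have h' : (0 : ℝ) ≤ bq j := by
    have : (0 : ℝ) < bq j := by exact_mod_cast h
    exact this.le
  unfold bs
  rw [Real.sq_sqrt h']
  unfold bq
  push_cast
  ring

end BUAux

open BUAux

theorem bu_len {j : ℕ} (h1 : 1 ≤ j) (h2 : j ≤ 17) : (bu j).1 ^ 2 + (bu j).2 ^ 2 = (br j : ℝ) := by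
  induction j, h1 using Nat.le_induction with
  | base =>
    have h := r_pos (j := 1) (by norm_num) (by norm_num)
    simp only [bu]
    rw [Real.sq_sqrt h.le]
    ring
  | succ j hj ih =>
    obtain ⟨m, rfl⟩ : ∃ m, j = m + 1 := ⟨j - 1, by omega⟩
    have h := ih (by omega)
    have hr := r_pos (j := m + 1) (by omega) (by omega)
    have hs := s_sq (j := m + 1) (by omega) (by omega)
    have e1 : (bu (m + 1 + 1)).1 = (bg (m + 1) * (bu (m + 1)).1 - bs (m + 1) * (bu (m + 1)).2) /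
      br (m + 1) := rfl
    have e2 : (bu (m + 1 + 1)).2 = (bg (m + 1) * (bu (m + 1)).2 + bs (m + 1) * (bu (m + 1)).1) /
      br (m + 1) := rfl
    rw [e1, e2]
    generalize (bu (m + 1)).1 = a at *
    generalize (bu (m + 1)).2 = b at *
    generalize (bg (m + 1) : ℝ) = g at *
    generalize bs (m + 1) = t at *
    have e3 : ((g * a - t * b) / br (m + 1)) ^ 2 + ((g * b + t * a) / br (m + 1)) ^ 2 =
        (g ^ 2 + t ^ 2) * (a ^ 2 + b ^ 2) / (br (m + 1) : ℝ) ^ 2 := by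
      field_simp
      ring
    rw [e3, h, hs]
    field_simp
    ring

theorem bu_inner {j : ℕ} (h1 : 1 ≤ j) (h2 : j ≤ 16) :
    (bu j).1 * (bu (j + 1)).1 + (bu j).2 * (bu (j + 1)).2 = (bg j : ℝ) := by
  obtain ⟨m, rfl⟩ : ∃ m, j = m + 1 := ⟨j - 1, by omega⟩
  have h := bu_len (j := m + 1) (by omega) (by omega)
  have hr := r_pos (j := m + 1) (by omega) (by omega)
  have e1 : (bu (m + 1 + 1)).1 = (bg (m + 1) * (bu (m + 1)).1 - bs (m + 1) * (bu (m + 1)).2) /
    br (m + 1) := rfl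
  have e2 : (bu (m + 1 + 1)).2 = (bg (m + 1) * (bu (m + 1)).2 + bs (m + 1) * (bu (m + 1)).1) /
    br (m + 1) := rfl
  rw [e1, e2]
  generalize (bu (m + 1)).1 = a at *
  generalize (bu (m + 1)).2 = b at *
  generalize (bg (m + 1) : ℝ) = g at *
  generalize bs (m + 1) = t at *
  have e3 : a * ((g * a - t * b) / br (m + 1)) + b * ((g * b + t * a) / br (m + 1)) =
      g * (a ^ 2 + b ^ 2) / (br (m + 1) : ℝ) := by
    field_simp
    ring
  rw [e3, h]
  field_simp

theorem bu_cross {j : ℕ} (h1 : 1 ≤ j) (h2 : j ≤ 16) :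
    (bu j).1 * (bu (j + 1)).2 - (bu j).2 * (bu (j + 1)).1 = bs j := by
  obtain ⟨m, rfl⟩ : ∃ m, j = m + 1 := ⟨j - 1, by omega⟩
  have h := bu_len (j := m + 1) (by omega) (by omega)
  have hr := r_pos (j := m + 1) (by omega) (by omega)
  have e1 : (bu (m + 1 + 1)).1 = (bg (m + 1) * (bu (m + 1)).1 - bs (m + 1) * (bu (m + 1)).2) /
    br (m + 1) := rfl
  have e2 : (bu (m + 1 + 1)).2 = (bg (m + 1) * (bu (m + 1)).2 + bs (m + 1) * (bu (m + 1)).1) /
    br (m + 1) := rfl
  rw [e1, e2]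
  generalize (bu (m + 1)).1 = a at *
  generalize (bu (m + 1)).2 = b at *
  generalize (bg (m + 1) : ℝ) = g at *
  generalize bs (m + 1) = t at *
  have e3 : a * ((g * b + t * a) / br (m + 1)) - b * ((g * a - t * b) / br (m + 1)) =
      t * (a ^ 2 + b ^ 2) / (br (m + 1) : ℝ) := by
    field_simp
    ring
  rw [e3, h]
  field_simp

theorem bc_17 : bc 17 = -bc 16 := by
  ext i
  fin_cases i
  · change b0.1 + (bu 17).1 = -(b0.1 + (bu 16).1)
    simp only [b0]
    ring
  · change b0.2 + (bu 17).2 = -(b0.2 + (bu 16).2)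
    simp only [b0]
    ring

theorem bb_neg (i : ℕ) : bb (i + 17) = -bb i := by
  unfold bb
  by_cases h : i % 34 < 17
  · have h1 : (i + 17) % 34 = i % 34 + 17 := by omega
    rw [if_pos h, h1, if_neg (by omega)]
    congr 2
  · have h1 : (i + 17) % 34 = i % 34 - 17 := by omega
    rw [if_neg h, h1, if_pos (by omega), neg_neg]

theorem bV_fan (k : Fin 32) (hk : (k : ℕ) < 16) : bV k = ![bc 0, bc (k + 1), bc (k + 2)] := by
  have hb : ∀ j : ℕ, j < 17 → bb j = bc j := by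
    intro j hj
    unfold bb
    rw [Nat.mod_eq_of_lt (by omega), if_pos hj]
  funext i
  unfold bV bi
  by_cases h : (k : ℕ) < 15
  · rw [if_pos h]
    fin_cases i
    · exact hb 0 (by norm_num)
    · exact hb (k + 1) (by omega)
    · exact hb (k + 2) (by omega)
  · have h15 : (k : ℕ) = 15 := by omega
    rw [if_neg h, if_pos h15, h15]
    fin_cases i
    · exact hb 0 (by norm_num)
    · exact hb 16 (by norm_num)
    · change bb 33 = bc 17
      rw [bc_17, ← hb 16 (by norm_num)]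
      exact bb_neg 16

theorem bV_neg (k k' : Fin 32) (hk : (k' : ℕ) = k + 16) (i : Fin 3) : bV k' i = -bV k i := by
  have hk' := k'.isLt
  unfold bV bi
  by_cases h : (k : ℕ) < 15
  · rw [if_neg (by omega), if_neg (by omega), if_pos (by omega), if_pos h]
    fin_cases i
    · exact bb_neg 0
    · change bb ((k' : ℕ) + 2) = -bb ((k : ℕ) + 1)
      rw [← bb_neg, hk]
    · change bb ((k' : ℕ) + 3) = -bb ((k : ℕ) + 2)
      rw [← bb_neg, hk]
  · have h15 : (k : ℕ) = 15 := by omega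
    rw [if_neg (by omega), if_neg (by omega), if_neg (by omega), if_neg h, if_pos h15]
    fin_cases i
    · exact bb_neg 0
    · exact bb_neg 16
    · change bb 16 = -bb 33
      rw [show (33 : ℕ) = 16 + 17 from rfl, bb_neg, neg_neg]

theorem dist_toE3 (a b : ℤ × ℤ × ℤ) : dist (toE3 a) (toE3 b) ^ 2 = ((dotI (subI a b) (subI a b) : ℤ) : ℝ) := by
  rw [EuclideanSpace.dist_eq, Real.sq_sqrt (by positivity), Fin.sum_univ_three]
  simp only [Real.dist_eq, sq_abs]
  change ((a.1 : ℝ) - b.1) ^ 2 + ((a.2.1 : ℝ) - b.2.1) ^ 2 + ((a.2.2 : ℝ) - b.2.2) ^ 2 = _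
  unfold dotI subI
  push_cast
  ring

namespace BUAux

theorem d2 (a b : E2) : dist a b ^ 2 = (a 0 - b 0) ^ 2 + (a 1 - b 1) ^ 2 := by
  rw [EuclideanSpace.dist_eq, Real.sq_sqrt (by positivity), Fin.sum_univ_two]
  simp only [Real.dist_eq, sq_abs]

theorem bu0 : bu 0 = (0, 0) := rfl

theorem d0 {j : ℕ} (h1 : 1 ≤ j) (h2 : j ≤ 17) : dist (bc 0) (bc j) ^ 2 = (br j : ℝ) := by
  rw [d2, ← bu_len h1 h2]
  change (b0.1 + (bu 0).1 - (b0.1 + (bu j).1)) ^ 2 + (b0.2 + (bu 0).2 - (b0.2 + (bu j).2)) ^ 2 = _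
  rw [bu0]
  ring

theorem d1 {j : ℕ} (h1 : 1 ≤ j) (h2 : j ≤ 16) :
    dist (bc j) (bc (j + 1)) ^ 2 = (br j : ℝ) + br (j + 1) - 2 * bg j := by
  rw [d2, ← bu_len h1 (by omega), ← bu_len (j := j + 1) (by omega) (by omega),
    ← bu_inner h1 h2]
  change (b0.1 + (bu j).1 - (b0.1 + (bu (j + 1)).1)) ^ 2 +
    (b0.2 + (bu j).2 - (b0.2 + (bu (j + 1)).2)) ^ 2 = _
  ring

theorem iso_sq (k : Fin 32) (hk : (k : ℕ) < 16) (i j : Fin 3) :
    dist (bV k i) (bV k j) ^ 2 = ((eI k i j : ℤ) : ℝ) := by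
  rw [bV_fan k hk]
  have a1 := d0 (j := (k : ℕ) + 1) (by omega) (by omega)
  have a2 := d0 (j := (k : ℕ) + 2) (by omega) (by omega)
  have a3 := d1 (j := (k : ℕ) + 1) (by omega) (by omega)
  have b1 : dist (bc ((k : ℕ) + 1)) (bc 0) ^ 2 = (br (k + 1) : ℝ) := by rw [dist_comm]; exact a1
  have b2 : dist (bc ((k : ℕ) + 2)) (bc 0) ^ 2 = (br (k + 2) : ℝ) := by rw [dist_comm]; exact a2
  have b3 : dist (bc ((k : ℕ) + 2)) (bc (k + 1)) ^ 2 =
      (br (k + 1) : ℝ) + br (k + 2) - 2 * bg (k + 1) := by rw [dist_comm]; exact a3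
  have hz : ∀ a : E2, dist a a ^ 2 = ((0 : ℤ) : ℝ) := by intro a; rw [dist_self]; simp
  fin_cases i <;> fin_cases j
  · exact hz _
  · exact a1
  · exact a2
  · exact b1
  · exact hz _
  · change dist (bc ((k : ℕ) + 1)) (bc (k + 2)) ^ 2 =
      ((br (k + 1) + br (k + 2) - 2 * bg (k + 1) : ℤ) : ℝ)
    push_cast
    exact a3
  · exact b2
  · change dist (bc ((k : ℕ) + 2)) (bc (k + 1)) ^ 2 =
      ((br (k + 1) + br (k + 2) - 2 * bg (k + 1) : ℤ) : ℝ)
    push_cast
    exact b3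
  · exact hz _

end BUAux

theorem b_iso (k : Fin 32) (i j : Fin 3) : dist (bV k i) (bV k j) = dist (bw (blab k i)) (bw (blab k j)) := by
  have key : dist (bV k i) (bV k j) ^ 2 = dist (bw (blab k i)) (bw (blab k j)) ^ 2 := by
    have e : dist (bw (blab k i)) (bw (blab k j)) ^ 2 = ((dI k i j : ℤ) : ℝ) := dist_toE3 _ _
    rw [e]
    by_cases hk : (k : ℕ) < 16
    · rw [iso_sq k hk]
      have h := dI_eq ⟨k, hk⟩ i j
      have h2 : Fin.castLE (by norm_num) (⟨k, hk⟩ : Fin 16) = k := rfl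
      rw [h2] at h
      rw [h]
    · obtain ⟨m, hm⟩ : ∃ m : Fin 16, (m : ℕ) + 16 = k := ⟨⟨k - 16, by omega⟩, by
        change (k : ℕ) - 16 + 16 = k
        omega⟩
      have hk2 : Fin.ofNat 32 ((m : ℕ) + 16) = k := by
        rw [hm]
        exact Fin.ofNat_val_eq_self k
      have h := dI_eq2 m i j
      rw [hk2] at h
      have hn : ∀ i, bV k i = -bV (Fin.castLE (by norm_num) m) i :=
        fun i => bV_neg (Fin.castLE (by norm_num) m) k hm.symm i
      rw [h, hn i, hn j, dist_neg_neg, iso_sq _ m.isLt, dI_eq]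
      rfl
  exact (pow_left_inj₀ dist_nonneg dist_nonneg two_ne_zero).1 key

end Pool.Agent.Lib.FOLD
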