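import Pool.Agent.Lib.FOLD.BK
import Pool.Agent.Lib.FOLD.TeV

/-!
# FOLD.BV: volume of the polyhedron with 18 vertices (1.1 h)
Definitions in FOLD.BD, finite checks in FOLD.BK.
PROOF. For `j : Fin 16` let `S_j` be the hull of `x = bw 0`, `y = bw 1`, `E_{j+1} = bw (j+2)`, `E_{j+2} = bw (j+3)` (`bw 2` if `j = 15`). `volume S_j = |det3 (y - x) (E - x) (E' - x)| / 6 = 9578 cr e e' / 6` (`vol_tet` in FOLD.TeV; `cr e e' > 0`: `bk_wind`). `S_j ⊆ convexHull (range bw)`. For `j ≠ k` `S_j ∩ S_k` is a null set: by `bk_cone` there is `v = ± e_l` with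
`cr v ≥ 0` on `e_{j+1}, e_{j+2}` and `≤ 0` on `e_{k+1}, e_{k+2}` and `= 0` on `x`, `y`, so the intersection is in the plane `{z | v 0 z 1 - v 1 z 0 = 0}`, `v ≠ 0`, a null set (`Measure.addHaar_affineSubspace`/`addHaar_submodule`). So the volume of the union is the sum (`measure_biUnion_finset₀` / `measure_iUnion₀`), `bV6/6`.
-/

set_option autoImplicit false

open MeasureTheory Set Filter Topology Metric
open scoped MeasureTheory ENNReal

namespace Pool.Agent.Lib.FOLD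

namespace BVAux

/-- index of the second equatorial vertex -/
def nx (j : Fin 16) : ℕ := if (j : ℕ) = 15 then 2 else j + 3

/-- tetrahedra -/
noncomputable def T (j : Fin 16) : Set E3 :=
  convexHull ℝ (range ![toE3 (bp 0), toE3 (bp 1), toE3 (bp (j + 2)), toE3 (bp (nx j))])

lemma mem_bw (l : ℕ) (h : l < 18) : toE3 (bp l) ∈ range bw := ⟨⟨l, h⟩, rfl⟩

lemma nx_lt (j : Fin 16) : nx j < 18 := by
  revert j
  decide

lemma T_sub (j : Fin 16) : T j ⊆ convexHull ℝ (range bw) := by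
  apply convexHull_mono
  rintro _ ⟨k, rfl⟩
  fin_cases k
  · exact mem_bw 0 (by norm_num)
  · exact mem_bw 1 (by norm_num)
  · exact mem_bw (j + 2) (by omega)
  · exact mem_bw (nx j) (nx_lt j)

lemma T_meas (j : Fin 16) : MeasurableSet (T j) :=
  (Set.Finite.isCompact_convexHull ℝ (Set.finite_range _)).isClosed.measurableSet

/-- half space -/
def hsp (a b : ℝ) : Set E3 := {z | 0 ≤ a * z 1 + b * z 0}

lemma hsp_cvx (a b : ℝ) : Convex ℝ (hsp a b) := by
  rintro x hx y hy s t hs ht hst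
  simp only [hsp, mem_ofPred_eq, PiLp.add_apply, PiLp.smul_apply, smul_eq_mul] at hx hy ⊢
  nlinarith [mul_nonneg hs hx, mul_nonneg ht hy]

lemma null (a b : ℝ) (ha : a ≠ 0) : volume {z : E3 | a * z 1 + b * z 0 = 0} = 0 := by
  let f : E3 →ₗ[ℝ] ℝ :=
    (a • EuclideanSpace.proj 1 + b • EuclideanSpace.proj 0 : E3 →L[ℝ] ℝ).toLinearMap
  have h1 : {z : E3 | a * z 1 + b * z 0 = 0} = (LinearMap.ker f : Set E3) := by
    ext z
    simp [f]
  rw [h1]
  apply Measure.addHaar_submodule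
  intro h2
  have h3 : EuclideanSpace.single (1 : Fin 3) (1 : ℝ) ∈ LinearMap.ker f := by
    rw [h2]; trivial
  simp [f] at h3
  exact ha h3

lemma t0 (a : ℤ × ℤ × ℤ) : toE3 a 0 = a.1 := rfl

lemma t1 (a : ℤ × ℤ × ℤ) : toE3 a 1 = a.2.1 := rfl

lemma t2 (a : ℤ × ℤ × ℤ) : toE3 a 2 = a.2.2 := rfl

lemma T_hsp (j : Fin 16) (a b : ℤ) (h1 : 0 ≤ a * (bp (j + 2)).2.1 + b * (bp (j + 2)).1)
    (h2 : 0 ≤ a * (bp (nx j)).2.1 + b * (bp (nx j)).1) : T j ⊆ hsp a b := by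
  apply convexHull_min _ (hsp_cvx a b)
  rintro _ ⟨k, rfl⟩
  fin_cases k
  · show 0 ≤ (a : ℝ) * toE3 (bp 0) 1 + (b : ℝ) * toE3 (bp 0) 0
    rw [t0, t1]
    simp [bp]
  · show 0 ≤ (a : ℝ) * toE3 (bp 1) 1 + (b : ℝ) * toE3 (bp 1) 0
    rw [t0, t1]
    simp [bp]
  · show 0 ≤ (a : ℝ) * toE3 (bp (j + 2)) 1 + (b : ℝ) * toE3 (bp (j + 2)) 0
    rw [t0, t1]
    exact_mod_cast h1
  · show 0 ≤ (a : ℝ) * toE3 (bp (nx j)) 1 + (b : ℝ) * toE3 (bp (nx j)) 0
    rw [t0, t1]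
    exact_mod_cast h2

/-- the integer determinant of the projections -/
def cr (j : Fin 16) : ℤ := (bp (j + 2)).1 * (bp (nx j)).2.1 - (bp (j + 2)).2.1 * (bp (nx j)).1

lemma cr_pos (j : Fin 16) : 0 < cr j := bk_wind j

lemma vol (j : Fin 16) : volume (T j) = ENNReal.ofReal (9578 * cr j / 6) := by
  rw [T, vol_tet]
  congr 1
  have : det3 (![toE3 (bp 0), toE3 (bp 1), toE3 (bp (j + 2)), toE3 (bp (nx j))] 1 -
        ![toE3 (bp 0), toE3 (bp 1), toE3 (bp (j + 2)), toE3 (bp (nx j))] 0)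
      (![toE3 (bp 0), toE3 (bp 1), toE3 (bp (j + 2)), toE3 (bp (nx j))] 2 -
        ![toE3 (bp 0), toE3 (bp 1), toE3 (bp (j + 2)), toE3 (bp (nx j))] 0)
      (![toE3 (bp 0), toE3 (bp 1), toE3 (bp (j + 2)), toE3 (bp (nx j))] 3 -
        ![toE3 (bp 0), toE3 (bp 1), toE3 (bp (j + 2)), toE3 (bp (nx j))] 0) = -(9578 * cr j) := by
    show det3 (toE3 (bp 1) - toE3 (bp 0)) (toE3 (bp (j + 2)) - toE3 (bp 0))
      (toE3 (bp (nx j)) - toE3 (bp 0)) = _
    simp only [det3, PiLp.sub_apply, t0, t1, t2]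
    have e0 : bp 0 = (0, 0, 4789) := rfl
    have e1 : bp 1 = (0, 0, -4789) := rfl
    rw [e0, e1, cr]
    push_cast
    ring
  rw [this, abs_neg, abs_of_pos]
  have := cr_pos j
  positivity

lemma lead (l : Fin 16) : (bp (l + 2)).1 ≠ 0 := by
  revert l
  decide

lemma aed0 (j k : Fin 16) (a b : ℤ) (ha : a ≠ 0) (hA : T j ⊆ hsp a b)
    (hB : T k ⊆ hsp ((-a : ℤ) : ℝ) ((-b : ℤ) : ℝ)) : AEDisjoint volume (T j) (T k) := by
  apply measure_mono_null _ (null a b (by exact_mod_cast ha))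
  rintro z ⟨h1, h2⟩
  have h3 := hA h1
  have h4 := hB h2
  simp only [hsp, mem_ofPred_eq] at h3 h4 ⊢
  push_cast at h4
  linarith

lemma nx_eq (j : Fin 16) : (if (j : ℕ) + 1 = 16 then 2 else (j : ℕ) + 1 + 2) = nx j := by
  revert j
  decide

lemma ix_eq (j : Fin 16) : (if (j : ℕ) = 16 then 2 else (j : ℕ) + 2) = j + 2 := by
  rw [if_neg (by omega)]

lemma aed (j k : Fin 16) (h : j ≠ k) : AEDisjoint volume (T j) (T k) := by
  obtain ⟨l, s, h1, h2, h3, h4⟩ := bk_cone j k h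
  simp only [nx_eq, ix_eq] at h1 h2 h3 h4
  have hl := lead l
  set c : ℤ := if s = 0 then 1 else -1 with hc
  have hc0 : c ≠ 0 := by
    rw [hc]
    split_ifs <;> norm_num
  apply aed0 j k (c * (bp (l + 2)).1) (-(c * (bp (l + 2)).2.1)) (mul_ne_zero hc0 hl)
  · apply T_hsp <;> linarith
  · apply T_hsp <;> linarith

lemma tot : ∑ j : Fin 16, cr j = 47136934 := by decide +kernel

end BVAux

open BVAux

theorem b_vol : ENNReal.ofReal (451477553852 / 6) ≤ volume (convexHull ℝ (range bw)) := by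
  have h1 : ⋃ j, T j ⊆ convexHull ℝ (range bw) := iUnion_subset T_sub
  refine le_trans (le_of_eq ?_) (measure_mono h1)
  rw [measure_iUnion₀ (fun j k h => aed j k h) (fun j => (T_meas j).nullMeasurableSet), tsum_fintype]
  simp only [vol]
  rw [← ENNReal.ofReal_sum_of_nonneg]
  · congr 1
    have h2 : (∑ j : Fin 16, (cr j : ℝ)) = 47136934 := by exact_mod_cast tot
    rw [← Finset.sum_div, ← Finset.mul_sum, h2]
    norm_num
  · intro j _
    have := cr_pos j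
    positivity

end Pool.Agent.Lib.FOLD
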