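import Pool.Agent.Lib.FOLD.Defs

/-!
# FOLD.Sim: similarity (1.2 h)
PROOF. `φ p = t • p + a`, `ψ z = t • z + b` are homeomorphisms (`Homeomorph.smulOfNeZero`, `Homeomorph.addRight`) and affine, they preserve compactness, convexity, interiors and frontiers. New data: `V' k i = φ (V k i)`,
`f' p = ψ (f (t⁻¹ • (p - a)))`, `A' k` = the affine isometry `p ↦ ψ (A k (t⁻¹ • (p - a)))`: it is affine with linear part `(A k).linear`, an isometry (scaling by `t⁻¹` and `t` cancel). `tri (V' k) = φ '' tri (V k)` (`AffineMap.image_convexHull`,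
`range_comp`). `γ' s = φ (γ (s / t))` on `[0, tL]`: `1`-Lipschitz; `μH[1] (φ '' frontier C) = t μH[1] (frontier C)` (`hausdorffMeasure_smul₀` and translation, an isometry). `Glued (tL) γ' (φ p) (φ q) ↔ Glued L γ p q` (`s ↔ s/t`).
`vol_sim`: `Measure.addHaar_smul` and translation invariance.
-/

set_option autoImplicit false

open MeasureTheory Set Filter Topology Metric
open scoped MeasureTheory ENNReal Pointwise

namespace Pool.Agent.Lib.FOLD

namespace SimAux

section maps
variable {E : Type*} [NormedAddCommGroup E] [InnerProductSpace ℝ E]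

/-- the similarity as a homeomorphism -/
noncomputable def hs {t : ℝ} (ht : t ≠ 0) (b : E) : E ≃ₜ E :=
  (Homeomorph.smulOfNeZero t ht).trans (Homeomorph.addRight b)

theorem hs_apply {t : ℝ} (ht : t ≠ 0) (b : E) (z : E) : hs ht b z = t • z + b := rfl

/-- the similarity as an affine map -/
noncomputable def as (t : ℝ) (b : E) : E →ᵃ[ℝ] E where
  toFun := fun z => t • z + b
  linear := t • LinearMap.id
  map_vadd' := by
    intro p v
    simp only [vadd_eq_add, smul_add, LinearMap.smul_apply, LinearMap.id_coe, id_eq]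
    abel

theorem as_apply (t : ℝ) (b z : E) : as t b z = t • z + b := rfl

theorem inj {t : ℝ} (ht : t ≠ 0) (b : E) : Function.Injective (fun z : E => t • z + b) :=
  (hs ht b).injective

theorem img_interior {t : ℝ} (ht : t ≠ 0) (b : E) (K : Set E) :
    interior ((fun z : E => t • z + b) '' K) = (fun z : E => t • z + b) '' interior K :=
  ((hs ht b).image_interior K).symm

theorem img_frontier {t : ℝ} (ht : t ≠ 0) (b : E) (K : Set E) :
    frontier ((fun z : E => t • z + b) '' K) = (fun z : E => t • z + b) '' frontier K :=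
  ((hs ht b).image_frontier K).symm

theorem img_convex {t : ℝ} (b : E) {K : Set E} (hK : Convex ℝ K) :
    Convex ℝ ((fun z : E => t • z + b) '' K) := hK.affine_image (as t b)

theorem img_compact {t : ℝ} (b : E) {K : Set E} (hK : IsCompact K) :
    IsCompact ((fun z : E => t • z + b) '' K) :=
  hK.image (by fun_prop)

theorem img_tri {t : ℝ} (b : E) (V : Fin 3 → E) :
    tri (fun i => t • V i + b) = (fun z : E => t • z + b) '' tri V := by
  unfold tri
  have h := (as t b).image_convexHull (range V)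
  rw [← range_comp] at h
  exact h.symm

end maps

theorem hm1 {t : ℝ} (ht : 0 < t) (a : E2) (K : Set E2) :
    μH[1] ((fun p : E2 => t • p + a) '' K) = ENNReal.ofReal t * μH[1] K := by
  have h1 : (fun p : E2 => t • p + a) '' K = (IsometryEquiv.addRight a) '' (t • K) := by
    rw [← image_smul, image_image]
    rfl
  rw [h1, IsometryEquiv.hausdorffMeasure_image, Measure.hausdorffMeasure_smul₀ zero_le_one ht.ne']
  rw [ENNReal.smul_def, smul_eq_mul]
  congr 1
  have h2 : ‖t‖₊ ^ (1 : ℝ) = ‖t‖₊ := NNReal.rpow_one _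
  rw [h2]
  rw [ENNReal.ofReal, Real.nnnorm_of_nonneg ht.le]
  congr 1
  exact (Real.toNNReal_of_nonneg ht.le).symm

/-- the new affine isometry -/
noncomputable def A' (A : E2 →ᵃⁱ[ℝ] E3) {t : ℝ} (ht : t ≠ 0) (a : E2) (b : E3) : E2 →ᵃⁱ[ℝ] E3 where
  toFun := fun p => t • A (t⁻¹ • (p - a)) + b
  linear := A.toAffineMap.linear
  map_vadd' := by
    intro p v
    have h1 : t⁻¹ • ((v +ᵥ p) - a) = (t⁻¹ • v) +ᵥ (t⁻¹ • (p - a)) := by
      rw [vadd_eq_add, vadd_eq_add, ← smul_add]
      congr 1
      abel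
    have h2 : A ((t⁻¹ • v) +ᵥ (t⁻¹ • (p - a))) =
        A.toAffineMap.linear (t⁻¹ • v) +ᵥ A (t⁻¹ • (p - a)) :=
      A.toAffineMap.map_vadd' _ _
    change t • A (t⁻¹ • ((v +ᵥ p) - a)) + b = A.toAffineMap.linear v + (t • A (t⁻¹ • (p - a)) + b)
    rw [h1, h2, vadd_eq_add, smul_add, map_smul, smul_smul, mul_inv_cancel₀ ht, one_smul]
    abel
  norm_map := A.norm_map

theorem A'_apply (A : E2 →ᵃⁱ[ℝ] E3) {t : ℝ} (ht : t ≠ 0) (a : E2) (b : E3) (p : E2) :
    A' A ht a b (t • p + a) = t • A p + b := by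
  change t • A (t⁻¹ • (t • p + a - a)) + b = _
  rw [add_sub_cancel_right, smul_smul, inv_mul_cancel₀ ht, one_smul]

theorem region {C : Set E2} (h : Region C) {t : ℝ} (ht : 0 < t) (a : E2) :
    Region ((fun p => t • p + a) '' C) :=
  ⟨img_compact a h.cpt, img_convex a h.cvx, by
    rw [img_interior ht.ne']
    exact h.int.image _⟩

theorem arc {C : Set E2} {L : ℝ} {γ : ℝ → E2} (h : ArcParam C L γ) {t : ℝ} (ht : 0 < t) (a : E2) :
    ArcParam ((fun p => t • p + a) '' C) (t * L) (fun s => t • γ (s / t) + a) := by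
  have hmap : (fun s => s / t) '' Icc 0 (t * L) = Icc 0 L := by
    ext s
    constructor
    · rintro ⟨u, ⟨hu1, hu2⟩, rfl⟩
      refine ⟨div_nonneg hu1 ht.le, ?_⟩
      rw [div_le_iff₀ ht]
      linarith
    · rintro ⟨h1, h2⟩
      refine ⟨t * s, ⟨mul_nonneg ht.le h1, mul_le_mul_of_nonneg_left h2 ht.le⟩, ?_⟩
      field_simp
  have hmem : ∀ s ∈ Icc 0 (t * L), s / t ∈ Icc 0 L := by
    intro s hs
    rw [← hmap]
    exact ⟨s, hs, rfl⟩
  refine ⟨mul_pos ht h.pos, ?_, ?_, ?_, ?_⟩
  · apply LipschitzOnWith.of_dist_le_mul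
    intro s hs s' hs'
    have h1 := h.lip.dist_le_mul _ (hmem s hs) _ (hmem s' hs')
    rw [NNReal.coe_one, one_mul] at h1 ⊢
    rw [dist_add_right, dist_smul₀, Real.norm_of_nonneg ht.le]
    have h2 : dist (s / t) (s' / t) = dist s s' / t := by
      rw [Real.dist_eq, Real.dist_eq, ← sub_div, abs_div, abs_of_pos ht]
    rw [h2] at h1
    calc t * dist (γ (s / t)) (γ (s' / t)) ≤ t * (dist s s' / t) :=
          mul_le_mul_of_nonneg_left h1 ht.le
      _ = dist s s' := by field_simp
  · change t • γ (t * L / t) + a = t • γ (0 / t) + a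
    rw [zero_div, mul_div_cancel_left₀ _ ht.ne', h.closed]
  · rw [img_frontier ht.ne', ← h.onto, ← hmap, image_image, image_image]
  · rw [img_frontier ht.ne', hm1 ht, h.len, ENNReal.ofReal_mul ht.le]

theorem glued {L : ℝ} {γ : ℝ → E2} {t : ℝ} (ht : 0 < t) (a p q : E2) :
    Glued (t * L) (fun s => t • γ (s / t) + a) (t • p + a) (t • q + a) ↔ Glued L γ p q := by
  unfold Glued
  constructor
  · rintro ⟨s, ⟨h1, h2⟩, h3, h4⟩
    refine ⟨s / t, ⟨div_nonneg h1 ht.le, ?_⟩, inj ht.ne' a h3, ?_⟩
    · rw [div_le_iff₀ ht]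
      linarith
    · have h5 : q = γ ((t * L - s) / t) := inj ht.ne' a h4
      rw [h5]
      congr 1
      field_simp
  · rintro ⟨s, ⟨h1, h2⟩, rfl, rfl⟩
    refine ⟨t * s, ⟨mul_nonneg ht.le h1, mul_le_mul_of_nonneg_left h2 ht.le⟩, ?_, ?_⟩
    · change t • γ s + a = t • γ (t * s / t) + a
      rw [mul_div_cancel_left₀ _ ht.ne']
    · change t • γ (L - s) + a = t • γ ((t * L - t * s) / t) + a
      rw [← mul_sub, mul_div_cancel_left₀ _ ht.ne']

end SimAux

open SimAux in
theorem plf_sim {C : Set E2} {L : ℝ} {γ : ℝ → E2} {Q : Set E3} (hF : PLFolding C L γ Q) {t : ℝ}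
    (ht : 0 < t) (a : E2) (b : E3) :
    PLFolding ((fun p => t • p + a) '' C) (t * L) (fun s => t • γ (s / t) + a)
      ((fun z => t • z + b) '' Q) := by
  obtain ⟨F⟩ := hF
  have ht' := ht.ne'
  have hf : ∀ p : E2, t • F.f (t⁻¹ • (t • p + a - a)) + b = t • F.f p + b := by
    intro p
    rw [add_sub_cancel_right, smul_smul, inv_mul_cancel₀ ht', one_smul]
  have himg : ∀ K : Set E2, (fun p => t • F.f (t⁻¹ • (p - a)) + b) '' ((fun p => t • p + a) '' K) =
      (fun z => t • z + b) '' (F.f '' K) := by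
    intro K
    rw [image_image, image_image]
    congr 1
    funext p
    exact hf p
  refine ⟨{ n := F.n
            V := fun k i => t • F.V k i + a
            A := fun k => A' (F.A k) ht' a b
            f := fun p => t • F.f (t⁻¹ • (p - a)) + b
            region := region F.region ht a
            arc := arc F.arc ht a
            inj := ?_
            cpt := img_compact b F.cpt
            cvx := img_convex b F.cvx
            int := ?_
            indep := ?_
            cover := ?_
            disj := ?_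
            rigid := ?_
            onto := ?_
            glue := ?_
            edge := ?_ }⟩
  · intro s hs s' hs' h
    have h1 : γ (s / t) = γ (s' / t) := SimAux.inj ht' a h
    have hm : ∀ u ∈ Ico 0 (t * L), u / t ∈ Ico 0 L := by
      intro u hu
      refine ⟨div_nonneg hu.1 ht.le, ?_⟩
      rw [div_lt_iff₀ ht]
      linarith [hu.2]
    have h2 := F.inj (hm s hs) (hm s' hs') h1
    field_simp at h2
    exact h2
  · rw [img_interior ht']
    exact F.int.image _
  · intro k
    exact (F.indep k).map' (as t a) (SimAux.inj ht' a)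
  · have h1 : (⋃ k, tri (fun i => t • F.V k i + a)) =
        ⋃ k, (fun p => t • p + a) '' tri (F.V k) := iUnion_congr fun k => img_tri a (F.V k)
    have h2 := congrArg (fun K : Set E2 => (fun p => t • p + a) '' K) F.cover
    simp only [image_iUnion] at h2
    exact h1.trans h2
  · intro j k hjk
    rw [img_tri a (F.V j), img_tri a (F.V k), img_interior ht', img_interior ht']
    exact (disjoint_image_iff (SimAux.inj ht' a)).2 (F.disj j k hjk)
  · intro k p hp
    rw [img_tri a (F.V k)] at hp
    obtain ⟨q, hq, rfl⟩ := hp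
    change t • F.f (t⁻¹ • (t • q + a - a)) + b = A' (F.A k) ht' a b (t • q + a)
    rw [hf, A'_apply, F.rigid k q hq]
  · rw [himg, F.onto, img_frontier ht']
  · rintro _ ⟨p, hp, rfl⟩ _ ⟨q, hq, rfl⟩
    change t • F.f (t⁻¹ • (t • p + a - a)) + b = t • F.f (t⁻¹ • (t • q + a - a)) + b ↔
      t • p + a = t • q + a ∨ Glued (t * L) (fun s => t • γ (s / t) + a) (t • p + a) (t • q + a)
    rw [hf, hf, glued ht, (SimAux.inj ht' b).eq_iff' rfl]
    rw [F.glue p hp q hq]
    refine or_congr ?_ Iff.rfl
    exact ((SimAux.inj ht' a).eq_iff (a := p) (b := q)).symm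
  · intro k i j h
    rw [img_tri a (F.V j), himg] at h
    obtain ⟨z, hz, hz2⟩ := h
    have h1 : z = F.f (F.V k i) := by
      apply SimAux.inj ht' b
      change t • z + b = t • F.f (F.V k i) + b
      rw [← hf (F.V k i)]
      exact hz2
    rw [h1] at hz
    obtain ⟨i', hi'⟩ := F.edge k i j hz
    refine ⟨i', ?_⟩
    change t • F.f (t⁻¹ • (t • F.V j i' + a - a)) + b = t • F.f (t⁻¹ • (t • F.V k i + a - a)) + b
    rw [hf, hf, hi']

theorem vol_sim {E : Type*} [NormedAddCommGroup E] [InnerProductSpace ℝ E] [FiniteDimensional ℝ E]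
    [MeasurableSpace E] [BorelSpace E] {t : ℝ} (ht : 0 < t) (b : E) (K : Set E) :
    volume ((fun z => t • z + b) '' K) =
      ENNReal.ofReal (t ^ Module.finrank ℝ E) * volume K := by
  have h1 : (fun z : E => t • z + b) '' K = (fun z => z + b) '' (t • K) := by
    rw [← image_smul, image_image]
  rw [h1, image_add_right, measure_preimage_add_right, Measure.addHaar_smul,
    abs_of_pos (pow_pos ht _)]

theorem diam_sim {E : Type*} [NormedAddCommGroup E] [InnerProductSpace ℝ E] {t : ℝ} (ht : 0 < t) (b : E)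
    (K : Set E) : diam ((fun z => t • z + b) '' K) = t * diam K := by
  have h1 : (fun z : E => t • z + b) '' K = (IsometryEquiv.addRight b) '' (t • K) := by
    rw [← image_smul, image_image]
    rfl
  rw [h1, IsometryEquiv.diam_image, diam_smul₀, Real.norm_of_nonneg ht.le]

end Pool.Agent.Lib.FOLD
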