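import Pool.Agent.Lib.FOLD.GL3
import Pool.Agent.Lib.FOLD.BA
import Pool.Agent.Lib.FOLD.BG
import Pool.Agent.Lib.FOLD.BQ
import Pool.Agent.Lib.FOLD.BV
import Pool.Agent.Lib.FOLD.Sim

/-!
# FOLD.BZ: the folding of the polygon with 34 vertices (0.8 h)
PROOF. `bA_le`: `bs j = √(bq j) ≤` the integer above it (`Real.sqrt_le_left`/`Real.sqrt_le_iff`, python for the 16 integers; the sum of the 16 roots is `99995591.47…`). `big_fold`: `poly_fold` with the data of BA, BT, BQ, BG, BU (`bk_three`), then `plf_sim` with `t = 1/√bA` (`volume C = t² bA = 1`, `vol_sim`), the volume is at least `t³ · 451477553852 / 6`; it is at least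
`2 / (15 √π)` because `(451477553852/6)² · 225 · π ≥ 4 · 99995600³ ≥ 4 bA³` (`Real.pi_gt_d4`/`pi_gt_d6`; the quotient of both sides is `1.0006…`) (`bA > 0`). As in FOLD.HZ.
-/

set_option autoImplicit false

open MeasureTheory Set Filter Topology Metric
open scoped MeasureTheory ENNReal

namespace Pool.Agent.Lib.FOLD

namespace BZAux

/-- upper bounds for the `10 * bs j` -/
def cu (j : ℕ) : ℤ :=
  ([0, 84871136, 63266706, 52890411, 47021761, 43039528, 40316951, 38468816, 37352174, 36727462, 36677751,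
    36643546, 37805071, 40861676, 47999043, 64264301, 291749591] : List ℤ).getD j 0

theorem cu_spec : ∀ j ∈ Finset.Icc 1 16, 0 ≤ cu j ∧ 0 < bq j ∧ 100 * bq j ≤ cu j ^ 2 := by
  decide +kernel

theorem cu_sum : ∑ j ∈ Finset.Icc 1 16, cu j ≤ 999956000 := by
  decide +kernel

theorem bs_pos {j : ℕ} (hj : j ∈ Finset.Icc 1 16) : 0 < bs j := by
  unfold bs
  exact Real.sqrt_pos.2 (by exact_mod_cast (cu_spec j hj).2.1)

theorem bs_le {j : ℕ} (hj : j ∈ Finset.Icc 1 16) : bs j ≤ (cu j : ℝ) / 10 := by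
  obtain ⟨h0, -, h2⟩ := cu_spec j hj
  have h0' : (0 : ℝ) ≤ (cu j : ℝ) := by exact_mod_cast h0
  have h2' : (100 : ℝ) * (bq j : ℝ) ≤ (cu j : ℝ) ^ 2 := by exact_mod_cast h2
  unfold bs
  rw [Real.sqrt_le_left (by positivity)]
  rw [div_pow]
  linarith

theorem key {a s V : ℝ} (ha : 0 < a) (hs : 0 < s) (hV : 0 < V)
    (h : 4 * (a ^ 2) ^ 3 ≤ 225 * s ^ 2 * V ^ 2) : 2 / (15 * s) ≤ (1 / a) ^ 3 * V := by
  have h1 : 2 * a ^ 3 ≤ 15 * s * V := by
    apply le_of_sq_le_sq _ (by positivity)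
    nlinarith [h]
  rw [div_pow, one_pow, div_mul_eq_mul_div, one_mul, div_le_div_iff₀ (by positivity) (by positivity)]
  linarith

end BZAux

open BZAux

theorem bA_le : 0 < bA ∧ bA ≤ 99995600 := by
  constructor
  · unfold bA
    exact Finset.sum_pos (fun j hj => bs_pos hj) ⟨1, by simp⟩
  · have h1 : bA ≤ ∑ j ∈ Finset.Icc 1 16, (cu j : ℝ) / 10 :=
      Finset.sum_le_sum fun j hj => bs_le hj
    have h2 : ((∑ j ∈ Finset.Icc 1 16, cu j : ℤ) : ℝ) ≤ 999956000 := by exact_mod_cast cu_sum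
    rw [← Finset.sum_div] at h1
    push_cast at h2
    linarith

theorem big_fold : ∃ (C : Set E2) (L : ℝ) (γ : ℝ → E2) (Q : Set E3), PLFolding C L γ Q ∧
    volume C = 1 ∧ ENNReal.ofReal (2 / (15 * √Real.pi)) ≤ volume Q := by
  obtain ⟨L, γ, h1, h2, h3, h4, h5⟩ := b_arc
  have hF : PLFolding bC L γ (convexHull ℝ (range bw)) :=
    poly_fold (n := bn) (h := bh) bC_region h1 h2 bV_indep bC_cover bV_disj b_iso bV_over b_n0 b_n
      b_sup b_eq b_Q b_int bk_three h3 h4 h5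
  obtain ⟨hA0, hA1⟩ := bA_le
  have ha : (0 : ℝ) < √bA := Real.sqrt_pos.2 hA0
  have ha' : √bA ^ 2 = bA := Real.sq_sqrt hA0.le
  have ht : (0 : ℝ) < 1 / √bA := by positivity
  refine ⟨_, _, _, _, plf_sim hF ht 0 0, ?_, ?_⟩
  · rw [vol_sim ht, bC_vol, ← ENNReal.ofReal_mul (by positivity), finrank_euclideanSpace_fin]
    rw [show (1 / √bA) ^ 2 * bA = (1 : ℝ) by
      rw [div_pow, one_pow, ha']
      field_simp]
    exact ENNReal.ofReal_one
  · rw [vol_sim ht, finrank_euclideanSpace_fin]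
    have hpi : (3.1415 : ℝ) < Real.pi := Real.pi_gt_d4
    have hs : (0 : ℝ) < √Real.pi := Real.sqrt_pos.2 Real.pi_pos
    have hs' : √Real.pi ^ 2 = Real.pi := Real.sq_sqrt Real.pi_pos.le
    have hk : 2 / (15 * √Real.pi) ≤ (1 / √bA) ^ 3 * (451477553852 / 6) := by
      refine key ha hs (by norm_num) ?_
      rw [ha', hs']
      have h6 : bA ^ 3 ≤ 99995600 ^ 3 := pow_le_pow_left₀ hA0.le hA1 3
      calc 4 * bA ^ 3 ≤ 4 * 99995600 ^ 3 := by linarith
        _ ≤ 225 * 3.1415 * (451477553852 / 6) ^ 2 := by norm_num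
        _ ≤ 225 * Real.pi * (451477553852 / 6) ^ 2 := by
          gcongr
    calc ENNReal.ofReal (2 / (15 * √Real.pi))
        ≤ ENNReal.ofReal ((1 / √bA) ^ 3 * (451477553852 / 6)) := ENNReal.ofReal_le_ofReal hk
      _ = ENNReal.ofReal ((1 / √bA) ^ 3) * ENNReal.ofReal (451477553852 / 6) :=
          ENNReal.ofReal_mul (by positivity)
      _ ≤ _ := by
          gcongr
          exact b_vol

end Pool.Agent.Lib.FOLD
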