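import Pool.Agent.Lib.FOLD.PlL
import Pool.Agent.Lib.FOLD.Sim
import Pool.Agent.Lib.FOLD.FLip

/-!
# FOLD.Bdd: bounded sequences of foldings have a limit (0.8 h)
PROOF. Translate (`plf_sim` with `t = 1`, `a = -(g i 0)`, `b = -(f (g i 0))`): we may assume `0 = g i 0 ∈ c i` and `f 0 = 0`. Then `c i ⊆ closedBall 0 R` (`diam`), `frontier (q i) = f '' c i ⊆ closedBall 0 R` (`f_lip`), so
`q i ⊆ closedBall 0 R` (`sub_ball_of_frontier`). `plane_lim` gives a subsequence and `C, L, γ`; `blaschke` for the `q` gives a further subsequence with limit `P`, compact, nonempty, convex (`lim_convex`); `volume P = M` (`vol_cont`).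
(The volumes and the other data do not change under translation; for the final `Folding` use the translated sequences.)
-/

set_option autoImplicit false

open MeasureTheory Set Filter Topology Metric
open scoped MeasureTheory ENNReal

namespace Pool.Agent.Lib.FOLD

namespace BddAux

lemma q_sub {C : Set E2} {L : ℝ} {γ : ℝ → E2} {Q : Set E3} (F : Fold C L γ Q) {R : ℝ}
    (hR : diam C ≤ R) : Q ⊆ closedBall (F.f (γ 0)) R ∧ C ⊆ closedBall (γ 0) R := by
  have h0 : γ 0 ∈ C := by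
    have h1 : γ 0 ∈ frontier C := by
      rw [← F.arc.onto]
      exact ⟨0, ⟨le_rfl, F.arc.pos.le⟩, rfl⟩
    exact F.region.cpt.isClosed.frontier_subset h1
  have h2 : ∀ p ∈ C, dist p (γ 0) ≤ R := fun p hp =>
    (dist_le_diam_of_mem F.region.cpt.isBounded hp h0).trans hR
  refine ⟨sub_ball_of_frontier F.cpt ?_, fun p hp => h2 p hp⟩
  rw [← F.onto]
  rintro _ ⟨p, hp, rfl⟩
  have h3 := (f_lip F).dist_le_mul p hp (γ 0) h0
  rw [NNReal.coe_one, one_mul] at h3
  exact h3.trans (h2 p hp)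

end BddAux

open BddAux

theorem bdd_limit {c : ℕ → Set E2} {l : ℕ → ℝ} {g : ℕ → ℝ → E2} {q : ℕ → Set E3}
    (hF : ∀ i, PLFolding (c i) (l i) (g i) (q i)) (hA : ∀ i, volume (c i) = 1) {R : ℝ}
    (hR : ∀ i, diam (c i) ≤ R) {M : ℝ≥0∞} (hM : Tendsto (fun i => volume (q i)) atTop (𝓝 M)) :
    ∃ (C : Set E2) (L : ℝ) (γ : ℝ → E2) (P : Set E3), Folding C L γ P ∧ volume C = 1 ∧
      volume P = M := by
  have F : ∀ i, Fold (c i) (l i) (g i) (q i) := fun i => (hF i).some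
  have hF' : ∀ i, PLFolding ((fun p => (1 : ℝ) • p + -(g i 0)) '' c i) (1 * l i)
      (fun s => (1 : ℝ) • g i (s / 1) + -(g i 0))
      ((fun z => (1 : ℝ) • z + -((F i).f (g i 0))) '' q i) :=
    fun i => plf_sim (hF i) one_pos _ _
  obtain ⟨c', hc'⟩ : ∃ c' : ℕ → Set E2, c' = fun i => (fun p => (1 : ℝ) • p + -(g i 0)) '' c i :=
    ⟨_, rfl⟩
  obtain ⟨l', hl'⟩ : ∃ l' : ℕ → ℝ, l' = fun i => 1 * l i := ⟨_, rfl⟩
  obtain ⟨g', hg'⟩ : ∃ g' : ℕ → ℝ → E2, g' = fun i s => (1 : ℝ) • g i (s / 1) + -(g i 0) :=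
    ⟨_, rfl⟩
  obtain ⟨q', hq'⟩ : ∃ q' : ℕ → Set E3,
    q' = fun i => (fun z => (1 : ℝ) • z + -((F i).f (g i 0))) '' q i := ⟨_, rfl⟩
  have hF2 : ∀ i, PLFolding (c' i) (l' i) (g' i) (q' i) := by
    intro i
    rw [hc', hl', hg', hq']
    exact hF' i
  have F2 : ∀ i, Fold (c' i) (l' i) (g' i) (q' i) := fun i => (hF2 i).some
  have hvc : ∀ i, volume (c' i) = 1 := by
    intro i
    rw [hc']
    dsimp only
    rw [vol_sim one_pos, hA i]
    simp
  have hvq : ∀ i, volume (q' i) = volume (q i) := by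
    intro i
    rw [hq']
    dsimp only
    rw [vol_sim one_pos]
    simp
  have hbc : ∀ i, c' i ⊆ closedBall 0 R := by
    intro i
    rw [hc']
    rintro _ ⟨p, hp, rfl⟩
    have := (q_sub (F i) (hR i)).2 hp
    rw [mem_closedBall, dist_eq_norm] at this
    rw [mem_closedBall, dist_zero_right]
    dsimp only
    rw [one_smul, ← sub_eq_add_neg]
    exact this
  have hbq : ∀ i, q' i ⊆ closedBall 0 R := by
    intro i
    rw [hq']
    rintro _ ⟨p, hp, rfl⟩
    have := (q_sub (F i) (hR i)).1 hp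
    rw [mem_closedBall, dist_eq_norm] at this
    rw [mem_closedBall, dist_zero_right]
    dsimp only
    rw [one_smul, ← sub_eq_add_neg]
    exact this
  obtain ⟨φ, C, L, γ, hφ, hC, hγ, hvC, hcC, hlL, hgγ⟩ := plane_lim (fun i => (F2 i).region)
    (fun i => (F2 i).arc) hvc hbc
  have hqn : ∀ i, (q' i).Nonempty := fun i => (F2 i).int.mono interior_subset
  obtain ⟨ψ, P, hψ, hPc, hPn, hqP⟩ := blaschke (K := fun i => q' (φ i)) (R := R)
    (fun i => (F2 (φ i)).cpt) (fun i => hqn (φ i)) (fun i => hbq (φ i))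
  have hPv : Convex ℝ P := lim_convex (fun i => (F2 (φ (ψ i))).cpt) (fun i => hqn (φ (ψ i)))
    (fun i => (F2 (φ (ψ i))).cvx) hPc hPn hqP
  refine ⟨C, L, γ, P, ⟨hC, hγ, hPc, hPv, hPn, fun i => c' (φ (ψ i)), fun i => l' (φ (ψ i)),
    fun i => g' (φ (ψ i)), fun i => q' (φ (ψ i)), fun i => hF2 (φ (ψ i)),
    hcC.comp hψ.tendsto_atTop, hlL.comp hψ.tendsto_atTop, ?_, hqP⟩, hvC, ?_⟩
  · intro ε hε
    exact hψ.tendsto_atTop.eventually (hgγ ε hε)
  · have h1 := vol_cont (fun i => (F2 (φ (ψ i))).cpt) (fun i => hqn (φ (ψ i)))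
      (fun i => (F2 (φ (ψ i))).cvx) hPc hPn hPv hqP
    have h2 : Tendsto (fun i => volume (q' (φ (ψ i)))) atTop (𝓝 M) := by
      simp only [hvq]
      exact hM.comp (hφ.tendsto_atTop.comp hψ.tendsto_atTop)
    exact tendsto_nhds_unique h1 h2

end Pool.Agent.Lib.FOLD
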