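import Pool.Agent.Lib.FOLD.Defs

/-!
# FOLD.Bla: Blaschke selection
The nonempty compact subsets of a closed ball form a compact metric space for the Hausdorff
distance; limits of points and convexity.
-/

set_option autoImplicit false

open MeasureTheory Set Filter Topology Metric
open scoped MeasureTheory ENNReal

namespace Pool.Agent.Lib.FOLD

variable {E : Type*} [NormedAddCommGroup E] [InnerProductSpace ℝ E] [FiniteDimensional ℝ E]

theorem blaschke {K : ℕ → Set E} {R : ℝ} (hc : ∀ i, IsCompact (K i)) (hn : ∀ i, (K i).Nonempty)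
    (hb : ∀ i, K i ⊆ closedBall 0 R) : ∃ (φ : ℕ → ℕ) (K' : Set E), StrictMono φ ∧ IsCompact K' ∧
      K'.Nonempty ∧ Tendsto (fun i => hausdorffDist (K (φ i)) K') atTop (𝓝 0) := by
  haveI : CompactSpace (closedBall (0 : E) R) :=
    isCompact_iff_compactSpace.1 (isCompact_closedBall 0 R)
  let S : ℕ → TopologicalSpace.NonemptyCompacts (closedBall (0 : E) R) := fun i =>
    ⟨⟨Subtype.val ⁻¹' K i, ((hc i).isClosed.preimage continuous_subtype_val).isCompact⟩, by
      obtain ⟨x, hx⟩ := hn i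
      exact ⟨⟨x, hb i hx⟩, hx⟩⟩
  obtain ⟨A, φ, hφ, hA⟩ := CompactSpace.tendsto_subseq S
  refine ⟨φ, Subtype.val '' (A : Set (closedBall (0 : E) R)), hφ,
    A.isCompact.image continuous_subtype_val, A.nonempty.image _, ?_⟩
  have h1 := tendsto_iff_dist_tendsto_zero.1 hA
  refine h1.congr fun i => ?_
  rw [NonemptyCompacts.dist_eq]
  have h2 : (Subtype.val '' ((S (φ i) : TopologicalSpace.NonemptyCompacts
      (closedBall (0 : E) R)) : Set (closedBall (0 : E) R)) : Set E) = K (φ i) := by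
    show Subtype.val '' (Subtype.val ⁻¹' K (φ i)) = K (φ i)
    rw [Subtype.image_preimage_coe]
    exact inter_eq_right.2 (hb (φ i))
  rw [← h2, hausdorffDist_image isometry_subtype_coe]
  rfl

theorem lim_mem {K : ℕ → Set E} {K' : Set E} (hc : ∀ i, IsCompact (K i)) (hn : ∀ i, (K i).Nonempty)
    (hc' : IsCompact K') (hn' : K'.Nonempty)
    (h : Tendsto (fun i => hausdorffDist (K i) K') atTop (𝓝 0)) {z : ℕ → E} {z' : E}
    (hz : ∀ i, z i ∈ K i) (hz' : Tendsto z atTop (𝓝 z')) : z' ∈ K' := by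
  have h1 : ∀ i, infDist (z i) K' ≤ hausdorffDist (K i) K' := fun i =>
    infDist_le_hausdorffDist_of_mem (hz i)
      (hausdorffEDist_ne_top_of_nonempty_of_bounded (hn i) hn' (hc i).isBounded hc'.isBounded)
  have h2 : Tendsto (fun i => infDist (z i) K') atTop (𝓝 (infDist z' K')) :=
    ((continuous_infDist_pt K').tendsto z').comp hz'
  have h3 : infDist z' K' ≤ 0 := le_of_tendsto_of_tendsto' h2 h h1
  exact (hc'.isClosed.mem_iff_infDist_zero hn').2 (le_antisymm h3 infDist_nonneg)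

theorem lim_exists {K : ℕ → Set E} {K' : Set E} (hc : ∀ i, IsCompact (K i)) (hn : ∀ i, (K i).Nonempty)
    (hc' : IsCompact K') (hn' : K'.Nonempty)
    (h : Tendsto (fun i => hausdorffDist (K i) K') atTop (𝓝 0)) {z' : E} (hz' : z' ∈ K') :
    ∃ z : ℕ → E, (∀ i, z i ∈ K i) ∧ Tendsto z atTop (𝓝 z') := by
  choose z hz hd using fun i => (hc i).exists_infDist_eq_dist (hn i) z'
  refine ⟨z, hz, ?_⟩
  rw [tendsto_iff_dist_tendsto_zero]
  refine squeeze_zero (fun _ => dist_nonneg) (fun i => ?_) h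
  rw [dist_comm, ← hd i, hausdorffDist_comm]
  exact infDist_le_hausdorffDist_of_mem hz'
    (hausdorffEDist_ne_top_of_nonempty_of_bounded hn' (hn i) hc'.isBounded (hc i).isBounded)

theorem lim_convex {K : ℕ → Set E} {K' : Set E} (hc : ∀ i, IsCompact (K i)) (hn : ∀ i, (K i).Nonempty)
    (hv : ∀ i, Convex ℝ (K i)) (hc' : IsCompact K') (hn' : K'.Nonempty)
    (h : Tendsto (fun i => hausdorffDist (K i) K') atTop (𝓝 0)) : Convex ℝ K' := by
  intro x hx y hy a b ha hb hab
  obtain ⟨u, hu, hux⟩ := lim_exists hc hn hc' hn' h hx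
  obtain ⟨v, hv', hvy⟩ := lim_exists hc hn hc' hn' h hy
  exact lim_mem hc hn hc' hn' h (fun i => hv i (hu i) (hv' i) ha hb hab)
    ((hux.const_smul a).add (hvy.const_smul b))

end Pool.Agent.Lib.FOLD
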