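import Pool.Agent.Lib.FOLD.Defs

/-!
# FOLD.Cnt: counting lemmas (0.8 h)
PROOF. `∑_{c ∈ K} μ (S c) = ∫⁻ ∑_{c ∈ K} 1_{S c} dμ = ∫⁻ #{c ∈ K | u ∈ S c} dμ` (`lintegral_finset_sum`, `lintegral_indicator_one`). All four statements follow by integrating
the pointwise inequalities `N + 2·1_E ≤ 2`, `1 ≤ N + 1_E`, `2 ≤ N`, `N ≤ 2·1_E`.
-/

set_option autoImplicit false

open MeasureTheory Set Filter Topology Metric
open scoped MeasureTheory ENNReal

namespace Pool.Agent.Lib.FOLD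

open Classical in
theorem cnt_sum {Ω ι : Type*} [MeasurableSpace Ω] (μ : Measure Ω) (K : Finset ι)
    (S : ι → Set Ω) (hS : ∀ c ∈ K, MeasurableSet (S c)) :
    ∑ c ∈ K, μ (S c) = ∫⁻ u, (((K.filter fun c => u ∈ S c).card : ℕ) : ℝ≥0∞) ∂μ := by
  have h1 : ∀ u, (((K.filter fun c => u ∈ S c).card : ℕ) : ℝ≥0∞)
      = ∑ c ∈ K, (S c).indicator (1 : Ω → ℝ≥0∞) u := by
    intro u
    rw [Finset.card_filter]
    push_cast
    refine Finset.sum_congr rfl fun c _ => ?_
    by_cases hc : u ∈ S c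
    · simp [hc]
    · simp [hc]
  simp_rw [h1]
  rw [lintegral_finsetSum' K (fun c hc => (measurable_one.indicator (hS c hc)).aemeasurable)]
  refine Finset.sum_congr rfl fun c hc => ?_
  rw [lintegral_indicator_one (hS c hc)]

open Classical in
theorem cnt_le {Ω ι : Type*} [MeasurableSpace Ω] (μ : Measure Ω) [IsProbabilityMeasure μ] (K : Finset ι)
    (S : ι → Set Ω) (hS : ∀ c ∈ K, MeasurableSet (S c)) {E : Set Ω} (hE : MeasurableSet E)
    (h : ∀ᵐ u ∂μ, (K.filter fun c => u ∈ S c).card ≤ 2 ∧ (u ∈ E → ∀ c ∈ K, u ∉ S c)) :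
    ∑ c ∈ K, μ (S c) + 2 * μ E ≤ 2 := by
  rw [cnt_sum μ K S hS, ← lintegral_indicator_one hE,
    ← lintegral_const_mul 2 (measurable_one.indicator hE),
    ← lintegral_add_right _ ((measurable_one.indicator hE).const_mul 2)]
  calc _ ≤ ∫⁻ _, (2 : ℝ≥0∞) ∂μ := by
        refine lintegral_mono_ae ?_
        filter_upwards [h] with u hu
        by_cases huE : u ∈ E
        · have h0 : (K.filter fun c => u ∈ S c).card = 0 := by
            rw [Finset.card_eq_zero, Finset.filter_eq_empty_iff]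
            exact fun c hc => hu.2 huE c hc
          rw [h0]
          simp [huE]
        · have h2 : (((K.filter fun c => u ∈ S c).card : ℕ) : ℝ≥0∞) ≤ 2 := by
            exact_mod_cast hu.1
          simpa [huE] using h2
    _ = 2 := by simp

theorem cnt_ge1 {Ω ι : Type*} [MeasurableSpace Ω] (μ : Measure Ω) [IsProbabilityMeasure μ] (K : Finset ι)
    (S : ι → Set Ω) (hS : ∀ c ∈ K, MeasurableSet (S c)) {E : Set Ω} (hE : MeasurableSet E)
    (h : ∀ᵐ u ∂μ, u ∉ E → ∃ c ∈ K, u ∈ S c) : 1 ≤ ∑ c ∈ K, μ (S c) + μ E := by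
  classical
  rw [cnt_sum μ K S hS, ← lintegral_indicator_one hE,
    ← lintegral_add_right _ (measurable_one.indicator hE)]
  calc (1 : ℝ≥0∞) = ∫⁻ _, (1 : ℝ≥0∞) ∂μ := by simp
    _ ≤ _ := by
        refine lintegral_mono_ae ?_
        filter_upwards [h] with u hu
        by_cases huE : u ∈ E
        · simp [huE]
        · obtain ⟨c, hc, hcu⟩ := hu huE
          have h1 : 1 ≤ (K.filter fun c => u ∈ S c).card :=
            Finset.card_pos.mpr ⟨c, Finset.mem_filter.mpr ⟨hc, hcu⟩⟩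
          have h2 : (1 : ℝ≥0∞) ≤ (((K.filter fun c => u ∈ S c).card : ℕ) : ℝ≥0∞) := by
            exact_mod_cast h1
          exact le_add_right h2

theorem cnt_ge2 {Ω ι : Type*} [MeasurableSpace Ω] (μ : Measure Ω) [IsProbabilityMeasure μ] (K : Finset ι)
    (S : ι → Set Ω) (hS : ∀ c ∈ K, MeasurableSet (S c))
    (h : ∀ᵐ u ∂μ, ∃ c ∈ K, ∃ c' ∈ K, c ≠ c' ∧ u ∈ S c ∧ u ∈ S c') : 2 ≤ ∑ c ∈ K, μ (S c) := by
  classical
  rw [cnt_sum μ K S hS]
  calc (2 : ℝ≥0∞) = ∫⁻ _, (2 : ℝ≥0∞) ∂μ := by simp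
    _ ≤ _ := by
        refine lintegral_mono_ae ?_
        filter_upwards [h] with u hu
        obtain ⟨c, hc, c', hc', hne, hcu, hcu'⟩ := hu
        have h1 : 1 < (K.filter fun c => u ∈ S c).card :=
          Finset.one_lt_card.mpr ⟨c, Finset.mem_filter.mpr ⟨hc, hcu⟩, c',
            Finset.mem_filter.mpr ⟨hc', hcu'⟩, hne⟩
        have h1' : 2 ≤ (K.filter fun c => u ∈ S c).card := h1
        exact_mod_cast h1'

open Classical in
theorem cnt_thin {Ω ι : Type*} [MeasurableSpace Ω] (μ : Measure Ω) (K : Finset ι)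
    (S : ι → Set Ω) (hS : ∀ c ∈ K, MeasurableSet (S c)) {E : Set Ω} (hE : MeasurableSet E)
    (h : ∀ᵐ u ∂μ, (K.filter fun c => u ∈ S c).card ≤ 2 ∧ (∀ c ∈ K, u ∈ S c → u ∈ E)) :
    ∑ c ∈ K, μ (S c) ≤ 2 * μ E := by
  rw [cnt_sum μ K S hS, ← lintegral_indicator_one hE,
    ← lintegral_const_mul 2 (measurable_one.indicator hE)]
  refine lintegral_mono_ae ?_
  filter_upwards [h] with u hu
  by_cases huE : u ∈ E
  · have h2 : (((K.filter fun c => u ∈ S c).card : ℕ) : ℝ≥0∞) ≤ 2 := by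
      exact_mod_cast hu.1
    simpa [huE] using h2
  · have h0 : (K.filter fun c => u ∈ S c).card = 0 := by
      rw [Finset.card_eq_zero, Finset.filter_eq_empty_iff]
      exact fun c hc hcu => huE (hu.2 c hc hcu)
    rw [h0]
    simp

end Pool.Agent.Lib.FOLD
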