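import Pool.Agent.Lib.FOLD.Defs

/-!
# FOLD.Comp: combinatorics of the gluing (0.8 h)
PROOF. `tri_inj`: `f = A k` on the triangle `k` and `A k` is injective. `compat`: let `w ∈ tri (V k)`. Then `f(V k0 i0) = f w ∈ f '' tri (V k)`, so by `edge` there is `i'` with `f(V k i') = f w`; both
`V k i'` and `w` are in the triangle `k`, so `V k i' = w` (`tri_inj`). `is_vertex`: `w ∈ tri (V k)` for some `k` (`cover`), then `compat`.
`partner`: `w = γ s`, `s ∈ [0,L]` (`arc.onto`); `s ≠ 0, L` (`γ L = γ 0`, `hx`), `s ≠ L/2` (`hy`). `w' = γ (L - s)` is glued to `w`, so `f w' = f w` (`glue`; both points are in `frontier C ⊆ C`); `w' ≠ w` by `inj`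
(`s, L - s ∈ [0, L)` different).
-/

set_option autoImplicit false

open MeasureTheory Set Filter Topology Metric
open scoped MeasureTheory ENNReal

namespace Pool.Agent.Lib.FOLD

variable {C : Set E2} {L : ℝ} {γ : ℝ → E2} {Q : Set E3}

theorem tri_sub (F : Fold C L γ Q) (k : Fin F.n) : tri (F.V k) ⊆ C := by
  have h := F.cover
  intro p hp
  rw [← h]
  exact mem_iUnion.2 ⟨k, hp⟩

theorem tri_inj (F : Fold C L γ Q) (k : Fin F.n) {p q : E2} (hp : p ∈ tri (F.V k))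
    (hq : q ∈ tri (F.V k)) (h : F.f p = F.f q) : p = q := by
  rw [F.rigid k p hp, F.rigid k q hq] at h
  exact (F.A k).injective h

theorem compat (F : Fold C L γ Q) {w : E2} {k0 : Fin F.n} {i0 : Fin 3}
    (h : F.f w = F.f (F.V k0 i0)) (k : Fin F.n) (hk : w ∈ tri (F.V k)) : ∃ i, F.V k i = w := by
  obtain ⟨i, hi⟩ := F.edge k0 i0 k ⟨w, hk, h⟩
  refine ⟨i, ?_⟩
  have hV : F.V k i ∈ tri (F.V k) := subset_convexHull ℝ _ (mem_range_self i)
  exact tri_inj F k hV hk (hi.trans h.symm)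

theorem is_vertex (F : Fold C L γ Q) {w : E2} (hw : w ∈ C) {k0 : Fin F.n} {i0 : Fin 3}
    (h : F.f w = F.f (F.V k0 i0)) : w ∈ F.vs := by
  have hc := F.cover
  rw [← hc] at hw
  obtain ⟨k, hk⟩ := mem_iUnion.1 hw
  obtain ⟨i, hi⟩ := compat F h k hk
  classical
  unfold Fold.vs
  exact Finset.mem_image.2 ⟨(k, i), Finset.mem_univ _, hi⟩

theorem partner (F : Fold C L γ Q) {w : E2} (hw : w ∈ frontier C) (hx : F.f w ≠ F.f (γ 0))
    (hy : F.f w ≠ F.f (γ (L / 2))) : ∃ w' ∈ frontier C, w' ≠ w ∧ F.f w' = F.f w := by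
  have honto := F.arc.onto
  have hclosed := F.arc.closed
  have hfr : frontier C ⊆ C := F.region.cpt.isClosed.frontier_subset
  have hw2 := hw
  rw [← honto] at hw2
  obtain ⟨s, hs, rfl⟩ := hw2
  have hs0 : s ≠ 0 := by
    rintro rfl
    exact hx rfl
  have hsL : s ≠ L := by
    rintro rfl
    exact hx (by rw [hclosed])
  have hs2 : s ≠ L / 2 := by
    rintro rfl
    exact hy rfl
  have h0 : 0 < s := lt_of_le_of_ne hs.1 (Ne.symm hs0)
  have h1 : s < L := lt_of_le_of_ne hs.2 hsL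
  have hmem : L - s ∈ Icc (0 : ℝ) L := ⟨by linarith, by linarith⟩
  have hw' : γ (L - s) ∈ frontier C := by
    rw [← honto]
    exact ⟨L - s, hmem, rfl⟩
  refine ⟨γ (L - s), hw', ?_, ?_⟩
  · intro hEq
    have := F.inj (⟨hmem.1, by linarith⟩ : L - s ∈ Ico (0 : ℝ) L)
      (⟨hs.1, h1⟩ : s ∈ Ico (0 : ℝ) L) hEq
    apply hs2
    linarith
  · refine ((F.glue _ (hfr hw') _ (hfr hw)).2 (Or.inr ?_))
    exact ⟨L - s, hmem, rfl, by ring_nf⟩

end Pool.Agent.Lib.FOLD
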