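import Pool.Agent.Lib.FOLD.Defs

/-!
# FOLD.CovA: the triangles at a vertex cover a neighbourhood in the polygon (1 h)
PROOF. For `t ∈ (0,1]` the point `p t = w + t (m - w)` is in `C = ⋃ tri (V k)`. Some `k` contains `p t` for arbitrarily small `t > 0` (finitely many triangles: `t = 1/(n+1)`, pigeonhole
`Finite.exists_infinite_fiber` or the closedness), so `w ∈ tri (V k)` (closed), hence `V k i = w` for some `i`. For such a `t`: `p t - w = α e1 + β e2` with `α, β ≥ 0`, `α + β ≤ 1`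
(`convexHull` of three points, `V k i`, `V k (i+1)`, `V k (i+2)`), so `m - w = (α/t) e1 + (β/t) e2`. `0 = α⟪u,e1⟫ + β⟪u,e2⟫`, `(α, β) ≠ 0` since `m ≠ w`, and
`⟪u,e1⟫, ⟪u,e2⟫ ≠ 0`: so `α, β > 0` and the two inner products have opposite signs.
-/

set_option autoImplicit false

open MeasureTheory Set Filter Topology Metric
open scoped MeasureTheory ENNReal

namespace Pool.Agent.Lib.FOLD

variable {C : Set E2} {L : ℝ} {γ : ℝ → E2} {Q : Set E3}

namespace CovAAux

theorem tri_closed (V : Fin 3 → E2) : IsClosed (tri V) := by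
  unfold tri
  exact (Set.finite_range V).isClosed_convexHull ℝ

theorem tri_coords (V : Fin 3 → E2) {p : E2} (hp : p ∈ tri V) (i : Fin 3) :
    ∃ a b : ℝ, 0 ≤ a ∧ 0 ≤ b ∧ p - V i = a • (V (i + 1) - V i) + b • (V (i + 2) - V i) := by
  unfold tri at hp
  rw [convexHull_range_eq_exists_affineCombination] at hp
  obtain ⟨s, w, hw0, hw1, hp⟩ := hp
  classical
  -- extend the weights by zero
  let w' : Fin 3 → ℝ := fun j => if j ∈ s then w j else 0
  have hw' : ∀ j, 0 ≤ w' j := by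
    intro j
    by_cases h : j ∈ s
    · simp [w', h, hw0 j h]
    · simp [w', h]
  have hsum : ∑ j, w' j = 1 := by
    simp only [w']
    rw [Finset.sum_ite_mem, Finset.univ_inter, hw1]
  have hpe : p = ∑ j, w' j • V j := by
    rw [← hp, Finset.affineCombination_eq_linear_combination s V w hw1]
    simp only [w', ite_smul, zero_smul]
    rw [Finset.sum_ite_mem, Finset.univ_inter]
  refine ⟨w' (i + 1), w' (i + 2), hw' _, hw' _, ?_⟩
  rw [hpe]
  rw [Fin.sum_univ_three] at hsum ⊢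
  fin_cases i
  · have h1 : V 0 = (w' 0 + w' 1 + w' 2) • V 0 := by rw [hsum, one_smul]
    have e1 : ((0 : Fin 3) + 1) = 1 := rfl
    have e2 : ((0 : Fin 3) + 2) = 2 := rfl
    simp only [Fin.zero_eta, e1, e2]
    nth_rw 2 [h1]
    module
  · have h1 : V 1 = (w' 0 + w' 1 + w' 2) • V 1 := by rw [hsum, one_smul]
    have e1 : ((1 : Fin 3) + 1) = 2 := rfl
    have e2 : ((1 : Fin 3) + 2) = 0 := rfl
    simp only [Fin.mk_one, e1, e2]
    nth_rw 2 [h1]
    module
  · have h1 : V 2 = (w' 0 + w' 1 + w' 2) • V 2 := by rw [hsum, one_smul]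
    have e1 : ((2 : Fin 3) + 1) = 0 := rfl
    have e2 : ((2 : Fin 3) + 2) = 1 := rfl
    simp only [Fin.reduceFinMk, e1, e2]
    nth_rw 2 [h1]
    module

end CovAAux

open CovAAux

theorem cov_ray (F : Fold C L γ Q) {w m u : E2} (hw : w ∈ C) (hm : m ∈ C) (hmw : m ≠ w)
    (hv : ∀ k, w ∈ tri (F.V k) → ∃ i, F.V k i = w)
    (hu : ∀ k i j, i ≠ j → inner ℝ u (F.V k i - F.V k j) ≠ 0) (h0 : inner ℝ u (m - w) = 0) :
    ∃ c : Fin F.n × Fin 3, F.V c.1 c.2 = w ∧ u ∈ F.S2 c ∧
      ∃ α β : ℝ, 0 < α ∧ 0 < β ∧ m - w = α • F.e1 c + β • F.e2 c := by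
  classical
  let t : ℕ → ℝ := fun n => 1 / ((n : ℝ) + 1)
  have ht0 : ∀ n, 0 < t n := fun n => by positivity
  have ht1 : ∀ n, t n ≤ 1 := fun n => by
    simp only [t]
    rw [div_le_one (by positivity)]
    have : (0 : ℝ) ≤ n := Nat.cast_nonneg n
    linarith
  let p : ℕ → E2 := fun n => w + t n • (m - w)
  have hpC : ∀ n, p n ∈ C := fun n =>
    F.region.cvx.add_smul_sub_mem hw hm ⟨(ht0 n).le, ht1 n⟩
  have hk : ∀ n, ∃ k, p n ∈ tri (F.V k) := by
    intro n
    have h := hpC n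
    rw [← F.cover] at h
    exact mem_iUnion.1 h
  choose κ hκ using hk
  obtain ⟨k, hkinf⟩ := Finite.exists_infinite_fiber κ
  have hinf : (κ ⁻¹' {k}).Infinite := Set.infinite_coe_iff.1 hkinf
  have htend : Tendsto p atTop (𝓝 w) := by
    have h1 : Tendsto t atTop (𝓝 0) := tendsto_one_div_add_atTop_nhds_zero_nat
    have h2 : Tendsto p atTop (𝓝 (w + (0 : ℝ) • (m - w))) :=
      tendsto_const_nhds.add (h1.smul_const (m - w))
    simpa using h2
  have hfreq : ∃ᶠ n in atTop, p n ∈ tri (F.V k) := by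
    have h1 : ∃ᶠ n in atTop, n ∈ κ ⁻¹' {k} := Nat.frequently_atTop_iff_infinite.2 hinf
    refine h1.mono fun n hn => ?_
    have h2 : κ n = k := hn
    rw [← h2]
    exact hκ n
  have hwk : w ∈ tri (F.V k) :=
    (tri_closed (F.V k)).mem_of_frequently_of_tendsto hfreq htend
  obtain ⟨i, hi⟩ := hv k hwk
  obtain ⟨n, hn⟩ := hfreq.exists
  obtain ⟨a, b, ha, hb, hab⟩ := tri_coords (F.V k) hn i
  have hne1 : i + 1 ≠ i := by
    fin_cases i <;> decide
  have hne2 : i + 2 ≠ i := by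
    fin_cases i <;> decide
  have hx := hu k (i + 1) i hne1
  have hy := hu k (i + 2) i hne2
  set x : ℝ := inner ℝ u (F.V k (i + 1) - F.V k i) with hxd
  set y : ℝ := inner ℝ u (F.V k (i + 2) - F.V k i) with hyd
  have hp1 : t n • (m - w) = a • (F.V k (i + 1) - F.V k i) + b • (F.V k (i + 2) - F.V k i) := by
    rw [← hab, hi]
    simp only [p]
    abel
  have hzero : a * x + b * y = 0 := by
    have h1 : inner ℝ u (t n • (m - w)) =
        inner ℝ u (a • (F.V k (i + 1) - F.V k i) + b • (F.V k (i + 2) - F.V k i)) := by rw [hp1]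
    rw [inner_smul_right, h0, mul_zero, inner_add_right, inner_smul_right, inner_smul_right] at h1
    exact h1.symm
  have hmw' : m - w ≠ 0 := sub_ne_zero.2 hmw
  have hab0 : ¬ (a = 0 ∧ b = 0) := by
    rintro ⟨h1, h2⟩
    rw [h1, h2, zero_smul, zero_smul, add_zero] at hp1
    rcases smul_eq_zero.1 hp1 with h | h
    · exact (ht0 n).ne' h
    · exact hmw' h
  have ha' : a ≠ 0 := by
    intro h
    rw [h, zero_mul, zero_add] at hzero
    rcases mul_eq_zero.1 hzero with h2 | h2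
    · exact hab0 ⟨h, h2⟩
    · exact hy h2
  have hb' : b ≠ 0 := by
    intro h
    rw [h, zero_mul, add_zero] at hzero
    rcases mul_eq_zero.1 hzero with h2 | h2
    · exact hab0 ⟨h2, h⟩
    · exact hx h2
  have ha0 : 0 < a := lt_of_le_of_ne ha (Ne.symm ha')
  have hb0 : 0 < b := lt_of_le_of_ne hb (Ne.symm hb')
  refine ⟨(k, i), hi, ?_, a / t n, b / t n, div_pos ha0 (ht0 n), div_pos hb0 (ht0 n), ?_⟩
  · show x * y < 0
    have h1 : a * (x * y) = -(b * y ^ 2) := by linear_combination y * hzero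
    have h2 : 0 < b * y ^ 2 := by positivity
    by_contra hcon
    have h3 : 0 ≤ a * (x * y) := mul_nonneg ha0.le (not_lt.1 hcon)
    linarith
  · show m - w = (a / t n) • (F.V k (i + 1) - F.V k i) + (b / t n) • (F.V k (i + 2) - F.V k i)
    have h1 : m - w = (t n)⁻¹ • (t n • (m - w)) := by
      rw [smul_smul, inv_mul_cancel₀ (ht0 n).ne', one_smul]
    rw [h1, hp1, smul_add, smul_smul, smul_smul, div_eq_inv_mul, div_eq_inv_mul]

end Pool.Agent.Lib.FOLD
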