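import Pool.Agent.Lib.FOLD.Defs

/-!
# FOLD.Gau: Gaussian directions (1 h)
PROOF. `E` finite dimensional. `gau_null`: `isGaussian_stdGaussian`; the law of `u ↦ ⟪u, e⟫` is a real Gaussian (`IsGaussian.map_eq_gaussianReal`, or
`charFun_stdGaussian`) of variance `‖e‖² ≠ 0` (`variance_dual_stdGaussian`), which has no atoms (`noAtoms_gaussianReal`). `gau_open`: `stdGaussian E` is the image of
`Measure.pi (gaussianReal 0 1)` under a linear homeomorphism; `gaussianReal 0 1` is positive on nonempty open sets (density positive everywhere), so is the product.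
`corner_prob`: let `B : E3 → E2` be the adjoint of `A` (`⟪u, A a⟫ = ⟪B u, a⟫`). The image of `G3` under `B` has characteristic function
`t ↦ charFun G3 (A t) = exp(-‖A t‖²/2) = exp(-‖t‖²/2)`, so it is `G2` (`Measure.ext_of_charFun`); take the preimage of `{u | ⟪u, a⟫ ⟪u, b⟫ < 0}`.
-/

set_option autoImplicit false

open MeasureTheory Set Filter Topology Metric ProbabilityTheory
open scoped MeasureTheory ENNReal

namespace Pool.Agent.Lib.FOLD

theorem gau_null {E : Type*} [NormedAddCommGroup E] [InnerProductSpace ℝ E] [FiniteDimensional ℝ E]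
    [MeasurableSpace E] [BorelSpace E] {e : E} (he : e ≠ 0) :
    stdGaussian E {u | inner ℝ u e = 0} = 0 := by
  have h1 := IsGaussian.map_eq_gaussianReal (μ := stdGaussian E) (innerSL ℝ e)
  have h2 : {u : E | inner ℝ u e = 0} = (innerSL ℝ e) ⁻¹' {0} := by
    ext u
    simp [real_inner_comm]
  rw [h2, ← Measure.map_apply (by fun_prop) (measurableSet_singleton 0), h1]
  have h3 : (Var[innerSL ℝ e; stdGaussian E]).toNNReal ≠ 0 := by
    rw [variance_dual_stdGaussian, innerSL_apply_norm]
    have : 0 < ‖e‖ := norm_pos_iff.2 he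
    simp only [ne_eq, Real.toNNReal_eq_zero, not_le]
    positivity
  have := nullSingletonClass_gaussianReal (μ := ∫ x, (innerSL ℝ e) x ∂(stdGaussian E)) h3
  exact measure_singleton 0

theorem gau_open {E : Type*} [NormedAddCommGroup E] [InnerProductSpace ℝ E] [FiniteDimensional ℝ E]
    [MeasurableSpace E] [BorelSpace E] {U : Set E} (hU : IsOpen U) (hn : U.Nonempty) :
    0 < stdGaussian E U := by
  have h1 : (gaussianReal 0 1).IsOpenPosMeasure :=
    (gaussianReal_absolutelyContinuous' 0 one_ne_zero).isOpenPosMeasure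
  have h2 : (Measure.pi fun _ : Fin (Module.finrank ℝ E) => gaussianReal 0 1).IsOpenPosMeasure :=
    inferInstance
  have hc : Continuous fun x : Fin (Module.finrank ℝ E) → ℝ =>
      ∑ i, x i • stdOrthonormalBasis ℝ E i := by fun_prop
  have hs : Function.Surjective fun x : Fin (Module.finrank ℝ E) → ℝ =>
      ∑ i, x i • stdOrthonormalBasis ℝ E i := by
    intro y
    exact ⟨fun i => (stdOrthonormalBasis ℝ E).repr y i, (stdOrthonormalBasis ℝ E).sum_repr y⟩
  have h3 : (stdGaussian E).IsOpenPosMeasure := hc.isOpenPosMeasure_map hs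
  exact hU.measure_pos _ hn

instance : IsProbabilityMeasure G2 := by unfold G2; infer_instance

instance : IsProbabilityMeasure G3 := by unfold G3; infer_instance

theorem corner_prob (A : E2 →ₗᵢ[ℝ] E3) (a b : E2) :
    G3 {u | inner ℝ u (A a) * inner ℝ u (A b) < 0} = G2 {u | inner ℝ u a * inner ℝ u b < 0} := by
  set B : E3 →L[ℝ] E2 := ContinuousLinearMap.adjoint A.toContinuousLinearMap with hB
  have hadj : ∀ (u : E3) (t : E2), inner ℝ (B u) t = inner ℝ u (A t) := by
    intro u t
    rw [hB, ContinuousLinearMap.adjoint_inner_left]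
    rfl
  have hBm : Measurable B := B.continuous.measurable
  have hmap : G3.map B = G2 := by
    apply Measure.ext_of_charFun
    ext t
    have h1 : charFun (G3.map B) t = charFun G3 (A t) := by
      rw [charFun_apply, charFun_apply, integral_map hBm.aemeasurable (by fun_prop)]
      simp only [hadj]
    rw [h1]
    unfold G3 G2
    rw [charFun_stdGaussian, charFun_stdGaussian, A.norm_map]
  have hm : MeasurableSet {u : E2 | inner ℝ u a * inner ℝ u b < 0} :=
    (isOpen_lt (by fun_prop) continuous_const).measurableSet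
  rw [← hmap, Measure.map_apply hBm hm]
  congr 1
  ext u
  simp only [Set.mem_ofPred_eq, mem_preimage, hadj]

end Pool.Agent.Lib.FOLD
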