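import Pool.Agent.Lib.FOLD.CovA
import Pool.Agent.Lib.FOLD.Gau
import Pool.Agent.Lib.FOLD.Cnt

/-!
# FOLD.CovB: angle sums at a vertex of the triangulation, as probabilities (1.2 h)
PROOF. For almost all `u : E2` (`gau_null`, finitely many vectors, `V k i ≠ V k j` by `indep`) the hypothesis `hu` of `cov_ray` holds and `u ≠ 0`.
`cov_int`: let `d ≠ 0` be orthogonal to `u` (in the plane: rotate `u`), `ε > 0` with `w ± ε d ∈ C`. `cov_ray` for `m = w + ε d` and `m = w - ε d` gives two corners at `w` with a sign change; they are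
different: for the same corner `ε d = α e1 + β e2`, `-ε d = α' e1 + β' e2`, so `(α+α') e1 + (β+β') e2 = 0` with positive coefficients, contradiction to `indep` (`e1`, `e2` independent). Use `cnt_ge2`.
`cov_fr`: let `u ∉ Ext C w`: there are `p, p' ∈ C` with `⟪u,p⟫ > ⟪u,w⟫ > ⟪u,p'⟫`. Take `q ∈ interior C`. If `⟪u, q-w⟫ = 0` put `m = q`; if `> 0` let `m` be the point of the segment from `q` to `p'` with
`⟪u, m - w⟫ = 0`, if `< 0` the same with `p`; `m ∈ interior C` (`Convex.combo_interior_self_mem_interior`), so `m ≠ w` as `w ∈ frontier C`. `cov_ray` gives a corner at `w` with a sign change. Use `cnt_ge1`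
(`Ext C w` is closed, `S2 c` is open).
-/

set_option autoImplicit false

open MeasureTheory Set Filter Topology Metric
open scoped MeasureTheory ENNReal

namespace Pool.Agent.Lib.FOLD

variable {C : Set E2} {L : ℝ} {γ : ℝ → E2} {Q : Set E3}

namespace CovBAux

theorem exists_ne : ∃ e : E2, e ≠ 0 := ⟨EuclideanSpace.single 0 1, by
  intro h
  have := congrArg (fun v : E2 => v 0) h
  simp at this⟩

theorem gen_ae (F : Fold C L γ Q) :
    ∀ᵐ u ∂G2, u ≠ 0 ∧ ∀ k i j, i ≠ j → inner ℝ u (F.V k i - F.V k j) ≠ 0 := by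
  have key : ∀ e : E2, e ≠ 0 → ∀ᵐ u ∂G2, inner ℝ u e ≠ 0 := by
    intro e he
    rw [ae_iff]
    have := gau_null (E := E2) he
    simpa [G2] using this
  rw [Filter.eventually_and]
  constructor
  · obtain ⟨e, he⟩ := exists_ne
    filter_upwards [key e he] with u hu h0
    apply hu
    rw [h0, inner_zero_left]
  · rw [ae_all_iff]; intro k
    rw [ae_all_iff]; intro i
    rw [ae_all_iff]; intro j
    by_cases hij : i = j
    · exact Filter.Eventually.of_forall fun u h => absurd hij h
    · filter_upwards [key (F.V k i - F.V k j) (sub_ne_zero.2 ((F.indep k).injective.ne hij))]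
        with u hu _ using hu

theorem S2_open (F : Fold C L γ Q) (c : Fin F.n × Fin 3) : IsOpen (F.S2 c) := by
  unfold Fold.S2
  exact isOpen_lt (by fun_prop) continuous_const

theorem ext_closed (w : E2) : IsClosed (Ext C w) := by
  have h1 : IsClosed {u : E2 | ∀ z ∈ C, inner ℝ u z ≤ inner ℝ u w} := by
    have : {u : E2 | ∀ z ∈ C, inner ℝ u z ≤ inner ℝ u w} =
        ⋂ z ∈ C, {u : E2 | inner ℝ u z ≤ inner ℝ u w} := by
      ext u; simp
    rw [this]
    exact isClosed_biInter fun z _ => isClosed_le (by fun_prop) (by fun_prop)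
  have h2 : IsClosed {u : E2 | ∀ z ∈ C, inner ℝ u w ≤ inner ℝ u z} := by
    have : {u : E2 | ∀ z ∈ C, inner ℝ u w ≤ inner ℝ u z} =
        ⋂ z ∈ C, {u : E2 | inner ℝ u w ≤ inner ℝ u z} := by
      ext u; simp
    rw [this]
    exact isClosed_biInter fun z _ => isClosed_le (by fun_prop) (by fun_prop)
  exact h1.union h2

/-- an orthogonal vector in the plane -/
theorem exists_orth {u : E2} (hu : u ≠ 0) : ∃ d : E2, d ≠ 0 ∧ inner ℝ u d = 0 := by
  refine ⟨!₂[-u 1, u 0], ?_, ?_⟩
  · intro h
    apply hu
    have h0 := congrArg (fun v : E2 => v 0) h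
    have h1 := congrArg (fun v : E2 => v 1) h
    simp at h0 h1
    ext i
    fin_cases i
    · simpa using h1
    · simpa using h0
  · rw [EuclideanSpace.inner_eq_star_dotProduct]
    simp [dotProduct, Fin.sum_univ_two]
    ring

theorem indep_ne (F : Fold C L γ Q) (c : Fin F.n × Fin 3) {a b : ℝ} (ha : 0 < a)
    (h : a • F.e1 c + b • F.e2 c = 0) : False := by
  have hI := affineIndependent_iff.1 (F.indep c.1) Finset.univ
    (fun j => if j = c.2 then -(a + b) else if j = c.2 + 1 then a else b)
  obtain ⟨k, i⟩ := c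
  unfold Fold.e1 Fold.e2 at h
  simp only at h hI
  have hs : ∑ e : Fin 3, (if e = i then -(a + b) else if e = i + 1 then a else b) = 0 := by
    rw [Fin.sum_univ_three]
    fin_cases i <;> simp [Fin.ext_iff]
  have ht : ∑ e : Fin 3, (if e = i then -(a + b) else if e = i + 1 then a else b) • F.V k e = 0 := by
    rw [← h, Fin.sum_univ_three]
    fin_cases i <;> simp [Fin.ext_iff] <;> module
  have := hI hs ht (i + 1) (Finset.mem_univ _)
  fin_cases i <;> simp [Fin.ext_iff] at this <;> linarith

end CovBAux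

open CovBAux

open Classical in
theorem cov_int (F : Fold C L γ Q) {w : E2} (hw : w ∈ interior C)
    (hv : ∀ k, w ∈ tri (F.V k) → ∃ i, F.V k i = w) :
    2 ≤ ∑ c ∈ Finset.univ.filter (fun c : Fin F.n × Fin 3 => F.V c.1 c.2 = w), G2 (F.S2 c) := by
  apply cnt_ge2 G2 _ _ (fun c _ => (S2_open F c).measurableSet)
  filter_upwards [gen_ae F] with u hu
  obtain ⟨hu0, hu⟩ := hu
  obtain ⟨d, hd, hud⟩ := exists_orth hu0
  have e1 : ∀ᶠ t : ℝ in 𝓝 0, w + t • d ∈ interior C := by
    have hc : ContinuousAt (fun t : ℝ => w + t • d) 0 := by fun_prop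
    apply hc.eventually_mem
    simpa using isOpen_interior.mem_nhds hw
  have e2 : ∀ᶠ t : ℝ in 𝓝 0, w - t • d ∈ interior C := by
    have hc : ContinuousAt (fun t : ℝ => w - t • d) 0 := by fun_prop
    apply hc.eventually_mem
    simpa using isOpen_interior.mem_nhds hw
  obtain ⟨ε, ⟨hε1, hε2⟩, hε⟩ : ∃ ε : ℝ, (w + ε • d ∈ interior C ∧ w - ε • d ∈ interior C) ∧ 0 < ε := by
    have h3 : ∀ᶠ t : ℝ in 𝓝[>] 0, w + t • d ∈ interior C ∧ w - t • d ∈ interior C :=
      nhdsWithin_le_nhds (e1.and e2)
    exact (h3.and self_mem_nhdsWithin).exists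
  have hwC := interior_subset hw
  have hεd : ε • d ≠ 0 := smul_ne_zero hε.ne' hd
  obtain ⟨c, hc1, hc2, α, β, hα, hβ, hm⟩ := cov_ray F hwC (interior_subset hε1)
    (by simpa using hεd) hv hu (by simp [inner_smul_right, hud])
  obtain ⟨c', hc1', hc2', α', β', hα', hβ', hm'⟩ := cov_ray F hwC (interior_subset hε2)
    (by simpa [sub_eq_self] using hεd) hv hu (by simp [inner_smul_right, hud])
  refine ⟨c, by simpa using hc1, c', by simpa using hc1', ?_, hc2, hc2'⟩
  rintro rfl
  apply indep_ne F c (a := α + α') (b := β + β') (by positivity)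
  have : (w + ε • d - w) + (w - ε • d - w) = 0 := by abel
  rw [hm, hm'] at this
  rw [← this]
  module

open Classical in
theorem cov_fr (F : Fold C L γ Q) {w : E2} (hw : w ∈ frontier C)
    (hv : ∀ k, w ∈ tri (F.V k) → ∃ i, F.V k i = w) :
    1 ≤ ∑ c ∈ Finset.univ.filter (fun c : Fin F.n × Fin 3 => F.V c.1 c.2 = w), G2 (F.S2 c) +
      G2 (Ext C w) := by
  apply cnt_ge1 G2 _ _ (fun c _ => (S2_open F c).measurableSet) (ext_closed w).measurableSet
  filter_upwards [gen_ae F] with u hu hE
  obtain ⟨hu0, hu⟩ := hu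
  have hCc : IsClosed C := F.region.cpt.isClosed
  have hwC : w ∈ C := hCc.frontier_subset hw
  have hwi : w ∉ interior C := by
    rw [hCc.frontier_eq] at hw
    exact hw.2
  obtain ⟨q, hq⟩ := F.region.int
  have hE' : (∃ p ∈ C, inner ℝ u w < inner ℝ u p) ∧ (∃ p ∈ C, inner ℝ u p < inner ℝ u w) := by
    unfold Ext at hE
    simp only [Set.mem_ofPred_eq, not_or, not_forall, not_le, exists_prop] at hE
    exact hE
  have key : ∃ m ∈ interior C, inner ℝ u (m - w) = 0 := by
    have aux : ∀ p ∈ C, inner ℝ u (q - w) * inner ℝ u (p - w) < 0 →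
        ∃ m ∈ interior C, inner ℝ u (m - w) = 0 := by
      intro p hp hlt
      set A := inner ℝ u (q - w) with hA
      set B := inner ℝ u (p - w) with hB
      have hAB : A - B ≠ 0 := by
        intro h
        have : A = B := by linarith
        rw [this] at hlt
        nlinarith [mul_self_nonneg B]
      -- t = A/(A-B), 1 - t = -B/(A-B)
      have ht1 : 0 < -B / (A - B) := by
        rcases lt_trichotomy A 0 with h | h | h
        · have hB0 : 0 < B := by nlinarith
          exact div_pos_of_neg_of_neg (by linarith) (by linarith)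
        · rw [h] at hlt; simp at hlt
        · have hB0 : B < 0 := by nlinarith
          exact div_pos (by linarith) (by linarith)
      have ht0 : 0 ≤ A / (A - B) := by
        rcases lt_trichotomy A 0 with h | h | h
        · have hB0 : 0 < B := by nlinarith
          exact (div_pos_of_neg_of_neg (by linarith) (by linarith)).le
        · rw [h] at hlt; simp at hlt
        · have hB0 : B < 0 := by nlinarith
          exact (div_pos (by linarith) (by linarith)).le
      have hsum : -B / (A - B) + A / (A - B) = 1 := by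
        field_simp; ring
      refine ⟨(-B / (A - B)) • q + (A / (A - B)) • p,
        F.region.cvx.combo_interior_self_mem_interior hq hp ht1 ht0 hsum, ?_⟩
      have : (-B / (A - B)) • q + (A / (A - B)) • p - w =
          (-B / (A - B)) • (q - w) + (A / (A - B)) • (p - w) := by
        have h4 : w = (-B / (A - B)) • w + (A / (A - B)) • w := by
          rw [← add_smul, hsum, one_smul]
        nth_rw 1 [h4]
        module
      rw [this, inner_add_right, inner_smul_right, inner_smul_right, ← hA, ← hB]
      field_simp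
      ring
    obtain ⟨⟨p, hp, hpl⟩, ⟨p', hp', hpl'⟩⟩ := hE'
    rcases lt_trichotomy (inner ℝ u (q - w)) 0 with h | h | h
    · apply aux p hp
      have : 0 < inner ℝ u (p - w) := by rw [inner_sub_right]; linarith
      nlinarith
    · exact ⟨q, hq, h⟩
    · apply aux p' hp'
      have : inner ℝ u (p' - w) < 0 := by rw [inner_sub_right]; linarith
      nlinarith
  obtain ⟨m, hm, hm0⟩ := key
  have hmw : m ≠ w := by rintro rfl; exact hwi hm
  obtain ⟨c, hc1, hc2, -⟩ := cov_ray F hwC (interior_subset hm) hmw hv hu hm0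
  exact ⟨c, by simpa using hc1, hc2⟩

end Pool.Agent.Lib.FOLD
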