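import Mathlib

/-!
# Library FOLD (MP_0324b4_co): perimeter-halving foldings. Definitions.
Paper: /team-store/0324b4_fold.md.
-/

set_option autoImplicit false

open MeasureTheory Set Filter Topology Metric
open scoped MeasureTheory ENNReal

namespace Pool.Agent.Lib.FOLD

/-- the plane -/
abbrev E2 := EuclideanSpace ℝ (Fin 2)

/-- the space -/
abbrev E3 := EuclideanSpace ℝ (Fin 3)

/-- Convex region: compact convex set in the plane with nonempty interior. -/
structure Region (C : Set E2) : Prop where
  cpt : IsCompact C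
  cvx : Convex ℝ C
  int : (interior C).Nonempty

/-- `γ` on `[0, L]` is the boundary of `C`, parametrised by arc length: it is `1`-Lipschitz, closed, onto
the boundary, and `L` is the perimeter. -/
structure ArcParam (C : Set E2) (L : ℝ) (γ : ℝ → E2) : Prop where
  pos : 0 < L
  lip : LipschitzOnWith 1 γ (Icc 0 L)
  closed : γ L = γ 0
  onto : γ '' Icc 0 L = frontier C
  len : μH[1] (frontier C) = ENNReal.ofReal L

/-- The gluing of the perimeter-halving folding with `x = γ 0` and `y = γ (L / 2)`: the points at the same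
arc length from `x` on the two arcs are identified. -/
def Glued (L : ℝ) (γ : ℝ → E2) (p q : E2) : Prop :=
  ∃ s ∈ Icc (0 : ℝ) L, p = γ s ∧ q = γ (L - s)

/-- the closed triangle with the vertices `V 0`, `V 1`, `V 2` -/
def tri {E : Type*} [AddCommGroup E] [Module ℝ E] (V : Fin 3 → E) : Set E := convexHull ℝ (range V)

/-- A polyhedral folding of the polygon `C` (perimeter-halving gluing at `γ 0`, `γ (L / 2)`) onto the
boundary of the convex polyhedron `Q` with nonempty interior: the polygon is cut into finitely many triangles,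
each triangle is carried by a rigid motion into the boundary of `Q`, the images cover the boundary, exactly
the glued points get the same image, and the images of the triangles meet edge to edge
(a vertex of the triangulation that lies on the image of a triangle is the image of one of its vertices). -/
structure Fold (C : Set E2) (L : ℝ) (γ : ℝ → E2) (Q : Set E3) where
  n : ℕ
  V : Fin n → Fin 3 → E2
  A : Fin n → (E2 →ᵃⁱ[ℝ] E3)
  f : E2 → E3
  region : Region C
  arc : ArcParam C L γ
  inj : InjOn γ (Ico 0 L)
  cpt : IsCompact Q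
  cvx : Convex ℝ Q
  int : (interior Q).Nonempty
  indep : ∀ k, AffineIndependent ℝ (V k)
  cover : (⋃ k, tri (V k)) = C
  disj : ∀ j k, j ≠ k → Disjoint (interior (tri (V j))) (interior (tri (V k)))
  rigid : ∀ k, ∀ p ∈ tri (V k), f p = A k p
  onto : f '' C = frontier Q
  glue : ∀ p ∈ C, ∀ q ∈ C, (f p = f q ↔ p = q ∨ Glued L γ p q)
  edge : ∀ k i j, f (V k i) ∈ f '' tri (V j) → ∃ i', f (V j i') = f (V k i)

/-- `Q` is obtained from the polygon `C` by the perimeter-halving folding at `γ 0`, `γ (L / 2)`. -/
def PLFolding (C : Set E2) (L : ℝ) (γ : ℝ → E2) (Q : Set E3) : Prop := Nonempty (Fold C L γ Q)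

/-- `P` is obtained from the convex region `C` by the perimeter-halving folding at `γ 0`, `γ (L / 2)`: it is
the limit of polyhedral foldings of polygons that converge to `C` together with the parametrised boundary. -/
def Folding (C : Set E2) (L : ℝ) (γ : ℝ → E2) (P : Set E3) : Prop :=
  Region C ∧ ArcParam C L γ ∧ IsCompact P ∧ Convex ℝ P ∧ P.Nonempty ∧
  ∃ (c : ℕ → Set E2) (l : ℕ → ℝ) (g : ℕ → ℝ → E2) (q : ℕ → Set E3),
    (∀ i, PLFolding (c i) (l i) (g i) (q i)) ∧
    Tendsto (fun i => hausdorffDist (c i) C) atTop (𝓝 0) ∧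
    Tendsto l atTop (𝓝 L) ∧
    (∀ ε > 0, ∀ᶠ i in atTop, ∀ t ∈ Icc (0 : ℝ) 1, dist (g i (l i * t)) (γ (L * t)) < ε) ∧
    Tendsto (fun i => hausdorffDist (q i) P) atTop (𝓝 0)

/-- the standard Gaussian measure of the plane -/
noncomputable def G2 : Measure E2 := ProbabilityTheory.stdGaussian E2

/-- the standard Gaussian measure of space -/
noncomputable def G3 : Measure E3 := ProbabilityTheory.stdGaussian E3

/-- the area of the triangle with edge vectors `x`, `y` -/
noncomputable def tar {E : Type*} [NormedAddCommGroup E] [InnerProductSpace ℝ E] (x y : E) : ℝ :=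
  √(‖x‖ ^ 2 * ‖y‖ ^ 2 - inner ℝ x y ^ 2) / 2

/-- determinant of three vectors -/
noncomputable def det3 (a b c : E3) : ℝ :=
  a 0 * (b 1 * c 2 - b 2 * c 1) - a 1 * (b 0 * c 2 - b 2 * c 0) + a 2 * (b 0 * c 1 - b 1 * c 0)

/-- the volume of the regular tetrahedron of surface area `1` -/
noncomputable def vt : ℝ := 1 / √(216 * √3)

namespace Fold

variable {C : Set E2} {L : ℝ} {γ : ℝ → E2} {Q : Set E3} (F : Fold C L γ Q)

/-- the vertices of the triangulation -/
noncomputable def vs : Finset E2 := by
  classical
  exact Finset.univ.image fun c : Fin F.n × Fin 3 => F.V c.1 c.2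

/-- the corner `c`: first edge vector -/
def e1 (c : Fin F.n × Fin 3) : E2 := F.V c.1 (c.2 + 1) - F.V c.1 c.2

/-- the corner `c`: second edge vector -/
def e2 (c : Fin F.n × Fin 3) : E2 := F.V c.1 (c.2 + 2) - F.V c.1 c.2

/-- the directions in the plane for which the corner `c` has a sign change -/
def S2 (c : Fin F.n × Fin 3) : Set E2 := {u | inner ℝ u (F.e1 c) * inner ℝ u (F.e2 c) < 0}

/-- the directions in space for which the image of the corner `c` has a sign change -/
def S3 (c : Fin F.n × Fin 3) : Set E3 :=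
  {u | inner ℝ u (F.f (F.V c.1 (c.2 + 1)) - F.f (F.V c.1 c.2)) *
    inner ℝ u (F.f (F.V c.1 (c.2 + 2)) - F.f (F.V c.1 c.2)) < 0}

end Fold

/-- the directions for which the functional `⟨u, ·⟩` has an extremum over `K` at `v` -/
def Ext {E : Type*} [NormedAddCommGroup E] [InnerProductSpace ℝ E] (K : Set E) (v : E) : Set E :=
  {u | (∀ z ∈ K, inner ℝ u z ≤ inner ℝ u v) ∨ (∀ z ∈ K, inner ℝ u v ≤ inner ℝ u z)}

end Pool.Agent.Lib.FOLD
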