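import Pool.Agent.Lib.FOLD.Defs

/-!
# FOLD.DiQ: a long body with small triangles has small volume (1 h)
PROOF. Choose `p, q ∈ Q` with `dist p q = diam Q = D > 0`, `n0 = (q-p)/D`. For `z ∈ Q` the distance `ρ` of `z` from the line satisfies `tar (q-p) (z-p) = D ρ/2 ≤ A` (`ρ² = ‖z-p‖² - ⟪z-p,n0⟫²`), so `ρ ≤ 2A/D`, and `⟪z-p,n0⟫ ∈ [0,D]`
(`‖z-p‖, ‖z-q‖ ≤ D`). Extend `n0` to an orthonormal basis `n0, n1, n2` of `E3` (`Orthonormal.exists_orthonormalBasis_extension_of_card_eq`); the coordinates of `z - p` are in `[0,D] × [-ρ,ρ] × [-ρ,ρ]`. The coordinate map is measure preserving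
(`OrthonormalBasis.measurePreserving_repr`, `EuclideanSpace.volume_preserving_..`), the box has volume `D (2·2A/D)² = 16A²/D`.
-/

set_option autoImplicit false

open MeasureTheory Set Filter Topology Metric
open scoped MeasureTheory ENNReal

namespace Pool.Agent.Lib.FOLD

namespace DiQAux

open Module

/-- the diameter of a compact set of positive diameter is attained -/
theorem exists_diam {Q : Set E3} (hQ : IsCompact Q) (hD : 0 < diam Q) :
    ∃ p ∈ Q, ∃ q ∈ Q, dist p q = diam Q := by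
  have hne : Q.Nonempty := by
    by_contra h
    rw [not_nonempty_iff_eq_empty] at h
    rw [h, diam_empty] at hD
    exact lt_irrefl _ hD
  obtain ⟨c, hpq, hmax⟩ := (hQ.prod hQ).exists_isMaxOn (hne.prod hne)
    (f := fun x : E3 × E3 => dist x.1 x.2) (by fun_prop)
  rw [isMaxOn_iff] at hmax
  rw [mem_prod] at hpq
  refine ⟨c.1, hpq.1, c.2, hpq.2, le_antisymm (dist_le_diam_of_mem hQ.isBounded hpq.1 hpq.2) ?_⟩
  refine diam_le_of_forall_dist_le dist_nonneg ?_
  intro x hx y hy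
  exact hmax (x, y) (mk_mem_prod hx hy)

/-- an orthonormal basis with a given first vector -/
theorem exists_basis (n : E3) (hn : ‖n‖ = 1) : ∃ b : OrthonormalBasis (Fin 3) ℝ E3, b 0 = n := by
  have hv : Orthonormal ℝ (({0} : Set (Fin 3)).domRestrict (fun _ : Fin 3 => n)) := by
    refine ⟨fun i => hn, fun i j hij => absurd (Subsingleton.elim i j) hij⟩
  obtain ⟨b, hb⟩ := hv.exists_orthonormalBasis_extension_of_card_eq
    (show finrank ℝ E3 = Fintype.card (Fin 3) by simp)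
  exact ⟨b, hb 0 rfl⟩

end DiQAux

theorem vol_le_diam {Q : Set E3} (hQ : IsCompact Q) {A : ℝ}
    (h : ∀ p ∈ Q, ∀ x ∈ Q, ∀ y ∈ Q, tar (x - p) (y - p) ≤ A) (hD : 0 < diam Q) :
    (volume Q).toReal ≤ 16 * A ^ 2 / diam Q := by
  obtain ⟨p, hp, q, hq, hpq⟩ := DiQAux.exists_diam hQ hD
  set D := diam Q with hDdef
  have hA : 0 ≤ A := by
    have h1 := h p hp p hp p hp
    have h2 : (0 : ℝ) ≤ tar (p - p) (p - p) := by unfold tar; positivity
    linarith
  have hn : ‖(1 / D) • (q - p)‖ = 1 := by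
    rw [norm_smul, ← dist_eq_norm, dist_comm, hpq, Real.norm_of_nonneg (by positivity)]
    field_simp
  obtain ⟨b, hb⟩ := DiQAux.exists_basis _ hn
  have hqp : q - p = D • b 0 := by
    rw [hb, smul_smul]
    rw [mul_one_div_cancel hD.ne', one_smul]
  have hnqp : ‖q - p‖ = D := by rw [← dist_eq_norm, dist_comm, hpq]
  -- coordinates
  have key : ∀ z ∈ Q, (0 ≤ b.repr (z - p) 0 ∧ b.repr (z - p) 0 ≤ D) ∧
      (|b.repr (z - p) 1| ≤ 2 * A / D) ∧ (|b.repr (z - p) 2| ≤ 2 * A / D) := by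
    intro z hz
    set w := z - p with hw
    have hnw : ‖w‖ ^ 2 = b.repr w 0 ^ 2 + b.repr w 1 ^ 2 + b.repr w 2 ^ 2 := by
      rw [← b.repr.norm_map w, EuclideanSpace.norm_sq_eq, Fin.sum_univ_three]
      simp
    have hin : inner ℝ (q - p) w = D * b.repr w 0 := by
      rw [hqp, inner_smul_left, b.repr_apply_apply]
      simp
    have hwD : ‖w‖ ≤ D := by
      rw [hw, ← dist_eq_norm]; exact dist_le_diam_of_mem hQ.isBounded hz hp
    have hzq : ‖w - (q - p)‖ ≤ D := by
      have : w - (q - p) = z - q := by rw [hw]; abel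
      rw [this, ← dist_eq_norm]; exact dist_le_diam_of_mem hQ.isBounded hz hq
    have h0 : 0 ≤ b.repr w 0 := by
      have h1 : ‖w - (q - p)‖ ^ 2 = ‖w‖ ^ 2 - 2 * (D * b.repr w 0) + D ^ 2 := by
        rw [norm_sub_sq_real, hnqp, real_inner_comm, hin]
      have h2 : ‖w - (q - p)‖ ^ 2 ≤ D ^ 2 := by gcongr
      have h3 : 0 ≤ ‖w‖ ^ 2 := by positivity
      have h4 : 0 ≤ D * b.repr w 0 := by nlinarith
      exact nonneg_of_mul_nonneg_right h4 hD
    have h0' : b.repr w 0 ≤ D := by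
      have h1 : ‖w‖ ^ 2 ≤ D ^ 2 := by gcongr
      nlinarith [sq_nonneg (b.repr w 1), sq_nonneg (b.repr w 2)]
    have ht := h p hp q hq z hz
    unfold tar at ht
    rw [hnqp, hin, hnw] at ht
    have hrw : D ^ 2 * (b.repr w 0 ^ 2 + b.repr w 1 ^ 2 + b.repr w 2 ^ 2) - (D * b.repr w 0) ^ 2
        = D ^ 2 * (b.repr w 1 ^ 2 + b.repr w 2 ^ 2) := by ring
    rw [hrw] at ht
    have ht2 : √(D ^ 2 * (b.repr w 1 ^ 2 + b.repr w 2 ^ 2)) ≤ 2 * A := by linarith
    have ht3 : D ^ 2 * (b.repr w 1 ^ 2 + b.repr w 2 ^ 2) ≤ (2 * A) ^ 2 :=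
      (Real.sqrt_le_left (by positivity)).1 ht2
    refine ⟨⟨h0, h0'⟩, ?_, ?_⟩
    · rw [le_div_iff₀ hD, ← abs_of_pos hD, ← abs_mul]
      refine abs_le_of_sq_le_sq ?_ (by positivity)
      nlinarith [mul_nonneg (sq_nonneg D) (sq_nonneg (b.repr w 2))]
    · rw [le_div_iff₀ hD, ← abs_of_pos hD, ← abs_mul]
      refine abs_le_of_sq_le_sq ?_ (by positivity)
      nlinarith [mul_nonneg (sq_nonneg D) (sq_nonneg (b.repr w 1))]
  -- the box
  set R := 2 * A / D with hR
  have hR0 : 0 ≤ R := by positivity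
  let lo : Fin 3 → ℝ := ![0, -R, -R]
  let hi : Fin 3 → ℝ := ![D, R, R]
  have hlohi : lo ≤ hi := by
    intro i
    fin_cases i
    · simpa [lo, hi] using hD.le
    · simpa [lo, hi] using (by linarith : -R ≤ R)
    · simpa [lo, hi] using (by linarith : -R ≤ R)
  let Φ : E3 → (Fin 3 → ℝ) := fun z => WithLp.ofLp (b.repr (z - p))
  have hΦ : MeasurePreserving Φ volume volume :=
    (PiLp.volume_preserving_ofLp (Fin 3)).comp
      (b.measurePreserving_repr.comp (measurePreserving_sub_right volume p))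
  have hsub : Q ⊆ Φ ⁻¹' Icc lo hi := by
    intro z hz
    obtain ⟨⟨h1, h2⟩, h3, h4⟩ := key z hz
    rw [abs_le] at h3 h4
    rw [mem_preimage, mem_Icc, Pi.le_def, Pi.le_def]
    constructor
    · intro i
      fin_cases i
      · exact h1
      · exact h3.1
      · exact h4.1
    · intro i
      fin_cases i
      · exact h2
      · exact h3.2
      · exact h4.2
  have hvol : volume (Φ ⁻¹' Icc lo hi) = volume (Icc lo hi) :=
    hΦ.measure_preimage measurableSet_Icc.nullMeasurableSet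
  have hfin : volume (Icc lo hi) ≠ ⊤ := isCompact_Icc.measure_ne_top
  have h1 : (volume Q).toReal ≤ (volume (Icc lo hi)).toReal := by
    rw [← hvol]
    exact ENNReal.toReal_mono (by rw [hvol]; exact hfin) (measure_mono hsub)
  refine h1.trans (le_of_eq ?_)
  rw [Real.volume_Icc_pi_toReal hlohi, Fin.prod_univ_three]
  have e0 : hi 0 - lo 0 = D := by simp [lo, hi]
  have e1 : hi 1 - lo 1 = 2 * R := by simp [lo, hi]; ring
  have e2 : hi 2 - lo 2 = 2 * R := by simp [lo, hi]; ring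
  rw [e0, e1, e2, hR]
  field_simp
  ring

end Pool.Agent.Lib.FOLD
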