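import Pool.Agent.Lib.FOLD.Inn
import Pool.Agent.Lib.FOLD.Bla

/-!
# FOLD.FrC: convergence of the boundaries (0.8 h)
PROOF. `fr_mem`: `z' ∈ K'` (`lim_mem`, `frontier ⊆ K i`). If `z' ∈ interior K'`, let `ball z' r ⊆ K'`; `shrink` with `z0 = z'`, `ε = 1/2`: `ball z' (r/2) ⊆ K i` for large `i` (the image of `ball z' r`), so `z_i ∈ interior (K i)` for large `i`,
contradiction. `fr_exists`: `z' ∈ frontier K'`; `k_i ∈ K i`, `k_i → z'` (`lim_exists`). For every `n` there is `w_n ∉ K'` with `dist w_n z' < 1/n`; for large `i` `w_n ∉ K i` (`infDist w_n K' > 0`, Hausdorff distance small), the segment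
`[k_i, w_n]` meets `frontier (K i)` (connected: `IsPreconnected.inter_frontier_nonempty`..). So `infDist z' (frontier (K i)) → 0` (it is `≤ max(dist k_i z', dist w_n z')`), choose nearest points of the compact nonempty sets `frontier (K i)`.
-/

set_option autoImplicit false

open MeasureTheory Set Filter Topology Metric
open scoped MeasureTheory ENNReal

namespace Pool.Agent.Lib.FOLD

variable {E : Type*} [NormedAddCommGroup E] [InnerProductSpace ℝ E] [FiniteDimensional ℝ E]

namespace FrCAux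

omit [FiniteDimensional ℝ E] in
theorem seg_frontier {K : Set E} (hK : IsClosed K) {k w : E} (hk : k ∈ K) (hw : w ∉ K) :
    ∃ x ∈ segment ℝ k w, x ∈ frontier K := by
  by_contra hcon
  push Not at hcon
  have hS : IsPreconnected (segment ℝ k w) := (convex_segment k w).isPreconnected
  have hsub : segment ℝ k w ⊆ interior K ∪ Kᶜ := by
    intro x hx
    by_cases hxK : x ∈ K
    · left
      by_contra hxi
      refine hcon x hx ?_
      rw [frontier, hK.closure_eq]
      exact ⟨hxK, hxi⟩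
    · exact Or.inr hxK
  have hki : k ∈ interior K := by
    rcases hsub (left_mem_segment ℝ k w) with h | h
    · exact h
    · exact absurd hk h
  obtain ⟨x, _, hx1, hx2⟩ := hS (interior K) Kᶜ isOpen_interior hK.isOpen_compl hsub
    ⟨k, left_mem_segment ℝ k w, hki⟩ ⟨w, right_mem_segment ℝ k w, hw⟩
  exact hx2 (interior_subset hx1)

end FrCAux

theorem fr_mem {K : ℕ → Set E} {K' : Set E} (hc : ∀ i, IsCompact (K i)) (hn : ∀ i, (K i).Nonempty)
    (hv : ∀ i, Convex ℝ (K i)) (hc' : IsCompact K') (hn' : K'.Nonempty) (hv' : Convex ℝ K')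
    (h : Tendsto (fun i => hausdorffDist (K i) K') atTop (𝓝 0)) {z : ℕ → E} {z' : E}
    (hz : ∀ i, z i ∈ frontier (K i)) (hz' : Tendsto z atTop (𝓝 z')) : z' ∈ frontier K' := by
  have h1 : z' ∈ K' := lim_mem hc hn hc' hn' h
    (fun i => (hc i).isClosed.frontier_subset (hz i)) hz'
  rw [frontier, hc'.isClosed.closure_eq]
  refine ⟨h1, fun hint => ?_⟩
  obtain ⟨r, hr0, hr⟩ := Metric.isOpen_iff.1 isOpen_interior z' hint
  have hr' : ball z' r ⊆ K' := hr.trans interior_subset
  have ev1 : ∀ᶠ i in atTop, hausdorffDist (K i) K' < 1 / 2 * r := by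
    have := (tendsto_order.1 h).2 (1 / 2 * r) (by positivity)
    exact this
  have ev2 : ∀ᶠ i in atTop, dist (z i) z' < r / 2 := by
    exact (tendsto_order.1 (tendsto_iff_dist_tendsto_zero.1 hz')).2 (r / 2) (by positivity)
  obtain ⟨i, hi1, hi2⟩ := (ev1.and ev2).exists
  have h2 := shrink hc' hv' (hc i) (hv i) (hn i) hr' hr0 (ε := 1 / 2) (by norm_num) (by norm_num)
    (by rw [hausdorffDist_comm]; exact hi1)
  have h3 : ball z' (r / 2) ⊆ K i := by
    intro y hy
    apply h2
    refine ⟨z' + (2 : ℝ) • (y - z'), hr' ?_, ?_⟩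
    · rw [mem_ball, dist_eq_norm] at hy ⊢
      rw [add_sub_cancel_left, norm_smul, Real.norm_of_nonneg (by norm_num)]
      linarith
    · change z' + (1 - 1 / 2 : ℝ) • (z' + (2 : ℝ) • (y - z') - z') = y
      rw [add_sub_cancel_left, smul_smul]
      norm_num
  have h4 : z i ∈ interior (K i) := interior_maximal h3 isOpen_ball hi2
  exact (hz i).2 h4

theorem fr_exists {K : ℕ → Set E} {K' : Set E} (hc : ∀ i, IsCompact (K i)) (hn : ∀ i, (K i).Nonempty)
    (hc' : IsCompact K') (hn' : K'.Nonempty)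
    (h : Tendsto (fun i => hausdorffDist (K i) K') atTop (𝓝 0)) {z' : E} (hz' : z' ∈ frontier K') :
    ∃ z : ℕ → E, (∀ i, z i ∈ frontier (K i)) ∧ Tendsto z atTop (𝓝 z') := by
  have hfr' : (frontier K').Nonempty := ⟨z', hz'⟩
  have hnt : Nontrivial E := by
    obtain ⟨h1, h2⟩ := nonempty_frontier_iff.1 hfr'
    obtain ⟨x, hx⟩ := h1
    obtain ⟨y, hy⟩ := (ne_univ_iff_exists_notMem K').1 h2
    exact ⟨x, y, fun hxy => hy (hxy ▸ hx)⟩
  have hnc : NoncompactSpace E := NormedSpace.noncompactSpace ℝ E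
  have hfn : ∀ i, (frontier (K i)).Nonempty := by
    intro i
    rw [nonempty_frontier_iff]
    refine ⟨hn i, fun hu => ?_⟩
    have := hc i
    rw [hu] at this
    exact noncompact_univ E this
  have hfc : ∀ i, IsCompact (frontier (K i)) := fun i =>
    (hc i).of_isClosed_subset isClosed_frontier (hc i).isClosed.frontier_subset
  choose z hz1 hz2 using fun i => (hfc i).exists_infDist_eq_dist (hfn i) z'
  refine ⟨z, hz1, ?_⟩
  rw [tendsto_iff_dist_tendsto_zero]
  obtain ⟨k, hk1, hk2⟩ := lim_exists hc hn hc' hn' h (hc'.isClosed.frontier_subset hz')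
  rw [tendsto_order]
  refine ⟨fun a ha => Filter.Eventually.of_forall fun i => lt_of_lt_of_le ha dist_nonneg, ?_⟩
  intro ε hε
  have hw : ∃ w, w ∉ K' ∧ dist w z' < ε := by
    have h1 : z' ∈ closure K'ᶜ := by
      rw [frontier_eq_closure_inter_closure] at hz'
      exact hz'.2
    obtain ⟨w, hw1, hw2⟩ := Metric.mem_closure_iff.1 h1 ε hε
    exact ⟨w, hw1, by rw [dist_comm]; exact hw2⟩
  obtain ⟨w, hw1, hw2⟩ := hw
  have hpos : 0 < infDist w K' := (hc'.isClosed.notMem_iff_infDist_pos hn').1 hw1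
  have ev1 : ∀ᶠ i in atTop, hausdorffDist (K i) K' < infDist w K' := (tendsto_order.1 h).2 _ hpos
  have ev2 : ∀ᶠ i in atTop, dist (k i) z' < ε :=
    (tendsto_order.1 (tendsto_iff_dist_tendsto_zero.1 hk2)).2 ε hε
  filter_upwards [ev1, ev2] with i hi1 hi2
  have hwK : w ∉ K i := by
    intro hwi
    have h1 := infDist_le_hausdorffDist_of_mem hwi
      (hausdorffEDist_ne_top_of_nonempty_of_bounded (hn i) hn' (hc i).isBounded hc'.isBounded)
    linarith
  obtain ⟨x, hx1, hx2⟩ := FrCAux.seg_frontier (hc i).isClosed (hk1 i) hwK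
  have hx3 : x ∈ ball z' ε := (convex_ball z' ε).segment_subset hi2 hw2 hx1
  have h2 : infDist z' (frontier (K i)) ≤ dist z' x := infDist_le_dist_of_mem hx2
  rw [dist_comm, ← hz2 i]
  rw [mem_ball, dist_comm] at hx3
  linarith

end Pool.Agent.Lib.FOLD
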