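import Pool.Agent.Lib.FOLD.Pro

/-!
# FOLD.Fro: the boundary measure is monotone for convex sets (0.7 h)
PROOF. `π` = projection onto `K` (`exists_proj`), `1`-Lipschitz, so `μH[d] (π '' frontier Q) ≤ μH[d] (frontier Q)` (`LipschitzOnWith.hausdorffMeasure_image_le`). `frontier K ⊆ π '' frontier Q`: let `z ∈ frontier K`, `g` from
`exists_normal`. The ray `z + t g` (`t ≥ 0`) starts in `Q` and leaves the bounded set `Q`, so it meets `frontier Q` in a point `x = z + t g`, `t ≥ 0` (the largest `t` with `z + t g ∈ Q`). The nearest point of `K` to `x` is `z`: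
`⟪x - z, k - z⟫ = t⟪g, k-z⟫ ≤ 0` for `k = π x`, and `⟪x - π x, z - π x⟫ ≤ 0`; the sum is `‖z - π x‖² ≤ 0`.
-/

set_option autoImplicit false

open MeasureTheory Set Filter Topology Metric
open scoped MeasureTheory ENNReal

namespace Pool.Agent.Lib.FOLD

variable {E : Type*} [NormedAddCommGroup E] [InnerProductSpace ℝ E] [FiniteDimensional ℝ E]
  [MeasurableSpace E] [BorelSpace E]

namespace FroAux

omit [FiniteDimensional ℝ E] [MeasurableSpace E] [BorelSpace E] in
theorem ray {Q : Set E} (hQ : IsCompact Q) {z g : E} (hz : z ∈ Q) (hg : ‖g‖ = 1) :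
    ∃ t : ℝ, 0 ≤ t ∧ z + t • g ∈ frontier Q := by
  have hcont : Continuous fun t : ℝ => z + t • g := by fun_prop
  obtain ⟨R, hR⟩ := hQ.isBounded.exists_norm_le
  have hS : IsCompact {t : ℝ | 0 ≤ t ∧ z + t • g ∈ Q} := by
    have hsub : {t : ℝ | 0 ≤ t ∧ z + t • g ∈ Q} ⊆ Icc 0 (R + ‖z‖) := by
      rintro t ⟨ht0, htQ⟩
      refine ⟨ht0, ?_⟩
      have h1 : ‖t • g‖ = t := by rw [norm_smul, hg, mul_one, Real.norm_of_nonneg ht0]
      have h2 : t • g = (z + t • g) - z := by abel
      have h3 : ‖(z + t • g) - z‖ ≤ ‖z + t • g‖ + ‖z‖ := norm_sub_le _ _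
      rw [← h2, h1] at h3
      linarith [hR _ htQ]
    refine IsCompact.of_isClosed_subset isCompact_Icc ?_ hsub
    exact (isClosed_Ici (a := (0 : ℝ))).inter (hQ.isClosed.preimage hcont)
  obtain ⟨t, ⟨ht0, htQ⟩, hmax⟩ := hS.exists_isGreatest ⟨0, le_rfl, by simpa using hz⟩
  refine ⟨t, ht0, subset_closure htQ, fun hint => ?_⟩
  have hopen : (fun t : ℝ => z + t • g) ⁻¹' interior Q ∈ 𝓝 t :=
    (isOpen_interior.preimage hcont).mem_nhds hint
  obtain ⟨ε, hε, hball⟩ := Metric.mem_nhds_iff.1 hopen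
  have hmem : t + ε / 2 ∈ ball t ε := by
    rw [mem_ball, Real.dist_eq]
    have : t + ε / 2 - t = ε / 2 := by ring
    rw [this, abs_of_pos (by positivity)]
    linarith
  have h4 : z + (t + ε / 2) • g ∈ Q := interior_subset (hball hmem)
  have h5 := hmax (show t + ε / 2 ∈ {t : ℝ | 0 ≤ t ∧ z + t • g ∈ Q} from ⟨by positivity, h4⟩)
  linarith

end FroAux

theorem frontier_mono {K Q : Set E} (hK : IsCompact K) (hKc : Convex ℝ K) (hn : K.Nonempty)
    (hQ : IsCompact Q) (hKQ : K ⊆ Q) {d : ℝ} (hd : 0 ≤ d) :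
    μH[d] (frontier K) ≤ μH[d] (frontier Q) := by
  obtain ⟨π, hlip, hπK, hπid, hπ⟩ := exists_proj hK.isClosed hKc hn
  have himg : frontier K ⊆ π '' frontier Q := by
    intro z hz
    have hzK : z ∈ K := hK.isClosed.frontier_subset hz
    obtain ⟨g, hg1, hg⟩ := exists_normal hK.isClosed hKc hz
    obtain ⟨t, ht0, ht⟩ := FroAux.ray hQ (hKQ hzK) hg1
    refine ⟨z + t • g, ht, ?_⟩
    set x : E := z + t • g with hx
    have h1 := hπ x z hzK
    have h2 : inner ℝ (x - z) (π x - z) ≤ 0 := by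
      have e : x - z = t • g := by rw [hx]; abel
      rw [e, real_inner_smul_left]
      exact mul_nonpos_of_nonneg_of_nonpos ht0 (hg _ (hπK x))
    have h3 : inner ℝ (z - π x) (z - π x) =
        inner ℝ (x - π x) (z - π x) + inner ℝ (x - z) (π x - z) := by
      have e1 : π x - z = -(z - π x) := by abel
      rw [e1, inner_neg_right, ← sub_eq_add_neg, ← inner_sub_left]
      congr 1
      abel
    have h4 : inner ℝ (z - π x) (z - π x) = (0 : ℝ) :=
      le_antisymm (by linarith) real_inner_self_nonneg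
    have h5 : z - π x = 0 := inner_self_eq_zero.1 h4
    exact (sub_eq_zero.1 h5).symm
  calc μH[d] (frontier K) ≤ μH[d] (π '' frontier Q) := measure_mono himg
    _ ≤ ((1 : NNReal) : ℝ≥0∞) ^ d * μH[d] (frontier Q) := hlip.hausdorffMeasure_image_le hd _
    _ = μH[d] (frontier Q) := by simp

end Pool.Agent.Lib.FOLD
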