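import Pool.Agent.Lib.FOLD.Inn
import Pool.Agent.Lib.FOLD.Fro

/-!
# FOLD.PeC: continuity of the boundary measure (0.8 h)
PROOF. Choose `ball z0 r ⊆ K'`. For `ε ∈ (0,1)` and large `i` `shrink`, `grow` (`K := K'`, `K' := K i`) and `frontier_mono`: the frontier of the homothetic image is the image of the frontier (homeomorphism), scaled measure
`hausdorffMeasure_homothety_image`: `(1-ε)^d μH[d](frontier K') ≤ μH[d](frontier (K i)) ≤ (1+ε)^d μH[d](frontier K')`. The measure of `frontier K'` is finite by assumption. Let `ε → 0`.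
-/

set_option autoImplicit false

open MeasureTheory Set Filter Topology Metric
open scoped MeasureTheory ENNReal

namespace Pool.Agent.Lib.FOLD

variable {E : Type*} [NormedAddCommGroup E] [InnerProductSpace ℝ E] [FiniteDimensional ℝ E]
  [MeasurableSpace E] [BorelSpace E]

namespace PeCAux

/-- homothety as a homeomorphism -/
noncomputable def hom (z0 : E) (c : ℝ) (hc : c ≠ 0) : E ≃ₜ E where
  toFun z := z0 + c • (z - z0)
  invFun z := z0 + c⁻¹ • (z - z0)
  left_inv z := by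
    simp only [add_sub_cancel_left, smul_smul, inv_mul_cancel₀ hc, one_smul]
    abel
  right_inv z := by
    simp only [add_sub_cancel_left, smul_smul, mul_inv_cancel₀ hc, one_smul]
    abel
  continuous_toFun := by fun_prop
  continuous_invFun := by fun_prop

omit [FiniteDimensional ℝ E] in
theorem frontier_image (z0 : E) {c : ℝ} (hc : c ≠ 0) {d : ℝ} (hd : 0 ≤ d) (s : Set E) :
    μH[d] (frontier ((fun z => z0 + c • (z - z0)) '' s)) = ‖c‖₊ ^ d • μH[d] (frontier s) := by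
  have h1 : frontier ((fun z => z0 + c • (z - z0)) '' s) =
      (fun z => z0 + c • (z - z0)) '' frontier s := ((hom z0 c hc).image_frontier s).symm
  have h2 : (fun z => z0 + c • (z - z0)) = ⇑(AffineMap.homothety z0 c) := by
    funext z
    simp [AffineMap.homothety_apply, add_comm]
  rw [h1, h2, hausdorffMeasure_homothety_image hd z0 hc]

omit [FiniteDimensional ℝ E] [MeasurableSpace E] [BorelSpace E] in
theorem convex_image (z0 : E) (c : ℝ) {s : Set E} (hs : Convex ℝ s) :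
    Convex ℝ ((fun z => z0 + c • (z - z0)) '' s) := by
  have h2 : (fun z => z0 + c • (z - z0)) = ⇑(AffineMap.homothety z0 c) := by
    funext z
    simp [AffineMap.homothety_apply, add_comm]
  rw [h2]
  exact hs.affine_image _

theorem tends {d : ℝ} (hd : 0 ≤ d) {m : ℝ≥0∞} (hm : m ≠ ⊤) :
    Tendsto (fun c : ℝ => ‖c‖₊ ^ d • m) (𝓝 1) (𝓝 m) := by
  have h1 : Tendsto (fun c : ℝ => ‖c‖₊ ^ d) (𝓝 1) (𝓝 1) := by
    have h2 : Tendsto (fun c : ℝ => ‖c‖₊) (𝓝 1) (𝓝 1) := by
      have := (continuous_nnnorm (E := ℝ)).tendsto 1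
      simpa using this
    have h3 := (NNReal.continuousAt_rpow_const (x := 1) (y := d) (Or.inr hd)).tendsto
    rw [NNReal.one_rpow] at h3
    exact h3.comp h2
  have h4 : Tendsto (fun c : ℝ => ((‖c‖₊ ^ d : NNReal) : ℝ≥0∞) * m) (𝓝 1) (𝓝 (1 * m)) :=
    ENNReal.Tendsto.mul_const (ENNReal.tendsto_coe.2 h1) (Or.inr hm)
  rw [one_mul] at h4
  exact h4

end PeCAux

open PeCAux in
theorem per_cont {K : ℕ → Set E} {K' : Set E} (hc : ∀ i, IsCompact (K i)) (hn : ∀ i, (K i).Nonempty)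
    (hv : ∀ i, Convex ℝ (K i)) (hc' : IsCompact K') (hi' : (interior K').Nonempty) (hv' : Convex ℝ K')
    (h : Tendsto (fun i => hausdorffDist (K i) K') atTop (𝓝 0)) {d : ℝ} (hd : 0 ≤ d)
    (hfin : μH[d] (frontier K') ≠ ⊤) :
    Tendsto (fun i => μH[d] (frontier (K i))) atTop (𝓝 (μH[d] (frontier K'))) := by
  obtain ⟨z0, hz0⟩ := hi'
  obtain ⟨r, hr0, hr⟩ := Metric.isOpen_iff.1 isOpen_interior z0 hz0
  have hrK : ball z0 r ⊆ K' := hr.trans interior_subset
  have hn' : K'.Nonempty := ⟨z0, interior_subset hz0⟩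
  have hcont : ∀ c : ℝ, Continuous (fun z : E => z0 + c • (z - z0)) := fun c => by fun_prop
  have hev : ∀ ε > 0, ∀ᶠ i in atTop, hausdorffDist (K i) K' < ε * r := fun ε hε =>
    (tendsto_order.1 h).2 _ (mul_pos hε hr0)
  have htend := tends hd hfin
  refine tendsto_order.2 ⟨?_, ?_⟩
  · intro a ha
    have h1 : Tendsto (fun ε : ℝ => 1 - ε) (𝓝[>] 0) (𝓝 1) := by
      have : Tendsto (fun ε : ℝ => 1 - ε) (𝓝 0) (𝓝 (1 - 0)) :=
        (continuous_const.sub continuous_id).tendsto 0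
      rw [sub_zero] at this
      exact this.mono_left nhdsWithin_le_nhds
    have h2 : ∀ᶠ ε : ℝ in 𝓝[>] 0, a < ‖1 - ε‖₊ ^ d • μH[d] (frontier K') :=
      (tendsto_order.1 (htend.comp h1)).1 a ha
    have h3 : ∀ᶠ ε : ℝ in 𝓝[>] 0, ε < 1 := nhdsWithin_le_nhds (Iio_mem_nhds one_pos)
    have h4 : ∀ᶠ ε : ℝ in 𝓝[>] 0, 0 < ε := self_mem_nhdsWithin
    obtain ⟨ε, hε, hε1, hε0⟩ := (h2.and (h3.and h4)).exists
    filter_upwards [hev ε hε0] with i hi
    rw [hausdorffDist_comm] at hi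
    have h5 := shrink hc' hv' (hc i) (hv i) (hn i) hrK hr0 hε0 hε1.le hi
    have h6 := frontier_mono (d := d) (hc'.image (hcont (1 - ε))) (convex_image z0 (1 - ε) hv')
      (hn'.image _) (hc i) h5 hd
    rw [frontier_image z0 (by linarith : (1 - ε) ≠ 0) hd] at h6
    exact lt_of_lt_of_le hε h6
  · intro b hb
    have h1 : Tendsto (fun ε : ℝ => 1 + ε) (𝓝[>] 0) (𝓝 1) := by
      have : Tendsto (fun ε : ℝ => 1 + ε) (𝓝 0) (𝓝 (1 + 0)) :=
        (continuous_const.add continuous_id).tendsto 0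
      rw [add_zero] at this
      exact this.mono_left nhdsWithin_le_nhds
    have h2 : ∀ᶠ ε : ℝ in 𝓝[>] 0, ‖1 + ε‖₊ ^ d • μH[d] (frontier K') < b :=
      (tendsto_order.1 (htend.comp h1)).2 b hb
    have h4 : ∀ᶠ ε : ℝ in 𝓝[>] 0, 0 < ε := self_mem_nhdsWithin
    obtain ⟨ε, hε, hε0⟩ := (h2.and h4).exists
    filter_upwards [hev ε hε0] with i hi
    rw [hausdorffDist_comm] at hi
    have h5 := grow hc' hv' (hc i) (hn i) hrK hr0 hε0 hi
    have h6 := frontier_mono (d := d) (hc i) (hv i) (hn i)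
      (hc'.image (hcont (1 + ε))) h5 hd
    rw [frontier_image z0 (by linarith : (1 + ε) ≠ 0) hd] at h6
    exact lt_of_le_of_lt h6 hε

end Pool.Agent.Lib.FOLD
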