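import Pool.Agent.Lib.FOLD.Inn

/-!
# FOLD.VoC: continuity of the volume on convex bodies (0.8 h)
PROOF. If `interior K'` is nonempty choose `ball z0 r ⊆ K'`; for `ε ∈ (0,1)` and large `i` (`hausdorffDist` is symmetric) `shrink` and `grow` (with `K := K'`, `K' := K i`) give `(1-ε)^n vol K' ≤ vol (K i) ≤ (1+ε)^n vol K'`, `n = finrank`
(`Measure.addHaar_image_homothety`-type lemma; `volume K' < ∞`). If `interior K' = ∅` then `volume K' = 0` (`Convex.addHaar_frontier`, `K' ⊆ frontier K'` closed) and `K i ⊆ cthickening ε K'` eventually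
(`hausdorffDist < ε`), `volume (cthickening ε K') → volume K' = 0` (`tendsto_measure_cthickening_of_isClosed`/`..isCompact`).
-/

set_option autoImplicit false

open MeasureTheory Set Filter Topology Metric
open scoped MeasureTheory ENNReal

namespace Pool.Agent.Lib.FOLD

variable {E : Type*} [NormedAddCommGroup E] [InnerProductSpace ℝ E] [FiniteDimensional ℝ E]
  [MeasurableSpace E] [BorelSpace E]

namespace VoCAux

/-- the measure of a scaled copy -/
theorem vol_scale (z0 : E) {c : ℝ} (hc : 0 ≤ c) (s : Set E) :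
    volume ((fun z => z0 + c • (z - z0)) '' s) =
      ENNReal.ofReal (c ^ Module.finrank ℝ E) * volume s := by
  have h : (fun z => z0 + c • (z - z0)) = ⇑(AffineMap.homothety z0 c) := by
    funext z
    rw [AffineMap.homothety_apply, vsub_eq_sub, vadd_eq_add, add_comm]
  rw [h, Measure.addHaar_image_homothety, abs_of_nonneg (pow_nonneg hc _)]

theorem tends_scale {v : ℝ≥0∞} (n : ℕ) (σ : ℝ) :
    Tendsto (fun ε : ℝ => ENNReal.ofReal ((1 + σ * ε) ^ n) * v) (𝓝 0) (𝓝 v) := by
  have h1 : Tendsto (fun ε : ℝ => (1 + σ * ε) ^ n) (𝓝 0) (𝓝 1) := by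
    have hc : Continuous fun ε : ℝ => (1 + σ * ε) ^ n := by fun_prop
    have := hc.tendsto 0
    simpa using this
  have h2 : Tendsto (fun ε : ℝ => ENNReal.ofReal ((1 + σ * ε) ^ n)) (𝓝 0) (𝓝 1) := by
    have := (ENNReal.continuous_ofReal.tendsto 1).comp h1
    rw [ENNReal.ofReal_one] at this
    exact this
  have h3 := ENNReal.Tendsto.mul_const (b := v) h2 (Or.inl one_ne_zero)
  simpa using h3

end VoCAux

open VoCAux in
theorem vol_cont {K : ℕ → Set E} {K' : Set E} (hc : ∀ i, IsCompact (K i)) (hn : ∀ i, (K i).Nonempty)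
    (hv : ∀ i, Convex ℝ (K i)) (hc' : IsCompact K') (hn' : K'.Nonempty) (hv' : Convex ℝ K')
    (h : Tendsto (fun i => hausdorffDist (K i) K') atTop (𝓝 0)) :
    Tendsto (fun i => volume (K i)) atTop (𝓝 (volume K')) := by
  by_cases hint : (interior K').Nonempty
  · obtain ⟨z0, hz0⟩ := hint
    obtain ⟨r, hr0, hr⟩ := Metric.isOpen_iff.1 isOpen_interior z0 hz0
    have hr' : ball z0 r ⊆ K' := hr.trans interior_subset
    have key : ∀ ε : ℝ, 0 < ε → ε < 1 → ∀ᶠ i in atTop,
        ENNReal.ofReal ((1 + (-1) * ε) ^ Module.finrank ℝ E) * volume K' ≤ volume (K i) ∧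
        volume (K i) ≤ ENNReal.ofReal ((1 + 1 * ε) ^ Module.finrank ℝ E) * volume K' := by
      intro ε h0 h1
      have hev := (tendsto_order.1 h).2 (ε * r) (mul_pos h0 hr0)
      filter_upwards [hev] with i hi
      rw [hausdorffDist_comm] at hi
      constructor
      · rw [← vol_scale z0 (by linarith)]
        refine measure_mono ?_
        have := shrink hc' hv' (hc i) (hv i) (hn i) hr' hr0 h0 h1.le hi
        rwa [show (1 + (-1) * ε : ℝ) = 1 - ε by ring]
      · rw [← vol_scale z0 (by linarith)]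
        refine measure_mono ?_
        have := grow hc' hv' (hc i) (hn i) hr' hr0 h0 hi
        rwa [one_mul]
    refine tendsto_order.2 ⟨fun a ha => ?_, fun a ha => ?_⟩
    · have h1 := (tends_scale (v := volume K') (Module.finrank ℝ E) (-1)).mono_left
        (nhdsWithin_le_nhds (s := Ioi (0 : ℝ)))
      have h2 := ((tendsto_order.1 h1).1 a ha).and
        ((self_mem_nhdsWithin : Ioi (0 : ℝ) ∈ 𝓝[>] (0 : ℝ)))
      have h3 := h2.and (nhdsWithin_le_nhds (Iio_mem_nhds (zero_lt_one (α := ℝ))))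
      obtain ⟨ε, ⟨hε, hε0⟩, hε1⟩ := h3.exists
      filter_upwards [key ε hε0 hε1] with i hi
      exact hε.trans_le hi.1
    · have h1 := (tends_scale (v := volume K') (Module.finrank ℝ E) 1).mono_left
        (nhdsWithin_le_nhds (s := Ioi (0 : ℝ)))
      have h2 := ((tendsto_order.1 h1).2 a ha).and
        ((self_mem_nhdsWithin : Ioi (0 : ℝ) ∈ 𝓝[>] (0 : ℝ)))
      have h3 := h2.and (nhdsWithin_le_nhds (Iio_mem_nhds (zero_lt_one (α := ℝ))))
      obtain ⟨ε, ⟨hε, hε0⟩, hε1⟩ := h3.exists
      filter_upwards [key ε hε0 hε1] with i hi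
      exact hi.2.trans_lt hε
  · rw [not_nonempty_iff_eq_empty] at hint
    have hz : volume K' = 0 := by
      have h1 := hv'.addHaar_frontier volume
      rwa [hc'.isClosed.frontier_eq, hint, sdiff_empty] at h1
    rw [hz]
    refine tendsto_order.2 ⟨fun a ha => absurd ha not_lt_zero, fun a ha => ?_⟩
    have h1 := (tendsto_measure_cthickening_of_isCompact (μ := (volume : Measure E)) hc').mono_left
        (nhdsWithin_le_nhds (s := Ioi (0 : ℝ)))
    rw [hz] at h1
    obtain ⟨ε, hε, hε0⟩ := (((tendsto_order.1 h1).2 a ha).and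
      (self_mem_nhdsWithin : Ioi (0 : ℝ) ∈ 𝓝[>] (0 : ℝ))).exists
    filter_upwards [(tendsto_order.1 h).2 ε hε0] with i hi
    refine (measure_mono ?_).trans_lt hε
    intro x hx
    obtain ⟨y, hy, hxy⟩ := exists_dist_lt_of_hausdorffDist_lt hx hi
      (hausdorffEDist_ne_top_of_nonempty_of_bounded (hn i) hn' (hc i).isBounded hc'.isBounded)
    exact thickening_subset_cthickening _ _ (mem_thickening_iff.2 ⟨y, hy, hxy⟩)

end Pool.Agent.Lib.FOLD
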