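import Pool.Agent.Lib.FOLD.FrE
import Pool.Agent.Lib.FOLD.PeC
import Pool.Agent.Lib.FOLD.FrC
import Pool.Agent.Lib.FOLD.VoC
import Pool.Agent.Lib.FOLD.Arz

/-!
# FOLD.Dir: the folding map of a general folding (1.3 h)
PROOF. `Folding C L γ P` with sequences `c, l, g, q` and `F i : Fold ..`. All `c i`, `C` are in one ball `closedBall 0 R` and all `q i` in one ball of `E3` (bounded limits). Let `π i` be the projection onto `c i` (`exists_proj`); `h i = F_i.f ∘ π i : E2 → E3` is `1`-Lipschitz (`f_lip`), equal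
to `F_i.f` on `c i`, values in `frontier (q i)`. `arzela` on `S = closedBall 0 R`: a subsequence converges uniformly on `S` to `h'`, `1`-Lipschitz on `S`; let `f = h' ∘ π` with `π` the projection onto `C ⊆ S` (or onto `S`). `f '' C ⊆ frontier P`: for `p ∈ C` take `p_i ∈ c i → p` (`lim_exists`),
`h i p_i ∈ frontier (q i)`, `→ f p` (`fr_mem`). `⊇`: `z ∈ frontier P`, `z_i ∈ frontier (q i) → z` (`fr_exists`), `z_i = F_i.f p_i`, `p_i ∈ c i ⊆ S`, subsequence `p_i → p ∈ C` (`lim_mem`), `f p = z`. Gluing: `s = L t`: `F_i.f (g i (l i t)) = F_i.f (g i (l i (1 - t)))` (`glue`), pass to the limit.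
Area: `μH[2] (frontier P) ≤ μH[2] C < ∞` (Lipschitz image, `haus_two`), so by `per_cont` (`d = 2`) `μH[2] (frontier (q i)) → μH[2] (frontier P)`; it equals `μH[2] (c i) = c₀ volume (c i)` (`front_eq`, `haus_two`) `→ c₀ volume C` (`vol_cont`).
-/

set_option autoImplicit false

open MeasureTheory Set Filter Topology Metric
open scoped MeasureTheory ENNReal

namespace Pool.Agent.Lib.FOLD

namespace DirAux

/-- a sequence of bounded sets at bounded Hausdorff distance from a bounded set is bounded -/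
theorem bdd {E : Type*} [NormedAddCommGroup E] {K : ℕ → Set E} {K' : Set E}
    (hc : ∀ i, IsCompact (K i)) (hn : ∀ i, (K i).Nonempty) (hc' : IsCompact K') (hn' : K'.Nonempty)
    (h : Tendsto (fun i => hausdorffDist (K i) K') atTop (𝓝 0)) :
    ∃ R : ℝ, 0 ≤ R ∧ K' ⊆ closedBall 0 R ∧ ∀ i, K i ⊆ closedBall 0 R := by
  obtain ⟨M, hM⟩ := h.bddAbove_range
  obtain ⟨R0, hR0⟩ := hc'.isBounded.subset_closedBall (0 : E)
  have hM' : ∀ i, hausdorffDist (K i) K' ≤ M := fun i => hM ⟨i, rfl⟩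
  refine ⟨max (R0 + (M + 1)) (max R0 0), le_max_of_le_right (le_max_right _ _), ?_, ?_⟩
  · exact hR0.trans (closedBall_subset_closedBall (le_max_of_le_right (le_max_left _ _)))
  · intro i x hx
    have hfin : hausdorffEDist (K i) K' ≠ ⊤ :=
      hausdorffEDist_ne_top_of_nonempty_of_bounded (hn i) hn' (hc i).isBounded hc'.isBounded
    obtain ⟨y, hy, hxy⟩ := exists_dist_lt_of_hausdorffDist_lt hx
      (lt_of_le_of_lt (hM' i) (lt_add_one M)) hfin
    have hy' := hR0 hy
    rw [mem_closedBall] at hy' ⊢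
    have := dist_triangle x y 0
    exact le_max_of_le_left (by linarith)

end DirAux

theorem direct_map {C : Set E2} {L : ℝ} {γ : ℝ → E2} {P : Set E3} (h : Folding C L γ P)
    (hi : (interior P).Nonempty) : ∃ f : E2 → E3, LipschitzWith 1 f ∧ f '' C = frontier P ∧
      (∀ s ∈ Icc (0 : ℝ) L, f (γ s) = f (γ (L - s))) ∧ μH[2] (frontier P) = μH[2] C := by
  obtain ⟨hC, hγ, hP, hPc, hPn, c, l, g, q, hF, h1, h2, h3, h4⟩ := h
  have F : ∀ i, Fold (c i) (l i) (g i) (q i) := fun i => (hF i).some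
  have hcc : ∀ i, IsCompact (c i) := fun i => (F i).region.cpt
  have hcn : ∀ i, (c i).Nonempty := fun i => (F i).region.int.mono interior_subset
  have hcv : ∀ i, Convex ℝ (c i) := fun i => (F i).region.cvx
  have hCn : C.Nonempty := hC.int.mono interior_subset
  have hqc : ∀ i, IsCompact (q i) := fun i => (F i).cpt
  have hqn : ∀ i, (q i).Nonempty := fun i => (F i).int.mono interior_subset
  have hqv : ∀ i, Convex ℝ (q i) := fun i => (F i).cvx
  obtain ⟨R, hR0, hCR, hcR⟩ := DirAux.bdd hcc hcn hC.cpt hCn h1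
  obtain ⟨R', hR0', hPR, hqR⟩ := DirAux.bdd hqc hqn hP hPn h4
  have hpr : ∀ i, ∃ π : E2 → E2, LipschitzWith 1 π ∧ (∀ z, π z ∈ c i) ∧ ∀ z ∈ c i, π z = z := by
    intro i
    obtain ⟨π, a1, a2, a3, _⟩ := exists_proj (hcc i).isClosed (hcv i) (hcn i)
    exact ⟨π, a1, a2, a3⟩
  choose π hπ1 hπ2 hπ3 using hpr
  set hh : ℕ → E2 → E3 := fun i z => (F i).f (π i z) with hhh
  have hhL : ∀ i, LipschitzWith 1 (hh i) := by
    intro i
    apply LipschitzWith.of_dist_le_mul
    intro x y
    have b1 := (f_lip (F i)).dist_le_mul _ (hπ2 i x) _ (hπ2 i y)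
    have b2 := (hπ1 i).dist_le_mul x y
    simp only [NNReal.coe_one, one_mul] at b1 b2 ⊢
    exact b1.trans b2
  have hfr : ∀ i, ∀ z ∈ c i, (F i).f z ∈ frontier (q i) := by
    intro i z hz
    rw [← (F i).onto]
    exact mem_image_of_mem _ hz
  have hhb : ∀ i, ∀ x ∈ closedBall (0 : E2) R, hh i x ∈ closedBall (0 : E3) R' := by
    intro i x _
    exact hqR i ((hqc i).isClosed.frontier_subset (hfr i _ (hπ2 i x)))
  obtain ⟨φ, h', hφ, hL', hun⟩ := arzela (isCompact_closedBall (0 : E2) R)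
    (fun i => (hhL i).lipschitzOnWith) hhb
  obtain ⟨π', p1, p2, p3, _⟩ := exists_proj (isClosed_closedBall (x := (0 : E2)) (ε := R))
    (convex_closedBall (0 : E2) R) ⟨0, by simpa using hR0⟩
  have hφt := hφ.tendsto_atTop
  -- convergence along a sequence
  have conv : ∀ (ψ : ℕ → ℕ), Tendsto ψ atTop atTop → ∀ (x : ℕ → E2) (y : E2),
      (∀ i, x i ∈ c (φ (ψ i))) → y ∈ closedBall (0 : E2) R → Tendsto x atTop (𝓝 y) →
      Tendsto (fun i => (F (φ (ψ i))).f (x i)) atTop (𝓝 (h' (π' y))) := by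
    intro ψ hψ x y hx hy hxy
    rw [p3 y hy]
    have e1 : ∀ i, (F (φ (ψ i))).f (x i) = hh (φ (ψ i)) (x i) := by
      intro i
      show _ = (F (φ (ψ i))).f (π (φ (ψ i)) (x i))
      rw [hπ3 _ _ (hx i)]
    simp only [e1]
    rw [Metric.tendsto_atTop]
    intro ε hε
    obtain ⟨N1, hN1⟩ := (Metric.tendsto_atTop.1 hxy) (ε / 2) (half_pos hε)
    obtain ⟨N2, hN2⟩ := eventually_atTop.1 (hψ.eventually (hun (ε / 2) (half_pos hε)))
    refine ⟨max N1 N2, fun n hn => ?_⟩
    have c1 := hN1 n (le_trans (le_max_left _ _) hn)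
    have c2 := hN2 n (le_trans (le_max_right _ _) hn) y hy
    have c3 := (hhL (φ (ψ n))).dist_le_mul (x n) y
    simp only [NNReal.coe_one, one_mul] at c3
    have c4 := dist_triangle (hh (φ (ψ n)) (x n)) (hh (φ (ψ n)) y) (h' y)
    linarith
  have hcφ := h1.comp hφt
  have hqφ := h4.comp hφt
  have hfC : (fun y => h' (π' y)) '' C = frontier P := by
    apply Subset.antisymm
    · rintro _ ⟨p, hp, rfl⟩
      obtain ⟨z, hz1, hz2⟩ := lim_exists (K := fun i => c (φ i)) (fun i => hcc (φ i))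
        (fun i => hcn (φ i)) hC.cpt hCn hcφ hp
      exact fr_mem (K := fun i => q (φ i)) (fun i => hqc (φ i)) (fun i => hqn (φ i))
        (fun i => hqv (φ i)) hP hPn hPc hqφ (fun i => hfr (φ i) _ (hz1 i))
        (conv id tendsto_id z p hz1 (hCR hp) hz2)
    · intro z hz
      obtain ⟨y, hy1, hy2⟩ := fr_exists (K := fun i => q (φ i)) (fun i => hqc (φ i))
        (fun i => hqn (φ i)) hP hPn hqφ hz
      have hex : ∀ i, ∃ p ∈ c (φ i), (F (φ i)).f p = y i := by
        intro i
        have := hy1 i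
        rw [← (F (φ i)).onto] at this
        exact this
      choose p hp1 hp2 using hex
      obtain ⟨p', hp', ψ, hψ, hlim⟩ := (isCompact_closedBall (0 : E2) R).tendsto_subseq
        (fun i => hcR (φ i) (hp1 i))
      have hψt := hψ.tendsto_atTop
      have hpC : p' ∈ C := lim_mem (K := fun i => c (φ (ψ i))) (fun i => hcc _) (fun i => hcn _)
        hC.cpt hCn (hcφ.comp hψt) (fun i => hp1 (ψ i)) hlim
      refine ⟨p', hpC, ?_⟩
      have l1 := conv ψ hψt (p ∘ ψ) p' (fun i => hp1 (ψ i)) hp' hlim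
      have l2 : Tendsto (fun i => (F (φ (ψ i))).f ((p ∘ ψ) i)) atTop (𝓝 z) := by
        have : (fun i => (F (φ (ψ i))).f ((p ∘ ψ) i)) = y ∘ ψ := by
          funext i
          exact hp2 (ψ i)
        rw [this]
        exact hy2.comp hψt
      exact tendsto_nhds_unique l1 l2
  refine ⟨fun y => h' (π' y), ?_, hfC, ?_, ?_⟩
  · apply LipschitzWith.of_dist_le_mul
    intro x y
    have b1 := hL'.dist_le_mul _ (p2 x) _ (p2 y)
    have b2 := p1.dist_le_mul x y
    simp only [NNReal.coe_one, one_mul] at b1 b2 ⊢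
    exact b1.trans b2
  · intro s hs
    have hLp := hγ.pos
    set t := s / L with ht
    have ht0 : 0 ≤ t := div_nonneg hs.1 hLp.le
    have ht1 : t ≤ 1 := (div_le_one hLp).2 hs.2
    have hs1 : γ s = γ (L * t) := by
      rw [ht]
      congr 1
      field_simp
    have hs2 : γ (L - s) = γ (L * (1 - t)) := by
      rw [ht]
      congr 1
      field_simp
    have hg : ∀ i, ∀ t ∈ Icc (0 : ℝ) 1, g i (l i * t) ∈ c i := by
      intro i t ht
      have hl := (F i).arc.pos
      apply (hcc i).isClosed.frontier_subset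
      rw [← (F i).arc.onto]
      exact mem_image_of_mem _ ⟨mul_nonneg hl.le ht.1, mul_le_of_le_one_right hl.le ht.2⟩
    have htend : ∀ t ∈ Icc (0 : ℝ) 1,
        Tendsto (fun i => g (φ i) (l (φ i) * t)) atTop (𝓝 (γ (L * t))) := by
      intro t ht
      rw [Metric.tendsto_atTop]
      intro ε hε
      obtain ⟨N, hN⟩ := eventually_atTop.1 (hφt.eventually (h3 ε hε))
      exact ⟨N, fun n hn => hN n hn t ht⟩
    have hfro : ∀ s ∈ Icc (0 : ℝ) L, γ s ∈ closedBall (0 : E2) R := by
      intro s hs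
      apply hCR
      apply hC.cpt.isClosed.frontier_subset
      rw [← hγ.onto]
      exact mem_image_of_mem _ hs
    have hIt : t ∈ Icc (0 : ℝ) 1 := ⟨ht0, ht1⟩
    have hIt' : 1 - t ∈ Icc (0 : ℝ) 1 := ⟨by linarith, by linarith⟩
    have m1 : L * t ∈ Icc (0 : ℝ) L := ⟨mul_nonneg hLp.le hIt.1, mul_le_of_le_one_right hLp.le hIt.2⟩
    have m2 : L * (1 - t) ∈ Icc (0 : ℝ) L :=
      ⟨mul_nonneg hLp.le hIt'.1, mul_le_of_le_one_right hLp.le hIt'.2⟩
    have l1 := conv id tendsto_id _ _ (fun i => hg (φ i) t hIt) (hfro _ m1) (htend t hIt)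
    have l2 := conv id tendsto_id _ _ (fun i => hg (φ i) _ hIt') (hfro _ m2) (htend _ hIt')
    show h' (π' (γ s)) = h' (π' (γ (L - s)))
    rw [hs1, hs2]
    refine tendsto_nhds_unique l1 ?_
    refine l2.congr (fun i => ?_)
    symm
    refine ((F (φ i)).glue _ (hg _ t hIt) _ (hg _ _ hIt')).2 (Or.inr ?_)
    have hl := (F (φ i)).arc.pos
    refine ⟨l (φ i) * t, ⟨mul_nonneg hl.le ht0, mul_le_of_le_one_right hl.le ht1⟩, rfl, ?_⟩
    congr 1
    show l (φ i) * (1 - t) = l (φ i) - l (φ i) * t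
    ring
  · obtain ⟨c₀, k1, k2, k3, _⟩ := haus_two
    have hCfin : μH[2] C ≠ ⊤ := by
      rw [k3]
      exact ENNReal.mul_ne_top k2 hC.cpt.measure_lt_top.ne
    have hlip : LipschitzOnWith 1 (fun y => h' (π' y)) C := by
      apply LipschitzOnWith.of_dist_le_mul
      intro x _ y _
      have b1 := hL'.dist_le_mul _ (p2 x) _ (p2 y)
      have b2 := p1.dist_le_mul x y
      simp only [NNReal.coe_one, one_mul] at b1 b2 ⊢
      exact b1.trans b2
    have hle : μH[2] (frontier P) ≤ μH[2] C := by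
      rw [← hfC]
      have := hlip.hausdorffMeasure_image_le (d := 2) (by norm_num)
      simpa using this
    have t1 := per_cont hqc hqn hqv hP hi hPc h4 (d := 2) (by norm_num)
      (ne_top_of_le_ne_top hCfin hle)
    have t2 : Tendsto (fun i => μH[2] (frontier (q i))) atTop (𝓝 (μH[2] C)) := by
      have t3 := vol_cont hcc hcn hcv hC.cpt hCn hC.cvx h1
      have t4 := ENNReal.Tendsto.const_mul (a := c₀) t3 (Or.inr k2)
      rw [← k3] at t4
      refine t4.congr (fun i => ?_)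
      rw [front_eq (F i), k3]
    exact tendsto_nhds_unique t1 t2

end Pool.Agent.Lib.FOLD
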