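import Pool.Agent.Lib.FOLD.Defs

/-!
# FOLD.ExD: the folding of the 1 × 3 rectangle, definitions
The rectangle `[0,3] × [0,1]`, `x = (1,1)`, `y = (2,0)`; six right isosceles triangles; the polyhedron is the triangular bipyramid with apexes `A = 0`, `D = (2/3,2/3,2/3)` over the triangle of the unit vectors.
Images: `A = (0,1), (2,1)`; `D = (1,0), (3,0)`; `e_0 = (1,1)` (= x); `e_1 = (0,0), (3,1)`; `e_2 = (2,0)` (= y).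
-/

set_option autoImplicit false

open MeasureTheory Set Filter Topology Metric
open scoped MeasureTheory ENNReal

namespace Pool.Agent.Lib.FOLD

/-- the rectangle -/
def rC : Set E2 := {p | 0 ≤ p 0 ∧ p 0 ≤ 3 ∧ 0 ≤ p 1 ∧ p 1 ≤ 1}

/-- the boundary of the rectangle, starting at `(1,1)` to the right -/
noncomputable def rg (s : ℝ) : E2 :=
  if s ≤ 2 then !₂[1 + s, 1] else if s ≤ 3 then !₂[3, 3 - s] else if s ≤ 6 then !₂[6 - s, 0]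
  else if s ≤ 7 then !₂[0, s - 6] else !₂[s - 7, 1]

/-- the bipyramid -/
def rQ : Set E3 := {z | 0 ≤ z 0 ∧ 0 ≤ z 1 ∧ 0 ≤ z 2 ∧ 2 * z 0 + 2 * z 1 - z 2 ≤ 2 ∧
  2 * z 0 + 2 * z 2 - z 1 ≤ 2 ∧ 2 * z 1 + 2 * z 2 - z 0 ≤ 2}

/-- the vertices of the six triangles -/
noncomputable def rV : Fin 6 → Fin 3 → E2 :=
  ![![!₂[0, 1], !₂[0, 0], !₂[1, 1]], ![!₂[1, 0], !₂[0, 0], !₂[1, 1]], ![!₂[1, 0], !₂[1, 1], !₂[2, 0]],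
    ![!₂[2, 1], !₂[1, 1], !₂[2, 0]], ![!₂[2, 1], !₂[3, 1], !₂[2, 0]], ![!₂[3, 0], !₂[2, 0], !₂[3, 1]]]

/-- the six triangles by inequalities -/
def rT : Fin 6 → Set E2 :=
  ![{p | 0 ≤ p 0 ∧ p 0 ≤ p 1 ∧ p 1 ≤ 1}, {p | 0 ≤ p 1 ∧ p 1 ≤ p 0 ∧ p 0 ≤ 1},
    {p | 1 ≤ p 0 ∧ 0 ≤ p 1 ∧ p 0 + p 1 ≤ 2}, {p | p 0 ≤ 2 ∧ p 1 ≤ 1 ∧ 2 ≤ p 0 + p 1},
    {p | 2 ≤ p 0 ∧ p 1 ≤ 1 ∧ p 0 - p 1 ≤ 2}, {p | p 0 ≤ 3 ∧ 0 ≤ p 1 ∧ 2 ≤ p 0 - p 1}]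

/-- the six rigid motions -/
noncomputable def rM : Fin 6 → E2 → E3 :=
  ![fun p => !₂[p 0, 1 - p 1, 0],
    fun p => !₂[(2 * p 0 + p 1) / 3, (3 - p 0 - 2 * p 1) / 3, (2 * p 0 - 2 * p 1) / 3],
    fun p => !₂[(4 - 2 * p 0 + p 1) / 3, (4 - 2 * p 0 - 2 * p 1) / 3, (1 + p 0 - 2 * p 1) / 3],
    fun p => !₂[2 - p 0, 0, 1 - p 1],
    fun p => !₂[0, p 0 - 2, 1 - p 1],
    fun p => !₂[(2 * p 0 - 4 - 2 * p 1) / 3, (2 * p 0 - 4 + p 1) / 3, (5 - p 0 - 2 * p 1) / 3]]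

open Classical in
/-- the folding map -/
noncomputable def rf (p : E2) : E3 :=
  if p ∈ rT 0 then rM 0 p else if p ∈ rT 1 then rM 1 p else if p ∈ rT 2 then rM 2 p else
  if p ∈ rT 3 then rM 3 p else if p ∈ rT 4 then rM 4 p else rM 5 p

end Pool.Agent.Lib.FOLD
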