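import Pool.Agent.Lib.FOLD.ExD

/-!
# FOLD.ExF: the triangulation of the rectangle and the rigid motions (1.2 h)
PROOF. Direct. `rT_eq`: `convexHull` of three points, barycentric coordinates are explicit linear functions. `rV_indep`: the difference vectors are linearly independent (`affineIndependent_iff_linearIndependent_vsub` or the determinant). `rT_disj`: strict inequalities on the
interiors (the interior of `{p | ℓ p ≤ c}` is `{p | ℓ p < c}`; it suffices that two triangles lie on different sides of a line). `rM_iso`: each `rM k` is affine with orthonormal linear part: `dist (rM k p) (rM k q) = dist p q`; build the `AffineIsometry` from the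
linear isometry. `rf_eq`: on overlaps the formulas agree.
-/

set_option autoImplicit false

open MeasureTheory Set Filter Topology Metric
open scoped MeasureTheory ENNReal

namespace Pool.Agent.Lib.FOLD

namespace ExFAux

theorem tri_mem {V : Fin 3 → E2} {p : E2} (a b c : ℝ) (ha : 0 ≤ a) (hb : 0 ≤ b) (hc : 0 ≤ c)
    (h : a + b + c = 1) (hp : a • V 0 + b • V 1 + c • V 2 = p) : p ∈ tri V := by
  have h1 : ∑ i : Fin 3, (![a, b, c] i) • V i ∈ convexHull ℝ (range V) := by
    apply (convex_convexHull ℝ (range V)).sum_mem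
    · intro i _
      fin_cases i <;> simpa
    · simp [Fin.sum_univ_three, h]
    · intro i _
      exact subset_convexHull ℝ _ (mem_range_self i)
  rw [Fin.sum_univ_three] at h1
  have h2 : a • V 0 + b • V 1 + c • V 2 ∈ convexHull ℝ (range V) := by simpa using h1
  rw [hp] at h2
  exact h2

theorem ext2 {p q : E2} (h0 : p 0 = q 0) (h1 : p 1 = q 1) : p = q := by
  ext i
  fin_cases i
  · exact h0
  · exact h1

theorem tri_eq {V : Fin 3 → E2} {T : Set E2} (h0 : V 0 ∈ T) (h1 : V 1 ∈ T) (h2 : V 2 ∈ T)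
    (hT : Convex ℝ T)
    (h : ∀ p ∈ T, ∃ a b c : ℝ, 0 ≤ a ∧ 0 ≤ b ∧ 0 ≤ c ∧ a + b + c = 1 ∧
      a * V 0 0 + b * V 1 0 + c * V 2 0 = p 0 ∧ a * V 0 1 + b * V 1 1 + c * V 2 1 = p 1) :
    tri V = T := by
  apply Subset.antisymm
  · apply convexHull_min _ hT
    rintro _ ⟨i, rfl⟩
    fin_cases i
    · exact h0
    · exact h1
    · exact h2
  · intro p hp
    obtain ⟨a, b, c, ha, hb, hc, hs, e0, e1⟩ := h p hp
    refine tri_mem a b c ha hb hc hs ?_
    apply ext2
    · simpa using e0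
    · simpa using e1

theorem disj_of_sep (A B : Set E2) (a b c : ℝ) (hab : 0 < a * a + b * b)
    (hA : ∀ p ∈ A, a * p 0 + b * p 1 ≤ c) (hB : ∀ p ∈ B, c ≤ a * p 0 + b * p 1) :
    Disjoint (interior A) (interior B) := by
  rw [Set.disjoint_left]
  intro p hpA hpB
  have hB' := hB p (interior_subset hpB)
  have hc : ContinuousAt (fun t : ℝ => p + t • (!₂[a, b] : E2)) 0 := by fun_prop
  have hm : A ∈ 𝓝 ((fun t : ℝ => p + t • (!₂[a, b] : E2)) 0) := by
    simp only [zero_smul, add_zero]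
    exact mem_interior_iff_mem_nhds.1 hpA
  have he : ∀ᶠ t in 𝓝 (0 : ℝ), p + t • (!₂[a, b] : E2) ∈ A := hc.eventually_mem hm
  have he2 : ∀ᶠ t in 𝓝[>] (0 : ℝ), p + t • (!₂[a, b] : E2) ∈ A := he.filter_mono nhdsWithin_le_nhds
  obtain ⟨t, ht, ht0⟩ := (he2.and self_mem_nhdsWithin).exists
  have hA' := hA _ ht
  have ht0' : 0 < t := ht0
  simp at hA'
  nlinarith [mul_pos ht0' hab]

/-- affine isometry from two orthonormal vectors and a translation -/
theorem iso_exists (u v w : E3)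
    (huu : u 0 * u 0 + u 1 * u 1 + u 2 * u 2 = 1) (hvv : v 0 * v 0 + v 1 * v 1 + v 2 * v 2 = 1)
    (huv : u 0 * v 0 + u 1 * v 1 + u 2 * v 2 = 0) :
    ∃ A : E2 →ᵃⁱ[ℝ] E3, ∀ p, A p = p 0 • u + p 1 • v + w := by
  let L : E2 →ₗ[ℝ] E3 :=
    { toFun := fun p => p 0 • u + p 1 • v
      map_add' := by
        intro p q
        simp only [PiLp.add_apply, add_smul]
        abel
      map_smul' := by
        intro t p
        simp only [PiLp.smul_apply, smul_eq_mul, mul_smul, RingHom.id_apply, smul_add] }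
  have hL : ∀ p, L p = p 0 • u + p 1 • v := fun p => rfl
  refine ⟨{ toAffineMap := L.toAffineMap + AffineMap.const ℝ E2 w, norm_map := ?_ }, ?_⟩
  · intro p
    have h1 : (L.toAffineMap + AffineMap.const ℝ E2 w).linear p = L p := by
      simp
    rw [h1, hL]
    rw [EuclideanSpace.norm_eq, EuclideanSpace.norm_eq]
    congr 1
    rw [Fin.sum_univ_three, Fin.sum_univ_two]
    simp only [Real.norm_eq_abs, sq_abs, PiLp.add_apply, PiLp.smul_apply, smul_eq_mul]
    linear_combination (p 0) ^ 2 * huu + (p 1) ^ 2 * hvv + 2 * p 0 * p 1 * huv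
  · intro p
    rfl

end ExFAux

open ExFAux

theorem rT_eq (k : Fin 6) : tri (rV k) = rT k := by
  fin_cases k
  · apply tri_eq
    · (simp [rV, rT]; try norm_num)
    · (simp [rV, rT]; try norm_num)
    · (simp [rV, rT]; try norm_num)
    · intro p hp q hq a b ha hb hab
      obtain ⟨h1, h2, h3⟩ := hp
      obtain ⟨g1, g2, g3⟩ := hq
      refine ⟨?_, ?_, ?_⟩ <;> simp only [PiLp.add_apply, PiLp.smul_apply, smul_eq_mul] <;>
      linarith [mul_nonneg ha (sub_nonneg.2 h1), mul_nonneg hb (sub_nonneg.2 g1), mul_nonneg ha (sub_nonneg.2 h2),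
        mul_nonneg hb (sub_nonneg.2 g2), mul_nonneg ha (sub_nonneg.2 h3), mul_nonneg hb (sub_nonneg.2 g3)]
    · intro p hp
      obtain ⟨h1, h2, h3⟩ := hp
      refine ⟨p 1 - p 0, 1 - p 1, p 0, by linarith, by linarith, by linarith, by ring, ?_, ?_⟩
      · simp [rV]
        try ring
      · simp [rV]
        try ring
  · apply tri_eq
    · (simp [rV, rT]; try norm_num)
    · (simp [rV, rT]; try norm_num)
    · (simp [rV, rT]; try norm_num)
    · intro p hp q hq a b ha hb hab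
      obtain ⟨h1, h2, h3⟩ := hp
      obtain ⟨g1, g2, g3⟩ := hq
      refine ⟨?_, ?_, ?_⟩ <;> simp only [PiLp.add_apply, PiLp.smul_apply, smul_eq_mul] <;>
      linarith [mul_nonneg ha (sub_nonneg.2 h1), mul_nonneg hb (sub_nonneg.2 g1), mul_nonneg ha (sub_nonneg.2 h2),
        mul_nonneg hb (sub_nonneg.2 g2), mul_nonneg ha (sub_nonneg.2 h3), mul_nonneg hb (sub_nonneg.2 g3)]
    · intro p hp
      obtain ⟨h1, h2, h3⟩ := hp
      refine ⟨p 0 - p 1, 1 - p 0, p 1, by linarith, by linarith, by linarith, by ring, ?_, ?_⟩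
      · simp [rV]
        try ring
      · simp [rV]
        try ring
  · apply tri_eq
    · (simp [rV, rT]; try norm_num)
    · (simp [rV, rT]; try norm_num)
    · (simp [rV, rT]; try norm_num)
    · intro p hp q hq a b ha hb hab
      obtain ⟨h1, h2, h3⟩ := hp
      obtain ⟨g1, g2, g3⟩ := hq
      refine ⟨?_, ?_, ?_⟩ <;> simp only [PiLp.add_apply, PiLp.smul_apply, smul_eq_mul] <;>
      linarith [mul_nonneg ha (sub_nonneg.2 h1), mul_nonneg hb (sub_nonneg.2 g1), mul_nonneg ha (sub_nonneg.2 h2),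
        mul_nonneg hb (sub_nonneg.2 g2), mul_nonneg ha (sub_nonneg.2 h3), mul_nonneg hb (sub_nonneg.2 g3)]
    · intro p hp
      obtain ⟨h1, h2, h3⟩ := hp
      refine ⟨2 - p 0 - p 1, p 1, p 0 - 1, by linarith, by linarith, by linarith, by ring, ?_, ?_⟩
      · simp [rV]
        try ring
      · simp [rV]
        try ring
  · apply tri_eq
    · (simp [rV, rT]; try norm_num)
    · (simp [rV, rT]; try norm_num)
    · (simp [rV, rT]; try norm_num)
    · intro p hp q hq a b ha hb hab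
      obtain ⟨h1, h2, h3⟩ := hp
      obtain ⟨g1, g2, g3⟩ := hq
      refine ⟨?_, ?_, ?_⟩ <;> simp only [PiLp.add_apply, PiLp.smul_apply, smul_eq_mul] <;>
      linarith [mul_nonneg ha (sub_nonneg.2 h1), mul_nonneg hb (sub_nonneg.2 g1), mul_nonneg ha (sub_nonneg.2 h2),
        mul_nonneg hb (sub_nonneg.2 g2), mul_nonneg ha (sub_nonneg.2 h3), mul_nonneg hb (sub_nonneg.2 g3)]
    · intro p hp
      obtain ⟨h1, h2, h3⟩ := hp
      refine ⟨p 1 - 2 + p 0, 2 - p 0, 1 - p 1, by linarith, by linarith, by linarith, by ring, ?_, ?_⟩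
      · simp [rV]
        try ring
      · simp [rV]
        try ring
  · apply tri_eq
    · (simp [rV, rT]; try norm_num)
    · (simp [rV, rT]; try norm_num)
    · (simp [rV, rT]; try norm_num)
    · intro p hp q hq a b ha hb hab
      obtain ⟨h1, h2, h3⟩ := hp
      obtain ⟨g1, g2, g3⟩ := hq
      refine ⟨?_, ?_, ?_⟩ <;> simp only [PiLp.add_apply, PiLp.smul_apply, smul_eq_mul] <;>
      linarith [mul_nonneg ha (sub_nonneg.2 h1), mul_nonneg hb (sub_nonneg.2 g1), mul_nonneg ha (sub_nonneg.2 h2),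
        mul_nonneg hb (sub_nonneg.2 g2), mul_nonneg ha (sub_nonneg.2 h3), mul_nonneg hb (sub_nonneg.2 g3)]
    · intro p hp
      obtain ⟨h1, h2, h3⟩ := hp
      refine ⟨2 - p 0 + p 1, p 0 - 2, 1 - p 1, by linarith, by linarith, by linarith, by ring, ?_, ?_⟩
      · simp [rV]
        try ring
      · simp [rV]
        try ring
  · apply tri_eq
    · (simp [rV, rT]; try norm_num)
    · (simp [rV, rT]; try norm_num)
    · (simp [rV, rT]; try norm_num)
    · intro p hp q hq a b ha hb hab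
      obtain ⟨h1, h2, h3⟩ := hp
      obtain ⟨g1, g2, g3⟩ := hq
      refine ⟨?_, ?_, ?_⟩ <;> simp only [PiLp.add_apply, PiLp.smul_apply, smul_eq_mul] <;>
      linarith [mul_nonneg ha (sub_nonneg.2 h1), mul_nonneg hb (sub_nonneg.2 g1), mul_nonneg ha (sub_nonneg.2 h2),
        mul_nonneg hb (sub_nonneg.2 g2), mul_nonneg ha (sub_nonneg.2 h3), mul_nonneg hb (sub_nonneg.2 g3)]
    · intro p hp
      obtain ⟨h1, h2, h3⟩ := hp
      refine ⟨p 0 - 2 - p 1, 3 - p 0, p 1, by linarith, by linarith, by linarith, by ring, ?_, ?_⟩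
      · simp [rV]
        try ring
      · simp [rV]
        try ring

theorem rT_cover : (⋃ k, rT k) = rC := by
  apply Subset.antisymm
  · intro p hp
    obtain ⟨k, hk⟩ := mem_iUnion.1 hp
    fin_cases k <;> obtain ⟨h1, h2, h3⟩ := hk <;> refine ⟨?_, ?_, ?_, ?_⟩ <;> linarith
  · rintro p ⟨h1, h2, h3, h4⟩
    rw [mem_iUnion]
    rcases le_total (p 0) 1 with h5 | h5
    · rcases le_total (p 0) (p 1) with h6 | h6
      · exact ⟨0, h1, h6, h4⟩
      · exact ⟨1, h3, h6, h5⟩
    · rcases le_total (p 0) 2 with h6 | h6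
      · rcases le_total (p 0 + p 1) 2 with h7 | h7
        · exact ⟨2, h5, h3, h7⟩
        · exact ⟨3, h6, h4, h7⟩
      · rcases le_total (p 0 - p 1) 2 with h7 | h7
        · exact ⟨4, h6, h4, h7⟩
        · exact ⟨5, h2, h3, h7⟩

theorem rV_indep (k : Fin 6) : AffineIndependent ℝ (rV k) := by
  rw [affineIndependent_iff_of_fintype]
  intro w hw h
  rw [Finset.weightedVSub_eq_linear_combination _ hw] at h
  have h0 : (∑ i, w i • rV k i : E2) 0 = 0 := by
    rw [h]
    rfl
  have h1 : (∑ i, w i • rV k i : E2) 1 = 0 := by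
    rw [h]
    rfl
  rw [Fin.sum_univ_three] at hw h0 h1
  simp only [PiLp.add_apply, PiLp.smul_apply, smul_eq_mul] at h0 h1
  have h2 : w 0 = 0 ∧ w 1 = 0 ∧ w 2 = 0 := by
    fin_cases k <;> simp [rV] at h0 h1 <;> refine ⟨?_, ?_, ?_⟩ <;> linarith
  intro i
  fin_cases i
  · exact h2.1
  · exact h2.2.1
  · exact h2.2.2

theorem ExFAux.disj_lt (j k : Fin 6) (h : j < k) : Disjoint (interior (rT j)) (interior (rT k)) := by
  fin_cases j <;> fin_cases k <;> first
    | exact absurd h (by decide)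
    | exact disj_of_sep _ _ 1 0 1 (by norm_num) (fun p hp => by obtain ⟨h1, h2, h3⟩ := hp; linarith)
        (fun p hp => by obtain ⟨h1, h2, h3⟩ := hp; linarith)
    | exact disj_of_sep _ _ 1 0 2 (by norm_num) (fun p hp => by obtain ⟨h1, h2, h3⟩ := hp; linarith)
        (fun p hp => by obtain ⟨h1, h2, h3⟩ := hp; linarith)
    | exact disj_of_sep _ _ 1 (-1) 0 (by norm_num) (fun p hp => by obtain ⟨h1, h2, h3⟩ := hp; linarith)
        (fun p hp => by obtain ⟨h1, h2, h3⟩ := hp; linarith)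
    | exact disj_of_sep _ _ 1 1 2 (by norm_num) (fun p hp => by obtain ⟨h1, h2, h3⟩ := hp; linarith)
        (fun p hp => by obtain ⟨h1, h2, h3⟩ := hp; linarith)
    | exact disj_of_sep _ _ 1 (-1) 2 (by norm_num) (fun p hp => by obtain ⟨h1, h2, h3⟩ := hp; linarith)
        (fun p hp => by obtain ⟨h1, h2, h3⟩ := hp; linarith)

theorem rT_disj (j k : Fin 6) (h : j ≠ k) : Disjoint (interior (rT j)) (interior (rT k)) := by
  rcases lt_or_gt_of_ne h with h | h
  · exact ExFAux.disj_lt j k h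
  · exact (ExFAux.disj_lt k j h).symm

theorem ExFAux.ext3 {p q : E3} (h0 : p 0 = q 0) (h1 : p 1 = q 1) (h2 : p 2 = q 2) : p = q := by
  ext i
  fin_cases i
  · exact h0
  · exact h1
  · exact h2

theorem ExFAux.iso_of (f : E2 → E3) (u v w : E3)
    (huu : u 0 * u 0 + u 1 * u 1 + u 2 * u 2 = 1) (hvv : v 0 * v 0 + v 1 * v 1 + v 2 * v 2 = 1)
    (huv : u 0 * v 0 + u 1 * v 1 + u 2 * v 2 = 0)
    (h0 : ∀ p, p 0 * u 0 + p 1 * v 0 + w 0 = f p 0) (h1 : ∀ p, p 0 * u 1 + p 1 * v 1 + w 1 = f p 1)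
    (h2 : ∀ p, p 0 * u 2 + p 1 * v 2 + w 2 = f p 2) :
    ∃ A : E2 →ᵃⁱ[ℝ] E3, ∀ p, A p = f p := by
  obtain ⟨A, hA⟩ := iso_exists u v w huu hvv huv
  refine ⟨A, fun p => ?_⟩
  rw [hA]
  apply ExFAux.ext3
  · exact h0 p
  · exact h1 p
  · exact h2 p

theorem rM_iso (k : Fin 6) : ∃ A : E2 →ᵃⁱ[ℝ] E3, ∀ p, A p = rM k p := by
  fin_cases k
  · apply ExFAux.iso_of _ !₂[1, 0, 0] !₂[0, -1, 0] !₂[0, 1, 0] <;>
    first | (simp; done) | (intro p; simp [rM]; try ring)
  · apply ExFAux.iso_of _ !₂[2/3, -1/3, 2/3] !₂[1/3, -2/3, -2/3] !₂[0, 1, 0] <;>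
    first | (simp; norm_num; done) | (intro p; simp [rM]; try ring)
  · apply ExFAux.iso_of _ !₂[-2/3, -2/3, 1/3] !₂[1/3, -2/3, -2/3] !₂[4/3, 4/3, 1/3] <;>
    first | (simp; norm_num; done) | (intro p; simp [rM]; try ring)
  · apply ExFAux.iso_of _ !₂[-1, 0, 0] !₂[0, 0, -1] !₂[2, 0, 1] <;>
    first | (simp; done) | (intro p; simp [rM]; try ring)
  · apply ExFAux.iso_of _ !₂[0, 1, 0] !₂[0, 0, -1] !₂[0, -2, 1] <;>
    first | (simp; done) | (intro p; simp [rM]; try ring)
  · apply ExFAux.iso_of _ !₂[2/3, 2/3, -1/3] !₂[-2/3, 1/3, -2/3] !₂[-4/3, -4/3, 5/3] <;>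
    first | (simp; norm_num; done) | (intro p; simp [rM]; try ring)

theorem ExFAux.agree (i k : Fin 6) (h : i < k) {p : E2} (hi : p ∈ rT i) (hk : p ∈ rT k) :
    rM i p = rM k p := by
  fin_cases i <;> fin_cases k <;> first
    | exact absurd h (by decide)
    | (obtain ⟨h1, h2, h3⟩ := hi
       obtain ⟨g1, g2, g3⟩ := hk
       apply ExFAux.ext3 <;> simp [rM] <;> linarith)

theorem ExFAux.agree' (i k : Fin 6) {p : E2} (hi : p ∈ rT i) (hk : p ∈ rT k) :
    rM i p = rM k p := by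
  rcases lt_trichotomy i k with h | h | h
  · exact ExFAux.agree i k h hi hk
  · rw [h]
  · exact (ExFAux.agree k i h hk hi).symm

theorem rf_eq (k : Fin 6) {p : E2} (hp : p ∈ rT k) : rf p = rM k p := by
  unfold rf
  split_ifs with h0 h1 h2 h3 h4
  · exact ExFAux.agree' 0 k h0 hp
  · exact ExFAux.agree' 1 k h1 hp
  · exact ExFAux.agree' 2 k h2 hp
  · exact ExFAux.agree' 3 k h3 hp
  · exact ExFAux.agree' 4 k h4 hp
  · have h5 : k = 5 := by
      fin_cases k
      · exact absurd hp h0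
      · exact absurd hp h1
      · exact absurd hp h2
      · exact absurd hp h3
      · exact absurd hp h4
      · rfl
    rw [h5]

end Pool.Agent.Lib.FOLD
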