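import Pool.Agent.Lib.FOLD.ExD
import Pool.Agent.Lib.FOLD.TeV

/-!
# FOLD.ExQ: the bipyramid (1 h)
PROOF. Closed half spaces: closed, convex; bounded: `0 ≤ z i`, and the sum of the last three inequalities is `3 (z 0 + z 1 + z 2) ≤ 6`. `rQ_frontier`: if all inequalities are strict the point is interior (open condition, continuity); if one is an
equality the point is not interior (move in the direction of the outer normal). `rQ_vol`: `rQ` contains the tetrahedra with vertices `0, e0, e1, e2` and `D, e0, e1, e2`, `D = (2/3,2/3,2/3)`, of volume `1/6` each (`vol_tet`), which lie on different sides of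
the plane `z 0 + z 1 + z 2 = 1` (a null set).
-/

set_option autoImplicit false

open MeasureTheory Set Filter Topology Metric
open scoped MeasureTheory ENNReal

namespace Pool.Agent.Lib.FOLD

namespace ExQAux

lemma ev (i : Fin 3) : Continuous fun z : E3 => z i := by fun_prop

lemma closed : IsClosed rQ := by
  have h0 := ev 0
  have h1 := ev 1
  have h2 := ev 2
  refine IsClosed.inter (isClosed_le continuous_const h0) (IsClosed.inter (isClosed_le continuous_const h1)
    (IsClosed.inter (isClosed_le continuous_const h2)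
      (IsClosed.inter (isClosed_le (f := fun z : E3 => 2 * z 0 + 2 * z 1 - z 2) (by fun_prop) continuous_const)
      (IsClosed.inter (isClosed_le (f := fun z : E3 => 2 * z 0 + 2 * z 2 - z 1) (by fun_prop) continuous_const)
        (isClosed_le (f := fun z : E3 => 2 * z 1 + 2 * z 2 - z 0) (by fun_prop) continuous_const)))))

/-- the strict inequalities -/
def rI : Set E3 := {z | 0 < z 0 ∧ 0 < z 1 ∧ 0 < z 2 ∧ 2 * z 0 + 2 * z 1 - z 2 < 2 ∧
  2 * z 0 + 2 * z 2 - z 1 < 2 ∧ 2 * z 1 + 2 * z 2 - z 0 < 2}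

lemma rI_open : IsOpen rI := by
  have h0 := ev 0
  have h1 := ev 1
  have h2 := ev 2
  refine IsOpen.inter (isOpen_lt continuous_const h0) (IsOpen.inter (isOpen_lt continuous_const h1)
    (IsOpen.inter (isOpen_lt continuous_const h2)
      (IsOpen.inter (isOpen_lt (f := fun z : E3 => 2 * z 0 + 2 * z 1 - z 2) (by fun_prop) continuous_const)
      (IsOpen.inter (isOpen_lt (f := fun z : E3 => 2 * z 0 + 2 * z 2 - z 1) (by fun_prop) continuous_const)
        (isOpen_lt (f := fun z : E3 => 2 * z 1 + 2 * z 2 - z 0) (by fun_prop) continuous_const)))))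

lemma move {z : E3} (hz : z ∈ interior rQ) (v : E3) : ∃ t : ℝ, 0 < t ∧ z + t • v ∈ rQ := by
  have hc : Continuous fun t : ℝ => z + t • v := by fun_prop
  have h1 : ∀ᶠ t in 𝓝 (0 : ℝ), z + t • v ∈ rQ := by
    have : rQ ∈ 𝓝 (z + (0 : ℝ) • v) := by
      rw [zero_smul, add_zero]
      exact mem_interior_iff_mem_nhds.1 hz
    exact hc.continuousAt.eventually this
  have h2 : ∀ᶠ t in 𝓝[>] (0 : ℝ), z + t • v ∈ rQ := h1.filter_mono nhdsWithin_le_nhds
  obtain ⟨t, ht, ht'⟩ := (h2.and self_mem_nhdsWithin).exists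
  exact ⟨t, ht', ht⟩

lemma interior_eq : interior rQ = rI := by
  apply Subset.antisymm
  · intro z hz
    have hQ := interior_subset hz
    obtain ⟨a0, a1, a2, b0, b1, b2⟩ := hQ
    refine ⟨?_, ?_, ?_, ?_, ?_, ?_⟩
    · obtain ⟨t, ht, h⟩ := move hz !₂[-1, 0, 0]
      have := h.1
      simp at this
      linarith
    · obtain ⟨t, ht, h⟩ := move hz !₂[0, -1, 0]
      have := h.2.1
      simp at this
      linarith
    · obtain ⟨t, ht, h⟩ := move hz !₂[0, 0, -1]
      have := h.2.2.1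
      simp at this
      linarith
    · obtain ⟨t, ht, h⟩ := move hz !₂[1, 0, 0]
      have := h.2.2.2.1
      simp at this
      linarith
    · obtain ⟨t, ht, h⟩ := move hz !₂[1, 0, 0]
      have := h.2.2.2.2.1
      simp at this
      linarith
    · obtain ⟨t, ht, h⟩ := move hz !₂[0, 1, 0]
      have := h.2.2.2.2.2
      simp at this
      linarith
  · apply interior_maximal _ rI_open
    rintro z ⟨a0, a1, a2, b0, b1, b2⟩
    exact ⟨a0.le, a1.le, a2.le, b0.le, b1.le, b2.le⟩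

/-- the plane `z 0 + z 1 + z 2 = 1` -/
def pl : AffineSubspace ℝ E3 where
  carrier := {z | z 0 + z 1 + z 2 = 1}
  smul_vsub_vadd_mem' := by
    intro c p q r hp hq hr
    simp only [Set.mem_ofPred_eq, vsub_eq_sub, vadd_eq_add, PiLp.add_apply, PiLp.smul_apply,
      PiLp.sub_apply, smul_eq_mul] at *
    linear_combination c * hp - c * hq + hr

lemma pl_null : volume {z : E3 | z 0 + z 1 + z 2 = 1} = 0 := by
  have h : pl ≠ ⊤ := by
    intro h
    have : (0 : E3) ∈ pl := by rw [h]; exact AffineSubspace.mem_top ℝ E3 0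
    have h2 : (0 : E3) 0 + (0 : E3) 1 + (0 : E3) 2 = 1 := this
    simp at h2
  exact Measure.addHaar_affineSubspace volume pl h

end ExQAux

open ExQAux

theorem rQ_cvx : Convex ℝ rQ := by
  rintro x ⟨a0, a1, a2, b0, b1, b2⟩ y ⟨c0, c1, c2, d0, d1, d2⟩ s t hs ht hst
  have e : t = 1 - s := by linarith
  subst e
  refine ⟨?_, ?_, ?_, ?_, ?_, ?_⟩ <;>
    simp only [PiLp.add_apply, PiLp.smul_apply, smul_eq_mul] <;> nlinarith

theorem rQ_cpt : IsCompact rQ := by
  refine Metric.isCompact_of_isClosed_isBounded closed ?_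
  rw [isBounded_iff_forall_norm_le]
  refine ⟨4, ?_⟩
  rintro z ⟨a0, a1, a2, b0, b1, b2⟩
  have h : ‖z‖ ^ 2 = z 0 ^ 2 + z 1 ^ 2 + z 2 ^ 2 := by
    rw [EuclideanSpace.real_norm_sq_eq, Fin.sum_univ_three]
  have k0 : z 0 ≤ 2 := by linarith
  have k1 : z 1 ≤ 2 := by linarith
  have k2 : z 2 ≤ 2 := by linarith
  have : ‖z‖ ^ 2 ≤ 4 ^ 2 := by rw [h]; nlinarith
  exact le_of_sq_le_sq this (by norm_num)

theorem rQ_int : (interior rQ).Nonempty := by
  rw [interior_eq]
  refine ⟨!₂[1 / 6, 1 / 6, 1 / 6], ?_⟩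
  refine ⟨?_, ?_, ?_, ?_, ?_, ?_⟩ <;> simp <;> norm_num

theorem rQ_frontier : frontier rQ = {z | z ∈ rQ ∧ (z 0 = 0 ∨ z 1 = 0 ∨ z 2 = 0 ∨
    2 * z 0 + 2 * z 1 - z 2 = 2 ∨ 2 * z 0 + 2 * z 2 - z 1 = 2 ∨ 2 * z 1 + 2 * z 2 - z 0 = 2)} := by
  rw [closed.frontier_eq, interior_eq]
  ext z
  constructor
  · rintro ⟨h, hn⟩
    refine ⟨h, ?_⟩
    by_contra hc
    push Not at hc
    obtain ⟨c0, c1, c2, d0, d1, d2⟩ := hc
    obtain ⟨a0, a1, a2, b0, b1, b2⟩ := h
    exact hn ⟨lt_of_le_of_ne a0 (Ne.symm c0), lt_of_le_of_ne a1 (Ne.symm c1), lt_of_le_of_ne a2 (Ne.symm c2),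
      lt_of_le_of_ne b0 d0, lt_of_le_of_ne b1 d1, lt_of_le_of_ne b2 d2⟩
  · rintro ⟨h, hz⟩
    refine ⟨h, ?_⟩
    rintro ⟨a0, a1, a2, b0, b1, b2⟩
    rcases hz with e | e | e | e | e | e <;> linarith

namespace ExQAux

/-- the lower tetrahedron -/
noncomputable def q0 : Fin 4 → E3 := ![0, !₂[1, 0, 0], !₂[0, 1, 0], !₂[0, 0, 1]]

/-- the upper tetrahedron -/
noncomputable def q1 : Fin 4 → E3 := ![!₂[2 / 3, 2 / 3, 2 / 3], !₂[1, 0, 0], !₂[0, 1, 0], !₂[0, 0, 1]]

lemma v0 : volume (convexHull ℝ (range q0)) = ENNReal.ofReal (1 / 6) := by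
  rw [vol_tet]
  congr 1
  simp [q0, det3]

lemma v1 : volume (convexHull ℝ (range q1)) = ENNReal.ofReal (1 / 6) := by
  rw [vol_tet]
  congr 1
  simp [q1, det3]
  norm_num

lemma s0 : convexHull ℝ (range q0) ⊆ rQ ∩ {z | z 0 + z 1 + z 2 ≤ 1} := by
  apply convexHull_min
  · rintro _ ⟨i, rfl⟩
    fin_cases i <;> simp [q0, rQ] <;> norm_num
  · refine rQ_cvx.inter ?_
    intro x hx y hy s t hs ht hst
    simp only [Set.mem_ofPred_eq, PiLp.add_apply, PiLp.smul_apply, smul_eq_mul] at *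
    nlinarith

lemma s1 : convexHull ℝ (range q1) ⊆ rQ ∩ {z | 1 ≤ z 0 + z 1 + z 2} := by
  apply convexHull_min
  · rintro _ ⟨i, rfl⟩
    fin_cases i <;> simp [q1, rQ] <;> norm_num
  · refine rQ_cvx.inter ?_
    intro x hx y hy s t hs ht hst
    simp only [Set.mem_ofPred_eq, PiLp.add_apply, PiLp.smul_apply, smul_eq_mul] at *
    nlinarith

end ExQAux

theorem rQ_vol : ENNReal.ofReal (1 / 3) ≤ volume rQ := by
  have hm : MeasurableSet (convexHull ℝ (range q1)) :=
    (Set.finite_range q1).isCompact_convexHull (𝕜 := ℝ) |>.measurableSet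
  have hd : AEDisjoint volume (convexHull ℝ (range q0)) (convexHull ℝ (range q1)) := by
    refine measure_mono_null ?_ pl_null
    rintro z ⟨h0, h1⟩
    exact le_antisymm (s0 h0).2 (s1 h1).2
  calc ENNReal.ofReal (1 / 3) = ENNReal.ofReal (1 / 6) + ENNReal.ofReal (1 / 6) := by
        rw [← ENNReal.ofReal_add (by norm_num) (by norm_num)]
        norm_num
    _ = volume (convexHull ℝ (range q0) ∪ convexHull ℝ (range q1)) := by
        rw [measure_union₀ hm.nullMeasurableSet hd, v0, v1]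
    _ ≤ volume rQ := measure_mono (union_subset (fun z hz => (s0 hz).1) (fun z hz => (s1 hz).1))

end Pool.Agent.Lib.FOLD
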