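import Pool.Agent.Lib.FOLD.ExR
import Pool.Agent.Lib.FOLD.ExQ
import Pool.Agent.Lib.FOLD.ExF

/-!
# FOLD.ExG: the images of the triangles are the faces (1 h)
PROOF. `rf_onto`: `rM k '' rT k` is the face of `rQ` in the plane `z 2 = 0`, `2z0+2z1-z2=2`, `2z0+2z2-z1=2`, `z 1 = 0`, `z 0 = 0`, `2z1+2z2-z0=2` for `k = 0, .., 5`; solve the linear equations for `p` and check the inequalities (`rf_eq`, `rT_cover`, `rQ_frontier`).
`rf_edge`: the vertices have images `0, e0, e1, e2, D` (`D = (2/3,2/3,2/3)`); the image of the triangle `j` contains only the images of its own vertices among these five points (for the others the equation of the plane of the face fails).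
-/

set_option autoImplicit false

open MeasureTheory Set Filter Topology Metric
open scoped MeasureTheory ENNReal

namespace Pool.Agent.Lib.FOLD

/-- the five image points -/
noncomputable def ExGAux.w : Fin 5 → E3 :=
  ![!₂[0, 0, 0], !₂[1, 0, 0], !₂[0, 1, 0], !₂[0, 0, 1], !₂[2 / 3, 2 / 3, 2 / 3]]

/-- which vertex goes to which image point -/
def ExGAux.io : Fin 6 → Fin 3 → Fin 5 :=
  ![![0, 2, 1], ![4, 2, 1], ![4, 1, 3], ![0, 1, 3], ![0, 2, 3], ![4, 3, 2]]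

theorem ExGAux.rV_mem (k : Fin 6) (i : Fin 3) : rV k i ∈ rT k := by
  rw [← rT_eq k]
  exact subset_convexHull ℝ _ (mem_range_self i)

theorem ExGAux.e3ext {a b : E3} (h0 : a 0 = b 0) (h1 : a 1 = b 1) (h2 : a 2 = b 2) : a = b := by
  ext i
  fin_cases i
  · exact h0
  · exact h1
  · exact h2

theorem ExGAux.rM_rV (k : Fin 6) (i : Fin 3) : rM k (rV k i) = ExGAux.w (ExGAux.io k i) := by
  fin_cases k <;> fin_cases i <;>
    refine ExGAux.e3ext ?_ ?_ ?_ <;> simp [rM, rV, ExGAux.w, ExGAux.io] <;> norm_num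

theorem ExGAux.caseJ (j : Fin 6) (m : Fin 5) {p : E2} (hp : p ∈ rT j)
    (h : rM j p = ExGAux.w m) : ∃ i', ExGAux.io j i' = m := by
  have h0 : (rM j p) 0 = (ExGAux.w m) 0 := by rw [h]
  have h1 : (rM j p) 1 = (ExGAux.w m) 1 := by rw [h]
  have h2 : (rM j p) 2 = (ExGAux.w m) 2 := by rw [h]
  fin_cases j <;> fin_cases m <;>
    first
    | exact ⟨0, rfl⟩
    | exact ⟨1, rfl⟩
    | exact ⟨2, rfl⟩
    | (exfalso; simp [rM, ExGAux.w] at h0 h1 h2; done)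
    | (exfalso; simp [rM, ExGAux.w] at h0 h1 h2; linarith)

theorem ExGAux.sub_frontier (k : Fin 6) {p : E2} (hp : p ∈ rT k) : rM k p ∈ frontier rQ := by
  rw [rQ_frontier]
  fin_cases k
  all_goals
    obtain ⟨h1, h2, h3⟩ := hp
    refine ⟨⟨?_, ?_, ?_, ?_, ?_, ?_⟩, ?_⟩
  all_goals first
    | (simp [rM]; done)
    | (simp [rM]; linarith)
    | (refine Or.inl ?_; simp [rM]; done)
    | (refine Or.inr (Or.inl ?_); simp [rM]; done)
    | (refine Or.inr (Or.inr (Or.inl ?_)); simp [rM]; done)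
    | (refine Or.inr (Or.inr (Or.inr (Or.inl ?_))); simp [rM]; linarith)
    | (refine Or.inr (Or.inr (Or.inr (Or.inr (Or.inl ?_)))); simp [rM]; linarith)
    | (refine Or.inr (Or.inr (Or.inr (Or.inr (Or.inr ?_)))); simp [rM]; linarith)

theorem rf_onto : rf '' rC = frontier rQ := by
  have hsub : ∀ k, rT k ⊆ rC := by
    intro k p hp
    rw [← rT_cover]
    exact mem_iUnion.2 ⟨k, hp⟩
  apply Subset.antisymm
  · rintro z ⟨p, hp, rfl⟩
    rw [← rT_cover] at hp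
    obtain ⟨k, hk⟩ := mem_iUnion.1 hp
    rw [rf_eq k hk]
    exact ExGAux.sub_frontier k hk
  · intro z hz
    rw [rQ_frontier] at hz
    obtain ⟨⟨h0, h1, h2, h3, h4, h5⟩, h⟩ := hz
    have main : ∀ (k : Fin 6) (p : E2), p ∈ rT k → rM k p = z → z ∈ rf '' rC := by
      intro k p hp hz
      exact ⟨p, hsub k hp, by rw [rf_eq k hp, hz]⟩
    rcases h with h | h | h | h | h | h
    · refine main 4 !₂[2 + z 1, 1 - z 2] ⟨?_, ?_, ?_⟩ (ExGAux.e3ext ?_ ?_ ?_) <;>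
        simp [rM] <;> linarith
    · refine main 3 !₂[2 - z 0, 1 - z 2] ⟨?_, ?_, ?_⟩ (ExGAux.e3ext ?_ ?_ ?_) <;>
        simp [rM] <;> linarith
    · refine main 0 !₂[z 0, 1 - z 1] ⟨?_, ?_, ?_⟩ (ExGAux.e3ext ?_ ?_ ?_) <;>
        simp [rM] <;> linarith
    · refine main 1 !₂[z 0 + z 2 / 2, z 0 - z 2] ⟨?_, ?_, ?_⟩ (ExGAux.e3ext ?_ ?_ ?_) <;>
        simp [rM] <;> linarith
    · refine main 2 !₂[2 - z 0 - z 1 / 2, z 0 - z 1] ⟨?_, ?_, ?_⟩ (ExGAux.e3ext ?_ ?_ ?_) <;>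
        simp [rM] <;> linarith
    · refine main 5 !₂[2 + z 1 + z 0 / 2, z 1 - z 0] ⟨?_, ?_, ?_⟩ (ExGAux.e3ext ?_ ?_ ?_) <;>
        simp [rM] <;> linarith

theorem rf_edge (k : Fin 6) (i : Fin 3) (j : Fin 6) (h : rf (rV k i) ∈ rf '' rT j) :
    ∃ i', rf (rV j i') = rf (rV k i) := by
  obtain ⟨p, hp, hpe⟩ := h
  rw [rf_eq j hp, rf_eq k (ExGAux.rV_mem k i), ExGAux.rM_rV] at hpe
  obtain ⟨i', hi'⟩ := ExGAux.caseJ j _ hp hpe
  refine ⟨i', ?_⟩
  rw [rf_eq j (ExGAux.rV_mem j i'), rf_eq k (ExGAux.rV_mem k i), ExGAux.rM_rV, ExGAux.rM_rV, hi']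

end Pool.Agent.Lib.FOLD
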