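import Pool.Agent.Lib.FOLD.ExR
import Pool.Agent.Lib.FOLD.ExF

/-!
# FOLD.ExH: the identifications (1.5 h)
PROOF. (←) for `p = q` trivial; `p = rg s`, `q = rg (8 - s)`: by symmetry `s ≤ 4`; `s ∈ [0,1]`: `(1+s,1)`, `(1-s,1)`, both images `(1-s,0,0)`; `s ∈ [1,2]`: `(1+s,1)`, `(0,2-s)`, both `(0,s-1,0)`; `s ∈ [2,3]`: `(3,3-s)`, `(s-2,0)`, both
`((2s-4)/3,(5-s)/3,(2s-4)/3)`; `s ∈ [3,4]`: `(6-s,0)`, `(s-2,0)`, both `((8-2s)/3,(8-2s)/3,(s-1)/3)`. (→) `p ∈ rT j`, `q ∈ rT k`, `rM j p = rM k q` (`rf_eq`): three linear equations and the inequalities of the triangles. `j = k`: `p = q` (injective).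
For `j ≠ k` (15 pairs up to symmetry; `Glued` is symmetric) the two faces meet in an edge or a vertex; the linear arithmetic gives `p = q` or both points are on the boundary with the parameter `s` as above, e.g. `j = 0, k = 3`: `p 1 = q 1 = 1`, `p 0 = 2 - q 0`, `s = q 0 - 1`.
-/

set_option autoImplicit false

open MeasureTheory Set Filter Topology Metric
open scoped MeasureTheory ENNReal

namespace Pool.Agent.Lib.FOLD

namespace ExHAux

theorem ext2 {p q : E2} (h0 : p 0 = q 0) (h1 : p 1 = q 1) : p = q := by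
  ext i
  fin_cases i
  · exact h0
  · exact h1

/-- the point with the coordinates `a`, `b` -/
theorem mk2 {p : E2} {a b : ℝ} (h0 : p 0 = a) (h1 : p 1 = b) : p = !₂[a, b] := by
  apply ext2
  · simpa using h0
  · simpa using h1

theorem rg1 {s : ℝ} (h : s ≤ 2) : rg s = !₂[1 + s, 1] := by
  rw [rg, if_pos h]

theorem rg2 {s : ℝ} (h : 2 ≤ s) (h' : s ≤ 3) : rg s = !₂[3, 3 - s] := by
  rcases h.eq_or_lt with e | e
  · subst e
    rw [rg1 le_rfl]
    norm_num
  · rw [rg, if_neg (not_le.2 e), if_pos h']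

theorem rg3 {s : ℝ} (h : 3 ≤ s) (h' : s ≤ 6) : rg s = !₂[6 - s, 0] := by
  rcases h.eq_or_lt with e | e
  · subst e
    rw [rg2 (by norm_num) le_rfl]
    norm_num
  · rw [rg, if_neg (by linarith), if_neg (not_le.2 e), if_pos h']

theorem rg4 {s : ℝ} (h : 6 ≤ s) (h' : s ≤ 7) : rg s = !₂[0, s - 6] := by
  rcases h.eq_or_lt with e | e
  · subst e
    rw [rg3 (by norm_num) le_rfl]
    norm_num
  · rw [rg, if_neg (by linarith), if_neg (by linarith), if_neg (not_le.2 e), if_pos h']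

theorem rg5 {s : ℝ} (h : 7 ≤ s) : rg s = !₂[s - 7, 1] := by
  rcases h.eq_or_lt with e | e
  · subst e
    rw [rg4 (by norm_num) le_rfl]
    norm_num
  · rw [rg, if_neg (by linarith), if_neg (by linarith), if_neg (by linarith), if_neg (not_le.2 e)]

/-- half of the identifications in coordinates -/
def H (p q : E2) : Prop :=
  (p 1 = 1 ∧ q 1 = 1 ∧ p 0 + q 0 = 2 ∧ 1 ≤ p 0) ∨ (p 1 = 1 ∧ q 0 = 0 ∧ p 0 + q 1 = 3) ∨
  (p 0 = 3 ∧ q 1 = 0 ∧ p 1 + q 0 = 1) ∨ (p 1 = 0 ∧ q 1 = 0 ∧ p 0 + q 0 = 4 ∧ 2 ≤ p 0)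

theorem glued_symm {p q : E2} (h : Glued 8 rg p q) : Glued 8 rg q p := by
  obtain ⟨s, hs, h1, h2⟩ := h
  refine ⟨8 - s, ⟨by linarith [hs.2], by linarith [hs.1]⟩, h2, ?_⟩
  rw [h1]
  congr 1
  ring

theorem glued_of_H {p q : E2} (hp : p ∈ rC) (hq : q ∈ rC) (h : H p q) : Glued 8 rg p q := by
  obtain ⟨p1, p2, p3, p4⟩ := hp
  obtain ⟨q1, q2, q3, q4⟩ := hq
  rcases h with ⟨a, b, c, d⟩ | ⟨a, b, c⟩ | ⟨a, b, c⟩ | ⟨a, b, c, d⟩
  · refine ⟨p 0 - 1, ⟨by linarith, by linarith⟩, ?_, ?_⟩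
    · rw [rg1 (by linarith)]
      exact mk2 (by ring) a
    · rw [rg5 (by linarith)]
      exact mk2 (by linarith) b
  · refine ⟨p 0 - 1, ⟨by linarith, by linarith⟩, ?_, ?_⟩
    · rw [rg1 (by linarith)]
      exact mk2 (by ring) a
    · rw [rg4 (by linarith) (by linarith)]
      exact mk2 b (by linarith)
  · refine ⟨3 - p 1, ⟨by linarith, by linarith⟩, ?_, ?_⟩
    · rw [rg2 (by linarith) (by linarith)]
      exact mk2 a (by ring)
    · rw [rg3 (by linarith) (by linarith)]
      exact mk2 (by linarith) b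
  · refine ⟨6 - p 0, ⟨by linarith, by linarith⟩, ?_, ?_⟩
    · rw [rg3 (by linarith) (by linarith)]
      exact mk2 (by ring) a
    · rw [rg3 (by linarith) (by linarith)]
      exact mk2 (by linarith) b

theorem H_of_glued {p q : E2} (h : Glued 8 rg p q) : H p q ∨ H q p := by
  obtain ⟨s, ⟨s0, s8⟩, h1, h2⟩ := h
  have key : ∀ (s : ℝ), 0 ≤ s → s ≤ 4 → ∀ p q : E2, p = rg s → q = rg (8 - s) → H p q := by
    intro s s0 s4 p q h1 h2
    rcases le_total s 1 with a | a
    · rw [rg1 (by linarith)] at h1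
      rw [rg5 (by linarith)] at h2
      left
      subst h1 h2
      refine ⟨by simp, by simp, ?_, ?_⟩
      · simp; ring
      · simp; linarith
    rcases le_total s 2 with b | b
    · rw [rg1 (by linarith)] at h1
      rw [rg4 (by linarith) (by linarith)] at h2
      right; left
      subst h1 h2
      refine ⟨by simp, by simp, ?_⟩
      simp; ring
    rcases le_total s 3 with c | c
    · rw [rg2 (by linarith) (by linarith)] at h1
      rw [rg3 (by linarith) (by linarith)] at h2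
      right; right; left
      subst h1 h2
      refine ⟨by simp, by simp, ?_⟩
      simp; ring
    · rw [rg3 (by linarith) (by linarith)] at h1
      rw [rg3 (by linarith) (by linarith)] at h2
      right; right; right
      subst h1 h2
      refine ⟨by simp, by simp, ?_, ?_⟩
      · simp; ring
      · simp; linarith
  rcases le_total s 4 with a | a
  · exact Or.inl (key s s0 a p q h1 h2)
  · refine Or.inr (key (8 - s) (by linarith) (by linarith) q p h2 ?_)
    rw [h1]
    congr 1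
    ring

theorem ext3 {p q : E3} (h0 : p 0 = q 0) (h1 : p 1 = q 1) (h2 : p 2 = q 2) : p = q := by
  ext i
  fin_cases i
  · exact h0
  · exact h1
  · exact h2

theorem rf_of_H {p q : E2} (hp : p ∈ rC) (hq : q ∈ rC) (h : H p q) : rf p = rf q := by
  obtain ⟨p1, p2, p3, p4⟩ := hp
  obtain ⟨q1, q2, q3, q4⟩ := hq
  rcases h with ⟨a, b, c, d⟩ | ⟨a, b, c⟩ | ⟨a, b, c⟩ | ⟨a, b, c, d⟩
  · have h3 : p ∈ rT 3 := ⟨by linarith, by linarith, by linarith⟩
    have h0 : q ∈ rT 0 := ⟨by linarith, by linarith, by linarith⟩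
    rw [rf_eq 3 h3, rf_eq 0 h0]
    refine ext3 ?_ ?_ ?_ <;> simp [rM] <;> linarith
  · have h3 : p ∈ rT 4 := ⟨by linarith, by linarith, by linarith⟩
    have h0 : q ∈ rT 0 := ⟨by linarith, by linarith, by linarith⟩
    rw [rf_eq 4 h3, rf_eq 0 h0]
    refine ext3 ?_ ?_ ?_ <;> simp [rM] <;> linarith
  · have h3 : p ∈ rT 5 := ⟨by linarith, by linarith, by linarith⟩
    have h0 : q ∈ rT 1 := ⟨by linarith, by linarith, by linarith⟩
    rw [rf_eq 5 h3, rf_eq 1 h0]
    refine ext3 ?_ ?_ ?_ <;> simp [rM] <;> linarith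
  · have h3 : p ∈ rT 5 := ⟨by linarith, by linarith, by linarith⟩
    have h0 : q ∈ rT 2 := ⟨by linarith, by linarith, by linarith⟩
    rw [rf_eq 5 h3, rf_eq 2 h0]
    refine ext3 ?_ ?_ ?_ <;> simp [rM] <;> linarith

theorem faces (j k : Fin 6) (hjk : j ≤ k) {p q : E2} (hp : p ∈ rT j) (hq : q ∈ rT k)
    (h : rM j p = rM k q) : p = q ∨ H p q ∨ H q p := by
  have e0 : rM j p 0 = rM k q 0 := by rw [h]
  have e1 : rM j p 1 = rM k q 1 := by rw [h]
  have e2 : rM j p 2 = rM k q 2 := by rw [h]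
  clear h
  fin_cases j <;> fin_cases k <;>
  first
  | exact absurd hjk (by decide)
  | (clear hjk
     simp only [rM, rT, Fin.zero_eta, Fin.mk_one, Fin.reduceFinMk, Matrix.cons_val, Fin.isValue, PiLp.toLp_apply,
       mem_ofPred_eq] at e0 e1 e2 hp hq
     obtain ⟨p1, p2, p3⟩ := hp
     obtain ⟨q1, q2, q3⟩ := hq
     first
     | exact Or.inl (ext2 (by linarith) (by linarith))
     | exact Or.inr (Or.inr (Or.inl ⟨by linarith, by linarith, by linarith, by linarith⟩))
     | exact Or.inr (Or.inr (Or.inr (Or.inl ⟨by linarith, by linarith, by linarith⟩)))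
     | exact Or.inr (Or.inr (Or.inr (Or.inr (Or.inl ⟨by linarith, by linarith, by linarith⟩))))
     | exact Or.inr (Or.inr (Or.inr (Or.inr (Or.inr ⟨by linarith, by linarith, by linarith, by linarith⟩)))))

end ExHAux

open ExHAux

theorem rf_glue (p : E2) (hp : p ∈ rC) (q : E2) (hq : q ∈ rC) :
    rf p = rf q ↔ p = q ∨ Glued 8 rg p q := by
  constructor
  · intro h
    have hp' := hp
    have hq' := hq
    rw [← rT_cover] at hp' hq'
    obtain ⟨j, hj⟩ := mem_iUnion.1 hp'
    obtain ⟨k, hk⟩ := mem_iUnion.1 hq'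
    rw [rf_eq j hj, rf_eq k hk] at h
    have key : p = q ∨ H p q ∨ H q p := by
      rcases le_total j k with c | c
      · exact faces j k c hj hk h
      · rcases faces k j c hk hj h.symm with d | d | d
        · exact Or.inl d.symm
        · exact Or.inr (Or.inr d)
        · exact Or.inr (Or.inl d)
    rcases key with d | d | d
    · exact Or.inl d
    · exact Or.inr (glued_of_H hp hq d)
    · exact Or.inr (glued_symm (glued_of_H hq hp d))
  · rintro (h | h)
    · rw [h]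
    · rcases H_of_glued h with d | d
      · exact rf_of_H hp hq d
      · exact (rf_of_H hq hp d).symm

end Pool.Agent.Lib.FOLD
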