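import Pool.Agent.Lib.FOLD.ExD

/-!
# FOLD.ExR: the rectangle and its boundary (1.2 h)
PROOF. Direct. `rC_frontier`: coordinates (`interior` = strict inequalities; e.g. `EuclideanSpace.equiv`/`Homeomorph` to a product of intervals, `interior_pi_set`, or a direct ball argument). `rg_arc`: `1`-Lipschitz: for `s ≤ t` in the same piece the distance is
`|s - t|`, in different pieces use the triangle inequality through the corners `s = 2, 3, 6, 7` (e.g. `LipschitzOnWith` on each piece and `rg` = sum of clamp functions, or the bound `(Δx)² + (Δy)² ≤ (Δs)²` by cases). Onto: cases.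
Length: `frontier rC` is the union of four segments of lengths `3, 1, 3, 1` (`hausdorffMeasure_segment`) which pairwise meet in at most one point (`μH[1]` has no atoms).
`rC_vol`: Fubini / `EuclideanSpace.volume_preserving` and `Real.volume_pi_Icc`-like lemma.
-/

set_option autoImplicit false

open MeasureTheory Set Filter Topology Metric
open scoped MeasureTheory ENNReal

namespace Pool.Agent.Lib.FOLD

namespace ExRAux

/-- the lower corner -/
def lo : Fin 2 → ℝ := ![0, 0]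

/-- the upper corner -/
def hi : Fin 2 → ℝ := ![3, 1]

lemma rC_eq : rC = (EuclideanSpace.equiv (Fin 2) ℝ) ⁻¹' (Icc lo hi) := by
  ext p
  simp only [rC, mem_ofPred_eq, mem_preimage, mem_Icc, Pi.le_def, Fin.forall_fin_two, lo, hi]
  simp
  tauto

lemma rC_int : interior rC = {p | 0 < p 0 ∧ p 0 < 3 ∧ 0 < p 1 ∧ p 1 < 1} := by
  have h := (EuclideanSpace.equiv (Fin 2) ℝ).toHomeomorph.preimage_interior (Icc lo hi)
  have h2 : interior rC = (EuclideanSpace.equiv (Fin 2) ℝ) ⁻¹' (interior (Icc lo hi)) := by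
    rw [rC_eq]
    exact h.symm
  rw [h2, ← Set.pi_univ_Icc, interior_pi_set Set.finite_univ]
  ext p
  simp [Fin.forall_fin_two, lo, hi]
  tauto

lemma rC_closed : IsClosed rC := by
  rw [rC_eq]
  exact isClosed_Icc.preimage (EuclideanSpace.equiv (Fin 2) ℝ).continuous

lemma rC_compact : IsCompact rC := by
  rw [rC_eq]
  exact (EuclideanSpace.equiv (Fin 2) ℝ).toHomeomorph.isCompact_preimage.2 isCompact_Icc

/-- first coordinate of the boundary curve -/
noncomputable def gx (s : ℝ) : ℝ :=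
  if s ≤ 2 then 1 + s else if s ≤ 3 then 3 else if s ≤ 6 then 6 - s else if s ≤ 7 then 0 else s - 7

/-- second coordinate of the boundary curve -/
noncomputable def gy (s : ℝ) : ℝ :=
  if s ≤ 2 then 1 else if s ≤ 3 then 3 - s else if s ≤ 6 then 0 else if s ≤ 7 then s - 6 else 1

lemma rg_zero (s : ℝ) : rg s 0 = gx s := by
  unfold rg gx
  split_ifs <;> simp

lemma rg_one (s : ℝ) : rg s 1 = gy s := by
  unfold rg gy
  split_ifs <;> simp

lemma rg_eq_iff (s : ℝ) (p : E2) : rg s = p ↔ gx s = p 0 ∧ gy s = p 1 := by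
  rw [← rg_zero, ← rg_one]
  constructor
  · rintro rfl
    exact ⟨rfl, rfl⟩
  · rintro ⟨h1, h2⟩
    ext i
    fin_cases i
    · exact h1
    · exact h2

lemma abs_sum_le {a b c : ℝ} (h1 : a + b ≤ c) (h2 : a - b ≤ c) (h3 : -a + b ≤ c) (h4 : -a - b ≤ c) :
    |a| + |b| ≤ c := by
  rcases abs_cases a with ⟨ha, _⟩ | ⟨ha, _⟩ <;> rcases abs_cases b with ⟨hb, _⟩ | ⟨hb, _⟩ <;>
    rw [ha, hb] <;> linarith

lemma g_lip (s t : ℝ) (h : s ≤ t) : |gx t - gx s| + |gy t - gy s| ≤ t - s := by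
  unfold gx gy
  split_ifs <;> apply abs_sum_le <;> linarith

lemma e2_dist_le (p q : E2) : dist p q ≤ |p 0 - q 0| + |p 1 - q 1| := by
  rw [EuclideanSpace.dist_eq]
  apply Real.sqrt_le_iff.2 ⟨by positivity, ?_⟩
  simp only [Fin.sum_univ_two, Real.dist_eq]
  nlinarith [mul_nonneg (abs_nonneg (p 0 - q 0)) (abs_nonneg (p 1 - q 1))]

lemma rg_dist (s t : ℝ) (h : s ≤ t) : dist (rg t) (rg s) ≤ t - s := by
  refine (e2_dist_le _ _).trans ?_
  rw [rg_zero, rg_zero, rg_one, rg_one]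
  exact g_lip s t h

lemma rg_lip : LipschitzWith 1 rg := by
  refine LipschitzWith.of_dist_le_mul fun s t => ?_
  rw [NNReal.coe_one, one_mul]
  rcases le_total s t with h | h
  · rw [dist_comm, dist_comm s t, Real.dist_eq]
    exact (rg_dist s t h).trans (le_abs_self _)
  · rw [Real.dist_eq]
    exact (rg_dist t s h).trans (le_abs_self _)

lemma rg_mem {s : ℝ} (hs : s ∈ Icc (0 : ℝ) 8) :
    (0 ≤ gx s ∧ gx s ≤ 3 ∧ 0 ≤ gy s ∧ gy s ≤ 1) ∧
      (gx s = 0 ∨ gx s = 3 ∨ gy s = 0 ∨ gy s = 1) := by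
  obtain ⟨h1, h2⟩ := hs
  unfold gx gy
  split_ifs
  · exact ⟨⟨by linarith, by linarith, by linarith, by linarith⟩, by simp⟩
  · exact ⟨⟨by linarith, by linarith, by linarith, by linarith⟩, by simp⟩
  · exact ⟨⟨by linarith, by linarith, by linarith, by linarith⟩, by simp⟩
  · exact ⟨⟨by linarith, by linarith, by linarith, by linarith⟩, by simp⟩
  · exact ⟨⟨by linarith, by linarith, by linarith, by linarith⟩, by simp⟩

/-- the bottom or top side -/
def hs (c : ℝ) : Set E2 := {p | 0 ≤ p 0 ∧ p 0 ≤ 3 ∧ p 1 = c}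

/-- the left or right side -/
def vs (c : ℝ) : Set E2 := {p | 0 ≤ p 1 ∧ p 1 ≤ 1 ∧ p 0 = c}

lemma hs_seg (c : ℝ) : hs c = segment ℝ (!₂[0, c] : E2) !₂[3, c] := by
  ext p
  rw [segment_eq_image, mem_image]
  constructor
  · rintro ⟨h1, h2, h3⟩
    refine ⟨p 0 / 3, ⟨by positivity, by linarith⟩, ?_⟩
    ext i
    fin_cases i
    · simp
    · simp [h3]
      ring
  · rintro ⟨t, ⟨h1, h2⟩, rfl⟩
    refine ⟨?_, ?_, ?_⟩
    · simp
      linarith
    · simp
      linarith
    · simp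
      ring

lemma vs_seg (c : ℝ) : vs c = segment ℝ (!₂[c, 0] : E2) !₂[c, 1] := by
  ext p
  rw [segment_eq_image, mem_image]
  constructor
  · rintro ⟨h1, h2, h3⟩
    refine ⟨p 1, ⟨h1, h2⟩, ?_⟩
    ext i
    fin_cases i
    · simp [h3]
      ring
    · simp
  · rintro ⟨t, ⟨h1, h2⟩, rfl⟩
    refine ⟨?_, ?_, ?_⟩
    · simpa using h1
    · simpa using h2
    · simp
      ring

lemma hs_len (c : ℝ) : μH[1] (hs c) = 3 := by
  rw [hs_seg, hausdorffMeasure_segment, edist_dist, EuclideanSpace.dist_eq]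
  simp [Fin.sum_univ_two, Real.dist_eq]

lemma vs_len (c : ℝ) : μH[1] (vs c) = 1 := by
  rw [vs_seg, hausdorffMeasure_segment, edist_dist, EuclideanSpace.dist_eq]
  simp [Fin.sum_univ_two, Real.dist_eq]

lemma cont_coord (i : Fin 2) : Continuous fun p : E2 => p i :=
  (EuclideanSpace.proj i : E2 →L[ℝ] ℝ).continuous

lemma hs_meas (c : ℝ) : MeasurableSet (hs c) :=
  ((isClosed_le continuous_const (cont_coord 0)).inter
    ((isClosed_le (cont_coord 0) continuous_const).inter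
      (isClosed_eq (cont_coord 1) continuous_const))).measurableSet

lemma vs_meas (c : ℝ) : MeasurableSet (vs c) :=
  ((isClosed_le continuous_const (cont_coord 1)).inter
    ((isClosed_le (cont_coord 1) continuous_const).inter
      (isClosed_eq (cont_coord 0) continuous_const))).measurableSet

lemma hs_disj : Disjoint (hs 0) (hs 1) := by
  rw [Set.disjoint_left]
  rintro p ⟨-, -, h1⟩ ⟨-, -, h2⟩
  rw [h1] at h2
  exact zero_ne_one h2

lemma vs_disj : Disjoint (vs 0) (vs 3) := by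
  rw [Set.disjoint_left]
  rintro p ⟨-, -, h1⟩ ⟨-, -, h2⟩
  rw [h1] at h2
  norm_num at h2

lemma inter_sub : (hs 0 ∪ hs 1) ∩ (vs 0 ∪ vs 3) ⊆
    ({!₂[0, 0], !₂[3, 0], !₂[0, 1], !₂[3, 1]} : Set E2) := by
  have key : ∀ (p : E2) (a b : ℝ), p 0 = a → p 1 = b → p = !₂[a, b] := by
    intro p a b h1 h2
    ext i
    fin_cases i
    · exact h1
    · exact h2
  rintro p ⟨⟨-, -, h1⟩ | ⟨-, -, h1⟩, ⟨-, -, h2⟩ | ⟨-, -, h2⟩⟩ <;> rw [key p _ _ h2 h1] <;> simp

lemma front_len : μH[1] ((hs 0 ∪ hs 1) ∪ (vs 0 ∪ vs 3)) = ENNReal.ofReal 8 := by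
  have : NullSingletonClass (μH[1] : Measure E2) :=
    Measure.nullSingletonClass_hausdorff E2 one_pos
  rw [measure_union₀ ((vs_meas 0).union (vs_meas 3)).nullMeasurableSet
    (show μH[1] ((hs 0 ∪ hs 1) ∩ (vs 0 ∪ vs 3)) = 0 from measure_mono_null inter_sub
      (Set.Finite.measure_zero (by simp) _)), measure_union hs_disj (hs_meas 1),
    measure_union vs_disj (vs_meas 3), hs_len, hs_len, vs_len, vs_len]
  norm_num

end ExRAux

open ExRAux

theorem rC_region : Region rC := by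
  refine ⟨rC_compact, ?_, ?_⟩
  · rw [rC_eq]
    exact (convex_Icc lo hi).linear_preimage (EuclideanSpace.equiv (Fin 2) ℝ).toLinearMap
  · rw [rC_int]
    refine ⟨!₂[1, 1 / 2], ?_⟩
    simp
    norm_num

theorem rC_frontier : frontier rC = {p | p ∈ rC ∧ (p 0 = 0 ∨ p 0 = 3 ∨ p 1 = 0 ∨ p 1 = 1)} := by
  rw [frontier, rC_closed.closure_eq, rC_int]
  ext p
  simp only [Set.mem_sdiff, mem_ofPred_eq]
  refine and_congr_right fun h => ?_
  obtain ⟨h1, h2, h3, h4⟩ := h
  constructor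
  · intro h5
    by_contra h6
    push Not at h6
    obtain ⟨g1, g2, g3, g4⟩ := h6
    exact h5 ⟨lt_of_le_of_ne h1 (Ne.symm g1), lt_of_le_of_ne h2 g2, lt_of_le_of_ne h3 (Ne.symm g3),
      lt_of_le_of_ne h4 g4⟩
  · rintro (h | h | h | h) ⟨g1, g2, g3, g4⟩ <;> linarith

theorem rg_arc : ArcParam rC 8 rg := by
  have hset : frontier rC = (hs 0 ∪ hs 1) ∪ (vs 0 ∪ vs 3) := by
    rw [rC_frontier]
    ext p
    simp only [rC, hs, vs, mem_ofPred_eq, mem_union]
    constructor
    · rintro ⟨⟨h1, h2, h3, h4⟩, h | h | h | h⟩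
      · exact Or.inr (Or.inl ⟨h3, h4, h⟩)
      · exact Or.inr (Or.inr ⟨h3, h4, h⟩)
      · exact Or.inl (Or.inl ⟨h1, h2, h⟩)
      · exact Or.inl (Or.inr ⟨h1, h2, h⟩)
    · rintro ((⟨h1, h2, h⟩ | ⟨h1, h2, h⟩) | (⟨h1, h2, h⟩ | ⟨h1, h2, h⟩)) <;> rw [h] <;>
        norm_num [h1, h2]
  refine ⟨by norm_num, rg_lip.lipschitzOnWith, ?_, ?_, ?_⟩
  · rw [rg_eq_iff, rg_zero, rg_one]
    norm_num [gx, gy]
  · rw [rC_frontier]
    ext p
    constructor
    · rintro ⟨s, hs, rfl⟩
      simp only [rC, mem_ofPred_eq, rg_zero, rg_one]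
      exact rg_mem hs
    · rintro ⟨⟨h1, h2, h3, h4⟩, h⟩
      simp only [mem_image, rg_eq_iff]
      rcases h with h | h | h | h
      · refine ⟨6 + p 1, ⟨by linarith, by linarith⟩, ?_⟩
        unfold gx gy
        split_ifs <;> constructor <;> linarith
      · refine ⟨3 - p 1, ⟨by linarith, by linarith⟩, ?_⟩
        unfold gx gy
        split_ifs <;> constructor <;> linarith
      · refine ⟨6 - p 0, ⟨by linarith, by linarith⟩, ?_⟩
        unfold gx gy
        split_ifs <;> constructor <;> linarith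
      · rcases le_total (p 0) 1 with h5 | h5
        · refine ⟨7 + p 0, ⟨by linarith, by linarith⟩, ?_⟩
          unfold gx gy
          split_ifs <;> constructor <;> linarith
        · refine ⟨p 0 - 1, ⟨by linarith, by linarith⟩, ?_⟩
          unfold gx gy
          split_ifs <;> constructor <;> linarith
  · rw [hset]
    exact front_len

theorem rg_inj : InjOn rg (Ico 0 8) := by
  rintro s ⟨h1, h2⟩ t ⟨h3, h4⟩ h
  rw [rg_eq_iff, rg_zero, rg_one] at h
  obtain ⟨h5, h6⟩ := h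
  unfold gx at h5
  unfold gy at h6
  split_ifs at h5 h6 <;> linarith

theorem rC_vol : volume rC = 3 := by
  have h := (PiLp.volume_preserving_ofLp (Fin 2)).measure_preimage
    (measurableSet_Icc (a := lo) (b := hi)).nullMeasurableSet
  have h2 : rC = (WithLp.ofLp ⁻¹' (Icc lo hi) : Set E2) := by
    rw [rC_eq]; rfl
  rw [h2, h, Real.volume_Icc_pi]
  simp [lo, hi, Fin.prod_univ_two]

end Pool.Agent.Lib.FOLD
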