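import Pool.Agent.Lib.FOLD.ExG
import Pool.Agent.Lib.FOLD.ExH
import Pool.Agent.Lib.FOLD.Sim

/-!
# FOLD.Exa: the folding of the rectangle of area 1 (0.5 h)
PROOF. Assemble the structure `Fold rC 8 rg rQ` from ExR, ExQ, ExF, ExG, ExH; then `plf_sim` with `t = 1/√3`: area `3/3 = 1`, volume `≥ (1/3)/(3√3) = 1/(9√3)` (`vol_sim`).
-/

set_option autoImplicit false

open MeasureTheory Set Filter Topology Metric
open scoped MeasureTheory ENNReal

namespace Pool.Agent.Lib.FOLD

theorem rect_fold : PLFolding rC 8 rg rQ := by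
  choose A hA using rM_iso
  refine ⟨{
    n := 6
    V := rV
    A := A
    f := rf
    region := rC_region
    arc := rg_arc
    inj := rg_inj
    cpt := rQ_cpt
    cvx := rQ_cvx
    int := rQ_int
    indep := rV_indep
    cover := ?_
    disj := ?_
    rigid := ?_
    onto := rf_onto
    glue := rf_glue
    edge := ?_ }⟩
  · simp only [rT_eq]
    exact rT_cover
  · intro j k h
    simp only [rT_eq]
    exact rT_disj j k h
  · intro k p hp
    rw [rT_eq] at hp
    rw [rf_eq k hp, hA]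
  · intro k i j h
    rw [rT_eq] at h
    exact rf_edge k i j h

theorem rect_one : ∃ (C : Set E2) (L : ℝ) (γ : ℝ → E2) (Q : Set E3), PLFolding C L γ Q ∧ volume C = 1 ∧
    ENNReal.ofReal (1 / (9 * √3)) ≤ volume Q := by
  have h3 : (0 : ℝ) < √3 := Real.sqrt_pos.2 (by norm_num)
  have hs : √3 * √3 = 3 := Real.mul_self_sqrt (by norm_num)
  have ht : (0 : ℝ) < 1 / √3 := by positivity
  refine ⟨_, _, _, _, plf_sim rect_fold ht 0 0, ?_, ?_⟩
  · rw [vol_sim ht, rC_vol, finrank_euclideanSpace_fin]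
    have e : (1 / √3) ^ 2 = (1 / 3 : ℝ) := by
      rw [div_pow, sq (√3), hs]; norm_num
    rw [e]
    have : (3 : ℝ≥0∞) = ENNReal.ofReal 3 := by norm_num
    rw [this, ← ENNReal.ofReal_mul (by norm_num)]
    norm_num
  · rw [vol_sim ht, finrank_euclideanSpace_fin]
    have e : (1 / (9 * √3) : ℝ) = (1 / √3) ^ 3 * (1 / 3) := by
      have : (√3) ^ 3 = 3 * √3 := by rw [pow_succ, sq, hs]
      rw [div_pow, this]; field_simp; norm_num
    rw [e, ENNReal.ofReal_mul (by positivity)]
    gcongr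
    exact rQ_vol

end Pool.Agent.Lib.FOLD
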