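import Pool.Agent.Lib.FOLD.TeS
import Pool.Agent.Lib.FOLD.DiQ
import Pool.Agent.Lib.FOLD.VoC
import Pool.Agent.Lib.FOLD.Sim

/-!
# FOLD.FinA: upper bound for the volume, scaling (0.8 h)
PROOF. `fold_bound`: `D = diam Q > 0` (nonempty interior); `vol_le_diam` with `tri_le` (`A = 1`): `volume Q ≤ 16/D`; and `Q ⊆ closedBall z D` for `z ∈ Q`, `volume ≤ (4/3)π D³ ≤ 5 D³`; so `≤ 16` in both cases `D ≤ 1`, `D ≥ 1`.
`le_of_unit`: for a `Folding C' L' γ' P'` with `volume C' = 1` take its sequences; `a i = (volume (c i)).toReal → 1` (`vol_cont`; the `c i` are regions, `C'` is a region); for large `i` `a i > 0`, `plf_sim` with `t = 1/√(a i)` gives a `PLFolding` of a region of area `1` (`vol_sim`) with volume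
`(a i)^(-3/2) volume (q i)`, so `volume (q i) ≤ M (a i)^(3/2)`; `volume (q i) → volume P'` (`vol_cont`).
-/

set_option autoImplicit false

open MeasureTheory Set Filter Topology Metric
open scoped MeasureTheory ENNReal

namespace Pool.Agent.Lib.FOLD

theorem fold_bound {C : Set E2} {L : ℝ} {γ : ℝ → E2} {Q : Set E3} (h : PLFolding C L γ Q)
    (hA : volume C = 1) : volume Q ≤ 16 := by
  obtain ⟨F⟩ := h
  have hA1 : (volume C).toReal = 1 := by rw [hA]; simp
  have hfin : volume Q ≠ ⊤ := F.cpt.measure_lt_top.ne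
  -- the diameter is positive
  have hD : 0 < diam Q := by
    obtain ⟨z, hz⟩ := F.int
    obtain ⟨r, hr, hb⟩ := Metric.isOpen_iff.1 isOpen_interior z hz
    have hz' : z ∈ Q := interior_subset hz
    obtain ⟨v, hv⟩ : ∃ v : E3, v ≠ 0 := exists_ne 0
    have hv0 : 0 < ‖v‖ := norm_pos_iff.2 hv
    have hw : z + (r / 2 / ‖v‖) • v ∈ ball z r := by
      rw [mem_ball, dist_eq_norm, add_sub_cancel_left, norm_smul, Real.norm_of_nonneg (by positivity),
        div_mul_cancel₀ _ hv0.ne']
      linarith
    have hwQ : z + (r / 2 / ‖v‖) • v ∈ Q := interior_subset (hb hw)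
    have h1 := dist_le_diam_of_mem F.cpt.isBounded hwQ hz'
    have h2 : dist (z + (r / 2 / ‖v‖) • v) z = r / 2 := by
      rw [dist_eq_norm, add_sub_cancel_left, norm_smul, Real.norm_of_nonneg (by positivity),
        div_mul_cancel₀ _ hv0.ne']
    rw [h2] at h1
    linarith
  rcases le_or_gt 1 (diam Q) with h1 | h1
  · have h2 := vol_le_diam F.cpt (A := 1)
      (fun p hp x hx y hy => (tri_le F hp hx hy).trans (le_of_eq hA1)) hD
    have h3 : (volume Q).toReal ≤ 16 := by
      refine h2.trans ?_
      rw [div_le_iff₀ hD]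
      nlinarith
    have h4 := ENNReal.ofReal_le_ofReal h3
    rw [ENNReal.ofReal_toReal hfin] at h4
    refine h4.trans (le_of_eq ?_)
    norm_num
  · obtain ⟨z, hz⟩ := F.int
    have hz' : z ∈ Q := interior_subset hz
    have hsub : Q ⊆ closedBall z 1 := fun w hw => by
      rw [mem_closedBall]
      exact (dist_le_diam_of_mem F.cpt.isBounded hw hz').trans h1.le
    refine (measure_mono hsub).trans ?_
    rw [EuclideanSpace.volume_closedBall_fin_three]
    rw [ENNReal.ofReal_one, one_pow, one_mul]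
    have hpi : Real.pi * 4 / 3 ≤ 16 := by
      have := Real.pi_le_four
      linarith
    refine (ENNReal.ofReal_le_ofReal hpi).trans (le_of_eq ?_)
    norm_num

theorem le_of_unit {M : ℝ≥0∞} (hM : ∀ (C : Set E2) (L : ℝ) (γ : ℝ → E2) (Q : Set E3),
      PLFolding C L γ Q → volume C = 1 → volume Q ≤ M)
    {C' : Set E2} {L' : ℝ} {γ' : ℝ → E2} {P' : Set E3} (h : Folding C' L' γ' P') (hA : volume C' = 1) :
    volume P' ≤ M := by
  obtain ⟨hR, -, hPc, hPv, hPn, c, l, g, q, hF, hc, -, -, hq⟩ := h
  have F : ∀ i, Fold (c i) (l i) (g i) (q i) := fun i => (hF i).some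
  have hCn : C'.Nonempty := hR.int.mono interior_subset
  have h1 : Tendsto (fun i => volume (c i)) atTop (𝓝 1) := by
    rw [← hA]
    exact vol_cont (fun i => (F i).region.cpt) (fun i => (F i).region.int.mono interior_subset)
      (fun i => (F i).region.cvx) hR.cpt hCn hR.cvx hc
  have h2 : Tendsto (fun i => volume (q i)) atTop (𝓝 (volume P')) :=
    vol_cont (fun i => (F i).cpt) (fun i => (F i).int.mono interior_subset)
      (fun i => (F i).cvx) hPc hPn hPv hq
  have h3 : Tendsto (fun i => (volume (c i)).toReal) atTop (𝓝 1) := by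
    have := (ENNReal.tendsto_toReal ENNReal.one_ne_top).comp h1
    rwa [ENNReal.toReal_one] at this
  have h4 : Tendsto (fun i => ENNReal.ofReal ((1 / √((volume (c i)).toReal)) ^ 3)) atTop (𝓝 1) := by
    have h5 : Tendsto (fun i => (1 / √((volume (c i)).toReal)) ^ 3) atTop (𝓝 1) := by
      have h6 : Tendsto (fun i => √((volume (c i)).toReal)) atTop (𝓝 1) := by
        have := (Real.continuous_sqrt.tendsto 1).comp h3
        rwa [Real.sqrt_one] at this
      have h7 := ((tendsto_const_nhds (x := (1 : ℝ))).div h6 one_ne_zero).pow 3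
      simpa using h7
    have := (ENNReal.continuous_ofReal.tendsto 1).comp h5
    rwa [ENNReal.ofReal_one] at this
  have h5 : Tendsto (fun i => ENNReal.ofReal ((1 / √((volume (c i)).toReal)) ^ 3) * volume (q i)) atTop
      (𝓝 (volume P')) := by
    have := ENNReal.Tendsto.mul h4 (Or.inl one_ne_zero) h2 (Or.inr ENNReal.one_ne_top)
    rwa [one_mul] at this
  refine le_of_tendsto h5 ?_
  have hev : ∀ᶠ i in atTop, 0 < (volume (c i)).toReal := h3.eventually (lt_mem_nhds one_pos)
  filter_upwards [hev] with i hi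
  have ht : 0 < 1 / √((volume (c i)).toReal) := by positivity
  have hs := plf_sim (hF i) ht 0 0
  have hv2 := vol_sim ht (0 : E2) (c i)
  have hv3 := vol_sim ht (0 : E3) (q i)
  have hci : volume (c i) = ENNReal.ofReal ((volume (c i)).toReal) :=
    (ENNReal.ofReal_toReal (F i).region.cpt.measure_lt_top.ne).symm
  have hone : volume ((fun p => (1 / √((volume (c i)).toReal)) • p + (0 : E2)) '' c i) = 1 := by
    rw [hv2]
    conv_lhs =>
      rw [hci]
    rw [ENNReal.toReal_ofReal hi.le, ← ENNReal.ofReal_mul (by positivity)]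
    rw [finrank_euclideanSpace_fin, div_pow, Real.sq_sqrt hi.le, one_pow, one_div, inv_mul_cancel₀ hi.ne',
      ENNReal.ofReal_one]
  have hfinal := hM _ _ _ _ hs hone
  rw [hv3, finrank_euclideanSpace_fin] at hfinal
  exact hfinal

end Pool.Agent.Lib.FOLD
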