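import Pool.Agent.Lib.FOLD.Defs
import Pool.Agent.Lib.P670edc.Triangle

/-!
# FOLD.Hgt: diameter and height of a region (0.8 h)
PROOF. `C` is compact and nonempty: choose `a, b ∈ C` with `dist a b` maximal (`IsCompact.exists_isMaxOn` on `C ×ˢ C`), it is `diam C`, positive because the interior is nonempty. `e'` = the rotation of `(b-a)/‖b-a‖` by a right
angle. For `p ∈ C` the triangle `convexHull {a, b, p} ⊆ C` has area `√(‖b-a‖²‖p-a‖² - ⟪b-a,p-a⟫²)/2 = ‖b-a‖ |⟪p-a,e'⟫|/2` (`Pool.Agent.Lib.P670edc.volume_triangle`), at most `(volume C).toReal` (finite, `C` compact).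
-/

set_option autoImplicit false

open MeasureTheory Set Filter Topology Metric
open scoped MeasureTheory ENNReal

namespace Pool.Agent.Lib.FOLD

namespace HgtAux

/-- rotation by a right angle -/
noncomputable def rot (w : E2) : E2 := !₂[-(w 1), w 0]

lemma rot0 (w : E2) : rot w 0 = -(w 1) := by simp [rot]

lemma rot1 (w : E2) : rot w 1 = w 0 := by simp [rot]

lemma nsq (w : E2) : ‖w‖ ^ 2 = w 0 ^ 2 + w 1 ^ 2 := by
  rw [EuclideanSpace.real_norm_sq_eq, Fin.sum_univ_two]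

lemma inn (v w : E2) : inner ℝ v w = v 0 * w 0 + v 1 * w 1 := by
  rw [EuclideanSpace.inner_eq_star_dotProduct]
  simp only [dotProduct, Fin.sum_univ_two, Pi.star_apply, star_trivial]
  ring

lemma norm_rot (w : E2) : ‖rot w‖ = ‖w‖ := by
  have h2 : ‖rot w‖ ^ 2 = ‖w‖ ^ 2 := by
    rw [nsq, nsq, rot0, rot1]
    ring
  exact (sq_eq_sq₀ (norm_nonneg _) (norm_nonneg _)).1 h2

lemma inner_rot (v w : E2) : inner ℝ v (rot w) = w 0 * v 1 - w 1 * v 0 := by
  rw [inn, rot0, rot1]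
  ring

lemma gram (v w : E2) : ‖w‖ ^ 2 * ‖v‖ ^ 2 - (inner ℝ w v) ^ 2 = (inner ℝ v (rot w)) ^ 2 := by
  rw [inner_rot, nsq, nsq, inn]
  ring

lemma exU (w : E2) (hw : 0 < ‖w‖) : ∃ e : E2, ‖e‖ = 1 ∧ inner ℝ w e = 0 ∧
    ∀ v : E2, |inner ℝ v e| = Real.sqrt (‖w‖ ^ 2 * ‖v‖ ^ 2 - (inner ℝ w v) ^ 2) / ‖w‖ := by
  refine ⟨‖w‖⁻¹ • rot w, ?_, ?_, ?_⟩
  · rw [norm_smul, norm_rot, norm_inv, norm_norm, inv_mul_cancel₀ hw.ne']
  · rw [inner_smul_right, inner_rot]
    ring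
  · intro v
    rw [gram, Real.sqrt_sq_eq_abs, inner_smul_right, abs_mul, abs_inv, abs_norm, inv_mul_eq_div]

lemma exD {C : Set E2} (hC : Region C) : ∃ a ∈ C, ∃ b ∈ C, dist a b = diam C ∧ 0 < dist a b := by
  obtain ⟨c, hc⟩ := hC.int
  have hcC : c ∈ C := interior_subset hc
  have hK : IsCompact (C ×ˢ C) := hC.cpt.prod hC.cpt
  obtain ⟨q, hab, hmax⟩ := hK.exists_isMaxOn ⟨(c, c), mk_mem_prod hcC hcC⟩
    (f := fun q : E2 × E2 => dist q.1 q.2) continuous_dist.continuousOn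
  have hmax' := isMaxOn_iff.1 hmax
  have hle : ∀ x ∈ C, ∀ y ∈ C, dist x y ≤ dist q.1 q.2 := fun x hx y hy =>
    hmax' (x, y) (mk_mem_prod hx hy)
  have hd : dist q.1 q.2 = diam C :=
    le_antisymm (dist_le_diam_of_mem hC.cpt.isBounded hab.1 hab.2)
      (diam_le_of_forall_dist_le dist_nonneg hle)
  refine ⟨q.1, hab.1, q.2, hab.2, hd, ?_⟩
  rcases (dist_nonneg : 0 ≤ dist q.1 q.2).eq_or_lt with h0 | h0
  · exfalso
    have hsub : C ⊆ {c} := by
      intro x hx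
      have h5 := hle x hx c hcC
      rw [← h0] at h5
      exact dist_le_zero.1 h5
    have hi : interior C ⊆ interior {c} := interior_mono hsub
    rw [interior_singleton] at hi
    exact hi hc
  · exact h0

lemma area {C : Set E2} (hC : Region C) {a b p : E2} (ha : a ∈ C) (hb : b ∈ C) (hp : p ∈ C) :
    Real.sqrt (‖b - a‖ ^ 2 * ‖p - a‖ ^ 2 - (inner ℝ (b - a) (p - a)) ^ 2) ≤
      2 * (volume C).toReal := by
  have hsub : convexHull ℝ ({a, b, p} : Set E2) ⊆ C := by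
    apply convexHull_min _ hC.cvx
    intro x hx
    simp only [mem_insert_iff, mem_singleton_iff] at hx
    rcases hx with hx | hx | hx
    · exact hx ▸ ha
    · exact hx ▸ hb
    · exact hx ▸ hp
  have hvol : volume (convexHull ℝ ({a, b, p} : Set E2)) ≤ volume C := measure_mono hsub
  rw [Pool.Agent.Lib.P670edc.volume_triangle a b p] at hvol
  have hfin : volume C ≠ ∞ := hC.cpt.measure_lt_top.ne
  have h3 := (ENNReal.ofReal_le_iff_le_toReal hfin).1 hvol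
  linarith

end HgtAux

open HgtAux in
theorem height {C : Set E2} (hC : Region C) : ∃ a ∈ C, ∃ b ∈ C, ∃ e' : E2, dist a b = diam C ∧ 0 < dist a b ∧
    ‖e'‖ = 1 ∧ inner ℝ (b - a) e' = 0 ∧
    ∀ p ∈ C, |inner ℝ (p - a) e'| ≤ 2 * (volume C).toReal / diam C := by
  obtain ⟨a, ha, b, hb, hd, hpos⟩ := exD hC
  have hw : dist a b = ‖b - a‖ := by rw [dist_comm, dist_eq_norm]
  have hn : 0 < ‖b - a‖ := hw ▸ hpos
  obtain ⟨e', h1, h2, h3⟩ := exU (b - a) hn
  refine ⟨a, ha, b, hb, e', hd, hpos, h1, h2, ?_⟩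
  intro p hp
  rw [h3, ← hd, hw]
  exact div_le_div_of_nonneg_right (area hC ha hb hp) hn.le

end Pool.Agent.Lib.FOLD
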