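import Pool.Agent.Lib.FOLD.Defs

/-!
# FOLD.MaxV: linear functionals are maximal at a vertex (0.7 h)
PROOF. `Q` is compact and nonempty (`int`). `u = 0`: take any vertex (`F.n > 0` because `C` is nonempty, `cover`). `u ≠ 0`: let `z0 ∈ Q` be a maximum point of `⟪u,·⟫`; it is not in `interior Q` (move in the direction `u`), so
`z0 ∈ frontier Q = f '' C`, `z0 = f p`, `p ∈ tri (V k)`; `f = A k` there, `p ∈ convexHull (range (V k))` and `x ↦ ⟪u, A k x⟫` is affine, so `⟪u, f p⟫ ≤ ⟪u, f(V k i)⟫` for some `i`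
(`ConvexOn.exists_ge_of_mem_convexHull`, the affine function is convex). The vertex `V k i` is in `F.vs`.
-/

set_option autoImplicit false

open MeasureTheory Set Filter Topology Metric
open scoped MeasureTheory ENNReal

namespace Pool.Agent.Lib.FOLD

variable {C : Set E2} {L : ℝ} {γ : ℝ → E2} {Q : Set E3}

theorem MaxVAux.mem_vs (F : Fold C L γ Q) (k : Fin F.n) (i : Fin 3) : F.V k i ∈ F.vs := by
  classical
  unfold Fold.vs
  exact Finset.mem_image.2 ⟨(k, i), Finset.mem_univ _, rfl⟩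

theorem MaxVAux.tri_max (F : Fold C L γ Q) (u : E3) (k : Fin F.n) {p : E2} (hp : p ∈ tri (F.V k)) :
    ∃ i, (inner ℝ u (F.f p) : ℝ) ≤ inner ℝ u (F.f (F.V k i)) := by
  obtain ⟨i, hi⟩ := Finite.exists_max (fun i : Fin 3 => (inner ℝ u (F.A k (F.V k i)) : ℝ))
  refine ⟨i, ?_⟩
  have hV : ∀ j, F.V k j ∈ tri (F.V k) := fun j => subset_convexHull ℝ _ (mem_range_self j)
  have h1 : Convex ℝ {x : E2 | (inner ℝ u (F.A k x) : ℝ) ≤ inner ℝ u (F.A k (F.V k i))} := by
    have h2 : Convex ℝ {y : E3 | (innerSL ℝ u) y ≤ inner ℝ u (F.A k (F.V k i))} :=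
      convex_halfSpace_le (innerSL ℝ u).toLinearMap.isLinear _
    exact h2.affine_preimage (F.A k).toAffineMap
  have h3 : p ∈ {x : E2 | (inner ℝ u (F.A k x) : ℝ) ≤ inner ℝ u (F.A k (F.V k i))} := by
    refine convexHull_min ?_ h1 hp
    rintro x ⟨j, rfl⟩
    exact hi j
  rw [F.rigid k p hp, F.rigid k _ (hV i)]
  exact h3

theorem max_vertex (F : Fold C L γ Q) (u : E3) :
    ∃ w ∈ F.vs, ∀ z ∈ Q, inner ℝ u z ≤ inner ℝ u (F.f w) := by
  by_cases hu : u = 0
  · obtain ⟨x, hx⟩ := F.region.int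
    have hxC : x ∈ C := interior_subset hx
    rw [← F.cover, mem_iUnion] at hxC
    obtain ⟨k, -⟩ := hxC
    refine ⟨F.V k 0, MaxVAux.mem_vs F k 0, fun z _ => ?_⟩
    rw [hu, inner_zero_left, inner_zero_left]
  · obtain ⟨x, hx⟩ := F.int
    have hQne : Q.Nonempty := ⟨x, interior_subset hx⟩
    obtain ⟨z0, hz0, hmax⟩ := F.cpt.exists_isMaxOn hQne
      (f := fun z => (inner ℝ u z : ℝ)) (by fun_prop)
    have hfr : z0 ∈ frontier Q := by
      rw [F.cpt.isClosed.frontier_eq]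
      refine ⟨hz0, fun hint => ?_⟩
      have hc : Tendsto (fun t : ℝ => z0 + t • u) (𝓝[>] 0) (𝓝 (z0 + (0 : ℝ) • u)) :=
        ((continuous_const.add (continuous_id.smul continuous_const)).tendsto 0).mono_left
          nhdsWithin_le_nhds
      rw [zero_smul, add_zero] at hc
      have h1 := hc.eventually (isOpen_interior.mem_nhds hint)
      have h2 : ∀ᶠ t : ℝ in 𝓝[>] 0, t ∈ Ioi (0 : ℝ) := self_mem_nhdsWithin
      obtain ⟨t, ht1, ht2⟩ := (h1.and h2).exists
      have h3 := hmax (interior_subset ht1)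
      have h4 : (inner ℝ u (z0 + t • u) : ℝ) ≤ inner ℝ u z0 := h3
      rw [inner_add_right, inner_smul_right, real_inner_self_eq_norm_sq] at h4
      have h5 : 0 < ‖u‖ := norm_pos_iff.2 hu
      have h6 : (0 : ℝ) < t := ht2
      have h7 : 0 < t * ‖u‖ ^ 2 := by positivity
      linarith
    rw [← F.onto] at hfr
    obtain ⟨p, hp, hpz⟩ := hfr
    rw [← F.cover, mem_iUnion] at hp
    obtain ⟨k, hk⟩ := hp
    obtain ⟨i, hi⟩ := MaxVAux.tri_max F u k hk
    refine ⟨F.V k i, MaxVAux.mem_vs F k i, fun z hz => le_trans ?_ hi⟩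
    rw [hpz]
    exact hmax hz

end Pool.Agent.Lib.FOLD
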