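import Pool.Agent.Lib.FOLD.Gau
import Pool.Agent.Lib.FOLD.Cnt

/-!
# FOLD.SupS: supporting lines of a thin region at middle points (1 h)
PROOF. Let `e = (dist a b)⁻¹ • (b - a)`; `e, e'` is an orthonormal basis of the plane. For `w ∈ W` write `w - a = t e + h e'`, `t = ⟪w - a, e⟫ ∈ [δ, ℓ - δ]`, `|h| ≤ h0`, `b - w = (ℓ - t) e - h e'`, `ℓ = dist a b`.
Let `u ∈ Ext C w`, first `⟪u,p⟫ ≤ ⟪u,w⟫` on `C`: `p = a`: `t⟪u,e⟫ + h⟪u,e'⟫ ≥ 0`; `p = b`: `(ℓ-t)⟪u,e⟫ - h⟪u,e'⟫ ≤ 0`. If `⟪u,e⟫ ≥ 0`: `δ⟪u,e⟫ ≤ (ℓ-t)⟪u,e⟫ ≤ |h||⟪u,e'⟫|`, if `< 0`: `δ|⟪u,e⟫| ≤ t|⟪u,e⟫| ≤ |h||⟪u,e'⟫|`. The other case by `u → -u`.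
For almost all `u` (`gau_null` for the differences of the elements of `W`) at most one `w ∈ W` is a maximum point and at most one is a minimum point of `⟪u,·⟫` on `C` (`W ⊆ C`), so at most two `w` have `u ∈ Ext C w`.
`cnt_thin` (`Ext C w` is closed).
-/

set_option autoImplicit false

open MeasureTheory Set Filter Topology Metric
open scoped MeasureTheory ENNReal

namespace Pool.Agent.Lib.FOLD

namespace SupSAux

theorem real_step {x y t h l δ h0 : ℝ} (h1 : δ ≤ t) (h2 : t ≤ l - δ) (hh : |h| ≤ h0)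
    (hc : (0 ≤ t * x + h * y ∧ (l - t) * x - h * y ≤ 0) ∨
      (t * x + h * y ≤ 0 ∧ 0 ≤ (l - t) * x - h * y)) : |x| * δ ≤ h0 * |y| := by
  have hy : |h * y| ≤ h0 * |y| := by
    rw [abs_mul]
    exact mul_le_mul_of_nonneg_right hh (abs_nonneg y)
  have hy1 : h * y ≤ h0 * |y| := (le_abs_self _).trans hy
  have hy2 : -(h * y) ≤ h0 * |y| := (neg_le_abs _).trans hy
  rcases le_total 0 x with hx | hx
  · rw [abs_of_nonneg hx]
    rcases hc with ⟨_, hc⟩ | ⟨hc, _⟩
    · nlinarith [mul_le_mul_of_nonneg_left (show δ ≤ l - t by linarith) hx]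
    · nlinarith [mul_le_mul_of_nonneg_left h1 hx]
  · rw [abs_of_nonpos hx]
    have hx' : 0 ≤ -x := by linarith
    rcases hc with ⟨hc, _⟩ | ⟨_, hc⟩
    · nlinarith [mul_le_mul_of_nonneg_left h1 hx']
    · nlinarith [mul_le_mul_of_nonneg_left (show δ ≤ l - t by linarith) hx']

theorem inner_two {e e' : E2} (he : ‖e‖ = 1) (he' : ‖e'‖ = 1) (ho : inner ℝ e e' = 0) (u v : E2) :
    inner ℝ u v = inner ℝ u e * inner ℝ v e + inner ℝ u e' * inner ℝ v e' := by
  have hon : Orthonormal ℝ ![e, e'] := by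
    rw [orthonormal_iff_ite]
    intro i j
    fin_cases i <;> fin_cases j
    · simp [he]
    · simpa using ho
    · simpa [real_inner_comm] using ho
    · simp [he']
  have hfr : Fintype.card (Fin 2) = Module.finrank ℝ E2 := by simp
  let b0 := basisOfOrthonormalOfCardEqFinrank hon hfr
  have hb0 : (b0 : Fin 2 → E2) = ![e, e'] := coe_basisOfOrthonormalOfCardEqFinrank hon hfr
  let b : OrthonormalBasis (Fin 2) ℝ E2 := b0.toOrthonormalBasis (by rw [hb0]; exact hon)
  have hb : ∀ i, b i = ![e, e'] i := by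
    intro i
    have h1 : (b : Fin 2 → E2) = b0 := Module.Basis.coe_toOrthonormalBasis b0 _
    rw [h1, hb0]
  have h := b.sum_inner_mul_inner u v
  rw [Fin.sum_univ_two, hb 0, hb 1] at h
  simp only [Matrix.cons_val_zero, Matrix.cons_val_one] at h
  rw [← h, real_inner_comm e v, real_inner_comm e' v]

theorem closed_ext (C : Set E2) (w : E2) : IsClosed (Ext C w) := by
  have h : Ext C w = (⋂ z ∈ C, {u : E2 | inner ℝ u z ≤ inner ℝ u w}) ∪
      (⋂ z ∈ C, {u : E2 | inner ℝ u w ≤ inner ℝ u z}) := by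
    ext u
    simp [Ext]
  rw [h]
  refine IsClosed.union ?_ ?_
  · refine isClosed_biInter fun z _ => ?_
    exact isClosed_le (by fun_prop) (by fun_prop)
  · refine isClosed_biInter fun z _ => ?_
    exact isClosed_le (by fun_prop) (by fun_prop)

end SupSAux

open SupSAux

theorem sup_sum {C : Set E2} {a b e' : E2} {δ h0 : ℝ} (ha : a ∈ C) (hb : b ∈ C) (hab : 0 < dist a b)
    (he' : ‖e'‖ = 1) (ho : inner ℝ (b - a) e' = 0) (hδ : 0 < δ)
    (hh : ∀ p ∈ C, |inner ℝ (p - a) e'| ≤ h0) (W : Finset E2)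
    (hW : ∀ w ∈ W, w ∈ C ∧ δ ≤ inner ℝ (w - a) ((dist a b)⁻¹ • (b - a)) ∧
      inner ℝ (w - a) ((dist a b)⁻¹ • (b - a)) ≤ dist a b - δ) :
    ∑ w ∈ W, G2 (Ext C w) ≤
      2 * G2 {u | |inner ℝ u ((dist a b)⁻¹ • (b - a))| * δ ≤ h0 * |inner ℝ u e'|} := by
  classical
  set e : E2 := (dist a b)⁻¹ • (b - a) with he_def
  have hne : ‖b - a‖ = dist a b := by rw [dist_comm, dist_eq_norm]
  have he : ‖e‖ = 1 := by
    rw [he_def, norm_smul, hne, norm_inv, Real.norm_of_nonneg hab.le,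
      inv_mul_cancel₀ hab.ne']
  have hoe : inner ℝ e e' = 0 := by
    rw [he_def, inner_smul_left, ho, mul_zero]
  have hba : b - a = (dist a b) • e := by
    rw [he_def, smul_smul, mul_inv_cancel₀ hab.ne', one_smul]
  have hE : MeasurableSet {u : E2 | |inner ℝ u e| * δ ≤ h0 * |inner ℝ u e'|} := by
    apply IsClosed.measurableSet
    exact isClosed_le (by fun_prop) (by fun_prop)
  refine cnt_thin G2 W (fun w => Ext C w) (fun w _ => (closed_ext C w).measurableSet) hE ?_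
  have hae : ∀ᵐ u ∂G2, ∀ w ∈ W, ∀ w' ∈ W, w ≠ w' → inner ℝ u (w - w') ≠ 0 := by
    rw [Filter.eventually_all_finset]
    intro w _
    rw [Filter.eventually_all_finset]
    intro w' _
    by_cases hw : w = w'
    · exact Filter.Eventually.of_forall fun u h => absurd hw h
    · have h1 : G2 {u | inner ℝ u (w - w') = 0} = 0 := gau_null (sub_ne_zero.2 hw)
      have h2 : ∀ᵐ u ∂G2, inner ℝ u (w - w') ≠ 0 := by
        rw [ae_iff]
        simpa using h1
      exact h2.mono fun u hu _ => hu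
  refine hae.mono fun u hu => ⟨?_, ?_⟩
  · have hsub : W.filter (fun w => u ∈ Ext C w) ⊆
        W.filter (fun w => ∀ z ∈ C, inner ℝ u z ≤ inner ℝ u w) ∪
        W.filter (fun w => ∀ z ∈ C, inner ℝ u w ≤ inner ℝ u z) := by
      intro w hw
      rw [Finset.mem_filter] at hw
      rw [Finset.mem_union, Finset.mem_filter, Finset.mem_filter]
      rcases hw.2 with h | h
      · exact Or.inl ⟨hw.1, h⟩
      · exact Or.inr ⟨hw.1, h⟩
    have hinj : ∀ w ∈ W, ∀ w' ∈ W, inner ℝ u w = inner ℝ u w' → w = w' := by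
      intro w hw w' hw' h
      by_contra hne'
      exact hu w hw w' hw' hne' (by rw [inner_sub_right, h, sub_self])
    have c1 : (W.filter (fun w => ∀ z ∈ C, inner ℝ u z ≤ inner ℝ u w)).card ≤ 1 := by
      rw [Finset.card_le_one]
      intro w hw w' hw'
      rw [Finset.mem_filter] at hw hw'
      exact hinj w hw.1 w' hw'.1 (le_antisymm (hw'.2 w (hW w hw.1).1) (hw.2 w' (hW w' hw'.1).1))
    have c2 : (W.filter (fun w => ∀ z ∈ C, inner ℝ u w ≤ inner ℝ u z)).card ≤ 1 := by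
      rw [Finset.card_le_one]
      intro w hw w' hw'
      rw [Finset.mem_filter] at hw hw'
      exact hinj w hw.1 w' hw'.1 (le_antisymm (hw.2 w' (hW w' hw'.1).1) (hw'.2 w (hW w hw.1).1))
    have h3 := (Finset.card_le_card hsub).trans (Finset.card_union_le _ _)
    have h4 : (W.filter (fun w => u ∈ Ext C w)).card ≤ 2 := by omega
    exact h4
  · intro w hw hx
    obtain ⟨hwC, ht1, ht2⟩ := hW w hw
    have hh' := hh w hwC
    have e1 : inner ℝ u w - inner ℝ u a =
        inner ℝ (w - a) e * inner ℝ u e + inner ℝ (w - a) e' * inner ℝ u e' := by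
      rw [← inner_sub_right, inner_two he he' hoe u (w - a)]
      ring
    have e2 : inner ℝ u b - inner ℝ u w =
        (dist a b - inner ℝ (w - a) e) * inner ℝ u e - inner ℝ (w - a) e' * inner ℝ u e' := by
      have e3 : inner ℝ u b - inner ℝ u a = dist a b * inner ℝ u e := by
        rw [← inner_sub_right, hba, inner_smul_right]
      linear_combination e3 - e1
    have hx2 : (∀ z ∈ C, inner ℝ u z ≤ inner ℝ u w) ∨ (∀ z ∈ C, inner ℝ u w ≤ inner ℝ u z) := hx
    refine real_step (x := inner ℝ u e) (y := inner ℝ u e') ht1 ht2 hh' ?_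
    rw [← e1, ← e2]
    rcases hx2 with h | h
    · exact Or.inl ⟨by linarith [h a ha], by linarith [h b hb]⟩
    · exact Or.inr ⟨by linarith [h a ha], by linarith [h b hb]⟩

end Pool.Agent.Lib.FOLD
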