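import Pool.Agent.Lib.FOLD.Vtx
import Pool.Agent.Lib.FOLD.SupS
import Pool.Agent.Lib.FOLD.MaxV
import Pool.Agent.Lib.FOLD.FLip

/-!
# FOLD.Out: a thin folding is close to the hull of four points (1.3 h)
PROOF. `ℓ = dist a b`, `e = ℓ⁻¹ • (b - a)`, `t(p) = ⟪p - a, e⟫ ∈ [0, ℓ]` for `p ∈ C` (`t ≤ ‖p-a‖ ≤ ℓ`, `ℓ - t = ⟪b - p, e⟫ ≤ ‖b-p‖ ≤ ℓ`). Call `w ∈ vs` good if `f w = f(γ 0)` or `f w = f(γ(L/2))` or some `w' ∈ C` with
`f w' = f w` has `t(w') < δ` or `t(w') > ℓ - δ`. (1) Let `u` be in the set on the left, `z ∈ Q`. By `max_vertex` there is `w ∈ vs` with `⟪u,z'⟫ ≤ ⟪u,f w⟫` on `Q`, so `u ∈ Ext Q (f w)`. If `w` were good: in the first two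
cases `⟪u,z⟫ ≤ ⟪u,f w⟫ = ⟪u,v⟫` contradicts the choice of `z`; if `t(w') < δ` then `‖w' - a‖ ≤ t + |h| ≤ δ + h0` (`0 ≤ t`), so `‖f w - f a‖ ≤ δ + h0` (`f_lip`), `⟪u,z⟫ ≤ ⟪u,f a⟫ + ‖u‖(δ+h0)`, contradiction; same with `b`.
So the set is contained in `⋃_{w ∈ vs not good} Ext Q (f w) = ⋃_{v ∈ I} Ext Q v`, `I = ` image under `f` of the vertices that are not good. (2) For `v ∈ I` (a vertex is good iff its `f` value is, so all `w ∈ vs` over `v` are not good)
`vertex_main` gives `2 G3(Ext Q v) ≤ ∑_{w ∈ vs, w ∈ frontier C, f w = v} G2(Ext C w)`; sum over `v ∈ I`: the right side is a sum over `W = {w ∈ vs | w ∈ frontier C, not good}` (`Finset.sum_fiberwise`..), and the elements of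
`W` are in `C` with `δ ≤ t ≤ ℓ - δ`, so `sup_sum` bounds it by `2 G2{...}`. Divide by `2`.
-/

set_option autoImplicit false

open MeasureTheory Set Filter Topology Metric
open scoped MeasureTheory ENNReal

namespace Pool.Agent.Lib.FOLD

variable {C : Set E2} {L : ℝ} {γ : ℝ → E2} {Q : Set E3}

namespace OutAux

theorem norm_le_two {e e' : E2} (he : ‖e‖ = 1) (he' : ‖e'‖ = 1) (ho : inner ℝ e e' = 0) (v : E2)
    {s h : ℝ} (hs : |inner ℝ v e| ≤ s) (hh : |inner ℝ v e'| ≤ h) : ‖v‖ ≤ s + h := by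
  have h1 := SupSAux.inner_two he he' ho v v
  rw [real_inner_self_eq_norm_sq] at h1
  have hs0 : 0 ≤ s := (abs_nonneg _).trans hs
  have hh0 : 0 ≤ h := (abs_nonneg _).trans hh
  have h2 : (inner ℝ v e : ℝ) * inner ℝ v e ≤ s ^ 2 := by
    rw [← pow_two, ← sq_abs]
    exact pow_le_pow_left₀ (abs_nonneg _) hs 2
  have h3 : (inner ℝ v e' : ℝ) * inner ℝ v e' ≤ h ^ 2 := by
    rw [← pow_two, ← sq_abs]
    exact pow_le_pow_left₀ (abs_nonneg _) hh 2
  have h4 : ‖v‖ ^ 2 ≤ (s + h) ^ 2 := by nlinarith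
  exact (sq_le_sq₀ (norm_nonneg v) (by linarith)).1 h4

end OutAux

open OutAux

theorem four_points (F : Fold C L γ Q) {a b e' : E2} {δ h0 : ℝ} (ha : a ∈ C) (hb : b ∈ C)
    (hab : 0 < dist a b) (hd : ∀ p ∈ C, ∀ q ∈ C, dist p q ≤ dist a b) (he' : ‖e'‖ = 1)
    (ho : inner ℝ (b - a) e' = 0) (hδ : 0 < δ) (hh : ∀ p ∈ C, |inner ℝ (p - a) e'| ≤ h0) :
    G3 {u | ∃ z ∈ Q, ∀ v ∈ ({F.f (γ 0), F.f (γ (L / 2)), F.f a, F.f b} : Set E3),
        inner ℝ u v + ‖u‖ * (δ + h0) < inner ℝ u z} ≤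
      G2 {u | |inner ℝ u ((dist a b)⁻¹ • (b - a))| * δ ≤ h0 * |inner ℝ u e'|} := by
  classical
  set e : E2 := (dist a b)⁻¹ • (b - a) with he_def
  have hne : ‖b - a‖ = dist a b := by rw [dist_comm, dist_eq_norm]
  have he : ‖e‖ = 1 := by
    rw [he_def, norm_smul, hne, norm_inv, Real.norm_of_nonneg hab.le, inv_mul_cancel₀ hab.ne']
  have hoe : inner ℝ e e' = 0 := by
    rw [he_def, inner_smul_left, ho, mul_zero]
  have hba : b - a = (dist a b) • e := by
    rw [he_def, smul_smul, mul_inv_cancel₀ hab.ne', one_smul]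
  have hh0 : 0 ≤ h0 := (abs_nonneg _).trans (hh a ha)
  have hte : ∀ p : E2, inner ℝ (b - p) e = dist a b - inner ℝ (p - a) e := by
    intro p
    have h1 : b - p = (b - a) - (p - a) := by abel
    rw [h1, inner_sub_left]
    have h2 : (inner ℝ (b - a) e : ℝ) = dist a b := by
      rw [hba, inner_smul_left, real_inner_self_eq_norm_sq, he]
      simp
    rw [h2]
  have ht1 : ∀ p ∈ C, inner ℝ (p - a) e ≤ dist a b := by
    intro p hp
    have h1 : inner ℝ (p - a) e ≤ ‖p - a‖ * ‖e‖ := real_inner_le_norm _ _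
    rw [he, mul_one, ← dist_eq_norm] at h1
    exact h1.trans (hd p hp a ha)
  have ht0 : ∀ p ∈ C, 0 ≤ inner ℝ (p - a) e := by
    intro p hp
    have h1 : inner ℝ (b - p) e ≤ ‖b - p‖ * ‖e‖ := real_inner_le_norm _ _
    rw [he, mul_one, ← dist_eq_norm, hte p] at h1
    have h2 := hd b hb p hp
    linarith
  let Gd : E3 → Prop := fun v => v = F.f (γ 0) ∨ v = F.f (γ (L / 2)) ∨
    ∃ w' ∈ C, F.f w' = v ∧ (inner ℝ (w' - a) e < δ ∨ dist a b - δ < inner ℝ (w' - a) e)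
  let I : Finset E3 := (F.vs.image F.f).filter (fun v => ¬ Gd v)
  let W : Finset E2 := F.vs.filter (fun w => w ∈ frontier C ∧ ¬ Gd (F.f w))
  have hCc : IsClosed C := F.region.cpt.isClosed
  have hlip : ∀ p ∈ C, ∀ q ∈ C, ‖F.f p - F.f q‖ ≤ ‖p - q‖ := by
    intro p hp q hq
    have h1 := (f_lip F).dist_le_mul p hp q hq
    rw [dist_eq_norm, dist_eq_norm] at h1
    simpa using h1
  have hsub : {u | ∃ z ∈ Q, ∀ v ∈ ({F.f (γ 0), F.f (γ (L / 2)), F.f a, F.f b} : Set E3),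
      inner ℝ u v + ‖u‖ * (δ + h0) < inner ℝ u z} ⊆ ⋃ v ∈ I, Ext Q v := by
    rintro u ⟨z, hz, hu⟩
    have hu1 : inner ℝ u (F.f (γ 0)) + ‖u‖ * (δ + h0) < inner ℝ u z := hu _ (by simp)
    have hu2 : inner ℝ u (F.f (γ (L / 2))) + ‖u‖ * (δ + h0) < inner ℝ u z := hu _ (by simp)
    have hu3 : inner ℝ u (F.f a) + ‖u‖ * (δ + h0) < inner ℝ u z := hu _ (by simp)
    have hu4 : inner ℝ u (F.f b) + ‖u‖ * (δ + h0) < inner ℝ u z := hu _ (by simp)
    have hn : 0 ≤ ‖u‖ * (δ + h0) := mul_nonneg (norm_nonneg _) (by linarith)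
    obtain ⟨w, hw, hmax⟩ := max_vertex F u
    have hmz := hmax z hz
    have hng : ¬ Gd (F.f w) := by
      rintro (h | h | ⟨w', hw', hf, h⟩)
      · rw [h] at hmz
        linarith
      · rw [h] at hmz
        linarith
      · have key : ∀ c ∈ C, ‖w' - c‖ ≤ δ + h0 →
            inner ℝ u (F.f w) ≤ inner ℝ u (F.f c) + ‖u‖ * (δ + h0) := by
          intro c hc hcn
          have h1 : inner ℝ u (F.f w' - F.f c) ≤ ‖u‖ * ‖F.f w' - F.f c‖ := real_inner_le_norm _ _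
          have h2 : ‖u‖ * ‖F.f w' - F.f c‖ ≤ ‖u‖ * (δ + h0) :=
            mul_le_mul_of_nonneg_left ((hlip w' hw' c hc).trans hcn) (norm_nonneg _)
          rw [hf] at h2
          rw [inner_sub_right, hf] at h1
          linarith
        rcases h with h | h
        · have h3 : ‖w' - a‖ ≤ δ + h0 := by
            refine norm_le_two he he' hoe _ ?_ (hh w' hw')
            rw [abs_of_nonneg (ht0 w' hw')]
            exact h.le
          have h4 := key a ha h3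
          linarith
        · have h3 : ‖w' - b‖ ≤ δ + h0 := by
            rw [norm_sub_rev]
            refine norm_le_two he he' hoe _ ?_ ?_
            · rw [hte w', abs_of_nonneg (by linarith [ht1 w' hw'])]
              linarith
            · have h5 : inner ℝ (b - w') e' = - inner ℝ (w' - a) e' := by
                have h6 : b - w' = (b - a) - (w' - a) := by abel
                rw [h6, inner_sub_left, ho]
                ring
              rw [h5, abs_neg]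
              exact hh w' hw'
          have h4 := key b hb h3
          linarith
    have hI : F.f w ∈ I := by
      simp only [I, Finset.mem_filter, Finset.mem_image]
      exact ⟨⟨w, hw, rfl⟩, hng⟩
    exact mem_biUnion hI (Or.inl hmax)
  have h1 : G3 {u | ∃ z ∈ Q, ∀ v ∈ ({F.f (γ 0), F.f (γ (L / 2)), F.f a, F.f b} : Set E3),
      inner ℝ u v + ‖u‖ * (δ + h0) < inner ℝ u z} ≤ ∑ v ∈ I, G3 (Ext Q v) :=
    (measure_mono hsub).trans (measure_biUnion_finset_le I _)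
  have h2 : 2 * ∑ v ∈ I, G3 (Ext Q v) ≤ ∑ w ∈ W, G2 (Ext C w) := by
    rw [Finset.mul_sum]
    have h3 : ∑ w ∈ W, G2 (Ext C w) = ∑ v ∈ I, ∑ w ∈ W with F.f w = v, G2 (Ext C w) := by
      refine (Finset.sum_fiberwise_of_maps_to ?_ _).symm
      intro w hw
      simp only [W, Finset.mem_filter] at hw
      simp only [I, Finset.mem_filter, Finset.mem_image]
      exact ⟨⟨w, hw.1, rfl⟩, hw.2.2⟩
    rw [h3]
    refine Finset.sum_le_sum fun v hv => ?_
    simp only [I, Finset.mem_filter, Finset.mem_image] at hv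
    obtain ⟨⟨w0, hw0, hwv⟩, hng⟩ := hv
    have hx : F.f w0 ≠ F.f (γ 0) := fun h => hng (Or.inl (hwv.symm.trans h))
    have hy : F.f w0 ≠ F.f (γ (L / 2)) := fun h => hng (Or.inr (Or.inl (hwv.symm.trans h)))
    have h4 := vertex_main F hw0 hx hy
    rw [hwv] at h4
    refine h4.trans (le_of_eq ?_)
    refine Finset.sum_congr ?_ fun _ _ => rfl
    ext w
    simp only [W, Finset.mem_filter]
    constructor
    · rintro ⟨h5, h6, h7⟩
      refine ⟨⟨h5, h6, ?_⟩, h7⟩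
      rw [h7]
      exact hng
    · rintro ⟨⟨h5, h6, -⟩, h7⟩
      exact ⟨h5, h6, h7⟩
  have h3 : ∑ w ∈ W, G2 (Ext C w) ≤
      2 * G2 {u | |inner ℝ u ((dist a b)⁻¹ • (b - a))| * δ ≤ h0 * |inner ℝ u e'|} := by
    refine sup_sum ha hb hab he' ho hδ hh W ?_
    intro w hw
    simp only [W, Finset.mem_filter] at hw
    obtain ⟨hw1, hw2, hw3⟩ := hw
    have hwC : w ∈ C := hCc.frontier_subset hw2
    refine ⟨hwC, ?_, ?_⟩
    · by_contra hcon
      exact hw3 (Or.inr (Or.inr ⟨w, hwC, rfl, Or.inl (not_le.1 hcon)⟩))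
    · by_contra hcon
      exact hw3 (Or.inr (Or.inr ⟨w, hwC, rfl, Or.inr (not_le.1 hcon)⟩))
  refine h1.trans ?_
  have h4 := h2.trans h3
  exact (ENNReal.mul_le_mul_iff_right (by norm_num) (by norm_num)).1 h4

end Pool.Agent.Lib.FOLD
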