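import Pool.Agent.Lib.FOLD.Gau

/-!
# FOLD.Slab: Gaussian measure of thin double wedges (0.8 h)
PROOF. If `|⟪u,e⟫| ≤ κ |⟪u,e'⟫| ≤ κ ‖u‖` then `|⟪u,e⟫| ≤ √κ` or `‖u‖ ≥ 1/√κ`. The measure of `{‖u‖ ≥ M}` tends to `0` as `M → ∞` (finite measure, decreasing sets with empty intersection).
The law of `⟪u,e⟫` for a unit vector `e` is `gaussianReal 0 1` (independent of `e`: `IsGaussian.map_eq_gaussianReal`, `variance_dual_stdGaussian`, or the characteristic function), and
`gaussianReal 0 1 (Icc (-r) r) → 0` as `r → 0` (no atoms, or the density is `≤ 1`: measure `≤ 2 r`).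
-/

set_option autoImplicit false

open MeasureTheory Set Filter Topology Metric ProbabilityTheory
open scoped MeasureTheory ENNReal

namespace Pool.Agent.Lib.FOLD

namespace SlabAux

/-- the law of `⟪u, e⟫` is the standard Gaussian when `e` is a unit vector -/
theorem law {e : E2} (he : ‖e‖ = 1) :
    G2.map (fun u : E2 => (inner ℝ u e : ℝ)) = gaussianReal 0 1 := by
  have h := IsGaussian.map_eq_gaussianReal (μ := stdGaussian E2) (innerSL ℝ e)
  rw [integral_strongDual_stdGaussian, variance_dual_stdGaussian, innerSL_apply_norm, he] at h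
  have h2 : (fun u : E2 => (inner ℝ u e : ℝ)) = ⇑(innerSL ℝ e) := by
    funext u
    rw [innerSL_apply_apply, real_inner_comm]
  rw [h2]
  unfold G2
  rw [h]
  simp

theorem small {δ : ℝ≥0∞} (hδ : 0 < δ) :
    ∃ r : ℝ, 0 < r ∧ gaussianReal 0 1 (Icc (-r) r) ≤ δ := by
  haveI : NullSingletonClass (gaussianReal 0 1) := nullSingletonClass_gaussianReal one_ne_zero
  have h := tendsto_measure_Icc (gaussianReal 0 1) 0
  have h1 : ∀ᶠ r : ℝ in 𝓝[>] 0, gaussianReal 0 1 (Icc (0 - r) (0 + r)) ≤ δ :=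
    (h.mono_left nhdsWithin_le_nhds).eventually (ge_mem_nhds hδ)
  obtain ⟨r, hr, hr0⟩ := (h1.and self_mem_nhdsWithin).exists
  refine ⟨r, hr0, ?_⟩
  simpa using hr

theorem tail {δ : ℝ≥0∞} (hδ : 0 < δ) :
    ∃ M : ℝ, 0 < M ∧ gaussianReal 0 1 {x : ℝ | M ≤ |x|} ≤ δ := by
  have hanti : Antitone (fun n : ℕ => {x : ℝ | (n : ℝ) ≤ |x|}) := by
    intro m n hmn x hx
    have : (m : ℝ) ≤ n := by exact_mod_cast hmn
    exact this.trans hx
  have hm : ∀ n : ℕ, MeasurableSet {x : ℝ | (n : ℝ) ≤ |x|} := fun n =>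
    measurableSet_le measurable_const (by fun_prop)
  have h := tendsto_measure_iInter_atTop (μ := gaussianReal 0 1)
    (fun n => (hm n).nullMeasurableSet) hanti ⟨0, measure_ne_top _ _⟩
  have hemp : (⋂ n : ℕ, {x : ℝ | (n : ℝ) ≤ |x|}) = ∅ := by
    ext x
    simp only [mem_iInter, mem_setOf_eq, mem_empty_iff_false, iff_false, not_forall, not_le]
    exact exists_nat_gt |x|
  rw [hemp, measure_empty] at h
  have h1 := (h.eventually (ge_mem_nhds hδ)).and (eventually_gt_atTop 0)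
  obtain ⟨n, hn, hn0⟩ := h1.exists
  exact ⟨n, by exact_mod_cast hn0, hn⟩

end SlabAux

open SlabAux in
theorem thin_prob {ε : ℝ} (hε : 0 < ε) : ∃ κ : ℝ, 0 < κ ∧ ∀ e e' : E2, ‖e‖ = 1 → ‖e'‖ = 1 →
    G2 {u | |inner ℝ u e| ≤ κ * |inner ℝ u e'|} ≤ ENNReal.ofReal ε := by
  have hδ : 0 < ENNReal.ofReal (ε / 2) := ENNReal.ofReal_pos.2 (by linarith)
  obtain ⟨r, hr0, hr⟩ := small hδ
  obtain ⟨M, hM0, hM⟩ := tail hδ
  refine ⟨r / M, div_pos hr0 hM0, fun e e' he he' => ?_⟩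
  have hsub : {u : E2 | |inner ℝ u e| ≤ r / M * |inner ℝ u e'|} ⊆
      (fun u : E2 => (inner ℝ u e : ℝ)) ⁻¹' (Icc (-r) r) ∪
        (fun u : E2 => (inner ℝ u e' : ℝ)) ⁻¹' {x : ℝ | M ≤ |x|} := by
    intro u hu
    simp only [mem_setOf_eq] at hu
    by_cases h : M ≤ |(inner ℝ u e' : ℝ)|
    · exact Or.inr h
    · left
      have h1 : r / M * |(inner ℝ u e' : ℝ)| ≤ r := by
        rw [div_mul_eq_mul_div, div_le_iff₀ hM0]
        exact mul_le_mul_of_nonneg_left (not_le.1 h).le hr0.le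
      exact abs_le.1 (hu.trans h1)
  have hmeas : ∀ v : E2, Measurable (fun u : E2 => (inner ℝ u v : ℝ)) := fun v => by fun_prop
  have hMm : MeasurableSet {x : ℝ | M ≤ |x|} := measurableSet_le measurable_const (by fun_prop)
  calc G2 {u | |inner ℝ u e| ≤ r / M * |inner ℝ u e'|}
      ≤ G2 ((fun u : E2 => (inner ℝ u e : ℝ)) ⁻¹' (Icc (-r) r)) +
        G2 ((fun u : E2 => (inner ℝ u e' : ℝ)) ⁻¹' {x : ℝ | M ≤ |x|}) :=
        (measure_mono hsub).trans (measure_union_le _ _)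
    _ = gaussianReal 0 1 (Icc (-r) r) + gaussianReal 0 1 {x : ℝ | M ≤ |x|} := by
        rw [← Measure.map_apply (hmeas e) measurableSet_Icc,
          ← Measure.map_apply (hmeas e') hMm, law he, law he']
    _ ≤ ENNReal.ofReal (ε / 2) + ENNReal.ofReal (ε / 2) := add_le_add hr hM
    _ = ENNReal.ofReal ε := by
        rw [← ENNReal.ofReal_add (by linarith) (by linarith)]
        congr 1
        ring

end Pool.Agent.Lib.FOLD
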