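import Pool.Agent.Lib.FOLD.ArQ

/-!
# FOLD.TeS: tetrahedra in the polyhedron have at most the surface area of the polygon (1.2 h)
PROOF. `T = convexHull {p0, p1, p2, p3} ⊆ Q`, compact, convex; the four points are affinely independent (`hdet`). Each face (hull of three of the points) is contained in `frontier T`: on `T` the barycentric coordinate of the
fourth vertex is `≥ 0` and it is `0` on the face; a nonconstant affine function has no local minimum in the interior. Two different faces meet in an edge, a segment (barycentric coordinates), which has `μH[2] = 0` (`haus_seg`).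
So `∑_faces μH[2](face) = μH[2](⋃ faces) ≤ μH[2](frontier T) ≤ μH[2](frontier Q) ≤ μH[2] C` (`measure_union₀`/`measure_biUnion₀` with `AEDisjoint`; faces are compact, `frontier_mono`, `front_le`), and `haus_two`; cancel `c`.
The areas of the faces: `{p0,p1,p2}`: `tar (p1-p0) (p2-p0)`; `{p0,p2,p3}`; `{p0,p3,p1}`; `{p1,p2,p3}`: `tar (p2-p1) (p3-p1)`.
-/

set_option autoImplicit false

open MeasureTheory Set Filter Topology Metric
open scoped MeasureTheory ENNReal

namespace Pool.Agent.Lib.FOLD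

namespace TeSAux

/-- the four vertices -/
def pt (p0 p1 p2 p3 : E3) : Fin 4 → E3 := ![p0, p1, p2, p3]

theorem indep {p0 p1 p2 p3 : E3} (hdet : det3 (p1 - p0) (p2 - p0) (p3 - p0) ≠ 0) :
    AffineIndependent ℝ (pt p0 p1 p2 p3) := by
  rw [affineIndependent_iff_of_fintype]
  intro w hw hv
  rw [Finset.weightedVSub_eq_linear_combination _ hw] at hv
  simp only [Fin.sum_univ_four] at hw hv
  have e0 := congrArg (fun z : E3 => z 0) hv
  have e1 := congrArg (fun z : E3 => z 1) hv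
  have e2 := congrArg (fun z : E3 => z 2) hv
  simp [pt] at e0 e1 e2
  simp only [det3, PiLp.sub_apply] at hdet
  have hw0 : w 0 = - w 1 - w 2 - w 3 := by linarith
  rw [hw0] at e0 e1 e2
  have h1 : w 1 = 0 := by
    refine (mul_eq_zero.mp ?_).resolve_right hdet
    linear_combination
      ((p2 1 - p0 1) * (p3 2 - p0 2) - (p2 2 - p0 2) * (p3 1 - p0 1)) * e0
      - ((p2 0 - p0 0) * (p3 2 - p0 2) - (p2 2 - p0 2) * (p3 0 - p0 0)) * e1
      + ((p2 0 - p0 0) * (p3 1 - p0 1) - (p2 1 - p0 1) * (p3 0 - p0 0)) * e2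
  have h2 : w 2 = 0 := by
    refine (mul_eq_zero.mp ?_).resolve_right hdet
    linear_combination
      - ((p1 1 - p0 1) * (p3 2 - p0 2) - (p1 2 - p0 2) * (p3 1 - p0 1)) * e0
      + ((p1 0 - p0 0) * (p3 2 - p0 2) - (p1 2 - p0 2) * (p3 0 - p0 0)) * e1
      - ((p1 0 - p0 0) * (p3 1 - p0 1) - (p1 1 - p0 1) * (p3 0 - p0 0)) * e2
  have h3 : w 3 = 0 := by
    refine (mul_eq_zero.mp ?_).resolve_right hdet
    linear_combination
      ((p1 1 - p0 1) * (p2 2 - p0 2) - (p1 2 - p0 2) * (p2 1 - p0 1)) * e0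
      - ((p1 0 - p0 0) * (p2 2 - p0 2) - (p1 2 - p0 2) * (p2 0 - p0 0)) * e1
      + ((p1 0 - p0 0) * (p2 1 - p0 1) - (p1 1 - p0 1) * (p2 0 - p0 0)) * e2
  have h0 : w 0 = 0 := by rw [hw0, h1, h2, h3]; ring
  intro i
  fin_cases i
  · exact h0
  · exact h1
  · exact h2
  · exact h3

theorem exists_basis {p0 p1 p2 p3 : E3} (hdet : det3 (p1 - p0) (p2 - p0) (p3 - p0) ≠ 0) :
    ∃ b : AffineBasis (Fin 4) ℝ E3, (b : Fin 4 → E3) = pt p0 p1 p2 p3 := by
  have h := indep hdet
  have ht : affineSpan ℝ (range (pt p0 p1 p2 p3)) = ⊤ := by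
    rw [h.affineSpan_eq_top_iff_card_eq_finrank_add_one]
    simp
  exact ⟨⟨_, h, ht⟩, rfl⟩

/-- the face opposite to the vertex `i`, in barycentric coordinates -/
def bf (b : AffineBasis (Fin 4) ℝ E3) (i : Fin 4) : Set E3 :=
  {x | (∀ k, 0 ≤ b.coord k x) ∧ b.coord i x = 0}

theorem bf_convex (b : AffineBasis (Fin 4) ℝ E3) (i : Fin 4) : Convex ℝ (bf b i) := by
  intro x hx y hy s t hs ht hst
  have key : ∀ k, b.coord k (s • x + t • y) = s * b.coord k x + t * b.coord k y := by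
    intro k
    have := Convex.combo_affine_apply (f := b.coord k) (x := x) (y := y) hst
    simpa using this
  refine ⟨fun k => ?_, ?_⟩
  · rw [key]
    exact add_nonneg (mul_nonneg hs (hx.1 k)) (mul_nonneg ht (hy.1 k))
  · rw [key, hx.2, hy.2]; ring

theorem mem_bf (b : AffineBasis (Fin 4) ℝ E3) {i j : Fin 4} (h : i ≠ j) : b j ∈ bf b i := by
  refine ⟨fun k => ?_, ?_⟩
  · rw [AffineBasis.coord_apply]
    split_ifs <;> norm_num
  · rw [AffineBasis.coord_apply, if_neg h]

theorem bf_inter (b : AffineBasis (Fin 4) ℝ E3) {i j : Fin 4} (hij : i ≠ j) :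
    ∃ u v : E3, bf b i ∩ bf b j ⊆ segment ℝ u v := by
  obtain ⟨k, l, hkl, hik, hil, hjk, hjl, hall⟩ : ∃ k l : Fin 4, k ≠ l ∧ i ≠ k ∧ i ≠ l ∧ j ≠ k ∧
      j ≠ l ∧ (Finset.univ : Finset (Fin 4)) = {i, j, k, l} := by
    revert i j
    decide
  refine ⟨b k, b l, ?_⟩
  rintro x ⟨⟨hx, hi⟩, ⟨-, hj⟩⟩
  have hs := b.linear_combination_coord_eq_self x
  have h1 := b.sum_coord_apply_eq_one x
  rw [hall, Finset.sum_insert (by simp [hij, hik, hil]), Finset.sum_insert (by simp [hjk, hjl]),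
    Finset.sum_insert (by simp [hkl]), Finset.sum_singleton, hi, hj] at hs h1
  refine ⟨b.coord k x, b.coord l x, hx k, hx l, by linarith, ?_⟩
  rw [zero_smul, zero_smul, zero_add, zero_add] at hs
  exact hs

theorem bf_frontier (b : AffineBasis (Fin 4) ℝ E3) (i : Fin 4) :
    bf b i ⊆ frontier (convexHull ℝ (range b)) := by
  intro x hx
  have hc : IsClosed (convexHull ℝ (range b)) := by
    have := (Set.finite_range b).isCompact_convexHull (𝕜 := ℝ)
    exact this.isClosed
  rw [hc.frontier_eq]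
  refine ⟨?_, ?_⟩
  · rw [b.convexHull_eq_nonneg_coord]
    exact hx.1
  · rw [b.interior_convexHull]
    intro h
    exact absurd hx.2 (h i).ne'

end TeSAux

variable {C : Set E2} {L : ℝ} {γ : ℝ → E2} {Q : Set E3}

theorem tet_le (F : Fold C L γ Q) {p0 p1 p2 p3 : E3} (h0 : p0 ∈ Q) (h1 : p1 ∈ Q) (h2 : p2 ∈ Q)
    (h3 : p3 ∈ Q) (hdet : det3 (p1 - p0) (p2 - p0) (p3 - p0) ≠ 0) :
    tar (p1 - p0) (p2 - p0) + tar (p2 - p0) (p3 - p0) + tar (p3 - p0) (p1 - p0) +
      tar (p2 - p1) (p3 - p1) ≤ (volume C).toReal := by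
  obtain ⟨b, hb⟩ := TeSAux.exists_basis hdet
  have b0 : b 0 = p0 := by rw [hb]; rfl
  have b1 : b 1 = p1 := by rw [hb]; rfl
  have b2 : b 2 = p2 := by rw [hb]; rfl
  have b3 : b 3 = p3 := by rw [hb]; rfl
  obtain ⟨c, hc0, hct, hc, htri⟩ := haus_two
  let G : Fin 4 → Set E3 := ![convexHull ℝ {p1, p2, p3}, convexHull ℝ {p0, p2, p3},
    convexHull ℝ {p0, p3, p1}, convexHull ℝ {p0, p1, p2}]
  have hG : ∀ i, G i ⊆ TeSAux.bf b i := by
    intro i
    fin_cases i
    · show convexHull ℝ {p1, p2, p3} ⊆ _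
      refine convexHull_min ?_ (TeSAux.bf_convex b _)
      rintro z (rfl | rfl | rfl)
      · rw [← b1]; exact TeSAux.mem_bf b (by decide)
      · rw [← b2]; exact TeSAux.mem_bf b (by decide)
      · rw [← b3]; exact TeSAux.mem_bf b (by decide)
    · show convexHull ℝ {p0, p2, p3} ⊆ _
      refine convexHull_min ?_ (TeSAux.bf_convex b _)
      rintro z (rfl | rfl | rfl)
      · rw [← b0]; exact TeSAux.mem_bf b (by decide)
      · rw [← b2]; exact TeSAux.mem_bf b (by decide)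
      · rw [← b3]; exact TeSAux.mem_bf b (by decide)
    · show convexHull ℝ {p0, p3, p1} ⊆ _
      refine convexHull_min ?_ (TeSAux.bf_convex b _)
      rintro z (rfl | rfl | rfl)
      · rw [← b0]; exact TeSAux.mem_bf b (by decide)
      · rw [← b3]; exact TeSAux.mem_bf b (by decide)
      · rw [← b1]; exact TeSAux.mem_bf b (by decide)
    · show convexHull ℝ {p0, p1, p2} ⊆ _
      refine convexHull_min ?_ (TeSAux.bf_convex b _)
      rintro z (rfl | rfl | rfl)
      · rw [← b0]; exact TeSAux.mem_bf b (by decide)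
      · rw [← b1]; exact TeSAux.mem_bf b (by decide)
      · rw [← b2]; exact TeSAux.mem_bf b (by decide)
  have hGc : ∀ i, IsCompact (G i) := by
    intro i
    fin_cases i
    · exact (Set.toFinite ({p1, p2, p3} : Set E3)).isCompact_convexHull (𝕜 := ℝ)
    · exact (Set.toFinite ({p0, p2, p3} : Set E3)).isCompact_convexHull (𝕜 := ℝ)
    · exact (Set.toFinite ({p0, p3, p1} : Set E3)).isCompact_convexHull (𝕜 := ℝ)
    · exact (Set.toFinite ({p0, p1, p2} : Set E3)).isCompact_convexHull (𝕜 := ℝ)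
  have hdisj : Pairwise (Function.onFun (AEDisjoint (μH[2] : Measure E3)) G) := by
    intro i j hij
    obtain ⟨u, v, huv⟩ := TeSAux.bf_inter b hij
    exact measure_mono_null ((inter_subset_inter (hG i) (hG j)).trans huv) (haus_seg u v)
  have hsum : ∑ i, (μH[2] : Measure E3) (G i) = (μH[2] : Measure E3) (⋃ i, G i) := by
    rw [measure_iUnion₀ hdisj (fun i => (hGc i).measurableSet.nullMeasurableSet), tsum_fintype]
  have hT : ⋃ i, G i ⊆ frontier (convexHull ℝ (range b)) :=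
    iUnion_subset fun i => (hG i).trans (TeSAux.bf_frontier b i)
  have hTQ : convexHull ℝ (range b) ⊆ Q := by
    refine convexHull_min ?_ F.cvx
    rintro z ⟨i, rfl⟩
    fin_cases i
    · show b 0 ∈ Q; rwa [b0]
    · show b 1 ∈ Q; rwa [b1]
    · show b 2 ∈ Q; rwa [b2]
    · show b 3 ∈ Q; rwa [b3]
  have hTc : IsCompact (convexHull ℝ (range b)) :=
    (Set.finite_range b).isCompact_convexHull (𝕜 := ℝ)
  have hmono := frontier_mono (d := 2) hTc (convex_convexHull ℝ _)
    ⟨b 0, subset_convexHull ℝ _ ⟨0, rfl⟩⟩ F.cpt hTQ (by norm_num)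
  have hfin := front_le F
  have hall : ∑ i, (μH[2] : Measure E3) (G i) ≤ c * volume C := by
    rw [← hc, hsum]
    exact (measure_mono hT).trans (hmono.trans hfin)
  rw [Fin.sum_univ_four] at hall
  have g0 : (μH[2] : Measure E3) (G 0) = c * ENNReal.ofReal (tar (p2 - p1) (p3 - p1)) :=
    htri p1 p2 p3
  have g1 : (μH[2] : Measure E3) (G 1) = c * ENNReal.ofReal (tar (p2 - p0) (p3 - p0)) :=
    htri p0 p2 p3
  have g2 : (μH[2] : Measure E3) (G 2) = c * ENNReal.ofReal (tar (p3 - p0) (p1 - p0)) :=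
    htri p0 p3 p1
  have g3 : (μH[2] : Measure E3) (G 3) = c * ENNReal.ofReal (tar (p1 - p0) (p2 - p0)) :=
    htri p0 p1 p2
  rw [g0, g1, g2, g3, ← mul_add, ← mul_add, ← mul_add] at hall
  have hcan := (ENNReal.mul_le_mul_iff_right hc0 hct).mp hall
  have hn : ∀ x y : E3, 0 ≤ tar x y := fun x y => by
    unfold tar; positivity
  rw [← ENNReal.ofReal_add (hn _ _) (hn _ _), ← ENNReal.ofReal_add (by linarith [hn (p2 - p1) (p3 - p1), hn (p2 - p0) (p3 - p0)]) (hn _ _),
    ← ENNReal.ofReal_add (by linarith [hn (p2 - p1) (p3 - p1), hn (p2 - p0) (p3 - p0), hn (p3 - p0) (p1 - p0)]) (hn _ _)] at hcan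
  have hV : volume C ≠ ⊤ := F.region.cpt.measure_lt_top.ne
  have := (ENNReal.ofReal_le_iff_le_toReal hV).mp hcan
  linarith

end Pool.Agent.Lib.FOLD
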