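import Pool.Agent.Lib.FOLD.ThA
import Pool.Agent.Lib.FOLD.Out
import Pool.Agent.Lib.FOLD.Hgt
import Pool.Agent.Lib.FOLD.Slab
import Pool.Agent.Lib.FOLD.TeS
import Pool.Agent.Lib.FOLD.DiQ

/-!
# FOLD.ThB: thin foldings have at most the volume of the regular tetrahedron (1.5 h)
PROOF. Choose `F i : Fold ..`, `A i = (volume (c i)).toReal → 1`, `ℓ i = diam (c i) → ∞`; `height` gives `a, b, e'` with `dist a b = ℓ i`, `w i = 2 A i/ℓ i → 0`. Take `δ i = √(w i)`, `ε i = δ i + w i → 0`, `q i = ![f (γ 0), f (γ (l/2)), f a, f b]`, points of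
`frontier Q ⊆ Q` (`γ 0`, `γ(l/2) ∈ frontier C ⊆ C`). `four_points`: the measure of `{u | ∃ z ∈ Q i, ∀ j, ⟪u, q i j⟫ + ‖u‖ ε i < ⟪u,z⟫}` is at most `G2 {u | |⟪u,e⟫| δ ≤ w |⟪u,e'⟫|}`, i.e. `|⟪u,e⟫| ≤ √(w i) |⟪u,e'⟫|`, which tends to `0`
by `thin_prob` (monotone in `κ`; `‖e‖ = 1`). `tri_le` and `vol_le_diam` (`diam (q i) > 0` since the interior is nonempty): `m ≤ 16 A i²/diam (Q i)`, so `diam (Q i) ≤ R` for a constant `R`. Apply `lim_bound` to the translates
`Q i - q i 0 ⊆ closedBall 0 R` and `q i j - q i 0` (volume is translation invariant; the set of `u` is the same because `⟪u, z - q⟫ = ⟪u,z⟫ - ⟪u,q⟫`), `hS` = `tet_le` (differences do not change under translation).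
-/

set_option autoImplicit false

open MeasureTheory Set Filter Topology Metric
open scoped MeasureTheory ENNReal

namespace Pool.Agent.Lib.FOLD

namespace ThBAux

/-- thin sequences of double wedges have measure tending to `0` -/
theorem thin_tendsto {e e' : ℕ → E2} {δ w : ℕ → ℝ} (he : ∀ i, ‖e i‖ = 1) (he' : ∀ i, ‖e' i‖ = 1)
    (hδ : ∀ i, 0 < δ i) (hw : ∀ i, w i = δ i ^ 2) (h0 : Tendsto δ atTop (𝓝 0)) :
    Tendsto (fun i => G2 {u | |inner ℝ u (e i)| * δ i ≤ w i * |inner ℝ u (e' i)|}) atTop (𝓝 0) := by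
  rw [ENNReal.tendsto_nhds_zero]
  intro ε hε
  obtain ⟨r, hr0, hr⟩ : ∃ r : ℝ, 0 < r ∧ ENNReal.ofReal r ≤ ε := by
    rcases eq_or_ne ε ⊤ with rfl | hne
    · exact ⟨1, one_pos, le_top⟩
    · exact ⟨ε.toReal, ENNReal.toReal_pos hε.ne' hne, (ENNReal.ofReal_toReal hne).le⟩
  obtain ⟨κ, hκ, hk⟩ := thin_prob hr0
  have h1 : ∀ᶠ i in atTop, δ i < κ := h0.eventually_lt_const hκ
  filter_upwards [h1] with i hi
  refine le_trans (measure_mono ?_) ((hk (e i) (e' i) (he i) (he' i)).trans hr)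
  intro u hu
  rw [mem_setOf_eq] at hu ⊢
  rw [hw, sq, mul_comm _ (δ i), mul_assoc] at hu
  have h2 := le_of_mul_le_mul_left hu (hδ i)
  exact h2.trans (mul_le_mul_of_nonneg_right hi.le (abs_nonneg _))

end ThBAux

open ThBAux in
theorem thin_seq {c : ℕ → Set E2} {l : ℕ → ℝ} {g : ℕ → ℝ → E2} {q : ℕ → Set E3}
    (hF : ∀ i, PLFolding (c i) (l i) (g i) (q i))
    (hA : Tendsto (fun i => (volume (c i)).toReal) atTop (𝓝 1))
    (hd : Tendsto (fun i => diam (c i)) atTop atTop) {m : ℝ} (hm : 0 < m)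
    (hv : ∀ i, ENNReal.ofReal m ≤ volume (q i)) : m ≤ vt := by
  let F : ∀ i, Fold (c i) (l i) (g i) (q i) := fun i => (hF i).some
  choose a ha b hb e' hab hpos he' ho hh using fun i => height (F i).region
  let w : ℕ → ℝ := fun i => 2 * (volume (c i)).toReal / diam (c i) + 1 / ((i : ℝ) + 1)
  have hw0 : Tendsto w atTop (𝓝 0) := by
    have h1 := (hA.const_mul 2).div_atTop hd
    have h2 := h1.add (tendsto_one_div_add_atTop_nhds_zero_nat (𝕜 := ℝ))
    rw [add_zero] at h2
    exact h2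
  have hwpos : ∀ i, 0 < w i := by
    intro i
    have h1 : 0 ≤ 2 * (volume (c i)).toReal / diam (c i) :=
      div_nonneg (mul_nonneg zero_le_two ENNReal.toReal_nonneg) diam_nonneg
    have h2 : (0 : ℝ) < 1 / ((i : ℝ) + 1) := by positivity
    exact add_pos_of_nonneg_of_pos h1 h2
  let δ : ℕ → ℝ := fun i => √(w i)
  have hδpos : ∀ i, 0 < δ i := fun i => Real.sqrt_pos.2 (hwpos i)
  have hwδ : ∀ i, w i = δ i ^ 2 := fun i => (Real.sq_sqrt (hwpos i).le).symm
  have hδ0 : Tendsto δ atTop (𝓝 0) := by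
    have := (Real.continuous_sqrt.tendsto 0).comp hw0
    rw [Real.sqrt_zero] at this
    exact this
  -- points of `Q`
  have hfm : ∀ i, ∀ p ∈ c i, (F i).f p ∈ q i := by
    intro i p hp
    have h1 : (F i).f p ∈ frontier (q i) := by
      rw [← (F i).onto]
      exact mem_image_of_mem _ hp
    exact (F i).cpt.isClosed.frontier_subset h1
  have hgm : ∀ i, ∀ t ∈ Icc (0 : ℝ) (l i), g i t ∈ c i := by
    intro i t ht
    have h1 : g i t ∈ frontier (c i) := by
      rw [← (F i).arc.onto]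
      exact mem_image_of_mem _ ht
    exact (F i).region.cpt.isClosed.frontier_subset h1
  let P : ℕ → Fin 4 → E3 := fun i =>
    ![(F i).f (g i 0), (F i).f (g i (l i / 2)), (F i).f (a i), (F i).f (b i)]
  have hP0 : ∀ i, P i 0 = (F i).f (g i 0) := fun i => rfl
  have hP1 : ∀ i, P i 1 = (F i).f (g i (l i / 2)) := fun i => rfl
  have hP2 : ∀ i, P i 2 = (F i).f (a i) := fun i => rfl
  have hP3 : ∀ i, P i 3 = (F i).f (b i) := fun i => rfl
  have hPm : ∀ i j, P i j ∈ q i := by
    intro i j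
    have hl : 0 < l i := (F i).arc.pos
    fin_cases j
    · exact hfm i _ (hgm i 0 ⟨le_refl _, hl.le⟩)
    · exact hfm i _ (hgm i _ ⟨by linarith, by linarith⟩)
    · exact hfm i _ (ha i)
    · exact hfm i _ (hb i)
  -- boundedness of the diameters of `Q`
  obtain ⟨M, hM⟩ : ∃ M : ℝ, ∀ i, (volume (c i)).toReal ≤ M := by
    obtain ⟨M, hM⟩ := hA.bddAbove_range
    exact ⟨M, fun i => hM ⟨i, rfl⟩⟩
  have hR : ∀ i, diam (q i) ≤ 16 * M ^ 2 / m := by
    intro i
    have hA0 : 0 ≤ (volume (c i)).toReal := ENNReal.toReal_nonneg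
    rcases (diam_nonneg (s := q i)).eq_or_lt with h0 | h0
    · rw [← h0]; positivity
    · have h1 := vol_le_diam (F i).cpt (A := (volume (c i)).toReal)
        (fun p hp x hx y hy => tri_le (F i) hp hx hy) h0
      have h2 : m ≤ (volume (q i)).toReal := by
        have h3 := ENNReal.toReal_mono (F i).cpt.measure_lt_top.ne (hv i)
        rwa [ENNReal.toReal_ofReal hm.le] at h3
      have h3 : m * diam (q i) ≤ 16 * (volume (c i)).toReal ^ 2 :=
        (le_div_iff₀ h0).1 (h2.trans h1)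
      rw [le_div_iff₀ hm]
      have h4 : (volume (c i)).toReal ^ 2 ≤ M ^ 2 := pow_le_pow_left₀ hA0 (hM i) 2
      nlinarith
  have hε0 : Tendsto (fun i => δ i + w i) atTop (𝓝 0) := by
    have := hδ0.add hw0
    rwa [add_zero] at this
  have hnorm : ∀ i, ‖(dist (a i) (b i))⁻¹ • (b i - a i)‖ = 1 := by
    intro i
    have h1 := hpos i
    rw [norm_smul, norm_inv, Real.norm_of_nonneg dist_nonneg, dist_comm, dist_eq_norm]
    rw [dist_comm, dist_eq_norm] at h1
    exact inv_mul_cancel₀ h1.ne'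
  have hG : Tendsto (fun i => G3 {u | ∃ z ∈ {z : E3 | z + P i 0 ∈ q i},
      ∀ j, inner ℝ u (P i j - P i 0) + ‖u‖ * (δ i + w i) < inner ℝ u z}) atTop (𝓝 0) := by
    refine tendsto_of_tendsto_of_tendsto_of_le_of_le tendsto_const_nhds
      (thin_tendsto hnorm he' hδpos hwδ hδ0) (fun i => zero_le) (fun i => ?_)
    refine le_trans (measure_mono ?_) (four_points (F i) (ha i) (hb i) (hpos i) ?_ (he' i) (ho i)
      (hδpos i) (h0 := w i) ?_)
    · rintro u ⟨z, hz, hu⟩
      refine ⟨z + P i 0, hz, ?_⟩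
      have h1 : ∀ j, inner ℝ u (P i j) + ‖u‖ * (δ i + w i) < inner ℝ u (z + P i 0) := by
        intro j
        have h2 := hu j
        rw [inner_sub_right] at h2
        rw [inner_add_right]
        linarith
      intro v hv
      rcases hv with rfl | rfl | rfl | rfl
      · exact h1 0
      · exact h1 1
      · exact h1 2
      · exact h1 3
    · intro p hp x hx
      rw [hab i]
      exact dist_le_diam_of_mem (F i).region.cpt.isBounded hp hx
    · intro p hp
      refine (hh i p hp).trans ?_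
      have h2 : (0 : ℝ) < 1 / ((i : ℝ) + 1) := by positivity
      exact le_add_of_nonneg_right h2.le
  refine lim_bound (Q := fun i => {z : E3 | z + P i 0 ∈ q i}) (q := fun i j => P i j - P i 0)
    (R := 16 * M ^ 2 / m) (ε := fun i => δ i + w i) (A := fun i => (volume (c i)).toReal)
    ?_ ?_ hε0 hA hG hm ?_ ?_
  · intro i z hz
    rw [mem_closedBall, dist_zero_right]
    have h1 : dist (z + P i 0) (P i 0) ≤ diam (q i) :=
      dist_le_diam_of_mem (F i).cpt.isBounded hz (hPm i 0)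
    rw [dist_eq_norm, add_sub_cancel_right] at h1
    exact h1.trans (hR i)
  · intro i j
    change P i j - P i 0 + P i 0 ∈ q i
    rw [sub_add_cancel]
    exact hPm i j
  · intro i
    have h1 : volume {z : E3 | z + P i 0 ∈ q i} = volume (q i) :=
      measure_preimage_add_right volume (P i 0) (q i)
    rw [h1]
    exact hv i
  · intro i
    simp only [sub_sub_sub_cancel_right]
    intro h
    exact tet_le (F i) (hPm i 0) (hPm i 1) (hPm i 2) (hPm i 3) h

end Pool.Agent.Lib.FOLD
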