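import Pool.Agent.Lib.FOLD.FinA
import Pool.Agent.Lib.FOLD.ThB
import Pool.Agent.Lib.FOLD.Bdd
import Pool.Agent.Lib.FOLD.Exa

/-!
# FOLD.FinB: the maximum is attained (1 h)
PROOF. Let `M = ⨆` of `volume Q` over all `PLFolding C L γ Q` with `volume C = 1`; `1/(9√3) ≤ M ≤ 16` (`rect_one`, `fold_bound`). Choose a maximising sequence (`exists_seq_tendsto_sSup`). If `diam (c i)` is unbounded, a subsequence has `diam → ∞`, and `thin_seq` gives `m ≤ vt` for every
`m < M`, `m > 0` (drop finitely many terms), so `M ≤ ofReal vt`; but `vt < 1/(9√3)` (`vt² = 1/(216√3) < 1/243`). So the diameters are bounded and `bdd_limit` gives `C, L, γ, P` with `volume P = M`. `le_of_unit` is the maximality.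
-/

set_option autoImplicit false

open MeasureTheory Set Filter Topology Metric
open scoped MeasureTheory ENNReal

namespace Pool.Agent.Lib.FOLD

theorem vt_lt : vt < 1 / (9 * √3) := by
  unfold vt
  have h3 : (1.7 : ℝ) < √3 := Real.lt_sqrt_of_sq_lt (by norm_num)
  have hs : √3 * √3 = (3 : ℝ) := Real.mul_self_sqrt (by norm_num)
  apply one_div_lt_one_div_of_lt (by positivity)
  apply Real.lt_sqrt_of_sq_lt
  nlinarith

namespace FinBAux

theorem exists_large {u : ℕ → ℝ} (h : ¬ BddAbove (range u)) (n : ℕ) :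
    ∃ i, n ≤ i ∧ (n : ℝ) ≤ u i := by
  by_contra hcon
  push Not at hcon
  apply h
  obtain ⟨B, hB⟩ := ((Finset.range n).image u).bddAbove
  refine ⟨max B n, ?_⟩
  rintro _ ⟨i, rfl⟩
  by_cases hi : n ≤ i
  · exact le_max_of_le_right (hcon i hi).le
  · refine le_max_of_le_left (hB ?_)
    rw [Finset.mem_coe, Finset.mem_image]
    exact ⟨i, Finset.mem_range.2 (by omega), rfl⟩

end FinBAux

theorem attained : ∃ (C : Set E2) (L : ℝ) (γ : ℝ → E2) (P : Set E3), Folding C L γ P ∧ volume C = 1 ∧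
    ENNReal.ofReal (1 / (9 * √3)) ≤ volume P ∧
    ∀ (C' : Set E2) (L' : ℝ) (γ' : ℝ → E2) (P' : Set E3), Folding C' L' γ' P' → volume C' = 1 →
      volume P' ≤ volume P := by
  let S : Set ℝ≥0∞ := {x | ∃ (C : Set E2) (L : ℝ) (γ : ℝ → E2) (Q : Set E3),
    PLFolding C L γ Q ∧ volume C = 1 ∧ volume Q = x}
  obtain ⟨C₀, L₀, γ₀, Q₀, hF₀, hC₀, hQ₀⟩ := rect_one
  have hS0 : volume Q₀ ∈ S := ⟨C₀, L₀, γ₀, Q₀, hF₀, hC₀, rfl⟩
  have hlow : ENNReal.ofReal (1 / (9 * √3)) ≤ sSup S := hQ₀.trans (le_sSup hS0)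
  obtain ⟨u, -, hu, huS⟩ := exists_seq_tendsto_sSup (S := S) ⟨_, hS0⟩ (OrderTop.bddAbove S)
  choose c l g q hF hc hq using huS
  have hqM : Tendsto (fun i => volume (q i)) atTop (𝓝 (sSup S)) := by
    have : (fun i => volume (q i)) = u := funext hq
    rw [this]; exact hu
  by_cases hb : BddAbove (range fun i => diam (c i))
  · obtain ⟨R, hR⟩ := hb
    obtain ⟨C, L, γ, P, hP, hC, hV⟩ := bdd_limit hF hc (fun i => hR (mem_range_self i)) hqM
    refine ⟨C, L, γ, P, hP, hC, by rw [hV]; exact hlow, ?_⟩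
    intro C' L' γ' P' h' hC'
    rw [hV]
    exact le_of_unit (M := sSup S)
      (fun C L γ Q h1 h2 => le_sSup (show volume Q ∈ S from ⟨C, L, γ, Q, h1, h2, rfl⟩)) h' hC'
  · exfalso
    choose φ hφ1 hφ2 using FinBAux.exists_large hb
    have hφ : Tendsto φ atTop atTop := tendsto_atTop_mono hφ1 tendsto_id
    have hd : Tendsto (fun i => diam (c (φ i))) atTop atTop :=
      tendsto_atTop_mono hφ2 tendsto_natCast_atTop_atTop
    have hvt : 0 < vt := by unfold vt; positivity
    have hlt := vt_lt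
    set m : ℝ := (vt + 1 / (9 * √3)) / 2 with hm
    have hm1 : vt < m := by rw [hm]; linarith
    have hm2 : m < 1 / (9 * √3) := by rw [hm]; linarith
    have hmM : ENNReal.ofReal m < sSup S :=
      ((ENNReal.ofReal_lt_ofReal_iff (by linarith)).2 hm2).trans_le hlow
    have hev : ∀ᶠ i in atTop, ENNReal.ofReal m ≤ volume (q (φ i)) :=
      ((hqM.comp hφ).eventually (lt_mem_nhds hmM)).mono fun i hi => hi.le
    obtain ⟨N, hN⟩ := eventually_atTop.1 hev
    have key := thin_seq (c := fun i => c (φ (i + N))) (l := fun i => l (φ (i + N)))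
      (g := fun i => g (φ (i + N))) (q := fun i => q (φ (i + N))) (fun i => hF _)
      (by
        have : (fun i => (volume (c (φ (i + N)))).toReal) = fun _ => (1 : ℝ) := by
          funext i; rw [hc]; rfl
        rw [this]; exact tendsto_const_nhds)
      ((tendsto_add_atTop_iff_nat N).2 hd) (by linarith) (fun i => hN _ (by omega))
    linarith

end Pool.Agent.Lib.FOLD
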