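import Pool.Agent.Lib.FOLD.ThB
import Pool.Agent.Lib.FOLD.VoC

/-!
# FOLD.FinC: long regions (0.8 h)
PROOF. By contradiction: for every `n` there is a `Folding C P` with `volume C = 1`, `diam C ≥ n + 1`, `volume P > ofReal (vt + ε)`. Its approximations `c i → C`, `q i → P` have `volume (c i) → 1`, `volume (q i) → volume P` (`vol_cont`; the `c i`, `q i` are compact convex with nonempty
interior) and `diam C ≤ diam (c i) + 2 hausdorffDist (c i) C`. So there is a `PLFolding` with `|(volume c).toReal - 1| ≤ 1/(n+1)`, `diam c ≥ n`, `volume q ≥ ofReal (vt + ε/2)`. These form a sequence (choice) contradicting `thin_seq` with `m = vt + ε/2 > 0`.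
-/

set_option autoImplicit false

open MeasureTheory Set Filter Topology Metric
open scoped MeasureTheory ENNReal

namespace Pool.Agent.Lib.FOLD

namespace FinCAux

theorem diam_le {X Y : Set E2} (hX : IsCompact X) (hY : IsCompact Y) (hXn : X.Nonempty)
    (hYn : Y.Nonempty) : diam Y ≤ diam X + 2 * hausdorffDist X Y := by
  have hfin : hausdorffEDist Y X ≠ ⊤ :=
    hausdorffEDist_ne_top_of_nonempty_of_bounded hYn hXn hY.isBounded hX.isBounded
  have key : ∀ x ∈ Y, ∃ x' ∈ X, dist x x' ≤ hausdorffDist X Y := by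
    intro x hx
    obtain ⟨x', hx', he⟩ := hX.exists_infDist_eq_dist hXn x
    refine ⟨x', hx', ?_⟩
    rw [← he, hausdorffDist_comm]
    exact infDist_le_hausdorffDist_of_mem hx hfin
  apply diam_le_of_forall_dist_le
  · have := diam_nonneg (s := X)
    have := hausdorffDist_nonneg (s := X) (t := Y)
    positivity
  · intro x hx y hy
    obtain ⟨x', hx', h1⟩ := key x hx
    obtain ⟨y', hy', h2⟩ := key y hy
    have h3 : dist x' y' ≤ diam X := dist_le_diam_of_mem hX.isBounded hx' hy'
    have h4 : dist x y ≤ dist x x' + dist x' y' + dist y' y := dist_triangle4 x x' y' y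
    rw [dist_comm y' y] at h4
    linarith

end FinCAux

theorem thin_general {ε : ℝ} (hε : 0 < ε) : ∃ R : ℝ, ∀ (C : Set E2) (L : ℝ) (γ : ℝ → E2) (P : Set E3),
    Folding C L γ P → volume C = 1 → R ≤ diam C → volume P ≤ ENNReal.ofReal (vt + ε) := by
  by_contra hcon
  push Not at hcon
  have hvt : 0 ≤ vt := by
    unfold vt
    positivity
  have claim : ∀ n : ℕ, ∃ (c : Set E2) (l : ℝ) (g : ℝ → E2) (q : Set E3), PLFolding c l g q ∧
      |(volume c).toReal - 1| ≤ 1 / ((n : ℝ) + 1) ∧ (n : ℝ) ≤ diam c ∧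
      ENNReal.ofReal (vt + ε / 2) ≤ volume q := by
    intro n
    obtain ⟨C, L, γ, P, ⟨hReg, hArc, hPc, hPv, hPn, c, l, g, q, hPL, hc, hl, hg, hq⟩, hC, hR, hV⟩ :=
      hcon ((n : ℝ) + 1)
    have hcr : ∀ i, Region (c i) := fun i => by
      obtain ⟨F⟩ := hPL i
      exact F.region
    have hcn : ∀ i, (c i).Nonempty := fun i => (hcr i).int.mono interior_subset
    have hCn : C.Nonempty := hReg.int.mono interior_subset
    have hqc : ∀ i, IsCompact (q i) := fun i => by
      obtain ⟨F⟩ := hPL i
      exact F.cpt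
    have hqv : ∀ i, Convex ℝ (q i) := fun i => by
      obtain ⟨F⟩ := hPL i
      exact F.cvx
    have hqn : ∀ i, (q i).Nonempty := fun i => by
      obtain ⟨F⟩ := hPL i
      exact F.int.mono interior_subset
    have t1 := vol_cont (fun i => (hcr i).cpt) hcn (fun i => (hcr i).cvx) hReg.cpt hCn hReg.cvx hc
    have t2 := vol_cont hqc hqn hqv hPc hPn hPv hq
    rw [hC] at t1
    have t3 : Tendsto (fun i => (volume (c i)).toReal) atTop (𝓝 1) := by
      have := (ENNReal.tendsto_toReal ENNReal.one_ne_top).comp t1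
      rwa [ENNReal.toReal_one] at this
    have hn : (0 : ℝ) < 1 / ((n : ℝ) + 1) := by positivity
    have e1 : ∀ᶠ i in atTop, |(volume (c i)).toReal - 1| < 1 / ((n : ℝ) + 1) := by
      have := (Metric.tendsto_nhds.1 t3) _ hn
      simpa [Real.dist_eq] using this
    have e2 : ∀ᶠ i in atTop, hausdorffDist (c i) C < 1 / 2 :=
      hc.eventually_lt_const (by norm_num)
    have hlt : ENNReal.ofReal (vt + ε / 2) < volume P :=
      lt_of_le_of_lt (ENNReal.ofReal_le_ofReal (by linarith)) hV
    have e3 : ∀ᶠ i in atTop, ENNReal.ofReal (vt + ε / 2) < volume (q i) :=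
      t2.eventually_const_lt hlt
    obtain ⟨i, h1, h2, h3⟩ := (e1.and (e2.and e3)).exists
    refine ⟨c i, l i, g i, q i, hPL i, h1.le, ?_, h3.le⟩
    have h4 := FinCAux.diam_le (hcr i).cpt hReg.cpt (hcn i) hCn
    linarith
  choose c l g q h1 h2 h3 h4 using claim
  have hA : Tendsto (fun i => (volume (c i)).toReal) atTop (𝓝 1) := by
    rw [tendsto_iff_norm_sub_tendsto_zero]
    refine squeeze_zero (fun _ => norm_nonneg _) (fun i => ?_) tendsto_one_div_add_atTop_nhds_zero_nat
    rw [Real.norm_eq_abs]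
    exact h2 i
  have hd : Tendsto (fun i => diam (c i)) atTop atTop :=
    tendsto_atTop_mono h3 tendsto_natCast_atTop_atTop
  have := thin_seq h1 hA hd (m := vt + ε / 2) (by linarith) h4
  linarith

end Pool.Agent.Lib.FOLD
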