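import Pool.Agent.Lib.FOLD.ArQ

/-!
# FOLD.FrE: the surface of the polyhedron has the area of the polygon (0.8 h)
PROOF. `≤` is `front_le`. `≥`: `μH[2] (f '' tri (V k)) = μH[2] (tri (V k))` (`f = A k` there, `Isometry.hausdorffMeasure_image`). For `j ≠ k` the set `f '' tri (V j) ∩ f '' tri (V k)` is contained in `f '' N`, `N = frontier C ∪ ⋃ k, frontier (tri (V k))`: if `f p = f q`, then `p = q`, in both
triangles, not in both interiors, so in one of the frontiers, or `p, q` are glued, so in `frontier C`. `μH[2] N = 0` (`haus_two`, `Convex.addHaar_frontier`), so `μH[2] (f '' (N ∩ C)) = 0` (`f_lip`). Hence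
`μH[2] (frontier Q) = μH[2] (⋃ f '' tri (V k)) = ∑ μH[2] (tri (V k)) ≥ μH[2] C` (`measure_iUnion₀` with `AEDisjoint`; compact sets are measurable).
-/

set_option autoImplicit false

open MeasureTheory Set Filter Topology Metric
open scoped MeasureTheory ENNReal

namespace Pool.Agent.Lib.FOLD

variable {C : Set E2} {L : ℝ} {γ : ℝ → E2} {Q : Set E3}

namespace FrEAux

theorem tri_sub (F : Fold C L γ Q) (k : Fin F.n) : tri (F.V k) ⊆ C :=
  (subset_iUnion (fun k => tri (F.V k)) k).trans F.cover.subset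

theorem tri_cpt (F : Fold C L γ Q) (k : Fin F.n) : IsCompact (tri (F.V k)) :=
  (Set.finite_range (F.V k)).isCompact_convexHull ℝ

theorem img_cpt (F : Fold C L γ Q) (k : Fin F.n) : IsCompact (F.f '' tri (F.V k)) :=
  (tri_cpt F k).image_of_continuousOn ((f_lip F).continuousOn.mono (tri_sub F k))

theorem img_meas (F : Fold C L γ Q) (k : Fin F.n) :
    μH[2] (F.f '' tri (F.V k)) = μH[2] (tri (F.V k)) := by
  have h : F.f '' tri (F.V k) = F.A k '' tri (F.V k) :=
    image_congr fun p hp => F.rigid k p hp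
  rw [h]
  exact (F.A k).isometry.hausdorffMeasure_image (Or.inl (by norm_num)) _

theorem null_set (F : Fold C L γ Q) :
    μH[2] (F.f '' ((frontier C ∪ ⋃ k, frontier (tri (F.V k))) ∩ C)) = 0 := by
  obtain ⟨c, hc0, hct, hc2, -⟩ := haus_two
  have h1 : volume (frontier C ∪ ⋃ k, frontier (tri (F.V k))) = 0 := by
    rw [measure_union_null_iff]
    refine ⟨F.region.cvx.addHaar_frontier _, ?_⟩
    rw [measure_iUnion_null_iff]
    intro k
    exact (convex_convexHull ℝ _).addHaar_frontier _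
  have h2 : μH[2] ((frontier C ∪ ⋃ k, frontier (tri (F.V k))) ∩ C) = 0 := by
    rw [hc2, measure_mono_null inter_subset_left h1, mul_zero]
  have h3 := ((f_lip F).mono (inter_subset_right
    (s := frontier C ∪ ⋃ k, frontier (tri (F.V k))))).hausdorffMeasure_image_le
      (d := 2) (by norm_num)
  rw [h2, mul_zero] at h3
  exact le_antisymm h3 bot_le

theorem ae_disj (F : Fold C L γ Q) (j k : Fin F.n) (hjk : j ≠ k) :
    AEDisjoint (μH[2] : Measure E3) (F.f '' tri (F.V j)) (F.f '' tri (F.V k)) := by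
  refine measure_mono_null ?_ (null_set F)
  rintro z ⟨⟨p, hp, rfl⟩, ⟨q, hq, hqp⟩⟩
  have hpC := tri_sub F j hp
  have hqC := tri_sub F k hq
  refine ⟨p, ⟨?_, hpC⟩, rfl⟩
  rcases (F.glue p hpC q hqC).1 hqp.symm with h | ⟨s, hs, h, -⟩
  · subst h
    by_cases hj : p ∈ interior (tri (F.V j))
    · have hk : p ∉ interior (tri (F.V k)) := fun hk =>
        Set.disjoint_left.1 (F.disj j k hjk) hj hk
      refine Or.inr (mem_iUnion.2 ⟨k, ?_⟩)
      rw [(tri_cpt F k).isClosed.frontier_eq]
      exact ⟨hq, hk⟩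
    · refine Or.inr (mem_iUnion.2 ⟨j, ?_⟩)
      rw [(tri_cpt F j).isClosed.frontier_eq]
      exact ⟨hp, hj⟩
  · left
    rw [h, ← F.arc.onto]
    exact mem_image_of_mem γ hs

end FrEAux

open FrEAux in
theorem front_eq (F : Fold C L γ Q) : μH[2] (frontier Q) = μH[2] C := by
  refine le_antisymm (front_le F) ?_
  have h1 : frontier Q = ⋃ k, F.f '' tri (F.V k) := by
    have h := congrArg (fun s => F.f '' s) F.cover
    simp only [image_iUnion] at h
    rw [h, F.onto]
  have h2 : μH[2] (⋃ k, F.f '' tri (F.V k)) = ∑' k, μH[2] (F.f '' tri (F.V k)) :=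
    measure_iUnion₀ (fun j k hjk => ae_disj F j k hjk)
      (fun k => (img_cpt F k).measurableSet.nullMeasurableSet)
  rw [h1, h2]
  calc μH[2] C = μH[2] (⋃ k, tri (F.V k)) := congrArg _ F.cover.symm
    _ ≤ ∑' k, μH[2] (tri (F.V k)) := measure_iUnion_le _
    _ = ∑' k, μH[2] (F.f '' tri (F.V k)) := by simp only [img_meas]

end Pool.Agent.Lib.FOLD
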