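import Pool.Agent.Lib.FOLD.Defs

/-!
# FOLD.GL1: rigid motion from three distances (0.8 h)
PROOF. The vectors `a = V 1 - V 0`, `b = V 2 - V 0` are a basis of `E2`; `a' = u 1 - u 0`, `b' = u 2 - u 0`. From the distances `‖a‖ = ‖a'‖`, `‖b‖ = ‖b'‖`, `⟪a,b⟫ = ⟪a',b'⟫` (polarisation). The linear map with `a ↦ a'`, `b ↦ b'` preserves `‖s a + t b‖`, so it is a linear isometry; `A p = u 0 + J (p - V 0)`.
-/

set_option autoImplicit false

open MeasureTheory Set Filter Topology Metric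
open scoped MeasureTheory ENNReal

namespace Pool.Agent.Lib.FOLD

namespace GL1Aux

theorem norm_comb {E F : Type} [NormedAddCommGroup E] [InnerProductSpace ℝ E]
    [NormedAddCommGroup F] [InnerProductSpace ℝ F] {a b : E} {a' b' : F}
    (ha : ‖a‖ = ‖a'‖) (hb : ‖b‖ = ‖b'‖) (hab : ‖a - b‖ = ‖a' - b'‖) (s t : ℝ) :
    ‖s • a' + t • b'‖ = ‖s • a + t • b‖ := by
  have h1 := norm_sub_sq_real a b
  have h2 := norm_sub_sq_real a' b'
  have hi : inner ℝ a b = inner ℝ a' b' := by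
    rw [hab, ha, hb] at h1
    linarith
  have h3 := norm_add_sq_real (s • a) (t • b)
  have h4 := norm_add_sq_real (s • a') (t • b')
  rw [norm_smul, norm_smul, inner_smul_left, inner_smul_right, hi, ha, hb] at h3
  rw [norm_smul, norm_smul, inner_smul_left, inner_smul_right] at h4
  have h5 : ‖s • a' + t • b'‖ ^ 2 = ‖s • a + t • b‖ ^ 2 := by rw [h3, h4]
  exact (sq_eq_sq₀ (norm_nonneg _) (norm_nonneg _)).1 h5

end GL1Aux

theorem exists_isom {V : Fin 3 → E2} {u : Fin 3 → E3} (hV : AffineIndependent ℝ V)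
    (h : ∀ i j, dist (V i) (V j) = dist (u i) (u j)) :
    ∃ A : E2 →ᵃⁱ[ℝ] E3, ∀ i, A (V i) = u i := by
  have hli : LinearIndependent ℝ ![V 1 - V 0, V 2 - V 0] := by
    have h0 := (affineIndependent_iff_linearIndependent_vsub ℝ V 0).1 hV
    have hinj : Function.Injective (![⟨1, by decide⟩, ⟨2, by decide⟩] : Fin 2 → {x : Fin 3 // x ≠ 0}) := by
      intro i j hij
      fin_cases i <;> fin_cases j <;> simp at hij ⊢
    have h1 := h0.comp _ hinj
    have he : ![V 1 - V 0, V 2 - V 0] = (fun i : {x : Fin 3 // x ≠ 0} => V i -ᵥ V 0) ∘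
        (![⟨1, by decide⟩, ⟨2, by decide⟩] : Fin 2 → {x : Fin 3 // x ≠ 0}) := by
      funext i
      fin_cases i <;> rfl
    rw [he]
    exact h1
  have hcard : Fintype.card (Fin 2) = Module.finrank ℝ E2 := by simp [E2]
  let B := basisOfLinearIndependentOfCardEqFinrank hli hcard
  have hB0 : B 0 = V 1 - V 0 := by
    simp [B, coe_basisOfLinearIndependentOfCardEqFinrank]
  have hB1 : B 1 = V 2 - V 0 := by
    simp [B, coe_basisOfLinearIndependentOfCardEqFinrank]
  let J : E2 →ₗ[ℝ] E3 := B.constr ℝ ![u 1 - u 0, u 2 - u 0]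
  have hJ0 : J (V 1 - V 0) = u 1 - u 0 := by
    rw [← hB0]
    simp [J]
  have hJ1 : J (V 2 - V 0) = u 2 - u 0 := by
    rw [← hB1]
    simp [J]
  have hna : ‖V 1 - V 0‖ = ‖u 1 - u 0‖ := by
    have := h 1 0
    rwa [dist_eq_norm, dist_eq_norm] at this
  have hnb : ‖V 2 - V 0‖ = ‖u 2 - u 0‖ := by
    have := h 2 0
    rwa [dist_eq_norm, dist_eq_norm] at this
  have hnab : ‖(V 1 - V 0) - (V 2 - V 0)‖ = ‖(u 1 - u 0) - (u 2 - u 0)‖ := by
    have := h 1 2
    rw [dist_eq_norm, dist_eq_norm] at this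
    rwa [sub_sub_sub_cancel_right, sub_sub_sub_cancel_right]
  have hnorm : ∀ v : E2, ‖J v‖ = ‖v‖ := by
    intro v
    have hv : v = (B.repr v 0) • (V 1 - V 0) + (B.repr v 1) • (V 2 - V 0) := by
      have := B.sum_repr v
      rw [Fin.sum_univ_two, hB0, hB1] at this
      exact this.symm
    rw [hv, map_add, map_smul, map_smul, hJ0, hJ1]
    exact GL1Aux.norm_comb hna hnb hnab _ _
  let A0 : E2 →ᵃ[ℝ] E3 := AffineMap.mk' (fun p => J (p - V 0) + u 0) J (V 0) (by
    intro p'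
    simp)
  refine ⟨⟨A0, ?_⟩, ?_⟩
  · intro v
    have : A0.linear = J := rfl
    rw [this]
    exact hnorm v
  · intro i
    change J (V i - V 0) + u 0 = u i
    fin_cases i
    · simp
    · change J (V 1 - V 0) + u 0 = u 1
      rw [hJ0]; simp
    · change J (V 2 - V 0) + u 0 = u 2
      rw [hJ1]; simp

end Pool.Agent.Lib.FOLD
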