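import Pool.Agent.Lib.FOLD.Defs

/-!
# FOLD.GL2: faces of a polytope given by half spaces (1 h)
PROOF. `face_eq`: `z = ∑ λ_m w m` (convex combination, `convexHull_range_eq` / `Finset.mem_convexHull`..). `∑ λ_m (h - ⟪n, w m⟫) = 0` with nonnegative terms, so `λ_m = 0` unless `⟪n, w m⟫ = h`, i.e. unless `m` is one of the labels `l i`. `frontier_faces`: let `Q = convexHull (range w)` (compact). If `z ∈ frontier Q` then `z ∈ Q` and some
`⟪n k, z⟫ = h k`: otherwise all are `<` and the open set `{all <}` is contained in `Q` (`hQ`), so `z` is interior. `face_eq` gives `⊆`. Conversely on the hull of the `w (lab k i)` the functional `⟪n k,·⟫` is `h k`, its maximum on `Q` (`hsup`), and `n k ≠ 0`, so these points are not interior.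
-/

set_option autoImplicit false

open MeasureTheory Set Filter Topology Metric
open scoped MeasureTheory ENNReal

namespace Pool.Agent.Lib.FOLD

namespace GL2Aux

theorem hull_le {M : ℕ} {w : Fin M → E3} {n z : E3} {h : ℝ}
    (hsup : ∀ m, inner ℝ n (w m) ≤ h) (hz : z ∈ convexHull ℝ (range w)) : inner ℝ n z ≤ h := by
  have hconv : Convex ℝ {y : E3 | inner ℝ n y ≤ h} := by
    have := convex_halfSpace_le (𝕜 := ℝ) (f := fun y : E3 => inner ℝ n y)
      (IsLinearMap.mk (fun x y => inner_add_right n x y)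
        (fun c x => by rw [inner_smul_right, smul_eq_mul])) h
    exact this
  have h1 : convexHull ℝ (range w) ⊆ {y : E3 | inner ℝ n y ≤ h} := by
    apply convexHull_min _ hconv
    rintro _ ⟨m, rfl⟩
    exact hsup m
  exact h1 hz

theorem hull_eq {M : ℕ} {w : Fin M → E3} {l : Fin 3 → Fin M} {n z : E3} {h : ℝ}
    (heq : ∀ i, inner ℝ n (w (l i)) = h) (hz : z ∈ convexHull ℝ (range fun i => w (l i))) :
    inner ℝ n z = h := by
  have hconv : Convex ℝ {y : E3 | inner ℝ n y = h} := by
    have := convex_hyperplane (𝕜 := ℝ) (f := fun y : E3 => inner ℝ n y)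
      (IsLinearMap.mk (fun x y => inner_add_right n x y)
        (fun c x => by rw [inner_smul_right, smul_eq_mul])) h
    exact this
  have h1 : convexHull ℝ (range fun i => w (l i)) ⊆ {y : E3 | inner ℝ n y = h} := by
    apply convexHull_min _ hconv
    rintro _ ⟨m, rfl⟩
    exact heq m
  exact h1 hz

end GL2Aux

open GL2Aux

theorem face_eq {M : ℕ} {w : Fin M → E3} {l : Fin 3 → Fin M} {n z : E3} {h : ℝ}
    (hsup : ∀ m, inner ℝ n (w m) ≤ h) (heq : ∀ m, inner ℝ n (w m) = h → ∃ i, l i = m)
    (hz : z ∈ convexHull ℝ (range w)) (hz' : inner ℝ n z = h) :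
    z ∈ convexHull ℝ (range fun i => w (l i)) := by
  classical
  obtain ⟨ι, hι, a, y, ha0, ha1, hy, hsum⟩ := mem_convexHull_iff_exists_fintype.1 hz
  have h1 : ∀ i, inner ℝ n (y i) ≤ h := by
    intro i
    obtain ⟨m, hm⟩ := hy i
    rw [← hm]; exact hsup m
  have h2 : ∑ i, a i * (h - inner ℝ n (y i)) = 0 := by
    have h3 : inner ℝ n z = ∑ i, a i * inner ℝ n (y i) := by
      rw [← hsum, inner_sum]
      exact Finset.sum_congr rfl fun i _ => inner_smul_right _ _ _
    simp only [mul_sub, Finset.sum_sub_distrib, ← Finset.sum_mul, ha1]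
    rw [← h3, hz']; ring
  have h4 := (Finset.sum_eq_zero_iff_of_nonneg
    (fun i _ => mul_nonneg (ha0 i) (sub_nonneg.2 (h1 i)))).1 h2
  have h5 : ∀ i, a i ≠ 0 → y i ∈ convexHull ℝ (range fun j => w (l j)) := by
    intro i hi
    apply subset_convexHull
    have h6 := h4 i (Finset.mem_univ i)
    have h7 : inner ℝ n (y i) = h := by
      rcases mul_eq_zero.1 h6 with h8 | h8
      · exact absurd h8 hi
      · linarith
    obtain ⟨m, hm⟩ := hy i
    rw [← hm] at h7
    obtain ⟨j, hj⟩ := heq m h7
    refine ⟨j, ?_⟩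
    change w (l j) = y i
    rw [hj, hm]
  have h8 : ∑ i with a i ≠ 0, a i • y i = z := by
    rw [← hsum]
    apply Finset.sum_filter_of_ne
    intro i _ hi h0
    exact hi (by rw [h0, zero_smul])
  have h9 : ∑ i with a i ≠ 0, a i = 1 := by
    rw [← ha1]
    apply Finset.sum_filter_of_ne
    intro i _ hi
    exact hi
  rw [← h8]
  exact (convex_convexHull ℝ _).sum_mem (fun i _ => ha0 i) h9
    (fun i hi => h5 i (Finset.mem_filter.1 hi).2)

theorem frontier_faces {N M : ℕ} {lab : Fin N → Fin 3 → Fin M} {w : Fin M → E3} {n : Fin N → E3}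
    {h : Fin N → ℝ} (hn0 : ∀ k, n k ≠ 0) (hn : ∀ k i, inner ℝ (n k) (w (lab k i)) = h k)
    (hsup : ∀ k m, inner ℝ (n k) (w m) ≤ h k)
    (heq : ∀ k m, inner ℝ (n k) (w m) = h k → ∃ i, lab k i = m)
    (hQ : ∀ z, (∀ k, inner ℝ (n k) z ≤ h k) → z ∈ convexHull ℝ (range w)) :
    frontier (convexHull ℝ (range w)) = ⋃ k, convexHull ℝ (range fun i => w (lab k i)) := by
  classical
  have hcl : IsClosed (convexHull ℝ (range w)) :=
    ((Set.finite_range w).isCompact_convexHull ℝ).isClosed
  ext z
  rw [mem_iUnion]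
  constructor
  · intro hz
    have hzQ : z ∈ convexHull ℝ (range w) := hcl.frontier_subset hz
    by_contra hcon
    have h1 : ∀ k, inner ℝ (n k) z < h k := by
      intro k
      refine lt_of_le_of_ne (hull_le (hsup k) hzQ) fun h2 => hcon ⟨k, ?_⟩
      exact face_eq (hsup k) (heq k) hzQ h2
    have hU : IsOpen {y : E3 | ∀ k, inner ℝ (n k) y < h k} := by
      rw [Set.setOf_forall]
      exact isOpen_iInter_of_finite fun k =>
        isOpen_lt (continuous_const.inner continuous_id) continuous_const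
    have h2 : {y : E3 | ∀ k, inner ℝ (n k) y < h k} ⊆ convexHull ℝ (range w) :=
      fun y hy => hQ y fun k => (hy k).le
    have h3 : z ∈ interior (convexHull ℝ (range w)) := interior_maximal h2 hU h1
    exact hz.2 h3
  · rintro ⟨k, hk⟩
    have hzQ : z ∈ convexHull ℝ (range w) := by
      refine convexHull_mono ?_ hk
      rintro _ ⟨i, rfl⟩
      exact ⟨lab k i, rfl⟩
    have h1 := hull_eq (hn k) hk
    refine ⟨subset_closure hzQ, fun hint => ?_⟩
    rw [mem_interior_iff_mem_nhds] at hint
    have hc : Tendsto (fun t : ℝ => z + t • n k) (𝓝[>] 0) (𝓝 z) := by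
      have h2 : Tendsto (fun t : ℝ => z + t • n k) (𝓝 0) (𝓝 (z + (0 : ℝ) • n k)) :=
        (continuous_const.add (continuous_id.smul continuous_const)).tendsto 0
      rw [zero_smul, add_zero] at h2
      exact h2.mono_left nhdsWithin_le_nhds
    have h3 := hc.eventually hint
    obtain ⟨t, ht1, ht2⟩ := (h3.and self_mem_nhdsWithin).exists
    have h4 := hull_le (hsup k) ht1
    rw [inner_add_right, inner_smul_right, h1] at h4
    have h5 : 0 < inner ℝ (n k) (n k) := by
      rw [real_inner_self_eq_norm_sq]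
      have := norm_pos_iff.2 (hn0 k)
      positivity
    have h6 : 0 < t * inner ℝ (n k) (n k) := mul_pos ht2 h5
    linarith

end Pool.Agent.Lib.FOLD
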