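import Pool.Agent.Lib.FOLD.GL1
import Pool.Agent.Lib.FOLD.GL2

/-!
# FOLD.GL3: a criterion for polyhedral foldings (1.5 h)
PROOF. `A k` from `exists_isom` (`A k (V k i) = w (lab k i)`), `f p = A k p` for a chosen `k` with `p ∈ tri (V k)`. `rigid`: if `p` is in the triangles `j` and `k`, by `hover` it is a convex combination of common vertices `V j i = V k i'` with the same label, where `A j` and `A k` agree, so `A j p = A k p`. `f '' tri (V k) = convexHull (range fun i => w (lab k i))`
(affine image). `onto`: `frontier_faces`, `hcov`. `glue` (→): `f p = f q = z`, `p ∈ tri (V j)`, `q ∈ tri (V k)`. `j = k`: `p = q`. `j ≠ k`: write `p = ∑ α_i V j i`, `z = ∑ α_i w (lab j i)`; `⟪n k, z⟫ = h k` forces `α_i = 0` unless `lab j i ∈ range (lab k)` (`heq`), the same for `q`. There are one or two common labels (`hthree`: not three). One: `p = V j i`,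
`q = V k i'` with the same label: `hglue`. Two: `p = lineMap (V j i1) (V j i2) t`, `q = lineMap (V k i1') (V k i2') t'`, `z = lineMap (w a) (w b) t = lineMap (w a) (w b) t'`, `w a ≠ w b` (isometry, `V j i1 ≠ V j i2`), so `t = t'`: `hglue2`. (←): `hback`, `A j`, `A k` affine. `edge`: `f (V k i) = w m`, `m = lab k i`; if it is in `f '' tri (V j)` then `⟪n j, w m⟫ = h j`, so
`m = lab j i'` (`heq`). `Q = convexHull (range w)` is compact and convex. The index type is already `Fin N`.
-/

set_option autoImplicit false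

open MeasureTheory Set Filter Topology Metric
open scoped MeasureTheory ENNReal

namespace Pool.Agent.Lib.FOLD

namespace GL3Aux

theorem mem_tri {E : Type*} [AddCommGroup E] [Module ℝ E] {V : Fin 3 → E} {p : E}
    (hp : p ∈ tri V) :
    ∃ α : Fin 3 → ℝ, (∀ i, 0 ≤ α i) ∧ ∑ i, α i = 1 ∧ ∑ i, α i • V i = p := by
  have hconv : Convex ℝ {p : E | ∃ α : Fin 3 → ℝ, (∀ i, 0 ≤ α i) ∧ ∑ i, α i = 1 ∧
      ∑ i, α i • V i = p} := by
    rintro x ⟨α, ha0, ha1, hax⟩ y ⟨β, hb0, hb1, hby⟩ s t hs ht hst
    refine ⟨fun i => s * α i + t * β i, fun i => add_nonneg (mul_nonneg hs (ha0 i))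
      (mul_nonneg ht (hb0 i)), ?_, ?_⟩
    · rw [Finset.sum_add_distrib, ← Finset.mul_sum, ← Finset.mul_sum, ha1, hb1, mul_one, mul_one,
        hst]
    · rw [← hax, ← hby, Finset.smul_sum, Finset.smul_sum, ← Finset.sum_add_distrib]
      refine Finset.sum_congr rfl fun i _ => ?_
      rw [add_smul, mul_smul, mul_smul]
  refine convexHull_min ?_ hconv hp
  rintro _ ⟨i, rfl⟩
  refine ⟨Pi.single i 1, fun j => ?_, ?_, ?_⟩
  · by_cases hji : j = i
    · subst hji; simp
    · simp [hji]
  · simp
  · rw [Finset.sum_eq_single i]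
    · simp
    · intro j _ hj
      simp [hj]
    · intro hi
      exact absurd (Finset.mem_univ i) hi

theorem map_sum (A : E2 →ᵃⁱ[ℝ] E3) {α : Fin 3 → ℝ} (h1 : ∑ i, α i = 1) (u : Fin 3 → E2) :
    A (∑ i, α i • u i) = ∑ i, α i • A (u i) := by
  have h2 : ∀ x : E2, A x = A.linearIsometry x + A 0 := by
    intro x
    have := A.map_vadd 0 x
    simpa using this
  rw [h2, _root_.map_sum]
  simp only [map_smul]
  have h3 : ∀ i, α i • A (u i) = α i • A.linearIsometry (u i) + α i • A 0 := by
    intro i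
    rw [h2 (u i), smul_add]
  rw [Finset.sum_congr rfl fun i _ => h3 i, Finset.sum_add_distrib, ← Finset.sum_smul, h1, one_smul]

theorem map_lineMap (A : E2 →ᵃⁱ[ℝ] E3) (x y : E2) (t : ℝ) :
    A (AffineMap.lineMap x y t) = AffineMap.lineMap (A x) (A y) t := by
  exact AffineMap.apply_lineMap A.toAffineMap x y t

theorem two_weights {α : Fin 3 → ℝ} (h1 : ∑ i, α i = 1) {i0 : Fin 3}
    (hi0 : α i0 = 0) : ∃ i1 i2 : Fin 3, i1 ≠ i2 ∧ α i1 = 1 - α i2 ∧
      ∀ u : Fin 3 → E2, ∑ i, α i • u i = AffineMap.lineMap (u i1) (u i2) (α i2) := by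
  rw [Fin.sum_univ_three] at h1
  fin_cases i0
  · have h2 : α 0 = 0 := hi0
    refine ⟨1, 2, by decide, by linarith, fun u => ?_⟩
    have h3 : α 1 = 1 - α 2 := by linarith
    rw [Fin.sum_univ_three, h2, h3, AffineMap.lineMap_apply_module]
    simp
  · have h2 : α 1 = 0 := hi0
    refine ⟨0, 2, by decide, by linarith, fun u => ?_⟩
    have h3 : α 0 = 1 - α 2 := by linarith
    rw [Fin.sum_univ_three, h2, h3, AffineMap.lineMap_apply_module]
    simp
  · have h2 : α 2 = 0 := hi0
    refine ⟨0, 1, by decide, by linarith, fun u => ?_⟩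
    have h3 : α 0 = 1 - α 1 := by linarith
    rw [Fin.sum_univ_three, h2, h3, AffineMap.lineMap_apply_module]
    simp

theorem lineMap_mem_tri {V : Fin 3 → E2} (i1 i2 : Fin 3) {t : ℝ} (ht : t ∈ Icc (0 : ℝ) 1) :
    AffineMap.lineMap (V i1) (V i2) t ∈ tri V := by
  rw [AffineMap.lineMap_apply_module]
  exact convex_convexHull ℝ (range V) (subset_convexHull ℝ _ (mem_range_self i1))
    (subset_convexHull ℝ _ (mem_range_self i2)) (by linarith [ht.2]) ht.1 (by ring)

end GL3Aux

open GL3Aux

theorem poly_fold {C : Set E2} {L : ℝ} {γ : ℝ → E2} {N M : ℕ} {lab : Fin N → Fin 3 → Fin M}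
    {w : Fin M → E3} {V : Fin N → Fin 3 → E2} {n : Fin N → E3} {h : Fin N → ℝ}
    (hC : Region C) (hγ : ArcParam C L γ) (hinj : InjOn γ (Ico 0 L))
    (hind : ∀ k, AffineIndependent ℝ (V k)) (hcov : (⋃ k, tri (V k)) = C)
    (hdis : ∀ j k, j ≠ k → Disjoint (interior (tri (V j))) (interior (tri (V k))))
    (hiso : ∀ k i j, dist (V k i) (V k j) = dist (w (lab k i)) (w (lab k j)))
    (hover : ∀ j k p, p ∈ tri (V j) → p ∈ tri (V k) →
      p ∈ convexHull ℝ {q | ∃ i i', V j i = q ∧ V k i' = q ∧ lab j i = lab k i'})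
    (hn0 : ∀ k, n k ≠ 0) (hn : ∀ k i, inner ℝ (n k) (w (lab k i)) = h k)
    (hsup : ∀ k m, inner ℝ (n k) (w m) ≤ h k)
    (heq : ∀ k m, inner ℝ (n k) (w m) = h k → ∃ i, lab k i = m)
    (hQ : ∀ z, (∀ k, inner ℝ (n k) z ≤ h k) → z ∈ convexHull ℝ (range w))
    (hint : (interior (convexHull ℝ (range w))).Nonempty)
    (hthree : ∀ j k, j ≠ k → ∃ i, ∀ i', lab j i ≠ lab k i')
    (hglue : ∀ j k i i', lab j i = lab k i' → V j i = V k i' ∨ Glued L γ (V j i) (V k i'))
    (hglue2 : ∀ j k, j ≠ k → ∀ i1 i2 i1' i2', i1 ≠ i2 → lab j i1 = lab k i1' → lab j i2 = lab k i2' →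
      (V j i1 = V k i1' ∧ V j i2 = V k i2') ∨ ∀ t ∈ Icc (0 : ℝ) 1,
        Glued L γ (AffineMap.lineMap (V j i1) (V j i2) t) (AffineMap.lineMap (V k i1') (V k i2') t))
    (hback : ∀ p q, Glued L γ p q → ∃ j k i1 i2 i1' i2', ∃ t ∈ Icc (0 : ℝ) 1,
      lab j i1 = lab k i1' ∧ lab j i2 = lab k i2' ∧ p = AffineMap.lineMap (V j i1) (V j i2) t ∧
        q = AffineMap.lineMap (V k i1') (V k i2') t) :
    PLFolding C L γ (convexHull ℝ (range w)) := by
  classical
  have hAex : ∀ k, ∃ A : E2 →ᵃⁱ[ℝ] E3, ∀ i, A (V k i) = w (lab k i) := fun k =>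
    exists_isom (hind k) (hiso k)
  choose A hA using hAex
  -- the maps agree on common points
  have hagree : ∀ j k p, p ∈ tri (V j) → p ∈ tri (V k) → A j p = A k p := by
    intro j k p hj hk
    have hconv : Convex ℝ {q : E2 | A j q = A k q} := by
      rintro x hx y hy s t hs ht hst
      have hx' : A j x = A k x := hx
      have hy' : A j y = A k y := hy
      have h1 : s • x + t • y = AffineMap.lineMap x y t := by
        rw [AffineMap.lineMap_apply_module]
        have : s = 1 - t := by linarith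
        rw [this]
      change A j (s • x + t • y) = A k (s • x + t • y)
      rw [h1, map_lineMap, map_lineMap, hx', hy']
    have hsub : {q | ∃ i i', V j i = q ∧ V k i' = q ∧ lab j i = lab k i'} ⊆
        {q : E2 | A j q = A k q} := by
      rintro q ⟨i, i', h1, h2, h3⟩
      change A j q = A k q
      have h4 : A j q = w (lab j i) := by rw [← h1]; exact hA j i
      have h5 : A k q = w (lab k i') := by rw [← h2]; exact hA k i'
      rw [h4, h5, h3]
    exact convexHull_min hsub hconv (hover j k p hj hk)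
  set f : E2 → E3 := fun p => if hp : ∃ k, p ∈ tri (V k) then A hp.choose p else 0 with hf
  have hrig : ∀ k, ∀ p ∈ tri (V k), f p = A k p := by
    intro k p hp
    have hex : ∃ k, p ∈ tri (V k) := ⟨k, hp⟩
    have h1 : f p = A hex.choose p := by
      simp only [hf]
      rw [dif_pos hex]
    rw [h1]
    exact hagree _ _ _ hex.choose_spec hp
  have hVmem : ∀ k i, V k i ∈ tri (V k) := fun k i => subset_convexHull ℝ _ (mem_range_self i)
  have hfV : ∀ k i, f (V k i) = w (lab k i) := fun k i => by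
    rw [hrig k _ (hVmem k i), hA k i]
  have himg : ∀ k, A k '' tri (V k) = convexHull ℝ (range fun i => w (lab k i)) := by
    intro k
    have h1 := AffineMap.image_convexHull (A k).toAffineMap (range (V k))
    have h2 : (A k).toAffineMap '' range (V k) = range fun i => w (lab k i) := by
      rw [← range_comp]
      congr 1
      funext i
      exact hA k i
    rw [h2] at h1
    exact h1
  have hsubC : ∀ k, tri (V k) ⊆ C := fun k => by
    rw [← hcov]; exact subset_iUnion (fun k => tri (V k)) k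
  have hmemC : ∀ p ∈ C, ∃ k, p ∈ tri (V k) := by
    intro p hp
    rw [← hcov] at hp
    exact mem_iUnion.1 hp
  have honto : f '' C = frontier (convexHull ℝ (range w)) := by
    rw [frontier_faces hn0 hn hsup heq hQ]
    ext z
    rw [mem_iUnion]
    constructor
    · rintro ⟨p, hp, rfl⟩
      obtain ⟨k, hk⟩ := hmemC p hp
      refine ⟨k, ?_⟩
      rw [← himg k, hrig k p hk]
      exact mem_image_of_mem _ hk
    · rintro ⟨k, hk⟩
      rw [← himg k] at hk
      obtain ⟨p, hp, rfl⟩ := hk
      exact ⟨p, hsubC k hp, hrig k p hp⟩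
  -- the height of the points of a face
  have hface : ∀ k, ∀ p ∈ tri (V k), inner ℝ (n k) (A k p) = h k := by
    intro k p hp
    apply GL2Aux.hull_eq (hn k)
    rw [← himg k]
    exact mem_image_of_mem _ hp
  have hglueto : ∀ p ∈ C, ∀ q ∈ C, f p = f q → p = q ∨ Glued L γ p q := by
    intro p hp q hq hpq
    obtain ⟨j, hj⟩ := hmemC p hp
    obtain ⟨k, hk⟩ := hmemC q hq
    rw [hrig j p hj, hrig k q hk] at hpq
    by_cases hjk : j = k
    · subst hjk
      left
      exact (A j).injective hpq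
    obtain ⟨α, ha0, ha1, hap⟩ := mem_tri hj
    have hz : A j p = ∑ i, α i • w (lab j i) := by
      rw [← hap, GL3Aux.map_sum (A j) ha1]
      exact Finset.sum_congr rfl fun i _ => by rw [hA j i]
    have h1 : ∑ i, α i * (h k - inner ℝ (n k) (w (lab j i))) = 0 := by
      have h2 : inner ℝ (n k) (A j p) = h k := by rw [hpq]; exact hface k q hk
      have h3 : inner ℝ (n k) (A j p) = ∑ i, α i * inner ℝ (n k) (w (lab j i)) := by
        rw [hz, inner_sum]
        exact Finset.sum_congr rfl fun i _ => inner_smul_right _ _ _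
      simp only [mul_sub, Finset.sum_sub_distrib, ← Finset.sum_mul, ha1]
      rw [← h3, h2]; ring
    have h2 := (Finset.sum_eq_zero_iff_of_nonneg
      (fun i _ => mul_nonneg (ha0 i) (sub_nonneg.2 (hsup k (lab j i))))).1 h1
    have h3 : ∀ i, α i ≠ 0 → ∃ i', lab j i = lab k i' := by
      intro i hi
      rcases mul_eq_zero.1 (h2 i (Finset.mem_univ i)) with h4 | h4
      · exact absurd h4 hi
      · obtain ⟨i', hi'⟩ := heq k (lab j i) (by linarith)
        exact ⟨i', hi'.symm⟩
    obtain ⟨i0, hi0⟩ := hthree j k hjk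
    have hai0 : α i0 = 0 := by
      by_contra hne
      obtain ⟨i', hi'⟩ := h3 i0 hne
      exact hi0 i' hi'
    obtain ⟨i1, i2, hne, hw, hsum⟩ := two_weights ha1 hai0
    have hpl : p = AffineMap.lineMap (V j i1) (V j i2) (α i2) := by
      rw [← hap, hsum]
    have ht : α i2 ∈ Icc (0 : ℝ) 1 := ⟨ha0 i2, by linarith [ha0 i1]⟩
    by_cases hc1 : α i1 = 0
    · have hc2 : α i2 = 1 := by linarith
      obtain ⟨i', hi'⟩ := h3 i2 (by rw [hc2]; norm_num)
      have hpV : p = V j i2 := by rw [hpl, hc2, AffineMap.lineMap_apply_one]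
      have hqV : q = V k i' := by
        apply (A k).injective
        rw [← hpq, hpV, hA j i2, hA k i', hi']
      rw [hpV, hqV]
      exact hglue j k i2 i' hi'
    by_cases hc2 : α i2 = 0
    · obtain ⟨i', hi'⟩ := h3 i1 hc1
      have hpV : p = V j i1 := by rw [hpl, hc2, AffineMap.lineMap_apply_zero]
      have hqV : q = V k i' := by
        apply (A k).injective
        rw [← hpq, hpV, hA j i1, hA k i', hi']
      rw [hpV, hqV]
      exact hglue j k i1 i' hi'
    obtain ⟨i1', hi1'⟩ := h3 i1 hc1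
    obtain ⟨i2', hi2'⟩ := h3 i2 hc2
    have hql : q = AffineMap.lineMap (V k i1') (V k i2') (α i2) := by
      apply (A k).injective
      rw [← hpq, hpl, map_lineMap, map_lineMap, hA j i1, hA j i2, hA k i1', hA k i2', hi1', hi2']
    rcases hglue2 j k hjk i1 i2 i1' i2' hne hi1' hi2' with ⟨e1, e2⟩ | hg
    · left
      rw [hpl, hql, e1, e2]
    · right
      rw [hpl, hql]
      exact hg _ ht
  exact ⟨{
    n := N
    V := V
    A := A
    f := f
    region := hC
    arc := hγ
    inj := hinj
    cpt := (Set.finite_range w).isCompact_convexHull ℝ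
    cvx := convex_convexHull ℝ _
    int := hint
    indep := hind
    cover := hcov
    disj := hdis
    rigid := hrig
    onto := honto
    glue := by
      intro p hp q hq
      constructor
      · exact hglueto p hp q hq
      · rintro (rfl | hg)
        · rfl
        · obtain ⟨j, k, i1, i2, i1', i2', t, ht, hl1, hl2, hpe, hqe⟩ := hback p q hg
          have hpj : p ∈ tri (V j) := by rw [hpe]; exact lineMap_mem_tri i1 i2 ht
          have hqk : q ∈ tri (V k) := by rw [hqe]; exact lineMap_mem_tri i1' i2' ht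
          rw [hrig j p hpj, hrig k q hqk, hpe, hqe, map_lineMap, map_lineMap, hA j i1, hA j i2,
            hA k i1', hA k i2', hl1, hl2]
    edge := by
      intro k i j hmem
      obtain ⟨p, hp, hpe⟩ := hmem
      rw [hrig j p hp, hfV k i] at hpe
      have h1 := hface j p hp
      rw [hpe] at h1
      obtain ⟨i', hi'⟩ := heq j (lab k i) h1
      exact ⟨i', by rw [hfV, hfV, hi']⟩ }⟩

end Pool.Agent.Lib.FOLD
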