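import Pool.Agent.Lib.FOLD.Defs

/-!
# FOLD.HD: a hexagon, definitions
The rectangle `[0,3] × [0,1]` with the corners `(0,0)` and `(3,1)` cut off along lines through `(1/3,0), (0,1/3)` and `(8/3,1), (3,2/3)`; `x = (1,1)`, `y = (2,0)`. Area `26/9`, volume of the folding `(6 + 2√2)/27`.
Labels of the vertices of the polyhedron: `0 = x, 1 = y, 2 = A, 3 = B1, 4 = B2, 5 = D`; `hcc² + hss² = 1`.
-/

set_option autoImplicit false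

open MeasureTheory Set Filter Topology Metric
open scoped MeasureTheory ENNReal

namespace Pool.Agent.Lib.FOLD

/-- the hexagon -/
def hC : Set E2 := {p | 0 ≤ p 0 ∧ p 0 ≤ 3 ∧ 0 ≤ p 1 ∧ p 1 ≤ 1 ∧ 1 / 3 ≤ p 0 + p 1 ∧ p 0 + p 1 ≤ 11 / 3}

/-- labels of the eight triangles -/
def hlab : Fin 8 → Fin 3 → Fin 6 :=
  ![![0, 2, 3], ![0, 3, 4], ![0, 4, 5], ![0, 5, 1], ![0, 1, 2], ![1, 2, 3], ![1, 3, 4], ![1, 4, 5]]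

/-- the eight triangles in the plane -/
noncomputable def hV : Fin 8 → Fin 3 → E2 :=
  ![![!₂[1, 1], !₂[0, 1], !₂[0, 1 / 3]], ![!₂[1, 1], !₂[0, 1 / 3], !₂[1 / 3, 0]],
    ![!₂[1, 1], !₂[1 / 3, 0], !₂[1, 0]], ![!₂[1, 1], !₂[1, 0], !₂[2, 0]],
    ![!₂[1, 1], !₂[2, 0], !₂[2, 1]], ![!₂[2, 0], !₂[2, 1], !₂[8 / 3, 1]],
    ![!₂[2, 0], !₂[8 / 3, 1], !₂[3, 2 / 3]], ![!₂[2, 0], !₂[3, 2 / 3], !₂[3, 0]]]

/-- the eight triangles by inequalities -/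
def hT : Fin 8 → Set E2 :=
  ![{p | 0 ≤ p 0 ∧ p 1 ≤ 1 ∧ 1 / 3 + 2 / 3 * p 0 ≤ p 1},
    {p | p 1 ≤ 1 / 3 + 2 / 3 * p 0 ∧ 1 / 3 ≤ p 0 + p 1 ∧ p 0 ≤ 1 / 3 + 2 / 3 * p 1},
    {p | 0 ≤ p 1 ∧ p 0 ≤ 1 ∧ 1 / 3 + 2 / 3 * p 1 ≤ p 0},
    {p | 1 ≤ p 0 ∧ 0 ≤ p 1 ∧ p 0 + p 1 ≤ 2},
    {p | p 0 ≤ 2 ∧ p 1 ≤ 1 ∧ 2 ≤ p 0 + p 1},
    {p | 2 ≤ p 0 ∧ p 1 ≤ 1 ∧ p 0 ≤ 2 + 2 / 3 * p 1},
    {p | 2 + 2 / 3 * p 1 ≤ p 0 ∧ p 0 + p 1 ≤ 11 / 3 ∧ 2 / 3 * (p 0 - 2) ≤ p 1},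
    {p | p 1 ≤ 2 / 3 * (p 0 - 2) ∧ p 0 ≤ 3 ∧ 0 ≤ p 1}]

/-- cosine and sine of half the angle at the edge -/
noncomputable def hcc : ℝ := (12 - 2 * √2) / 17

/-- sine of half the angle at the edge -/
noncomputable def hss : ℝ := (3 + 8 * √2) / 17

/-- the vertices of the polyhedron -/
noncomputable def hw : Fin 6 → E3 :=
  ![!₂[0, 0, √2 / 2], !₂[0, 0, -(√2 / 2)], !₂[√2 / 2 * hcc, -(√2 / 2 * hss), 0],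
    !₂[2 * √2 / 3, -(√2 / 6), 0], !₂[2 * √2 / 3, √2 / 6, 0], !₂[√2 / 2 * hcc, √2 / 2 * hss, 0]]

/-- outer normals of the faces -/
noncomputable def hn : Fin 8 → E3 :=
  ![!₂[√2 * hcc, -(√2 * hss), √2], !₂[3 * √2 / 4, 0, √2], !₂[√2 * hcc, √2 * hss, √2],
    !₂[-hss, hcc, 0], !₂[-hss, -hcc, 0], !₂[√2 * hcc, -(√2 * hss), -√2], !₂[3 * √2 / 4, 0, -√2],
    !₂[√2 * hcc, √2 * hss, -√2]]

/-- right sides -/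
noncomputable def hh : Fin 8 → ℝ := ![1, 1, 1, 0, 0, 1, 1, 1]

/-- the corners of the boundary polygon, starting at `x`, with `x` and `y` -/
noncomputable def hb (i : ℕ) : E2 :=
  if i % 10 = 0 then !₂[1, 1] else if i % 10 = 1 then !₂[2, 1] else if i % 10 = 2 then !₂[8 / 3, 1]
  else if i % 10 = 3 then !₂[3, 2 / 3] else if i % 10 = 4 then !₂[3, 0] else if i % 10 = 5 then !₂[2, 0]
  else if i % 10 = 6 then !₂[1, 0] else if i % 10 = 7 then !₂[1 / 3, 0] else if i % 10 = 8 then !₂[0, 1 / 3]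
  else !₂[0, 1]

end Pool.Agent.Lib.FOLD
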