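import Pool.Agent.Lib.FOLD.HP
import Pool.Agent.Lib.FOLD.PArc

/-!
# FOLD.HG: boundary and gluing of the hexagon (1.3 h)
PROOF. `poly_arc` with `m = 10`, `b = hb`: the lengths are `1, 2/3, √2/3, 2/3, 1, 1, 2/3, √2/3, 2/3, 1`. `frontier hC` is the set of points of `hC` with an equality (interior = strict inequalities), the union of the ten segments; `hinj` by cases. The gluing: `Glued L γ p q ↔ ∃ i < 10, ∃ t ∈ [0,1], p = lineMap (hb i) (hb (i+1)) t ∧ q = lineMap (hb (10-i)) (hb (9-i)) t`.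
`h_glue`: two different planar copies of a vertex are `hb i` and `hb (10 - i)` (`A: (2,1), (0,1)`; `B1: (8/3,1), (0,1/3)`; `B2: (3,2/3), (1/3,0)`; `D: (3,0), (1,0)`). `h_glue2`: two different triangles with two common labels either share the edge in the plane or the edge is a boundary edge of both: the pairs `(0,4)` (edge `x A`), `(0,5)` (edge `A B1`), `(1,6)` (`B1 B2`),
`(2,7)` (`B2 D`), `(3,7)` (edge `D y`) are glued, the other adjacent pairs `(0,1), (1,2), (2,3), (3,4), (4,5), (5,6), (6,7)` share it; finite check over `j, k, i1, i2, i1', i2'`. `h_back`: for each `i < 10` the triangles of the two boundary edges.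
-/

set_option autoImplicit false

open MeasureTheory Set Filter Topology Metric
open scoped MeasureTheory ENNReal

namespace Pool.Agent.Lib.FOLD

theorem h_three (j k : Fin 8) (h : j ≠ k) : ∃ i, ∀ i', hlab j i ≠ hlab k i' := by
  revert j k
  decide

namespace HGAux

/-- first coordinate of the corner -/
noncomputable def xa : ℕ → ℝ
  | 0 => 1
  | 1 => 2
  | 2 => 8 / 3
  | 3 => 3
  | 4 => 3
  | 5 => 2
  | 6 => 1
  | 7 => 1 / 3
  | 8 => 0
  | 9 => 0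
  | _ => 1

/-- second coordinate of the corner -/
noncomputable def ya : ℕ → ℝ
  | 0 => 1
  | 1 => 1
  | 2 => 1
  | 3 => 2 / 3
  | 4 => 0
  | 5 => 0
  | 6 => 0
  | 7 => 0
  | 8 => 1 / 3
  | 9 => 1
  | _ => 1

theorem hb_eq {i : ℕ} (hi : i ≤ 10) : hb i = !₂[xa i, ya i] := by
  interval_cases i <;> simp [hb, xa, ya]

theorem hb_per (i : ℕ) : hb (i + 10) = hb i := by
  unfold hb
  rw [Nat.add_mod_right]

theorem lm (a b a' b' t : ℝ) : AffineMap.lineMap (!₂[a, b] : E2) !₂[a', b'] t =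
    !₂[a + t * (a' - a), b + t * (b' - b)] := by
  ext i
  fin_cases i
  · simp [AffineMap.lineMap_apply]
    ring
  · simp [AffineMap.lineMap_apply]
    ring

theorem pt_inj {a b a' b' : ℝ} : (!₂[a, b] : E2) = !₂[a', b'] ↔ a = a' ∧ b = b' := by
  constructor
  · intro h
    have h1 := congrArg (fun p : E2 => p 0) h
    have h2 := congrArg (fun p : E2 => p 1) h
    exact ⟨by simpa using h1, by simpa using h2⟩
  · rintro ⟨rfl, rfl⟩
    rfl

theorem mem_hC {a b : ℝ} : (!₂[a, b] : E2) ∈ hC ↔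
    0 ≤ a ∧ a ≤ 3 ∧ 0 ≤ b ∧ b ≤ 1 ∧ 1 / 3 ≤ a + b ∧ a + b ≤ 11 / 3 := by
  unfold hC
  rw [Set.mem_ofPred_eq]
  simp

theorem mem_seg {i : ℕ} (hi : i < 10) {a b : ℝ} : (!₂[a, b] : E2) ∈ segment ℝ (hb i) (hb (i + 1)) ↔
    ∃ t ∈ Icc (0 : ℝ) 1, a = xa i + t * (xa (i + 1) - xa i) ∧
      b = ya i + t * (ya (i + 1) - ya i) := by
  rw [segment_eq_image_lineMap, hb_eq hi.le, hb_eq (show i + 1 ≤ 10 by omega)]
  constructor
  · rintro ⟨t, ht, h⟩
    rw [lm, pt_inj] at h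
    exact ⟨t, ht, h.1.symm, h.2.symm⟩
  · rintro ⟨t, ht, h1, h2⟩
    refine ⟨t, ht, ?_⟩
    rw [lm, pt_inj]
    exact ⟨h1.symm, h2.symm⟩

theorem dist_pt (a b a' b' : ℝ) : dist (!₂[a, b] : E2) !₂[a', b'] =
    √((a - a') ^ 2 + (b - b') ^ 2) := by
  rw [EuclideanSpace.dist_eq, Fin.sum_univ_two, Real.dist_eq, Real.dist_eq, sq_abs, sq_abs]
  simp

/-- a linear form -/
noncomputable def lf (u v : ℝ) : E2 →L[ℝ] ℝ :=
  u • (EuclideanSpace.proj (0 : Fin 2) : E2 →L[ℝ] ℝ) + v • (EuclideanSpace.proj (1 : Fin 2) : E2 →L[ℝ] ℝ)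

theorem lf_apply (u v : ℝ) (p : E2) : lf u v p = u * p 0 + v * p 1 := by
  simp [lf]

theorem int_le (u v c : ℝ) (h : 0 < u * u + v * v) : interior {p : E2 | u * p 0 + v * p 1 ≤ c} =
    {p | u * p 0 + v * p 1 < c} := by
  have hs : Function.Surjective (lf u v) := by
    intro y
    refine ⟨(y / (u * u + v * v)) • !₂[u, v], ?_⟩
    have h' : u ^ 2 + v ^ 2 ≠ 0 := by nlinarith
    rw [lf_apply]
    simp
    field_simp
  have ho := (lf u v).isOpenMap hs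
  have h1 := ho.preimage_interior_eq_interior_preimage (lf u v).continuous (Iic c)
  rw [interior_Iic] at h1
  have h2 : (lf u v) ⁻¹' (Iic c) = {p : E2 | u * p 0 + v * p 1 ≤ c} := by
    ext p
    rw [mem_preimage, mem_Iic, lf_apply, Set.mem_ofPred_eq]
  have h3 : (lf u v) ⁻¹' (Iio c) = {p : E2 | u * p 0 + v * p 1 < c} := by
    ext p
    rw [mem_preimage, mem_Iio, lf_apply, Set.mem_ofPred_eq]
  rw [h2, h3] at h1
  exact h1.symm

theorem hC_eq : hC = {p : E2 | (-1) * p 0 + 0 * p 1 ≤ 0} ∩ {p : E2 | 1 * p 0 + 0 * p 1 ≤ 3} ∩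
    {p : E2 | 0 * p 0 + (-1) * p 1 ≤ 0} ∩ {p : E2 | 0 * p 0 + 1 * p 1 ≤ 1} ∩
    {p : E2 | (-1) * p 0 + (-1) * p 1 ≤ -(1 / 3)} ∩ {p : E2 | 1 * p 0 + 1 * p 1 ≤ 11 / 3} := by
  ext p
  simp only [hC, mem_inter_iff, Set.mem_ofPred_eq]
  constructor
  · rintro ⟨h1, h2, h3, h4, h5, h6⟩
    exact ⟨⟨⟨⟨⟨by linarith, by linarith⟩, by linarith⟩, by linarith⟩, by linarith⟩, by linarith⟩
  · rintro ⟨⟨⟨⟨⟨h1, h2⟩, h3⟩, h4⟩, h5⟩, h6⟩
    exact ⟨by linarith, by linarith, by linarith, by linarith, by linarith, by linarith⟩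

theorem hC_int : interior hC = {p : E2 | 0 < p 0 ∧ p 0 < 3 ∧ 0 < p 1 ∧ p 1 < 1 ∧ 1 / 3 < p 0 + p 1 ∧
    p 0 + p 1 < 11 / 3} := by
  rw [hC_eq, interior_inter, interior_inter, interior_inter, interior_inter, interior_inter,
    int_le _ _ _ (by norm_num), int_le _ _ _ (by norm_num), int_le _ _ _ (by norm_num),
    int_le _ _ _ (by norm_num), int_le _ _ _ (by norm_num), int_le _ _ _ (by norm_num)]
  ext p
  simp only [mem_inter_iff, Set.mem_ofPred_eq]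
  constructor
  · rintro ⟨⟨⟨⟨⟨h1, h2⟩, h3⟩, h4⟩, h5⟩, h6⟩
    exact ⟨by linarith, by linarith, by linarith, by linarith, by linarith, by linarith⟩
  · rintro ⟨h1, h2, h3, h4, h5, h6⟩
    exact ⟨⟨⟨⟨⟨by linarith, by linarith⟩, by linarith⟩, by linarith⟩, by linarith⟩, by linarith⟩

theorem hC_fr : frontier hC = {p : E2 | p ∈ hC ∧ (p 0 = 0 ∨ p 0 = 3 ∨ p 1 = 0 ∨ p 1 = 1 ∨
    p 0 + p 1 = 1 / 3 ∨ p 0 + p 1 = 11 / 3)} := by
  rw [hC_region.cpt.isClosed.frontier_eq, hC_int]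
  ext p
  simp only [Set.mem_sdiff, Set.mem_ofPred_eq, hC]
  constructor
  · rintro ⟨⟨h1, h2, h3, h4, h5, h6⟩, h⟩
    refine ⟨⟨h1, h2, h3, h4, h5, h6⟩, ?_⟩
    by_contra hc
    push Not at hc
    obtain ⟨c1, c2, c3, c4, c5, c6⟩ := hc
    exact h ⟨lt_of_le_of_ne h1 (Ne.symm c1), lt_of_le_of_ne h2 c2, lt_of_le_of_ne h3 (Ne.symm c3),
      lt_of_le_of_ne h4 c4, lt_of_le_of_ne h5 (Ne.symm c5), lt_of_le_of_ne h6 c6⟩
  · rintro ⟨h, h7⟩
    refine ⟨h, ?_⟩
    rintro ⟨c1, c2, c3, c4, c5, c6⟩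
    rcases h7 with h | h | h | h | h | h <;> linarith

theorem fr : frontier hC = ⋃ i ∈ Finset.range 10, segment ℝ (hb i) (hb (i + 1)) := by
  rw [hC_fr]
  ext p
  obtain ⟨a, b, rfl⟩ : ∃ a b, (!₂[a, b] : E2) = p := ⟨p 0, p 1, by ext i; fin_cases i <;> rfl⟩
  rw [Set.mem_ofPred_eq, mem_hC]
  simp only [mem_iUnion, Finset.mem_range, exists_prop]
  constructor
  · rintro ⟨⟨h1, h2, h3, h4, h5, h6⟩, h⟩
    have h' : a = 0 ∨ a = 3 ∨ b = 0 ∨ b = 1 ∨ a + b = 1 / 3 ∨ a + b = 11 / 3 := by simpa using h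
    rcases h' with h | h | h | h | h | h
    · subst h
      refine ⟨8, by norm_num, (mem_seg (by norm_num)).2 ⟨(b - 1 / 3) * (3 / 2), ⟨by linarith, by linarith⟩, ?_, ?_⟩⟩ <;>
        simp only [xa, ya] <;> ring
    · subst h
      refine ⟨3, by norm_num, (mem_seg (by norm_num)).2 ⟨(2 / 3 - b) * (3 / 2), ⟨by linarith, by linarith⟩, ?_, ?_⟩⟩ <;>
        simp only [xa, ya] <;> ring
    · subst h
      rcases le_total a 1 with h7 | h7
      · refine ⟨6, by norm_num, (mem_seg (by norm_num)).2 ⟨(1 - a) * (3 / 2), ⟨by linarith, by linarith⟩, ?_, ?_⟩⟩ <;>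
          simp only [xa, ya] <;> ring
      rcases le_total a 2 with h8 | h8
      · refine ⟨5, by norm_num, (mem_seg (by norm_num)).2 ⟨2 - a, ⟨by linarith, by linarith⟩, ?_, ?_⟩⟩ <;>
          simp only [xa, ya] <;> ring
      · refine ⟨4, by norm_num, (mem_seg (by norm_num)).2 ⟨3 - a, ⟨by linarith, by linarith⟩, ?_, ?_⟩⟩ <;>
          simp only [xa, ya] <;> ring
    · subst h
      rcases le_total a 1 with h7 | h7
      · refine ⟨9, by norm_num, (mem_seg (by norm_num)).2 ⟨a, ⟨by linarith, by linarith⟩, ?_, ?_⟩⟩ <;>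
          simp only [xa, ya] <;> ring
      rcases le_total a 2 with h8 | h8
      · refine ⟨0, by norm_num, (mem_seg (by norm_num)).2 ⟨a - 1, ⟨by linarith, by linarith⟩, ?_, ?_⟩⟩ <;>
          simp only [xa, ya] <;> ring
      · refine ⟨1, by norm_num, (mem_seg (by norm_num)).2 ⟨(a - 2) * (3 / 2), ⟨by linarith, by linarith⟩, ?_, ?_⟩⟩ <;>
          simp only [xa, ya] <;> ring
    · obtain rfl : b = 1 / 3 - a := by linarith
      refine ⟨7, by norm_num, (mem_seg (by norm_num)).2 ⟨1 - 3 * a, ⟨by linarith, by linarith⟩, ?_, ?_⟩⟩ <;>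
        simp only [xa, ya] <;> ring
    · obtain rfl : b = 11 / 3 - a := by linarith
      refine ⟨2, by norm_num, (mem_seg (by norm_num)).2 ⟨3 * a - 8, ⟨by linarith, by linarith⟩, ?_, ?_⟩⟩ <;>
        simp only [xa, ya] <;> ring
  · rintro ⟨i, hi, h⟩
    rw [mem_seg hi] at h
    obtain ⟨t, ⟨ht0, ht1⟩, h1, h2⟩ := h
    have key : (0 ≤ a ∧ a ≤ 3 ∧ 0 ≤ b ∧ b ≤ 1 ∧ 1 / 3 ≤ a + b ∧ a + b ≤ 11 / 3) ∧
        (a = 0 ∨ a = 3 ∨ b = 0 ∨ b = 1 ∨ a + b = 1 / 3 ∨ a + b = 11 / 3) := by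
      interval_cases i <;> simp only [xa, ya] at h1 h2 <;> subst h1 <;> subst h2
      · exact ⟨⟨by linarith, by linarith, by linarith, by linarith, by linarith, by linarith⟩,
          Or.inr (Or.inr (Or.inr (Or.inl (by ring))))⟩
      · exact ⟨⟨by linarith, by linarith, by linarith, by linarith, by linarith, by linarith⟩,
          Or.inr (Or.inr (Or.inr (Or.inl (by ring))))⟩
      · exact ⟨⟨by linarith, by linarith, by linarith, by linarith, by linarith, by linarith⟩,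
          Or.inr (Or.inr (Or.inr (Or.inr (Or.inr (by ring)))))⟩
      · exact ⟨⟨by linarith, by linarith, by linarith, by linarith, by linarith, by linarith⟩,
          Or.inr (Or.inl (by ring))⟩
      · exact ⟨⟨by linarith, by linarith, by linarith, by linarith, by linarith, by linarith⟩,
          Or.inr (Or.inr (Or.inl (by ring)))⟩
      · exact ⟨⟨by linarith, by linarith, by linarith, by linarith, by linarith, by linarith⟩,
          Or.inr (Or.inr (Or.inl (by ring)))⟩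
      · exact ⟨⟨by linarith, by linarith, by linarith, by linarith, by linarith, by linarith⟩,
          Or.inr (Or.inr (Or.inl (by ring)))⟩
      · exact ⟨⟨by linarith, by linarith, by linarith, by linarith, by linarith, by linarith⟩,
          Or.inr (Or.inr (Or.inr (Or.inr (Or.inl (by ring)))))⟩
      · exact ⟨⟨by linarith, by linarith, by linarith, by linarith, by linarith, by linarith⟩,
          Or.inl (by ring)⟩
      · exact ⟨⟨by linarith, by linarith, by linarith, by linarith, by linarith, by linarith⟩,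
          Or.inr (Or.inr (Or.inr (Or.inl (by ring))))⟩
    exact ⟨key.1, by simpa using key.2⟩

theorem inj : ∀ i < 10, ∀ j < 10, ∀ s ∈ Ico (0 : ℝ) 1, ∀ t ∈ Ico (0 : ℝ) 1,
      AffineMap.lineMap (hb i) (hb (i + 1)) s = AffineMap.lineMap (hb j) (hb (j + 1)) t →
      i = j ∧ s = t := by
  rintro i hi j hj s ⟨hs0, hs1⟩ t ⟨ht0, ht1⟩ h
  rw [hb_eq (show i ≤ 10 by omega), hb_eq (show i + 1 ≤ 10 by omega), hb_eq (show j ≤ 10 by omega),
    hb_eq (show j + 1 ≤ 10 by omega), lm, lm, pt_inj] at h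
  obtain ⟨e1, e2⟩ := h
  interval_cases i <;> interval_cases j <;> simp only [xa, ya] at e1 e2 <;>
    first
    | exact ⟨rfl, by linarith⟩
    | (exfalso; linarith)

theorem sym : ∀ i < 10, dist (hb i) (hb (i + 1)) = dist (hb (10 - 1 - i)) (hb (10 - i)) := by
  intro i hi
  rw [hb_eq (show i ≤ 10 by omega), hb_eq (show i + 1 ≤ 10 by omega),
    hb_eq (show 10 - 1 - i ≤ 10 by omega), hb_eq (show 10 - i ≤ 10 by omega), dist_pt, dist_pt]
  congr 1
  interval_cases i <;> simp only [xa, ya, Nat.reduceSub] <;> ring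

/-- index of the corner -/
def hx : Fin 8 → Fin 3 → Fin 10 :=
  ![![0, 9, 8], ![0, 8, 7], ![0, 7, 6], ![0, 6, 5], ![0, 5, 1], ![5, 1, 2], ![5, 2, 3], ![5, 3, 4]]

theorem hV_hb (j : Fin 8) (i : Fin 3) : hV j i = hb (hx j i) := by
  fin_cases j <;> fin_cases i <;> simp [hV, hx, hb]

theorem lab1 : ∀ j k i i', hlab j i = hlab k i' → hx j i = hx k i' ∨
    ((hx j i : ℕ) + (hx k i' : ℕ) = 10) := by
  decide

/-- the check -/
def chk (j k : Fin 8) (i1 i2 i1' i2' : Fin 3) : Bool :=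
  j == k || i1 == i2 || hlab j i1 != hlab k i1' || hlab j i2 != hlab k i2' ||
    (hx j i1 == hx k i1' && hx j i2 == hx k i2') ||
    ((((hx j i1 : ℕ) + 1) % 10 == (hx j i2 : ℕ)) && ((10 - (hx j i1 : ℕ)) % 10 == (hx k i1' : ℕ)) &&
      ((10 - (hx j i1 : ℕ) - 1) % 10 == (hx k i2' : ℕ))) ||
    ((((hx j i2 : ℕ) + 1) % 10 == (hx j i1 : ℕ)) && ((10 - (hx j i2 : ℕ)) % 10 == (hx k i2' : ℕ)) &&
      ((10 - (hx j i2 : ℕ) - 1) % 10 == (hx k i1' : ℕ)))

theorem chk_true : ∀ (j k : Fin 8) (i1 i2 i1' i2' : Fin 3), chk j k i1 i2 i1' i2' = true := by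
  decide +kernel

theorem lab2 (j k : Fin 8) (hjk : j ≠ k) (i1 i2 i1' i2' : Fin 3) (hi : i1 ≠ i2)
    (h1 : hlab j i1 = hlab k i1') (h2 : hlab j i2 = hlab k i2') :
    (hx j i1 = hx k i1' ∧ hx j i2 = hx k i2') ∨
      (((hx j i1 : ℕ) + 1) % 10 = (hx j i2 : ℕ) ∧ (10 - (hx j i1 : ℕ)) % 10 = (hx k i1' : ℕ) ∧
        (10 - (hx j i1 : ℕ) - 1) % 10 = (hx k i2' : ℕ)) ∨
      (((hx j i2 : ℕ) + 1) % 10 = (hx j i1 : ℕ) ∧ (10 - (hx j i2 : ℕ)) % 10 = (hx k i2' : ℕ) ∧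
        (10 - (hx j i2 : ℕ) - 1) % 10 = (hx k i1' : ℕ)) := by
  have h := chk_true j k i1 i2 i1' i2'
  unfold chk at h
  simp only [Bool.or_eq_true, Bool.and_eq_true, beq_iff_eq, bne_iff_ne] at h
  tauto

theorem hb_mod (i : ℕ) : hb (i % 10) = hb i := by
  unfold hb
  rw [Nat.mod_mod]

end HGAux

open HGAux

theorem h_arc : ∃ (L : ℝ) (γ : ℝ → E2), ArcParam hC L γ ∧ InjOn γ (Ico 0 L) ∧
    (∀ j k i i', hlab j i = hlab k i' → hV j i = hV k i' ∨ Glued L γ (hV j i) (hV k i')) ∧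
    (∀ j k, j ≠ k → ∀ i1 i2 i1' i2', i1 ≠ i2 → hlab j i1 = hlab k i1' → hlab j i2 = hlab k i2' →
      (hV j i1 = hV k i1' ∧ hV j i2 = hV k i2') ∨ ∀ t ∈ Icc (0 : ℝ) 1,
        Glued L γ (AffineMap.lineMap (hV j i1) (hV j i2) t) (AffineMap.lineMap (hV k i1') (hV k i2') t)) ∧
    (∀ p q, Glued L γ p q → ∃ j k i1 i2 i1' i2', ∃ t ∈ Icc (0 : ℝ) 1,
      hlab j i1 = hlab k i1' ∧ hlab j i2 = hlab k i2' ∧ p = AffineMap.lineMap (hV j i1) (hV j i2) t ∧
        q = AffineMap.lineMap (hV k i1') (hV k i2') t) := by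
  obtain ⟨L, γ, h1, h2, h3⟩ := poly_arc (C := hC) (m := 10) (by norm_num) hb (hb_per 0) fr inj sym
  refine ⟨L, γ, h1, h2, ?_, ?_, ?_⟩
  · intro j k i i' h
    rw [hV_hb, hV_hb]
    rcases lab1 j k i i' h with h4 | h4
    · exact Or.inl (by rw [h4])
    · right
      rw [h3]
      refine ⟨hx j i, (hx j i).isLt, 0, ⟨le_rfl, zero_le_one⟩, ?_, ?_⟩
      · rw [AffineMap.lineMap_apply_zero]
      · rw [AffineMap.lineMap_apply_zero]
        congr 1
        omega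
  · intro j k hjk i1 i2 i1' i2' hi e1 e2
    simp only [hV_hb]
    rcases lab2 j k hjk i1 i2 i1' i2' hi e1 e2 with h4 | ⟨h4, h5, h6⟩ | ⟨h4, h5, h6⟩
    · exact Or.inl ⟨by rw [h4.1], by rw [h4.2]⟩
    · right
      intro t ht
      rw [h3]
      refine ⟨hx j i1, (hx j i1).isLt, t, ht, ?_, ?_⟩
      · rw [← h4, hb_mod]
      · rw [← h5, ← h6, hb_mod, hb_mod]
    · right
      intro t ht
      rw [h3]
      refine ⟨hx j i2, (hx j i2).isLt, 1 - t, ⟨by linarith [ht.2], by linarith [ht.1]⟩, ?_, ?_⟩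
      · rw [← h4, hb_mod, AffineMap.lineMap_apply_one_sub]
      · rw [← h5, ← h6, hb_mod, hb_mod, AffineMap.lineMap_apply_one_sub]
  · intro p q h
    rw [h3] at h
    obtain ⟨i, hi, t, ht, rfl, rfl⟩ := h
    have key : ∃ (j k : Fin 8) (i1 i2 i1' i2' : Fin 3), hlab j i1 = hlab k i1' ∧ hlab j i2 = hlab k i2' ∧
        (hx j i1 : ℕ) = i ∧ (hx j i2 : ℕ) = (i + 1) % 10 ∧ (hx k i1' : ℕ) = (10 - i) % 10 ∧
        (hx k i2' : ℕ) = (10 - i - 1) % 10 := by
      interval_cases i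
      · exact ⟨4, 0, 0, 2, 0, 1, by decide⟩
      · exact ⟨5, 0, 1, 2, 1, 2, by decide⟩
      · exact ⟨6, 1, 1, 2, 1, 2, by decide⟩
      · exact ⟨7, 2, 1, 2, 1, 2, by decide⟩
      · exact ⟨7, 3, 2, 0, 1, 2, by decide⟩
      · exact ⟨3, 7, 2, 1, 0, 2, by decide⟩
      · exact ⟨2, 7, 2, 1, 2, 1, by decide⟩
      · exact ⟨1, 6, 2, 1, 2, 1, by decide⟩
      · exact ⟨0, 5, 2, 1, 2, 1, by decide⟩
      · exact ⟨0, 4, 1, 0, 2, 0, by decide⟩
    obtain ⟨j, k, i1, i2, i1', i2', k1, k2, k3, k4, k5, k6⟩ := key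
    refine ⟨j, k, i1, i2, i1', i2', t, ht, k1, k2, ?_, ?_⟩
    · rw [hV_hb, hV_hb, k3, k4, hb_mod]
    · rw [hV_hb, hV_hb, k5, k6, hb_mod, hb_mod]

end Pool.Agent.Lib.FOLD
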