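import Pool.Agent.Lib.FOLD.HD
import Pool.Agent.Lib.FOLD.ExF
import Pool.Agent.Lib.FOLD.ExR
import Pool.Agent.Lib.P670edc.Triangle

/-!
# FOLD.HP: the hexagon and its triangulation (1.3 h)
PROOF. Direct, as in FOLD.ExF and FOLD.ExR (look at these files for the technique). `hT_eq`: barycentric coordinates. `hV_over`: by cases on the pair `(j, k)`: the inequalities of the two triangles force `p` to be on the common edge, at the common vertex, or are contradictory; the common vertices have equal labels. `hC_vol`: the square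
minus two triangles, or the sum of the areas of the eight triangles (`volume_triangle` in Pool.Agent.Lib.P670edc.Triangle): `26/9`.
-/

set_option autoImplicit false

open MeasureTheory Set Filter Topology Metric
open scoped MeasureTheory ENNReal

namespace Pool.Agent.Lib.FOLD

/-- barycentric coordinates -/
noncomputable def HPAux.bar : Fin 8 → Fin 3 → E2 → ℝ :=
  ![![fun p => (1) * p 0 + (0) * p 1 + (0), fun p => (-1) * p 0 + (3 / 2) * p 1 + (-1 / 2), fun p => (0) * p 0 + (-3 / 2) * p 1 + (3 / 2)],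
    ![fun p => (3 / 5) * p 0 + (3 / 5) * p 1 + (-1 / 5), fun p => (-9 / 5) * p 0 + (6 / 5) * p 1 + (3 / 5), fun p => (6 / 5) * p 0 + (-9 / 5) * p 1 + (3 / 5)],
    ![fun p => (0) * p 0 + (1) * p 1 + (0), fun p => (-3 / 2) * p 0 + (0) * p 1 + (3 / 2), fun p => (3 / 2) * p 0 + (-1) * p 1 + (-1 / 2)],
    ![fun p => (0) * p 0 + (1) * p 1 + (0), fun p => (-1) * p 0 + (-1) * p 1 + (2), fun p => (1) * p 0 + (0) * p 1 + (-1)],
    ![fun p => (-1) * p 0 + (0) * p 1 + (2), fun p => (0) * p 0 + (-1) * p 1 + (1), fun p => (1) * p 0 + (1) * p 1 + (-2)],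
    ![fun p => (0) * p 0 + (-1) * p 1 + (1), fun p => (-3 / 2) * p 0 + (1) * p 1 + (3), fun p => (3 / 2) * p 0 + (0) * p 1 + (-3)],
    ![fun p => (-3 / 5) * p 0 + (-3 / 5) * p 1 + (11 / 5), fun p => (-6 / 5) * p 0 + (9 / 5) * p 1 + (12 / 5), fun p => (9 / 5) * p 0 + (-6 / 5) * p 1 + (-18 / 5)],
    ![fun p => (-1) * p 0 + (0) * p 1 + (3), fun p => (0) * p 0 + (3 / 2) * p 1 + (0), fun p => (1) * p 0 + (-3 / 2) * p 1 + (-2)]]

/-- numbers of the vertices -/
def HPAux.vid : Fin 8 → Fin 3 → Fin 10 :=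
  ![![0, 1, 2], ![0, 2, 3], ![0, 3, 4], ![0, 4, 5], ![0, 5, 6], ![5, 6, 7], ![5, 7, 8], ![5, 8, 9]]

/-- the ten points -/
noncomputable def HPAux.pt : Fin 10 → E2 :=
  ![!₂[1, 1], !₂[0, 1], !₂[0, 1 / 3], !₂[1 / 3, 0], !₂[1, 0], !₂[2, 0], !₂[2, 1], !₂[8 / 3, 1], !₂[3, 2 / 3], !₂[3, 0]]

namespace HPAux

theorem e2ext {p q : E2} (h0 : p 0 = q 0) (h1 : p 1 = q 1) : p = q := by
  ext i
  fin_cases i
  · exact h0
  · exact h1

theorem bar_sum (k : Fin 8) (p : E2) : bar k 0 p + bar k 1 p + bar k 2 p = 1 := by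
  fin_cases k <;> simp [bar] <;> ring

theorem bar_fst (k : Fin 8) (p : E2) :
    bar k 0 p * hV k 0 0 + bar k 1 p * hV k 1 0 + bar k 2 p * hV k 2 0 = p 0 := by
  fin_cases k <;> simp [bar, hV] <;> ring

theorem bar_snd (k : Fin 8) (p : E2) :
    bar k 0 p * hV k 0 1 + bar k 1 p * hV k 1 1 + bar k 2 p * hV k 2 1 = p 1 := by
  fin_cases k <;> simp [bar, hV] <;> ring

theorem bar_pos (k : Fin 8) (i : Fin 3) {p : E2} (hp : p ∈ hT k) : 0 ≤ bar k i p := by
  fin_cases k <;> obtain ⟨h1, h2, h3⟩ := hp <;> fin_cases i <;> simp [bar] <;> linarith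

theorem hV_mem (k : Fin 8) (i : Fin 3) : hV k i ∈ hT k := by
  fin_cases k <;> fin_cases i <;> refine ⟨?_, ?_, ?_⟩ <;> simp [hV] <;> norm_num

theorem hT_convex (k : Fin 8) : Convex ℝ (hT k) := by
  fin_cases k
  all_goals
    intro p hp q hq a b ha hb hab
    obtain ⟨h1, h2, h3⟩ := hp
    obtain ⟨g1, g2, g3⟩ := hq
    refine ⟨?_, ?_, ?_⟩ <;> simp only [PiLp.add_apply, PiLp.smul_apply, smul_eq_mul] <;>
    nlinarith [mul_nonneg ha (sub_nonneg.2 h1), mul_nonneg hb (sub_nonneg.2 g1), mul_nonneg ha (sub_nonneg.2 h2),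
      mul_nonneg hb (sub_nonneg.2 g2), mul_nonneg ha (sub_nonneg.2 h3), mul_nonneg hb (sub_nonneg.2 g3)]

theorem hV_pt (k : Fin 8) (i : Fin 3) : hV k i = pt (vid k i) := by
  fin_cases k <;> fin_cases i <;> rfl

theorem com (j k : Fin 8) (i : Fin 3) :
    (∃ i', vid k i' = vid j i ∧ hlab j i = hlab k i') ∨
      ∀ p, p ∈ hT j → p ∈ hT k → bar j i p ≤ 0 := by
  fin_cases j <;> fin_cases k <;> fin_cases i <;> first
    | (left; decide)
    | (right
       intro p hj hk
       obtain ⟨h1, h2, h3⟩ := hj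
       obtain ⟨g1, g2, g3⟩ := hk
       simp [bar]
       linarith)

theorem vol_tri (V : Fin 3 → E2) : volume (tri V) =
    ENNReal.ofReal (|(V 1 0 - V 0 0) * (V 2 1 - V 0 1) - (V 2 0 - V 0 0) * (V 1 1 - V 0 1)| / 2) := by
  have h : range V = ({V 0, V 1, V 2} : Set E2) := by
    ext p
    simp only [mem_range, mem_insert_iff, mem_singleton_iff, Fin.exists_fin_succ, Fin.exists_fin_zero]
    simp [eq_comm]
  rw [tri, h, P670edc.volume_triangle, ← P670edc.det_sq, Real.sqrt_sq_eq_abs]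
  simp

theorem null_inter {A B : Set E2} (hA : Convex ℝ A) (hB : Convex ℝ B)
    (h : Disjoint (interior A) (interior B)) : volume (A ∩ B) = 0 := by
  have h1 : A ∩ B ⊆ frontier A ∪ frontier B := by
    rintro p ⟨ha, hb⟩
    by_contra h2
    rw [mem_union, not_or] at h2
    obtain ⟨h3, h4⟩ := h2
    have h5 : p ∈ interior A := by
      by_contra h6
      exact h3 ⟨subset_closure ha, h6⟩
    have h6 : p ∈ interior B := by
      by_contra h7
      exact h4 ⟨subset_closure hb, h7⟩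
    exact (Set.disjoint_left.1 h) h5 h6
  refine measure_mono_null h1 ?_
  rw [measure_union_null_iff]
  exact ⟨hA.addHaar_frontier volume, hB.addHaar_frontier volume⟩

theorem cont_coord (i : Fin 2) : Continuous fun p : E2 => p i :=
  (EuclideanSpace.proj i : E2 →L[ℝ] ℝ).continuous

theorem sum_cvx {ι : Type*} [Fintype ι] (c : ι → ℝ) (hc : ∀ i, 0 ≤ c i) (hs : ∑ i, c i = 1)
    (v : ι → E2) (S : Set E2) (h : ∀ i, c i ≠ 0 → v i ∈ S) :
    ∑ i, c i • v i ∈ convexHull ℝ S := by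
  classical
  have h1 : ∑ i, c i • v i = ∑ i ∈ Finset.univ.filter (fun i => c i ≠ 0), c i • v i := by
    rw [Finset.sum_filter]
    refine Finset.sum_congr rfl fun i _ => ?_
    split_ifs with h2
    · rfl
    · rw [not_not] at h2
      rw [h2, zero_smul]
  have h2 : ∑ i ∈ Finset.univ.filter (fun i => c i ≠ 0), c i = 1 := by
    rw [Finset.sum_filter_ne_zero]
    exact hs
  rw [h1]
  refine (convex_convexHull ℝ S).sum_mem (fun i _ => hc i) h2 fun i hi => ?_
  exact subset_convexHull ℝ S (h i (Finset.mem_filter.1 hi).2)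

end HPAux

open HPAux

theorem hC_region : Region hC := by
  have h1 : hC = rC ∩ ({p | 1 / 3 ≤ p 0 + p 1} ∩ {p | p 0 + p 1 ≤ 11 / 3}) := by
    ext p
    constructor
    · rintro ⟨h1, h2, h3, h4, h5, h6⟩
      exact ⟨⟨h1, h2, h3, h4⟩, h5, h6⟩
    · rintro ⟨⟨h1, h2, h3, h4⟩, h5, h6⟩
      exact ⟨h1, h2, h3, h4, h5, h6⟩
  refine ⟨?_, ?_, ?_⟩
  · rw [h1]
    exact rC_region.cpt.inter_right
      ((isClosed_le continuous_const ((cont_coord 0).add (cont_coord 1))).inter
        (isClosed_le ((cont_coord 0).add (cont_coord 1)) continuous_const))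
  · intro p hp q hq a b ha hb hab
    obtain ⟨h1, h2, h3, h4, h5, h6⟩ := hp
    obtain ⟨g1, g2, g3, g4, g5, g6⟩ := hq
    refine ⟨?_, ?_, ?_, ?_, ?_, ?_⟩ <;> simp only [PiLp.add_apply, PiLp.smul_apply, smul_eq_mul] <;>
    nlinarith [mul_nonneg ha (sub_nonneg.2 h1), mul_nonneg hb (sub_nonneg.2 g1), mul_nonneg ha (sub_nonneg.2 h2),
      mul_nonneg hb (sub_nonneg.2 g2), mul_nonneg ha (sub_nonneg.2 h3), mul_nonneg hb (sub_nonneg.2 g3),
      mul_nonneg ha (sub_nonneg.2 h4), mul_nonneg hb (sub_nonneg.2 g4), mul_nonneg ha (sub_nonneg.2 h5),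
      mul_nonneg hb (sub_nonneg.2 g5), mul_nonneg ha (sub_nonneg.2 h6), mul_nonneg hb (sub_nonneg.2 g6)]
  · refine ⟨!₂[1, 1 / 2], ?_⟩
    rw [mem_interior]
    refine ⟨{p | 0 < p 0 ∧ p 0 < 3 ∧ 0 < p 1 ∧ p 1 < 1 ∧ 1 / 3 < p 0 + p 1 ∧ p 0 + p 1 < 11 / 3}, ?_, ?_, ?_⟩
    · rintro p ⟨h1, h2, h3, h4, h5, h6⟩
      exact ⟨h1.le, h2.le, h3.le, h4.le, h5.le, h6.le⟩
    · have c0 := cont_coord 0
      have c1 := cont_coord 1
      exact (isOpen_lt continuous_const c0).inter ((isOpen_lt c0 continuous_const).inter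
        ((isOpen_lt continuous_const c1).inter ((isOpen_lt c1 continuous_const).inter
          ((isOpen_lt continuous_const (c0.add c1)).inter (isOpen_lt (c0.add c1) continuous_const)))))
    · refine ⟨?_, ?_, ?_, ?_, ?_, ?_⟩ <;> simp <;> norm_num

theorem hT_eq (k : Fin 8) : tri (hV k) = hT k := by
  refine ExFAux.tri_eq (hV_mem k 0) (hV_mem k 1) (hV_mem k 2) (hT_convex k) fun p hp => ?_
  exact ⟨bar k 0 p, bar k 1 p, bar k 2 p, bar_pos k 0 hp, bar_pos k 1 hp, bar_pos k 2 hp,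
    bar_sum k p, bar_fst k p, bar_snd k p⟩

theorem hT_cover : (⋃ k, tri (hV k)) = hC := by
  apply Subset.antisymm
  · intro p hp
    obtain ⟨k, hk⟩ := mem_iUnion.1 hp
    rw [hT_eq] at hk
    fin_cases k <;> obtain ⟨h1, h2, h3⟩ := hk <;> refine ⟨?_, ?_, ?_, ?_, ?_, ?_⟩ <;> linarith
  · rintro p ⟨h1, h2, h3, h4, h5, h6⟩
    rw [mem_iUnion]
    simp only [hT_eq]
    rcases le_total (p 0 + p 1) 2 with h | h
    · rcases le_total (p 0) 1 with g | g
      · rcases le_total (1 / 3 + 2 / 3 * p 0) (p 1) with e | e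
        · exact ⟨0, h1, h4, e⟩
        · rcases le_total (1 / 3 + 2 / 3 * p 1) (p 0) with f | f
          · exact ⟨2, h3, g, f⟩
          · exact ⟨1, e, h5, f⟩
      · exact ⟨3, g, h3, h⟩
    · rcases le_total (p 0) 2 with g | g
      · exact ⟨4, g, h4, h⟩
      · rcases le_total (p 0) (2 + 2 / 3 * p 1) with e | e
        · exact ⟨5, g, h4, e⟩
        · rcases le_total (p 1) (2 / 3 * (p 0 - 2)) with f | f
          · exact ⟨7, f, h2, h3⟩
          · exact ⟨6, e, h6, f⟩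

theorem hV_indep (k : Fin 8) : AffineIndependent ℝ (hV k) := by
  rw [affineIndependent_iff_of_fintype]
  intro w hw h
  rw [Finset.weightedVSub_eq_linear_combination _ hw] at h
  have h0 : (∑ i, w i • hV k i : E2) 0 = 0 := by
    rw [h]
    rfl
  have h1 : (∑ i, w i • hV k i : E2) 1 = 0 := by
    rw [h]
    rfl
  rw [Fin.sum_univ_three] at hw h0 h1
  simp only [PiLp.add_apply, PiLp.smul_apply, smul_eq_mul] at h0 h1
  have h2 : w 0 = 0 ∧ w 1 = 0 ∧ w 2 = 0 := by
    fin_cases k <;> simp [hV] at h0 h1 <;> refine ⟨?_, ?_, ?_⟩ <;> linarith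
  intro i
  fin_cases i
  · exact h2.1
  · exact h2.2.1
  · exact h2.2.2

theorem HPAux.disj_lt (j k : Fin 8) (h : j < k) : Disjoint (interior (hT j)) (interior (hT k)) := by
  fin_cases j <;> fin_cases k <;> first
    | exact absurd h (by decide)
    | exact ExFAux.disj_of_sep _ _ 1 1 2 (by norm_num) (fun p hp => by obtain ⟨h1, h2, h3⟩ := hp; linarith)
        (fun p hp => by obtain ⟨h1, h2, h3⟩ := hp; linarith)
    | exact ExFAux.disj_of_sep _ _ 1 0 1 (by norm_num) (fun p hp => by obtain ⟨h1, h2, h3⟩ := hp; linarith)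
        (fun p hp => by obtain ⟨h1, h2, h3⟩ := hp; linarith)
    | exact ExFAux.disj_of_sep _ _ 1 0 2 (by norm_num) (fun p hp => by obtain ⟨h1, h2, h3⟩ := hp; linarith)
        (fun p hp => by obtain ⟨h1, h2, h3⟩ := hp; linarith)
    | exact ExFAux.disj_of_sep _ _ (2 / 3) (-1) (-1 / 3) (by norm_num) (fun p hp => by obtain ⟨h1, h2, h3⟩ := hp; linarith)
        (fun p hp => by obtain ⟨h1, h2, h3⟩ := hp; linarith)
    | exact ExFAux.disj_of_sep _ _ 1 (-2 / 3) (1 / 3) (by norm_num) (fun p hp => by obtain ⟨h1, h2, h3⟩ := hp; linarith)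
        (fun p hp => by obtain ⟨h1, h2, h3⟩ := hp; linarith)
    | exact ExFAux.disj_of_sep _ _ 1 (-2 / 3) 2 (by norm_num) (fun p hp => by obtain ⟨h1, h2, h3⟩ := hp; linarith)
        (fun p hp => by obtain ⟨h1, h2, h3⟩ := hp; linarith)
    | exact ExFAux.disj_of_sep _ _ (2 / 3) (-1) (4 / 3) (by norm_num) (fun p hp => by obtain ⟨h1, h2, h3⟩ := hp; linarith)
        (fun p hp => by obtain ⟨h1, h2, h3⟩ := hp; linarith)

theorem hT_disj (j k : Fin 8) (h : j ≠ k) : Disjoint (interior (tri (hV j))) (interior (tri (hV k))) := by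
  rw [hT_eq, hT_eq]
  rcases lt_or_gt_of_ne h with h | h
  · exact HPAux.disj_lt j k h
  · exact (HPAux.disj_lt k j h).symm

theorem hC_vol : volume hC = ENNReal.ofReal (26 / 9) := by
  rw [← hT_cover, measure_iUnion₀]
  · rw [tsum_fintype]
    simp only [vol_tri]
    rw [← ENNReal.ofReal_sum_of_nonneg (fun i _ => by positivity)]
    congr 1
    simp only [Fin.sum_univ_eight]
    simp [hV]
    norm_num [abs_of_nonneg, abs_of_neg, abs_of_pos]
  · intro j k h
    exact null_inter (convex_convexHull ℝ _) (convex_convexHull ℝ _) (hT_disj j k h)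
  · intro k
    exact ((finite_range (hV k)).isCompact_convexHull ℝ).isClosed.measurableSet.nullMeasurableSet

theorem hV_over (j k : Fin 8) (p : E2) (hj : p ∈ tri (hV j)) (hk : p ∈ tri (hV k)) :
    p ∈ convexHull ℝ {q | ∃ i i', hV j i = q ∧ hV k i' = q ∧ hlab j i = hlab k i'} := by
  rw [hT_eq] at hj hk
  have h1 : ∑ i, bar j i p • hV j i = p := by
    rw [Fin.sum_univ_three]
    apply e2ext
    · simpa using bar_fst j p
    · simpa using bar_snd j p
  have h2 := sum_cvx (fun i => bar j i p) (fun i => bar_pos j i hj)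
    (by rw [Fin.sum_univ_three]; exact bar_sum j p) (hV j)
    {q | ∃ i i', hV j i = q ∧ hV k i' = q ∧ hlab j i = hlab k i'} (fun i hi => by
      rcases com j k i with ⟨i', h3, h4⟩ | h3
      · exact ⟨i, i', rfl, by rw [hV_pt, hV_pt, h3], h4⟩
      · exact absurd (le_antisymm (h3 p hj hk) (bar_pos j i hj)) hi)
  rw [h1] at h2
  exact h2

end Pool.Agent.Lib.FOLD
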