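import Pool.Agent.Lib.FOLD.HD
import Pool.Agent.Lib.FOLD.TeV

/-!
# FOLD.HQ: the polyhedron of the hexagon (1.3 h)
PROOF. `hcc² + hss² = 1`, `4 hcc + hss = 3`, `hcc - 4 hss = -2√2`, `hcc, hss > 0`. `h_iso`: squared distances: `x-y: 2`, `x-A, x-D, y-A, y-D: 1`, `x-B, y-B: 13/9`, `A-B1, B2-D: 4/9`, `B1-B2: 2/9` on both sides. `h_n`, `h_sup`, `h_eq`: explicit numbers. `h_Q`: let `z` satisfy the eight inequalities, `X = z 0`, `Y = z 1`, `Z = z 2`. The inequalities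
`3, 4` give `hss X ≥ hcc |Y|`, so `X ≥ 0`. The half line of azimuth of `(X, Y)` is in one of the three sectors `A B1`, `B1 B2`, `B2 D` (separated by the planes through the `z`-axis and `B1`: `Y = -X/4`, and `B2`: `Y = X/4`). In the sector `B1 B2` (`|Y| ≤ X/4`) the inequalities `1`, `6` say `3√2/4 X + √2|Z| ≤ 1` and `z` is a convex combination of `x, y, B1, B2`; in the sector
`B2 D` (`Y ≥ X/4`) use the inequalities `2, 7`: `√2(hcc X + hss Y) + √2|Z| ≤ 1` and `z` is a combination of `x, y, B2, D` (coefficients: solve `(X,Y) = β B2 + δ D`, `β, δ ≥ 0`, `β + δ = √2(hcc X + hss Y)`, and the rest `1 - β - δ ≥ √2|Z|` is distributed to `x`, `y`). `h_int`: e.g. the average of the vertices. `h_vol`: contains the three tetrahedra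
`x y A B1`, `x y B1 B2`, `x y B2 D` (`vol_tet`) with pairwise null intersections: total `(6 + 2√2)/27`.
-/

set_option autoImplicit false

open MeasureTheory Set Filter Topology Metric
open scoped MeasureTheory ENNReal

namespace Pool.Agent.Lib.FOLD

namespace HQAux

lemma r0 : 0 < √2 := by positivity

lemma r2 : √2 * √2 = 2 := Real.mul_self_sqrt (by norm_num)

lemma r2' : √2 ^ 2 = 2 := Real.sq_sqrt (by norm_num)

lemma rlt : √2 < 3 / 2 := by
  rw [Real.sqrt_lt' (by norm_num)]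
  norm_num

lemma c4 : 4 * hcc + hss = 3 := by unfold hcc hss; ring

lemma c2 : hcc - 4 * hss = -(2 * √2) := by unfold hcc hss; ring

lemma c1 : hcc ^ 2 + hss ^ 2 = 1 := by
  unfold hcc hss
  linear_combination (68 / 289) * r2'

lemma k1 : √2 * hcc = 4 - 6 * hcc := by
  unfold hcc
  linear_combination (-2 / 17) * r2'

lemma k2 : √2 * hss = 2 - 3 / 2 * hcc := by
  unfold hcc hss
  linear_combination (8 / 17) * r2'

lemma hc0 : 0 < hcc := by
  unfold hcc
  have := rlt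
  linarith

lemma hs0 : 0 < hss := by
  unfold hss
  have := r0
  positivity

lemma inn (a b : E3) : inner ℝ a b = a 0 * b 0 + a 1 * b 1 + a 2 * b 2 := by
  simp [PiLp.inner_apply, Fin.sum_univ_three]
  ring

/-- the inner products -/
noncomputable def val : Fin 8 → Fin 6 → ℝ :=
  ![![1, -1, 1, 1, 4 / 3 * hcc - hss / 3, hcc ^ 2 - hss ^ 2],
    ![1, -1, 3 / 4 * hcc, 1, 1, 3 / 4 * hcc],
    ![1, -1, hcc ^ 2 - hss ^ 2, 4 / 3 * hcc - hss / 3, 1, 1],
    ![0, 0, -(√2 * hcc * hss), -(2 * √2 / 3 * hss + √2 / 6 * hcc), -(2 / 3), 0],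
    ![0, 0, 0, -(2 / 3), -(2 * √2 / 3 * hss + √2 / 6 * hcc), -(√2 * hcc * hss)],
    ![-1, 1, 1, 1, 4 / 3 * hcc - hss / 3, hcc ^ 2 - hss ^ 2],
    ![-1, 1, 3 / 4 * hcc, 1, 1, 3 / 4 * hcc],
    ![-1, 1, hcc ^ 2 - hss ^ 2, 4 / 3 * hcc - hss / 3, 1, 1]]

lemma val_eq (k : Fin 8) (m : Fin 6) : inner ℝ (hn k) (hw m) = val k m := by
  have h1 := r2'
  have h2 := c1
  have h3 := c2
  have h4 := c4
  rw [inn]
  fin_cases k <;> fin_cases m <;> simp [hn, hw, val]
  all_goals first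
    | linear_combination (1 / 2) * h1
    | linear_combination (-1 / 2) * h1
    | linear_combination (hcc ^ 2 / 2 + hss ^ 2 / 2) * h1 + h2
    | linear_combination (2 / 3 * hcc + hss / 6) * h1 + (1 / 3) * h4
    | linear_combination (2 / 3 * hcc - hss / 6) * h1
    | linear_combination (hcc ^ 2 / 2 - hss ^ 2 / 2) * h1
    | linear_combination (3 / 8 * hcc) * h1
    | ring1
    | linear_combination (√2 / 6) * h3 + (-1 / 3) * h1

lemma dich (k : Fin 8) (m : Fin 6) : (∃ i, hlab k i = m) ∨ val k m < hh k := by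
  have r := r0
  have hc := hc0
  have hs := hs0
  have h1 := c1
  have h2 := c2
  have h4 := c4
  have p1 : 4 / 3 * hcc - hss / 3 < 1 := by linarith
  have p2 : hcc ^ 2 - hss ^ 2 < 1 := by nlinarith
  have p3 : 3 / 4 * hcc < 1 := by linarith
  have p4 : -(√2 * hcc * hss) < 0 := by
    have : 0 < √2 * hcc * hss := by positivity
    linarith
  have p5 : -(2 * √2 / 3 * hss + √2 / 6 * hcc) < 0 := by
    have : 0 < 2 * √2 / 3 * hss + √2 / 6 * hcc := by positivity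
    linarith
  have p6 : (-1 : ℝ) < 1 := by norm_num
  have p7 : -(2 / 3 : ℝ) < 0 := by norm_num
  fin_cases k <;> fin_cases m
  all_goals first
    | exact Or.inl (by decide)
    | exact Or.inr p1
    | exact Or.inr p2
    | exact Or.inr p3
    | exact Or.inr p4
    | exact Or.inr p5
    | exact Or.inr p6
    | exact Or.inr p7

lemma hull_mem (z : E3) (w : Fin 6 → ℝ) (h0 : ∀ i, 0 ≤ w i) (h1 : ∑ i, w i = 1)
    (h2 : ∑ i, w i • hw i = z) : z ∈ convexHull ℝ (range hw) :=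
  mem_convexHull_of_exists_fintype w hw h0 h1 (fun i => ⟨i, rfl⟩) h2

lemma sec1 (z : E3) (h1 : hss * z 0 + hcc * z 1 ≥ 0) (h2 : z 1 ≤ -(z 0 / 4))
    (h3 : √2 * hcc * z 0 - √2 * hss * z 1 + √2 * z 2 ≤ 1) (h4 : √2 * hcc * z 0 - √2 * hss * z 1 - √2 * z 2 ≤ 1) :
    z ∈ convexHull ℝ (range hw) := by
  have r := r0
  have hc := hc0
  have hs := hs0
  have e1 := c1
  have e2 := c2
  have e3 := r2'
  have e4 := c4
  have e5 := k1
  have e6 := k2
  set s := √2 * hcc * z 0 - √2 * hss * z 1 with hs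
  refine hull_mem z ![(1 - s + √2 * z 2) / 2, (1 - s - √2 * z 2) / 2, (-4 * z 1 - z 0) / 2,
    3 / 2 * (hss * z 0 + hcc * z 1), 0, 0] ?_ ?_ ?_
  · intro i
    fin_cases i <;> simp <;> linarith
  · simp [Fin.sum_univ_six]
    rw [hs]
    linear_combination (-z 0) * e5 + (z 1) * e6 + (3 / 2 * z 0) * e4
  · simp only [Fin.sum_univ_six]
    ext j
    fin_cases j
    · simp [hw]
      linear_combination (-√2 / 4 * z 0) * e2 + (1 / 2 * z 0) * e3
    · simp [hw]
      linear_combination (-√2 / 4 * z 1) * e2 + (1 / 2 * z 1) * e3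
    · simp [hw]
      linear_combination (1 / 2 * z 2) * e3

lemma sec3 (z : E3) (h1 : hss * z 0 - hcc * z 1 ≥ 0) (h2 : z 0 / 4 ≤ z 1)
    (h3 : √2 * hcc * z 0 + √2 * hss * z 1 + √2 * z 2 ≤ 1) (h4 : √2 * hcc * z 0 + √2 * hss * z 1 - √2 * z 2 ≤ 1) :
    z ∈ convexHull ℝ (range hw) := by
  have r := r0
  have hc := hc0
  have hs := hs0
  have e1 := c1
  have e2 := c2
  have e3 := r2'
  have e4 := c4
  have e5 := k1
  have e6 := k2
  set s := √2 * hcc * z 0 + √2 * hss * z 1 with hs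
  refine hull_mem z ![(1 - s + √2 * z 2) / 2, (1 - s - √2 * z 2) / 2, 0, 0,
    3 / 2 * (hss * z 0 - hcc * z 1), (4 * z 1 - z 0) / 2] ?_ ?_ ?_
  · intro i
    fin_cases i <;> simp <;> linarith
  · simp [Fin.sum_univ_six]
    rw [hs]
    linear_combination (-z 0) * e5 + (-z 1) * e6 + (3 / 2 * z 0) * e4
  · simp only [Fin.sum_univ_six]
    ext j
    fin_cases j
    · simp [hw]
      linear_combination (-√2 / 4 * z 0) * e2 + (1 / 2 * z 0) * e3
    · simp [hw]
      linear_combination (-√2 / 4 * z 1) * e2 + (1 / 2 * z 1) * e3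
    · simp [hw]
      linear_combination (1 / 2 * z 2) * e3

lemma sec2 (z : E3) (h1 : -(z 0 / 4) ≤ z 1) (h2 : z 1 ≤ z 0 / 4)
    (h3 : 3 * √2 / 4 * z 0 + √2 * z 2 ≤ 1) (h4 : 3 * √2 / 4 * z 0 - √2 * z 2 ≤ 1) :
    z ∈ convexHull ℝ (range hw) := by
  have r := r0
  have e3 := r2'
  refine hull_mem z ![(1 - 3 * √2 / 4 * z 0 + √2 * z 2) / 2, (1 - 3 * √2 / 4 * z 0 - √2 * z 2) / 2, 0,
    3 * √2 / 8 * (z 0 - 4 * z 1), 3 * √2 / 8 * (z 0 + 4 * z 1), 0] ?_ ?_ ?_
  · have q1 : 0 ≤ √2 * (z 0 - 4 * z 1) := mul_nonneg r.le (by linarith)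
    have q2 : 0 ≤ √2 * (z 0 + 4 * z 1) := mul_nonneg r.le (by linarith)
    intro i
    fin_cases i <;> simp <;> linarith
  · simp [Fin.sum_univ_six]
    ring
  · simp only [Fin.sum_univ_six]
    ext j
    fin_cases j
    · simp [hw]
      linear_combination (1 / 2 * z 0) * e3
    · simp [hw]
      linear_combination (1 / 2 * z 1) * e3
    · simp [hw]
      linear_combination (1 / 2 * z 2) * e3

lemma null (c : ℝ) : volume {z : E3 | z 1 + c * z 0 = 0} = 0 := by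
  let f : E3 →ₗ[ℝ] ℝ := (EuclideanSpace.proj 1 + c • EuclideanSpace.proj 0 : E3 →L[ℝ] ℝ).toLinearMap
  have h1 : {z : E3 | z 1 + c * z 0 = 0} = (LinearMap.ker f : Set E3) := by
    ext z
    simp [f]
  rw [h1]
  apply Measure.addHaar_submodule
  intro h2
  have h3 : EuclideanSpace.single (1 : Fin 3) (1 : ℝ) ∈ LinearMap.ker f := by
    rw [h2]; trivial
  simp [f] at h3

/-- half space -/
def hsp (a b : ℝ) : Set E3 := {z | 0 ≤ a * z 1 + b * z 0}

lemma hsp_cvx (a b : ℝ) : Convex ℝ (hsp a b) := by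
  rintro x hx y hy s t hs ht hst
  simp only [hsp, mem_ofPred_eq, PiLp.add_apply, PiLp.smul_apply, smul_eq_mul] at hx hy ⊢
  nlinarith [mul_nonneg hs hx, mul_nonneg ht hy]

/-- tetrahedra -/
noncomputable def T (i j : Fin 6) : Set E3 := convexHull ℝ (range ![hw 0, hw 1, hw i, hw j])

lemma T_sub (i j : Fin 6) : T i j ⊆ convexHull ℝ (range hw) := by
  apply convexHull_mono
  rintro _ ⟨k, rfl⟩
  fin_cases k <;> simp

lemma T_meas (i j : Fin 6) : MeasurableSet (T i j) :=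
  (Set.Finite.isCompact_convexHull ℝ (Set.finite_range _)).isClosed.measurableSet

lemma T_hsp (i j : Fin 6) (a b : ℝ) (h1 : 0 ≤ a * hw i 1 + b * hw i 0) (h2 : 0 ≤ a * hw j 1 + b * hw j 0) :
    T i j ⊆ hsp a b := by
  apply convexHull_min _ (hsp_cvx a b)
  rintro _ ⟨k, rfl⟩
  fin_cases k
  · simp [hsp, hw]
  · simp [hsp, hw]
  · exact h1
  · exact h2

lemma vol1 : volume (T 2 3) = ENNReal.ofReal (1 / 9) := by
  rw [T, vol_tet]
  congr 1
  have e2 := c2
  have e3 := r2'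
  have : det3 (![hw 0, hw 1, hw 2, hw 3] 1 - ![hw 0, hw 1, hw 2, hw 3] 0)
      (![hw 0, hw 1, hw 2, hw 3] 2 - ![hw 0, hw 1, hw 2, hw 3] 0)
      (![hw 0, hw 1, hw 2, hw 3] 3 - ![hw 0, hw 1, hw 2, hw 3] 0) = -(2 / 3) := by
    simp [det3, hw]
    linear_combination (√2 ^ 3 / 12) * e2 + (-(√2 ^ 2 + 2) / 6) * e3
  rw [this, abs_neg, abs_of_pos (by norm_num)]
  norm_num

lemma vol2 : volume (T 3 4) = ENNReal.ofReal (2 * √2 / 27) := by
  rw [T, vol_tet]
  congr 1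
  have r := r0
  have e2 := c2
  have e3 := r2'
  have : det3 (![hw 0, hw 1, hw 3, hw 4] 1 - ![hw 0, hw 1, hw 3, hw 4] 0)
      (![hw 0, hw 1, hw 3, hw 4] 2 - ![hw 0, hw 1, hw 3, hw 4] 0)
      (![hw 0, hw 1, hw 3, hw 4] 3 - ![hw 0, hw 1, hw 3, hw 4] 0) = -(4 * √2 / 9) := by
    simp [det3, hw]
    linear_combination (-2 * √2 / 9) * e3
  rw [this, abs_neg, abs_of_pos (by positivity)]
  ring

lemma vol3 : volume (T 4 5) = ENNReal.ofReal (1 / 9) := by
  rw [T, vol_tet]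
  congr 1
  have e2 := c2
  have e3 := r2'
  have : det3 (![hw 0, hw 1, hw 4, hw 5] 1 - ![hw 0, hw 1, hw 4, hw 5] 0)
      (![hw 0, hw 1, hw 4, hw 5] 2 - ![hw 0, hw 1, hw 4, hw 5] 0)
      (![hw 0, hw 1, hw 4, hw 5] 3 - ![hw 0, hw 1, hw 4, hw 5] 0) = -(2 / 3) := by
    simp [det3, hw]
    linear_combination (√2 ^ 3 / 12) * e2 + (-(√2 ^ 2 + 2) / 6) * e3
  rw [this, abs_neg, abs_of_pos (by norm_num)]
  norm_num

lemma aed (A B : Set E3) (b : ℝ) (hA : A ⊆ hsp (-1) (-b)) (hB : B ⊆ hsp 1 b) :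
    AEDisjoint volume A B := by
  apply measure_mono_null _ (null b)
  rintro z ⟨h1, h2⟩
  have h3 := hA h1
  have h4 := hB h2
  simp only [hsp, mem_ofPred_eq] at h3 h4 ⊢
  linarith

lemma sqd (a b : E2) : dist a b = √((a 0 - b 0) ^ 2 + (a 1 - b 1) ^ 2) := by
  rw [EuclideanSpace.dist_eq]
  simp [Real.dist_eq, Fin.sum_univ_two]

lemma sqd3 (a b : E3) : dist a b = √((a 0 - b 0) ^ 2 + (a 1 - b 1) ^ 2 + (a 2 - b 2) ^ 2) := by
  rw [EuclideanSpace.dist_eq]
  simp [Real.dist_eq, Fin.sum_univ_three]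

/-- squared distances -/
noncomputable def sq : Fin 6 → Fin 6 → ℝ :=
  ![![0, 2, 1, 13 / 9, 13 / 9, 1], ![2, 0, 1, 13 / 9, 13 / 9, 1], ![1, 1, 0, 4 / 9, 0, 0],
    ![13 / 9, 13 / 9, 4 / 9, 0, 2 / 9, 0], ![13 / 9, 13 / 9, 0, 2 / 9, 0, 4 / 9], ![1, 1, 0, 0, 4 / 9, 0]]

lemma isoV (k : Fin 8) (i j : Fin 3) :
    (hV k i 0 - hV k j 0) ^ 2 + (hV k i 1 - hV k j 1) ^ 2 = sq (hlab k i) (hlab k j) := by
  fin_cases k <;> fin_cases i <;> fin_cases j <;> simp [hV, hlab, sq] <;> norm_num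

lemma isoW (k : Fin 8) (i j : Fin 3) :
    (hw (hlab k i) 0 - hw (hlab k j) 0) ^ 2 + (hw (hlab k i) 1 - hw (hlab k j) 1) ^ 2 +
      (hw (hlab k i) 2 - hw (hlab k j) 2) ^ 2 = sq (hlab k i) (hlab k j) := by
  have h1 := r2'
  have h2 := c1
  have h3 := c2
  have h4 := c4
  have a1 : (√2 / 2 + √2 / 2) ^ 2 = 2 := by linear_combination h1
  have a2 : (√2 / 2 * hcc) ^ 2 + (√2 / 2 * hss) ^ 2 + (√2 / 2) ^ 2 = 1 := by
    linear_combination ((hcc ^ 2 + hss ^ 2 + 1) / 4) * h1 + (1 / 2) * h2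
  have a3 : (2 * √2 / 3) ^ 2 + (√2 / 6) ^ 2 + (√2 / 2) ^ 2 = 13 / 9 := by
    linear_combination (13 / 18) * h1
  have a4 : (√2 / 2 * hcc - 2 * √2 / 3) ^ 2 + (√2 / 2 * hss - √2 / 6) ^ 2 = 4 / 9 := by
    linear_combination (hcc ^ 2 / 4 - 2 / 3 * hcc + 4 / 9 + hss ^ 2 / 4 - hss / 6 + 1 / 36) * h1 +
      (1 / 2) * h2 + (-1 / 3) * h4
  have a5 : (√2 / 6 + √2 / 6) ^ 2 = 2 / 9 := by linear_combination (1 / 9) * h1
  fin_cases k <;> fin_cases i <;> fin_cases j
  all_goals simp [hw, hlab, sq]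
  all_goals first
    | linear_combination a1
    | linear_combination a2
    | linear_combination a3
    | linear_combination a4
    | linear_combination a5

end HQAux

open HQAux

theorem h_n0 (k : Fin 8) : hn k ≠ 0 := by
  intro h
  have h1 := congrArg (fun v : E3 => v 0) h
  have r := r0
  have hc := hc0
  have hs := hs0
  fin_cases k <;> simp [hn] at h1 <;> linarith

theorem h_n (k : Fin 8) (i : Fin 3) : inner ℝ (hn k) (hw (hlab k i)) = hh k := by
  rw [val_eq]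
  fin_cases k <;> fin_cases i <;> simp [hlab, val, hh]

theorem h_sup (k : Fin 8) (m : Fin 6) : inner ℝ (hn k) (hw m) ≤ hh k := by
  rcases dich k m with ⟨i, rfl⟩ | h
  · exact (h_n k i).le
  · rw [val_eq]
    exact h.le

theorem h_eq (k : Fin 8) (m : Fin 6) (h : inner ℝ (hn k) (hw m) = hh k) : ∃ i, hlab k i = m := by
  rcases dich k m with h' | h'
  · exact h'
  · rw [val_eq] at h
    exact absurd h h'.ne

theorem h_Q (z : E3) (h : ∀ k, inner ℝ (hn k) z ≤ hh k) : z ∈ convexHull ℝ (range hw) := by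
  have g0 := h 0
  have g1 := h 1
  have g2 := h 2
  have g3 := h 3
  have g4 := h 4
  have g5 := h 5
  have g6 := h 6
  have g7 := h 7
  rw [inn] at g0 g1 g2 g3 g4 g5 g6 g7
  simp [hn, hh] at g0 g1 g2 g3 g4 g5 g6 g7
  rcases le_total (z 1) (-(z 0 / 4)) with h1 | h1
  · exact sec1 z (by linarith) h1 (by linarith) (by linarith)
  rcases le_total (z 1) (z 0 / 4) with h2 | h2
  · exact sec2 z h1 h2 (by linarith) (by linarith)
  · exact sec3 z (by linarith) h2 (by linarith) (by linarith)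

theorem h_iso (k : Fin 8) (i j : Fin 3) : dist (hV k i) (hV k j) = dist (hw (hlab k i)) (hw (hlab k j)) := by
  rw [sqd, sqd3, isoV, isoW]

theorem h_vol : ENNReal.ofReal ((6 + 2 * √2) / 27) ≤ volume (convexHull ℝ (range hw)) := by
  have r := r0
  have hc := hc0
  have hs := hs0
  have e2 := c2
  have e4 := c4
  have q1 : 0 < √2 * hcc := by positivity
  have q2 : 0 < √2 * hss := by positivity
  have q3 : hcc ≤ 4 * hss := by linarith
  have q4 : √2 * hcc ≤ 4 * (√2 * hss) := by nlinarith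
  have m1 : T 2 3 ⊆ hsp (-1) (-(1 / 4)) := by
    apply T_hsp <;> simp [hw] <;> linarith
  have m2 : T 3 4 ⊆ hsp 1 (1 / 4) := by
    apply T_hsp <;> simp [hw] <;> linarith
  have m3 : T 4 5 ⊆ hsp 1 (1 / 4) := by
    apply T_hsp <;> simp [hw] <;> linarith
  have m4 : T 3 4 ⊆ hsp (-1) (-(-(1 / 4))) := by
    apply T_hsp <;> simp [hw] <;> linarith
  have m5 : T 4 5 ⊆ hsp 1 (-(1 / 4)) := by
    apply T_hsp <;> simp [hw] <;> linarith
  have d1 : AEDisjoint volume (T 3 4) (T 4 5) := aed _ _ _ m4 m5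
  have d2 : AEDisjoint volume (T 2 3) (T 3 4 ∪ T 4 5) := aed _ _ _ m1 (union_subset m2 m3)
  have h1 : T 2 3 ∪ (T 3 4 ∪ T 4 5) ⊆ convexHull ℝ (range hw) :=
    union_subset (T_sub _ _) (union_subset (T_sub _ _) (T_sub _ _))
  refine le_trans (le_of_eq ?_) (measure_mono h1)
  rw [measure_union₀ ((T_meas 3 4).union (T_meas 4 5)).nullMeasurableSet d2,
    measure_union₀ (T_meas 4 5).nullMeasurableSet d1, vol1, vol2, vol3,
    ← ENNReal.ofReal_add (by positivity) (by norm_num), ← ENNReal.ofReal_add (by norm_num) (by positivity)]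
  congr 1
  ring

theorem h_int : (interior (convexHull ℝ (range hw))).Nonempty := by
  by_contra h
  rw [Set.not_nonempty_iff_eq_empty] at h
  have h1 : volume (frontier (convexHull ℝ (range hw))) = 0 := (convex_convexHull ℝ _).addHaar_frontier _
  have h2 : convexHull ℝ (range hw) ⊆ frontier (convexHull ℝ (range hw)) := by
    intro z hz
    rw [frontier, h, sdiff_empty]
    exact subset_closure hz
  have h3 := h_vol.trans ((measure_mono h2).trans h1.le)
  have h4 : 0 < (6 + 2 * √2) / 27 := by positivity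
  exact absurd (ENNReal.ofReal_pos.2 h4) (not_lt.2 h3)

end Pool.Agent.Lib.FOLD
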