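import Pool.Agent.Lib.FOLD.GL3
import Pool.Agent.Lib.FOLD.HG
import Pool.Agent.Lib.FOLD.HQ
import Pool.Agent.Lib.FOLD.Sim

/-!
# FOLD.HZ: the folding of the hexagon (0.5 h)
PROOF. `poly_fold` with the data of HP, HQ, HG, then `plf_sim` with `t = 3/√26` (`t² · 26/9 = 1`): the volume is at least `t³ (6 + 2√2)/27 = (6 + 2√2)/(26√26) = (3 + √2)/(13√26)` (`vol_sim`).
-/

set_option autoImplicit false

open MeasureTheory Set Filter Topology Metric
open scoped MeasureTheory ENNReal

namespace Pool.Agent.Lib.FOLD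

theorem hex_fold : ∃ (C : Set E2) (L : ℝ) (γ : ℝ → E2) (Q : Set E3), PLFolding C L γ Q ∧
    volume C = 1 ∧ ENNReal.ofReal ((3 + √2) / (13 * √26)) ≤ volume Q := by
  obtain ⟨L, γ, h1, h2, h3, h4, h5⟩ := h_arc
  have hF : PLFolding hC L γ (convexHull ℝ (range hw)) :=
    poly_fold (n := hn) (h := hh) hC_region h1 h2 hV_indep hT_cover hT_disj h_iso hV_over h_n0 h_n
      h_sup h_eq h_Q h_int h_three h3 h4 h5
  have h26 : (0 : ℝ) < √26 := Real.sqrt_pos.2 (by norm_num)
  have h26' : √26 * √26 = (26 : ℝ) := Real.mul_self_sqrt (by norm_num)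
  have ht : (0 : ℝ) < 3 / √26 := by positivity
  refine ⟨_, _, _, _, plf_sim hF ht 0 0, ?_, ?_⟩
  · rw [vol_sim ht, hC_vol, ← ENNReal.ofReal_mul (by positivity), finrank_euclideanSpace_fin]
    rw [show (3 / √26) ^ 2 * (26 / 9) = (1 : ℝ) by
      field_simp
      nlinarith [h26']]
    exact ENNReal.ofReal_one
  · rw [vol_sim ht, finrank_euclideanSpace_fin]
    calc ENNReal.ofReal ((3 + √2) / (13 * √26))
        = ENNReal.ofReal ((3 / √26) ^ 3) * ENNReal.ofReal ((6 + 2 * √2) / 27) := by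
          rw [← ENNReal.ofReal_mul (by positivity)]
          congr 1
          have : √26 ^ 3 = 26 * √26 := by rw [pow_succ, pow_two, h26']
          rw [div_pow, this]
          field_simp
          ring
      _ ≤ _ := by gcongr; exact h_vol

end Pool.Agent.Lib.FOLD
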