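import Pool.Agent.Lib.FOLD.Defs

/-!
# FOLD.Inn: sandwich for convex bodies at small Hausdorff distance (1 h)
PROOF. `shrink`: let `k ∈ K`, `w = z0 + (1-ε)(k - z0)`, suppose `w ∉ K'`. Separate: there is a unit vector `g` with `⟪g, k'⟫ ≤ ⟪g, w⟫` for all `k' ∈ K'` (nearest point `π w` of `K'`, `g = (w - π w)/‖w - π w‖`, or `geometric_hahn_banach_point_compact`).
For `s < ε r` near `ε r` the point `w + s g = (1-ε) k + ε (z0 + (s/ε) g)` is in `K` (`ball z0 r ⊆ K`, convexity), and its distance from every `k' ∈ K'` is at least `⟪g, w + s g - k'⟫ ≥ s`. Choose `hausdorffDist K K' < s < ε r`: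
`exists_dist_lt_of_hausdorffDist_lt` gives `k' ∈ K'` with `dist < s`, contradiction. (`hausdorffEDist ≠ ⊤`: bounded nonempty sets.)
`grow`: let `k' ∈ K'`; there is `k ∈ K` with `dist k' k < ε r`; `k' = k + ε b`, `‖b‖ < r`, `k' - z0 = (1+ε)[(1/(1+ε))(k - z0) + (ε/(1+ε)) b]` and the bracket plus `z0` is the convex combination of `k` and `z0 + b ∈ K`.
-/

set_option autoImplicit false

open MeasureTheory Set Filter Topology Metric
open scoped MeasureTheory ENNReal

namespace Pool.Agent.Lib.FOLD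

variable {E : Type*} [NormedAddCommGroup E] [InnerProductSpace ℝ E] [FiniteDimensional ℝ E]

theorem shrink {K K' : Set E} (hK : IsCompact K) (hc : Convex ℝ K) (hK' : IsCompact K')
    (hc' : Convex ℝ K') (hn' : K'.Nonempty) {z0 : E} {r ε : ℝ} (hr : ball z0 r ⊆ K) (hr0 : 0 < r)
    (hε : 0 < ε) (hε1 : ε ≤ 1) (h : hausdorffDist K K' < ε * r) :
    (fun z => z0 + (1 - ε) • (z - z0)) '' K ⊆ K' := by
  have hz0 : z0 ∈ K := hr (mem_ball_self hr0)
  have hfin : hausdorffEDist K K' ≠ ⊤ :=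
    hausdorffEDist_ne_top_of_nonempty_of_bounded ⟨z0, hz0⟩ hn' hK.isBounded hK'.isBounded
  rintro w ⟨k, hk, rfl⟩
  by_contra hw
  set w := z0 + (1 - ε) • (k - z0) with hwdef
  obtain ⟨v, hv, hvn⟩ := exists_norm_eq_iInf_of_complete_convex hn' hK'.isComplete hc' w
  have h1 := (norm_eq_iInf_iff_real_inner_le_zero hc' hv).1 hvn
  have hwv : w - v ≠ 0 := by
    intro h0
    rw [sub_eq_zero] at h0
    exact hw (show w ∈ K' by rw [h0]; exact hv)
  have hn0 : 0 < ‖w - v‖ := norm_pos_iff.2 hwv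
  set g : E := ‖w - v‖⁻¹ • (w - v) with hg
  have hg1 : ‖g‖ = 1 := by
    rw [hg, norm_smul, norm_inv, norm_norm, inv_mul_cancel₀ (ne_of_gt hn0)]
  set s : ℝ := (hausdorffDist K K' + ε * r) / 2 with hs
  have hH : 0 ≤ hausdorffDist K K' := hausdorffDist_nonneg
  have hs1 : hausdorffDist K K' < s := by rw [hs]; linarith
  have hs2 : s < ε * r := by rw [hs]; linarith
  have hs0 : 0 < s := lt_of_le_of_lt hH hs1
  have hb : z0 + (s / ε) • g ∈ K := by
    apply hr
    rw [mem_ball, dist_eq_norm, add_sub_cancel_left, norm_smul, hg1, mul_one, Real.norm_eq_abs,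
      abs_of_pos (div_pos hs0 hε), div_lt_iff₀ hε]
    linarith
  have hy : w + s • g ∈ K := by
    have h2 := hc hk hb (a := 1 - ε) (b := ε) (by linarith) hε.le (by ring)
    have h3 : (1 - ε) • k + ε • (z0 + (s / ε) • g) = w + s • g := by
      rw [hwdef, smul_add, smul_smul, mul_div_cancel₀ _ (ne_of_gt hε), smul_sub, sub_smul, sub_smul,
        one_smul, one_smul]
      abel
    rw [h3] at h2
    exact h2
  obtain ⟨k', hk', hd⟩ := exists_dist_lt_of_hausdorffDist_lt hy hs1 hfin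
  have h4 : (inner ℝ g (w + s • g - k') : ℝ) < s := by
    calc (inner ℝ g (w + s • g - k') : ℝ) ≤ ‖g‖ * ‖w + s • g - k'‖ := real_inner_le_norm _ _
      _ = dist (w + s • g) k' := by rw [hg1, one_mul, dist_eq_norm]
      _ < s := hd
  have h5 : (inner ℝ g (w - k') : ℝ) ≥ 0 := by
    have h6 := h1 k' hk'
    have h7 : (inner ℝ (w - v) (w - k') : ℝ) = ‖w - v‖ ^ 2 - inner ℝ (w - v) (k' - v) := by
      rw [← real_inner_self_eq_norm_sq, ← inner_sub_right]
      congr 1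
      abel
    rw [hg, real_inner_smul_left, h7]
    have h8 : 0 < ‖w - v‖⁻¹ := inv_pos.2 hn0
    have h9 : 0 ≤ ‖w - v‖ ^ 2 - inner ℝ (w - v) (k' - v) := by
      have := sq_nonneg ‖w - v‖
      linarith
    positivity
  have h6 : (inner ℝ g (w + s • g - k') : ℝ) = inner ℝ g (w - k') + s := by
    have h7 : w + s • g - k' = (w - k') + s • g := by abel
    rw [h7, inner_add_right, inner_smul_right, real_inner_self_eq_norm_sq, hg1]
    ring
  linarith

theorem grow {K K' : Set E} (hK : IsCompact K) (hc : Convex ℝ K) (hK' : IsCompact K')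
    (hn' : K'.Nonempty) {z0 : E} {r ε : ℝ} (hr : ball z0 r ⊆ K) (hr0 : 0 < r)
    (hε : 0 < ε) (h : hausdorffDist K K' < ε * r) :
    K' ⊆ (fun z => z0 + (1 + ε) • (z - z0)) '' K := by
  have hz0 : z0 ∈ K := hr (mem_ball_self hr0)
  have hfin : hausdorffEDist K K' ≠ ⊤ :=
    hausdorffEDist_ne_top_of_nonempty_of_bounded ⟨z0, hz0⟩ hn' hK.isBounded hK'.isBounded
  intro k' hk'
  obtain ⟨k, hk, hd⟩ := exists_dist_lt_of_hausdorffDist_lt' hk' h hfin
  have hε' : (1 + ε : ℝ) ≠ 0 := by positivity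
  have hb : z0 + ε⁻¹ • (k' - k) ∈ K := by
    apply hr
    rw [mem_ball, dist_eq_norm, add_sub_cancel_left, norm_smul, norm_inv, Real.norm_eq_abs,
      abs_of_pos hε, ← dist_eq_norm, dist_comm, inv_mul_lt_iff₀ hε]
    exact hd
  refine ⟨(1 + ε)⁻¹ • k + (ε * (1 + ε)⁻¹) • (z0 + ε⁻¹ • (k' - k)),
    hc hk hb (by positivity) (by positivity) (by field_simp), ?_⟩
  have h1 : (1 + ε) • ((1 + ε)⁻¹ • k + (ε * (1 + ε)⁻¹) • (z0 + ε⁻¹ • (k' - k)))
      = k + ε • z0 + (k' - k) := by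
    rw [smul_add, smul_smul, smul_smul, mul_inv_cancel₀ hε', one_smul, smul_add, smul_smul]
    have e1 : (1 + ε) * (ε * (1 + ε)⁻¹) = ε := by field_simp
    have e2 : (1 + ε) * (ε * (1 + ε)⁻¹) * ε⁻¹ = 1 := by field_simp
    rw [e2, e1, one_smul]
    abel
  show z0 + (1 + ε) • ((1 + ε)⁻¹ • k + (ε * (1 + ε)⁻¹) • (z0 + ε⁻¹ • (k' - k)) - z0) = k'
  rw [smul_sub, h1, add_smul, one_smul]
  abel

end Pool.Agent.Lib.FOLD
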