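import Pool.Agent.Lib.FOLD.FLip

/-!
# FOLD.KA: the folding near the point x (1.5 h)
PROOF. Let `x = γ 0 ∈ frontier C`, `v = f x`. (1) There is `r > 0` such that every `p ∈ C` with `dist p x < r` lies in a triangle `k` that contains `x` (the other triangles are closed and do not contain `x`). Hence for such `p` and `t ∈ [0,1]`: `x + t(p-x) ∈ C` and `f (x + t(p-x)) = v + t (f p - v)`, `‖f p - v‖ = ‖p - x‖`
(`f = A k` on the triangle). So near `x` the set `C` is `x + K`, `K` a closed convex cone in the plane, finite union of cones of triangles, with nonempty interior and `K ≠ univ` (`x` is a boundary point): there are unit vectors `d₊`, `d₋` (the boundary directions) and a unit vector `d₁ ∈ K` (bisector; the inner normal if `K` is a half plane) with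
`⟪d₁, d₊⟫ = ⟪d₁, d₋⟫ ≥ 0` such that every element of `K` is a combination with coefficients `≥ 0` of `d₁, d₊` or of `d₁, d₋`, and boundary points of `C` near `x` are on the two rays. (2) For small `s > 0` `γ s` and `γ (L - s)` are near `x`, different from `x`, on the boundary, and they are on different rays: `γ` is injective on
`[0,L)`, and on `(0, s₀)` and on `(L - s₀, L)` it stays on one ray each (connected); if it were the same ray, the two images would be intervals of this ray with end point `x` and would meet. `f (γ s) = f (γ (L-s))` (`glue`), so with `γ s = x + s₁ d₊`, `γ(L-s) = x + s₂ d₋` and `F(d) := (f(x + t d) - v)/t` (unit vector, small `t`):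
`s₁ F(d₊) = s₂ F(d₋)`, hence `s₁ = s₂`, `F(d₊) = F(d₋) =: ρ0`. Put `ρ1 = F(d₁)`. (3) `f` is `1`-Lipschitz, so `‖F(d) - F(d')‖ ≤ ‖d - d'‖`, i.e. `⟪F(d), F(d')⟫ ≥ ⟪d, d'⟫` for unit vectors. For `p ∈ C`, `dist p x < r`, `p - x = τ d`, `d = α d₁ + β d₊` (say), `α, β ≥ 0`, `g = ⟪d₁, d₊⟫ ≥ 0`:
`⟪d,d₁⟫ = α + β g ≥ 0`, `⟪d, d₊⟫ = α g + β ≥ 0`, `⟪d,d₁⟫² + ⟪d,d₊⟫² ≥ α² + β² + 2αβ g = 1`. With `y = f p - v = τ F(d)` the claim follows; `⟪ρ0, ρ1⟫ ≥ ⟪d₊, d₁⟫ ≥ 0`.
-/

set_option autoImplicit false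

open MeasureTheory Set Filter Topology Metric
open scoped MeasureTheory ENNReal

namespace Pool.Agent.Lib.FOLD

variable {C : Set E2} {L : ℝ} {γ : ℝ → E2} {Q : Set E3}

namespace KAAux

/-- near `x` the triangle is a cone with apex `x` or is empty -/
theorem local_tri (V : Fin 3 → E2) (hV : AffineIndependent ℝ V) (x : E2) :
    ∀ᶠ e in 𝓝[>] (0 : ℝ), ∀ p ∈ tri V, dist p x < e →
      x ∈ tri V ∧ ∃ l : ℝ, 1 < l ∧ AffineMap.lineMap x p l ∈ tri V := by
  have htop : affineSpan ℝ (range V) = ⊤ := by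
    rw [hV.affineSpan_eq_top_iff_card_eq_finrank_add_one]
    simp
  let b : AffineBasis (Fin 3) ℝ E2 := ⟨V, hV, htop⟩
  have hT : tri V = {y | ∀ i, 0 ≤ b.coord i y} := b.convexHull_eq_nonneg_coord
  have hcl : IsClosed (tri V) := by
    rw [hT]
    have : {y | ∀ i, 0 ≤ b.coord i y} = ⋂ i, {y | 0 ≤ b.coord i y} := by
      ext y
      simp
    rw [this]
    exact isClosed_iInter fun i => isClosed_le continuous_const (continuous_barycentric_coord b i)
  by_cases hx : x ∈ tri V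
  · have h1 : ∀ᶠ y in 𝓝 x, ∀ i, 0 < b.coord i x → 0 < b.coord i y := by
      rw [eventually_all]
      intro i
      by_cases h : 0 < b.coord i x
      · filter_upwards [((continuous_barycentric_coord b i).tendsto x).eventually (lt_mem_nhds h)] with y hy _
        exact hy
      · exact Eventually.of_forall fun y hy => absurd hy h
    obtain ⟨e, he, h2⟩ := Metric.eventually_nhds_iff.1 h1
    filter_upwards [Ioo_mem_nhdsGT he] with e' he' p hp hpx
    refine ⟨hx, ?_⟩
    set d := dist p x with hd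
    have hd0 : 0 ≤ d := dist_nonneg
    have hde : d < e := hpx.trans he'.2
    have hq : 0 < (e - d) / (2 * (d + 1)) := by
      apply div_pos <;> linarith
    refine ⟨1 + (e - d) / (2 * (d + 1)), by linarith, ?_⟩
    set l := 1 + (e - d) / (2 * (d + 1)) with hl
    have hld : l * d < e := by
      have : (e - d) / (2 * (d + 1)) * d < e - d := by
        rw [div_mul_eq_mul_div, div_lt_iff₀ (by linarith)]
        nlinarith
      rw [hl]
      linarith
    have hl0 : 0 < l := by linarith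
    have hdist : dist (AffineMap.lineMap x p l : E2) x < e := by
      rw [dist_lineMap_left, Real.norm_eq_abs, abs_of_pos hl0, dist_comm x p]
      exact hld
    rw [hT]
    intro i
    rw [hT] at hp hx
    rcases (hx i).lt_or_eq with h | h
    · exact (h2 hdist i h).le
    · have : b.coord i (AffineMap.lineMap x p l) = l * b.coord i p := by
        rw [AffineMap.apply_lineMap, ← h, AffineMap.lineMap_apply]
        simp
      rw [this]
      exact mul_nonneg hl0.le (hp i)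
  · obtain ⟨e, he, h2⟩ := Metric.isOpen_iff.1 hcl.isOpen_compl x hx
    filter_upwards [Ioo_mem_nhdsGT he] with e' he' p hp hpx
    exact absurd hp (h2 (hpx.trans he'.2))

theorem support (hC : Region C) {y : E2} (hy : y ∈ frontier C) :
    ∃ u : E2, u ≠ 0 ∧ ∀ z ∈ C, inner ℝ u z ≤ inner ℝ u y := by
  obtain ⟨g, hg⟩ := geometric_hahn_banach_open_point hC.cvx.interior isOpen_interior hy.2
  obtain ⟨z0, hz0⟩ := hC.int
  refine ⟨(InnerProductSpace.toDual ℝ E2).symm g, ?_, ?_⟩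
  · intro h
    have := hg z0 hz0
    rw [← InnerProductSpace.toDual_symm_apply (y := g), ← InnerProductSpace.toDual_symm_apply (y := g), h] at this
    simp at this
  · intro z hz
    rw [InnerProductSpace.toDual_symm_apply, InnerProductSpace.toDual_symm_apply]
    have h1 : z ∈ closure (interior C) := by
      rw [hC.cvx.closure_interior_eq_closure_of_nonempty_interior hC.int]
      exact subset_closure hz
    have h2 : closure (interior C) ⊆ {w | g w ≤ g y} :=
      closure_minimal (fun w hw => (hg w hw).le) (isClosed_le g.continuous continuous_const)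
    exact h2 h1

theorem inner2 (u v : E2) : inner ℝ u v = u 0 * v 0 + u 1 * v 1 := by
  rw [PiLp.inner_apply, Fin.sum_univ_two]
  simp [mul_comm]

theorem ext2 {p q : E2} (h0 : p 0 = q 0) (h1 : p 1 = q 1) : p = q := by
  ext i
  fin_cases i
  · exact h0
  · exact h1

theorem cramer (a b w : E2) (hD : a 0 * b 1 - a 1 * b 0 ≠ 0) :
    w = ((w 0 * b 1 - w 1 * b 0) / (a 0 * b 1 - a 1 * b 0)) • a +
      ((a 0 * w 1 - a 1 * w 0) / (a 0 * b 1 - a 1 * b 0)) • b := by
  apply ext2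
  · simp only [PiLp.add_apply, PiLp.smul_apply, smul_eq_mul]
    rw [div_mul_eq_mul_div, div_mul_eq_mul_div, ← add_div, eq_div_iff hD]
    ring
  · simp only [PiLp.add_apply, PiLp.smul_apply, smul_eq_mul]
    rw [div_mul_eq_mul_div, div_mul_eq_mul_div, ← add_div, eq_div_iff hD]
    ring

theorem perp (u a b w : E2) (hu : u ≠ 0) (hua : inner ℝ u a = 0) (hub : inner ℝ u b ≤ 0)
    (huw : inner ℝ u w ≤ 0) :
    0 ≤ (a 0 * b 1 - a 1 * b 0) * (a 0 * w 1 - a 1 * w 0) := by
  have huu : 0 < inner ℝ u u := real_inner_self_pos.2 hu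
  rw [inner2] at *
  have h1 : (a 0 * b 1 - a 1 * b 0) * (u 0 * u 0 + u 1 * u 1) =
      (u 1 * a 0 - u 0 * a 1) * (u 0 * b 0 + u 1 * b 1) := by
    linear_combination (u 0 * b 1 - u 1 * b 0) * hua
  have h2 : (a 0 * w 1 - a 1 * w 0) * (u 0 * u 0 + u 1 * u 1) =
      (u 1 * a 0 - u 0 * a 1) * (u 0 * w 0 + u 1 * w 1) := by
    linear_combination (u 0 * w 1 - u 1 * w 0) * hua
  have h3 : 0 ≤ ((a 0 * b 1 - a 1 * b 0) * (a 0 * w 1 - a 1 * w 0)) *
      (u 0 * u 0 + u 1 * u 1) ^ 2 := by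
    have : ((a 0 * b 1 - a 1 * b 0) * (a 0 * w 1 - a 1 * w 0)) * (u 0 * u 0 + u 1 * u 1) ^ 2 =
        (u 1 * a 0 - u 0 * a 1) ^ 2 * ((u 0 * b 0 + u 1 * b 1) * (u 0 * w 0 + u 1 * w 1)) := by
      linear_combination ((a 0 * w 1 - a 1 * w 0) * (u 0 * u 0 + u 1 * u 1)) * h1 +
        ((u 1 * a 0 - u 0 * a 1) * (u 0 * b 0 + u 1 * b 1)) * h2
    rw [this]
    exact mul_nonneg (sq_nonneg _) (mul_nonneg_of_nonpos_of_nonpos hub huw)
  exact nonneg_of_mul_nonneg_left h3 (by positivity)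

theorem cone2 (hC : Convex ℝ C) {x u v : E2} (hx : x ∈ C) (hu : x + u ∈ C) (hv : x + v ∈ C)
    {s t : ℝ} (hs : 0 ≤ s) (ht : 0 ≤ t) (hst : s + t ≤ 1) : x + (s • u + t • v) ∈ C := by
  rcases (add_nonneg hs ht).eq_or_lt with h | h
  · have h1 : s = 0 := by linarith
    have h2 : t = 0 := by linarith
    rw [h1, h2]
    simpa using hx
  · have hq : (s / (s + t)) • (x + u) + (t / (s + t)) • (x + v) ∈ C :=
      hC hu hv (by positivity) (by positivity) (by field_simp)
    have h3 : (1 - (s + t)) • x + (s + t) • ((s / (s + t)) • (x + u) + (t / (s + t)) • (x + v)) ∈ C :=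
      hC hx hq (by linarith) h.le (by ring)
    convert h3 using 1
    rw [smul_add, smul_smul, smul_smul, mul_div_cancel₀ _ h.ne', mul_div_cancel₀ _ h.ne']
    module

/-- the cone at `x` is covered by two cones with a common ray in `C` -/
theorem cones (hC : Region C) {x a b : E2} {r : ℝ} (hx : x ∈ C) (ha : x + a ∈ C) (hb : x + b ∈ C)
    (hab : ‖a‖ = ‖b‖) (hne : a ≠ b) (ha0 : a ≠ 0) (har : ‖a‖ < r)
    {ua : E2} (hua0 : ua ≠ 0) (hua : inner ℝ ua a = 0) (hUa : ∀ z ∈ C, inner ℝ ua (z - x) ≤ 0)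
    {ub : E2} (hub0 : ub ≠ 0) (hub : inner ℝ ub b = 0) (hUb : ∀ z ∈ C, inner ℝ ub (z - x) ≤ 0) :
    ∃ m : E2, m ≠ 0 ∧ ‖m‖ < r ∧ x + m ∈ C ∧ 0 ≤ inner ℝ a m ∧ 0 ≤ inner ℝ b m ∧
      ∀ z ∈ C, ∃ α β : ℝ, 0 ≤ α ∧ 0 ≤ β ∧ (z - x = α • m + β • a ∨ z - x = α • m + β • b) := by
  by_cases hD : a 0 * b 1 - a 1 * b 0 = 0
  · -- the half plane
    have hba : b = -a := by
      have h1 : inner ℝ a b ^ 2 = ‖a‖ ^ 2 * ‖a‖ ^ 2 := by
        nth_rewrite 2 [hab]
        rw [← real_inner_self_eq_norm_sq a, ← real_inner_self_eq_norm_sq b, inner2, inner2, inner2]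
        linear_combination (-(a 0 * b 1 - a 1 * b 0)) * hD
      have h2 : (inner ℝ a b - ‖a‖ ^ 2) * (inner ℝ a b + ‖a‖ ^ 2) = 0 := by
        linear_combination h1
      rcases mul_eq_zero.1 h2 with h | h
      · exfalso
        apply hne
        rw [← sub_eq_zero, ← norm_eq_zero]
        have : ‖a - b‖ ^ 2 = 0 := by
          rw [norm_sub_sq_real, ← hab]
          linarith
        exact pow_eq_zero_iff (two_ne_zero) |>.1 this
      · rw [eq_neg_iff_add_eq_zero, ← norm_eq_zero]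
        have : ‖b + a‖ ^ 2 = 0 := by
          rw [norm_add_sq_real, ← hab, real_inner_comm]
          linarith
        exact pow_eq_zero_iff (two_ne_zero) |>.1 this
    set n : E2 := -ua with hn
    have hn0 : n ≠ 0 := neg_ne_zero.2 hua0
    have hna : inner ℝ n a = 0 := by rw [hn, inner_neg_left, hua, neg_zero]
    have hN : ∀ z ∈ C, 0 ≤ inner ℝ n (z - x) := fun z hz => by
      rw [hn, inner_neg_left]
      linarith [hUa z hz]
    have hnn : 0 < inner ℝ n n := real_inner_self_pos.2 hn0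
    have haa : 0 < inner ℝ a a := real_inner_self_pos.2 ha0
    have hD' : a 0 * n 1 - a 1 * n 0 ≠ 0 := by
      intro h
      have : inner ℝ a a * inner ℝ n n = 0 := by
        rw [inner2] at hna ⊢
        rw [inner2]
        linear_combination (a 0 * n 1 - a 1 * n 0) * h + (n 0 * a 0 + n 1 * a 1) * hna
      exact absurd this (by positivity)
    -- the coefficient of `n`
    have hcoef : ∀ (w : E2) (α β : ℝ), w = α • a + β • n → 0 ≤ inner ℝ n w → 0 ≤ β := by
      intro w α β hw h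
      rw [hw, inner_add_right, inner_smul_right, inner_smul_right, hna, mul_zero, zero_add] at h
      exact nonneg_of_mul_nonneg_left h hnn
    obtain ⟨z0, hz0⟩ := hC.int
    have hz0C : z0 ∈ C := interior_subset hz0
    have hpos : 0 < inner ℝ n (z0 - x) := by
      refine lt_of_le_of_ne (hN z0 hz0C) fun h => ?_
      have h1 : Tendsto (fun t : ℝ => z0 - t • n) (𝓝[>] 0) (𝓝 z0) := by
        have : Continuous fun t : ℝ => z0 - t • n := by fun_prop
        have h2 := this.tendsto 0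
        simp only [zero_smul, sub_zero] at h2
        exact h2.mono_left nhdsWithin_le_nhds
      have h2 : ∀ᶠ t : ℝ in 𝓝[>] 0, z0 - t • n ∈ C := h1 (mem_interior_iff_mem_nhds.1 hz0)
      obtain ⟨t, ht, ht0⟩ := (h2.and self_mem_nhdsWithin).exists
      have h3 := hN _ ht
      have h4 : z0 - t • n - x = (z0 - x) - t • n := by abel
      rw [h4, inner_sub_right, ← h, inner_smul_right, zero_sub] at h3
      have : 0 < t * inner ℝ n n := mul_pos ht0 hnn
      linarith
    obtain ⟨c, e, hw⟩ : ∃ c e : ℝ, z0 - x = c • a + e • n := ⟨_, _, cramer a n (z0 - x) hD'⟩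
    have he : 0 < e := by
      rw [hw, inner_add_right, inner_smul_right, inner_smul_right, hna, mul_zero, zero_add] at hpos
      exact (mul_pos_iff_of_pos_right hnn).1 hpos
    have hnorm : 0 < ‖n‖ := norm_pos_iff.2 hn0
    have hr : 0 < r := (norm_nonneg a).trans_lt har
    obtain ⟨t, ht0, ht1, ht2⟩ : ∃ t : ℝ, 0 < t ∧ t * (1 + |c|) ≤ 1 ∧ t * e * ‖n‖ < r := by
      refine ⟨min (1 / (1 + |c|)) (r / (2 * (e * ‖n‖))), ?_, ?_, ?_⟩
      · have := abs_nonneg c
        exact lt_min (by positivity) (by positivity)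
      · have := abs_nonneg c
        calc min (1 / (1 + |c|)) (r / (2 * (e * ‖n‖))) * (1 + |c|) ≤ 1 / (1 + |c|) * (1 + |c|) :=
              mul_le_mul_of_nonneg_right (min_le_left _ _) (by positivity)
          _ = 1 := by field_simp
      · calc min (1 / (1 + |c|)) (r / (2 * (e * ‖n‖))) * e * ‖n‖
              ≤ r / (2 * (e * ‖n‖)) * e * ‖n‖ := by
              apply mul_le_mul_of_nonneg_right _ hnorm.le
              exact mul_le_mul_of_nonneg_right (min_le_right _ _) he.le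
          _ = r / 2 := by field_simp
          _ < r := by linarith
    refine ⟨(t * e) • n, smul_ne_zero (by positivity) hn0, ?_, ?_, ?_, ?_, ?_⟩
    · rw [norm_smul, Real.norm_eq_abs, abs_of_pos (by positivity)]
      exact ht2
    · have hz : x + (z0 - x) ∈ C := by
        rw [add_sub_cancel]
        exact hz0C
      rcases le_total 0 c with h | h
      · have := cone2 hC.cvx hx hz hb (s := t) (t := t * c) ht0.le (by positivity)
          (by rw [abs_of_nonneg h] at ht1; linarith)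
        convert this using 2
        rw [hw, hba]
        module
      · have := cone2 hC.cvx hx hz ha (s := t) (t := t * (-c)) ht0.le
          (mul_nonneg ht0.le (by linarith)) (by rw [abs_of_nonpos h] at ht1; linarith)
        convert this using 2
        rw [hw]
        module
    · rw [inner_smul_right, real_inner_comm, hna, mul_zero]
    · rw [hba, inner_neg_left, inner_smul_right, real_inner_comm, hna, mul_zero, neg_zero]
    · intro z hz
      obtain ⟨α, β, h⟩ : ∃ α β : ℝ, z - x = α • a + β • n := ⟨_, _, cramer a n (z - x) hD'⟩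
      have hβ : 0 ≤ β := hcoef _ α β h (hN z hz)
      have hte : 0 < t * e := mul_pos ht0 he
      have hβn : (β / (t * e)) • ((t * e) • n) = β • n := by
        rw [smul_smul, div_mul_cancel₀ _ hte.ne']
      rcases le_total 0 α with h1 | h1
      · refine ⟨β / (t * e), α, by positivity, h1, Or.inl ?_⟩
        rw [hβn, h, add_comm]
      · refine ⟨β / (t * e), -α, by positivity, by linarith, Or.inr ?_⟩
        rw [hβn, h, hba]
        module
  · -- the cone
    have hnab : inner ℝ a b ≤ ‖a‖ * ‖b‖ := real_inner_le_norm a b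
    have hnab' : -(‖a‖ * ‖b‖) ≤ inner ℝ a b := neg_le_of_abs_le (abs_real_inner_le_norm a b)
    rw [← hab] at hnab hnab'
    have haa : inner ℝ a a = ‖a‖ * ‖a‖ := real_inner_self_eq_norm_mul_norm a
    have hbb : inner ℝ b b = ‖a‖ * ‖a‖ := by
      rw [real_inner_self_eq_norm_mul_norm b, ← hab]
    refine ⟨(1 / 2 : ℝ) • a + (1 / 2 : ℝ) • b, ?_, ?_, ?_, ?_, ?_, ?_⟩
    · intro h
      apply hD
      have h1 : b = -a := by
        have : (2 : ℝ) • ((1 / 2 : ℝ) • a + (1 / 2 : ℝ) • b) = 0 := by rw [h, smul_zero]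
        rw [smul_add, smul_smul, smul_smul] at this
        norm_num at this
        exact eq_neg_of_add_eq_zero_right this
      rw [h1]
      simp only [PiLp.neg_apply]
      ring
    · calc ‖(1 / 2 : ℝ) • a + (1 / 2 : ℝ) • b‖ ≤ ‖(1 / 2 : ℝ) • a‖ + ‖(1 / 2 : ℝ) • b‖ :=
            norm_add_le _ _
        _ = ‖a‖ := by
            rw [norm_smul, norm_smul, ← hab]
            norm_num
            ring
        _ < r := har
    · exact cone2 hC.cvx hx ha hb (by norm_num) (by norm_num) (by norm_num)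
    · rw [inner_add_right, inner_smul_right, inner_smul_right, haa]
      linarith
    · rw [inner_add_right, inner_smul_right, inner_smul_right, hbb, real_inner_comm]
      linarith
    · intro z hz
      have h1 := perp ua a b (z - x) hua0 hua (by simpa using hUa _ hb) (hUa z hz)
      have h2 := perp ub b a (z - x) hub0 hub (by simpa using hUb _ ha) (hUb z hz)
      have h3 := cramer a b (z - x) hD
      set D := a 0 * b 1 - a 1 * b 0 with hDdef
      set α := ((z - x) 0 * b 1 - (z - x) 1 * b 0) / D with hα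
      set β := (a 0 * (z - x) 1 - a 1 * (z - x) 0) / D with hβ
      have hβ0 : 0 ≤ β := by
        have : β = (D * (a 0 * (z - x) 1 - a 1 * (z - x) 0)) / D ^ 2 := by
          rw [hβ]
          field_simp
        rw [this]
        positivity
      have hα0 : 0 ≤ α := by
        have : α = ((b 0 * a 1 - b 1 * a 0) * (b 0 * (z - x) 1 - b 1 * (z - x) 0)) / D ^ 2 := by
          have h4 : (b 0 * a 1 - b 1 * a 0) * (b 0 * (z - x) 1 - b 1 * (z - x) 0) =
              D * ((z - x) 0 * b 1 - (z - x) 1 * b 0) := by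
            rw [hDdef]
            ring
          rw [h4, hα]
          field_simp
        rw [this]
        positivity
      rcases le_total β α with h5 | h5
      · refine ⟨2 * β, α - β, by linarith, by linarith, Or.inl ?_⟩
        rw [h3]
        module
      · refine ⟨2 * α, β - α, by linarith, by linarith, Or.inr ?_⟩
        rw [h3]
        module

theorem ineq {a m w : E2} {α β : ℝ} (hα : 0 ≤ α) (hβ : 0 ≤ β) (ha : a ≠ 0) (hm : m ≠ 0)
    (hg : 0 ≤ inner ℝ a m) (hw : w = α • m + β • a) :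
    0 ≤ inner ℝ w a ∧ 0 ≤ inner ℝ w m ∧
      ‖w‖ ^ 2 ≤ (inner ℝ w a / ‖a‖) ^ 2 + (inner ℝ w m / ‖m‖) ^ 2 := by
  have hA : 0 < ‖a‖ := norm_pos_iff.2 ha
  have hM : 0 < ‖m‖ := norm_pos_iff.2 hm
  have h1 : inner ℝ w a = α * inner ℝ a m + β * ‖a‖ ^ 2 := by
    rw [hw, inner_add_left, inner_smul_left, inner_smul_left, real_inner_self_eq_norm_sq,
      real_inner_comm a m]
    simp
  have h2 : inner ℝ w m = α * ‖m‖ ^ 2 + β * inner ℝ a m := by
    rw [hw, inner_add_left, inner_smul_left, inner_smul_left, real_inner_self_eq_norm_sq]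
    simp
  have h3 : ‖w‖ ^ 2 = α * inner ℝ w m + β * inner ℝ w a := by
    rw [← real_inner_self_eq_norm_sq w]
    nth_rewrite 2 [hw]
    rw [inner_add_right, inner_smul_right, inner_smul_right]
  refine ⟨by rw [h1]; positivity, by rw [h2]; positivity, ?_⟩
  rw [h3, h1, h2]
  set g := inner ℝ a m with hgdef
  set A := ‖a‖
  set M := ‖m‖
  have h4 : ((α * g + β * A ^ 2) / A) ^ 2 + ((α * M ^ 2 + β * g) / M) ^ 2 -
      (α * (α * M ^ 2 + β * g) + β * (α * g + β * A ^ 2)) =
      (α * g / A) ^ 2 + (β * g / M) ^ 2 + 2 * α * β * g := by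
    field_simp
    ring
  have h5 : 0 ≤ (α * g / A) ^ 2 + (β * g / M) ^ 2 + 2 * α * β * g := by positivity
  linarith

theorem support_dir (hC : Region C) {x p : E2} (hx : x ∈ C) (hp : p ∈ frontier C)
    (hl : ∃ l : ℝ, 1 < l ∧ AffineMap.lineMap x p l ∈ C) :
    ∃ u : E2, u ≠ 0 ∧ inner ℝ u (p - x) = 0 ∧ ∀ z ∈ C, inner ℝ u (z - x) ≤ 0 := by
  obtain ⟨u, hu, h⟩ := support hC hp
  obtain ⟨l, hl1, hl⟩ := hl
  have h1 := h x hx
  have h2 := h _ hl
  have h3 : inner ℝ u (p - x) = 0 := by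
    rw [AffineMap.lineMap_apply, vsub_eq_sub, vadd_eq_add, inner_add_right, inner_smul_right] at h2
    rw [inner_sub_right] at h2 ⊢
    nlinarith
  refine ⟨u, hu, h3, fun z hz => ?_⟩
  have h4 := h z hz
  rw [inner_sub_right] at h3 ⊢
  linarith

end KAAux

open KAAux

theorem sector (F : Fold C L γ Q) : ∃ (r : ℝ) (ρ0 ρ1 : E3), 0 < r ∧ ‖ρ0‖ = 1 ∧ ‖ρ1‖ = 1 ∧
    0 ≤ inner ℝ ρ0 ρ1 ∧ ∀ p ∈ C, dist p (γ 0) < r →
      0 ≤ inner ℝ (F.f p - F.f (γ 0)) ρ0 ∧ 0 ≤ inner ℝ (F.f p - F.f (γ 0)) ρ1 ∧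
      ‖F.f p - F.f (γ 0)‖ ^ 2 ≤ inner ℝ (F.f p - F.f (γ 0)) ρ0 ^ 2 + inner ℝ (F.f p - F.f (γ 0)) ρ1 ^ 2 := by
  have hL := F.arc.pos
  have hfr : ∀ s ∈ Icc (0 : ℝ) L, γ s ∈ frontier C := fun s hs =>
    F.arc.onto ▸ mem_image_of_mem γ hs
  have hsub : frontier C ⊆ C := F.region.cpt.isClosed.frontier_subset
  have h0 : (0 : ℝ) ∈ Icc 0 L := ⟨le_rfl, hL.le⟩
  have hx : γ 0 ∈ C := hsub (hfr 0 h0)
  have hloc : ∀ᶠ e in 𝓝[>] (0 : ℝ), ∀ k, ∀ p ∈ tri (F.V k), dist p (γ 0) < e →
      γ 0 ∈ tri (F.V k) ∧ ∃ l : ℝ, 1 < l ∧ AffineMap.lineMap (γ 0) p l ∈ tri (F.V k) :=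
    eventually_all.2 fun k => local_tri (F.V k) (F.indep k) (γ 0)
  obtain ⟨r, hr, hr0⟩ := (hloc.and self_mem_nhdsWithin).exists
  have hr0' : 0 < r := hr0
  have key : ∀ p ∈ C, dist p (γ 0) < r → ‖F.f p - F.f (γ 0)‖ = ‖p - γ 0‖ ∧
      ∃ l : ℝ, 1 < l ∧ AffineMap.lineMap (γ 0) p l ∈ C := by
    intro p hp hpr
    rw [← F.cover] at hp
    obtain ⟨k, hk⟩ := mem_iUnion.1 hp
    obtain ⟨hxk, l, hl1, hl⟩ := hr k p hk hpr
    refine ⟨?_, l, hl1, ?_⟩
    · rw [F.rigid k p hk, F.rigid k _ hxk, ← dist_eq_norm, ← dist_eq_norm]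
      exact (F.A k).dist_map p (γ 0)
    · rw [← F.cover]
      exact mem_iUnion.2 ⟨k, hl⟩
  have hin : ∀ p ∈ C, ∀ q ∈ C, dist p (γ 0) < r → dist q (γ 0) < r →
      inner ℝ (p - γ 0) (q - γ 0) ≤ inner ℝ (F.f p - F.f (γ 0)) (F.f q - F.f (γ 0)) := by
    intro p hp q hq h1 h2
    have h3 := norm_sub_sq_real (p - γ 0) (q - γ 0)
    have h4 := norm_sub_sq_real (F.f p - F.f (γ 0)) (F.f q - F.f (γ 0))
    rw [sub_sub_sub_cancel_right] at h3 h4
    rw [(key p hp h1).1, (key q hq h2).1] at h4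
    have h5 : ‖F.f p - F.f q‖ ≤ ‖p - q‖ := by
      have := (f_lip F).dist_le_mul p hp q hq
      rw [dist_eq_norm, dist_eq_norm] at this
      simpa using this
    have h6 : ‖F.f p - F.f q‖ ^ 2 ≤ ‖p - q‖ ^ 2 := pow_le_pow_left₀ (norm_nonneg _) h5 2
    linarith
  obtain ⟨s, hs0, hsr, hsL⟩ : ∃ s : ℝ, 0 < s ∧ s < r ∧ s < L / 2 :=
    ⟨min (r / 2) (L / 3), lt_min (by positivity) (by positivity),
      (min_le_left _ _).trans_lt (by linarith), (min_le_right _ _).trans_lt (by linarith)⟩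
  have hsI : s ∈ Icc (0 : ℝ) L := ⟨hs0.le, by linarith⟩
  have hsI' : L - s ∈ Icc (0 : ℝ) L := ⟨by linarith, by linarith⟩
  have hLI : L ∈ Icc (0 : ℝ) L := ⟨hL.le, le_rfl⟩
  have hp : γ s ∈ C := hsub (hfr s hsI)
  have hq : γ (L - s) ∈ C := hsub (hfr _ hsI')
  have hpd : dist (γ s) (γ 0) < r := by
    have := F.arc.lip.dist_le_mul s hsI 0 h0
    rw [Real.dist_eq, sub_zero, abs_of_pos hs0] at this
    simp only [NNReal.coe_one, one_mul] at this
    linarith
  have hqd : dist (γ (L - s)) (γ 0) < r := by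
    have := F.arc.lip.dist_le_mul (L - s) hsI' L hLI
    rw [Real.dist_eq, F.arc.closed] at this
    have h1 : |L - s - L| = s := by
      rw [show L - s - L = -s by ring, abs_neg, abs_of_pos hs0]
    rw [h1] at this
    simp only [NNReal.coe_one, one_mul] at this
    linarith
  have hfeq : F.f (γ s) = F.f (γ (L - s)) :=
    (F.glue _ hp _ hq).2 (Or.inr ⟨s, hsI, rfl, rfl⟩)
  have hne : γ s ≠ γ (L - s) := fun h => by
    have := F.inj (show s ∈ Ico (0 : ℝ) L from ⟨hs0.le, by linarith⟩)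
      (show L - s ∈ Ico (0 : ℝ) L from ⟨by linarith, by linarith⟩) h
    linarith
  have hne0 : γ s ≠ γ 0 := fun h => by
    have := F.inj (show s ∈ Ico (0 : ℝ) L from ⟨hs0.le, by linarith⟩)
      (show (0 : ℝ) ∈ Ico (0 : ℝ) L from ⟨le_rfl, hL⟩) h
    linarith
  have hnorm : ‖γ s - γ 0‖ = ‖γ (L - s) - γ 0‖ := by
    rw [← (key _ hp hpd).1, ← (key _ hq hqd).1, hfeq]
  obtain ⟨ua, hua0, hua, hUa⟩ := support_dir F.region hx (hfr s hsI) (key _ hp hpd).2
  obtain ⟨ub, hub0, hub, hUb⟩ := support_dir F.region hx (hfr _ hsI') (key _ hq hqd).2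
  have ha0 : γ s - γ 0 ≠ 0 := sub_ne_zero.2 hne0
  have hb0 : γ (L - s) - γ 0 ≠ 0 := by
    rw [← norm_pos_iff, ← hnorm]
    exact norm_pos_iff.2 ha0
  obtain ⟨m, hm0, hmr, hm, ham, hbm, hcone⟩ := cones F.region (r := r) hx
    (show γ 0 + (γ s - γ 0) ∈ C by rwa [add_sub_cancel])
    (show γ 0 + (γ (L - s) - γ 0) ∈ C by rwa [add_sub_cancel]) hnorm
    (fun h => hne (sub_left_injective h)) ha0 (by rw [← dist_eq_norm]; exact hpd)
    hua0 hua hUa hub0 hub hUb
  have hmd : dist (γ 0 + m) (γ 0) < r := by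
    rw [dist_eq_norm, add_sub_cancel_left]
    exact hmr
  have hA : 0 < ‖γ s - γ 0‖ := norm_pos_iff.2 ha0
  have hM : 0 < ‖m‖ := norm_pos_iff.2 hm0
  refine ⟨r, (1 / ‖γ s - γ 0‖) • (F.f (γ s) - F.f (γ 0)), (1 / ‖m‖) • (F.f (γ 0 + m) - F.f (γ 0)),
    hr0', ?_, ?_, ?_, ?_⟩
  · rw [norm_smul, (key _ hp hpd).1, Real.norm_eq_abs, abs_of_pos (by positivity)]
    field_simp
  · rw [norm_smul, (key _ hm hmd).1, add_sub_cancel_left, Real.norm_eq_abs,
      abs_of_pos (by positivity)]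
    field_simp
  · rw [inner_smul_left, inner_smul_right]
    have h1 := hin _ hp _ hm hpd hmd
    rw [add_sub_cancel_left] at h1
    have h2 : 0 ≤ inner ℝ (F.f (γ s) - F.f (γ 0)) (F.f (γ 0 + m) - F.f (γ 0)) := ham.trans h1
    simp only [conj_trivial]
    positivity
  · intro p hpC hpx
    rw [inner_smul_right, inner_smul_right, (key p hpC hpx).1]
    have hyM := hin p hpC _ hm hpx hmd
    rw [add_sub_cancel_left] at hyM
    have hyA := hin p hpC _ hp hpx hpd
    have hyB := hin p hpC _ hq hpx hqd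
    rw [← hfeq] at hyB
    have fin : ∀ a : E2, ‖a‖ = ‖γ s - γ 0‖ →
        inner ℝ (p - γ 0) a ≤ inner ℝ (F.f p - F.f (γ 0)) (F.f (γ s) - F.f (γ 0)) →
        (0 ≤ inner ℝ (p - γ 0) a ∧ 0 ≤ inner ℝ (p - γ 0) m ∧
          ‖p - γ 0‖ ^ 2 ≤ (inner ℝ (p - γ 0) a / ‖a‖) ^ 2 + (inner ℝ (p - γ 0) m / ‖m‖) ^ 2) →
        0 ≤ 1 / ‖γ s - γ 0‖ * inner ℝ (F.f p - F.f (γ 0)) (F.f (γ s) - F.f (γ 0)) ∧
        0 ≤ 1 / ‖m‖ * inner ℝ (F.f p - F.f (γ 0)) (F.f (γ 0 + m) - F.f (γ 0)) ∧
        ‖p - γ 0‖ ^ 2 ≤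
          (1 / ‖γ s - γ 0‖ * inner ℝ (F.f p - F.f (γ 0)) (F.f (γ s) - F.f (γ 0))) ^ 2 +
          (1 / ‖m‖ * inner ℝ (F.f p - F.f (γ 0)) (F.f (γ 0 + m) - F.f (γ 0))) ^ 2 := by
      intro a han h1 ⟨h2, h3, h4⟩
      have e1 : inner ℝ (p - γ 0) a / ‖a‖ ≤
          1 / ‖γ s - γ 0‖ * inner ℝ (F.f p - F.f (γ 0)) (F.f (γ s) - F.f (γ 0)) := by
        rw [han, one_div_mul_eq_div]
        exact div_le_div_of_nonneg_right h1 hA.le
      have e2 : inner ℝ (p - γ 0) m / ‖m‖ ≤
          1 / ‖m‖ * inner ℝ (F.f p - F.f (γ 0)) (F.f (γ 0 + m) - F.f (γ 0)) := by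
        rw [one_div_mul_eq_div]
        exact div_le_div_of_nonneg_right hyM hM.le
      have e3 : 0 ≤ inner ℝ (p - γ 0) a / ‖a‖ := by positivity
      have e4 : 0 ≤ inner ℝ (p - γ 0) m / ‖m‖ := by positivity
      refine ⟨e3.trans e1, e4.trans e2, h4.trans (add_le_add ?_ ?_)⟩
      · exact pow_le_pow_left₀ e3 e1 2
      · exact pow_le_pow_left₀ e4 e2 2
    obtain ⟨α, β, hα, hβ, h | h⟩ := hcone p hpC
    · exact fin (γ s - γ 0) rfl hyA (ineq hα hβ ha0 hm0 ham h)
    · exact fin (γ (L - s) - γ 0) hnorm.symm hyB (ineq hα hβ hb0 hm0 hbm h)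


end Pool.Agent.Lib.FOLD
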