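import Pool.Agent.Lib.FOLD.Defs

/-!
# FOLD.KB: two vector inequalities (0.8 h)
PROOF. `cone_vec`: `y = 0` is trivial; scale to `‖y‖ = 1`. `p = ⟪y,ρ0⟫`, `q = ⟪y,ρ1⟫`, `r = ⟪ρ0,ρ1⟫`, `p, q, r ≥ 0`, `p² + q² ≥ 1`. The Gram determinant of the three unit vectors is `≥ 0`: `1 + 2pqr - p² - q² - r² ≥ 0` (e.g. `‖‖..‖‖²` of the component of `y` orthogonal to `ρ0, ρ1`, or Cauchy-Schwarz for the components
orthogonal to `y`: `(r - pq)² ≤ (1-p²)(1-q²)`). Since `(1-p²)(1-q²) ≤ p²q²`, `r ≤ 2pq`. So `(p+q)² ≥ 1 + 2pq ≥ 1 + r = ‖ρ0 + ρ1‖²/2`, and `⟪m, y⟫ = (p+q)/‖ρ0+ρ1‖ ≥ 1/√2`. (`‖ρ0+ρ1‖ > 0` since `r ≥ 0`.)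
`normal_tip`: suppose `⟪n, -√2 m⟫ > 1`. `c = ⟪n,m⟫ < -1/√2`. Some point `z = f p` of the triangle (`hz`) is `≠ a`; `y = z - a`, `⟪n, y⟫ ≥ 0` (`hn'` for `a ∈ Q`). Decompose `y = ⟪m,y⟫ m + y'`, `‖y'‖² = ‖y‖² - ⟪m,y⟫² ≤ ⟪m,y⟫²`, `n = c m + n'`, `‖n'‖² = 1 - c² < 1/2`: `⟪n,y⟫ ≤ c⟪m,y⟫ + ‖n'‖‖y'‖ < 0` (`⟪m,y⟫ > 0`).
-/

set_option autoImplicit false

open MeasureTheory Set Filter Topology Metric
open scoped MeasureTheory ENNReal

namespace Pool.Agent.Lib.FOLD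

namespace KBAux

theorem gram_aux (y u v : E3) : inner ℝ (‖y‖ ^ 2 • u - inner ℝ u y • y)
    (‖y‖ ^ 2 • v - inner ℝ v y • y) =
    ‖y‖ ^ 2 * (‖y‖ ^ 2 * inner ℝ u v - inner ℝ u y * inner ℝ v y) := by
  simp only [inner_sub_left, inner_sub_right, real_inner_smul_left, real_inner_smul_right,
    real_inner_self_eq_norm_sq]
  rw [real_inner_comm v y]
  ring

theorem gram (y u v : E3) : (‖y‖ ^ 2 * inner ℝ u v - inner ℝ u y * inner ℝ v y) ^ 2 ≤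
    (‖y‖ ^ 2 * ‖u‖ ^ 2 - inner ℝ u y ^ 2) * (‖y‖ ^ 2 * ‖v‖ ^ 2 - inner ℝ v y ^ 2) := by
  by_cases hy : y = 0
  · simp [hy]
  have hy' : 0 < ‖y‖ := norm_pos_iff.2 hy
  have hN : 0 < (‖y‖ ^ 2) ^ 2 := by positivity
  have cs := real_inner_mul_inner_self_le (‖y‖ ^ 2 • u - inner ℝ u y • y)
    (‖y‖ ^ 2 • v - inner ℝ v y • y)
  rw [gram_aux, gram_aux, gram_aux, real_inner_self_eq_norm_sq, real_inner_self_eq_norm_sq] at cs
  refine le_of_mul_le_mul_left ?_ hN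
  calc (‖y‖ ^ 2) ^ 2 * (‖y‖ ^ 2 * inner ℝ u v - inner ℝ u y * inner ℝ v y) ^ 2
      = ‖y‖ ^ 2 * (‖y‖ ^ 2 * inner ℝ u v - inner ℝ u y * inner ℝ v y) *
        (‖y‖ ^ 2 * (‖y‖ ^ 2 * inner ℝ u v - inner ℝ u y * inner ℝ v y)) := by ring
    _ ≤ _ := cs
    _ = _ := by ring

theorem le_of_sq_bound {N w : ℝ} (hN : 0 ≤ N) (h : N ≤ √2 * w) : N ^ 2 ≤ 2 * w ^ 2 := by
  have h2 : √2 ^ 2 = 2 := Real.sq_sqrt (by norm_num)
  calc N ^ 2 ≤ (√2 * w) ^ 2 := pow_le_pow_left₀ hN h 2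
    _ = 2 * w ^ 2 := by rw [mul_pow, h2]

theorem pos_of_bound {N w : ℝ} (hN : 0 < N) (h : N ≤ √2 * w) : 0 < w := by
  have h2 : 0 < √2 := by positivity
  by_contra hw
  push Not at hw
  have := mul_nonpos_of_nonneg_of_nonpos h2.le hw
  linarith

end KBAux

open KBAux

theorem cone_vec {ρ0 ρ1 : E3} (h0 : ‖ρ0‖ = 1) (h1 : ‖ρ1‖ = 1) (hr : 0 ≤ inner ℝ ρ0 ρ1) :
    ∃ m : E3, ‖m‖ = 1 ∧ ∀ y : E3, 0 ≤ inner ℝ y ρ0 → 0 ≤ inner ℝ y ρ1 →
      ‖y‖ ^ 2 ≤ inner ℝ y ρ0 ^ 2 + inner ℝ y ρ1 ^ 2 → ‖y‖ ≤ √2 * inner ℝ m y := by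
  have hs : ‖ρ0 + ρ1‖ ^ 2 = 2 + 2 * inner ℝ ρ0 ρ1 := by
    rw [norm_add_sq_real, h0, h1]
    ring
  have hpos : 0 < ‖ρ0 + ρ1‖ := by
    by_contra h
    have h' : ‖ρ0 + ρ1‖ = 0 := le_antisymm (not_lt.1 h) (norm_nonneg _)
    rw [h'] at hs
    nlinarith
  refine ⟨‖ρ0 + ρ1‖⁻¹ • (ρ0 + ρ1), ?_, ?_⟩
  · rw [norm_smul, norm_inv, norm_norm, inv_mul_cancel₀ hpos.ne']
  · intro y hp hq hN
    have g := gram y ρ0 ρ1
    rw [h0, h1, real_inner_comm y ρ0, real_inner_comm y ρ1] at g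
    set p := inner ℝ y ρ0 with hpd
    set q := inner ℝ y ρ1 with hqd
    set r := inner ℝ ρ0 ρ1 with hrd
    set N := ‖y‖ ^ 2 with hNd
    have hN0 : 0 ≤ N := by positivity
    have hpq : 0 ≤ p * q := mul_nonneg hp hq
    have h2 : (N * r - p * q) ^ 2 ≤ (p * q) ^ 2 := by
      refine g.trans ?_
      nlinarith
    have h3 : N * r ≤ 2 * (p * q) := by
      have := (abs_le_of_sq_le_sq' h2 hpq).2
      linarith
    have h4 : N * (1 + r) ≤ (p + q) ^ 2 := by nlinarith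
    rw [real_inner_smul_left, inner_add_left, real_inner_comm y ρ0, real_inner_comm y ρ1]
    have h5 : ‖y‖ * ‖ρ0 + ρ1‖ ≤ √2 * (p + q) := by
      refine abs_le_of_sq_le_sq' ?_ (by positivity) |>.2
      have h22 : √2 ^ 2 = 2 := Real.sq_sqrt (by norm_num)
      rw [mul_pow, mul_pow, hs, h22]
      nlinarith
    have h6 : √2 * (‖ρ0 + ρ1‖⁻¹ * (p + q)) = √2 * (p + q) / ‖ρ0 + ρ1‖ := by
      field_simp
    rw [h6, le_div_iff₀ hpos]
    exact h5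

theorem normal_tip {a m n z : E3} (hm : ‖m‖ = 1) (hn : ‖n‖ = 1) (hz : z ≠ a)
    (hc : ‖z - a‖ ≤ √2 * inner ℝ m (z - a)) (hn' : inner ℝ n a ≤ inner ℝ n z) :
    inner ℝ n (-(√2 • m)) ≤ 1 := by
  have hy : 0 < ‖z - a‖ := norm_pos_iff.2 (sub_ne_zero.2 hz)
  have hy2 := le_of_sq_bound hy.le hc
  have hs := pos_of_bound hy hc
  have hn2 : 0 ≤ inner ℝ n (z - a) := by
    rw [inner_sub_right]
    linarith
  have g := gram m n (z - a)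
  rw [hm, hn, real_inner_comm m (z - a)] at g
  rw [inner_neg_right, real_inner_smul_right]
  have h22 : √2 ^ 2 = 2 := Real.sq_sqrt (by norm_num)
  have h2p : 0 < √2 := by positivity
  set y := z - a
  set s := inner ℝ m y
  set c := inner ℝ n m
  set t := inner ℝ n y
  by_contra hcon
  push Not at hcon
  have hc0 : c < 0 := by
    by_contra h
    push Not at h
    have := mul_nonneg h2p.le h
    linarith
  have hc2 : 1 < 2 * c ^ 2 := by nlinarith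
  have h3 : (t - c * s) ^ 2 ≤ (1 - c ^ 2) * (‖y‖ ^ 2 - s ^ 2) := by
    have e : (1 : ℝ) ^ 2 * t - c * s = t - c * s := by ring
    rw [e] at g
    refine g.trans (le_of_eq ?_)
    ring
  have hc1 : 0 ≤ 1 - c ^ 2 := by
    have h := abs_real_inner_le_norm n m
    rw [hm, hn, one_mul] at h
    have := (sq_le_one_iff_abs_le_one c).2 h
    linarith
  have h4 : (1 - c ^ 2) * (‖y‖ ^ 2 - s ^ 2) ≤ (1 - c ^ 2) * s ^ 2 :=
    mul_le_mul_of_nonneg_left (by linarith) hc1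
  have h5 : c ^ 2 * s ^ 2 ≤ (t - c * s) ^ 2 := by
    have h6 : 0 ≤ -(c * s) := by nlinarith
    have h7 : -(c * s) ≤ t - c * s := by linarith
    calc c ^ 2 * s ^ 2 = (-(c * s)) ^ 2 := by ring
      _ ≤ (t - c * s) ^ 2 := pow_le_pow_left₀ h6 h7 2
  have h8 : 0 < s ^ 2 := by positivity
  nlinarith

theorem tips_angle {a b m m' : E3} (hm : ‖m‖ = 1) (hm' : ‖m'‖ = 1) (hab : a ≠ b)
    (h1 : ‖b - a‖ ≤ √2 * inner ℝ m (b - a)) (h2 : ‖a - b‖ ≤ √2 * inner ℝ m' (a - b)) :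
    inner ℝ (-(√2 • m)) (-(√2 • m')) ≤ 0 := by
  have hy : 0 < ‖b - a‖ := norm_pos_iff.2 (sub_ne_zero.2 (Ne.symm hab))
  have e : a - b = -(b - a) := by abel
  rw [e, norm_neg, inner_neg_right] at h2
  have h1s := le_of_sq_bound hy.le h1
  have h2s := le_of_sq_bound hy.le h2
  have h1p := pos_of_bound hy h1
  have h2p := pos_of_bound hy h2
  have g := gram (b - a) m m'
  rw [hm, hm'] at g
  rw [inner_neg_left, inner_neg_right, real_inner_smul_left, real_inner_smul_right, neg_neg]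
  set y := b - a
  set s := inner ℝ m y
  set t := inner ℝ m' y
  set c := inner ℝ m m'
  set N := ‖y‖ ^ 2 with hN
  have hN0 : 0 < N := by positivity
  have h3 : (N * c - s * t) ^ 2 ≤ (N / 2) ^ 2 := by
    refine g.trans ?_
    have a1 : 0 ≤ N * 1 ^ 2 - s ^ 2 := by
      have h := abs_real_inner_le_norm m y
      rw [hm, one_mul] at h
      have h' : s ^ 2 ≤ ‖y‖ ^ 2 := sq_le_sq' (by linarith [(abs_le.1 h).1]) (abs_le.1 h).2
      linarith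
    have a2 : N * 1 ^ 2 - s ^ 2 ≤ N / 2 := by linarith
    have a3 : 0 ≤ N * 1 ^ 2 - t ^ 2 := by
      have h := abs_real_inner_le_norm m' y
      rw [hm', one_mul] at h
      have h' : t ^ 2 ≤ ‖y‖ ^ 2 := sq_le_sq' (by linarith [(abs_le.1 h).1]) (abs_le.1 h).2
      linarith
    have a4 : N * 1 ^ 2 - t ^ 2 ≤ N / 2 := by
      have : (-t) ^ 2 = t ^ 2 := by ring
      linarith
    calc (N * 1 ^ 2 - s ^ 2) * (N * 1 ^ 2 - t ^ 2) ≤ N / 2 * (N / 2) :=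
          mul_le_mul a2 a4 a3 (by positivity)
      _ = (N / 2) ^ 2 := by ring
  have h4 : N * c - s * t ≤ N / 2 := (abs_le_of_sq_le_sq' h3 (by positivity)).2
  have h5 : N / 2 ≤ s * (-t) := by
    refine (abs_le_of_sq_le_sq' ?_ (by positivity)).2
    have b1 : N / 2 ≤ s ^ 2 := by linarith
    have b2 : N / 2 ≤ (-t) ^ 2 := by linarith
    calc (N / 2) ^ 2 = N / 2 * (N / 2) := by ring
      _ ≤ s ^ 2 * (-t) ^ 2 := mul_le_mul b1 b2 (by positivity) (by positivity)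
      _ = (s * (-t)) ^ 2 := by ring
  have h6 : N * c ≤ 0 := by nlinarith
  have h7 : c ≤ 0 := by
    by_contra h
    push Not at h
    have := mul_pos hN0 h
    linarith
  have h22 : √2 * √2 = 2 := Real.mul_self_sqrt (by norm_num)
  calc √2 * (√2 * c) = 2 * c := by rw [← mul_assoc, h22]
    _ ≤ 0 := by linarith

end Pool.Agent.Lib.FOLD
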