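import Pool.Agent.Lib.FOLD.Pro

/-!
# FOLD.KC: a convex body that lies locally in a round cone lies in it (1.2 h)
PROOF. Let `K = {y | ‖y‖ ≤ √2⟪m,y⟫}`, a closed convex cone with `K ∩ -K = {0}`. Suppose `z ∈ Q`, `z - a ∉ K`. As `Q = closure (interior Q)` and the complement of `a + K` is open we may take `z ∈ interior Q`. Separate: a vector `h` with `⟪h, z - a⟫ > 0` and `⟪h, y⟫ ≤ 0` for all `y ∈ K` (closed convex cone, Hahn-Banach).
Let `H = {w | ⟪h, w - a⟫ > 0}`. No point of `frontier Q` with `dist w a < η` is in `H`. `U = H ∩ ball a η` is convex, so connected; it contains `z_t = a + t(z - a) ∈ interior Q` for small `t > 0` (`a ∈ Q`, `z ∈ interior Q`). `U` does not meet `frontier Q`, so `U ⊆ interior Q`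
(`IsPreconnected.subset_left_of_subset_union` or `inter_frontier_nonempty`). Let `g ≠ 0` be a supporting normal at `a` (`exists_normal`): `⟪g, w - a⟫ ≤ 0` on `Q ⊇ U`. For `w ∈ closure U`, in particular for `w = a + e` with `⟪h,e⟫ = 0`, `‖e‖ < η`, `w ∈ Q`: both `a + e` and `a - e` are in `Q`, so `⟪g, e⟫ = 0`, so `a ± e ∈ frontier Q` (the normal `g ≠ 0`
supports `Q` there too). Hence `e ∈ K` and `-e ∈ K` for every small `e ⟂ h`; choose `e ≠ 0` (dimension `3`): contradiction.
-/

set_option autoImplicit false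

open MeasureTheory Set Filter Topology Metric
open scoped MeasureTheory ENNReal

namespace Pool.Agent.Lib.FOLD

namespace KCAux

/-- the separating vector of a point outside the round cone -/
theorem exists_sep {m y : E3} (hy : ¬ ‖y‖ ≤ √2 * inner ℝ m y) :
    ∃ h : E3, 0 < (inner ℝ h y : ℝ) ∧ ∀ k : E3, ‖k‖ ≤ √2 * inner ℝ m k → (inner ℝ h k : ℝ) ≤ 0 := by
  have hcl : IsClosed {k : E3 | ‖k‖ ≤ √2 * inner ℝ m k} :=
    isClosed_le (by fun_prop) (by fun_prop)
  have hcv : Convex ℝ {k : E3 | ‖k‖ ≤ √2 * inner ℝ m k} := by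
    intro u hu v hv s t hs ht _
    have hu' : ‖u‖ ≤ √2 * inner ℝ m u := hu
    have hv' : ‖v‖ ≤ √2 * inner ℝ m v := hv
    change ‖s • u + t • v‖ ≤ √2 * inner ℝ m (s • u + t • v)
    rw [inner_add_right, inner_smul_right, inner_smul_right]
    have h1 := norm_add_le (s • u) (t • v)
    rw [norm_smul, norm_smul, Real.norm_of_nonneg hs, Real.norm_of_nonneg ht] at h1
    have h2 := mul_le_mul_of_nonneg_left hu' hs
    have h3 := mul_le_mul_of_nonneg_left hv' ht
    linarith
  have h0 : (0 : E3) ∈ {k : E3 | ‖k‖ ≤ √2 * inner ℝ m k} := by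
    change ‖(0 : E3)‖ ≤ √2 * inner ℝ m 0
    rw [norm_zero, inner_zero_right, mul_zero]
  obtain ⟨π, -, hπ, -, hin⟩ := exists_proj hcl hcv ⟨0, h0⟩
  have hp : ‖π y‖ ≤ √2 * inner ℝ m (π y) := hπ y
  have hp2 : (2 : ℝ) • π y ∈ {k : E3 | ‖k‖ ≤ √2 * inner ℝ m k} := by
    change ‖(2 : ℝ) • π y‖ ≤ √2 * inner ℝ m ((2 : ℝ) • π y)
    rw [norm_smul, inner_smul_right, Real.norm_of_nonneg (by norm_num)]
    linarith
  have h1 := hin y 0 h0
  have h2 := hin y _ hp2
  rw [zero_sub, inner_neg_right] at h1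
  rw [inner_sub_right, inner_smul_right] at h2
  have h3 : (inner ℝ (y - π y) (π y) : ℝ) = 0 := by linarith
  refine ⟨y - π y, ?_, fun k hk => ?_⟩
  · have h4 : (inner ℝ (y - π y) y : ℝ) = inner ℝ (y - π y) (y - π y) := by
      rw [inner_sub_right (y - π y) y (π y), h3, sub_zero]
    rw [h4]
    refine lt_of_le_of_ne real_inner_self_nonneg fun h5 => hy ?_
    have h6 : y - π y = 0 := inner_self_eq_zero.1 h5.symm
    rw [sub_eq_zero.1 h6]
    exact hp
  · have h4 := hin y k hk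
    rw [inner_sub_right, h3, sub_zero] at h4
    exact h4

/-- a small nonzero vector orthogonal to a given one -/
theorem exists_orth (h : E3) {η : ℝ} (hη : 0 < η) :
    ∃ e : E3, e ≠ 0 ∧ (inner ℝ h e : ℝ) = 0 ∧ ‖e‖ < η := by
  have h1 : ∃ e : E3, e ≠ 0 ∧ (inner ℝ h e : ℝ) = 0 := by
    have hne : (ℝ ∙ h)ᗮ ≠ ⊥ := by
      intro hb
      have h2 := Submodule.finrank_add_finrank_orthogonal (ℝ ∙ h)
      rw [hb, finrank_bot, add_zero] at h2
      have h3 : Module.finrank ℝ (ℝ ∙ h) ≤ 1 :=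
        (finrank_span_le_card ({h} : Set E3)).trans (by simp)
      have h4 : Module.finrank ℝ E3 = 3 := by simp
      omega
    obtain ⟨e, he, he0⟩ := Submodule.exists_mem_ne_zero_of_ne_bot hne
    exact ⟨e, he0, Submodule.mem_orthogonal_singleton_iff_inner_right.1 he⟩
  obtain ⟨e, he, he2⟩ := h1
  have hn : 0 < ‖e‖ := norm_pos_iff.2 he
  refine ⟨(η / 2 / ‖e‖) • e, smul_ne_zero (by positivity) he, ?_, ?_⟩
  · rw [inner_smul_right, he2, mul_zero]
  · rw [norm_smul, Real.norm_of_nonneg (by positivity), div_mul_cancel₀ _ hn.ne']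
    linarith

end KCAux

open KCAux in
theorem cone_of_local {Q : Set E3} (hQ : IsCompact Q) (hc : Convex ℝ Q) (hi : (interior Q).Nonempty)
    {a m : E3} (ha : a ∈ frontier Q) (hm : ‖m‖ = 1) {η : ℝ} (hη : 0 < η)
    (h : ∀ w ∈ frontier Q, dist w a < η → ‖w - a‖ ≤ √2 * inner ℝ m (w - a)) :
    ∀ z ∈ Q, ‖z - a‖ ≤ √2 * inner ℝ m (z - a) := by
  intro z1 hz1
  by_contra hcon
  have haQ : a ∈ Q := hQ.isClosed.frontier_subset ha
  -- a point of the interior outside the cone
  obtain ⟨z, hz, hzK⟩ : ∃ z ∈ interior Q, ¬ ‖z - a‖ ≤ √2 * inner ℝ m (z - a) := by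
    have hop : IsOpen {w : E3 | √2 * inner ℝ m (w - a) < ‖w - a‖} :=
      isOpen_lt (by fun_prop) (by fun_prop)
    have hcl : z1 ∈ closure (interior Q) := by
      rw [hc.closure_interior_eq_closure_of_nonempty_interior hi]
      exact subset_closure hz1
    obtain ⟨w, hw1, hw2⟩ := mem_closure_iff.1 hcl _ hop (not_le.1 hcon)
    exact ⟨w, hw2, not_le.2 hw1⟩
  obtain ⟨g', hg'1, hg'2⟩ := exists_sep hzK
  set U : Set E3 := {w | 0 < (inner ℝ g' (w - a) : ℝ)} ∩ ball a η with hU
  have hUc : Convex ℝ U := by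
    refine Convex.inter ?_ (convex_ball a η)
    intro u hu v hv s t hs ht hst
    have hu' : 0 < (inner ℝ g' (u - a) : ℝ) := hu
    have hv' : 0 < (inner ℝ g' (v - a) : ℝ) := hv
    change 0 < (inner ℝ g' (s • u + t • v - a) : ℝ)
    have h1 : s • u + t • v - a = s • (u - a) + t • (v - a) := by
      have h2 : a = (s + t) • a := by rw [hst, one_smul]
      conv_lhs => rw [h2]
      rw [add_smul, smul_sub, smul_sub]
      abel
    rw [h1, inner_add_right, inner_smul_right, inner_smul_right]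
    rcases eq_or_lt_of_le hs with h2 | h2
    · have h3 : t = 1 := by linarith
      rw [← h2, h3]
      linarith
    · have h3 := mul_pos h2 hu'
      have h4 := mul_nonneg ht hv'.le
      linarith
  have hUf : ∀ w ∈ U, w ∉ frontier Q := by
    rintro w ⟨hw1, hw2⟩ hw3
    have h1 : 0 < (inner ℝ g' (w - a) : ℝ) := hw1
    exact absurd (hg'2 _ (h w hw3 hw2)) (not_le.2 h1)
  -- a point of U in Q
  obtain ⟨u0, hu0, hu0Q⟩ : ∃ u ∈ U, u ∈ interior Q := by
    obtain ⟨t, ht0, ht1, ht2⟩ : ∃ t : ℝ, 0 < t ∧ t ≤ 1 ∧ t * ‖z - a‖ < η := by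
      refine ⟨min 1 (η / 2 / (‖z - a‖ + 1)), lt_min one_pos (by positivity), min_le_left _ _, ?_⟩
      calc min 1 (η / 2 / (‖z - a‖ + 1)) * ‖z - a‖ ≤ (η / 2 / (‖z - a‖ + 1)) * ‖z - a‖ :=
            mul_le_mul_of_nonneg_right (min_le_right _ _) (norm_nonneg _)
        _ ≤ (η / 2 / (‖z - a‖ + 1)) * (‖z - a‖ + 1) :=
            mul_le_mul_of_nonneg_left (by linarith) (by positivity)
        _ = η / 2 := div_mul_cancel₀ _ (by positivity)
        _ < η := by linarith
    refine ⟨a + t • (z - a), ⟨?_, ?_⟩, ?_⟩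
    · change 0 < (inner ℝ g' (a + t • (z - a) - a) : ℝ)
      rw [add_sub_cancel_left, inner_smul_right]
      exact mul_pos ht0 hg'1
    · rw [mem_ball, dist_eq_norm, add_sub_cancel_left, norm_smul, Real.norm_of_nonneg ht0.le]
      exact ht2
    · exact hc.add_smul_sub_mem_interior haQ hz ⟨ht0, ht1⟩
  have hUQ : U ⊆ Q := by
    intro w hw
    by_contra hwQ
    have hcov : U ⊆ interior Q ∪ Qᶜ := by
      intro v hv
      by_cases hvQ : v ∈ Q
      · by_cases hvi : v ∈ interior Q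
        · exact Or.inl hvi
        · refine absurd ?_ (hUf v hv)
          rw [hQ.isClosed.frontier_eq]
          exact ⟨hvQ, hvi⟩
      · exact Or.inr hvQ
    obtain ⟨v, -, hv1, hv2⟩ := hUc.isPreconnected _ _ isOpen_interior hQ.isClosed.isOpen_compl
      hcov ⟨u0, hu0, hu0Q⟩ ⟨w, hw, hwQ⟩
    exact hv2 (interior_subset hv1)
  -- small vectors orthogonal to g'
  obtain ⟨e, he0, he1, he2⟩ := exists_orth g' hη
  obtain ⟨g, hg1, hg2⟩ := exists_normal hQ.isClosed hc ha
  have hgne : 0 < (inner ℝ g' g' : ℝ) := by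
    refine lt_of_le_of_ne real_inner_self_nonneg fun h5 => ?_
    rw [inner_self_eq_zero.1 h5.symm, inner_zero_left] at hg'1
    exact lt_irrefl _ hg'1
  have hmem : ∀ v : E3, (inner ℝ g' v : ℝ) = 0 → ‖v‖ < η → a + v ∈ Q := by
    intro v hv1 hv2
    have hcl : Tendsto (fun s : ℝ => a + v + s • g') (𝓝[>] 0) (𝓝 (a + v)) := by
      have hcont : Continuous fun s : ℝ => a + v + s • g' := by fun_prop
      have h3 := hcont.tendsto 0
      rw [zero_smul, add_zero] at h3
      exact h3.mono_left nhdsWithin_le_nhds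
    have hball : ∀ᶠ s : ℝ in 𝓝[>] 0, a + v + s • g' ∈ ball a η := by
      refine hcl.eventually (isOpen_ball.mem_nhds ?_)
      rw [mem_ball, dist_eq_norm, add_sub_cancel_left]
      exact hv2
    refine hQ.isClosed.mem_of_tendsto hcl ?_
    filter_upwards [hball, self_mem_nhdsWithin] with s hs1 hs2
    refine hUQ ⟨?_, hs1⟩
    change 0 < (inner ℝ g' (a + v + s • g' - a) : ℝ)
    have h4 : a + v + s • g' - a = v + s • g' := by abel
    rw [h4, inner_add_right, hv1, inner_smul_right, zero_add]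
    exact mul_pos hs2 hgne
  have hmem1 := hmem e he1 he2
  have hmem2 := hmem (-e) (by rw [inner_neg_right, he1, neg_zero]) (by rwa [norm_neg])
  have hge : (inner ℝ g e : ℝ) = 0 := by
    have h1 := hg2 _ hmem1
    have h2 := hg2 _ hmem2
    rw [add_sub_cancel_left] at h1 h2
    rw [inner_neg_right] at h2
    linarith
  have hfr : ∀ v : E3, (inner ℝ g v : ℝ) = 0 → a + v ∈ Q → a + v ∈ frontier Q := by
    intro v hv hvQ
    rw [hQ.isClosed.frontier_eq]
    refine ⟨hvQ, fun hint => ?_⟩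
    have hcl : Tendsto (fun s : ℝ => a + v + s • g) (𝓝[>] 0) (𝓝 (a + v)) := by
      have hcont : Continuous fun s : ℝ => a + v + s • g := by fun_prop
      have h3 := hcont.tendsto 0
      rw [zero_smul, add_zero] at h3
      exact h3.mono_left nhdsWithin_le_nhds
    have hev := (hcl.eventually (isOpen_interior.mem_nhds hint)).and
      (self_mem_nhdsWithin : Ioi (0 : ℝ) ∈ 𝓝[>] (0 : ℝ))
    obtain ⟨s, hs1, hs2⟩ := hev.exists
    have h4 := hg2 _ (interior_subset hs1)
    have h5 : a + v + s • g - a = v + s • g := by abel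
    rw [h5, inner_add_right, hv, inner_smul_right, zero_add, real_inner_self_eq_norm_mul_norm,
      hg1, mul_one, mul_one] at h4
    exact absurd h4 (not_le.2 hs2)
  have hf1 := h _ (hfr e hge hmem1) (by rwa [dist_eq_norm, add_sub_cancel_left])
  have hf2 := h _ (hfr (-e) (by rw [inner_neg_right, hge, neg_zero]) hmem2)
    (by rwa [dist_eq_norm, add_sub_cancel_left, norm_neg])
  rw [add_sub_cancel_left] at hf1 hf2
  rw [norm_neg, inner_neg_right] at hf2
  have hpos : 0 < ‖e‖ := norm_pos_iff.2 he0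
  linarith

end Pool.Agent.Lib.FOLD
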