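import Pool.Agent.Lib.FOLD.KA
import Pool.Agent.Lib.FOLD.KB
import Pool.Agent.Lib.FOLD.KC

/-!
# FOLD.KD: the polyhedron lies in a round cone with apex f(x) (1 h)
PROOF. `cone_x`: `sector` and `cone_vec` give `m` with `‖f p - v‖ ≤ √2 ⟪m, f p - v⟫` for `p ∈ C`, `dist p x < r` (`x = γ 0`, `v = f x`). On the compact set `C \ ball x r` the continuous function `dist (f p) v` is positive (`f p = f x` implies `p = x` or `p` glued to `x`, i.e. `p = γ 0` or `γ L = γ 0` by `inj`), so it is `≥ η > 0`. So every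
`w ∈ frontier Q = f '' C` with `dist w v < η` is `f p` with `dist p x < r`. `cone_of_local`. `fold_shift`: the parametrisation from `γ (L/2)`: `γ' = shiftg L γ`; `ArcParam`: `1`-Lipschitz on `[0, L/2]` and on `[L/2, L]` (continuous at `L/2` because `γ L = γ 0`), so on `[0,L]`; same image; injective on `[0,L)`; `Glued L γ' p q ↔ Glued L γ p q`
(for `s ≤ L/2` the pair is `γ (L/2 + s), γ (L/2 - s)`, for `s ≥ L/2` the pair `γ (s - L/2), γ (3L/2 - s)`). All other fields are the same. `cone_y`: `cone_x` for the shifted folding, `shiftg L γ 0 = γ (L/2)`.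
-/

set_option autoImplicit false

open MeasureTheory Set Filter Topology Metric
open scoped MeasureTheory ENNReal

namespace Pool.Agent.Lib.FOLD

variable {C : Set E2} {L : ℝ} {γ : ℝ → E2} {Q : Set E3}

/-- the boundary curve started at `γ (L / 2)` -/
noncomputable def shiftg (L : ℝ) (γ : ℝ → E2) (s : ℝ) : E2 :=
  if s ≤ L / 2 then γ (s + L / 2) else γ (s - L / 2)

namespace KDAux

theorem shiftg_le {L : ℝ} {γ : ℝ → E2} {s : ℝ} (h : s ≤ L / 2) :
    shiftg L γ s = γ (s + L / 2) := by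
  simp [shiftg, h]

theorem shiftg_ge {L : ℝ} {γ : ℝ → E2} (hc : γ L = γ 0) {s : ℝ} (h : L / 2 ≤ s) :
    shiftg L γ s = γ (s - L / 2) := by
  rcases eq_or_lt_of_le h with h1 | h1
  · subst h1
    rw [shiftg_le le_rfl]
    have e1 : L / 2 + L / 2 = L := by ring
    have e2 : L / 2 - L / 2 = 0 := by ring
    rw [e1, e2, hc]
  · simp [shiftg, not_le.2 h1]

theorem arc_shift {C : Set E2} {L : ℝ} {γ : ℝ → E2} (h : ArcParam C L γ) :
    ArcParam C L (shiftg L γ) := by
  have hL := h.pos
  have hlip := h.lip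
  rw [lipschitzOnWith_iff_dist_le_mul] at hlip
  have key : ∀ s ∈ Icc (0 : ℝ) L, ∀ t ∈ Icc (0 : ℝ) L, s ≤ t →
      dist (shiftg L γ s) (shiftg L γ t) ≤ t - s := by
    intro s hs t ht hst
    rcases le_total t (L / 2) with h1 | h1
    · rw [shiftg_le h1, shiftg_le (hst.trans h1)]
      have := hlip (s + L / 2) ⟨by linarith [hs.1], by linarith⟩ (t + L / 2)
        ⟨by linarith [ht.1], by linarith⟩
      rw [Real.dist_eq] at this
      have e : |s + L / 2 - (t + L / 2)| = t - s := by
        rw [abs_of_nonpos (by linarith)]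
        ring
      rw [e] at this
      simpa using this
    · rcases le_total s (L / 2) with h2 | h2
      · rw [shiftg_le h2, shiftg_ge h.closed h1]
        have a1 := hlip (s + L / 2) ⟨by linarith [hs.1], by linarith⟩ L ⟨hL.le, le_rfl⟩
        have a2 := hlip 0 ⟨le_rfl, hL.le⟩ (t - L / 2) ⟨by linarith, by linarith [ht.2]⟩
        rw [Real.dist_eq, abs_of_nonpos (by linarith)] at a1
        rw [Real.dist_eq, abs_of_nonpos (by linarith)] at a2
        rw [h.closed] at a1
        have a3 := dist_triangle (γ (s + L / 2)) (γ 0) (γ (t - L / 2))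
        simp only [NNReal.coe_one, one_mul] at a1 a2
        linarith
      · rw [shiftg_ge h.closed h1, shiftg_ge h.closed h2]
        have := hlip (s - L / 2) ⟨by linarith, by linarith [hs.2]⟩ (t - L / 2)
          ⟨by linarith, by linarith [ht.2]⟩
        rw [Real.dist_eq] at this
        have e : |s - L / 2 - (t - L / 2)| = t - s := by
          rw [abs_of_nonpos (by linarith)]
          ring
        rw [e] at this
        simpa using this
  refine ⟨hL, ?_, ?_, ?_, h.len⟩
  · rw [lipschitzOnWith_iff_dist_le_mul]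
    intro s hs t ht
    simp only [NNReal.coe_one, one_mul]
    rcases le_total s t with h1 | h1
    · rw [Real.dist_eq, abs_of_nonpos (by linarith)]
      have := key s hs t ht h1
      linarith
    · rw [dist_comm, Real.dist_eq, abs_of_nonneg (by linarith)]
      exact key t ht s hs h1
  · rw [shiftg_ge h.closed (by linarith), shiftg_le (by linarith)]
    congr 1
    ring
  · rw [← h.onto]
    ext p
    constructor
    · rintro ⟨s, hs, rfl⟩
      rcases le_total s (L / 2) with h2 | h2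
      · exact ⟨s + L / 2, ⟨by linarith [hs.1], by linarith⟩, (shiftg_le h2).symm⟩
      · exact ⟨s - L / 2, ⟨by linarith, by linarith [hs.2]⟩, (shiftg_ge h.closed h2).symm⟩
    · rintro ⟨s, hs, rfl⟩
      rcases le_total s (L / 2) with h2 | h2
      · refine ⟨s + L / 2, ⟨by linarith [hs.1], by linarith⟩, ?_⟩
        rw [shiftg_ge h.closed (by linarith [hs.1])]
        congr 1
        ring
      · refine ⟨s - L / 2, ⟨by linarith, by linarith [hs.2]⟩, ?_⟩
        rw [shiftg_le (by linarith [hs.2])]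
        congr 1
        ring

theorem inj_shift {C : Set E2} {L : ℝ} {γ : ℝ → E2} (h : ArcParam C L γ)
    (hi : InjOn γ (Ico 0 L)) : InjOn (shiftg L γ) (Ico 0 L) := by
  have hL := h.pos
  have key : ∀ s ∈ Ico (0 : ℝ) L, ∃ u ∈ Ico (0 : ℝ) L, shiftg L γ s = γ u ∧
      ((s < L / 2 ∧ u = s + L / 2) ∨ (L / 2 ≤ s ∧ u = s - L / 2)) := by
    intro s hs
    rcases lt_or_ge s (L / 2) with h2 | h2
    · exact ⟨s + L / 2, ⟨by linarith [hs.1], by linarith⟩, shiftg_le h2.le, Or.inl ⟨h2, rfl⟩⟩
    · exact ⟨s - L / 2, ⟨by linarith, by linarith [hs.2]⟩, shiftg_ge h.closed h2,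
        Or.inr ⟨h2, rfl⟩⟩
  intro s hs t ht hst
  obtain ⟨u, hu, e1, c1⟩ := key s hs
  obtain ⟨u', hu', e2, c2⟩ := key t ht
  rw [e1, e2] at hst
  have huu := hi hu hu' hst
  rcases c1 with ⟨a1, b1⟩ | ⟨a1, b1⟩ <;> rcases c2 with ⟨a2, b2⟩ | ⟨a2, b2⟩
  · linarith
  · exfalso
    linarith [hs.1, ht.2]
  · exfalso
    linarith [ht.1, hs.2]
  · linarith

theorem glued_shift {C : Set E2} {L : ℝ} {γ : ℝ → E2} (h : ArcParam C L γ) (p q : E2) :
    Glued L (shiftg L γ) p q ↔ Glued L γ p q := by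
  have hL := h.pos
  constructor
  · rintro ⟨s, hs, hp, hq⟩
    rcases le_total s (L / 2) with h2 | h2
    · refine ⟨L / 2 + s, ⟨by linarith [hs.1], by linarith⟩, ?_, ?_⟩
      · rw [hp, shiftg_le h2]
        congr 1
        ring
      · rw [hq, shiftg_ge h.closed (by linarith)]
        congr 1
        ring
    · refine ⟨s - L / 2, ⟨by linarith, by linarith [hs.2]⟩, ?_, ?_⟩
      · rw [hp, shiftg_ge h.closed h2]
      · rw [hq, shiftg_le (by linarith)]
        congr 1
        ring
  · rintro ⟨s, hs, hp, hq⟩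
    rcases le_total s (L / 2) with h2 | h2
    · refine ⟨s + L / 2, ⟨by linarith [hs.1], by linarith⟩, ?_, ?_⟩
      · rw [hp, shiftg_ge h.closed (by linarith [hs.1])]
        congr 1
        ring
      · rw [hq, shiftg_le (by linarith [hs.1])]
        congr 1
        ring
    · refine ⟨s - L / 2, ⟨by linarith, by linarith [hs.2]⟩, ?_, ?_⟩
      · rw [hp, shiftg_le (by linarith [hs.2])]
        congr 1
        ring
      · rw [hq, shiftg_ge h.closed (by linarith [hs.2])]
        congr 1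
        ring

theorem eq_base (F : Fold C L γ Q) {s : ℝ} (hs : s ∈ Icc (0 : ℝ) L) (h : γ s = γ 0) :
    s = 0 ∨ s = L := by
  rcases eq_or_lt_of_le hs.2 with h1 | h1
  · exact Or.inr h1
  · exact Or.inl (F.inj ⟨hs.1, h1⟩ ⟨le_rfl, F.arc.pos⟩ h)

theorem base_mem (F : Fold C L γ Q) {s : ℝ} (hs : s ∈ Icc (0 : ℝ) L) : γ s ∈ C := by
  have h : γ s ∈ frontier C := F.arc.onto ▸ mem_image_of_mem γ hs
  exact F.region.cpt.isClosed.frontier_subset h

end KDAux

open KDAux

theorem cone_x (F : Fold C L γ Q) : ∃ m : E3, ‖m‖ = 1 ∧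
    ∀ z ∈ Q, ‖z - F.f (γ 0)‖ ≤ √2 * inner ℝ m (z - F.f (γ 0)) := by
  have hL := F.arc.pos
  have hx : γ 0 ∈ C := base_mem F ⟨le_rfl, hL.le⟩
  obtain ⟨r, ρ0, ρ1, hr, h0, h1, h01, hsec⟩ := sector F
  obtain ⟨m, hm, hcone⟩ := cone_vec h0 h1 h01
  refine ⟨m, hm, ?_⟩
  have hv : F.f (γ 0) ∈ frontier Q := F.onto ▸ mem_image_of_mem F.f hx
  have hK : IsCompact (C ∩ (ball (γ 0) r)ᶜ) := F.region.cpt.inter_right isOpen_ball.isClosed_compl
  have hcont : ContinuousOn (fun p => dist (F.f p) (F.f (γ 0))) (C ∩ (ball (γ 0) r)ᶜ) :=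
    continuous_dist.comp_continuousOn
      (((f_lip F).continuousOn.mono inter_subset_left).prodMk continuousOn_const)
  have hpos : ∀ p ∈ C ∩ (ball (γ 0) r)ᶜ, 0 < dist (F.f p) (F.f (γ 0)) := by
    intro p hp
    rw [dist_pos]
    intro he
    have hpx : p ≠ γ 0 := by
      intro h
      apply hp.2
      rw [h]
      exact mem_ball_self hr
    rcases (F.glue p hp.1 (γ 0) hx).1 he with h | ⟨s, hs, hps, hqs⟩
    · exact hpx h
    · have hs' : L - s ∈ Icc (0 : ℝ) L := ⟨by linarith [hs.2], by linarith [hs.1]⟩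
      rcases eq_base F hs' hqs.symm with h | h
      · have e : s = L := by linarith
        rw [e, F.arc.closed] at hps
        exact hpx hps
      · have e : s = 0 := by linarith
        rw [e] at hps
        exact hpx hps
  obtain ⟨η, hη, hmin⟩ := hK.exists_forall_le' hcont hpos
  refine cone_of_local F.cpt F.cvx F.int hv hm hη ?_
  intro w hw hwd
  rw [← F.onto] at hw
  obtain ⟨p, hp, rfl⟩ := hw
  have hpr : dist p (γ 0) < r := by
    by_contra hcon
    have := hmin p ⟨hp, fun hb => hcon (mem_ball.1 hb)⟩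
    linarith
  obtain ⟨a1, a2, a3⟩ := hsec p hp hpr
  exact hcone _ a1 a2 a3

theorem fold_shift (F : Fold C L γ Q) : ∃ F' : Fold C L (shiftg L γ) Q, F'.f = F.f := by
  refine ⟨{ n := F.n, V := F.V, A := F.A, f := F.f, region := F.region, arc := arc_shift F.arc, inj := inj_shift F.arc F.inj, cpt := F.cpt, cvx := F.cvx, int := F.int, indep := F.indep, cover := F.cover, disj := F.disj, rigid := F.rigid, onto := F.onto, glue := ?_, edge := F.edge }, rfl⟩
  intro p hp q hq
  rw [F.glue p hp q hq, glued_shift F.arc]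

theorem cone_y (F : Fold C L γ Q) : ∃ m : E3, ‖m‖ = 1 ∧
    ∀ z ∈ Q, ‖z - F.f (γ (L / 2))‖ ≤ √2 * inner ℝ m (z - F.f (γ (L / 2))) := by
  obtain ⟨F', hF'⟩ := fold_shift F
  obtain ⟨m, hm, h⟩ := cone_x F'
  refine ⟨m, hm, ?_⟩
  have hL := F.arc.pos
  rw [hF', shiftg_le (by linarith : (0 : ℝ) ≤ L / 2), zero_add] at h
  exact h

theorem fx_ne_fy (F : Fold C L γ Q) : F.f (γ 0) ≠ F.f (γ (L / 2)) := by
  intro he
  have hL := F.arc.pos
  have hx : γ 0 ∈ C := base_mem F ⟨le_rfl, hL.le⟩
  have hy : γ (L / 2) ∈ C := base_mem F ⟨by linarith, by linarith⟩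
  have hne : γ (L / 2) ≠ γ 0 := by
    intro h
    rcases eq_base F ⟨by linarith, by linarith⟩ h with h1 | h1 <;> linarith
  rcases (F.glue _ hx _ hy).1 he with h | ⟨s, hs, hps, hqs⟩
  · exact hne h.symm
  · rcases eq_base F hs hps.symm with h | h
    · rw [h, sub_zero, F.arc.closed] at hqs
      exact hne hqs
    · rw [h, sub_self] at hqs
      exact hne hqs

end Pool.Agent.Lib.FOLD
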