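import Pool.Agent.Lib.FOLD.Pro

/-!
# FOLD.KF: face normals (1 h)
PROOF. Let `p0` be an interior point of the triangle `k` (nonempty interior by `indep`). `f p0 ∈ frontier Q`; `exists_normal` gives a unit vector `n` with `⟪n, z - f p0⟫ ≤ 0` on `Q`. On the triangle `p ↦ ⟪n, f p⟫ = ⟪n, A k p⟫` is affine with a maximum at the interior point `p0`, so it is constant: `n` is orthogonal to the range of `(A k).linear`
(2-dimensional). (1) follows. (2): the same for any other `p ∈ interior` and `g`: `g` is orthogonal to the range of `(A k).linear`, whose orthogonal complement has dimension `1`, so `g = s n`; take `z0 ∈ interior Q`: `⟪n, z0 - f p⟫ < 0` (a nonzero functional has no maximum at an interior point) and `⟪g, z0 - f p⟫ ≤ 0` give `s ≥ 0`.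
-/

set_option autoImplicit false

open MeasureTheory Set Filter Topology Metric
open scoped MeasureTheory ENNReal

namespace Pool.Agent.Lib.FOLD

variable {C : Set E2} {L : ℝ} {γ : ℝ → E2} {Q : Set E3}

/-- `n` is the outer unit normal of the face that contains the image of the triangle `k` -/
structure FNormal (F : Fold C L γ Q) (k : Fin F.n) (n : E3) : Prop where
  norm : ‖n‖ = 1
  orth : ∀ w : E2, inner ℝ n ((F.A k).linear w) = 0
  supp : ∀ z ∈ Q, ∀ p ∈ tri (F.V k), inner ℝ n z ≤ inner ℝ n (F.f p)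
  uniq : ∀ p ∈ interior (tri (F.V k)), ∀ g : E3, (∀ z ∈ Q, inner ℝ g (z - F.f p) ≤ 0) →
    ∃ s : ℝ, 0 ≤ s ∧ g = s • n

private theorem tri_subset (F : Fold C L γ Q) (k : Fin F.n) : tri (F.V k) ⊆ C :=
  (subset_iUnion (fun k => tri (F.V k)) k).trans F.cover.subset

private theorem map_mem (F : Fold C L γ Q) (k : Fin F.n) {p : E2} (hp : p ∈ tri (F.V k)) :
    F.f p ∈ frontier Q :=
  F.onto.subset (mem_image_of_mem _ (tri_subset F k hp))

private theorem map_memQ (F : Fold C L γ Q) (k : Fin F.n) {p : E2} (hp : p ∈ tri (F.V k)) :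
    F.f p ∈ Q := F.cpt.isClosed.frontier_subset (map_mem F k hp)

private theorem map_eq (F : Fold C L γ Q) (k : Fin F.n) {p q : E2} (hp : p ∈ tri (F.V k))
    (hq : q ∈ tri (F.V k)) : F.f q = F.f p + (F.A k).linear (q - p) := by
  rw [F.rigid k p hp, F.rigid k q hq]
  have h := (F.A k).toAffineMap.linearMap_vsub q p
  simp only [vsub_eq_sub] at h
  change F.A k q = F.A k p + (F.A k).toAffineMap.linear (q - p)
  rw [h]
  simp

private theorem orth_aux (F : Fold C L γ Q) (k : Fin F.n) {p : E2}
    (hp : p ∈ interior (tri (F.V k))) {g : E3} (hg : ∀ z ∈ Q, inner ℝ g (z - F.f p) ≤ 0)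
    (w : E2) : inner ℝ g ((F.A k).linear w) = 0 := by
  have key : ∀ w : E2, inner ℝ g ((F.A k).linear w) ≤ 0 := by
    intro w
    have h1 : Tendsto (fun t : ℝ => p + t • w) (𝓝[>] 0) (𝓝 p) := by
      have : Tendsto (fun t : ℝ => p + t • w) (𝓝 0) (𝓝 (p + (0 : ℝ) • w)) :=
        (Continuous.tendsto (by fun_prop) 0)
      rw [zero_smul, add_zero] at this
      exact this.mono_left nhdsWithin_le_nhds
    have h2 := h1.eventually (isOpen_interior.mem_nhds hp)
    obtain ⟨t, ht1, ht0⟩ := (h2.and self_mem_nhdsWithin).exists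
    have ht0' : (0 : ℝ) < t := ht0
    have hq : p + t • w ∈ tri (F.V k) := interior_subset ht1
    have h3 := hg _ (map_memQ F k hq)
    rw [map_eq F k (interior_subset hp) hq] at h3
    simp only [add_sub_cancel_left, map_smul, inner_smul_right] at h3
    nlinarith
  have h1 := key w
  have h2 := key (-w)
  rw [map_neg, inner_neg_right] at h2
  linarith

theorem face_normal (F : Fold C L γ Q) (k : Fin F.n) : ∃ n : E3, FNormal F k n := by
  have hne : (interior (tri (F.V k))).Nonempty := by
    unfold tri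
    rw [interior_convexHull_nonempty_iff_affineSpan_eq_top,
      (F.indep k).affineSpan_eq_top_iff_card_eq_finrank_add_one]
    simp
  obtain ⟨p0, hp0⟩ := hne
  obtain ⟨n, hn1, hn2⟩ := exists_normal F.cpt.isClosed F.cvx (map_mem F k (interior_subset hp0))
  have horth := orth_aux F k hp0 hn2
  have hval : ∀ p ∈ tri (F.V k), inner ℝ n (F.f p) = inner ℝ n (F.f p0) := by
    intro p hp
    rw [map_eq F k (interior_subset hp0) hp, inner_add_right, horth, add_zero]
  have hsupp : ∀ z ∈ Q, ∀ p ∈ tri (F.V k), inner ℝ n z ≤ inner ℝ n (F.f p) := by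
    intro z hz p hp
    rw [hval p hp]
    have := hn2 z hz
    rw [inner_sub_right] at this
    linarith
  refine ⟨n, hn1, horth, hsupp, ?_⟩
  intro p hp g hg
  have hgo := orth_aux F k hp hg
  have hn0 : n ≠ 0 := by
    intro h
    rw [h, norm_zero] at hn1
    exact zero_ne_one hn1
  set K : Submodule ℝ E3 := LinearMap.range (F.A k).linear with hK
  have hinj : Function.Injective (F.A k).linear := by
    have := (F.A k).linearIsometry.injective
    exact this
  have hfin : Module.finrank ℝ K = 2 := by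
    rw [hK, LinearMap.finrank_range_of_inj hinj]
    simp
  have hfin2 : Module.finrank ℝ Kᗮ = 1 := by
    have h := Submodule.finrank_add_finrank_orthogonal K
    rw [hfin] at h
    have h3 : Module.finrank ℝ E3 = 3 := by simp
    rw [h3] at h
    omega
  have hnK : n ∈ Kᗮ := by
    rw [Submodule.mem_orthogonal']
    rintro _ ⟨w, rfl⟩
    exact horth w
  have hgK : g ∈ Kᗮ := by
    rw [Submodule.mem_orthogonal']
    rintro _ ⟨w, rfl⟩
    exact hgo w
  have hnK0 : (⟨n, hnK⟩ : Kᗮ) ≠ 0 := by
    intro h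
    exact hn0 (congrArg Subtype.val h)
  obtain ⟨s, hs⟩ := (finrank_eq_one_iff_of_nonzero' (⟨n, hnK⟩ : Kᗮ) hnK0).1 hfin2 ⟨g, hgK⟩
  have hs' : g = s • n := (congrArg Subtype.val hs).symm
  refine ⟨s, ?_, hs'⟩
  obtain ⟨z0, hz0⟩ := F.int
  have hstrict : inner ℝ n (z0 - F.f p) < 0 := by
    have h1 : Tendsto (fun t : ℝ => z0 + t • n) (𝓝[>] 0) (𝓝 z0) := by
      have : Tendsto (fun t : ℝ => z0 + t • n) (𝓝 0) (𝓝 (z0 + (0 : ℝ) • n)) :=
        (Continuous.tendsto (by fun_prop) 0)
      rw [zero_smul, add_zero] at this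
      exact this.mono_left nhdsWithin_le_nhds
    have h2 := h1.eventually (isOpen_interior.mem_nhds hz0)
    obtain ⟨t, ht1, ht0⟩ := (h2.and self_mem_nhdsWithin).exists
    have ht0' : (0 : ℝ) < t := ht0
    have h3 := hsupp _ (interior_subset ht1) p (interior_subset hp)
    rw [inner_add_right, inner_smul_right, real_inner_self_eq_norm_sq, hn1] at h3
    rw [inner_sub_right]
    linarith
  have h4 := hg z0 (interior_subset hz0)
  rw [hs', inner_smul_left] at h4
  simp only [conj_trivial] at h4
  by_contra hlt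
  push Not at hlt
  nlinarith

end Pool.Agent.Lib.FOLD
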