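import Pool.Agent.Lib.FOLD.Defs

/-!
# FOLD.KG1: volumes of prisms and of neighbourhoods of segments (1.2 h)
PROOF. `prism_vol`: the map `E2 × ℝ → E3`, `(p, s) ↦ A p + s n` composed with the measure preserving identification `E3 ≃ E2 × ℝ` (first two coordinates, last coordinate; or an orthonormal basis of `E3` adapted to `A.linear e0, A.linear e1, n`: `OrthonormalBasis.measurePreserving_repr`) is a translate of a linear isometry, so the volume of the
image of `T ×ˢ Icc 0 t` is `volume T * t` (only `≤` is needed). `seg_thick`: after an isometry the segment is `[0, l] e0`; its closed `δ`-neighbourhood is contained in the box `[-δ, l+δ] × [-δ,δ]²` of volume `(l + 2δ) 4 δ²` `≤ 4 (l + 4) δ²` for `δ ≤ 2`. (Or cover by balls of radius `2δ` with centres on the segment at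
distance `δ`: at most `l/δ + 2` balls of volume `≤ 8·5 δ³`.)
-/

set_option autoImplicit false

open MeasureTheory Set Filter Topology Metric
open scoped MeasureTheory ENNReal

namespace Pool.Agent.Lib.FOLD

namespace KG1Aux

/-- splitting off the first coordinate -/
theorem mp_split : MeasurePreserving (fun x : E3 =>
    ((x 0, WithLp.toLp 2 (fun j : Fin 2 => x j.succ)) : ℝ × E2)) volume volume := by
  have h1 := PiLp.volume_preserving_ofLp (Fin 3)
  have h2 := volume_preserving_piFinSuccAbove (fun _ : Fin 3 => ℝ) 0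
  have h3 := (MeasurePreserving.id (volume : Measure ℝ)).prod (PiLp.volume_preserving_toLp (Fin 2))
  exact h3.comp (h2.comp h1)

end KG1Aux

theorem prism_vol (A : E2 →ᵃⁱ[ℝ] E3) {n : E3} (hn : ‖n‖ = 1) (ho : ∀ w : E2, inner ℝ n (A.linear w) = 0)
    {T : Set E2} (hT : IsCompact T) {t : ℝ} (ht : 0 ≤ t) :
    volume {z : E3 | ∃ p ∈ T, ∃ s ∈ Icc (0 : ℝ) t, z = A p + s • n} ≤ ENNReal.ofReal t * volume T := by
  set v : Fin 3 → E3 := ![n, A.linearIsometry (EuclideanSpace.single 0 1),
    A.linearIsometry (EuclideanSpace.single 1 1)] with hv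
  have ho' : ∀ w : E2, inner ℝ n (A.linearIsometry w) = 0 := ho
  have hon : Orthonormal ℝ v := by
    rw [orthonormal_iff_ite]
    intro i j
    fin_cases i <;> fin_cases j <;>
      simp [hv, ho', hn, real_inner_comm n, LinearIsometry.inner_map_map,
        EuclideanSpace.inner_single_left]
  have hcard : Fintype.card (Fin 3) = Module.finrank ℝ E3 := by simp
  set b := (basisOfOrthonormalOfCardEqFinrank hon hcard).toOrthonormalBasis (by simpa using hon) with hb
  have hbv : ∀ i, b i = v i := by
    intro i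
    rw [hb]
    simp
  have hmp : MeasurePreserving (fun z : E3 =>
      (((b.repr (z + -(A 0))) 0, WithLp.toLp 2 (fun j : Fin 2 => (b.repr (z + -(A 0))) j.succ)) :
        ℝ × E2)) volume volume := by
    have h1 := measurePreserving_add_right (volume : Measure E3) (-(A 0))
    have h2 := b.measurePreserving_repr
    exact KG1Aux.mp_split.comp (h2.comp h1)
  have hA : ∀ p : E2, A p = A.linearIsometry p + A 0 := by
    intro p
    have := A.map_vadd (0 : E2) p
    simpa using this
  have hsub : {z : E3 | ∃ p ∈ T, ∃ s ∈ Icc (0 : ℝ) t, z = A p + s • n} ⊆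
      (fun z : E3 => (((b.repr (z + -(A 0))) 0,
        WithLp.toLp 2 (fun j : Fin 2 => (b.repr (z + -(A 0))) j.succ)) : ℝ × E2)) ⁻¹'
          (Icc (0 : ℝ) t ×ˢ T) := by
    rintro z ⟨p, hp, s, hs, rfl⟩
    have e1 : A p + s • n + -(A 0) = A.linearIsometry p + s • n := by
      rw [hA p]
      abel
    have r0 : (b.repr (A p + s • n + -(A 0))) 0 = s := by
      rw [e1, b.repr_apply_apply, hbv]
      show inner ℝ n (A.linearIsometry p + s • n) = s
      rw [inner_add_right, ho', inner_smul_right, real_inner_self_eq_norm_sq, hn]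
      ring
    have r1 : ∀ j : Fin 2, (b.repr (A p + s • n + -(A 0))) j.succ = p j := by
      intro j
      rw [e1, b.repr_apply_apply, hbv]
      have e2 : v j.succ = A.linearIsometry (EuclideanSpace.single j 1) := by
        fin_cases j <;> rfl
      rw [e2, inner_add_right, inner_smul_right, LinearIsometry.inner_map_map, real_inner_comm n,
        ho', EuclideanSpace.inner_single_left]
      simp
    refine ⟨?_, ?_⟩
    · show (b.repr (A p + s • n + -(A 0))) 0 ∈ Icc (0 : ℝ) t
      rw [r0]
      exact hs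
    · show WithLp.toLp 2 (fun j : Fin 2 => (b.repr (A p + s • n + -(A 0))) j.succ) ∈ T
      have : WithLp.toLp 2 (fun j : Fin 2 => (b.repr (A p + s • n + -(A 0))) j.succ) = p := by
        ext j
        exact r1 j
      rw [this]
      exact hp
  refine (measure_mono hsub).trans ?_
  rw [hmp.measure_preimage (measurableSet_Icc.prod hT.measurableSet).nullMeasurableSet,
    Measure.volume_eq_prod, Measure.prod_prod, Real.volume_Icc, sub_zero]

theorem seg_thick (x y : E3) : ∃ K : ℝ, 0 ≤ K ∧ ∀ δ ∈ Ioc (0 : ℝ) 2,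
    volume (cthickening δ (segment ℝ x y)) ≤ ENNReal.ofReal (K * δ ^ 2) := by
  set l := dist x y with hl
  set W : ℝ≥0∞ := volume (ball (0 : E3) 1) with hW
  have hWt : W ≠ ⊤ := measure_ball_lt_top.ne
  refine ⟨W.toReal * (8 * l + 32), by positivity, ?_⟩
  rintro δ ⟨hδ, hδ2⟩
  set N : ℕ := ⌊l / δ⌋₊ + 1 with hN
  have hl0 : 0 ≤ l := dist_nonneg
  have hN0 : (0 : ℝ) < N := by
    rw [hN]; positivity
  have hN1 : l / N ≤ δ := by
    rw [div_le_iff₀ hN0]
    have := Nat.lt_floor_add_one (l / δ)
    rw [div_lt_iff₀ hδ] at this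
    rw [hN]
    push_cast
    nlinarith
  have hN2 : (N : ℝ) ≤ l / δ + 1 := by
    rw [hN]
    push_cast
    have := Nat.floor_le (div_nonneg hl0 hδ.le)
    linarith
  have hcov : cthickening δ (segment ℝ x y) ⊆
      ⋃ i ∈ Finset.range (N + 1), closedBall (x + ((i : ℝ) / N) • (y - x)) (2 * δ) := by
    have hcpt : IsCompact (segment ℝ x y) := by
      rw [segment_eq_image ℝ x y]
      exact isCompact_Icc.image (by fun_prop)
    rw [hcpt.cthickening_eq_biUnion_closedBall hδ.le]
    intro z hz
    obtain ⟨q, hq, hzq⟩ := mem_iUnion₂.1 hz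
    rw [segment_eq_image' ℝ x y] at hq
    obtain ⟨s, hs, rfl⟩ := hq
    have hsN : 0 ≤ s * N := mul_nonneg hs.1 hN0.le
    refine mem_iUnion₂.2 ⟨⌊s * N⌋₊, ?_, ?_⟩
    · rw [Finset.mem_range]
      have : ⌊s * N⌋₊ ≤ N := by
        apply Nat.floor_le_of_le
        exact mul_le_of_le_one_left hN0.le hs.2
      omega
    · rw [mem_closedBall] at hzq ⊢
      have h1 : dist (x + s • (y - x)) (x + ((⌊s * N⌋₊ : ℝ) / N) • (y - x)) ≤ δ := by
        have hnorm : ‖y - x‖ = l := by rw [hl, dist_comm, dist_eq_norm]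
        rw [dist_add_left, dist_eq_norm, ← sub_smul, norm_smul, hnorm]
        have h2 : |s - (⌊s * N⌋₊ : ℝ) / N| ≤ 1 / N := by
          have h3 := Nat.floor_le hsN
          have h4 := Nat.lt_floor_add_one (s * N)
          have h5 : s - (⌊s * N⌋₊ : ℝ) / N = (s * N - ⌊s * N⌋₊) / N := by
            field_simp
          rw [h5, abs_of_nonneg (div_nonneg (by linarith) hN0.le)]
          gcongr
          linarith
        rw [Real.norm_eq_abs]
        calc |s - (⌊s * N⌋₊ : ℝ) / N| * l ≤ 1 / N * l := by gcongr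
          _ = l / N := by ring
          _ ≤ δ := hN1
      have := dist_triangle z (x + s • (y - x)) (x + ((⌊s * N⌋₊ : ℝ) / N) • (y - x))
      linarith
  have hball : ∀ c : E3, volume (closedBall c (2 * δ)) = ENNReal.ofReal ((2 * δ) ^ 3) * W := by
    intro c
    rw [Measure.addHaar_closedBall _ _ (by positivity)]
    congr 2
    simp
  calc volume (cthickening δ (segment ℝ x y))
      ≤ volume (⋃ i ∈ Finset.range (N + 1), closedBall (x + ((i : ℝ) / N) • (y - x)) (2 * δ)) :=
        measure_mono hcov
    _ ≤ ∑ i ∈ Finset.range (N + 1), volume (closedBall (x + ((i : ℝ) / N) • (y - x)) (2 * δ)) :=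
        measure_biUnion_finset_le _ _
    _ = ∑ i ∈ Finset.range (N + 1), ENNReal.ofReal ((2 * δ) ^ 3 * W.toReal) := by
        refine Finset.sum_congr rfl (fun i _ => ?_)
        rw [hball, ENNReal.ofReal_mul (by positivity), ENNReal.ofReal_toReal hWt]
    _ = ENNReal.ofReal ((N + 1) * ((2 * δ) ^ 3 * W.toReal)) := by
        rw [Finset.sum_const, Finset.card_range, nsmul_eq_mul,
          ENNReal.ofReal_mul (by positivity : (0 : ℝ) ≤ N + 1)]
        congr 1
        have : ((N : ℝ) + 1) = ((N + 1 : ℕ) : ℝ) := by push_cast; ring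
        rw [this, ENNReal.ofReal_natCast]
    _ ≤ ENNReal.ofReal (W.toReal * (8 * l + 32) * δ ^ 2) := by
        apply ENNReal.ofReal_le_ofReal
        have hW0 : 0 ≤ W.toReal := ENNReal.toReal_nonneg
        have h1 : ((N : ℝ) + 1) * δ ≤ l + 2 * δ := by
          have : ((N : ℝ) + 1) * δ ≤ (l / δ + 2) * δ :=
            mul_le_mul_of_nonneg_right (by linarith) hδ.le
          refine this.trans (le_of_eq ?_)
          field_simp
        calc ((N : ℝ) + 1) * ((2 * δ) ^ 3 * W.toReal)
            = (((N : ℝ) + 1) * δ) * (8 * W.toReal * δ ^ 2) := by ring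
          _ ≤ (l + 2 * δ) * (8 * W.toReal * δ ^ 2) := by gcongr
          _ ≤ (l + 4) * (8 * W.toReal * δ ^ 2) := by
              gcongr
              linarith
          _ = W.toReal * (8 * l + 32) * δ ^ 2 := by ring

end Pool.Agent.Lib.FOLD
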