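import Pool.Agent.Lib.FOLD.KF
import Pool.Agent.Lib.FOLD.KG1

/-!
# FOLD.KG: the volume of the parallel body (1.3 h)
PROOF. Let `z = q + t w`, `q ∈ Q`, `w ∈ W`, `z ∉ Q`, `π z` the nearest point of `Q` (`exists_proj`), `g = z - π z ≠ 0`, `⟪g, q' - π z⟫ ≤ 0` on `Q`, so `π z ∈ frontier Q = ⋃ f '' tri (V k)` and `‖g‖ ≤ ‖z - q‖ ≤ 2t` (the nearest point is nearer than `q`; from the inequality). `π z = f p`, `p ∈ tri (V k)`. If `p` is interior: `g = s n k` (`FNormal.uniq`), `s ≥ 0`, and
`s = ⟪n k, z - π z⟫ = ⟪n k, q⟫ + t⟪n k, w⟫ - ⟪n k, f p⟫ ≤ t`, so `z = A k p + s n k` is in the prism of the triangle `k`. If `p` is in the frontier of the triangle, it is on one of its three edges (segments between vertices), so `π z` is on the segment between two points `f (V k i)` and `z` is in its closed `2t`-neighbourhood.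
So `Q + tW ⊆ Q ∪ ⋃ prisms ∪ ⋃ neighbourhoods`; `prism_vol`, `seg_thick` (`δ = 2t`), `∑ volume (tri (V k)) = volume C` (`cover`, `disj`; frontiers of convex sets are null sets). The volumes are finite.
-/

set_option autoImplicit false

open MeasureTheory Set Filter Topology Metric
open scoped MeasureTheory ENNReal

namespace Pool.Agent.Lib.FOLD

variable {C : Set E2} {L : ℝ} {γ : ℝ → E2} {Q : Set E3}

namespace KGAux

/-- a point of a triangle that is not an interior point lies on an edge -/
theorem edge_of {V : Fin 3 → E2} (hV : AffineIndependent ℝ V) {p : E2} (hp : p ∈ tri V)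
    (hi : p ∉ interior (tri V)) : ∃ i : Fin 3, p ∈ segment ℝ (V (i + 1)) (V (i + 2)) := by
  have htop : affineSpan ℝ (range V) = ⊤ := by
    rw [hV.affineSpan_eq_top_iff_card_eq_finrank_add_one]
    simp
  let b : AffineBasis (Fin 3) ℝ E2 := ⟨V, hV, htop⟩
  have hT : tri V = {y | ∀ i, 0 ≤ b.coord i y} := b.convexHull_eq_nonneg_coord
  have hI : interior (tri V) = {y | ∀ i, 0 < b.coord i y} := b.interior_convexHull
  rw [hT] at hp
  rw [hI] at hi
  have hi' : ¬ ∀ i, 0 < b.coord i p := hi
  push Not at hi'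
  obtain ⟨i, hi0⟩ := hi'
  have hpi : ∀ j, 0 ≤ b.coord j p := hp
  have h0 : b.coord i p = 0 := le_antisymm hi0 (hpi i)
  have hsum : ∑ j, b.coord j p = 1 := b.sum_coord_apply_eq_one p
  have hlin : ∑ j, b.coord j p • V j = p := b.linear_combination_coord_eq_self p
  rw [Fin.sum_univ_three] at hsum hlin
  refine ⟨i, b.coord (i + 1) p, b.coord (i + 2) p, hpi _, hpi _, ?_, ?_⟩
  · fin_cases i
    · have h0' : b.coord 0 p = 0 := h0
      show b.coord 1 p + b.coord 2 p = 1
      linarith
    · have h0' : b.coord 1 p = 0 := h0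
      show b.coord 2 p + b.coord 0 p = 1
      linarith
    · have h0' : b.coord 2 p = 0 := h0
      show b.coord 0 p + b.coord 1 p = 1
      linarith
  · fin_cases i
    · have h0' : b.coord 0 p = 0 := h0
      show b.coord 1 p • V 1 + b.coord 2 p • V 2 = p
      rw [h0', zero_smul, zero_add] at hlin
      exact hlin
    · have h0' : b.coord 1 p = 0 := h0
      show b.coord 2 p • V 2 + b.coord 0 p • V 0 = p
      rw [h0', zero_smul, add_zero, add_comm] at hlin
      exact hlin
    · have h0' : b.coord 2 p = 0 := h0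
      show b.coord 0 p • V 0 + b.coord 1 p • V 1 = p
      rw [h0', zero_smul, add_zero] at hlin
      exact hlin

/-- the total area of the triangles -/
theorem sum_tri (F : Fold C L γ Q) : ∑ k, volume (tri (F.V k)) ≤ volume C := by
  have h1 : ∀ k, volume (tri (F.V k)) = volume (interior (tri (F.V k))) := by
    intro k
    refine le_antisymm ?_ (measure_mono interior_subset)
    have h2 : tri (F.V k) ⊆ interior (tri (F.V k)) ∪ frontier (tri (F.V k)) := by
      intro x hx
      by_cases h : x ∈ interior (tri (F.V k))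
      · exact Or.inl h
      · exact Or.inr ⟨subset_closure hx, h⟩
    refine (measure_mono h2).trans ((measure_union_le _ _).trans ?_)
    have h3 : volume (frontier (tri (F.V k))) = 0 :=
      (convex_convexHull ℝ (range (F.V k))).addHaar_frontier volume
    rw [h3, add_zero]
  calc ∑ k, volume (tri (F.V k)) = ∑ k, volume (interior (tri (F.V k))) :=
        Finset.sum_congr rfl fun k _ => h1 k
    _ = volume (⋃ k, interior (tri (F.V k))) := by
        rw [measure_iUnion (fun j k hjk => F.disj j k hjk)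
          (fun k => isOpen_interior.measurableSet), tsum_fintype]
    _ ≤ volume C := by
        apply measure_mono
        exact (iUnion_mono fun k => interior_subset).trans F.cover.subset

/-- where the points of the parallel body are -/
theorem cover_body (F : Fold C L γ Q) {n : Fin F.n → E3} (hn : ∀ k, FNormal F k (n k)) {W : Set E3}
    (hW : W ⊆ closedBall 0 2) (hWn : ∀ w ∈ W, ∀ k, inner ℝ (n k) w ≤ 1) {t : ℝ} (ht : 0 < t) :
    {z : E3 | ∃ q ∈ Q, ∃ w ∈ W, z = q + t • w} ⊆
      Q ∪ ((⋃ k, {z : E3 | ∃ p ∈ tri (F.V k), ∃ s ∈ Icc (0 : ℝ) t, z = F.A k p + s • n k}) ∪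
        ⋃ c : Fin F.n × Fin 3, cthickening (2 * t)
          (segment ℝ (F.A c.1 (F.V c.1 (c.2 + 1))) (F.A c.1 (F.V c.1 (c.2 + 2))))) := by
  obtain ⟨π, -, hπ, -, hin⟩ := exists_proj F.cpt.isClosed F.cvx (F.int.mono interior_subset)
  rintro z ⟨q, hq, w, hw, rfl⟩
  by_cases hz : q + t • w ∈ Q
  · exact Or.inl hz
  refine Or.inr ?_
  set z : E3 := q + t • w with hzdef
  have hg0 : z - π z ≠ 0 := by
    intro h
    apply hz
    rw [sub_eq_zero.1 h]
    exact hπ z
  have hgn : 0 < ‖z - π z‖ := norm_pos_iff.2 hg0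
  -- the nearest point is on the frontier
  have hfr : π z ∈ frontier Q := by
    refine ⟨subset_closure (hπ z), fun hint => ?_⟩
    obtain ⟨ε, hε, hball⟩ := Metric.isOpen_iff.1 isOpen_interior _ hint
    have hk : π z + (ε / (2 * ‖z - π z‖)) • (z - π z) ∈ Q := by
      apply interior_subset
      apply hball
      rw [mem_ball, dist_eq_norm, add_sub_cancel_left, norm_smul, Real.norm_of_nonneg (by positivity)]
      have : ε / (2 * ‖z - π z‖) * ‖z - π z‖ = ε / 2 := by
        field_simp
      rw [this]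
      linarith
    have h1 := hin z _ hk
    rw [add_sub_cancel_left, real_inner_smul_right, real_inner_self_eq_norm_sq] at h1
    have h2 : 0 < ε / (2 * ‖z - π z‖) * ‖z - π z‖ ^ 2 := by positivity
    linarith
  -- the distance
  have hdist : ‖z - π z‖ ≤ 2 * t := by
    have h1 := hin z q hq
    have h2 : ‖z - q‖ ^ 2 = ‖z - π z‖ ^ 2 - 2 * inner ℝ (z - π z) (q - π z) + ‖q - π z‖ ^ 2 := by
      have : z - q = (z - π z) - (q - π z) := by abel
      rw [this, norm_sub_sq_real]
    have h3 : ‖z - π z‖ ^ 2 ≤ ‖z - q‖ ^ 2 := by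
      rw [h2]
      nlinarith [sq_nonneg ‖q - π z‖]
    have h4 : ‖z - π z‖ ≤ ‖z - q‖ := by
      exact (sq_le_sq₀ (norm_nonneg _) (norm_nonneg _)).1 h3
    have h5 : ‖z - q‖ ≤ 2 * t := by
      rw [hzdef, add_sub_cancel_left, norm_smul, Real.norm_of_nonneg ht.le]
      have h6 := hW hw
      rw [mem_closedBall, dist_zero_right] at h6
      nlinarith
    exact h4.trans h5
  rw [← F.onto] at hfr
  obtain ⟨p, hpC, hp⟩ := hfr
  rw [← F.cover] at hpC
  obtain ⟨k, hk⟩ := mem_iUnion.1 hpC
  by_cases hint : p ∈ interior (tri (F.V k))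
  · refine Or.inl (mem_iUnion.2 ⟨k, p, hk, ?_⟩)
    obtain ⟨s, hs0, hs⟩ := (hn k).uniq p hint (z - π z) (fun q' hq' => by
      rw [hp]; exact hin z q' hq')
    refine ⟨s, ⟨hs0, ?_⟩, ?_⟩
    · have h1 : inner ℝ (n k) (z - π z) = s := by
        rw [hs, real_inner_smul_right, real_inner_self_eq_norm_sq, (hn k).norm]
        ring
      have h2 : inner ℝ (n k) (z - π z) =
          inner ℝ (n k) q - inner ℝ (n k) (F.f p) + t * inner ℝ (n k) w := by
        rw [hzdef, hp, inner_sub_right, inner_add_right, real_inner_smul_right]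
        ring
      have h3 := (hn k).supp q hq p hk
      have h4 := hWn w hw k
      nlinarith
    · rw [← F.rigid k p hk, hp, ← hs]
      abel
  · refine Or.inr ?_
    obtain ⟨i, hi⟩ := edge_of (F.indep k) hk hint
    refine mem_iUnion.2 ⟨(k, i), ?_⟩
    have h1 : F.A k p ∈ segment ℝ (F.A k (F.V k (i + 1))) (F.A k (F.V k (i + 2))) := by
      have h2 := mem_image_of_mem (F.A k).toAffineMap hi
      rw [image_segment] at h2
      exact h2
    refine mem_cthickening_of_dist_le z (F.A k p) (2 * t) _ h1 ?_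
    rw [← F.rigid k p hk, hp, dist_eq_norm]
    exact hdist

end KGAux

theorem steiner (F : Fold C L γ Q) {n : Fin F.n → E3} (hn : ∀ k, FNormal F k (n k)) {W : Set E3}
    (hW : W ⊆ closedBall 0 2) (hWn : ∀ w ∈ W, ∀ k, inner ℝ (n k) w ≤ 1) :
    ∃ K : ℝ, 0 ≤ K ∧ ∀ t ∈ Ioc (0 : ℝ) 1,
      volume {z : E3 | ∃ q ∈ Q, ∃ w ∈ W, z = q + t • w} ≤
        ENNReal.ofReal ((volume Q).toReal + t * (volume C).toReal + K * t ^ 2) := by
  choose K0 hK0 hK using fun c : Fin F.n × Fin 3 =>
    seg_thick (F.A c.1 (F.V c.1 (c.2 + 1))) (F.A c.1 (F.V c.1 (c.2 + 2)))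
  refine ⟨∑ c, 4 * K0 c, Finset.sum_nonneg fun c _ => by
    have := hK0 c
    positivity, ?_⟩
  rintro t ⟨ht0, ht1⟩
  have hQf : volume Q ≠ ⊤ := F.cpt.measure_lt_top.ne
  have hCf : volume C ≠ ⊤ := F.region.cpt.measure_lt_top.ne
  have hprism : ∀ k, volume {z : E3 | ∃ p ∈ tri (F.V k), ∃ s ∈ Icc (0 : ℝ) t,
      z = F.A k p + s • n k} ≤ ENNReal.ofReal t * volume (tri (F.V k)) := fun k =>
    prism_vol (F.A k) (hn k).norm (hn k).orth
      ((finite_range (F.V k)).isCompact_convexHull ℝ) ht0.le
  calc volume {z : E3 | ∃ q ∈ Q, ∃ w ∈ W, z = q + t • w}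
      ≤ volume Q + ((∑ k, ENNReal.ofReal t * volume (tri (F.V k))) +
          ∑ c, ENNReal.ofReal (K0 c * (2 * t) ^ 2)) := by
        refine (measure_mono (KGAux.cover_body F hn hW hWn ht0)).trans ?_
        refine (measure_union_le _ _).trans ?_
        gcongr
        refine (measure_union_le _ _).trans ?_
        gcongr
        · refine (measure_iUnion_fintype_le _ _).trans ?_
          exact Finset.sum_le_sum fun k _ => hprism k
        · refine (measure_iUnion_fintype_le _ _).trans ?_
          exact Finset.sum_le_sum fun c _ => hK c (2 * t) ⟨by positivity, by linarith⟩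
    _ ≤ volume Q + (ENNReal.ofReal t * volume C + ∑ c, ENNReal.ofReal (K0 c * (2 * t) ^ 2)) := by
        rw [← Finset.mul_sum]
        gcongr
        exact KGAux.sum_tri F
    _ = ENNReal.ofReal ((volume Q).toReal + t * (volume C).toReal + (∑ c, 4 * K0 c) * t ^ 2) := by
        have h1 : ∀ c ∈ (Finset.univ : Finset (Fin F.n × Fin 3)), 0 ≤ K0 c * (2 * t) ^ 2 :=
          fun c _ => mul_nonneg (hK0 c) (by positivity)
        rw [← ENNReal.ofReal_sum_of_nonneg h1]
        have h2 : ∑ c, K0 c * (2 * t) ^ 2 = (∑ c, 4 * K0 c) * t ^ 2 := by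
          rw [Finset.sum_mul]
          refine Finset.sum_congr rfl fun c _ => ?_
          ring
        rw [h2]
        have h3 : (0 : ℝ) ≤ (∑ c, 4 * K0 c) * t ^ 2 := by
          rw [← h2]
          exact Finset.sum_nonneg h1
        rw [ENNReal.ofReal_add (by positivity) h3, ENNReal.ofReal_add (by positivity) (by positivity),
          ENNReal.ofReal_mul ht0.le, ENNReal.ofReal_toReal hQf, ENNReal.ofReal_toReal hCf, add_assoc]

end Pool.Agent.Lib.FOLD
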