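import Pool.Agent.Lib.FOLD.Defs
import Pool.Agent.Lib.VR29.BMn

/-!
# FOLD.KH: Brunn-Minkowski, dyadic weights (1 h)
PROOF. `VR29.bmn` (see Pool/Agent/Lib/VR29/BMn.lean) is the midpoint case `volume A * volume B ≤ volume C ^ 2` for sets in `Fin n → ℝ` whose midpoints are in `C`; transfer to `E3` with the measure preserving `WithLp.ofLp`/`EuclideanSpace.volume_preserving_..`. Let `C k = {(1-λ)a + λ b}`, `λ = 2^(-k)`; it is compact. `C 0 ⊇ B` (translate? no: `λ = 1`,
`C 0 = {b}`: with `A` nonempty `C 0 = B`). Induction: for `a ∈ A` and `c = (1-λ)a' + λ b ∈ C k` the midpoint `(a + c)/2 = (1 - λ/2) a'' + (λ/2) b` with `a'' = (a/2 + (1-λ)a'/2)/(1 - λ/2) ∈ A` (convex), so it is in `C (k+1)`; `volume (C (k+1)) ≥ (volume A)^(1/2) (volume (C k))^(1/2)`, and the exponents are `1/2 + (1-λ)/2 = 1 - λ/2`, `λ/2`.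
-/

set_option autoImplicit false

open MeasureTheory Set Filter Topology Metric
open scoped MeasureTheory ENNReal

namespace Pool.Agent.Lib.FOLD

namespace KHAux

theorem bm3 {A B C : Set E3} (hA : MeasurableSet A) (hB : MeasurableSet B) (hC : MeasurableSet C)
    (hAb : Bornology.IsBounded A) (hBb : Bornology.IsBounded B)
    (h : ∀ a ∈ A, ∀ b ∈ B, (1 / 2 : ℝ) • (a + b) ∈ C) : volume A * volume B ≤ volume C ^ 2 := by
  have hmp := PiLp.volume_preserving_toLp (Fin 3)
  have key : ∀ S : Set E3, MeasurableSet S →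
      volume ((WithLp.toLp 2 : (Fin 3 → ℝ) → E3) ⁻¹' S) = volume S := fun S hS =>
    hmp.measure_preimage hS.nullMeasurableSet
  have hbd : ∀ S : Set E3, Bornology.IsBounded S →
      Bornology.IsBounded ((WithLp.toLp 2 : (Fin 3 → ℝ) → E3) ⁻¹' S) := by
    intro S hS
    obtain ⟨r, hr⟩ := hS.exists_norm_le
    refine isBounded_iff_forall_norm_le.2 ⟨r, fun x hx => ?_⟩
    have h1 := hr _ hx
    refine le_trans ?_ h1
    refine (pi_norm_le_iff_of_nonneg (norm_nonneg _)).2 fun i => ?_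
    exact PiLp.norm_apply_le (WithLp.toLp 2 x : E3) i
  rw [← key A hA, ← key B hB, ← key C hC]
  refine VR29.bmn 3 _ _ _ (hmp.measurable hA) (hmp.measurable hB) (hmp.measurable hC)
    (hbd A hAb) (hbd B hBb) ?_
  intro a ha b hb
  have h2 := h _ ha _ hb
  have h3 : (WithLp.toLp 2 (fun i => (a i + b i) / 2) : E3) =
      (1 / 2 : ℝ) • (WithLp.toLp 2 a + WithLp.toLp 2 b) := by
    ext i
    simp
    ring
  show (WithLp.toLp 2 (fun i => (a i + b i) / 2) : E3) ∈ C
  rw [h3]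
  exact h2

theorem cpt {A B : Set E3} (hA : IsCompact A) (hB : IsCompact B) (t s : ℝ) :
    IsCompact {z : E3 | ∃ a ∈ A, ∃ b ∈ B, z = t • a + s • b} := by
  have h := (hA.prod hB).image (f := fun p : E3 × E3 => t • p.1 + s • p.2) (by fun_prop)
  convert h using 1
  ext z
  simp only [mem_setOf_eq, mem_image, mem_prod, Prod.exists]
  constructor
  · rintro ⟨a, ha, b, hb, rfl⟩
    exact ⟨a, b, ⟨ha, hb⟩, rfl⟩
  · rintro ⟨a, b, ⟨ha, hb⟩, rfl⟩
    exact ⟨a, ha, b, hb, rfl⟩

end KHAux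

theorem bm_dyadic {A B : Set E3} (hA : IsCompact A) (hAn : A.Nonempty) (hAc : Convex ℝ A)
    (hB : IsCompact B) (hBn : B.Nonempty) (k : ℕ) :
    volume A ^ (1 - (1 / 2 : ℝ) ^ k) * volume B ^ ((1 / 2 : ℝ) ^ k) ≤
      volume {z : E3 | ∃ a ∈ A, ∃ b ∈ B, z = (1 - (1 / 2 : ℝ) ^ k) • a + (1 / 2 : ℝ) ^ k • b} := by
  induction k with
  | zero =>
    simp only [pow_zero, sub_self, ENNReal.rpow_zero, ENNReal.rpow_one, one_mul]
    refine measure_mono fun b hb => ?_
    obtain ⟨a, ha⟩ := hAn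
    exact ⟨a, ha, b, hb, by simp⟩
  | succ k ih =>
    set l : ℝ := (1 / 2 : ℝ) ^ k with hl
    have hl0 : 0 ≤ l := by positivity
    have hl1 : l ≤ 1 := pow_le_one₀ (by norm_num) (by norm_num)
    have hlk : (1 / 2 : ℝ) ^ (k + 1) = l / 2 := by rw [pow_succ, ← hl]; ring
    rw [hlk]
    set S : Set E3 := {z : E3 | ∃ a ∈ A, ∃ b ∈ B, z = (1 - l) • a + l • b} with hS
    set T : Set E3 := {z : E3 | ∃ a ∈ A, ∃ b ∈ B, z = (1 - l / 2) • a + (l / 2) • b} with hT
    have hSc : IsCompact S := KHAux.cpt hA hB _ _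
    have hTc : IsCompact T := KHAux.cpt hA hB _ _
    have hm : volume A * volume S ≤ volume T ^ 2 := by
      refine KHAux.bm3 hA.measurableSet hSc.measurableSet hTc.measurableSet hA.isBounded
        hSc.isBounded ?_
      rintro a ha z ⟨a', ha', b, hb, rfl⟩
      have hp : (0 : ℝ) < 1 - l / 2 := by linarith
      refine ⟨(1 / 2 / (1 - l / 2)) • a + ((1 - l) / 2 / (1 - l / 2)) • a', ?_, b, hb, ?_⟩
      · refine hAc ha ha' (by positivity) (div_nonneg (by linarith) hp.le) ?_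
        rw [← add_div, div_eq_one_iff_eq hp.ne']
        ring
      · have q1 : (1 - l / 2) * (1 / 2 / (1 - l / 2)) = 1 / 2 := mul_div_cancel₀ _ hp.ne'
        have q2 : (1 - l / 2) * ((1 - l) / 2 / (1 - l / 2)) = 1 / 2 * (1 - l) := by
          rw [mul_div_cancel₀ _ hp.ne']
          ring
        have q3 : (1 : ℝ) / 2 * l = l / 2 := by ring
        rw [smul_add, smul_add, smul_add, smul_smul, smul_smul, smul_smul, smul_smul, ← add_assoc,
          q1, q2, q3]
    have e1 : volume A ^ (1 - l / 2) * volume B ^ (l / 2) =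
        (volume A * (volume A ^ (1 - l) * volume B ^ l)) ^ (1 / 2 : ℝ) := by
      rw [ENNReal.mul_rpow_of_nonneg _ _ (by norm_num),
        ENNReal.mul_rpow_of_nonneg _ _ (by norm_num), ← ENNReal.rpow_mul, ← ENNReal.rpow_mul,
        ← mul_assoc, ← ENNReal.rpow_add_of_nonneg _ _ (by norm_num)
          (mul_nonneg (by linarith) (by norm_num))]
      congr 2 <;> ring
    rw [e1]
    calc (volume A * (volume A ^ (1 - l) * volume B ^ l)) ^ (1 / 2 : ℝ)
        ≤ (volume A * volume S) ^ (1 / 2 : ℝ) := by gcongr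
      _ ≤ (volume T ^ 2) ^ (1 / 2 : ℝ) := by gcongr
      _ = volume T := by
        rw [← ENNReal.rpow_natCast, ← ENNReal.rpow_mul]
        norm_num

end Pool.Agent.Lib.FOLD
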