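import Pool.Agent.Lib.FOLD.KG
import Pool.Agent.Lib.FOLD.KH

/-!
# FOLD.KI: Minkowski's inequality (1 h)
PROOF. Let `v = vol Q > 0`, `w = vol W > 0` (if `vol W = 0` the claim is trivial), `S = vol C`, `K` from `steiner`, `r = (v/w)^(1/3)`. For `k` large `λ = 2^(-k) < 1`, `t = λ r/(1-λ) ≤ 1`. `bm_dyadic` with `A = Q`, `B = r • W` (volume `r³ w = v`): the left side is `v^(1-λ) v^λ = v`; the set on the right is
`(1-λ) • {q + t w}` (`λ r w = (1-λ) t w`), volume `≤ (1-λ)³ (v + t S + K t²)`. So `v ≤ (1-λ)³ (v + t S + K t²)`. Subtract `v`, divide by `λ` and let `λ → 0` (`t/λ → r`): `0 ≤ -3v + r S`. So `S³ ≥ 27 v³/r³ = 27 v² w`.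
-/

set_option autoImplicit false

open MeasureTheory Set Filter Topology Metric
open scoped MeasureTheory ENNReal Pointwise

namespace Pool.Agent.Lib.FOLD

variable {C : Set E2} {L : ℝ} {γ : ℝ → E2} {Q : Set E3}

namespace KIAux

/-- the inequality in the limit -/
theorem limit_ineq {v S K r : ℝ} (h : ∀ᶠ k : ℕ in atTop,
    v ≤ (1 - (1 / 2 : ℝ) ^ k) ^ 3 * (v + ((1 / 2 : ℝ) ^ k * r / (1 - (1 / 2 : ℝ) ^ k)) * S +
      K * ((1 / 2 : ℝ) ^ k * r / (1 - (1 / 2 : ℝ) ^ k)) ^ 2)) : 3 * v ≤ r * S := by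
  have hlim : Tendsto (fun k : ℕ => (1 / 2 : ℝ) ^ k) atTop (𝓝 0) :=
    tendsto_pow_atTop_nhds_zero_of_lt_one (by norm_num) (by norm_num)
  have hcont : Continuous fun l : ℝ => (-3 + 3 * l - l ^ 2) * v + (1 - l) ^ 2 * (r * S) +
      K * (1 - l) * l * r ^ 2 := by fun_prop
  have hpoly := (hcont.tendsto 0).comp hlim
  have hge : ∀ᶠ k : ℕ in atTop, 0 ≤ ((fun l : ℝ => (-3 + 3 * l - l ^ 2) * v +
      (1 - l) ^ 2 * (r * S) + K * (1 - l) * l * r ^ 2) ∘ fun k : ℕ => (1 / 2 : ℝ) ^ k) k := by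
    filter_upwards [h, eventually_ge_atTop 1] with k hk hk1
    rw [Function.comp_apply]
    have hl0 : 0 < (1 / 2 : ℝ) ^ k := by positivity
    have hl1 : (1 / 2 : ℝ) ^ k < 1 := pow_lt_one₀ (by norm_num) (by norm_num) (by omega)
    set l := (1 / 2 : ℝ) ^ k with hl
    have hne : 1 - l ≠ 0 := by linarith
    have e : (1 - l) ^ 3 * (v + (l * r / (1 - l)) * S + K * (l * r / (1 - l)) ^ 2) =
        (1 - l) ^ 3 * v + (1 - l) ^ 2 * l * (r * S) + K * (1 - l) * l ^ 2 * r ^ 2 := by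
      field_simp
    rw [e] at hk
    have h2 : 0 ≤ l * ((-3 + 3 * l - l ^ 2) * v + (1 - l) ^ 2 * (r * S) +
        K * (1 - l) * l * r ^ 2) := by nlinarith
    exact nonneg_of_mul_nonneg_right h2 hl0
  have h3 := ge_of_tendsto hpoly hge
  norm_num at h3
  linarith

theorem smul_vol (c : ℝ) (hc : 0 ≤ c) (T : Set E3) :
    volume (c • T) = ENNReal.ofReal (c ^ 3) * volume T := by
  rw [Measure.addHaar_smul, finrank_euclideanSpace_fin, abs_of_nonneg (pow_nonneg hc 3)]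

end KIAux

theorem minkowski (F : Fold C L γ Q) {n : Fin F.n → E3} (hn : ∀ k, FNormal F k (n k)) {W : Set E3}
    (hW : W ⊆ closedBall 0 2) (hWc : IsCompact W) (hWne : W.Nonempty)
    (hWn : ∀ w ∈ W, ∀ k, inner ℝ (n k) w ≤ 1) :
    27 * (volume Q).toReal ^ 2 * (volume W).toReal ≤ (volume C).toReal ^ 3 := by
  have hQtop : volume Q ≠ ⊤ := F.cpt.measure_lt_top.ne
  have hQ0 : volume Q ≠ 0 := (Measure.measure_pos_of_nonempty_interior volume F.int).ne'
  have hv : 0 < (volume Q).toReal := ENNReal.toReal_pos hQ0 hQtop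
  have hWtop : volume W ≠ ⊤ := hWc.measure_lt_top.ne
  have hS : 0 ≤ (volume C).toReal := ENNReal.toReal_nonneg
  rcases eq_or_ne (volume W) 0 with hW0 | hW0
  · rw [hW0, ENNReal.toReal_zero, mul_zero]
    positivity
  have hw : 0 < (volume W).toReal := ENNReal.toReal_pos hW0 hWtop
  set v := (volume Q).toReal with hvdef
  set w := (volume W).toReal with hwdef
  set S := (volume C).toReal with hSdef
  obtain ⟨r, hr, hr3⟩ : ∃ r : ℝ, 0 < r ∧ r ^ 3 = v / w := by
    refine ⟨(v / w) ^ (1 / 3 : ℝ), Real.rpow_pos_of_pos (by positivity) _, ?_⟩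
    rw [← Real.rpow_natCast, ← Real.rpow_mul (by positivity)]
    norm_num
  obtain ⟨K, hK, hst⟩ := steiner F hn hW hWn
  have hrW : volume (r • W) = volume Q := by
    rw [KIAux.smul_vol r hr.le, hr3, ← ENNReal.ofReal_toReal hWtop, ← ENNReal.ofReal_toReal hQtop,
      ← hvdef, ← hwdef, ← ENNReal.ofReal_mul (by positivity), div_mul_cancel₀ _ hw.ne']
  have hlim : Tendsto (fun k : ℕ => (1 / 2 : ℝ) ^ k) atTop (𝓝 0) :=
    tendsto_pow_atTop_nhds_zero_of_lt_one (by norm_num) (by norm_num)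
  have key : 3 * v ≤ r * S := by
    refine KIAux.limit_ineq (K := K) ?_
    filter_upwards [hlim.eventually (gt_mem_nhds (show (0 : ℝ) < 1 / 2 by norm_num)),
      hlim.eventually (gt_mem_nhds (show (0 : ℝ) < 1 / (2 * r) by positivity))] with k h1 h2
    have hbm := bm_dyadic F.cpt (F.int.mono interior_subset) F.cvx (hWc.smul r) hWne.smul_set k
    rw [hrW] at hbm
    have hl0 : 0 < (1 / 2 : ℝ) ^ k := by positivity
    set l := (1 / 2 : ℝ) ^ k with hl
    rw [← ENNReal.rpow_add _ _ hQ0 hQtop, sub_add_cancel, ENNReal.rpow_one] at hbm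
    have hne : 0 < 1 - l := by linarith
    have hlr : l * r < 1 / 2 := by
      rw [lt_div_iff₀ (by positivity)] at h2
      linarith
    have ht0 : 0 < l * r / (1 - l) := by positivity
    have ht1 : l * r / (1 - l) ≤ 1 := by
      rw [div_le_one hne]
      linarith
    have hsub : {z : E3 | ∃ a ∈ Q, ∃ b ∈ r • W, z = (1 - l) • a + l • b} ⊆
        (1 - l) • {z : E3 | ∃ q ∈ Q, ∃ w ∈ W, z = q + (l * r / (1 - l)) • w} := by
      rintro z ⟨a, ha, b, hb, rfl⟩
      obtain ⟨w', hw', rfl⟩ := hb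
      refine ⟨a + (l * r / (1 - l)) • w', ⟨a, ha, w', hw', rfl⟩, ?_⟩
      change (1 - l) • (a + (l * r / (1 - l)) • w') = (1 - l) • a + l • (r • w')
      rw [smul_add, smul_smul, smul_smul, mul_div_cancel₀ _ hne.ne']
    have h3 := hbm.trans (measure_mono hsub)
    rw [KIAux.smul_vol (1 - l) hne.le] at h3
    have h4 := h3.trans (mul_le_mul_right (hst _ ⟨ht0, ht1⟩) _)
    rw [← ENNReal.ofReal_mul (by positivity)] at h4
    exact ENNReal.toReal_le_of_le_ofReal (by positivity) h4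
  have h5 : (3 * v) ^ 3 ≤ (r * S) ^ 3 := pow_le_pow_left₀ (by positivity) key 3
  rw [mul_pow r, hr3, div_mul_eq_mul_div, le_div_iff₀ hw] at h5
  have h6 : v * (27 * v ^ 2 * w) ≤ v * S ^ 3 := by nlinarith
  exact le_of_mul_le_mul_left h6 hv

end Pool.Agent.Lib.FOLD
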