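import Pool.Agent.Lib.FOLD.KJ1

/-!
# FOLD.KJ: the volume of the ball with two tips (1 h)
PROOF. `p = √2 e`, `q = √2 e'`, unit vectors, `⟪e,e'⟫ ≤ 0`. `W ⊇ closedBall 0 1 ∪ tipc e ∪ tipc e'`: a point `z` of `tipc e` with `s = ⟪e,z⟫` is on the segment between `p` and the point of the disc `{⟪e,·⟫ = 1/√2, ‖·‖ ≤ 1}` (`z = (1-λ) p + λ u`, `λ = (√2 - s)√2 ∈ [0,1]`, `u` in the disc of radius `1/√2`; `s = √2`: `z = p`).
`tipc e \ ball` has volume `≥ π√2/12 - π(8-5√2)/12 = π(3√2-4)/6` (`tipc e ∩ closedBall 0 1 ⊆ closedBall 0 1 ∩ {⟪e,z⟫ ≥ 1/√2}`). `tipc e ∩ tipc e'` is a null set: on `tipc e`: `√(‖z‖² - s²) ≤ √2 - s ≤ 1/√2 ≤ s`, so `‖z‖ ≤ √2 ⟪e,z⟫`, the same for `e'`: `2‖z‖ ≤ √2⟪e + e', z⟫ ≤ √2 ‖e+e'‖‖z‖ ≤ 2‖z‖`, equality in Cauchy-Schwarz,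
so `z` is in the line spanned by `e + e'` (if `z ≠ 0`; if `e + e' = 0` then `z = 0`). Total: `4π/3 + 2π(3√2-4)/6 = √2 π` (volume of the unit ball `EuclideanSpace.volume_ball_fin_three` = `4π/3`).
-/

set_option autoImplicit false

open MeasureTheory Set Filter Topology Metric
open scoped MeasureTheory ENNReal

namespace Pool.Agent.Lib.FOLD

namespace KJAux

theorem sq2 : √2 * √2 = (2 : ℝ) := Real.mul_self_sqrt (by norm_num)

theorem sq2_pos : (0 : ℝ) < √2 := Real.sqrt_pos.2 (by norm_num)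

theorem inv_sq2 : 1 / √2 = √2 / 2 := by
  rw [div_eq_div_iff sq2_pos.ne' (by norm_num)]
  nlinarith [sq2]

theorem tip_sub {e p : E3} (he : ‖e‖ = 1) (hp : p = √2 • e) {z : E3} (hz : z ∈ tipc e)
    {S : Set E3} (hS : closedBall (0 : E3) 1 ⊆ S) (hpS : p ∈ S) : z ∈ convexHull ℝ S := by
  obtain ⟨h1, h2, h3⟩ := hz
  set t : ℝ := inner ℝ e z with ht
  rw [inv_sq2] at h1
  have hs2 := sq2
  have hs0 := sq2_pos
  have hpz : inner ℝ z p = √2 * t := by
    rw [hp, inner_smul_right, real_inner_comm, ht]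
  have hpn : ‖p‖ ^ 2 = 2 := by
    rw [hp, norm_smul, he, mul_one, Real.norm_of_nonneg hs0.le, pow_two, hs2]
  rcases eq_or_lt_of_le h2 with h | h
  · have h4 : ‖z - p‖ ^ 2 = ‖z‖ ^ 2 - 2 * (√2 * t) + 2 := by
      rw [norm_sub_sq_real, hpz, hpn]
    have h5 : ‖z - p‖ ^ 2 ≤ 0 := by
      rw [h4]
      rw [h] at h3 ⊢
      nlinarith
    have h6 : ‖z - p‖ = 0 := by
      have h7 : 0 ≤ ‖z - p‖ := norm_nonneg _
      nlinarith
    have h8 : z = p := sub_eq_zero.1 (norm_eq_zero.1 h6)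
    rw [h8]
    exact subset_convexHull ℝ S hpS
  · set l : ℝ := √2 * (√2 - t) with hl
    have hl0 : 0 < l := mul_pos hs0 (by linarith)
    have hl1 : l ≤ 1 := by
      rw [hl]
      nlinarith
    have hlt : √2 * t = 2 - l := by
      rw [hl]
      nlinarith
    have hu : ‖z - (1 - l) • p‖ ^ 2 ≤ l ^ 2 := by
      have h4 : ‖z - (1 - l) • p‖ ^ 2 = ‖z‖ ^ 2 - 2 * ((1 - l) * (√2 * t)) + (1 - l) ^ 2 * 2 := by
        rw [norm_sub_sq_real, inner_smul_right, hpz, norm_smul, mul_pow, hpn, Real.norm_eq_abs,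
          sq_abs]
      rw [h4, hlt]
      have h5 : t ^ 2 + (√2 - t) ^ 2 = (2 - l) ^ 2 / 2 + l ^ 2 / 2 := by
        rw [← hlt, hl]
        have h6 : (√2 * t) ^ 2 = 2 * t ^ 2 := by rw [mul_pow, pow_two, hs2]
        have h7 : (√2 * (√2 - t)) ^ 2 = 2 * (√2 - t) ^ 2 := by rw [mul_pow, pow_two, hs2]
        rw [h6, h7]
        ring
      nlinarith
    have hu' : ‖l⁻¹ • (z - (1 - l) • p)‖ ≤ 1 := by
      rw [norm_smul, norm_inv, Real.norm_of_nonneg hl0.le, inv_mul_le_iff₀ hl0, mul_one]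
      exact (sq_le_sq₀ (norm_nonneg _) hl0.le).1 hu
    have hmem : l⁻¹ • (z - (1 - l) • p) ∈ S := hS (by simpa using hu')
    have hz' : z = (1 - l) • p + l • (l⁻¹ • (z - (1 - l) • p)) := by
      rw [smul_smul, mul_inv_cancel₀ hl0.ne', one_smul]
      abel
    rw [hz']
    exact (convex_convexHull ℝ S) (subset_convexHull ℝ S hpS) (subset_convexHull ℝ S hmem)
      (by linarith) hl0.le (by ring)

theorem tip_closed (e : E3) : IsClosed (tipc e) := by
  have h : tipc e = {z : E3 | 1 / √2 ≤ inner ℝ e z} ∩ ({z : E3 | inner ℝ e z ≤ √2} ∩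
      {z : E3 | ‖z‖ ^ 2 - inner ℝ e z ^ 2 ≤ (√2 - inner ℝ e z) ^ 2}) := by
    ext z
    simp only [tipc, mem_setOf_eq, mem_inter_iff]
  rw [h]
  refine IsClosed.inter ?_ (IsClosed.inter ?_ ?_)
  · exact isClosed_le (by fun_prop) (by fun_prop)
  · exact isClosed_le (by fun_prop) (by fun_prop)
  · exact isClosed_le (by fun_prop) (by fun_prop)

theorem tip_diff {e : E3} (he : ‖e‖ = 1) :
    ENNReal.ofReal (Real.pi * (3 * √2 - 4) / 6) ≤ volume (tipc e \ closedBall (0 : E3) 1) := by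
  have h1 : √2 ≤ 1.42 := by
    rw [Real.sqrt_le_left (by norm_num)]
    norm_num
  have h2 : (1.4 : ℝ) ≤ √2 := by
    apply Real.le_sqrt_of_sq_le
    norm_num
  have hpi := Real.pi_pos
  have h3 : ENNReal.ofReal (Real.pi * √2 / 12) = ENNReal.ofReal (Real.pi * (8 - 5 * √2) / 12) +
      ENNReal.ofReal (Real.pi * (3 * √2 - 4) / 6) := by
    rw [← ENNReal.ofReal_add]
    · congr 1
      ring
    · have : 0 ≤ 8 - 5 * √2 := by linarith
      positivity
    · have : 0 ≤ 3 * √2 - 4 := by linarith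
      positivity
  have h4 : volume (tipc e) = volume (tipc e ∩ closedBall (0 : E3) 1) +
      volume (tipc e \ closedBall (0 : E3) 1) :=
    (measure_inter_add_diff (tipc e) isClosed_closedBall.measurableSet).symm
  have h5 : volume (tipc e ∩ closedBall (0 : E3) 1) ≤
      ENNReal.ofReal (Real.pi * (8 - 5 * √2) / 12) := by
    rw [← cap_vol he]
    refine measure_mono ?_
    rintro z ⟨hz1, hz2⟩
    exact ⟨hz2, hz1.1⟩
  rw [tip_vol he, h3] at h4
  have h6 : ENNReal.ofReal (Real.pi * (8 - 5 * √2) / 12) +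
      ENNReal.ofReal (Real.pi * (3 * √2 - 4) / 6) ≤
      ENNReal.ofReal (Real.pi * (8 - 5 * √2) / 12) + volume (tipc e \ closedBall (0 : E3) 1) := by
    rw [h4]
    exact add_le_add_left h5 _
  exact (ENNReal.add_le_add_iff_left ENNReal.ofReal_ne_top).1 h6

theorem tip_norm {e z : E3} (hz : z ∈ tipc e) : ‖z‖ ≤ √2 * inner ℝ e z := by
  obtain ⟨h1, h2, h3⟩ := hz
  rw [inv_sq2] at h1
  have hs2 := sq2
  have hs0 := sq2_pos
  have ht : 0 ≤ inner ℝ e z := by linarith
  refine (sq_le_sq₀ (norm_nonneg _) (mul_nonneg hs0.le ht)).1 ?_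
  rw [mul_pow, pow_two √2, hs2]
  have h4 : (√2 - inner ℝ e z) ^ 2 ≤ inner ℝ e z ^ 2 :=
    pow_le_pow_left₀ (by linarith) (by linarith) 2
  linarith

theorem tip_null {e e' : E3} (he : ‖e‖ = 1) (he' : ‖e'‖ = 1) (h : inner ℝ e e' ≤ 0) :
    volume (tipc e ∩ tipc e') = 0 := by
  have hsub : tipc e ∩ tipc e' ⊆ (Submodule.span ℝ {e + e'} : Set E3) := by
    rintro z ⟨hz, hz'⟩
    have h1 := tip_norm hz
    have h2 := tip_norm hz'
    have h3 : 1 / √2 ≤ inner ℝ e z := hz.1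
    have h3' : 1 / √2 ≤ inner ℝ e' z := hz'.1
    have hs2 := sq2
    have hs0 := sq2_pos
    rw [inv_sq2] at h3 h3'
    have hw : ‖e + e'‖ ≤ √2 := by
      refine (sq_le_sq₀ (norm_nonneg _) hs0.le).1 ?_
      rw [norm_add_sq_real, he, he', pow_two √2, hs2]
      linarith
    have hin : inner ℝ (e + e') z = inner ℝ e z + inner ℝ e' z := inner_add_left _ _ _
    have h4 : √2 * ‖z‖ ≤ inner ℝ (e + e') z := by
      rw [hin]
      nlinarith
    have h5 : ‖e + e'‖ * ‖z‖ ≤ inner ℝ (e + e') z :=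
      (mul_le_mul_of_nonneg_right hw (norm_nonneg _)).trans h4
    have h6 : inner ℝ (e + e') z = ‖e + e'‖ * ‖z‖ := le_antisymm (real_inner_le_norm _ _) h5
    have hw0 : ‖e + e'‖ ≠ 0 := by
      intro h0
      rw [h0, zero_mul, hin] at h6
      linarith
    have h7 := inner_eq_norm_mul_iff_real.1 h6
    have h8 : z = (‖e + e'‖⁻¹ * ‖z‖) • (e + e') := by
      rw [mul_smul, h7, smul_smul, inv_mul_cancel₀ hw0, one_smul]
    rw [h8]
    exact Submodule.smul_mem _ _ (Submodule.mem_span_singleton_self _)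
  refine measure_mono_null hsub ?_
  refine Measure.addHaar_submodule volume _ ?_
  intro htop
  have h1 : Module.finrank ℝ (Submodule.span ℝ {e + e'} : Submodule ℝ E3) ≤ 1 :=
    (finrank_span_le_card ({e + e'} : Set E3)).trans (by simp)
  rw [htop, finrank_top] at h1
  simp at h1

end KJAux

open KJAux

theorem two_tips {p q : E3} (hp : ‖p‖ = √2) (hq : ‖q‖ = √2) (hpq : inner ℝ p q ≤ 0) :
    ENNReal.ofReal (√2 * Real.pi) ≤ volume (convexHull ℝ (closedBall (0 : E3) 1 ∪ {p, q})) := by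
  have hs2 := sq2
  have hs0 := sq2_pos
  set W : Set E3 := convexHull ℝ (closedBall (0 : E3) 1 ∪ {p, q}) with hW
  set e : E3 := (√2)⁻¹ • p with he_def
  set e' : E3 := (√2)⁻¹ • q with he'_def
  have he : ‖e‖ = 1 := by
    rw [he_def, norm_smul, norm_inv, Real.norm_of_nonneg hs0.le, hp, inv_mul_cancel₀ hs0.ne']
  have he' : ‖e'‖ = 1 := by
    rw [he'_def, norm_smul, norm_inv, Real.norm_of_nonneg hs0.le, hq, inv_mul_cancel₀ hs0.ne']
  have hpe : p = √2 • e := by
    rw [he_def, smul_smul, mul_inv_cancel₀ hs0.ne', one_smul]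
  have hqe : q = √2 • e' := by
    rw [he'_def, smul_smul, mul_inv_cancel₀ hs0.ne', one_smul]
  have hee : inner ℝ e e' ≤ 0 := by
    rw [he_def, he'_def, inner_smul_left, inner_smul_right]
    have h1 : 0 ≤ (√2)⁻¹ := inv_nonneg.2 hs0.le
    have h2 : (√2)⁻¹ * inner ℝ p q ≤ 0 := mul_nonpos_of_nonneg_of_nonpos h1 hpq
    exact mul_nonpos_of_nonneg_of_nonpos (by simpa using h1) h2
  set B : Set E3 := closedBall (0 : E3) 1 with hB
  have hBW : B ⊆ W := subset_union_left.trans (subset_convexHull ℝ _)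
  have hXW : tipc e ⊆ W := fun z hz =>
    tip_sub he hpe hz subset_union_left (Or.inr (by simp))
  have hYW : tipc e' ⊆ W := fun z hz =>
    tip_sub he' hqe hz subset_union_left (Or.inr (by simp))
  have hsub : B ∪ ((tipc e \ B) ∪ (tipc e' \ B)) ⊆ W :=
    union_subset hBW (union_subset (diff_subset.trans hXW) (diff_subset.trans hYW))
  have hBm : MeasurableSet B := isClosed_closedBall.measurableSet
  have hXm : MeasurableSet (tipc e \ B) := (tip_closed e).measurableSet.diff hBm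
  have hYm : MeasurableSet (tipc e' \ B) := (tip_closed e').measurableSet.diff hBm
  have hdis : Disjoint B ((tipc e \ B) ∪ (tipc e' \ B)) := by
    rw [Set.disjoint_left]
    rintro z hz (h | h)
    · exact h.2 hz
    · exact h.2 hz
  have hnull : volume ((tipc e \ B) ∩ (tipc e' \ B)) = 0 := by
    refine measure_mono_null ?_ (tip_null he he' hee)
    rintro z ⟨hz1, hz2⟩
    exact ⟨hz1.1, hz2.1⟩
  have hunion : volume ((tipc e \ B) ∪ (tipc e' \ B)) =
      volume (tipc e \ B) + volume (tipc e' \ B) := by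
    have h1 := measure_union_add_inter (μ := volume) (tipc e \ B) hYm
    rw [hnull, add_zero] at h1
    exact h1
  have hvol : volume B = ENNReal.ofReal (Real.pi * 4 / 3) := by
    rw [hB, EuclideanSpace.volume_closedBall_fin_three]
    simp
  have h1 : √2 ≤ 1.42 := by
    rw [Real.sqrt_le_left (by norm_num)]
    norm_num
  have h2 : (1.4 : ℝ) ≤ √2 := by
    apply Real.le_sqrt_of_sq_le
    norm_num
  have hpi := Real.pi_pos
  have h3 : 0 ≤ Real.pi * (3 * √2 - 4) / 6 := by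
    have : 0 ≤ 3 * √2 - 4 := by linarith
    positivity
  calc ENNReal.ofReal (√2 * Real.pi)
      = ENNReal.ofReal (Real.pi * 4 / 3) + (ENNReal.ofReal (Real.pi * (3 * √2 - 4) / 6) +
          ENNReal.ofReal (Real.pi * (3 * √2 - 4) / 6)) := by
        rw [← ENNReal.ofReal_add h3 h3, ← ENNReal.ofReal_add (by positivity) (by positivity)]
        congr 1
        ring
    _ ≤ volume B + (volume (tipc e \ B) + volume (tipc e' \ B)) := by
        rw [hvol]
        exact add_le_add le_rfl (add_le_add (tip_diff he) (tip_diff he'))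
    _ = volume (B ∪ ((tipc e \ B) ∪ (tipc e' \ B))) := by
        rw [measure_union hdis (hXm.union hYm), hunion]
    _ ≤ volume W := measure_mono hsub

end Pool.Agent.Lib.FOLD
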