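import Pool.Agent.Lib.FOLD.Defs

/-!
# FOLD.KJ1: solids of revolution (1.2 h)
PROOF. By an orthonormal basis `e, e', e''` (`OrthonormalBasis.measurePreserving_repr`) we may take `e` = the first basis vector; the set is `{z | α ≤ z 0 ≤ β, z 1² + z 2² ≤ ρ(z 0)²}`. Identify `E3` with `ℝ × E2` (measure preserving) and use Fubini (`Measure.prod_apply`), the slice is a closed disc of radius `ρ(s) ≥ 0` of
area `π ρ(s)²` (`EuclideanSpace.volume_closedBall_fin_two` or similar). `tip_vol` and `cap_vol`: `∫_{1/√2}^{√2} π (√2 - s)² ds = π (1/√2)³/3 = π √2/12`; `∫_{1/√2}^1 π (1 - s²) ds = π (8 - 5√2)/12`.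
-/

set_option autoImplicit false

open MeasureTheory Set Filter Topology Metric
open scoped MeasureTheory ENNReal

namespace Pool.Agent.Lib.FOLD

namespace KJ1Aux

theorem exists_basis {e : E3} (he : ‖e‖ = 1) : ∃ b : OrthonormalBasis (Fin 3) ℝ E3, b 0 = e := by
  have hv : Orthonormal ℝ (({0} : Set (Fin 3)).domRestrict fun _ : Fin 3 => e) := by
    constructor
    · intro i
      exact he
    · intro i j hij
      exact absurd (Subsingleton.elim i j) hij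
  obtain ⟨b, hb⟩ := hv.exists_orthonormalBasis_extension_of_card_eq (ι := Fin 3)
    (by rw [finrank_euclideanSpace_fin, Fintype.card_fin])
  exact ⟨b, hb 0 rfl⟩

theorem disc_vol {s : ℝ} (hs : 0 ≤ s) :
    volume {u : Fin 2 → ℝ | u 0 ^ 2 + u 1 ^ 2 ≤ s ^ 2} = ENNReal.ofReal (Real.pi * s ^ 2) := by
  have h1 := (EuclideanSpace.volume_preserving_symm_measurableEquiv_toLp (Fin 2)).measure_preimage_equiv
    {u : Fin 2 → ℝ | u 0 ^ 2 + u 1 ^ 2 ≤ s ^ 2}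
  rw [← h1]
  have h2 : ((MeasurableEquiv.toLp 2 (Fin 2 → ℝ)).symm ⁻¹' {u : Fin 2 → ℝ | u 0 ^ 2 + u 1 ^ 2 ≤ s ^ 2}) =
      closedBall (0 : E2) s := by
    ext x
    rw [mem_closedBall_zero_iff, mem_preimage, mem_ofPred_eq]
    rw [← sq_le_sq₀ (norm_nonneg x) hs, EuclideanSpace.real_norm_sq_eq, Fin.sum_univ_two]
    rfl
  rw [h2, EuclideanSpace.volume_closedBall_fin_two, ← ENNReal.ofReal_pow hs,
    ← ENNReal.ofReal_mul (by positivity), mul_comm]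

theorem slice_vol {α β : ℝ} {ρ : ℝ → ℝ} (hρ : Continuous ρ) (hρ0 : ∀ s ∈ Icc α β, 0 ≤ ρ s) :
    volume {y : E3 | α ≤ y 0 ∧ y 0 ≤ β ∧ y 1 ^ 2 + y 2 ^ 2 ≤ ρ (y 0) ^ 2} =
      ∫⁻ s in Icc α β, ENNReal.ofReal (Real.pi * ρ s ^ 2) := by
  let T : Set (Fin 3 → ℝ) := {y | α ≤ y 0 ∧ y 0 ≤ β ∧ y 1 ^ 2 + y 2 ^ 2 ≤ ρ (y 0) ^ 2}
  have h1 := (EuclideanSpace.volume_preserving_symm_measurableEquiv_toLp (Fin 3)).measure_preimage_equiv T
  have h1' : volume {y : E3 | α ≤ y 0 ∧ y 0 ≤ β ∧ y 1 ^ 2 + y 2 ^ 2 ≤ ρ (y 0) ^ 2} = volume T := h1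
  rw [h1']
  let T' : Set (ℝ × (Fin 2 → ℝ)) := {z | α ≤ z.1 ∧ z.1 ≤ β ∧ z.2 0 ^ 2 + z.2 1 ^ 2 ≤ ρ z.1 ^ 2}
  have h2 := (volume_preserving_piFinSuccAbove (fun _ : Fin 3 => ℝ) 0).measure_preimage_equiv T'
  have h2' : volume T = volume T' := h2
  have hmT' : MeasurableSet T' := by
    have c1 : IsClosed {z : ℝ × (Fin 2 → ℝ) | α ≤ z.1} := isClosed_le continuous_const continuous_fst
    have c2 : IsClosed {z : ℝ × (Fin 2 → ℝ) | z.1 ≤ β} := isClosed_le continuous_fst continuous_const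
    have c3 : IsClosed {z : ℝ × (Fin 2 → ℝ) | z.2 0 ^ 2 + z.2 1 ^ 2 ≤ ρ z.1 ^ 2} :=
      isClosed_le (by fun_prop) (by fun_prop)
    exact (c1.inter (c2.inter c3)).measurableSet
  rw [h2', Measure.volume_eq_prod, Measure.prod_apply hmT']
  rw [← lintegral_indicator measurableSet_Icc]
  refine lintegral_congr fun s => ?_
  by_cases hs : s ∈ Icc α β
  · rw [indicator_of_mem hs, ← disc_vol (hρ0 s hs)]
    congr 1
    ext u
    exact ⟨fun h => h.2.2, fun h => ⟨hs.1, hs.2, h⟩⟩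
  · rw [indicator_of_notMem hs]
    have : (Prod.mk s ⁻¹' T') = ∅ := by
      ext u
      rw [mem_empty_iff_false, iff_false]
      exact fun h => hs ⟨h.1, h.2.1⟩
    rw [this, measure_empty]

end KJ1Aux

theorem rev_vol {e : E3} (he : ‖e‖ = 1) {α β : ℝ} (hab : α ≤ β) {ρ : ℝ → ℝ} (hρ : Continuous ρ)
    (hρ0 : ∀ s ∈ Icc α β, 0 ≤ ρ s) :
    volume {z : E3 | α ≤ inner ℝ e z ∧ inner ℝ e z ≤ β ∧ ‖z‖ ^ 2 - inner ℝ e z ^ 2 ≤ ρ (inner ℝ e z) ^ 2} =
      ENNReal.ofReal (∫ s in α..β, Real.pi * ρ s ^ 2) := by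
  obtain ⟨b, hb⟩ := KJ1Aux.exists_basis he
  have hmeas : MeasurableSet {y : E3 | α ≤ y 0 ∧ y 0 ≤ β ∧ y 1 ^ 2 + y 2 ^ 2 ≤ ρ (y 0) ^ 2} := by
    have c1 : IsClosed {y : E3 | α ≤ y 0} := isClosed_le continuous_const (by fun_prop)
    have c2 : IsClosed {y : E3 | y 0 ≤ β} := isClosed_le (by fun_prop) continuous_const
    have c3 : IsClosed {y : E3 | y 1 ^ 2 + y 2 ^ 2 ≤ ρ (y 0) ^ 2} :=
      isClosed_le (by fun_prop) (by fun_prop)
    exact (c1.inter (c2.inter c3)).measurableSet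
  have h1 := b.measurePreserving_repr.measure_preimage hmeas.nullMeasurableSet
  have h2 : (b.repr ⁻¹' {y : E3 | α ≤ y 0 ∧ y 0 ≤ β ∧ y 1 ^ 2 + y 2 ^ 2 ≤ ρ (y 0) ^ 2}) =
      {z : E3 | α ≤ inner ℝ e z ∧ inner ℝ e z ≤ β ∧ ‖z‖ ^ 2 - inner ℝ e z ^ 2 ≤ ρ (inner ℝ e z) ^ 2} := by
    ext z
    have h0 : b.repr z 0 = inner ℝ e z := by rw [b.repr_apply_apply, hb]
    have hn : ‖z‖ ^ 2 = b.repr z 0 ^ 2 + b.repr z 1 ^ 2 + b.repr z 2 ^ 2 := by
      rw [← b.repr.norm_map z, EuclideanSpace.real_norm_sq_eq, Fin.sum_univ_three]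
    rw [mem_preimage, mem_ofPred_eq, mem_ofPred_eq, ← h0, hn]
    have h3 : b.repr z 0 ^ 2 + b.repr z 1 ^ 2 + b.repr z 2 ^ 2 - b.repr z 0 ^ 2 =
      b.repr z 1 ^ 2 + b.repr z 2 ^ 2 := by ring
    rw [h3]
  rw [h2] at h1
  rw [h1, KJ1Aux.slice_vol hρ hρ0, intervalIntegral.integral_of_le hab,
    ← integral_Icc_eq_integral_Ioc, ofReal_integral_eq_lintegral_ofReal]
  · exact (Continuous.integrableOn_Icc (by fun_prop))
  · exact Filter.Eventually.of_forall fun s => by positivity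

/-- the cone over the cap of half angle `π/4` -/
def tipc (e : E3) : Set E3 := {z | 1 / √2 ≤ inner ℝ e z ∧ inner ℝ e z ≤ √2 ∧
  ‖z‖ ^ 2 - inner ℝ e z ^ 2 ≤ (√2 - inner ℝ e z) ^ 2}

theorem tip_vol {e : E3} (he : ‖e‖ = 1) : volume (tipc e) = ENNReal.ofReal (Real.pi * √2 / 12) := by
  have hs : √2 * √2 = (2 : ℝ) := Real.mul_self_sqrt (by norm_num)
  have hpos : 0 < √2 := Real.sqrt_pos.2 (by norm_num)
  have hinv : 1 / √2 = √2 / 2 := by
    rw [div_eq_div_iff hpos.ne' (by norm_num)]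
    linarith
  have hab : 1 / √2 ≤ √2 := by rw [hinv]; linarith
  have h := rev_vol he hab (ρ := fun s => √2 - s) (by fun_prop) (fun s hs => by linarith [hs.2])
  unfold tipc
  rw [h]
  congr 1
  have hint : ∫ s in (1 / √2)..√2, Real.pi * (√2 - s) ^ 2 =
      (fun s => -(Real.pi * (√2 - s) ^ 3 / 3)) √2 - (fun s => -(Real.pi * (√2 - s) ^ 3 / 3)) (1 / √2) := by
    refine intervalIntegral.integral_eq_sub_of_hasDerivAt (a := 1 / √2) (b := √2)
      (f := fun s => -(Real.pi * (√2 - s) ^ 3 / 3)) (f' := fun s => Real.pi * (√2 - s) ^ 2) ?_ ?_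
    · intro s _
      have h1 : HasDerivAt (fun s : ℝ => √2 - s) (-1) s := by
        simpa using (hasDerivAt_id s).const_sub √2
      have h2 := ((h1.pow 3).const_mul (Real.pi / 3)).neg
      convert h2 using 1
      · funext s; simp only [Pi.neg_apply, Pi.pow_apply]; ring
      · push_cast; ring
    · exact Continuous.intervalIntegrable (by fun_prop) _ _
  rw [hint]
  simp only [sub_self]
  rw [hinv]
  have h3 : (√2 - √2 / 2) ^ 3 = √2 / 4 := by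
    have : (√2 - √2 / 2) ^ 3 = (√2 * √2) * √2 / 8 := by ring
    rw [this, hs]; ring
  rw [h3]
  ring

theorem cap_vol {e : E3} (he : ‖e‖ = 1) :
    volume (closedBall (0 : E3) 1 ∩ {z | 1 / √2 ≤ inner ℝ e z}) = ENNReal.ofReal (Real.pi * (8 - 5 * √2) / 12) := by
  have hs : √2 * √2 = (2 : ℝ) := Real.mul_self_sqrt (by norm_num)
  have hpos : 0 < √2 := Real.sqrt_pos.2 (by norm_num)
  have hinv : 1 / √2 = √2 / 2 := by
    rw [div_eq_div_iff hpos.ne' (by norm_num)]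
    linarith
  have hle2 : √2 ≤ 2 := by nlinarith
  have hab : 1 / √2 ≤ 1 := by rw [hinv]; linarith
  have h := rev_vol he hab (ρ := fun s => √(1 - s ^ 2)) (by fun_prop)
    (fun s hs => Real.sqrt_nonneg _)
  have hset : closedBall (0 : E3) 1 ∩ {z | 1 / √2 ≤ inner ℝ e z} =
      {z : E3 | 1 / √2 ≤ inner ℝ e z ∧ inner ℝ e z ≤ 1 ∧
        ‖z‖ ^ 2 - inner ℝ e z ^ 2 ≤ (fun s => √(1 - s ^ 2)) (inner ℝ e z) ^ 2} := by
    ext z
    rw [mem_inter_iff, mem_closedBall_zero_iff, mem_ofPred_eq, mem_ofPred_eq]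
    have hcs : inner ℝ e z ≤ ‖z‖ := by
      have := real_inner_le_norm e z
      rwa [he, one_mul] at this
    have hp : 0 < 1 / √2 := by positivity
    constructor
    · rintro ⟨h1, h2⟩
      have h3 : inner ℝ e z ≤ 1 := hcs.trans h1
      refine ⟨h2, h3, ?_⟩
      have h4 : 0 ≤ 1 - inner ℝ e z ^ 2 := by nlinarith
      change ‖z‖ ^ 2 - inner ℝ e z ^ 2 ≤ √(1 - inner ℝ e z ^ 2) ^ 2
      rw [Real.sq_sqrt h4]
      nlinarith [norm_nonneg z]
    · rintro ⟨h1, h2, h3⟩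
      refine ⟨?_, h1⟩
      have h4 : 0 ≤ 1 - inner ℝ e z ^ 2 := by nlinarith
      change ‖z‖ ^ 2 - inner ℝ e z ^ 2 ≤ √(1 - inner ℝ e z ^ 2) ^ 2 at h3
      rw [Real.sq_sqrt h4] at h3
      have h5 : ‖z‖ ^ 2 ≤ 1 ^ 2 := by linarith
      exact (sq_le_sq₀ (norm_nonneg z) zero_le_one).1 h5
  rw [hset, h]
  congr 1
  have hcong : ∫ s in (1 / √2)..1, Real.pi * (fun s : ℝ => √(1 - s ^ 2)) s ^ 2 =
      ∫ s in (1 / √2)..1, Real.pi * (1 - s ^ 2) := by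
    apply intervalIntegral.integral_congr
    intro s hs
    rw [uIcc_of_le hab] at hs
    have hp : 0 < 1 / √2 := by positivity
    have h4 : 0 ≤ 1 - s ^ 2 := by nlinarith [hs.1, hs.2]
    change Real.pi * √(1 - s ^ 2) ^ 2 = Real.pi * (1 - s ^ 2)
    rw [Real.sq_sqrt h4]
  have hint : ∫ s in (1 / √2)..1, Real.pi * (1 - s ^ 2) =
      (fun s => Real.pi * (s - s ^ 3 / 3)) 1 - (fun s => Real.pi * (s - s ^ 3 / 3)) (1 / √2) := by
    refine intervalIntegral.integral_eq_sub_of_hasDerivAt (a := 1 / √2) (b := 1)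
      (f := fun s => Real.pi * (s - s ^ 3 / 3)) (f' := fun s => Real.pi * (1 - s ^ 2)) ?_ ?_
    · intro s _
      have h1 : HasDerivAt (fun s : ℝ => s ^ 3 / 3) (s ^ 2) s := by
        have h2 := (hasDerivAt_pow 3 s).div_const 3
        have e : ((3 : ℕ) : ℝ) * s ^ (3 - 1) / 3 = s ^ 2 := by
          norm_num
        rwa [e] at h2
      exact ((hasDerivAt_id s).sub h1).const_mul Real.pi
    · exact Continuous.intervalIntegrable (by fun_prop) _ _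
  rw [hcong, hint]
  simp only []
  rw [hinv]
  have h3 : (√2 / 2) ^ 3 = √2 / 4 := by
    have : (√2 / 2) ^ 3 = (√2 * √2) * √2 / 8 := by ring
    rw [this, hs]; ring
  rw [h3]
  ring

end Pool.Agent.Lib.FOLD
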