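import Pool.Agent.Lib.FOLD.KD
import Pool.Agent.Lib.FOLD.KI
import Pool.Agent.Lib.FOLD.KJ
import Pool.Agent.Lib.FOLD.FinA

/-!
# FOLD.KK: the upper bound (1 h)
PROOF. `F : Fold C L γ Q`, `a = f (γ 0)`, `b = f (γ (L/2))`, `a ≠ b` (`fx_ne_fy`), both in `frontier Q ⊆ Q`. `m`, `m'` from `cone_x`, `cone_y`; `p = -√2 m`, `q = -√2 m'`; `⟪p,q⟫ ≤ 0` (`tips_angle`). Choose `n k` by `face_normal`. `W = convexHull (closedBall 0 1 ∪ {p, q})`: compact (`Convex hull` of a compact set in finite dimension: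
`IsCompact.convexHull`), `⊆ closedBall 0 2`, and `⟪n k, w⟫ ≤ 1` on it: true on the ball and at `p`, `q` (`normal_tip` with a vertex `z = f (V k i) ≠ a`, two of the three vertices are different from `a`; `FNormal.supp`), the condition is convex. `two_tips`, `minkowski`: `27 √2 π (vol Q)² ≤ (vol C)³`. `upper`: `le_of_unit` with `M = ofReal (1/√(27√2π))`.
-/

set_option autoImplicit false

open MeasureTheory Set Filter Topology Metric
open scoped MeasureTheory ENNReal

namespace Pool.Agent.Lib.FOLD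

namespace KKAux

theorem tip {C : Set E2} {L : ℝ} {γ : ℝ → E2} {Q : Set E3} (F : Fold C L γ Q) {n : Fin F.n → E3}
    (hn : ∀ k, FNormal F k (n k)) {c μ : E3} (hc : c ∈ Q) (hμ : ‖μ‖ = 1)
    (hμc : ∀ z ∈ Q, ‖z - c‖ ≤ √2 * inner ℝ μ (z - c)) (k : Fin F.n) :
    inner ℝ (n k) (-(√2 • μ)) ≤ 1 := by
  have hV : ∀ i, F.V k i ∈ tri (F.V k) := fun i => subset_convexHull ℝ _ (mem_range_self i)
  have hne : F.f (F.V k 0) ≠ F.f (F.V k 1) := by
    rw [F.rigid k _ (hV 0), F.rigid k _ (hV 1)]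
    intro h
    have h1 := (F.indep k).injective ((F.A k).injective h)
    exact absurd h1 (by decide)
  have hex : ∃ i, F.f (F.V k i) ≠ c := by
    by_contra hcon
    push Not at hcon
    exact hne ((hcon 0).trans (hcon 1).symm)
  obtain ⟨i, hi⟩ := hex
  have hzQ : F.f (F.V k i) ∈ Q := by
    apply F.cpt.isClosed.frontier_subset
    rw [← F.onto]
    refine mem_image_of_mem _ ?_
    have h1 : F.V k i ∈ ⋃ k, tri (F.V k) := mem_iUnion.2 ⟨k, hV i⟩
    rwa [F.cover] at h1
  exact normal_tip hμ (hn k).norm hi (hμc _ hzQ) ((hn k).supp c hc _ (hV i))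

end KKAux

theorem upper_pl {C : Set E2} {L : ℝ} {γ : ℝ → E2} {Q : Set E3} (h : PLFolding C L γ Q) :
    27 * √2 * Real.pi * (volume Q).toReal ^ 2 ≤ (volume C).toReal ^ 3 := by
  obtain ⟨F⟩ := h
  have hfr : frontier Q ⊆ Q := F.cpt.isClosed.frontier_subset
  have hCcl : frontier C ⊆ C := F.region.cpt.isClosed.frontier_subset
  have hL := F.arc.pos
  have hmem : ∀ s ∈ Icc (0 : ℝ) L, F.f (γ s) ∈ Q := fun s hs => by
    apply hfr
    rw [← F.onto]
    refine mem_image_of_mem _ (hCcl ?_)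
    rw [← F.arc.onto]
    exact mem_image_of_mem _ hs
  have ha : F.f (γ 0) ∈ Q := hmem 0 ⟨le_rfl, hL.le⟩
  have hb : F.f (γ (L / 2)) ∈ Q := hmem (L / 2) ⟨by linarith, by linarith⟩
  obtain ⟨m, hm, hmc⟩ := cone_x F
  obtain ⟨m', hm', hmc'⟩ := cone_y F
  have hab : F.f (γ 0) ≠ F.f (γ (L / 2)) := fx_ne_fy F
  have hang := tips_angle hm hm' hab (hmc _ hb) (hmc' _ ha)
  choose n hn using face_normal F
  have hs2 : √2 ≤ 2 := by
    rw [Real.sqrt_le_left (by norm_num)]
    norm_num
  have hnorm : ∀ μ : E3, ‖μ‖ = 1 → ‖-(√2 • μ)‖ = √2 := fun μ hμ => by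
    rw [norm_neg, norm_smul, hμ, mul_one, Real.norm_of_nonneg (Real.sqrt_nonneg 2)]
  have hp := hnorm m hm
  have hq := hnorm m' hm'
  set p : E3 := -(√2 • m) with hpdef
  set q : E3 := -(√2 • m') with hqdef
  have hW2 : closure (convexHull ℝ (closedBall (0 : E3) 1 ∪ {p, q})) ⊆ closedBall 0 2 := by
    refine closure_minimal (convexHull_min (union_subset
      (closedBall_subset_closedBall one_le_two) ?_) (convex_closedBall 0 2)) isClosed_closedBall
    rintro x (rfl | rfl)
    · rw [mem_closedBall_zero_iff, hp]; exact hs2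
    · rw [mem_closedBall_zero_iff, hq]; exact hs2
  have hWc : IsCompact (closure (convexHull ℝ (closedBall (0 : E3) 1 ∪ {p, q}))) :=
    (isCompact_closedBall (0 : E3) 2).of_isClosed_subset isClosed_closure hW2
  have hWne : (closure (convexHull ℝ (closedBall (0 : E3) 1 ∪ {p, q}))).Nonempty :=
    ⟨p, subset_closure (subset_convexHull ℝ _ (Or.inr (Or.inl rfl)))⟩
  have hWn : ∀ w ∈ closure (convexHull ℝ (closedBall (0 : E3) 1 ∪ {p, q})), ∀ k,
      inner ℝ (n k) w ≤ 1 := by
    intro w hw k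
    have hcl : IsClosed {w : E3 | inner ℝ (n k) w ≤ 1} :=
      isClosed_le (continuous_const.inner continuous_id) continuous_const
    have hcv : Convex ℝ {w : E3 | inner ℝ (n k) w ≤ 1} := by
      intro x hx y hy s t hs ht hst
      rw [mem_ofPred_eq] at hx hy ⊢
      rw [inner_add_right, inner_smul_right, inner_smul_right]
      nlinarith
    refine closure_minimal (convexHull_min (union_subset ?_ ?_) hcv) hcl hw
    · intro x hx
      rw [mem_closedBall_zero_iff] at hx
      rw [mem_ofPred_eq]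
      have h1 := real_inner_le_norm (n k) x
      rw [(hn k).norm, one_mul] at h1
      exact h1.trans hx
    · rintro x (rfl | rfl)
      · exact KKAux.tip F hn ha hm hmc k
      · exact KKAux.tip F hn hb hm' hmc' k
  have hvol : √2 * Real.pi ≤
      (volume (closure (convexHull ℝ (closedBall (0 : E3) 1 ∪ {p, q})))).toReal := by
    have h1 := (two_tips hp hq hang).trans (measure_mono subset_closure)
    exact (ENNReal.ofReal_le_iff_le_toReal hWc.measure_lt_top.ne).1 h1
  have hmk := minkowski F hn hW2 hWc hWne hWn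
  have hv := sq_nonneg (volume Q).toReal
  calc 27 * √2 * Real.pi * (volume Q).toReal ^ 2
      = 27 * (volume Q).toReal ^ 2 * (√2 * Real.pi) := by ring
    _ ≤ 27 * (volume Q).toReal ^ 2 *
        (volume (closure (convexHull ℝ (closedBall (0 : E3) 1 ∪ {p, q})))).toReal :=
      mul_le_mul_of_nonneg_left hvol (by positivity)
    _ ≤ _ := hmk

theorem upper {C : Set E2} {L : ℝ} {γ : ℝ → E2} {P : Set E3} (h : Folding C L γ P) (hA : volume C = 1) :
    volume P ≤ ENNReal.ofReal (1 / √(27 * √2 * Real.pi)) := by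
  refine le_of_unit ?_ h hA
  intro C' L' γ' Q hPL hC'
  have h1 := upper_pl hPL
  rw [hC', ENNReal.toReal_one, one_pow] at h1
  obtain ⟨F⟩ := hPL
  have hfin : volume Q ≠ ⊤ := F.cpt.measure_lt_top.ne
  have hc : 0 < 27 * √2 * Real.pi := by positivity
  rw [← ENNReal.ofReal_toReal hfin]
  apply ENNReal.ofReal_le_ofReal
  rw [le_div_iff₀ (Real.sqrt_pos.2 hc)]
  have h0 : 0 ≤ (volume Q).toReal := ENNReal.toReal_nonneg
  have h2 : ((volume Q).toReal * √(27 * √2 * Real.pi)) ^ 2 ≤ 1 ^ 2 := by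
    rw [mul_pow, Real.sq_sqrt hc.le, one_pow]
    linarith
  exact (sq_le_sq₀ (by positivity) zero_le_one).1 h2

end Pool.Agent.Lib.FOLD
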