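import Pool.Agent.Lib.FOLD.Fro

/-!
# FOLD.Per: bounds for the perimeter (0.8 h)
PROOF. `per_upper`: `C ⊆ closedBall 0 R`, `frontier_mono` in `E2` with `d = 1`: `μH[1](frontier C) ≤ μH[1](frontier (closedBall 0 R)) ≤ μH[1](sphere 0 R)`, and the circle is the image of `[0, 2π]` under a Lipschitz map (`θ ↦ (R cos θ, R sin θ)`,
`Complex.arg` or `polarCoord`), so the measure is finite, bounded by some `M` depending only on `R`. `per_lower`: every point `γ s` has distance `≤ s ≤ L` from `γ 0` (`arc.lip`), so `frontier C ⊆ closedBall (γ 0) L`, and `C ⊆ convexHull (frontier C)`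
(every line through an interior point of the compact `C` meets the frontier on both sides), hence `C ⊆ closedBall (γ 0) L` and `volume C ≤ volume (closedBall) = π L² ≤ 4 L²`.
-/

set_option autoImplicit false

open MeasureTheory Set Filter Topology Metric
open scoped MeasureTheory ENNReal

namespace Pool.Agent.Lib.FOLD

namespace PerAux

/-- the parametrised circle -/
noncomputable def circ (R : ℝ) (θ : ℝ) : E2 := !₂[R * Real.cos θ, R * Real.sin θ]

theorem circ_lip (R : ℝ) : LipschitzWith ‖R‖₊ (circ R) := by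
  refine LipschitzWith.of_dist_le_mul fun a b => ?_
  rw [EuclideanSpace.dist_eq, Real.dist_eq]
  simp only [Fin.sum_univ_two, circ, coe_nnnorm, Real.norm_eq_abs]
  refine Real.sqrt_le_iff.2 ⟨by positivity, ?_⟩
  have h0 : dist ((!₂[R * Real.cos a, R * Real.sin a] : E2) 0) ((!₂[R * Real.cos b, R * Real.sin b] : E2) 0) =
      |R * Real.cos a - R * Real.cos b| := by simp [Real.dist_eq]
  have h1 : dist ((!₂[R * Real.cos a, R * Real.sin a] : E2) 1) ((!₂[R * Real.cos b, R * Real.sin b] : E2) 1) =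
      |R * Real.sin a - R * Real.sin b| := by simp [Real.dist_eq]
  rw [h0, h1, sq_abs, sq_abs, mul_pow, sq_abs, sq_abs]
  have h2 : (R * Real.cos a - R * Real.cos b) ^ 2 + (R * Real.sin a - R * Real.sin b) ^ 2 =
      R ^ 2 * (2 - 2 * Real.cos (a - b)) := by
    rw [Real.cos_sub]
    have ha := Real.sin_sq_add_cos_sq a
    have hb := Real.sin_sq_add_cos_sq b
    linear_combination R ^ 2 * ha + R ^ 2 * hb
  rw [h2]
  refine mul_le_mul_of_nonneg_left ?_ (sq_nonneg R)
  have h3 := Real.one_sub_sq_div_two_le_cos (x := a - b)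
  linarith

theorem sphere_sub (R : ℝ) : sphere (0 : E2) R ⊆ circ R '' Icc (-Real.pi) Real.pi := by
  intro z hz
  have hz1 : ‖z‖ = R := by simpa using hz
  set w : ℂ := ⟨z 0, z 1⟩ with hw
  have hwn : ‖w‖ = R := by
    rw [← hz1, EuclideanSpace.norm_eq, Complex.norm_eq_sqrt_sq_add_sq]
    simp [Fin.sum_univ_two, hw]
  refine ⟨Complex.arg w, ⟨(Complex.neg_pi_lt_arg w).le, Complex.arg_le_pi w⟩, ?_⟩
  have h1 := Complex.norm_mul_cos_arg w
  have h2 := Complex.norm_mul_sin_arg w
  rw [hwn] at h1 h2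
  ext i
  fin_cases i
  · simpa [circ] using h1
  · simpa [circ] using h2

theorem sphere_fin (R : ℝ) : μH[1] (sphere (0 : E2) R) < ⊤ := by
  refine (measure_mono (sphere_sub R)).trans_lt ?_
  refine ((circ_lip R).hausdorffMeasure_image_le zero_le_one _).trans_lt ?_
  rw [hausdorffMeasure_real, Real.volume_Icc, ENNReal.rpow_one]
  exact ENNReal.mul_lt_top ENNReal.coe_lt_top ENNReal.ofReal_lt_top

end PerAux

open PerAux

theorem per_upper (R : ℝ) : ∃ M : ℝ, 0 < M ∧ ∀ C : Set E2, IsCompact C → Convex ℝ C → C.Nonempty →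
    C ⊆ closedBall 0 R → μH[1] (frontier C) ≤ ENNReal.ofReal M := by
  refine ⟨(μH[1] (sphere (0 : E2) R)).toReal + 1, by positivity, ?_⟩
  intro C hC hc hn hsub
  have h1 : μH[1] (frontier C) ≤ μH[1] (frontier (closedBall (0 : E2) R)) :=
    frontier_mono hC hc hn (isCompact_closedBall 0 R) hsub zero_le_one
  have h2 : μH[1] (frontier (closedBall (0 : E2) R)) ≤ μH[1] (sphere (0 : E2) R) :=
    measure_mono frontier_closedBall_subset_sphere
  refine (h1.trans h2).trans ?_
  rw [← ENNReal.ofReal_toReal (sphere_fin R).ne]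
  exact ENNReal.ofReal_le_ofReal (by rw [ENNReal.toReal_ofReal ENNReal.toReal_nonneg]; linarith)

theorem sub_ball_of_frontier {E : Type*} [NormedAddCommGroup E] [InnerProductSpace ℝ E]
    [FiniteDimensional ℝ E] [Nontrivial E] {C : Set E} (hC : IsCompact C) {x : E} {R : ℝ}
    (h : frontier C ⊆ closedBall x R) : C ⊆ closedBall x R := by
  intro y hy
  obtain ⟨z, hz, hmax⟩ := hC.exists_isMaxOn ⟨y, hy⟩
    (Continuous.continuousOn (continuous_id.dist continuous_const : Continuous fun w : E => dist w x))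
  have hzf : z ∈ frontier C := by
    rw [hC.isClosed.frontier_eq]
    refine ⟨hz, fun hzi => ?_⟩
    obtain ⟨ε, hε, hball⟩ := Metric.mem_nhds_iff.1 (mem_interior_iff_mem_nhds.1 hzi)
    obtain ⟨u, hu1, hu2⟩ : ∃ u : E, ‖u‖ = 1 ∧ z - x = ‖z - x‖ • u := by
      by_cases hzx : z - x = 0
      · obtain ⟨v, hv⟩ := exists_ne (0 : E)
        have hv' : ‖v‖ ≠ 0 := norm_ne_zero_iff.2 hv
        refine ⟨‖v‖⁻¹ • v, ?_, ?_⟩
        · rw [norm_smul, norm_inv, norm_norm, inv_mul_cancel₀ hv']
        · rw [hzx, norm_zero, zero_smul]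
      · have hn : ‖z - x‖ ≠ 0 := norm_ne_zero_iff.2 hzx
        refine ⟨‖z - x‖⁻¹ • (z - x), ?_, ?_⟩
        · rw [norm_smul, norm_inv, norm_norm, inv_mul_cancel₀ hn]
        · rw [smul_smul, mul_inv_cancel₀ hn, one_smul]
    have hp : z + (ε / 2) • u ∈ C := by
      apply hball
      rw [mem_ball, dist_eq_norm, add_sub_cancel_left, norm_smul, hu1, mul_one, Real.norm_eq_abs,
        abs_of_pos (by linarith)]
      linarith
    have h1 : dist (z + (ε / 2) • u) x ≤ dist z x := hmax hp
    have h2 : z + (ε / 2) • u - x = (‖z - x‖ + ε / 2) • u := by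
      rw [add_smul, ← hu2]; abel
    rw [dist_eq_norm, dist_eq_norm, h2, norm_smul, hu1, mul_one, Real.norm_eq_abs,
      abs_of_pos (by positivity)] at h1
    linarith
  have h3 : dist y x ≤ dist z x := hmax hy
  exact mem_closedBall.2 (h3.trans (mem_closedBall.1 (h hzf)))

theorem per_lower {C : Set E2} {L : ℝ} {γ : ℝ → E2} (hC : Region C) (hγ : ArcParam C L γ) :
    (volume C).toReal ≤ 4 * L ^ 2 := by
  have hL := hγ.pos
  have h1 : frontier C ⊆ closedBall (γ 0) L := by
    rw [← hγ.onto]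
    rintro _ ⟨s, hs, rfl⟩
    have h := hγ.lip.dist_le_mul s hs 0 ⟨le_refl _, hL.le⟩
    rw [NNReal.coe_one, one_mul, Real.dist_eq, sub_zero, abs_of_nonneg hs.1] at h
    exact mem_closedBall.2 (h.trans hs.2)
  have h2 : C ⊆ closedBall (γ 0) L := sub_ball_of_frontier hC.cpt h1
  have h3 : volume C ≤ ENNReal.ofReal L ^ 2 * ENNReal.ofReal Real.pi := by
    have := measure_mono (μ := volume) h2
    rwa [EuclideanSpace.volume_closedBall_fin_two] at this
  have h4 : ENNReal.ofReal L ^ 2 * ENNReal.ofReal Real.pi = ENNReal.ofReal (L ^ 2 * Real.pi) := by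
    rw [ENNReal.ofReal_mul (sq_nonneg L), ENNReal.ofReal_pow hL.le]
  rw [h4] at h3
  refine ENNReal.toReal_le_of_le_ofReal (by positivity) (h3.trans (ENNReal.ofReal_le_ofReal ?_))
  have := Real.pi_le_four
  nlinarith [sq_nonneg L]

end Pool.Agent.Lib.FOLD
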