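import Pool.Agent.Lib.FOLD.Per
import Pool.Agent.Lib.FOLD.PeC
import Pool.Agent.Lib.FOLD.FrC
import Pool.Agent.Lib.FOLD.VoC
import Pool.Agent.Lib.FOLD.Arz

/-!
# FOLD.PlL: limits of regions with parametrised boundary (1.5 h)
PROOF. `blaschke`: a subsequence of `c i` converges to a compact `C ≠ ∅`, convex (`lim_convex`), `volume C = 1` (`vol_cont`), so `interior C ≠ ∅` (otherwise volume `0`: `Convex.addHaar_frontier`). `per_upper`: `l i ≤ M` (`arc.len`), `per_lower`: `1 ≤ 4 (l i)²`,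
so `l i ≥ 1/2`; a further subsequence has `l i → L ∈ [1/2, M]`. `arzela` on `[0,1]` with `h i t = g i (l i * t)`, Lipschitz constant `M`, values in `frontier (c i) ⊆ closedBall 0 R`: uniform limit `h'` of a subsequence. `γ s = h' (s / L)`.
`|h' t - h' t'| = lim ≤ L |t - t'|`, so `γ` is `1`-Lipschitz on `[0, L]`; `γ L = γ 0`. `γ s ∈ frontier C` (`fr_mem`); for `z ∈ frontier C` there are `z_i ∈ frontier (c i)`, `z_i → z` (`fr_exists`), `z_i = g i (l i t_i)`, `t_i → t` along a subsequence,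
`z = γ (L t)`. `μH[1] (frontier C) ≤ μH[1] (Icc 0 L) = L < ∞` (Lipschitz image), so `per_cont` (`d = 1`) gives `ofReal (l i) = μH[1] (frontier (c i)) → μH[1] (frontier C)`, which is `ofReal L`.
-/

set_option autoImplicit false

open MeasureTheory Set Filter Topology Metric
open scoped MeasureTheory ENNReal

namespace Pool.Agent.Lib.FOLD

namespace PlLAux

/-- Step 1: the limit region. -/
theorem step1 {c : ℕ → Set E2} {R : ℝ} (hC : ∀ i, Region (c i)) (hA : ∀ i, volume (c i) = 1)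
    (hR : ∀ i, c i ⊆ closedBall 0 R) :
    ∃ (φ : ℕ → ℕ) (C : Set E2), StrictMono φ ∧ Region C ∧ volume C = 1 ∧
      Tendsto (fun i => hausdorffDist (c (φ i)) C) atTop (𝓝 0) := by
  have hn : ∀ i, (c i).Nonempty := fun i => (hC i).int.mono interior_subset
  obtain ⟨φ, C, hφ, hCc, hCn, hlim⟩ := blaschke (fun i => (hC i).cpt) hn hR
  have hCv : Convex ℝ C := lim_convex (K := fun i => c (φ i)) (fun i => (hC (φ i)).cpt)
    (fun i => hn (φ i)) (fun i => (hC (φ i)).cvx) hCc hCn hlim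
  have hvol := vol_cont (K := fun i => c (φ i)) (fun i => (hC (φ i)).cpt)
    (fun i => hn (φ i)) (fun i => (hC (φ i)).cvx) hCc hCn hCv hlim
  have hv1 : volume C = 1 := by
    simp only [hA] at hvol
    exact tendsto_nhds_unique hvol tendsto_const_nhds
  refine ⟨φ, C, hφ, ⟨hCc, hCv, ?_⟩, hv1, hlim⟩
  by_contra hne
  rw [not_nonempty_iff_eq_empty] at hne
  have h0 : volume (frontier C) = 0 := hCv.addHaar_frontier volume
  rw [hCc.isClosed.frontier_eq, hne, sdiff_empty, hv1] at h0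
  exact one_ne_zero h0

/-- Step 2: bounds for the perimeters. -/
theorem step2 {c : ℕ → Set E2} {l : ℕ → ℝ} {g : ℕ → ℝ → E2} {R : ℝ} (hC : ∀ i, Region (c i))
    (hg : ∀ i, ArcParam (c i) (l i) (g i)) (hA : ∀ i, volume (c i) = 1)
    (hR : ∀ i, c i ⊆ closedBall 0 R) : ∃ M : ℝ, 0 < M ∧ ∀ i, l i ∈ Icc (1 / 2 : ℝ) M := by
  obtain ⟨M, hM, hM2⟩ := per_upper R
  refine ⟨M, hM, fun i => ⟨?_, ?_⟩⟩
  · have h := per_lower (hC i) (hg i)
    rw [hA i, ENNReal.toReal_one] at h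
    have := (hg i).pos
    nlinarith
  · have h := hM2 (c i) (hC i).cpt (hC i).cvx ((hC i).int.mono interior_subset) (hR i)
    rw [(hg i).len] at h
    exact (ENNReal.ofReal_le_ofReal_iff hM.le).1 h

/-- The limit of the parametrisations is an arc length parametrisation. -/
theorem step3 {c : ℕ → Set E2} {l : ℕ → ℝ} {g : ℕ → ℝ → E2} {C : Set E2} {L : ℝ} {h' : ℝ → E2}
    {M : NNReal}
    (hC : ∀ i, Region (c i)) (hg : ∀ i, ArcParam (c i) (l i) (g i)) (hCr : Region C)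
    (hlim : Tendsto (fun i => hausdorffDist (c i) C) atTop (𝓝 0))
    (hl : Tendsto l atTop (𝓝 L)) (hL : 0 < L) (hLip : LipschitzOnWith M h' (Icc (0 : ℝ) 1))
    (hu : ∀ ε > 0, ∀ᶠ i in atTop, ∀ t ∈ Icc (0 : ℝ) 1, dist (g i (l i * t)) (h' t) < ε) :
    ArcParam C L (fun s => h' (s / L)) := by
  have hn : ∀ i, (c i).Nonempty := fun i => (hC i).int.mono interior_subset
  have hCn : C.Nonempty := hCr.int.mono interior_subset
  have hpt : ∀ t ∈ Icc (0 : ℝ) 1, Tendsto (fun i => g i (l i * t)) atTop (𝓝 (h' t)) := by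
    intro t ht
    rw [Metric.tendsto_atTop']
    intro ε hε
    obtain ⟨N, hN⟩ := Filter.eventually_atTop.1 (hu ε hε)
    exact ⟨N, fun i hi => hN i hi.le t ht⟩
  have hmem : ∀ i, ∀ t ∈ Icc (0 : ℝ) 1, l i * t ∈ Icc 0 (l i) := by
    intro i t ht
    have := (hg i).pos
    refine ⟨mul_nonneg this.le ht.1, ?_⟩
    nlinarith [ht.2]
  have hdiv : ∀ s ∈ Icc (0 : ℝ) L, s / L ∈ Icc (0 : ℝ) 1 := by
    intro s hs
    exact ⟨div_nonneg hs.1 hL.le, (div_le_one hL).2 hs.2⟩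
  have hlip : LipschitzOnWith 1 (fun s => h' (s / L)) (Icc 0 L) := by
    refine LipschitzOnWith.of_dist_le_mul fun s hs t ht => ?_
    have h1 := (hpt (s / L) (hdiv s hs)).dist (hpt (t / L) (hdiv t ht))
    have h2 : Tendsto (fun i => l i * dist (s / L) (t / L)) atTop (𝓝 (L * dist (s / L) (t / L))) :=
      hl.mul_const _
    have h3 := le_of_tendsto_of_tendsto' h1 h2 (fun i => by
      have h4 := (hg i).lip.dist_le_mul _ (hmem i (s / L) (hdiv s hs)) _
        (hmem i (t / L) (hdiv t ht))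
      refine h4.trans (le_of_eq ?_)
      rw [Real.dist_eq, Real.dist_eq, ← mul_sub, abs_mul, abs_of_pos (hg i).pos]
      simp)
    refine h3.trans (le_of_eq ?_)
    rw [Real.dist_eq, Real.dist_eq, ← sub_div, abs_div, abs_of_pos hL, mul_div_cancel₀ _ hL.ne']
    simp
  have himg : (fun s => h' (s / L)) '' Icc 0 L = frontier C := by
    apply Subset.antisymm
    · rintro _ ⟨s, hs, rfl⟩
      refine fr_mem (K := c) (fun i => (hC i).cpt) hn (fun i => (hC i).cvx) hCr.cpt hCn hCr.cvx hlim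
        (z := fun i => g i (l i * (s / L))) (fun i => ?_) (hpt _ (hdiv s hs))
      rw [← (hg i).onto]
      exact mem_image_of_mem _ (hmem i _ (hdiv s hs))
    · intro z hz
      obtain ⟨w, hw, hwz⟩ := fr_exists (K := c) (fun i => (hC i).cpt) hn hCr.cpt hCn hlim hz
      have hex : ∀ i, ∃ t ∈ Icc (0 : ℝ) 1, g i (l i * t) = w i := by
        intro i
        have h1 := hw i
        rw [← (hg i).onto] at h1
        obtain ⟨s, hs, hs2⟩ := h1
        have hp := (hg i).pos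
        refine ⟨s / l i, ⟨div_nonneg hs.1 hp.le, (div_le_one hp).2 hs.2⟩, ?_⟩
        rw [mul_div_cancel₀ _ hp.ne', hs2]
      choose t ht htw using hex
      obtain ⟨t0, ht0, ψ, hψ, hψt⟩ := isCompact_Icc.tendsto_subseq ht
      have hcont : Tendsto (fun i => h' (t (ψ i))) atTop (𝓝 (h' t0)) := by
        have h1 := hLip.continuousOn t0 ht0
        refine h1.tendsto.comp (tendsto_nhdsWithin_iff.2 ⟨hψt, Filter.Eventually.of_forall fun i => ?_⟩)
        exact ht (ψ i)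
      have hd : Tendsto (fun i => dist (w (ψ i)) (h' (t (ψ i)))) atTop (𝓝 0) := by
        rw [Metric.tendsto_atTop']
        intro ε hε
        obtain ⟨N, hN⟩ := Filter.eventually_atTop.1 (hu ε hε)
        refine ⟨N, fun i hi => ?_⟩
        have h1 := hN (ψ i) (hi.le.trans (hψ.id_le i)) (t (ψ i)) (ht (ψ i))
        rw [htw] at h1
        rw [Real.dist_0_eq_abs, abs_of_nonneg dist_nonneg]
        exact h1
      have hw2 : Tendsto (fun i => w (ψ i)) atTop (𝓝 z) := hwz.comp hψ.tendsto_atTop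
      have h0 : dist z (h' t0) = 0 := tendsto_nhds_unique (hw2.dist hcont) hd
      refine ⟨L * t0, ⟨mul_nonneg hL.le ht0.1, ?_⟩, ?_⟩
      · nlinarith [ht0.2]
      · have : L * t0 / L = t0 := by field_simp
        simp only [this]
        exact (dist_eq_zero.1 h0).symm
  have hfin : μH[1] (frontier C) ≠ ⊤ := by
    rw [← himg]
    refine ne_top_of_le_ne_top ?_ (hlip.hausdorffMeasure_image_le zero_le_one)
    rw [hausdorffMeasure_real, Real.volume_Icc]
    simp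
  refine ⟨hL, hlip, ?_, himg, ?_⟩
  · have h1 := hpt 1 ⟨zero_le_one, le_rfl⟩
    have h2 := hpt 0 ⟨le_rfl, zero_le_one⟩
    simp only [mul_one, mul_zero] at h1 h2
    have h3 : h' 1 = h' 0 := by
      refine tendsto_nhds_unique h1 ?_
      refine h2.congr fun i => ?_
      rw [(hg i).closed]
    simp only [div_self hL.ne', zero_div]
    exact h3
  · have h1 := per_cont (K := c) (fun i => (hC i).cpt) hn (fun i => (hC i).cvx) hCr.cpt hCr.int
      hCr.cvx hlim (d := 1) zero_le_one hfin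
    have h2 : Tendsto (fun i => μH[1] (frontier (c i))) atTop (𝓝 (ENNReal.ofReal L)) := by
      refine (ENNReal.tendsto_ofReal hl).congr fun i => ?_
      rw [(hg i).len]
    exact tendsto_nhds_unique h1 h2

end PlLAux

open PlLAux

theorem plane_lim {c : ℕ → Set E2} {l : ℕ → ℝ} {g : ℕ → ℝ → E2} {R : ℝ} (hC : ∀ i, Region (c i))
    (hg : ∀ i, ArcParam (c i) (l i) (g i)) (hA : ∀ i, volume (c i) = 1)
    (hR : ∀ i, c i ⊆ closedBall 0 R) :
    ∃ (φ : ℕ → ℕ) (C : Set E2) (L : ℝ) (γ : ℝ → E2), StrictMono φ ∧ Region C ∧ ArcParam C L γ ∧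
      volume C = 1 ∧ Tendsto (fun i => hausdorffDist (c (φ i)) C) atTop (𝓝 0) ∧
      Tendsto (fun i => l (φ i)) atTop (𝓝 L) ∧
      ∀ ε > 0, ∀ᶠ i in atTop, ∀ t ∈ Icc (0 : ℝ) 1,
        dist (g (φ i) (l (φ i) * t)) (γ (L * t)) < ε := by
  obtain ⟨φ₁, C, hφ₁, hCr, hCv, hlim⟩ := step1 hC hA hR
  obtain ⟨M, hM, hlM⟩ := step2 hC hg hA hR
  obtain ⟨L, hLm, φ₂, hφ₂, hlL⟩ := isCompact_Icc.tendsto_subseq (fun i => hlM (φ₁ i))
  have hL : 0 < L := lt_of_lt_of_le (by norm_num) hLm.1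
  have hLip : ∀ i, LipschitzOnWith M.toNNReal
      (fun t => g (φ₁ (φ₂ i)) (l (φ₁ (φ₂ i)) * t)) (Icc (0 : ℝ) 1) := by
    intro i
    refine LipschitzOnWith.of_dist_le_mul fun s hs t ht => ?_
    set j := φ₁ (φ₂ i) with hj
    have hp := (hg j).pos
    have hm : ∀ t ∈ Icc (0 : ℝ) 1, l j * t ∈ Icc 0 (l j) := by
      intro t ht
      exact ⟨mul_nonneg hp.le ht.1, by nlinarith [ht.2]⟩
    have h4 := (hg j).lip.dist_le_mul _ (hm s hs) _ (hm t ht)
    refine h4.trans ?_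
    rw [Real.dist_eq, Real.dist_eq, ← mul_sub, abs_mul, abs_of_pos hp, Real.coe_toNNReal _ hM.le]
    simp only [NNReal.coe_one, one_mul]
    exact mul_le_mul_of_nonneg_right (hlM j).2 (abs_nonneg _)
  have hball : ∀ i, ∀ t ∈ Icc (0 : ℝ) 1,
      g (φ₁ (φ₂ i)) (l (φ₁ (φ₂ i)) * t) ∈ closedBall (0 : E2) R := by
    intro i t ht
    set j := φ₁ (φ₂ i) with hj
    have hp := (hg j).pos
    have h1 : g j (l j * t) ∈ frontier (c j) := by
      rw [← (hg j).onto]
      exact mem_image_of_mem _ ⟨mul_nonneg hp.le ht.1, by nlinarith [ht.2]⟩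
    exact hR j ((hC j).cpt.isClosed.frontier_subset h1)
  obtain ⟨φ₃, h', hφ₃, hh', hu⟩ := arzela (isCompact_Icc : IsCompact (Icc (0 : ℝ) 1)) hLip hball
  have hsm : StrictMono (fun i => φ₁ (φ₂ (φ₃ i))) := hφ₁.comp (hφ₂.comp hφ₃)
  have hl3 : Tendsto (fun i => l (φ₁ (φ₂ (φ₃ i)))) atTop (𝓝 L) :=
    hlL.comp hφ₃.tendsto_atTop
  have hc3 : Tendsto (fun i => hausdorffDist (c (φ₁ (φ₂ (φ₃ i)))) C) atTop (𝓝 0) :=
    hlim.comp (hφ₂.comp hφ₃).tendsto_atTop
  refine ⟨fun i => φ₁ (φ₂ (φ₃ i)), C, L, fun s => h' (s / L), hsm, hCr, ?_, hCv, hc3, hl3, ?_⟩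
  · exact step3 (c := fun i => c (φ₁ (φ₂ (φ₃ i)))) (l := fun i => l (φ₁ (φ₂ (φ₃ i))))
      (g := fun i => g (φ₁ (φ₂ (φ₃ i)))) (fun i => hC _) (fun i => hg _) hCr hc3 hl3 hL hh' hu
  · intro ε hε
    refine (hu ε hε).mono fun i hi t ht => ?_
    have : L * t / L = t := by field_simp
    simp only [this]
    exact hi t ht

end Pool.Agent.Lib.FOLD
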