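import Pool.Agent.Lib.FOLD.Defs

/-!
# FOLD.Pro: nearest point projection and supporting normals (0.8 h)
PROOF. `exists_proj`: `exists_norm_eq_iInf_of_complete_convex` / `norm_eq_iInf_iff_real_inner_le_zero` give the nearest point `π z` with `⟪z - π z, k - π z⟫ ≤ 0` for `k ∈ K`. For `z, w` add the inequalities for
`k = π w` and `k = π z`: `‖π z - π w‖² ≤ ⟪z - w, π z - π w⟫`. `exists_normal`: `z ∈ frontier K`: there are `z_n ∉ K`, `z_n → z` (`frontier_eq_closure_inter_closure`); `g_n = (z_n - π z_n)/‖z_n - π z_n‖`, a subsequence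
converges to a unit vector `g` (compact sphere), `π z_n → π z = z`, and `⟪g_n, k - π z_n⟫ ≤ 0`.
-/

set_option autoImplicit false

open MeasureTheory Set Filter Topology Metric
open scoped MeasureTheory ENNReal

namespace Pool.Agent.Lib.FOLD

variable {E : Type*} [NormedAddCommGroup E] [InnerProductSpace ℝ E] [FiniteDimensional ℝ E]

theorem exists_proj {K : Set E} (hK : IsClosed K) (hc : Convex ℝ K) (hn : K.Nonempty) :
    ∃ π : E → E, LipschitzWith 1 π ∧ (∀ z, π z ∈ K) ∧ (∀ z ∈ K, π z = z) ∧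
      ∀ z, ∀ k ∈ K, inner ℝ (z - π z) (k - π z) ≤ 0 := by
  have h1 : ∀ z : E, ∃ v ∈ K, ∀ k ∈ K, inner ℝ (z - v) (k - v) ≤ 0 := by
    intro z
    obtain ⟨v, hv, hv2⟩ := exists_norm_eq_iInf_of_complete_convex hn hK.isComplete hc z
    exact ⟨v, hv, (norm_eq_iInf_iff_real_inner_le_zero hc hv).1 hv2⟩
  choose π hπ hin using h1
  refine ⟨π, ?_, hπ, ?_, hin⟩
  · apply LipschitzWith.mk_one
    intro z w
    rw [dist_eq_norm, dist_eq_norm]
    have h2 := hin z (π w) (hπ w)
    have h3 := hin w (π z) (hπ z)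
    have h4 : ‖π z - π w‖ * ‖π z - π w‖ ≤ inner ℝ (z - w) (π z - π w) := by
      rw [← real_inner_self_eq_norm_mul_norm]
      have h5 : inner ℝ (z - π z) (π w - π z) = - inner ℝ (z - π z) (π z - π w) := by
        rw [← inner_neg_right, neg_sub]
      rw [h5] at h2
      have h6 : inner ℝ (z - w) (π z - π w) =
          inner ℝ (z - π z) (π z - π w) - inner ℝ (w - π w) (π z - π w) +
            inner ℝ (π z - π w) (π z - π w) := by
        rw [← inner_sub_left, ← inner_add_left]
        congr 1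
        abel
      rw [h6]
      linarith
    have h7 := real_inner_le_norm (z - w) (π z - π w)
    rcases eq_or_lt_of_le (norm_nonneg (π z - π w)) with h8 | h8
    · rw [← h8]
      exact norm_nonneg _
    · exact le_of_mul_le_mul_right (h4.trans h7) h8
  · intro z hz
    have h2 := hin z z hz
    have h3 : z - π z = 0 := by
      rw [real_inner_self_eq_norm_mul_norm] at h2
      exact norm_eq_zero.1 (mul_self_eq_zero.1 (le_antisymm h2 (mul_self_nonneg _)))
    exact (sub_eq_zero.1 h3).symm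

theorem exists_normal {K : Set E} (hK : IsClosed K) (hc : Convex ℝ K) {z : E} (hz : z ∈ frontier K) :
    ∃ g : E, ‖g‖ = 1 ∧ ∀ k ∈ K, inner ℝ g (k - z) ≤ 0 := by
  have hzK : z ∈ K := hK.frontier_subset hz
  obtain ⟨π, hlip, hπ, hfix, hin⟩ := exists_proj hK hc ⟨z, hzK⟩
  rw [frontier_eq_closure_inter_closure] at hz
  obtain ⟨x, hx, hxz⟩ := mem_closure_iff_seq_limit.1 hz.2
  have hne : ∀ n, x n - π (x n) ≠ 0 := by
    intro n h
    apply hx n
    rw [sub_eq_zero.1 h]
    exact hπ _
  have hg : ∀ n, ‖x n - π (x n)‖⁻¹ • (x n - π (x n)) ∈ Metric.sphere (0 : E) 1 := by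
    intro n
    rw [mem_sphere_zero_iff_norm, norm_smul, norm_inv, norm_norm]
    exact inv_mul_cancel₀ (norm_ne_zero_iff.2 (hne n))
  obtain ⟨g, hg1, φ, hφ, hlim⟩ := (isCompact_sphere (0 : E) 1).tendsto_subseq hg
  refine ⟨g, by simpa using hg1, ?_⟩
  intro k hk
  have hpi : Tendsto (fun n => π (x (φ n))) atTop (𝓝 z) := by
    have h1 : Tendsto (fun n => π (x (φ n))) atTop (𝓝 (π z)) :=
      (hlip.continuous.tendsto z).comp (hxz.comp hφ.tendsto_atTop)
    rwa [hfix z hzK] at h1
  have hlim2 := hlim.inner (𝕜 := ℝ) (tendsto_const_nhds (x := k) |>.sub hpi)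
  refine le_of_tendsto' hlim2 ?_
  intro n
  simp only [Function.comp_apply, inner_smul_left, conj_trivial]
  exact mul_nonpos_of_nonneg_of_nonpos (by positivity) (hin _ k hk)

end Pool.Agent.Lib.FOLD
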