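import Pool.Agent.Lib.FOLD.Defs

/-!
# FOLD.Ray: at most two boundary rays in a plane through a boundary point (1.2 h)
PROOF. Take `q ∈ interior Q`. There is `m ∈ interior Q` with `⟪u, m - v⟫ = 0`: if `⟪u, q - v⟫ = 0` take `q`; if it is positive (negative) move from `q` towards `v + e` (`v + e'`), all points of the
half-open segment are interior (`Convex.openSegment_interior_self_subset_interior` or `Convex.combo_interior_self_mem_interior`). For each `j` there is `g j ≠ 0` with `⟪g j, z⟫ ≤ ⟪g j, v + ½ρ j⟫`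
for all `z ∈ Q` and `<` for `z ∈ interior Q` (`geometric_hahn_banach_point_open`/`open_point` for the open convex set `interior Q`, `Q ⊆ closure (interior Q)`). Since `v, v + ρ j ∈ Q`,
`⟪g j, ρ j⟫ = 0`, and `⟪g j, z - v⟫ ≤ 0` on `Q`, `⟪g j, m - v⟫ < 0`. Let `s` be a nonzero vector orthogonal to `u` and `m' = m - v` (cross product; `u ≠ 0` as `⟪u,e⟫ < 0`; `m' ≠ 0` as `⟪g 0, m'⟫ < 0`).
`⟪s, ρ j⟫ ≠ 0`: otherwise `ρ j` is orthogonal to the independent vectors `u`, `s`, so it is a multiple of `m'` (`m'` is orthogonal to both), `ρ j = c m'`, `c ≠ 0`, `⟪g j, ρ j⟫ ≠ 0`.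
Two of the three numbers `⟪s, ρ j⟫` have the same sign, say for `i ≠ j`; `b = ⟪s, ρ j⟫/⟪s, ρ i⟫ > 0`, `ρ j - b ρ i` is orthogonal to `u, s`, so `ρ j = a m' + b ρ i`. `⟪g i, ρ j⟫ ≤ 0` gives `a ≥ 0`;
`0 = ⟪g j, ρ j⟫ = a ⟪g j, m'⟫ + b ⟪g j, ρ i⟫` with both summands `≤ 0`, so `a = 0` and `ρ j = b ρ i`.
-/

set_option autoImplicit false

open MeasureTheory Set Filter Topology Metric
open scoped MeasureTheory ENNReal

namespace Pool.Agent.Lib.FOLD

namespace RayAux

/-- a support functional at a boundary point. -/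
theorem supp {Q : Set E3} (hQ : Convex ℝ Q) (hi : (interior Q).Nonempty) {x : E3}
    (hx : x ∉ interior Q) :
    ∃ f : E3 →L[ℝ] ℝ, (∀ z ∈ interior Q, f z < f x) ∧ ∀ z ∈ Q, f z ≤ f x := by
  obtain ⟨f, hf⟩ := geometric_hahn_banach_open_point hQ.interior isOpen_interior hx
  refine ⟨f, hf, fun z hz => ?_⟩
  have h1 : closure (interior Q) = closure Q :=
    hQ.closure_interior_eq_closure_of_nonempty_interior hi
  have h2 : z ∈ closure (interior Q) := by rw [h1]; exact subset_closure hz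
  have h3 : IsClosed {z : E3 | f z ≤ f x} := isClosed_le f.continuous continuous_const
  exact closure_minimal (fun y hy => (hf y hy).le) h3 h2

/-- an interior point in the plane through `v` orthogonal to `u`. -/
theorem mid {Q : Set E3} (hQ : Convex ℝ Q) (hi : (interior Q).Nonempty) {v u e e' : E3}
    (he : v + e ∈ Q) (he' : v + e' ∈ Q) (h1 : inner ℝ u e < 0) (h2 : 0 < inner ℝ u e') :
    ∃ m : E3, v + m ∈ interior Q ∧ inner ℝ u m = 0 := by
  obtain ⟨q, hq⟩ := hi
  have key : ∀ d : E3, v + d ∈ Q → ∀ a b : ℝ, 0 ≤ a → 0 < b → a + b = 1 →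
      v + (a • d + b • (q - v)) ∈ interior Q := by
    intro d hd a b ha hb hab
    have h := hQ.combo_self_interior_mem_interior hd hq ha hb hab
    have e3 : v + (a • d + b • (q - v)) = a • (v + d) + b • q := by
      have h4 : v = a • v + b • v := by rw [← add_smul, hab, one_smul]
      rw [smul_add, smul_sub]
      nth_rewrite 1 [h4]
      abel
    rw [e3]
    exact h
  rcases lt_trichotomy (inner ℝ u (q - v)) 0 with h | h | h
  · set t : ℝ := inner ℝ u (q - v) with ht
    set w : ℝ := inner ℝ u e' with hw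
    have hd : 0 < w - t := by linarith
    refine ⟨(-t / (w - t)) • e' + (w / (w - t)) • (q - v),
      key e' he' _ _ (div_nonneg (by linarith) hd.le) (div_pos h2 hd) ?_, ?_⟩
    · field_simp
      ring
    · rw [inner_add_right, inner_smul_right, inner_smul_right, ← ht, ← hw]
      field_simp
      ring
  · exact ⟨q - v, by rw [add_sub_cancel]; exact hq, h⟩
  · set t : ℝ := inner ℝ u (q - v) with ht
    set w : ℝ := inner ℝ u e with hw
    have hd : 0 < t - w := by linarith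
    refine ⟨(t / (t - w)) • e + (-w / (t - w)) • (q - v),
      key e he _ _ (div_nonneg h.le hd.le) (div_pos (by linarith) hd) ?_, ?_⟩
    · field_simp
      ring
    · rw [inner_add_right, inner_smul_right, inner_smul_right, ← ht, ← hw]
      field_simp
      ring

theorem inner3 (x y : E3) : inner ℝ x y = x 0 * y 0 + x 1 * y 1 + x 2 * y 2 := by
  simp [PiLp.inner_apply, Fin.sum_univ_three]
  ring

/-- the vectors orthogonal to `u` in an orthogonal frame `m`, `s` of the plane. -/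
theorem frame {u m : E3} (hu : u ≠ 0) (hm : m ≠ 0) (hum : inner ℝ u m = 0) :
    ∃ (N : ℝ) (s : E3), 0 < N ∧ ∀ w : E3, inner ℝ u w = 0 →
      N • w = (inner ℝ u u * inner ℝ m w) • m + (inner ℝ s w) • s := by
  refine ⟨inner ℝ u u * inner ℝ m m,
    !₂[u 1 * m 2 - u 2 * m 1, u 2 * m 0 - u 0 * m 2, u 0 * m 1 - u 1 * m 0], ?_, ?_⟩
  · apply mul_pos
    · exact real_inner_self_pos.mpr hu
    · exact real_inner_self_pos.mpr hm
  · intro w huw
    rw [inner3] at hum huw
    have e : ∀ i, (!₂[u 1 * m 2 - u 2 * m 1, u 2 * m 0 - u 0 * m 2,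
        u 0 * m 1 - u 1 * m 0] : E3) i =
        ![u 1 * m 2 - u 2 * m 1, u 2 * m 0 - u 0 * m 2, u 0 * m 1 - u 1 * m 0] i := fun i => rfl
    ext i
    rw [PiLp.add_apply, PiLp.smul_apply, PiLp.smul_apply, PiLp.smul_apply, inner3, inner3, inner3,
      inner3, e, e, e, e]
    fin_cases i
    · simp
      linear_combination ((u 0 * m 0 + u 1 * m 1 + u 2 * m 2) * w 0 -
        (m 0 * w 0 + m 1 * w 1 + m 2 * w 2) * u 0) * hum +
        ((m 0 * m 0 + m 1 * m 1 + m 2 * m 2) * u 0 -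
          (u 0 * m 0 + u 1 * m 1 + u 2 * m 2) * m 0) * huw
    · simp
      linear_combination ((u 0 * m 0 + u 1 * m 1 + u 2 * m 2) * w 1 -
        (m 0 * w 0 + m 1 * w 1 + m 2 * w 2) * u 1) * hum +
        ((m 0 * m 0 + m 1 * m 1 + m 2 * m 2) * u 1 -
          (u 0 * m 0 + u 1 * m 1 + u 2 * m 2) * m 1) * huw
    · simp
      linear_combination ((u 0 * m 0 + u 1 * m 1 + u 2 * m 2) * w 2 -
        (m 0 * w 0 + m 1 * w 1 + m 2 * w 2) * u 2) * hum +
        ((m 0 * m 0 + m 1 * m 1 + m 2 * m 2) * u 2 -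
          (u 0 * m 0 + u 1 * m 1 + u 2 * m 2) * m 2) * huw

/-- two of three nonzero reals have the same sign. -/
theorem same_sign (β : Fin 3 → ℝ) (h : ∀ j, β j ≠ 0) : ∃ i j, i ≠ j ∧ 0 < β i * β j := by
  rcases lt_or_gt_of_ne (h 0) with h0 | h0 <;> rcases lt_or_gt_of_ne (h 1) with h1 | h1 <;>
    rcases lt_or_gt_of_ne (h 2) with h2 | h2
  · exact ⟨0, 1, by decide, mul_pos_of_neg_of_neg h0 h1⟩
  · exact ⟨0, 1, by decide, mul_pos_of_neg_of_neg h0 h1⟩
  · exact ⟨0, 2, by decide, mul_pos_of_neg_of_neg h0 h2⟩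
  · exact ⟨1, 2, by decide, mul_pos h1 h2⟩
  · exact ⟨1, 2, by decide, mul_pos_of_neg_of_neg h1 h2⟩
  · exact ⟨0, 2, by decide, mul_pos h0 h2⟩
  · exact ⟨0, 1, by decide, mul_pos h0 h1⟩
  · exact ⟨0, 1, by decide, mul_pos h0 h1⟩

end RayAux

open RayAux in
theorem two_rays {Q : Set E3} (hQ : Convex ℝ Q) (hi : (interior Q).Nonempty) {v u e e' : E3}
    (hv : v ∈ Q) (ρ : Fin 3 → E3) (hρ0 : ∀ j, ρ j ≠ 0) (hρ : ∀ j, v + ρ j ∈ Q)
    (hmid : ∀ j, v + (1 / 2 : ℝ) • ρ j ∉ interior Q) (hu : ∀ j, inner ℝ u (ρ j) = 0)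
    (he : v + e ∈ Q) (he' : v + e' ∈ Q) (h1 : inner ℝ u e < 0) (h2 : 0 < inner ℝ u e') :
    ∃ i j, i ≠ j ∧ ∃ c : ℝ, 0 < c ∧ ρ i = c • ρ j := by
  have hg : ∀ j, ∃ f : E3 →L[ℝ] ℝ, (∀ z, v + z ∈ interior Q → f z < 0) ∧
      (∀ z, v + z ∈ Q → f z ≤ 0) ∧ f (ρ j) = 0 := by
    intro j
    obtain ⟨f, hf1, hf2⟩ := supp hQ hi (hmid j)
    have h3 := hf2 v hv
    have h4 := hf2 _ (hρ j)
    rw [map_add, map_smul, smul_eq_mul] at h3
    rw [map_add, map_add, map_smul, smul_eq_mul] at h4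
    have h5 : f (ρ j) = 0 := by linarith
    refine ⟨f, fun z hz => ?_, fun z hz => ?_, h5⟩
    · have h6 := hf1 _ hz
      rw [map_add, map_add, map_smul, smul_eq_mul, h5] at h6
      linarith
    · have h6 := hf2 _ hz
      rw [map_add, map_add, map_smul, smul_eq_mul, h5] at h6
      linarith
  choose g hg1 hg2 hg3 using hg
  obtain ⟨m, hmQ, hum⟩ := mid hQ hi he he' h1 h2
  have hu0 : u ≠ 0 := by
    rintro rfl
    rw [inner_zero_left] at h1
    exact lt_irrefl _ h1
  have hm0 : m ≠ 0 := by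
    rintro rfl
    have h := hg1 0 0 hmQ
    rw [map_zero] at h
    exact lt_irrefl _ h
  obtain ⟨N, s, hN, hfr⟩ := frame hu0 hm0 hum
  have hβ : ∀ j, inner ℝ s (ρ j) ≠ 0 := by
    intro j h0
    have h3 := hfr (ρ j) (hu j)
    rw [h0, zero_smul, add_zero] at h3
    have h4 := congrArg (g j) h3
    rw [map_smul, map_smul, hg3 j, smul_zero, smul_eq_mul] at h4
    have h5 : inner ℝ u u * inner ℝ m (ρ j) = 0 := by
      rcases mul_eq_zero.mp h4.symm with h | h
      · exact h
      · exact absurd h (hg1 j m hmQ).ne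
    rw [h5, zero_smul] at h3
    rcases smul_eq_zero.mp h3 with h | h
    · exact hN.ne' h
    · exact hρ0 j h
  obtain ⟨i, j, hij, hpos⟩ := same_sign (fun j => inner ℝ s (ρ j)) hβ
  refine ⟨i, j, hij, ?_⟩
  set a := inner ℝ s (ρ i) with ha
  set b := inner ℝ s (ρ j) with hb
  set A := a * (inner ℝ u u * inner ℝ m (ρ j)) - b * (inner ℝ u u * inner ℝ m (ρ i)) with hA
  have hab : 0 < a * b := hpos
  have hmain : N • (a • ρ j - b • ρ i) = A • m := by
    have h3 := hfr (ρ i) (hu i)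
    have h4 := hfr (ρ j) (hu j)
    rw [smul_sub, smul_comm N a, smul_comm N b, h3, h4, ← ha, ← hb, hA]
    rw [smul_add, smul_add, smul_smul, smul_smul, smul_smul, smul_smul, sub_smul, mul_comm a b]
    abel
  have hgi := congrArg (g i) hmain
  have hgj := congrArg (g j) hmain
  rw [map_smul, map_smul, map_sub, map_smul, map_smul, hg3 i, smul_zero, sub_zero] at hgi
  rw [map_smul, map_smul, map_sub, map_smul, map_smul, hg3 j, smul_zero, zero_sub] at hgj
  simp only [smul_eq_mul] at hgi hgj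
  have hmi := hg1 i m hmQ
  have hmj := hg1 j m hmQ
  have hji := hg2 i _ (hρ j)
  have hijj := hg2 j _ (hρ i)
  have hA0 : A = 0 := by
    rcases pos_and_pos_or_neg_and_neg_of_mul_pos hab with ⟨ha', hb'⟩ | ⟨ha', hb'⟩
    · have h5 : A * g i m ≤ 0 := by
        rw [← hgi]
        exact mul_nonpos_of_nonneg_of_nonpos hN.le (mul_nonpos_of_nonneg_of_nonpos ha'.le hji)
      have h6 : 0 ≤ A * g j m := by
        rw [← hgj]
        exact mul_nonneg hN.le (neg_nonneg.mpr (mul_nonpos_of_nonneg_of_nonpos hb'.le hijj))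
      have h7 : 0 ≤ A := by
        by_contra h
        push Not at h
        exact absurd h5 (not_le.mpr (mul_pos_of_neg_of_neg h hmi))
      have h8 : A ≤ 0 := by
        by_contra h
        push Not at h
        exact absurd h6 (not_le.mpr (mul_neg_of_pos_of_neg h hmj))
      exact le_antisymm h8 h7
    · have h5 : 0 ≤ A * g i m := by
        rw [← hgi]
        exact mul_nonneg hN.le (mul_nonneg_of_nonpos_of_nonpos ha'.le hji)
      have h6 : A * g j m ≤ 0 := by
        rw [← hgj]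
        exact mul_nonpos_of_nonneg_of_nonpos hN.le
          (neg_nonpos.mpr (mul_nonneg_of_nonpos_of_nonpos hb'.le hijj))
      have h7 : A ≤ 0 := by
        by_contra h
        push Not at h
        exact absurd h5 (not_le.mpr (mul_neg_of_pos_of_neg h hmi))
      have h8 : 0 ≤ A := by
        by_contra h
        push Not at h
        exact absurd h6 (not_le.mpr (mul_pos_of_neg_of_neg h hmj))
      exact le_antisymm h7 h8
  rw [hA0, zero_smul] at hmain
  have hz : a • ρ j - b • ρ i = 0 := by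
    rcases smul_eq_zero.mp hmain with h | h
    · exact absurd h hN.ne'
    · exact h
  have hb0 : b ≠ 0 := hβ j
  refine ⟨a / b, ?_, ?_⟩
  · rw [div_eq_mul_inv]
    rcases pos_and_pos_or_neg_and_neg_of_mul_pos hab with ⟨ha', hb'⟩ | ⟨ha', hb'⟩
    · exact mul_pos ha' (inv_pos.mpr hb')
    · exact mul_pos_of_neg_of_neg ha' (inv_lt_zero.mpr hb')
  · have h3 : b • ρ i = a • ρ j := (sub_eq_zero.mp hz).symm
    rw [div_eq_inv_mul, mul_smul, ← h3, smul_smul, inv_mul_cancel₀ hb0, one_smul]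

end Pool.Agent.Lib.FOLD
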