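import Pool.Agent.Lib.FOLD.Gau

/-!
# FOLD.Soft: convergence to the hull of four points (1 h)
PROOF. Suppose not: infinitely many `i` with `z_i ∈ Q i`, `z_i ∉ cthickening η T`, `T = convexHull (range qq)` (compact). Pass to a subsequence with `z_i → z` (`closedBall 0 R` compact); `infDist z T ≥ η`, so `z ∉ T`
(`mem_cthickening_iff`..). By Hahn-Banach (`geometric_hahn_banach_compact_closed` or `geometric_hahn_banach_point_compact`) there are `u0` (via `InnerProductSpace.toDual`) and `θ > 0` with `⟪u0, qq j⟫ + 2θ < ⟪u0, z⟫` for all `j`. There are a ball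
`U` around `u0` and `i0` with `⟪u, q i j⟫ + ‖u‖ ε i < ⟪u, z_i⟫` for `u ∈ U`, `i ≥ i0` in the subsequence (uniform estimates: all vectors bounded). So the `G3` measure of the set is `≥ G3 U > 0` (`gau_open`) for these `i`,
contradiction to the limit `0`.
-/

set_option autoImplicit false

open MeasureTheory Set Filter Topology Metric
open scoped MeasureTheory ENNReal

namespace Pool.Agent.Lib.FOLD

theorem soft {Q : ℕ → Set E3} {q : ℕ → Fin 4 → E3} {qq : Fin 4 → E3} {R : ℝ} {ε : ℕ → ℝ}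
    (hQ : ∀ i, Q i ⊆ closedBall 0 R) (hq : ∀ j, Tendsto (fun i => q i j) atTop (𝓝 (qq j)))
    (hε : Tendsto ε atTop (𝓝 0))
    (hG : Tendsto (fun i => G3 {u | ∃ z ∈ Q i, ∀ j, inner ℝ u (q i j) + ‖u‖ * ε i < inner ℝ u z})
      atTop (𝓝 0)) {η : ℝ} (hη : 0 < η) :
    ∀ᶠ i in atTop, Q i ⊆ cthickening η (convexHull ℝ (range qq)) := by
  by_contra hcon
  rw [Filter.not_eventually] at hcon
  obtain ⟨φ, hφ, hφ'⟩ := Filter.extraction_of_frequently_atTop hcon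
  have hch : ∀ n, ∃ z ∈ Q (φ n), z ∉ cthickening η (convexHull ℝ (range qq)) := by
    intro n
    have := hφ' n
    rw [Set.not_subset] at this
    exact this
  choose z hzQ hzT using hch
  obtain ⟨z0, -, ψ, hψ, hzt⟩ := (isCompact_closedBall (0 : E3) R).tendsto_subseq
    (fun n => hQ (φ n) (hzQ n))
  have hTc : IsCompact (convexHull ℝ (range qq)) := (finite_range qq).isCompact_convexHull ℝ
  have hz0 : z0 ∉ convexHull ℝ (range qq) := by
    intro h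
    have h1 : ∀ᶠ n in atTop, dist ((z ∘ ψ) n) z0 < η := (Metric.tendsto_nhds.1 hzt) η hη
    obtain ⟨n, hn⟩ := h1.exists
    exact hzT (ψ n) (mem_cthickening_of_dist_le _ z0 η _ h hn.le)
  obtain ⟨f, c, hf1, hf2⟩ := geometric_hahn_banach_closed_point (convex_convexHull ℝ _)
    hTc.isClosed hz0
  set u0 : E3 := (InnerProductSpace.toDual ℝ E3).symm f with hu0
  have hfu : ∀ x, inner ℝ u0 x = f x := fun x => by
    rw [hu0, InnerProductSpace.toDual_symm_apply]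
  have hsub : Tendsto (fun n => φ (ψ n)) atTop atTop := (hφ.comp hψ).tendsto_atTop
  have hev : ∀ᶠ p : E3 × ℕ in 𝓝 u0 ×ˢ atTop, ∀ j, inner ℝ p.1 (q (φ (ψ p.2)) j) +
      ‖p.1‖ * ε (φ (ψ p.2)) < inner ℝ p.1 (z (ψ p.2)) := by
    rw [Filter.eventually_all]
    intro j
    have hp1 : Tendsto (fun p : E3 × ℕ => p.1) (𝓝 u0 ×ˢ atTop) (𝓝 u0) := tendsto_fst
    have hp2 : Tendsto (fun p : E3 × ℕ => φ (ψ p.2)) (𝓝 u0 ×ˢ atTop) atTop := hsub.comp tendsto_snd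
    have hqj : Tendsto (fun p : E3 × ℕ => q (φ (ψ p.2)) j) (𝓝 u0 ×ˢ atTop) (𝓝 (qq j)) :=
      (hq j).comp hp2
    have hεj : Tendsto (fun p : E3 × ℕ => ε (φ (ψ p.2))) (𝓝 u0 ×ˢ atTop) (𝓝 0) := hε.comp hp2
    have hzz : Tendsto (fun p : E3 × ℕ => z (ψ p.2)) (𝓝 u0 ×ˢ atTop) (𝓝 z0) :=
      hzt.comp tendsto_snd
    have hL : Tendsto (fun p : E3 × ℕ => inner ℝ p.1 (q (φ (ψ p.2)) j) + ‖p.1‖ * ε (φ (ψ p.2)))
        (𝓝 u0 ×ˢ atTop) (𝓝 (inner ℝ u0 (qq j) + ‖u0‖ * 0)) :=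
      (hp1.inner hqj).add (hp1.norm.mul hεj)
    have hR : Tendsto (fun p : E3 × ℕ => inner ℝ p.1 (z (ψ p.2))) (𝓝 u0 ×ˢ atTop)
        (𝓝 (inner ℝ u0 z0)) := hp1.inner hzz
    refine hL.eventually_lt hR ?_
    rw [mul_zero, add_zero, hfu, hfu]
    exact (hf1 _ (subset_convexHull ℝ _ (mem_range_self j))).trans hf2
  obtain ⟨pa, ha, pb, hb, hab⟩ := Filter.eventually_prod_iff.1 hev
  obtain ⟨U, hU1, hU2, hU3⟩ := _root_.mem_nhds_iff.1 ha
  have hpos : 0 < G3 U := gau_open hU2 ⟨u0, hU3⟩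
  have h1 : ∀ᶠ n in atTop, G3 {u | ∃ z ∈ Q (φ (ψ n)), ∀ j, inner ℝ u (q (φ (ψ n)) j) +
      ‖u‖ * ε (φ (ψ n)) < inner ℝ u z} < G3 U :=
    (hG.comp hsub).eventually_lt_const hpos
  obtain ⟨n, hn1, hn2⟩ := (h1.and hb).exists
  refine absurd hn1 (not_lt.2 (measure_mono ?_))
  intro u hu
  exact ⟨z (ψ n), hzQ (ψ n), hab (hU1 hu) hn2⟩

end Pool.Agent.Lib.FOLD
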