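import Pool.Agent.Lib.FOLD.TC
import Pool.Agent.Lib.FOLD.PArc

/-!
# FOLD.TA: boundary of the parallelogram and its gluing (1 h)
PROOF. `poly_arc` with `m = 6`, `b = (1,0), (2,0), (n+2,1), (n+1,1), (n,1), (0,0)` in lattice coordinates (`b 6 = b 0`): lengths `1, ℓ, 1, 1, ℓ, 1`, `ℓ = |n e1 + e2|`. `hfr` from `tC_frontier`; `hinj` by cases (lattice coordinates). The gluing of `poly_arc`: `i = 0`: `(1+t,0) ~ (1-t,0)`; `i = 1`: `(2+nt, t) ~ (nt, t)`;
`i = 2`: `(n+2-t,1) ~ (n+t,1)`; `i = 3`: `(n+1-t, 1) ~ (n+1+t, 1)`; `i = 4`: `(n - nt, 1-t) ~ (n+2-nt, 1-t)`; `i = 5`: `(t,0) ~ (2-t,0)`. This is `tG n` on `tC n`.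
-/

set_option autoImplicit false

open MeasureTheory Set Filter Topology Metric
open scoped MeasureTheory ENNReal

namespace Pool.Agent.Lib.FOLD

namespace TAAux

/-- the corners, in lattice coordinates -/
def ca (n : ℕ) : ℕ → ℝ
  | 0 => 1
  | 1 => 2
  | 2 => n + 2
  | 3 => n + 1
  | 4 => n
  | 5 => 0
  | _ => 1

/-- the corners, in lattice coordinates -/
def cb : ℕ → ℝ
  | 0 => 0
  | 1 => 0
  | 2 => 1
  | 3 => 1
  | 4 => 1
  | 5 => 0
  | _ => 0

/-- the corners -/
noncomputable def bb (n i : ℕ) : E2 := lpt (ca n i) (cb i)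

theorem lm (a b a' b' t : ℝ) : AffineMap.lineMap (lpt a b) (lpt a' b') t =
    lpt (a + t * (a' - a)) (b + t * (b' - b)) := by
  ext i
  fin_cases i
  · simp [lpt, AffineMap.lineMap_apply]
    ring
  · simp [lpt, AffineMap.lineMap_apply]
    ring

theorem lpt_inj {a b a' b' : ℝ} : lpt a b = lpt a' b' ↔ a = a' ∧ b = b' := by
  constructor
  · intro h
    have h1 := congrArg la h
    have h2 := congrArg lb h
    rw [la_lpt, la_lpt] at h1
    rw [lb_lpt, lb_lpt] at h2
    exact ⟨h1, h2⟩
  · rintro ⟨rfl, rfl⟩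
    rfl

theorem mem_tC {n : ℕ} {a b : ℝ} : lpt a b ∈ tC n ↔ 0 ≤ b ∧ b ≤ 1 ∧ n * b ≤ a ∧ a ≤ n * b + 2 := by
  unfold tC
  rw [Set.mem_ofPred_eq, la_lpt, lb_lpt]

theorem dist_lpt (a b a' b' : ℝ) : dist (lpt a b) (lpt a' b') =
    √((a - a' + (b - b') / 2) ^ 2 + (√3 / 2 * (b - b')) ^ 2) := by
  rw [EuclideanSpace.dist_eq, Fin.sum_univ_two, Real.dist_eq, Real.dist_eq, sq_abs, sq_abs]
  congr 1
  simp only [lpt]
  simp
  ring

theorem mem_seg {n i : ℕ} {a b : ℝ} : lpt a b ∈ segment ℝ (bb n i) (bb n (i + 1)) ↔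
    ∃ t ∈ Icc (0 : ℝ) 1, a = ca n i + t * (ca n (i + 1) - ca n i) ∧
      b = cb i + t * (cb (i + 1) - cb i) := by
  rw [segment_eq_image_lineMap]
  unfold bb
  constructor
  · rintro ⟨t, ht, h⟩
    rw [lm, lpt_inj] at h
    exact ⟨t, ht, h.1.symm, h.2.symm⟩
  · rintro ⟨t, ht, h1, h2⟩
    refine ⟨t, ht, ?_⟩
    rw [lm, lpt_inj]
    exact ⟨h1.symm, h2.symm⟩

theorem fr (n : ℕ) : frontier (tC n) =
    ⋃ i ∈ Finset.range 6, segment ℝ (bb n i) (bb n (i + 1)) := by
  rw [tC_frontier]
  ext p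
  obtain ⟨a, b, rfl⟩ : ∃ a b, lpt a b = p := ⟨la p, lb p, lpt_la_lb p⟩
  rw [Set.mem_ofPred_eq, la_lpt, lb_lpt, mem_tC]
  simp only [mem_iUnion, Finset.mem_range, mem_seg, exists_prop]
  constructor
  · rintro ⟨⟨h1, h2, h3, h4⟩, h | h | h | h⟩
    · subst h
      rcases le_total a 1 with h5 | h5
      · refine ⟨5, by norm_num, a, ⟨by linarith, h5⟩, ?_, ?_⟩ <;> simp [ca, cb]
      · refine ⟨0, by norm_num, a - 1, ⟨by linarith, by linarith⟩, ?_, ?_⟩ <;> simp [ca, cb] <;> ring
    · subst h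
      rcases le_total a (n + 1) with h5 | h5
      · refine ⟨3, by norm_num, n + 1 - a, ⟨by linarith, by linarith⟩, ?_, ?_⟩ <;> simp [ca, cb] <;> ring
      · refine ⟨2, by norm_num, n + 2 - a, ⟨by linarith, by linarith⟩, ?_, ?_⟩ <;> simp [ca, cb] <;> ring
    · refine ⟨4, by norm_num, 1 - b, ⟨by linarith, by linarith⟩, ?_, ?_⟩
      · simp only [ca]
        rw [← h]
        ring
      · simp only [cb]
        ring
    · refine ⟨1, by norm_num, b, ⟨by linarith, by linarith⟩, ?_, ?_⟩
      · simp only [ca]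
        rw [h]
        ring
      · simp only [cb]
        ring
  · rintro ⟨i, hi, t, ⟨ht0, ht1⟩, h1, h2⟩
    have hn : (0 : ℝ) ≤ n := Nat.cast_nonneg n
    interval_cases i <;> simp only [ca, cb] at h1 h2 <;> subst h1 <;> subst h2
    · exact ⟨⟨by linarith, by linarith, by linarith, by linarith⟩, Or.inl (by ring)⟩
    · exact ⟨⟨by linarith, by linarith, by linarith, by linarith⟩,
        Or.inr (Or.inr (Or.inr (by ring)))⟩
    · exact ⟨⟨by linarith, by linarith, by linarith, by linarith⟩, Or.inr (Or.inl (by ring))⟩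
    · exact ⟨⟨by linarith, by linarith, by linarith, by linarith⟩, Or.inr (Or.inl (by ring))⟩
    · exact ⟨⟨by linarith, by linarith, by linarith, by linarith⟩,
        Or.inr (Or.inr (Or.inl (by ring)))⟩
    · exact ⟨⟨by linarith, by linarith, by linarith, by linarith⟩, Or.inl (by ring)⟩

theorem inj (n : ℕ) : ∀ i < 6, ∀ j < 6, ∀ s ∈ Ico (0 : ℝ) 1, ∀ t ∈ Ico (0 : ℝ) 1,
      AffineMap.lineMap (bb n i) (bb n (i + 1)) s = AffineMap.lineMap (bb n j) (bb n (j + 1)) t →
      i = j ∧ s = t := by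
  rintro i hi j hj s ⟨hs0, hs1⟩ t ⟨ht0, ht1⟩ h
  unfold bb at h
  rw [lm, lm, lpt_inj] at h
  obtain ⟨e1, e2⟩ := h
  have e3 := congrArg (fun z => (n : ℝ) * z) e2
  interval_cases i <;> interval_cases j <;> simp only [ca, cb] at e1 e2 e3 <;>
    first
    | exact ⟨rfl, by linarith⟩
    | (exfalso; linarith)

theorem sym (n : ℕ) : ∀ i < 6, dist (bb n i) (bb n (i + 1)) = dist (bb n (6 - 1 - i)) (bb n (6 - i)) := by
  intro i hi
  unfold bb
  rw [dist_lpt, dist_lpt]
  congr 1
  interval_cases i <;> simp only [ca, cb, Nat.reduceSub] <;> ring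

end TAAux

open TAAux

theorem tC_arc (n : ℕ) : ∃ (L : ℝ) (γ : ℝ → E2), ArcParam (tC n) L γ ∧ InjOn γ (Ico 0 L) ∧
    ∀ p ∈ tC n, ∀ q ∈ tC n, (Glued L γ p q ↔ tG n p q) := by
  obtain ⟨L, γ, h1, h2, h3⟩ := poly_arc (C := tC n) (m := 6) (by norm_num) (bb n) rfl (fr n) (inj n)
    (sym n)
  refine ⟨L, γ, h1, h2, fun p hp q hq => ?_⟩
  obtain ⟨a, b, rfl⟩ : ∃ a b, lpt a b = p := ⟨la p, lb p, lpt_la_lb p⟩
  obtain ⟨a', b', rfl⟩ : ∃ a b, lpt a b = q := ⟨la q, lb q, lpt_la_lb q⟩
  rw [mem_tC] at hp hq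
  rw [h3]
  unfold tG
  rw [la_lpt, lb_lpt, la_lpt, lb_lpt]
  constructor
  · rintro ⟨i, hi, t, ⟨ht0, ht1⟩, e1, e2⟩
    unfold bb at e1 e2
    rw [lm, lpt_inj] at e1 e2
    obtain ⟨e1, e3⟩ := e1
    obtain ⟨e2, e4⟩ := e2
    interval_cases i <;> simp only [ca, cb, Nat.reduceSub] at e1 e2 e3 e4 <;> subst e1 <;> subst e2 <;>
      subst e3 <;> subst e4
    · exact Or.inr (Or.inl ⟨by ring, by ring, by ring⟩)
    · exact Or.inl ⟨by ring, Or.inr (by ring)⟩
    · exact Or.inr (Or.inr ⟨by ring, by ring, by ring⟩)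
    · exact Or.inr (Or.inr ⟨by ring, by ring, by ring⟩)
    · exact Or.inl ⟨by ring, Or.inl (by ring)⟩
    · exact Or.inr (Or.inl ⟨by ring, by ring, by ring⟩)
  · obtain ⟨p1, p2, p3, p4⟩ := hp
    obtain ⟨q1, q2, q3, q4⟩ := hq
    rintro (⟨h4, h5 | h5⟩ | ⟨h4, h5, h6⟩ | ⟨h4, h5, h6⟩)
    · subst h4
      refine ⟨4, by norm_num, 1 - b, ⟨by linarith, by linarith⟩, ?_, ?_⟩
      · unfold bb
        rw [lm, lpt_inj]
        simp only [ca, cb]
        constructor
        · linarith
        · ring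
      · unfold bb
        rw [lm, lpt_inj]
        simp only [ca, cb, Nat.reduceSub]
        constructor
        · linarith
        · ring
    · subst h4
      refine ⟨1, by norm_num, b, ⟨by linarith, by linarith⟩, ?_, ?_⟩
      · unfold bb
        rw [lm, lpt_inj]
        simp only [ca, cb]
        constructor
        · linarith
        · ring
      · unfold bb
        rw [lm, lpt_inj]
        simp only [ca, cb, Nat.reduceSub]
        constructor
        · linarith
        · ring
    · subst h4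
      subst h5
      rcases le_total a 1 with h7 | h7
      · refine ⟨5, by norm_num, a, ⟨by linarith, by linarith⟩, ?_, ?_⟩
        · unfold bb
          rw [lm, lpt_inj]
          simp only [ca, cb]
          constructor
          · linarith
          · ring
        · unfold bb
          rw [lm, lpt_inj]
          simp only [ca, cb, Nat.reduceSub]
          constructor
          · linarith
          · ring
      · refine ⟨0, by norm_num, a - 1, ⟨by linarith, by linarith⟩, ?_, ?_⟩
        · unfold bb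
          rw [lm, lpt_inj]
          simp only [ca, cb]
          constructor
          · linarith
          · ring
        · unfold bb
          rw [lm, lpt_inj]
          simp only [ca, cb, Nat.reduceSub]
          constructor
          · linarith
          · ring
    · subst h4
      subst h5
      rcases le_total a (n + 1) with h7 | h7
      · refine ⟨3, by norm_num, n + 1 - a, ⟨by linarith, by linarith⟩, ?_, ?_⟩
        · unfold bb
          rw [lm, lpt_inj]
          simp only [ca, cb]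
          constructor
          · linarith
          · ring
        · unfold bb
          rw [lm, lpt_inj]
          simp only [ca, cb, Nat.reduceSub]
          constructor
          · linarith
          · ring
      · refine ⟨2, by norm_num, n + 2 - a, ⟨by linarith, by linarith⟩, ?_, ?_⟩
        · unfold bb
          rw [lm, lpt_inj]
          simp only [ca, cb]
          constructor
          · linarith
          · ring
        · unfold bb
          rw [lm, lpt_inj]
          simp only [ca, cb, Nat.reduceSub]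
          constructor
          · linarith
          · ring

end Pool.Agent.Lib.FOLD
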