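import Pool.Agent.Lib.FOLD.TD

/-!
# FOLD.TC: the parallelogram (1 h)
PROOF. `p ↦ (la p, lb p)` is a linear bijection `E2 → ℝ²` with inverse `lpt` (`lpt (la p) (lb p) = p`, `la (lpt a b) = a`, `lb (lpt a b) = b`). `tC n` is given by four closed half planes, it is the parallelogram with the corners `(0,0), (2,0), (n+2,1), (n,1)`; interior = strict inequalities. Area: in the
coordinates `(a, b)` it has area `2`, the determinant of `lpt` is `√3/2` (`Measure.addHaar_image_linearMap`, the area of `{0≤b≤1, nb≤a≤nb+2}` by Fubini or by a further shear). `tC_diam`: the points `(0,0)` and `(n+2, 1)`: `dist ≥ n + 2`; the diameter is at least this.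
-/

set_option autoImplicit false

open MeasureTheory Set Filter Topology Metric
open scoped MeasureTheory ENNReal

namespace Pool.Agent.Lib.FOLD

namespace TCAux

theorem s3 : (0 : ℝ) < √3 := Real.sqrt_pos.2 (by norm_num)

theorem s3m : √3 * √3 = (3 : ℝ) := Real.mul_self_sqrt (by norm_num)

theorem lpt0 (a b : ℝ) : (lpt a b) 0 = a + b / 2 := by
  simp [lpt]

theorem lpt1 (a b : ℝ) : (lpt a b) 1 = √3 / 2 * b := by
  simp [lpt]

end TCAux

open TCAux

theorem lpt_la_lb (p : E2) : lpt (la p) (lb p) = p := by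
  have h3 := s3
  ext i
  fin_cases i
  · show (lpt (la p) (lb p)) 0 = p 0
    rw [lpt0]
    unfold la lb
    field_simp
    ring
  · show (lpt (la p) (lb p)) 1 = p 1
    rw [lpt1]
    unfold lb
    field_simp

theorem la_lpt (a b : ℝ) : la (lpt a b) = a := by
  have h3 := s3
  unfold la
  rw [lpt0, lpt1]
  field_simp
  ring

theorem lb_lpt (a b : ℝ) : lb (lpt a b) = b := by
  have h3 := s3
  unfold lb
  rw [lpt1]
  field_simp

namespace TCAux

theorem la_cont : Continuous la := by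
  unfold la
  fun_prop

theorem lb_cont : Continuous lb := by
  unfold lb
  fun_prop

theorem lpt_cont : Continuous (fun q : ℝ × ℝ => lpt q.1 q.2) := by
  unfold lpt
  apply (PiLp.continuous_toLp 2 _).comp
  refine continuous_pi fun i => ?_
  fin_cases i
  · show Continuous fun q : ℝ × ℝ => q.1 + q.2 / 2
    fun_prop
  · show Continuous fun q : ℝ × ℝ => √3 / 2 * q.2
    fun_prop

/-- coordinates in which the parallelogram is a rectangle -/
noncomputable def ph (n : ℕ) : E2 ≃ₜ ℝ × ℝ where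
  toFun p := (la p - n * lb p, lb p)
  invFun q := lpt (q.1 + n * q.2) q.2
  left_inv p := by
    show lpt (la p - n * lb p + n * lb p) (lb p) = p
    rw [sub_add_cancel, lpt_la_lb]
  right_inv q := by
    show (la (lpt (q.1 + n * q.2) q.2) - n * lb (lpt (q.1 + n * q.2) q.2), lb (lpt (q.1 + n * q.2) q.2)) = q
    rw [la_lpt, lb_lpt]
    ext <;> simp
  continuous_toFun := by
    have := la_cont
    have := lb_cont
    fun_prop
  continuous_invFun := by
    exact lpt_cont.comp (by fun_prop : Continuous fun q : ℝ × ℝ => (q.1 + n * q.2, q.2))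

theorem tC_eq (n : ℕ) : tC n = ph n ⁻¹' (Icc (0 : ℝ) 2 ×ˢ Icc (0 : ℝ) 1) := by
  ext p
  show (0 ≤ lb p ∧ lb p ≤ 1 ∧ n * lb p ≤ la p ∧ la p ≤ n * lb p + 2) ↔
    (la p - n * lb p, lb p) ∈ (Icc (0 : ℝ) 2 ×ˢ Icc (0 : ℝ) 1)
  simp only [mem_prod, mem_Icc]
  constructor
  · rintro ⟨h1, h2, h3, h4⟩
    exact ⟨⟨by linarith, by linarith⟩, h1, h2⟩
  · rintro ⟨⟨h1, h2⟩, h3, h4⟩
    exact ⟨h3, h4, by linarith, by linarith⟩

theorem la_lin (p q : E2) (a b : ℝ) : la (a • p + b • q) = a * la p + b * la q := by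
  unfold la
  simp only [PiLp.add_apply, PiLp.smul_apply, smul_eq_mul]
  ring

theorem lb_lin (p q : E2) (a b : ℝ) : lb (a • p + b • q) = a * lb p + b * lb q := by
  unfold lb
  simp only [PiLp.add_apply, PiLp.smul_apply, smul_eq_mul]
  ring

end TCAux

theorem tC_region (n : ℕ) : Region (tC n) := by
  refine ⟨?_, ?_, ?_⟩
  · rw [tC_eq]
    exact (ph n).isCompact_preimage.2 (isCompact_Icc.prod isCompact_Icc)
  · intro p hp q hq a b ha hb hab
    obtain ⟨h1, h2, h3, h4⟩ := hp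
    obtain ⟨k1, k2, k3, k4⟩ := hq
    refine ⟨?_, ?_, ?_, ?_⟩
    · rw [lb_lin]
      positivity
    · rw [lb_lin]
      nlinarith
    · rw [lb_lin, la_lin]
      nlinarith
    · rw [lb_lin, la_lin]
      nlinarith
  · rw [tC_eq, ← (ph n).preimage_interior, interior_prod_eq, interior_Icc, interior_Icc]
    refine ⟨(ph n).symm (1, 1 / 2), ?_⟩
    rw [mem_preimage, Homeomorph.apply_symm_apply]
    exact ⟨⟨by norm_num, by norm_num⟩, ⟨by norm_num, by norm_num⟩⟩

theorem tC_frontier (n : ℕ) : frontier (tC n) = {p | p ∈ tC n ∧ (lb p = 0 ∨ lb p = 1 ∨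
    n * lb p = la p ∨ la p = n * lb p + 2)} := by
  rw [tC_eq, ← (ph n).preimage_frontier, frontier_prod_eq, closure_Icc, closure_Icc,
    frontier_Icc (by norm_num : (0 : ℝ) ≤ 2), frontier_Icc (by norm_num : (0 : ℝ) ≤ 1)]
  ext p
  have e : ph n p = (la p - n * lb p, lb p) := rfl
  simp only [mem_preimage, mem_union, mem_prod, mem_setOf_eq, e, mem_Icc, mem_insert_iff, mem_singleton_iff]
  constructor
  · rintro (⟨⟨h1, h2⟩, h3⟩ | ⟨h1, h2, h3⟩)
    · rcases h3 with h3 | h3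
      · exact ⟨⟨⟨h1, h2⟩, by rw [h3]; norm_num⟩, Or.inl h3⟩
      · exact ⟨⟨⟨h1, h2⟩, by rw [h3]; norm_num⟩, Or.inr (Or.inl h3)⟩
    · rcases h1 with h1 | h1
      · exact ⟨⟨by rw [h1]; norm_num, h2, h3⟩, Or.inr (Or.inr (Or.inl (by linarith)))⟩
      · exact ⟨⟨by rw [h1]; norm_num, h2, h3⟩, Or.inr (Or.inr (Or.inr (by linarith)))⟩
  · rintro ⟨⟨⟨h1, h2⟩, h3, h4⟩, h⟩
    rcases h with h | h | h | h
    · exact Or.inl ⟨⟨h1, h2⟩, Or.inl h⟩
    · exact Or.inl ⟨⟨h1, h2⟩, Or.inr h⟩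
    · exact Or.inr ⟨Or.inl (by linarith), h3, h4⟩
    · exact Or.inr ⟨Or.inr (by linarith), h3, h4⟩

theorem tC_vol (n : ℕ) : volume (tC n) = ENNReal.ofReal (√3) := by
  have h3 := s3
  set M : Matrix (Fin 2) (Fin 2) ℝ := !![1, -(1 / √3) - n * (2 / √3); 0, 2 / √3] with hM
  set B : Set (Fin 2 → ℝ) := Set.pi univ ![Icc (0 : ℝ) 2, Icc (0 : ℝ) 1] with hB
  have hdet : LinearMap.det (Matrix.toLin' M) = 2 / √3 := by
    rw [LinearMap.det_toLin', hM, Matrix.det_fin_two_of]
    ring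
  have e1 : tC n = (@WithLp.ofLp 2 (Fin 2 → ℝ)) ⁻¹' (Matrix.toLin' M ⁻¹' B) := by
    ext p
    show (0 ≤ lb p ∧ lb p ≤ 1 ∧ n * lb p ≤ la p ∧ la p ≤ n * lb p + 2) ↔ Matrix.toLin' M (WithLp.ofLp p) ∈ B
    rw [hB, mem_univ_pi, Fin.forall_fin_two]
    have c0 : (Matrix.toLin' M (WithLp.ofLp p)) 0 = la p - n * lb p := by
      rw [Matrix.toLin'_apply, hM]
      simp only [Matrix.mulVec, dotProduct, Fin.sum_univ_two]
      unfold la lb
      simp
      ring
    have c1 : (Matrix.toLin' M (WithLp.ofLp p)) 1 = lb p := by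
      rw [Matrix.toLin'_apply, hM]
      simp only [Matrix.mulVec, dotProduct, Fin.sum_univ_two]
      unfold lb
      simp
      ring
    rw [c0, c1]
    simp only [Matrix.cons_val_zero, Matrix.cons_val_one, mem_Icc]
    constructor
    · rintro ⟨h1, h2, h3, h4⟩
      exact ⟨⟨by linarith, by linarith⟩, h1, h2⟩
    · rintro ⟨⟨h1, h2⟩, h3, h4⟩
      exact ⟨h3, h4, by linarith, by linarith⟩
  have hBm : MeasurableSet B := by
    rw [hB]
    refine MeasurableSet.univ_pi fun i => ?_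
    fin_cases i <;> exact measurableSet_Icc
  have hm : MeasurableSet (Matrix.toLin' M ⁻¹' B) := by
    have hc : Continuous (Matrix.toLin' M) := LinearMap.continuous_of_finiteDimensional _
    exact hc.measurable hBm
  rw [e1, (PiLp.volume_preserving_ofLp (Fin 2)).measure_preimage hm.nullMeasurableSet,
    Measure.addHaar_preimage_linearMap volume (by rw [hdet]; positivity), hdet, hB, volume_pi_pi,
    Fin.prod_univ_two]
  simp only [Matrix.cons_val_zero, Matrix.cons_val_one, Real.volume_Icc]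
  rw [← ENNReal.ofReal_mul (by norm_num), ← ENNReal.ofReal_mul (abs_nonneg _)]
  congr 1
  rw [abs_of_pos (by positivity)]
  field_simp
  ring

theorem tC_diam (n : ℕ) : (n : ℝ) ≤ diam (tC n) := by
  have hb : Bornology.IsBounded (tC n) := (tC_region n).cpt.isBounded
  have h0 : lpt 0 0 ∈ tC n := by
    refine ⟨?_, ?_, ?_, ?_⟩ <;> simp only [la_lpt, lb_lpt] <;> norm_num
  have h1 : lpt (n + 2) 1 ∈ tC n := by
    refine ⟨?_, ?_, ?_, ?_⟩ <;> simp only [la_lpt, lb_lpt] <;> norm_num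
  refine le_trans ?_ (dist_le_diam_of_mem hb h1 h0)
  rw [EuclideanSpace.dist_eq, Fin.sum_univ_two]
  apply Real.le_sqrt_of_sq_le
  have e0 : dist ((lpt (n + 2) 1) 0) ((lpt 0 0) 0) = (n : ℝ) + 2 + 1 / 2 := by
    rw [lpt0, lpt0, Real.dist_eq, abs_of_nonneg]
    · ring
    · have : (0 : ℝ) ≤ n := Nat.cast_nonneg n
      linarith
  rw [e0]
  have hn : (0 : ℝ) ≤ n := Nat.cast_nonneg n
  nlinarith [sq_nonneg (dist ((lpt (n + 2) 1) 1) ((lpt 0 0) 1))]

end Pool.Agent.Lib.FOLD
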