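import Pool.Agent.Lib.FOLD.Defs

/-!
# FOLD.TD: thin parallelograms folded to the regular tetrahedron, definitions
Lattice coordinates `(a, b)` of the plane for the triangular lattice `e1 = (1,0)`, `e2 = (1/2, √3/2)`. The region `tC n = {0 ≤ b ≤ 1, n b ≤ a ≤ n b + 2}` is a parallelogram of area `√3` and diameter `≥ n`.
The strip `0 ≤ b ≤ 1` is mapped onto the boundary of the regular tetrahedron of edge `1` with vertices `(0,0,0), (1,1,0)/√2, (1,0,1)/√2, (0,1,1)/√2` by `(a,b) ↦ (ev (a+b), ev a, b)/√2`, `ev t` = distance of `t` from the nearest even integer.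
`x = (1,0)`, `y = (n+1,1)`; the slanted lines `a = i` and `a + b = i` cut the region into quadrilaterals, `lowp n j`, `upp n j` are the lower and upper end point of the slanted line number `j` (`a = j/2` for even `j`, `a + b = (j+1)/2` for odd `j`), `0 ≤ j ≤ 2n+4`.
-/

set_option autoImplicit false

open MeasureTheory Set Filter Topology Metric
open scoped MeasureTheory ENNReal

namespace Pool.Agent.Lib.FOLD

/-- distance to the nearest even integer -/
noncomputable def ev (t : ℝ) : ℝ := |t - 2 * (round (t / 2) : ℤ)|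

/-- lattice coordinates -/
noncomputable def la (p : E2) : ℝ := p 0 - p 1 / √3

/-- lattice coordinates -/
noncomputable def lb (p : E2) : ℝ := 2 * p 1 / √3

/-- the point with lattice coordinates `(a, b)` -/
noncomputable def lpt (a b : ℝ) : E2 := !₂[a + b / 2, √3 / 2 * b]

/-- the folding map of the strip -/
noncomputable def tf (p : E2) : E3 := !₂[ev (la p + lb p) / √2, ev (la p) / √2, lb p / √2]

/-- the parallelogram -/
def tC (n : ℕ) : Set E2 := {p | 0 ≤ lb p ∧ lb p ≤ 1 ∧ n * lb p ≤ la p ∧ la p ≤ n * lb p + 2}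

/-- the regular tetrahedron of edge `1` -/
def tQ : Set E3 := {z | z 0 ≤ z 1 + z 2 ∧ z 1 ≤ z 0 + z 2 ∧ z 2 ≤ z 0 + z 1 ∧ z 0 + z 1 + z 2 ≤ √2}

/-- the gluing of the parallelogram -/
def tG (n : ℕ) (p q : E2) : Prop :=
  (lb p = lb q ∧ (la q = la p + 2 ∨ la p = la q + 2)) ∨ (lb p = 0 ∧ lb q = 0 ∧ la p + la q = 2) ∨
    (lb p = 1 ∧ lb q = 1 ∧ la p + la q = 2 * n + 2)

/-- `b`-coordinate of the lower end point of the slanted line `j` -/
noncomputable def blo (n j : ℕ) : ℝ :=
  if j % 2 = 0 then max 0 (((j / 2 : ℕ) - 2 : ℝ) / n) else max 0 ((((j + 1) / 2 : ℕ) - 2 : ℝ) / (n + 1))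

/-- `b`-coordinate of the upper end point of the slanted line `j` -/
noncomputable def bup (n j : ℕ) : ℝ :=
  if j % 2 = 0 then min 1 (((j / 2 : ℕ) : ℝ) / n) else min 1 ((((j + 1) / 2 : ℕ) : ℝ) / (n + 1))

/-- the point with the coordinate `b` on the slanted line `j` -/
noncomputable def slp (j : ℕ) (b : ℝ) : E2 :=
  if j % 2 = 0 then lpt ((j / 2 : ℕ) : ℝ) b else lpt ((((j + 1) / 2 : ℕ) : ℝ) - b) b

/-- lower end point -/
noncomputable def lowp (n j : ℕ) : E2 := slp j (blo n j)

/-- upper end point -/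
noncomputable def upp (n j : ℕ) : E2 := slp j (bup n j)

/-- the two triangles of the cell between the slanted lines `j` and `j + 1` -/
noncomputable def tv (n j : ℕ) (c : Bool) : Fin 3 → E2 :=
  if c then ![lowp n (j + 1), upp n (j + 1), upp n j] else ![lowp n j, lowp n (j + 1), upp n j]

end Pool.Agent.Lib.FOLD
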