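import Pool.Agent.Lib.FOLD.TD
import Pool.Agent.Lib.FOLD.TeV

/-!
# FOLD.TQ: the regular tetrahedron (0.8 h)
PROOF. `tQ` is the convex hull of `(0,0,0), (1,1,0)/√2, (1,0,1)/√2, (0,1,1)/√2` (barycentric coordinates are the four slacks divided by `√2`), so `vol_tet` gives the volume `|det|/6 = 2/(2√2)/6 = √2/12`. Closed half spaces: closed, convex; bounded. Interior = strict inequalities. `tQ_vol_vt`: `vt` is the volume
of the regular tetrahedron of surface area `1`: `(√2/12)² = 1/72` and `vt² (√3)³ = 3√3/(216√3) = 1/72`, `√2/12 = vt (√3)^(3/2)`: `(√2/12) · t³ = vt` for `t = 1/√(√3)` (`t⁴ = 1/3`).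
-/

set_option autoImplicit false

open MeasureTheory Set Filter Topology Metric
open scoped MeasureTheory ENNReal

namespace Pool.Agent.Lib.FOLD

namespace TQAux

/-- linear functional -/
noncomputable def l (a b c : ℝ) : E3 →L[ℝ] ℝ :=
  a • EuclideanSpace.proj 0 + b • EuclideanSpace.proj 1 + c • EuclideanSpace.proj 2

lemma l_app (a b c : ℝ) (z : E3) : l a b c z = a * z 0 + b * z 1 + c * z 2 := by
  simp [l]

lemma l_open {a b c : ℝ} (h : a ≠ 0) : IsOpenMap (l a b c) := by
  apply ContinuousLinearMap.isOpenMap_of_ne_zero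
  intro h0
  have := congrArg (fun f => f (EuclideanSpace.single (0 : Fin 3) (1 : ℝ))) h0
  simp [l_app] at this
  exact h this

lemma hs_int {a b c : ℝ} (h : a ≠ 0) (d : ℝ) :
    interior {z : E3 | a * z 0 + b * z 1 + c * z 2 ≤ d} = {z : E3 | a * z 0 + b * z 1 + c * z 2 < d} := by
  have h1 : {z : E3 | a * z 0 + b * z 1 + c * z 2 ≤ d} = l a b c ⁻¹' Iic d := by
    ext z; simp [l_app]
  rw [h1, ← (l_open h).preimage_interior_eq_interior_preimage (l a b c).continuous, interior_Iic]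
  ext z; simp [l_app]

lemma hs_closed (a b c d : ℝ) : IsClosed {z : E3 | a * z 0 + b * z 1 + c * z 2 ≤ d} := by
  have h1 : {z : E3 | a * z 0 + b * z 1 + c * z 2 ≤ d} = l a b c ⁻¹' Iic d := by
    ext z; simp [l_app]
  rw [h1]
  exact isClosed_Iic.preimage (l a b c).continuous

lemma tQ_eq : tQ = {z : E3 | 1 * z 0 + (-1) * z 1 + (-1) * z 2 ≤ 0} ∩
    ({z : E3 | (-1) * z 0 + 1 * z 1 + (-1) * z 2 ≤ 0} ∩
    ({z : E3 | (-1) * z 0 + (-1) * z 1 + 1 * z 2 ≤ 0} ∩
    {z : E3 | 1 * z 0 + 1 * z 1 + 1 * z 2 ≤ √2})) := by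
  ext z
  simp only [tQ, mem_ofPred_eq, mem_inter_iff]
  constructor
  · rintro ⟨h1, h2, h3, h4⟩
    refine ⟨by linarith, by linarith, by linarith, by linarith⟩
  · rintro ⟨h1, h2, h3, h4⟩
    refine ⟨by linarith, by linarith, by linarith, by linarith⟩

lemma tQ_closed : IsClosed tQ := by
  rw [tQ_eq]
  exact (hs_closed _ _ _ _).inter ((hs_closed _ _ _ _).inter ((hs_closed _ _ _ _).inter (hs_closed _ _ _ _)))

lemma tQ_interior : interior tQ = {z | z 0 < z 1 + z 2 ∧ z 1 < z 0 + z 2 ∧ z 2 < z 0 + z 1 ∧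
    z 0 + z 1 + z 2 < √2} := by
  rw [tQ_eq, interior_inter, interior_inter, interior_inter, hs_int (by norm_num), hs_int (by norm_num),
    hs_int (by norm_num), hs_int (by norm_num)]
  ext z
  simp only [mem_ofPred_eq, mem_inter_iff]
  constructor
  · rintro ⟨h1, h2, h3, h4⟩
    refine ⟨by linarith, by linarith, by linarith, by linarith⟩
  · rintro ⟨h1, h2, h3, h4⟩
    refine ⟨by linarith, by linarith, by linarith, by linarith⟩

/-- the vertices -/
noncomputable def vtx : Fin 4 → E3 :=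
  ![0, !₂[1 / √2, 1 / √2, 0], !₂[1 / √2, 0, 1 / √2], !₂[0, 1 / √2, 1 / √2]]

end TQAux

open TQAux

theorem tQ_cpt : IsCompact tQ := by
  apply Metric.isCompact_of_isClosed_isBounded tQ_closed
  apply (Metric.isBounded_closedBall (x := (0 : E3)) (r := √2)).subset
  rintro z ⟨h1, h2, h3, h4⟩
  rw [mem_closedBall_zero_iff, EuclideanSpace.norm_eq]
  apply Real.sqrt_le_iff.2
  refine ⟨by positivity, ?_⟩
  have h5 : 0 ≤ z 0 := by linarith
  have h6 : 0 ≤ z 1 := by linarith
  have h7 : 0 ≤ z 2 := by linarith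
  simp only [Fin.sum_univ_three, Real.norm_eq_abs, sq_abs]
  calc z 0 ^ 2 + z 1 ^ 2 + z 2 ^ 2 ≤ (z 0 + z 1 + z 2) ^ 2 := by
        nlinarith [mul_nonneg h5 h6, mul_nonneg h5 h7, mul_nonneg h6 h7]
    _ ≤ √2 ^ 2 := by
        apply pow_le_pow_left₀ (by linarith) h4

theorem tQ_cvx : Convex ℝ tQ := by
  rintro x ⟨h1, h2, h3, h4⟩ y ⟨k1, k2, k3, k4⟩ a b ha hb hab
  simp only [tQ, mem_ofPred_eq, PiLp.add_apply, PiLp.smul_apply, smul_eq_mul]
  refine ⟨?_, ?_, ?_, ?_⟩
  · nlinarith [mul_le_mul_of_nonneg_left h1 ha, mul_le_mul_of_nonneg_left k1 hb]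
  · nlinarith [mul_le_mul_of_nonneg_left h2 ha, mul_le_mul_of_nonneg_left k2 hb]
  · nlinarith [mul_le_mul_of_nonneg_left h3 ha, mul_le_mul_of_nonneg_left k3 hb]
  · have e : √2 = a * √2 + b * √2 := by rw [← add_mul, hab, one_mul]
    nlinarith [mul_le_mul_of_nonneg_left h4 ha, mul_le_mul_of_nonneg_left k4 hb]

theorem tQ_int : (interior tQ).Nonempty := by
  rw [tQ_interior]
  have : 0 < √2 := by positivity
  refine ⟨!₂[√2 / 4, √2 / 4, √2 / 4], ?_⟩
  simp only [mem_ofPred_eq]
  simp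
  linarith

theorem tQ_frontier : frontier tQ = {z | z ∈ tQ ∧ (z 0 = z 1 + z 2 ∨ z 1 = z 0 + z 2 ∨ z 2 = z 0 + z 1 ∨
    z 0 + z 1 + z 2 = √2)} := by
  rw [frontier, tQ_closed.closure_eq, tQ_interior]
  ext z
  simp only [Set.mem_sdiff, mem_ofPred_eq]
  constructor
  · rintro ⟨h, h'⟩
    refine ⟨h, ?_⟩
    obtain ⟨h1, h2, h3, h4⟩ := h
    by_contra hne
    push Not at hne
    obtain ⟨n1, n2, n3, n4⟩ := hne
    exact h' ⟨lt_of_le_of_ne h1 n1, lt_of_le_of_ne h2 n2, lt_of_le_of_ne h3 n3, lt_of_le_of_ne h4 n4⟩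
  · rintro ⟨h, h'⟩
    refine ⟨h, ?_⟩
    rintro ⟨h1, h2, h3, h4⟩
    rcases h' with h' | h' | h' | h' <;> linarith

theorem tQ_vol : volume tQ = ENNReal.ofReal (√2 / 12) := by
  have hs : 0 < √2 := by positivity
  have hs2 : √2 * √2 = 2 := Real.mul_self_sqrt (by norm_num)
  have h1 : tQ = convexHull ℝ (range vtx) := by
    apply Subset.antisymm
    · rintro z ⟨h1, h2, h3, h4⟩
      have key : z = ∑ i, (![1 - (z 0 + z 1 + z 2) / √2, (z 0 + z 1 - z 2) / √2, (z 0 + z 2 - z 1) / √2,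
          (z 1 + z 2 - z 0) / √2] : Fin 4 → ℝ) i • vtx i := by
        rw [Fin.sum_univ_four]
        ext k
        fin_cases k
        · simp [vtx]
          field_simp
          nlinarith
        · simp [vtx]
          field_simp
          nlinarith
        · simp [vtx]
          field_simp
          nlinarith
      rw [key]
      apply (convex_convexHull ℝ _).sum_mem
      · intro i _
        fin_cases i
        · simp
          rw [div_le_one hs]
          exact h4
        · simp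
          apply div_nonneg _ hs.le
          linarith
        · simp
          apply div_nonneg _ hs.le
          linarith
        · simp
          apply div_nonneg _ hs.le
          linarith
      · rw [Fin.sum_univ_four]
        simp
        field_simp
        ring
      · intro i _
        exact subset_convexHull _ _ (mem_range_self i)
    · apply convexHull_min _ tQ_cvx
      have h3 : 1 / √2 + 1 / √2 = √2 := by
        field_simp
        nlinarith
      have h4 : 0 ≤ 1 / √2 := by positivity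
      have h5 : 0 ≤ √2 := hs.le
      rintro _ ⟨i, rfl⟩
      fin_cases i
      · simp [vtx, tQ]
      · simp only [vtx, tQ, mem_ofPred_eq]
        simp at h3 h4 ⊢
        exact h3.le
      · simp only [vtx, tQ, mem_ofPred_eq]
        simp at h3 h4 ⊢
        exact h3.le
      · simp only [vtx, tQ, mem_ofPred_eq]
        simp at h3 h4 ⊢
        exact h3.le
  rw [h1, vol_tet]
  congr 1
  have h2 : det3 (vtx 1 - vtx 0) (vtx 2 - vtx 0) (vtx 3 - vtx 0) = -(√2 / 2) := by
    simp [vtx, det3]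
    field_simp
    nlinarith
  rw [h2, abs_neg, abs_of_pos (by positivity)]
  ring

theorem vt_eq : √2 / 12 * (1 / √(√3)) ^ 3 = vt := by
  have h3 : 0 < √3 := by positivity
  have hs : 0 < √(√3) := by positivity
  have hs2 : √(√3) ^ 2 = √3 := Real.sq_sqrt h3.le
  have h32 : √3 ^ 2 = 3 := Real.sq_sqrt (by norm_num)
  have h2 : 0 < √2 := by positivity
  have h22 : √2 ^ 2 = 2 := Real.sq_sqrt (by norm_num)
  have key : √(216 * √3) = 12 * √(√3) ^ 3 / √2 := by
    rw [Real.sqrt_eq_iff_mul_self_eq (by positivity) (by positivity)]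
    have e1 : 12 * √(√3) ^ 3 / √2 * (12 * √(√3) ^ 3 / √2) = 144 * (√(√3) ^ 2) ^ 3 / √2 ^ 2 := by ring
    rw [e1, hs2, h22]
    have e2 : √3 ^ 3 = √3 ^ 2 * √3 := by ring
    rw [e2, h32]
    ring
  rw [vt, key]
  field_simp

end Pool.Agent.Lib.FOLD
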