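import Pool.Agent.Lib.FOLD.TC
import Pool.Agent.Lib.FOLD.TQ

/-!
# FOLD.TM: the folding map of the strip (1.3 h)
PROOF. Write `a = la p`, `b = lb p`, `z = √2 • tf p = (ev (a+b), ev a, b)`, `0 ≤ b ≤ 1`. Let `i = ⌊a⌋`, `τ = a - i`. If `i` is even `ev a = τ`, `ev (a+b) = 1 - |1 - τ - b|`; if `i` is odd `ev a = 1 - τ`, `ev (a+b) = |1 - τ - b|` (so `z 0 = |z 1 - z 2|` in units of `1/√2`). `tf_onto`: the boundary of the tetrahedron
is `{z 0 = 1 - |1 - z 1 - z 2|} ∪ {z 0 = |z 1 - z 2|}` (scaled by `√2`, `0 ≤ z i ≤ 1`) by `tQ_frontier`, and for every `b ∈ [0,1]` the numbers `a ∈ [n b, n b + 2]` run through a full period of `ev`. `tf_glue`: `tf p = tf q` gives `lb p = lb q = b`, `ev a = ev a'`, `ev (a+b) = ev (a'+b)`. `ev a = ev a'` means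
`a' ≡ a` or `a' ≡ -a` modulo `2`. If `a' ≡ a`: since both are in `[nb, nb+2]`, `a = a'` or `|a - a'| = 2`. If `a' ≡ -a` (mod 2) and also `a' + b ≡ a + b`: then `a' ≡ a`. If `a' ≡ -a` and `a' + b ≡ -(a + b)`: then `2b ≡ 0 (mod 2)`, so `b ∈ {0, 1}`; `b = 0`: `a, a' ∈ [0,2]`, `a + a' ∈ {0, 2, 4}`, i.e. `a + a' = 2` or `a = a'`;
`b = 1`: `a, a' ∈ [n, n+2]`, `a + a'` even, in `[2n, 2n+4]`: `a + a' = 2n+2` or `a = a'`. If `a' ≡ a` and `a'+b ≡ -(a+b)`: covered by the first case. Conversely `tG` implies `tf p = tf q` (`ev` is even and `2`-periodic).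
`tf_rigid`: on `{i ≤ a ≤ i+1}` `ev a` is `±a + c`, so for `σ, ρ ∈ {1,-1}` the map `p ↦ (σ (p 0 + p 1/√3) + c, ρ (p 0 - p 1/√3) + c', 2 p 1/√3)/√2` is an affine isometry (its linear part preserves the norm).
-/

set_option autoImplicit false

open MeasureTheory Set Filter Topology Metric
open scoped MeasureTheory ENNReal

namespace Pool.Agent.Lib.FOLD

namespace TMAux

private lemma ev_eq {t : ℝ} (m : ℤ) (h : |t - 2 * m| ≤ 1) : ev t = |t - 2 * m| := by
  have h1 : |t / 2 - round (t / 2)| ≤ |t / 2 - m| := round_le (t / 2) m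
  have e : ∀ k : ℤ, |t - 2 * k| = 2 * |t / 2 - k| := by
    intro k
    have : t - 2 * k = 2 * (t / 2 - k) := by ring
    rw [this, abs_mul, abs_of_pos (by norm_num : (0 : ℝ) < 2)]
  have h2 : ev t ≤ |t - 2 * m| := by
    unfold ev
    rw [e, e]
    linarith
  refine le_antisymm h2 ?_
  unfold ev
  by_cases hk : round (t / 2) = m
  · rw [hk]
  · have h3 : (1 : ℝ) ≤ |(round (t / 2) : ℝ) - m| := by
      have h4 : (1 : ℤ) ≤ |round (t / 2) - m| := Int.one_le_abs (sub_ne_zero.mpr hk)
      exact_mod_cast h4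
    have h5 : (2 : ℝ) * |(round (t / 2) : ℝ) - m| ≤ |t - 2 * (round (t / 2) : ℤ)| + |t - 2 * m| := by
      have h6 : (2 : ℝ) * ((round (t / 2) : ℝ) - m) = -(t - 2 * (round (t / 2) : ℤ)) + (t - 2 * m) := by
        ring
      have h7 : (2 : ℝ) * |(round (t / 2) : ℝ) - m| = |2 * ((round (t / 2) : ℝ) - m)| := by
        rw [abs_mul, abs_of_pos (by norm_num : (0 : ℝ) < 2)]
      rw [h7, h6]
      refine (abs_add_le _ _).trans ?_
      rw [abs_neg]
    linarith

private lemma ev_ex (t : ℝ) : ∃ m : ℤ, |t - 2 * m| ≤ 1 ∧ ev t = |t - 2 * m| := by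
  refine ⟨round (t / 2), ?_, rfl⟩
  have h1 := abs_sub_round (t / 2)
  have : t - 2 * (round (t / 2) : ℤ) = 2 * (t / 2 - round (t / 2)) := by ring
  rw [this, abs_mul, abs_of_pos (by norm_num : (0 : ℝ) < 2)]
  linarith

private lemma ev_nonneg (t : ℝ) : 0 ≤ ev t := abs_nonneg _

private lemma ev_le_one (t : ℝ) : ev t ≤ 1 := by
  obtain ⟨m, h1, h2⟩ := ev_ex t
  rw [h2]; exact h1

private lemma ev_add (t : ℝ) (m : ℤ) : ev (t + 2 * m) = ev t := by
  obtain ⟨k, h1, h2⟩ := ev_ex t
  have h3 : t + 2 * m - 2 * ((k + m : ℤ) : ℝ) = t - 2 * k := by push_cast; ring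
  rw [ev_eq (k + m) (by rw [h3]; exact h1), h3, h2]

private lemma ev_neg (t : ℝ) (m : ℤ) : ev (-t + 2 * m) = ev t := by
  obtain ⟨k, h1, h2⟩ := ev_ex t
  have h3 : -t + 2 * m - 2 * ((m - k : ℤ) : ℝ) = -(t - 2 * k) := by push_cast; ring
  rw [ev_eq (m - k) (by rw [h3, abs_neg]; exact h1), h3, abs_neg, h2]

private lemma ev_inj {s t : ℝ} (h : ev s = ev t) : ∃ m : ℤ, t = s + 2 * m ∨ t = -s + 2 * m := by
  obtain ⟨k, -, h1⟩ := ev_ex s
  obtain ⟨l, -, h2⟩ := ev_ex t
  rw [h1, h2] at h
  rcases abs_eq_abs.mp h with h3 | h3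
  · exact ⟨l - k, Or.inl (by push_cast; linarith)⟩
  · exact ⟨l + k, Or.inr (by push_cast; linarith)⟩

/-- on a unit interval `ev` is affine with slope `±1` -/
private lemma ev_affine (i : ℤ) : ∃ σ c : ℝ, (σ = 1 ∨ σ = -1) ∧
    ∀ t : ℝ, i ≤ t → t ≤ i + 1 → ev t = σ * t + c := by
  rcases Int.even_or_odd' i with ⟨m, rfl | rfl⟩
  · refine ⟨1, -(2 * m), Or.inl rfl, fun t h1 h2 => ?_⟩
    push_cast at h1 h2
    have h3 : |t - 2 * m| = t - 2 * m := abs_of_nonneg (by linarith)
    rw [ev_eq m (by rw [h3]; linarith), h3]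
    ring
  · refine ⟨-1, 2 * (m + 1), Or.inr rfl, fun t h1 h2 => ?_⟩
    push_cast at h1 h2
    have h3 : |t - 2 * ((m + 1 : ℤ) : ℝ)| = 2 * (m + 1) - t := by
      rw [abs_of_nonpos (by push_cast; linarith)]
      push_cast; ring
    rw [ev_eq (m + 1) (by rw [h3]; linarith), h3]
    ring

private lemma sq2 : (0 : ℝ) < √2 := by positivity

/-- the two cases for the pair of values -/
private lemma ev_cases (a b : ℝ) (h0 : 0 ≤ b) (h1 : b ≤ 1) :
    ev (a + b) = 1 - |1 - ev a - b| ∨ ev (a + b) = |ev a - b| := by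
  obtain ⟨m, h2, h3⟩ := ev_ex a
  rcases le_total 0 (a - 2 * m) with h4 | h4
  · left
    rw [abs_of_nonneg h4] at h2 h3
    rw [h3]
    rcases le_total (a - 2 * m + b) 1 with h5 | h5
    · have h6 : |a + b - 2 * m| = a - 2 * m + b := by
        rw [abs_of_nonneg (by linarith)]; ring
      rw [ev_eq m (by rw [h6]; exact h5), h6, abs_of_nonneg (by linarith)]
      ring
    · have h6 : |a + b - 2 * ((m + 1 : ℤ) : ℝ)| = 2 - (a - 2 * m + b) := by
        rw [abs_of_nonpos (by push_cast; linarith)]; push_cast; ring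
      rw [ev_eq (m + 1) (by rw [h6]; linarith), h6, abs_of_nonpos (by linarith)]
      ring
  · right
    rw [abs_of_nonpos h4] at h2 h3
    have h5 : |a + b - 2 * m| = |ev a - b| := by
      rw [h3, ← abs_neg]
      congr 1
      ring
    rw [ev_eq m (by
      rw [h5, h3, abs_le]
      constructor <;> linarith), h5]

private lemma tf_zero (p : E2) : tf p 0 = ev (la p + lb p) / √2 := by simp [tf]

private lemma tf_one (p : E2) : tf p 1 = ev (la p) / √2 := by simp [tf]

private lemma tf_two (p : E2) : tf p 2 = lb p / √2 := by simp [tf]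

private lemma ext3 {x y : E3} (h0 : x 0 = y 0) (h1 : x 1 = y 1) (h2 : x 2 = y 2) : x = y := by
  ext i
  fin_cases i
  · exact h0
  · exact h1
  · exact h2

private lemma tf_eq_iff (p q : E2) :
    tf p = tf q ↔ ev (la p + lb p) = ev (la q + lb q) ∧ ev (la p) = ev (la q) ∧ lb p = lb q := by
  have hs := sq2
  constructor
  · intro h
    have e0 := congrArg (fun z : E3 => z 0) h
    have e1 := congrArg (fun z : E3 => z 1) h
    have e2 := congrArg (fun z : E3 => z 2) h
    simp only [tf_zero, tf_one, tf_two] at e0 e1 e2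
    exact ⟨(div_left_inj' hs.ne').mp e0, (div_left_inj' hs.ne').mp e1, (div_left_inj' hs.ne').mp e2⟩
  · rintro ⟨e0, e1, e2⟩
    apply ext3
    · rw [tf_zero, tf_zero, e0]
    · rw [tf_one, tf_one, e1]
    · rw [tf_two, tf_two, e2]

private lemma eq_of_la_lb {p q : E2} (h1 : la p = la q) (h2 : lb p = lb q) : p = q := by
  rw [← lpt_la_lb p, ← lpt_la_lb q, h1, h2]

/-- the linear part -/
private noncomputable def lin (ρ σ : ℝ) : E2 →ₗ[ℝ] E3 where
  toFun p := !₂[ρ * (la p + lb p) / √2, σ * la p / √2, lb p / √2]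
  map_add' p q := by
    apply ext3 <;> simp [la, lb] <;> ring
  map_smul' c p := by
    apply ext3 <;> simp [la, lb] <;> ring

private lemma lin_norm {ρ σ : ℝ} (hρ : ρ = 1 ∨ ρ = -1) (hσ : σ = 1 ∨ σ = -1) (p : E2) :
    ‖lin ρ σ p‖ = ‖p‖ := by
  have h2 : ρ ^ 2 = 1 := by rcases hρ with h | h <;> rw [h] <;> norm_num
  have h3 : σ ^ 2 = 1 := by rcases hσ with h | h <;> rw [h] <;> norm_num
  have e : ‖lin ρ σ p‖ ^ 2 = ‖p‖ ^ 2 := by
    rw [EuclideanSpace.norm_sq_eq, EuclideanSpace.norm_sq_eq, Fin.sum_univ_three, Fin.sum_univ_two]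
    have e0 : (lin ρ σ p) 0 = ρ * (la p + lb p) / √2 := by simp [lin]
    have e1 : (lin ρ σ p) 1 = σ * la p / √2 := by simp [lin]
    have e2 : (lin ρ σ p) 2 = lb p / √2 := by simp [lin]
    rw [e0, e1, e2]
    simp only [Real.norm_eq_abs, sq_abs]
    have hs : (√2) ^ 2 = 2 := Real.sq_sqrt (by norm_num)
    have h3' : (√3) ^ 2 = 3 := Real.sq_sqrt (by norm_num)
    have hp : (0 : ℝ) < √3 := by positivity
    rw [div_pow, div_pow, div_pow, mul_pow, mul_pow, h2, h3, hs]
    unfold la lb
    have h5 : (p 1 / √3) ^ 2 = p 1 ^ 2 / 3 := by rw [div_pow, h3']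
    have h6 : 2 * p 1 / √3 = 2 * (p 1 / √3) := by ring
    rw [h6]
    nlinarith [h5]
  exact (sq_eq_sq₀ (norm_nonneg _) (norm_nonneg _)).mp e

end TMAux

open TMAux in
theorem tf_onto (n : ℕ) : tf '' tC n = frontier tQ := by
  have hs := sq2
  have hs2 : √2 * √2 = 2 := Real.mul_self_sqrt (by norm_num)
  rw [tQ_frontier]
  ext z
  constructor
  · rintro ⟨p, hp, rfl⟩
    obtain ⟨h0, h1, -, -⟩ := hp
    have hv0 := ev_nonneg (la p)
    have hv1 := ev_le_one (la p)
    have key : ∀ x y w : ℝ, x ≤ y + w → x / √2 ≤ y / √2 + w / √2 := by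
      intro x y w h
      rw [← add_div]
      exact div_le_div_of_nonneg_right h hs.le
    have key2 : ∀ x y w : ℝ, x = y + w → x / √2 = y / √2 + w / √2 := by
      intro x y w h
      rw [← add_div, h]
    have key3 : ∀ x y w : ℝ, x + y + w ≤ 2 → x / √2 + y / √2 + w / √2 ≤ √2 := by
      intro x y w h
      rw [← add_div, ← add_div, div_le_iff₀ hs, hs2]
      exact h
    have key4 : ∀ x y w : ℝ, x + y + w = 2 → x / √2 + y / √2 + w / √2 = √2 := by
      intro x y w h
      rw [← add_div, ← add_div, div_eq_iff hs.ne', hs2]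
      exact h
    simp only [mem_ofPred_eq, tQ, tf_zero, tf_one, tf_two]
    set u := ev (la p + lb p) with hu
    set v := ev (la p) with hv
    set b := lb p with hb
    rcases ev_cases (la p) b h0 h1 with h | h
    · rw [← hu, ← hv] at h
      rcases le_total 0 (1 - v - b) with h5 | h5
      · rw [abs_of_nonneg h5] at h
        exact ⟨⟨key _ _ _ (by linarith), key _ _ _ (by linarith), key _ _ _ (by linarith),
          key3 _ _ _ (by linarith)⟩, Or.inl (key2 _ _ _ (by linarith))⟩
      · rw [abs_of_nonpos h5] at h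
        exact ⟨⟨key _ _ _ (by linarith), key _ _ _ (by linarith), key _ _ _ (by linarith),
          key3 _ _ _ (by linarith)⟩, Or.inr (Or.inr (Or.inr (key4 _ _ _ (by linarith))))⟩
    · rw [← hu, ← hv] at h
      rcases le_total 0 (v - b) with h5 | h5
      · rw [abs_of_nonneg h5] at h
        exact ⟨⟨key _ _ _ (by linarith), key _ _ _ (by linarith), key _ _ _ (by linarith),
          key3 _ _ _ (by linarith)⟩, Or.inr (Or.inl (key2 _ _ _ (by linarith)))⟩
      · rw [abs_of_nonpos h5] at h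
        exact ⟨⟨key _ _ _ (by linarith), key _ _ _ (by linarith), key _ _ _ (by linarith),
          key3 _ _ _ (by linarith)⟩, Or.inr (Or.inr (Or.inl (key2 _ _ _ (by linarith))))⟩
  · rintro ⟨⟨g0, g1, g2, g3⟩, hz⟩
    set u := √2 * z 0 with hu
    set v := √2 * z 1 with hv
    set b := √2 * z 2 with hb
    have m0 := mul_le_mul_of_nonneg_left g0 hs.le
    have m1 := mul_le_mul_of_nonneg_left g1 hs.le
    have m2 := mul_le_mul_of_nonneg_left g2 hs.le
    have m3 := mul_le_mul_of_nonneg_left g3 hs.le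
    rw [mul_add, ← hu, ← hv, ← hb] at m0 m1 m2
    rw [mul_add, mul_add, ← hu, ← hv, ← hb, hs2] at m3
    have hb0 : 0 ≤ b := by linarith
    have hb1 : b ≤ 1 := by linarith
    have hv0 : 0 ≤ v := by linarith
    have hv1 : v ≤ 1 := by linarith
    have claim : ∃ a0 : ℝ, ev a0 = v ∧ ev (a0 + b) = u := by
      have hcase : u = 1 - |1 - v - b| ∨ u = |v - b| := by
        rcases hz with h | h | h | h
        · left
          have h' : u = v + b := by rw [hu, hv, hb, h]; ring
          rw [abs_of_nonneg (by linarith)]; linarith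
        · right
          have h' : v = u + b := by rw [hu, hv, hb, h]; ring
          rw [abs_of_nonneg (by linarith)]; linarith
        · right
          have h' : b = u + v := by rw [hu, hv, hb, h]; ring
          rw [abs_of_nonpos (by linarith)]; linarith
        · left
          have h' : u + v + b = 2 := by rw [hu, hv, hb, ← mul_add, ← mul_add, h, hs2]
          rw [abs_of_nonpos (by linarith)]; linarith
      rcases hcase with h | h
      · refine ⟨v, ?_, ?_⟩
        · have e : |v - 2 * ((0 : ℤ) : ℝ)| = v := by simp [abs_of_nonneg hv0]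
          rw [ev_eq 0 (by rw [e]; exact hv1), e]
        · rcases le_total (v + b) 1 with h5 | h5
          · have e : |v + b - 2 * ((0 : ℤ) : ℝ)| = v + b := by
              rw [abs_of_nonneg (by push_cast; linarith)]; push_cast; ring
            rw [ev_eq 0 (by rw [e]; exact h5), e, h, abs_of_nonneg (by linarith)]
            ring
          · have e : |v + b - 2 * ((1 : ℤ) : ℝ)| = 2 - (v + b) := by
              rw [abs_of_nonpos (by push_cast; linarith)]; push_cast; ring
            rw [ev_eq 1 (by rw [e]; linarith), e, h, abs_of_nonpos (by linarith)]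
            ring
      · refine ⟨-v, ?_, ?_⟩
        · have e : |-v - 2 * ((0 : ℤ) : ℝ)| = v := by
            rw [abs_of_nonpos (by push_cast; linarith)]; push_cast; ring
          rw [ev_eq 0 (by rw [e]; exact hv1), e]
        · have e : |-v + b - 2 * ((0 : ℤ) : ℝ)| = |v - b| := by
            rw [← abs_neg]; congr 1; push_cast; ring
          rw [ev_eq 0 (by
            rw [e, abs_le]
            constructor <;> linarith), e, h]
    obtain ⟨a0, ha0, ha1⟩ := claim
    set m : ℤ := ⌈(n * b - a0) / 2⌉ with hm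
    have k1 : (n * b - a0) / 2 ≤ m := Int.le_ceil _
    have k2 : (m : ℝ) < (n * b - a0) / 2 + 1 := Int.ceil_lt_add_one _
    refine ⟨lpt (a0 + 2 * m) b, ?_, ?_⟩
    · simp only [tC, mem_ofPred_eq, la_lpt, lb_lpt]
      exact ⟨hb0, hb1, by linarith, by linarith⟩
    · have e1 : ∀ x : ℝ, √2 * x / √2 = x := fun x => by field_simp
      apply ext3
      · rw [tf_zero, la_lpt, lb_lpt]
        have : a0 + 2 * m + b = (a0 + b) + 2 * m := by ring
        rw [this, ev_add, ha1, hu, e1]
      · rw [tf_one, la_lpt, ev_add, ha0, hv, e1]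
      · rw [tf_two, lb_lpt, hb, e1]

open TMAux in
theorem tf_glue (n : ℕ) (p : E2) (hp : p ∈ tC n) (q : E2) (hq : q ∈ tC n) :
    tf p = tf q ↔ p = q ∨ tG n p q := by
  obtain ⟨p0, p1, p2, p3⟩ := hp
  obtain ⟨q0, q1, q2, q3⟩ := hq
  constructor
  · intro h
    rw [tf_eq_iff] at h
    obtain ⟨e0, e1, e2⟩ := h
    have shift : ∀ m : ℤ, la q = la p + 2 * m → p = q ∨ tG n p q := by
      intro m hm
      rw [← e2] at q2 q3
      have m1 : (m : ℝ) ≤ 1 := by linarith
      have m2 : (-1 : ℝ) ≤ m := by linarith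
      have m1' : m ≤ 1 := by exact_mod_cast m1
      have m2' : -1 ≤ m := by exact_mod_cast m2
      have hcases : m = -1 ∨ m = 0 ∨ m = 1 := by omega
      rcases hcases with rfl | rfl | rfl
      · right; left
        exact ⟨e2, Or.inr (by push_cast at hm; linarith)⟩
      · left
        exact eq_of_la_lb (by push_cast at hm; linarith) e2
      · right; left
        exact ⟨e2, Or.inl (by push_cast at hm; linarith)⟩
    obtain ⟨m, hm | hm⟩ := ev_inj e1
    · exact shift m hm
    obtain ⟨m', hm' | hm'⟩ := ev_inj e0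
    · exact shift m' (by linarith)
    have hbi : lb p = ((m' - m : ℤ) : ℝ) := by push_cast; linarith
    have b0 : 0 ≤ m' - m := by
      have : (0 : ℝ) ≤ ((m' - m : ℤ) : ℝ) := by rw [← hbi]; exact p0
      exact_mod_cast this
    have b1 : m' - m ≤ 1 := by
      have : ((m' - m : ℤ) : ℝ) ≤ 1 := by rw [← hbi]; exact p1
      exact_mod_cast this
    have hcases : m' - m = 0 ∨ m' - m = 1 := by omega
    rcases hcases with hb | hb
    · rw [hb] at hbi
      have hb0 : lb p = 0 := by rw [hbi]; simp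
      have hb0' : lb q = 0 := by rw [← e2]; exact hb0
      rw [hb0] at p2 p3
      rw [hb0'] at q2 q3
      have m1 : (0 : ℝ) ≤ m := by nlinarith
      have m2 : (m : ℝ) ≤ 2 := by linarith
      have m1' : 0 ≤ m := by exact_mod_cast m1
      have m2' : m ≤ 2 := by exact_mod_cast m2
      have hc : m = 0 ∨ m = 1 ∨ m = 2 := by omega
      rcases hc with rfl | rfl | rfl
      · left
        push_cast at hm
        exact eq_of_la_lb (by linarith) e2
      · right; right; left
        push_cast at hm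
        exact ⟨hb0, hb0', by linarith⟩
      · left
        push_cast at hm
        exact eq_of_la_lb (by linarith) e2
    · rw [hb] at hbi
      have hb0 : lb p = 1 := by rw [hbi]; simp
      have hb0' : lb q = 1 := by rw [← e2]; exact hb0
      rw [hb0] at p2 p3
      rw [hb0'] at q2 q3
      have m1 : (n : ℝ) ≤ m := by linarith
      have m2 : (m : ℝ) ≤ n + 2 := by linarith
      have m1' : (n : ℤ) ≤ m := by exact_mod_cast m1
      have m2' : m ≤ n + 2 := by exact_mod_cast m2
      have hc : m = n ∨ m = n + 1 ∨ m = n + 2 := by omega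
      rcases hc with rfl | rfl | rfl
      · left
        push_cast at hm
        exact eq_of_la_lb (by linarith) e2
      · right; right; right
        push_cast at hm
        exact ⟨hb0, hb0', by linarith⟩
      · left
        push_cast at hm
        exact eq_of_la_lb (by linarith) e2
  · rintro (rfl | h)
    · rfl
    rw [tf_eq_iff]
    rcases h with ⟨h1, h2 | h2⟩ | ⟨h1, h2, h3⟩ | ⟨h1, h2, h3⟩
    · refine ⟨?_, ?_, h1⟩
      · have : la q + lb q = (la p + lb p) + 2 * ((1 : ℤ) : ℝ) := by push_cast; linarith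
        rw [this, ev_add]
      · have : la q = la p + 2 * ((1 : ℤ) : ℝ) := by push_cast; linarith
        rw [this, ev_add]
    · refine ⟨?_, ?_, h1⟩
      · have : la p + lb p = (la q + lb q) + 2 * ((1 : ℤ) : ℝ) := by push_cast; linarith
        rw [this, ev_add]
      · have : la p = la q + 2 * ((1 : ℤ) : ℝ) := by push_cast; linarith
        rw [this, ev_add]
    · refine ⟨?_, ?_, by rw [h1, h2]⟩
      · have : la q + lb q = -(la p + lb p) + 2 * ((1 : ℤ) : ℝ) := by push_cast; linarith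
        rw [this, ev_neg]
      · have : la q = -(la p) + 2 * ((1 : ℤ) : ℝ) := by push_cast; linarith
        rw [this, ev_neg]
    · refine ⟨?_, ?_, by rw [h1, h2]⟩
      · have : la q + lb q = -(la p + lb p) + 2 * ((n + 2 : ℤ) : ℝ) := by push_cast; linarith
        rw [this, ev_neg]
      · have : la q = -(la p) + 2 * ((n + 1 : ℤ) : ℝ) := by push_cast; linarith
        rw [this, ev_neg]

open TMAux in
theorem tf_rigid (i k : ℤ) : ∃ A : E2 →ᵃⁱ[ℝ] E3, ∀ p : E2, i ≤ la p → la p ≤ i + 1 →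
    k ≤ la p + lb p → la p + lb p ≤ k + 1 → tf p = A p := by
  obtain ⟨σ, c, hσ, h1⟩ := ev_affine i
  obtain ⟨ρ, d, hρ, h2⟩ := ev_affine k
  let w : E3 := !₂[d / √2, c / √2, 0]
  let A : E2 →ᵃⁱ[ℝ] E3 :=
    { toFun := fun p => lin ρ σ p + w
      linear := lin ρ σ
      map_vadd' := by
        intro p v
        simp only [vadd_eq_add, map_add]
        abel
      norm_map := lin_norm hρ hσ }
  refine ⟨A, fun p a1 a2 a3 a4 => ?_⟩
  have e : A p = lin ρ σ p + w := rfl
  rw [e]
  apply ext3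
  · rw [tf_zero, h2 _ a3 a4]
    simp [lin, w]
    ring
  · rw [tf_one, h1 _ a1 a2]
    simp [lin, w]
    ring
  · rw [tf_two]
    simp [lin, w]

end Pool.Agent.Lib.FOLD
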