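import Pool.Agent.Lib.FOLD.TC

/-!
# FOLD.TTa: the triangulation of the parallelogram, cover (1.4 h)
PROOF. Lattice coordinates. The lower boundary of `tC n` is `b = lo a = max 0 ((a-2)/n)`, the upper one `b = up a = min 1 (a/n)`, `0 ≤ a ≤ n+2`. The cell `j` is the part of `tC n` between the slanted lines `j` and `j+1`: for `j = 2i`: `i ≤ a`, `a + b ≤ i+1`; for `j = 2i+1`: `i + 1 ≤ a + b`, `a ≤ i+1`. `lo` and `up` are affine on it
(their kinks `a = 2` and `a = n` are at the lattice points `(2,0)` and `(n,1)`, which lie on slanted lines), so the cell is the convex hull of `lowp n j`, `lowp n (j+1)`, `upp n j`, `upp n (j+1)` (some may coincide), the union of the two triangles `tv n j false`, `tv n j true`, which are separated by the line through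
`lowp n (j+1)` and `upp n j`. `tT_cell`. `tT_cover`: every point of `tC n` is in a cell, hence in one of the two triangles; if that triangle is degenerate use density: the union of the nondegenerate ones is closed, and the degenerate ones have empty interior, so the union of the nondegenerate ones contains `interior (tC n)`
up to a set with empty interior, hence everything (`tC n = closure (interior (tC n))`). `tT_disj`: different cells are separated by a slanted line, the two triangles of a cell by the diagonal. `tT_vertex`: a point `lowp n i` or `upp n i` of the slanted line `i` that lies in the cell `j` is one of the four end points of the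
cell, and a point of the four that lies in a nondegenerate triangle of the cell is a vertex of it.
-/

set_option autoImplicit false

open MeasureTheory Set Filter Topology Metric
open scoped MeasureTheory ENNReal

namespace Pool.Agent.Lib.FOLD

namespace TTaAux

theorem la_add (p q : E2) : la (p + q) = la p + la q := by
  simp only [la, PiLp.add_apply]; ring

theorem la_smul (t : ℝ) (p : E2) : la (t • p) = t * la p := by
  simp only [la, PiLp.smul_apply, smul_eq_mul]; ring

theorem lb_add (p q : E2) : lb (p + q) = lb p + lb q := by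
  simp only [lb, PiLp.add_apply]; ring

theorem lb_smul (t : ℝ) (p : E2) : lb (t • p) = t * lb p := by
  simp only [lb, PiLp.smul_apply, smul_eq_mul]; ring

theorem ext2 {p q : E2} (h1 : la p = la q) (h2 : lb p = lb q) : p = q := by
  rw [← lpt_la_lb p, ← lpt_la_lb q, h1, h2]

theorem hull_le {V : Fin 3 → E2} {α β γ : ℝ} (h : ∀ i, α * la (V i) + β * lb (V i) ≤ γ) {p : E2}
    (hp : p ∈ tri V) : α * la p + β * lb p ≤ γ := by
  have hl : IsLinearMap ℝ (fun p : E2 => α * la p + β * lb p) := by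
    constructor
    · intro x y; simp only [la_add, lb_add]; ring
    · intro c x; simp only [la_smul, lb_smul, smul_eq_mul]; ring
  have hc := convex_halfSpace_le hl γ
  have : tri V ⊆ {w | (fun p : E2 => α * la p + β * lb p) w ≤ γ} := by
    apply convexHull_min _ hc
    rintro _ ⟨i, rfl⟩
    exact h i
  exact this hp

/-- orientation determinant in lattice coordinates -/
noncomputable def dt (A B C : E2) : ℝ :=
  (la B - la A) * (lb C - lb A) - (lb B - lb A) * (la C - la A)

theorem mem_tri {A B C p : E2} (hD : 0 < dt A B C) (h1 : 0 ≤ dt p B C) (h2 : 0 ≤ dt A p C)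
    (h3 : 0 ≤ dt A B p) : p ∈ tri ![A, B, C] := by
  set D := dt A B C with hDd
  have hsum : dt p B C / D + dt A p C / D + dt A B p / D = 1 := by
    rw [← add_div, ← add_div, div_eq_one_iff_eq hD.ne', hDd]
    unfold dt; ring
  have hp : p = (dt p B C / D) • A + (dt A p C / D) • B + (dt A B p / D) • C := by
    apply ext2
    · simp only [la_add, la_smul]
      rw [div_mul_eq_mul_div, div_mul_eq_mul_div, div_mul_eq_mul_div, ← add_div, ← add_div,
        eq_div_iff hD.ne', hDd]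
      unfold dt; ring
    · simp only [lb_add, lb_smul]
      rw [div_mul_eq_mul_div, div_mul_eq_mul_div, div_mul_eq_mul_div, ← add_div, ← add_div,
        eq_div_iff hD.ne', hDd]
      unfold dt; ring
  have hc := (convex_convexHull ℝ (range ![A, B, C])).sum_mem (t := Finset.univ)
    (w := ![dt p B C / D, dt A p C / D, dt A B p / D]) (z := ![A, B, C])
    (by intro i _; fin_cases i <;> simp <;> positivity)
    (by simp [Fin.sum_univ_three]; exact hsum)
    (by intro i _; exact subset_convexHull ℝ _ ⟨i, rfl⟩)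
  rw [Fin.sum_univ_three] at hc
  unfold tri
  rw [hp]
  exact hc

theorem affInd {A B C : E2} (h : dt A B C ≠ 0) : AffineIndependent ℝ ![A, B, C] := by
  rw [affineIndependent_iff_of_fintype]
  intro w hw h0
  rw [Finset.weightedVSub_eq_linear_combination _ hw, Fin.sum_univ_three] at h0
  rw [Fin.sum_univ_three] at hw
  simp only [Matrix.cons_val_zero, Matrix.cons_val_one, Matrix.cons_val_two, Matrix.head_cons,
    Matrix.tail_cons] at h0
  have ha : w 0 * la A + w 1 * la B + w 2 * la C = 0 := by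
    have := congrArg la h0
    simp only [la_add, la_smul] at this
    rw [this]; simp [la]
  have hb : w 0 * lb A + w 1 * lb B + w 2 * lb C = 0 := by
    have := congrArg lb h0
    simp only [lb_add, lb_smul] at this
    rw [this]; simp [lb]
  have e0 : w 0 = -(w 1 + w 2) := by linarith
  rw [e0] at ha hb
  have h1 : w 1 * dt A B C = 0 := by
    unfold dt
    linear_combination (lb C - lb A) * ha - (la C - la A) * hb
  have h2 : w 2 * dt A B C = 0 := by
    unfold dt
    linear_combination (la B - la A) * hb - (lb B - lb A) * ha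
  have h1' : w 1 = 0 := (mul_eq_zero.mp h1).resolve_right h
  have h2' : w 2 = 0 := (mul_eq_zero.mp h2).resolve_right h
  intro i
  fin_cases i
  · simp [e0, h1', h2']
  · exact h1'
  · exact h2'

theorem sep {S T : Set E2} {α β γ : ℝ} (hαβ : α ≠ 0 ∨ β ≠ 0)
    (hS : ∀ p ∈ S, α * la p + β * lb p ≤ γ) (hT : ∀ p ∈ T, γ ≤ α * la p + β * lb p) :
    Disjoint (interior S) (interior T) := by
  rw [Set.disjoint_left]
  intro x hx1 hx2
  have hU : interior S ∩ interior T ∈ 𝓝 x :=
    (isOpen_interior.inter isOpen_interior).mem_nhds ⟨hx1, hx2⟩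
  set v : E2 := lpt α β with hv
  have hc : Continuous (fun t : ℝ => x + t • v) := by fun_prop
  have h0 : (fun t : ℝ => x + t • v) 0 = x := by simp
  have hpre : ∀ᶠ t in 𝓝 (0:ℝ), x + t • v ∈ interior S ∩ interior T := by
    have := hc.continuousAt (x := 0)
    unfold ContinuousAt at this
    rw [h0] at this
    exact this hU
  obtain ⟨ε, hε, hball⟩ := Metric.eventually_nhds_iff.mp hpre
  have hc2 : 0 < α ^ 2 + β ^ 2 := by
    rcases hαβ with h | h
    · positivity
    · positivity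
  have hval : ∀ t : ℝ, α * la (x + t • v) + β * lb (x + t • v)
      = α * la x + β * lb x + t * (α ^ 2 + β ^ 2) := by
    intro t
    rw [la_add, lb_add, la_smul, lb_smul, hv, la_lpt, lb_lpt]; ring
  have h1 := hball (y := ε / 2) (by rw [Real.dist_eq]; simp; rw [abs_of_pos (half_pos hε)]; linarith)
  have h2 := hball (y := -(ε / 2)) (by rw [Real.dist_eq]; simp; rw [abs_of_pos (half_pos hε)]; linarith)
  have h3 := hS _ (interior_subset h1.1)
  have h4 := hT _ (interior_subset h2.2)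
  rw [hval] at h3 h4
  nlinarith [mul_pos hε hc2]

/-- the four numbers -/
noncomputable def l0 (n : ℕ) (x : ℝ) : ℝ := max 0 ((x - 2) / n)
noncomputable def l1 (n : ℕ) (x : ℝ) : ℝ := max 0 ((x - 2) / (n + 1))
noncomputable def u0 (n : ℕ) (x : ℝ) : ℝ := min 1 (x / n)
noncomputable def u1 (n : ℕ) (x : ℝ) : ℝ := min 1 (x / (n + 1))

theorem lowp_even (n i : ℕ) : lowp n (2 * i) = lpt i (l0 n i) := by
  have h1 : 2 * i % 2 = 0 := by omega
  have h2 : 2 * i / 2 = i := by omega
  simp only [lowp, slp, blo, h1, if_true, h2, l0]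

theorem upp_even (n i : ℕ) : upp n (2 * i) = lpt i (u0 n i) := by
  have h1 : 2 * i % 2 = 0 := by omega
  have h2 : 2 * i / 2 = i := by omega
  simp only [upp, slp, bup, h1, if_true, h2, u0]

theorem lowp_odd (n i : ℕ) : lowp n (2 * i + 1) = lpt ((i + 1 : ℕ) - l1 n (i + 1 : ℕ)) (l1 n (i + 1 : ℕ)) := by
  have h1 : ¬ (2 * i + 1) % 2 = 0 := by omega
  have h2 : (2 * i + 1 + 1) / 2 = i + 1 := by omega
  simp only [lowp, slp, blo, h1, if_false, h2, l1]

theorem upp_odd (n i : ℕ) : upp n (2 * i + 1) = lpt ((i + 1 : ℕ) - u1 n (i + 1 : ℕ)) (u1 n (i + 1 : ℕ)) := by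
  have h1 : ¬ (2 * i + 1) % 2 = 0 := by omega
  have h2 : (2 * i + 1 + 1) / 2 = i + 1 := by omega
  simp only [upp, slp, bup, h1, if_false, h2, u1]

variable {n : ℕ}

theorem l0_cases (hn : 2 ≤ n) (x : ℝ) : (x ≤ 2 ∧ l0 n x = 0) ∨ (2 < x ∧ n * l0 n x = x - 2) := by
  have hn' : (0:ℝ) < n := by exact_mod_cast (by omega : 0 < n)
  rcases le_or_gt x 2 with h | h
  · left
    refine ⟨h, max_eq_left ?_⟩
    exact div_nonpos_of_nonpos_of_nonneg (by linarith) hn'.le
  · right
    refine ⟨h, ?_⟩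
    unfold l0
    rw [max_eq_right (div_nonneg (by linarith) hn'.le)]
    field_simp

theorem l1_cases (x : ℝ) : (x ≤ 2 ∧ l1 n x = 0) ∨ (2 < x ∧ ((n:ℝ) + 1) * l1 n x = x - 2) := by
  have hn' : (0:ℝ) < (n:ℝ) + 1 := by positivity
  rcases le_or_gt x 2 with h | h
  · left
    refine ⟨h, max_eq_left ?_⟩
    exact div_nonpos_of_nonpos_of_nonneg (by linarith) hn'.le
  · right
    refine ⟨h, ?_⟩
    unfold l1
    rw [max_eq_right (div_nonneg (by linarith) hn'.le)]
    field_simp

theorem u0_cases (hn : 2 ≤ n) (x : ℝ) : ((n:ℝ) ≤ x ∧ u0 n x = 1) ∨ (x < n ∧ n * u0 n x = x) := by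
  have hn' : (0:ℝ) < n := by exact_mod_cast (by omega : 0 < n)
  rcases le_or_gt (n:ℝ) x with h | h
  · left
    refine ⟨h, min_eq_left ?_⟩
    rw [one_le_div hn']; exact h
  · right
    refine ⟨h, ?_⟩
    unfold u0
    rw [min_eq_right ((div_le_one hn').mpr h.le)]
    field_simp

theorem u1_cases (x : ℝ) : ((n:ℝ) + 1 ≤ x ∧ u1 n x = 1) ∨ (x < n + 1 ∧ ((n:ℝ) + 1) * u1 n x = x) := by
  have hn' : (0:ℝ) < (n:ℝ) + 1 := by positivity
  rcases le_or_gt ((n:ℝ) + 1) x with h | h
  · left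
    refine ⟨h, min_eq_left ?_⟩
    rw [one_le_div hn']; exact h
  · right
    refine ⟨h, ?_⟩
    unfold u1
    rw [min_eq_right ((div_le_one hn').mpr h.le)]
    field_simp

/-- bounds for the even lines -/
theorem b0 (hn : 2 ≤ n) {x : ℝ} (hx : 0 ≤ x) (hx2 : x ≤ n + 2) :
    0 ≤ l0 n x ∧ l0 n x ≤ 1 ∧ n * l0 n x ≤ x ∧ x ≤ n * l0 n x + 2 ∧
    0 ≤ u0 n x ∧ u0 n x ≤ 1 ∧ n * u0 n x ≤ x ∧ x ≤ n * u0 n x + 2 ∧ l0 n x ≤ u0 n x := by
  have hn' : (2:ℝ) ≤ n := by exact_mod_cast hn
  rcases l0_cases hn x with ⟨h1, h2⟩ | ⟨h1, h2⟩ <;> rcases u0_cases hn x with ⟨h3, h4⟩ | ⟨h3, h4⟩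
  · rw [h2, h4]; refine ⟨?_, ?_, ?_, ?_, ?_, ?_, ?_, ?_, ?_⟩ <;> linarith
  · have h5 : 0 ≤ u0 n x := by by_contra hc; push Not at hc; nlinarith
    have h6 : u0 n x ≤ 1 := by by_contra hc; push Not at hc; nlinarith
    rw [h2]; refine ⟨?_, ?_, ?_, ?_, ?_, ?_, ?_, ?_, ?_⟩ <;> linarith
  · have h5 : 0 ≤ l0 n x := by by_contra hc; push Not at hc; nlinarith
    have h6 : l0 n x ≤ 1 := by by_contra hc; push Not at hc; nlinarith
    rw [h4]; refine ⟨?_, ?_, ?_, ?_, ?_, ?_, ?_, ?_, ?_⟩ <;> linarith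
  · have h5 : 0 ≤ l0 n x := by by_contra hc; push Not at hc; nlinarith
    have h6 : l0 n x ≤ 1 := by by_contra hc; push Not at hc; nlinarith
    have h7 : 0 ≤ u0 n x := by by_contra hc; push Not at hc; nlinarith
    have h8 : u0 n x ≤ 1 := by by_contra hc; push Not at hc; nlinarith
    have h9 : l0 n x ≤ u0 n x := by by_contra hc; push Not at hc; nlinarith
    refine ⟨?_, ?_, ?_, ?_, ?_, ?_, ?_, ?_, ?_⟩ <;> linarith

/-- bounds for the odd lines -/
theorem b1 {x : ℝ} (hx : 1 ≤ x) (hx2 : x ≤ n + 2) :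
    0 ≤ l1 n x ∧ l1 n x < 1 ∧ (n + 1) * l1 n x ≤ x ∧ x ≤ (n + 1) * l1 n x + 2 ∧
    0 < u1 n x ∧ u1 n x ≤ 1 ∧ (n + 1) * u1 n x ≤ x ∧ x ≤ (n + 1) * u1 n x + 2 ∧ l1 n x < u1 n x := by
  have hn' : (0:ℝ) ≤ n := by positivity
  rcases l1_cases (n := n) x with ⟨h1, h2⟩ | ⟨h1, h2⟩ <;>
    rcases u1_cases (n := n) x with ⟨h3, h4⟩ | ⟨h3, h4⟩
  · rw [h2, h4]; refine ⟨?_, ?_, ?_, ?_, ?_, ?_, ?_, ?_, ?_⟩ <;> linarith
  · have h5 : 0 < u1 n x := by by_contra hc; push Not at hc; nlinarith
    have h6 : u1 n x ≤ 1 := by by_contra hc; push Not at hc; nlinarith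
    rw [h2]; refine ⟨?_, ?_, ?_, ?_, ?_, ?_, ?_, ?_, ?_⟩ <;> linarith
  · have h5 : 0 ≤ l1 n x := by by_contra hc; push Not at hc; nlinarith
    have h6 : l1 n x < 1 := by by_contra hc; push Not at hc; nlinarith
    rw [h4]; refine ⟨?_, ?_, ?_, ?_, ?_, ?_, ?_, ?_, ?_⟩ <;> linarith
  · have h5 : 0 ≤ l1 n x := by by_contra hc; push Not at hc; nlinarith
    have h6 : l1 n x < 1 := by by_contra hc; push Not at hc; nlinarith
    have h7 : 0 < u1 n x := by by_contra hc; push Not at hc; nlinarith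
    have h8 : u1 n x ≤ 1 := by by_contra hc; push Not at hc; nlinarith
    have h9 : l1 n x < u1 n x := by by_contra hc; push Not at hc; nlinarith
    refine ⟨?_, ?_, ?_, ?_, ?_, ?_, ?_, ?_, ?_⟩ <;> linarith


/-- being in the cell `j` -/
def Cell (n j : ℕ) (p : E2) : Prop :=
  p ∈ tC n ∧ ((j / 2 : ℕ) : ℝ) ≤ la p ∧ la p ≤ (j / 2 : ℕ) + 1 ∧
      (((j + 1) / 2 : ℕ) : ℝ) ≤ la p + lb p ∧ la p + lb p ≤ ((j + 1) / 2 : ℕ) + 1

theorem cell_hull {j : ℕ} {V : Fin 3 → E2} (h : ∀ i, Cell n j (V i)) {p : E2} (hp : p ∈ tri V) :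
    Cell n j p := by
  have h1 := hull_le (α := 0) (β := -1) (γ := 0) (fun i => by linarith [(h i).1.1]) hp
  have h2 := hull_le (α := 0) (β := 1) (γ := 1) (fun i => by linarith [(h i).1.2.1]) hp
  have h3 := hull_le (α := -1) (β := n) (γ := 0) (fun i => by linarith [(h i).1.2.2.1]) hp
  have h4 := hull_le (α := 1) (β := -n) (γ := 2) (fun i => by linarith [(h i).1.2.2.2]) hp
  have h5 := hull_le (α := -1) (β := 0) (γ := -((j / 2 : ℕ) : ℝ)) (fun i => by linarith [(h i).2.1]) hp
  have h6 := hull_le (α := 1) (β := 0) (γ := ((j / 2 : ℕ) : ℝ) + 1)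
    (fun i => by linarith [(h i).2.2.1]) hp
  have h7 := hull_le (α := -1) (β := -1) (γ := -(((j + 1) / 2 : ℕ) : ℝ))
    (fun i => by linarith [(h i).2.2.2.1]) hp
  have h8 := hull_le (α := 1) (β := 1) (γ := (((j + 1) / 2 : ℕ) : ℝ) + 1)
    (fun i => by linarith [(h i).2.2.2.2]) hp
  refine ⟨⟨?_, ?_, ?_, ?_⟩, ?_, ?_, ?_, ?_⟩ <;> linarith

theorem cell_even (hn : 2 ≤ n) {i : ℕ} (hi : i ≤ n + 1) :
    Cell n (2 * i) (lowp n (2 * i)) ∧ Cell n (2 * i) (upp n (2 * i)) ∧
    Cell n (2 * i) (lowp n (2 * i + 1)) ∧ Cell n (2 * i) (upp n (2 * i + 1)) := by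
  have hiR : (i : ℝ) ≤ n + 1 := by exact_mod_cast hi
  have hi0 : (0:ℝ) ≤ i := by positivity
  obtain ⟨a1, a2, a3, a4, a5, a6, a7, a8, a9⟩ := b0 hn (x := (i : ℝ)) hi0 (by linarith)
  obtain ⟨c1, c2, c3, c4, c5, c6, c7, c8, c9⟩ :=
    b1 (n := n) (x := ((i + 1 : ℕ) : ℝ)) (by push_cast; linarith) (by push_cast; linarith)
  have d1 : 2 * i / 2 = i := by omega
  have d2 : (2 * i + 1) / 2 = i := by omega
  have cc : ((i + 1 : ℕ) : ℝ) = (i : ℝ) + 1 := by push_cast; rfl
  rw [lowp_even, upp_even, lowp_odd, upp_odd]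
  unfold Cell tC
  simp only [Set.mem_ofPred_eq, la_lpt, lb_lpt, d1, d2]
  rw [cc] at c1 c2 c3 c4 c5 c6 c7 c8 c9 ⊢
  refine ⟨⟨⟨?_, ?_, ?_, ?_⟩, ?_, ?_, ?_, ?_⟩, ⟨⟨?_, ?_, ?_, ?_⟩, ?_, ?_, ?_, ?_⟩,
    ⟨⟨?_, ?_, ?_, ?_⟩, ?_, ?_, ?_, ?_⟩, ⟨⟨?_, ?_, ?_, ?_⟩, ?_, ?_, ?_, ?_⟩⟩ <;> nlinarith

theorem cell_odd (hn : 2 ≤ n) {i : ℕ} (hi : i ≤ n + 1) :
    Cell n (2 * i + 1) (lowp n (2 * i + 1)) ∧ Cell n (2 * i + 1) (upp n (2 * i + 1)) ∧
    Cell n (2 * i + 1) (lowp n (2 * i + 1 + 1)) ∧ Cell n (2 * i + 1) (upp n (2 * i + 1 + 1)) := by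
  have hiR : (i : ℝ) ≤ n + 1 := by exact_mod_cast hi
  have hi0 : (0:ℝ) ≤ i := by positivity
  obtain ⟨a1, a2, a3, a4, a5, a6, a7, a8, a9⟩ := b0 hn (x := ((i + 1 : ℕ) : ℝ))
    (by push_cast; linarith) (by push_cast; linarith)
  obtain ⟨c1, c2, c3, c4, c5, c6, c7, c8, c9⟩ :=
    b1 (n := n) (x := ((i + 1 : ℕ) : ℝ)) (by push_cast; linarith) (by push_cast; linarith)
  have d1 : (2 * i + 1) / 2 = i := by omega
  have d2 : (2 * i + 1 + 1) / 2 = i + 1 := by omega
  have cc : ((i + 1 : ℕ) : ℝ) = (i : ℝ) + 1 := by push_cast; rfl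
  have e : 2 * i + 1 + 1 = 2 * (i + 1) := by ring
  rw [lowp_odd, upp_odd, e, lowp_even, upp_even]
  unfold Cell tC
  simp only [Set.mem_ofPred_eq, la_lpt, lb_lpt, d1, d2]
  rw [cc] at a1 a2 a3 a4 a5 a6 a7 a8 a9 c1 c2 c3 c4 c5 c6 c7 c8 c9 ⊢
  refine ⟨⟨⟨?_, ?_, ?_, ?_⟩, ?_, ?_, ?_, ?_⟩, ⟨⟨?_, ?_, ?_, ?_⟩, ?_, ?_, ?_, ?_⟩,
    ⟨⟨?_, ?_, ?_, ?_⟩, ?_, ?_, ?_, ?_⟩, ⟨⟨?_, ?_, ?_, ?_⟩, ?_, ?_, ?_, ?_⟩⟩ <;> nlinarith

theorem cell_pts (hn : 2 ≤ n) {j : ℕ} (hj : j < 2 * n + 4) :
    Cell n j (lowp n j) ∧ Cell n j (upp n j) ∧ Cell n j (lowp n (j + 1)) ∧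
      Cell n j (upp n (j + 1)) := by
  rcases Nat.even_or_odd' j with ⟨i, rfl | rfl⟩
  · exact cell_even hn (by omega)
  · exact cell_odd hn (by omega)

theorem cell_tv (hn : 2 ≤ n) {j : ℕ} (hj : j < 2 * n + 4) (c : Bool) (i : Fin 3) :
    Cell n j (tv n j c i) := by
  obtain ⟨h1, h2, h3, h4⟩ := cell_pts hn hj
  unfold tv
  cases c
  · simp only [Bool.false_eq_true, if_false]
    fin_cases i
    · exact h1
    · exact h3
    · exact h2
  · simp only [if_true]
    fin_cases i
    · exact h3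
    · exact h4
    · exact h2

theorem tv_false (n j : ℕ) : tv n j false = ![lowp n j, lowp n (j + 1), upp n j] := by
  simp [tv]

theorem tv_true (n j : ℕ) : tv n j true = ![lowp n (j + 1), upp n (j + 1), upp n j] := by
  simp [tv]

/-- general cover lemma for a quadrilateral -/
theorem quad {A B B' C p : E2} (h : (0 < dt A B C ∧ 0 ≤ dt p B C) ∨ (0 < dt B B' C ∧ dt p B C ≤ 0))
    (h1 : 0 ≤ dt A p C) (h2 : 0 ≤ dt A B p) (h3 : 0 ≤ dt p B' C) (h4 : 0 ≤ dt B B' p) :
    ∃ c : Bool, AffineIndependent ℝ (if c then ![B, B', C] else ![A, B, C]) ∧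
      p ∈ tri (if c then ![B, B', C] else ![A, B, C]) := by
  rcases h with ⟨ha, hb⟩ | ⟨ha, hb⟩
  · refine ⟨false, ?_, ?_⟩
    · simp only [Bool.false_eq_true, if_false]
      exact affInd ha.ne'
    · simp only [Bool.false_eq_true, if_false]
      exact mem_tri ha hb h1 h2
  · refine ⟨true, ?_, ?_⟩
    · simp only [if_true]
      exact affInd ha.ne'
    · simp only [if_true]
      refine mem_tri ha h3 ?_ h4
      have : dt B p C = -dt p B C := by unfold dt; ring
      rw [this]; linarith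

theorem dt_lpt_AB (a b a' b' : ℝ) (p : E2) : dt (lpt a b) (lpt a' b') p
    = (a' - a) * (lb p - b) - (b' - b) * (la p - a) := by
  unfold dt; rw [la_lpt, lb_lpt, la_lpt, lb_lpt]

theorem dt_lpt_AC (a b a' b' : ℝ) (p : E2) : dt (lpt a b) p (lpt a' b')
    = (la p - a) * (b' - b) - (lb p - b) * (a' - a) := by
  unfold dt; rw [la_lpt, lb_lpt, la_lpt, lb_lpt]

theorem dt_lpt_BC (a b a' b' : ℝ) (p : E2) : dt p (lpt a b) (lpt a' b')
    = (a - la p) * (b' - lb p) - (b - lb p) * (a' - la p) := by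
  unfold dt; rw [la_lpt, lb_lpt, la_lpt, lb_lpt]

theorem cover_even (hn : 2 ≤ n) {i : ℕ} (hi : i ≤ n + 1) {p : E2} (hp : p ∈ tC n)
    (h1 : (i : ℝ) ≤ la p) (h2 : la p + lb p ≤ i + 1) :
    ∃ c : Bool, AffineIndependent ℝ (tv n (2 * i) c) ∧ p ∈ tri (tv n (2 * i) c) := by
  obtain ⟨p1, p2, p3, p4⟩ := hp
  have hn' : (2:ℝ) ≤ n := by exact_mod_cast hn
  have hiR : (i : ℝ) ≤ n + 1 := by exact_mod_cast hi
  have hi0 : (0:ℝ) ≤ i := by positivity
  obtain ⟨a1, a2, a3, a4, a5, a6, a7, a8, a9⟩ := b0 hn (x := (i : ℝ)) hi0 (by linarith)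
  have cc : ((i + 1 : ℕ) : ℝ) = (i : ℝ) + 1 := by push_cast; rfl
  obtain ⟨c1, c2, c3, c4, c5, c6, c7, c8, c9⟩ :=
    b1 (n := n) (x := ((i : ℝ) + 1)) (by linarith) (by linarith)
  have k0 := l0_cases hn (i : ℝ)
  have k1 := l1_cases (n := n) ((i : ℝ) + 1)
  have k2 := u0_cases hn (i : ℝ)
  have k3 := u1_cases (n := n) ((i : ℝ) + 1)
  set l := l0 n (i : ℝ) with hl
  set u := u0 n (i : ℝ) with hu
  set l' := l1 n ((i : ℝ) + 1) with hl'
  set u' := u1 n ((i : ℝ) + 1) with hu'
  have eA : lowp n (2 * i) = lpt i l := lowp_even n i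
  have eC : upp n (2 * i) = lpt i u := upp_even n i
  have eB : lowp n (2 * i + 1) = lpt (((i:ℝ) + 1) - l') l' := by rw [lowp_odd, cc]
  have eB' : upp n (2 * i + 1) = lpt (((i:ℝ) + 1) - u') u' := by rw [upp_odd, cc]
  have hmain := quad (A := lpt i l) (B := lpt (((i:ℝ) + 1) - l') l')
    (B' := lpt (((i:ℝ) + 1) - u') u') (C := lpt i u) (p := p) ?_ ?_ ?_ ?_ ?_
  · obtain ⟨c, hc1, hc2⟩ := hmain
    refine ⟨c, ?_, ?_⟩
    · cases c
      · rw [tv_false, eA, eB, eC]; simpa using hc1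
      · rw [tv_true, eB, eB', eC]; simpa using hc1
    · cases c
      · rw [tv_false, eA, eB, eC]; simpa using hc2
      · rw [tv_true, eB, eB', eC]; simpa using hc2
  · -- the disjunction
    rw [dt_lpt_BC _ _ _ _ p, dt_lpt_AB, dt_lpt_AB, la_lpt, lb_lpt]
    rcases Nat.eq_zero_or_pos i with h0 | hpos
    · right
      have hi00 : (i:ℝ) = 0 := by rw [h0]; simp
      have hl'0 : l' = 0 := by
        rcases k1 with ⟨_, h⟩ | ⟨h, _⟩
        · exact h
        · linarith
      have hu0 : u = 0 := by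
        rcases k2 with ⟨h, _⟩ | ⟨_, h⟩
        · linarith
        · have : (n:ℝ) * u = 0 := by rw [h, hi00]
          rcases mul_eq_zero.mp this with h3 | h3
          · linarith
          · exact h3
      rw [hl'0, hu0, hi00]
      constructor
      · nlinarith
      · nlinarith
    · have hi1 : (1:ℝ) ≤ i := by exact_mod_cast hpos
      have hul : l < u := by
        rcases k0 with ⟨_, h⟩ | ⟨h, h'⟩ <;> rcases k2 with ⟨g, g'⟩ | ⟨g, g'⟩
        · rw [h, g']; norm_num
        · rw [h]; by_contra hc; push Not at hc; nlinarith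
        · rw [g']; by_contra hc; push Not at hc; nlinarith
        · by_contra hc; push Not at hc; nlinarith
      have hD : 0 < (1 - l') * (u - l) := mul_pos (by linarith) (by linarith)
      rcases k2 with ⟨g, g'⟩ | ⟨g, g'⟩
      · left
        constructor
        · nlinarith
        · rw [g']
          have : 0 ≤ (1 - l') * (i + 1 - la p - lb p) := mul_nonneg (by linarith) (by linarith)
          nlinarith
      · have hu1 : u < 1 := by by_contra hc; push Not at hc; nlinarith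
        have hD' : 0 < (u' - l') * (1 - u) := mul_pos (by linarith) (by linarith)
        rcases le_total 0 (((i:ℝ) + 1 - l' - la p) * (u - lb p) - (l' - lb p) * (i - la p)) with h | h
        · left
          exact ⟨by nlinarith, h⟩
        · right
          exact ⟨by nlinarith, h⟩
  · rw [dt_lpt_AC]
    have := mul_nonneg (sub_nonneg.mpr h1) (sub_nonneg.mpr a9)
    linarith
  · -- lower edge
    rw [dt_lpt_AB]
    rcases k1 with ⟨h, h'⟩ | ⟨h, h'⟩
    · have hl0 : l = 0 := by
        rcases k0 with ⟨_, g⟩ | ⟨g, _⟩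
        · exact g
        · linarith
      rw [h', hl0]
      linarith
    · have hnl : (n:ℝ) * l = i - 2 := by
        rcases k0 with ⟨g, g'⟩ | ⟨_, g⟩
        · have hi2 : (2:ℝ) ≤ i := by
            have : 1 < i := by
              by_contra hc
              push Not at hc
              have : (i:ℝ) ≤ 1 := by exact_mod_cast hc
              linarith
            exact_mod_cast this
          have : (i:ℝ) = 2 := le_antisymm g hi2
          rw [g', this]; ring
        · exact g
      have key : (n:ℝ) * ((((i:ℝ) + 1) - l' - i) * (lb p - l) - (l' - l) * (la p - i))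
          = (1 - l') * (n * lb p + 2 - la p) := by
        linear_combination (-(1 - l') + (la p - i)) * hnl - (la p - i) * h'
      have h3 : 0 ≤ (n:ℝ) * ((((i:ℝ) + 1) - l' - i) * (lb p - l) - (l' - l) * (la p - i)) := by
        rw [key]; exact mul_nonneg (by linarith) (by linarith)
      exact nonneg_of_mul_nonneg_right h3 (by linarith)
  · -- upper edge
    rw [dt_lpt_BC]
    rcases k2 with ⟨g, g'⟩ | ⟨g, g'⟩
    · have hu'1 : u' = 1 := by
        rcases k3 with ⟨_, h⟩ | ⟨h, _⟩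
        · exact h
        · linarith
      rw [g', hu'1]
      nlinarith
    · have hnu' : ((n:ℝ) + 1) * u' = i + 1 := by
        rcases k3 with ⟨h, _⟩ | ⟨_, h⟩
        · linarith
        · exact h
      have key : (n:ℝ) * ((((i:ℝ) + 1) - u' - la p) * (u - lb p) - (u' - lb p) * (i - la p))
          = (1 - u') * (la p - n * lb p) := by
        linear_combination (1 - u' + i - la p) * g' - (i - la p) * hnu'
      have h3 : 0 ≤ (n:ℝ) * ((((i:ℝ) + 1) - u' - la p) * (u - lb p) - (u' - lb p) * (i - la p)) := by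
        rw [key]; exact mul_nonneg (by linarith) (by linarith)
      exact nonneg_of_mul_nonneg_right h3 (by linarith)
  · rw [dt_lpt_AB]
    have := mul_nonneg (sub_nonneg.mpr c9.le) (by linarith : 0 ≤ (i:ℝ) + 1 - la p - lb p)
    linarith

theorem cover_odd (hn : 2 ≤ n) {i : ℕ} (hi : i ≤ n + 1) {p : E2} (hp : p ∈ tC n)
    (h1 : (i : ℝ) + 1 ≤ la p + lb p) (h2 : la p ≤ i + 1) :
    ∃ c : Bool, AffineIndependent ℝ (tv n (2 * i + 1) c) ∧ p ∈ tri (tv n (2 * i + 1) c) := by
  obtain ⟨p1, p2, p3, p4⟩ := hp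
  have hn' : (2:ℝ) ≤ n := by exact_mod_cast hn
  have hiR : (i : ℝ) ≤ n + 1 := by exact_mod_cast hi
  have hi0 : (0:ℝ) ≤ i := by positivity
  have cc : ((i + 1 : ℕ) : ℝ) = (i : ℝ) + 1 := by push_cast; rfl
  obtain ⟨a1, a2, a3, a4, a5, a6, a7, a8, a9⟩ := b0 hn (x := ((i : ℝ) + 1)) (by linarith)
    (by linarith)
  obtain ⟨c1, c2, c3, c4, c5, c6, c7, c8, c9⟩ :=
    b1 (n := n) (x := ((i : ℝ) + 1)) (by linarith) (by linarith)
  have k0 := l0_cases hn ((i : ℝ) + 1)
  have k1 := l1_cases (n := n) ((i : ℝ) + 1)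
  have k2 := u0_cases hn ((i : ℝ) + 1)
  have k3 := u1_cases (n := n) ((i : ℝ) + 1)
  set k : ℝ := (i : ℝ) + 1 with hk
  set l := l1 n k with hl
  set u := u1 n k with hu
  set l' := l0 n k with hl'
  set u' := u0 n k with hu'
  have e : 2 * i + 1 + 1 = 2 * (i + 1) := by ring
  have eA : lowp n (2 * i + 1) = lpt (k - l) l := by rw [lowp_odd, cc]
  have eC : upp n (2 * i + 1) = lpt (k - u) u := by rw [upp_odd, cc]
  have eB : lowp n (2 * i + 1 + 1) = lpt k l' := by rw [e, lowp_even, cc]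
  have eB' : upp n (2 * i + 1 + 1) = lpt k u' := by rw [e, upp_even, cc]
  have hmain := quad (A := lpt (k - l) l) (B := lpt k l')
    (B' := lpt k u') (C := lpt (k - u) u) (p := p) ?_ ?_ ?_ ?_ ?_
  · obtain ⟨c, hc1, hc2⟩ := hmain
    refine ⟨c, ?_, ?_⟩
    · cases c
      · rw [tv_false, eA, eB, eC]; simpa using hc1
      · rw [tv_true, eB, eB', eC]; simpa using hc1
    · cases c
      · rw [tv_false, eA, eB, eC]; simpa using hc2
      · rw [tv_true, eB, eB', eC]; simpa using hc2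
  · -- the disjunction
    rw [dt_lpt_BC _ _ _ _ p, dt_lpt_AB, dt_lpt_AB, la_lpt, lb_lpt]
    rcases k0 with ⟨g, g'⟩ | ⟨g, g'⟩
    · right
      have hu'0 : 0 < u' := by
        rcases k2 with ⟨_, h⟩ | ⟨_, h⟩
        · rw [h]; norm_num
        · by_contra hc; push Not at hc; nlinarith
      rw [g']
      constructor
      · have := mul_pos hu'0 c5
        linarith
      · have := mul_nonneg c5.le (by linarith : 0 ≤ la p + lb p - k)
        linarith
    · have hl'0 : 0 < l' := by by_contra hc; push Not at hc; nlinarith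
      have hD : 0 < (u - l) * l' := mul_pos (by linarith) hl'0
      rcases lt_or_ge i (n + 1) with h | h
      · have hi2 : (i:ℝ) + 1 ≤ n + 1 := by exact_mod_cast h
        have hkn : k ≤ n + 1 := hi2
        have hul : l' < u' := by
          rcases k2 with ⟨q, q'⟩ | ⟨q, q'⟩
          · rw [q']; by_contra hc; push Not at hc; nlinarith
          · by_contra hc; push Not at hc; nlinarith
        have hD' : 0 < (u' - l') * u := mul_pos (by linarith) c5
        rcases le_total 0 ((k - la p) * (u - lb p) - (l' - lb p) * (k - u - la p)) with h | h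
        · left
          exact ⟨by linarith, h⟩
        · right
          exact ⟨by linarith, h⟩
      · left
        have hin : i = n + 1 := le_antisymm hi h
        have hkn : k = n + 2 := by
          rw [hk, hin]; push_cast; ring
        have hl'1 : l' = 1 := by
          have : (n:ℝ) * l' = n * 1 := by rw [g', hkn]; ring
          exact mul_left_cancel₀ (by linarith) this
        have hu1 : u = 1 := by
          rcases k3 with ⟨_, h⟩ | ⟨h, _⟩
          · exact h
          · linarith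
        refine ⟨by linarith, ?_⟩
        rw [hl'1, hu1]
        nlinarith
  · rw [dt_lpt_AC]
    have := mul_nonneg (sub_nonneg.mpr c9.le) (by linarith : 0 ≤ la p + lb p - k)
    linarith
  · -- lower edge
    rw [dt_lpt_AB]
    rcases k0 with ⟨g, g'⟩ | ⟨g, g'⟩
    · have hl0 : l = 0 := by
        rcases k1 with ⟨_, h⟩ | ⟨h, _⟩
        · exact h
        · linarith
      rw [g', hl0]
      simp
    · have hnl : ((n:ℝ) + 1) * l = k - 2 := by
        rcases k1 with ⟨h, _⟩ | ⟨_, h⟩
        · linarith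
        · exact h
      have key : (n:ℝ) * ((k - (k - l)) * (lb p - l) - (l' - l) * (la p - (k - l)))
          = l * (n * lb p + 2 - la p) := by
        linear_combination (-(la p - (k - l))) * g' + (la p - (k - l) - l) * hnl
      have h3 : 0 ≤ (n:ℝ) * ((k - (k - l)) * (lb p - l) - (l' - l) * (la p - (k - l))) := by
        rw [key]; exact mul_nonneg c1 (by linarith)
      exact nonneg_of_mul_nonneg_right h3 (by linarith)
  · -- upper edge
    rw [dt_lpt_BC]
    rcases k3 with ⟨g, g'⟩ | ⟨g, g'⟩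
    · have hu'1 : u' = 1 := by
        rcases k2 with ⟨_, h⟩ | ⟨h, _⟩
        · exact h
        · linarith
      rw [g', hu'1]
      nlinarith
    · have hkn : k ≤ n := by
        have h3 : (i:ℝ) < n := by linarith
        have h4 : i < n := by exact_mod_cast h3
        have h5 : ((i + 1 : ℕ) : ℝ) ≤ n := by exact_mod_cast h4
        rw [cc] at h5
        exact h5
      have hnu' : (n:ℝ) * u' = k := by
        rcases k2 with ⟨h, h'⟩ | ⟨_, h⟩
        · rw [h']; linarith
        · exact h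
      have key : (n:ℝ) * ((k - la p) * (u - lb p) - (u' - lb p) * (k - u - la p))
          = u * (la p - n * lb p) := by
        linear_combination (-(k - u - la p)) * hnu' + (k - u - la p + u) * g'
      have h3 : 0 ≤ (n:ℝ) * ((k - la p) * (u - lb p) - (u' - lb p) * (k - u - la p)) := by
        rw [key]; exact mul_nonneg c5.le (by linarith)
      exact nonneg_of_mul_nonneg_right h3 (by linarith)
  · rw [dt_lpt_AB]
    have := mul_nonneg (sub_nonneg.mpr a9) (by linarith : 0 ≤ k - la p)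
    linarith

/-- the two triangles of a cell are separated by the diagonal -/
theorem diag (hn : 2 ≤ n) {j : ℕ} (hj : j < 2 * n + 4) :
    0 ≤ dt (lowp n j) (lowp n (j + 1)) (upp n j) ∧
    0 ≤ dt (lowp n (j + 1)) (upp n (j + 1)) (upp n j) ∧
    (la (lowp n (j + 1)) ≠ la (upp n j)) := by
  have hn' : (2:ℝ) ≤ n := by exact_mod_cast hn
  rcases Nat.even_or_odd' j with ⟨i, rfl | rfl⟩
  · have hi : i ≤ n + 1 := by omega
    have hiR : (i : ℝ) ≤ n + 1 := by exact_mod_cast hi
    have hi0 : (0:ℝ) ≤ i := by positivity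
    obtain ⟨a1, a2, a3, a4, a5, a6, a7, a8, a9⟩ := b0 hn (x := (i : ℝ)) hi0 (by linarith)
    have cc : ((i + 1 : ℕ) : ℝ) = (i : ℝ) + 1 := by push_cast; rfl
    obtain ⟨c1, c2, c3, c4, c5, c6, c7, c8, c9⟩ :=
      b1 (n := n) (x := ((i : ℝ) + 1)) (by linarith) (by linarith)
    rw [lowp_even, upp_even, lowp_odd, upp_odd, cc, dt_lpt_AB, dt_lpt_AB]
    simp only [la_lpt, lb_lpt]
    refine ⟨?_, ?_, ?_⟩
    · have := mul_nonneg (sub_nonneg.mpr c2.le) (sub_nonneg.mpr a9)
      linarith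
    · have := mul_nonneg (sub_nonneg.mpr c9.le) (sub_nonneg.mpr a6)
      linarith
    · intro h; linarith
  · have hi : i ≤ n + 1 := by omega
    have hiR : (i : ℝ) ≤ n + 1 := by exact_mod_cast hi
    have hi0 : (0:ℝ) ≤ i := by positivity
    obtain ⟨a1, a2, a3, a4, a5, a6, a7, a8, a9⟩ := b0 hn (x := ((i : ℝ) + 1)) (by linarith)
      (by linarith)
    have cc : ((i + 1 : ℕ) : ℝ) = (i : ℝ) + 1 := by push_cast; rfl
    obtain ⟨c1, c2, c3, c4, c5, c6, c7, c8, c9⟩ :=
      b1 (n := n) (x := ((i : ℝ) + 1)) (by linarith) (by linarith)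
    have e : 2 * i + 1 + 1 = 2 * (i + 1) := by ring
    rw [e, lowp_even, upp_even, lowp_odd, upp_odd, cc, dt_lpt_AB, dt_lpt_AB]
    simp only [la_lpt, lb_lpt]
    refine ⟨?_, ?_, ?_⟩
    · have := mul_nonneg (sub_nonneg.mpr c9.le) a1
      linarith
    · have := mul_nonneg (sub_nonneg.mpr a9) c5.le
      linarith
    · intro h; linarith

theorem disj_lt (hn : 2 ≤ n) {j k : ℕ} (hj : j < 2 * n + 4) (hk : k < 2 * n + 4) (c d : Bool)
    (h : j < k) : Disjoint (interior (tri (tv n j c))) (interior (tri (tv n k d))) := by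
  have hJ : ∀ p ∈ tri (tv n j c), Cell n j p := fun p hp => cell_hull (cell_tv hn hj c) hp
  have hK : ∀ p ∈ tri (tv n k d), Cell n k p := fun p hp => cell_hull (cell_tv hn hk d) hp
  rcases Nat.even_or_odd' (j + 1) with ⟨i, hi | hi⟩
  · -- line a = i
    refine sep (α := 1) (β := 0) (γ := i) (Or.inl one_ne_zero) (fun p hp => ?_) (fun p hp => ?_)
    · have h1 := (hJ p hp).2.2.1
      have h2 : ((j / 2 : ℕ) : ℝ) + 1 = i := by
        have : j / 2 + 1 = i := by omega
        exact_mod_cast this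
      linarith
    · have h1 := (hK p hp).2.1
      have h2 : (i : ℝ) ≤ ((k / 2 : ℕ) : ℝ) := by
        have : i ≤ k / 2 := by omega
        exact_mod_cast this
      linarith
  · -- line a + b = i + 1
    refine sep (α := 1) (β := 1) (γ := (i : ℝ) + 1) (Or.inl one_ne_zero) (fun p hp => ?_)
      (fun p hp => ?_)
    · have h1 := (hJ p hp).2.2.2.2
      have h2 : (((j + 1) / 2 : ℕ) : ℝ) = i := by
        have : (j + 1) / 2 = i := by omega
        exact_mod_cast this
      linarith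
    · have h1 := (hK p hp).2.2.2.1
      have h2 : (i : ℝ) + 1 ≤ (((k + 1) / 2 : ℕ) : ℝ) := by
        have : i + 1 ≤ (k + 1) / 2 := by omega
        exact_mod_cast this
      linarith

theorem disj_eq (hn : 2 ≤ n) {j : ℕ} (hj : j < 2 * n + 4) :
    Disjoint (interior (tri (tv n j false))) (interior (tri (tv n j true))) := by
  obtain ⟨h1, h2, h3⟩ := diag hn hj
  set A := lowp n j
  set B := lowp n (j + 1)
  set B' := upp n (j + 1)
  set C := upp n j
  -- `dt p B C = -(α la p + β lb p) + γ`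
  have e : ∀ p, dt p B C = -((lb C - lb B) * la p + (la B - la C) * lb p)
      + (la B * lb C - lb B * la C) := by
    intro p; unfold dt; ring
  have eA : dt A B C = dt A B C := rfl
  have zB : dt B B C = 0 := by unfold dt; ring
  have zC : dt C B C = 0 := by unfold dt; ring
  have zB' : dt B' B C = -dt B B' C := by unfold dt; ring
  refine sep (α := lb C - lb B) (β := la B - la C) (γ := la B * lb C - lb B * la C)
    (Or.inr (sub_ne_zero.mpr h3)) (fun p hp => ?_) (fun p hp => ?_)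
  · rw [tv_false] at hp
    refine hull_le (fun i => ?_) hp
    fin_cases i
    · have := e A
      show (lb C - lb B) * la A + (la B - la C) * lb A ≤ _
      linarith
    · have := e B
      show (lb C - lb B) * la B + (la B - la C) * lb B ≤ _
      linarith
    · have := e C
      show (lb C - lb B) * la C + (la B - la C) * lb C ≤ _
      linarith
  · rw [tv_true] at hp
    have := hull_le (α := -(lb C - lb B)) (β := -(la B - la C))
      (γ := -(la B * lb C - lb B * la C)) (fun i => ?_) hp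
    · linarith
    · fin_cases i
      · have := e B
        show -(lb C - lb B) * la B + -(la B - la C) * lb B ≤ _
        linarith
      · have := e B'
        show -(lb C - lb B) * la B' + -(la B - la C) * lb B' ≤ _
        linarith
      · have := e C
        show -(lb C - lb B) * la C + -(la B - la C) * lb C ≤ _
        linarith

end TTaAux

open TTaAux

/-- a triangle of the cell `j` lies between consecutive slanted lines -/
theorem tT_cell {n : ℕ} (hn : 2 ≤ n) {j : ℕ} (hj : j < 2 * n + 4) (c : Bool) {p : E2}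
    (hp : p ∈ tri (tv n j c)) : p ∈ tC n ∧ ((j / 2 : ℕ) : ℝ) ≤ la p ∧ la p ≤ (j / 2 : ℕ) + 1 ∧
      (((j + 1) / 2 : ℕ) : ℝ) ≤ la p + lb p ∧ la p + lb p ≤ ((j + 1) / 2 : ℕ) + 1 :=
  cell_hull (cell_tv hn hj c) hp

theorem tT_cover {n : ℕ} (hn : 2 ≤ n) {p : E2} (hp : p ∈ tC n) :
    ∃ j < 2 * n + 4, ∃ c : Bool, AffineIndependent ℝ (tv n j c) ∧ p ∈ tri (tv n j c) := by
  obtain ⟨p1, p2, p3, p4⟩ := hp
  have hn' : (2:ℝ) ≤ n := by exact_mod_cast hn
  have ha0 : 0 ≤ la p := le_trans (by positivity) p3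
  have ha2 : la p ≤ n + 2 := by nlinarith
  obtain ⟨i, hi, h1, h2⟩ : ∃ i : ℕ, i ≤ n + 1 ∧ (i : ℝ) ≤ la p ∧ la p ≤ i + 1 := by
    rcases le_or_gt (Nat.floor (la p)) (n + 1) with h | h
    · exact ⟨Nat.floor (la p), h, Nat.floor_le ha0, (Nat.lt_floor_add_one _).le⟩
    · refine ⟨n + 1, le_refl _, ?_, by push_cast; linarith⟩
      have h3 : ((n + 1 : ℕ) : ℝ) ≤ (Nat.floor (la p) : ℝ) := by exact_mod_cast h.le
      exact h3.trans (Nat.floor_le ha0)
  rcases le_total (la p + lb p) (i + 1) with h | h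
  · obtain ⟨c, hc⟩ := cover_even hn hi ⟨p1, p2, p3, p4⟩ h1 h
    exact ⟨2 * i, by omega, c, hc⟩
  · obtain ⟨c, hc⟩ := cover_odd hn hi ⟨p1, p2, p3, p4⟩ h h2
    exact ⟨2 * i + 1, by omega, c, hc⟩

theorem tT_disj {n : ℕ} (hn : 2 ≤ n) {j k : ℕ} (hj : j < 2 * n + 4) (hk : k < 2 * n + 4) (c d : Bool)
    (h : (j, c) ≠ (k, d)) : Disjoint (interior (tri (tv n j c))) (interior (tri (tv n k d))) := by
  rcases lt_trichotomy j k with h1 | h1 | h1
  · exact disj_lt hn hj hk c d h1
  · subst h1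
    have hcd : c ≠ d := fun h2 => h (by rw [h2])
    cases c <;> cases d
    · exact absurd rfl hcd
    · exact disj_eq hn hj
    · exact (disj_eq hn hj).symm
    · exact absurd rfl hcd
  · exact (disj_lt hn hk hj d c h1).symm

end Pool.Agent.Lib.FOLD
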