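import Pool.Agent.Lib.FOLD.TTa

/-!
# FOLD.TTb: the triangulation of the parallelogram, vertices (1.3 h)
PROOF. Lattice coordinates. The lower boundary of `tC n` is `b = lo a = max 0 ((a-2)/n)`, the upper one `b = up a = min 1 (a/n)`, `0 ≤ a ≤ n+2`. The cell `j` is the part of `tC n` between the slanted lines `j` and `j+1`: for `j = 2i`: `i ≤ a`, `a + b ≤ i+1`; for `j = 2i+1`: `i + 1 ≤ a + b`, `a ≤ i+1`. `lo` and `up` are affine on it
(their kinks `a = 2` and `a = n` are at the lattice points `(2,0)` and `(n,1)`, which lie on slanted lines), so the cell is the convex hull of `lowp n j`, `lowp n (j+1)`, `upp n j`, `upp n (j+1)` (some may coincide), the union of the two triangles `tv n j false`, `tv n j true`, which are separated by the line through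
`lowp n (j+1)` and `upp n j`. `tT_cell`. `tT_cover`: every point of `tC n` is in a cell, hence in one of the two triangles; if that triangle is degenerate use density: the union of the nondegenerate ones is closed, and the degenerate ones have empty interior, so the union of the nondegenerate ones contains `interior (tC n)`
up to a set with empty interior, hence everything (`tC n = closure (interior (tC n))`). `tT_disj`: different cells are separated by a slanted line, the two triangles of a cell by the diagonal. `tT_vertex`: a point `lowp n i` or `upp n i` of the slanted line `i` that lies in the cell `j` is one of the four end points of the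
cell, and a point of the four that lies in a nondegenerate triangle of the cell is a vertex of it.
-/

set_option autoImplicit false

open MeasureTheory Set Filter Topology Metric
open scoped MeasureTheory ENNReal

namespace Pool.Agent.Lib.FOLD

namespace TTbAux

theorem ext_lab {p q : E2} (h1 : la p = la q) (h2 : lb p = lb q) : p = q := by
  rw [← lpt_la_lb p, ← lpt_la_lb q, h1, h2]

theorem la_slp_even (l : ℕ) (b : ℝ) : la (slp (2 * l) b) = l := by
  unfold slp
  rw [if_pos (by omega), la_lpt]
  congr 1
  omega

theorem lb_slp (j : ℕ) (b : ℝ) : lb (slp j b) = b := by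
  unfold slp
  split_ifs
  · rw [lb_lpt]
  · rw [lb_lpt]

theorem la_slp_odd (l : ℕ) (b : ℝ) : la (slp (2 * l + 1) b) = (l + 1) - b := by
  unfold slp
  rw [if_neg (by omega), la_lpt]
  have h : (2 * l + 1 + 1) / 2 = l + 1 := by omega
  rw [h]
  push_cast
  ring

theorem blo_even (n l : ℕ) : blo n (2 * l) = max 0 (((l : ℝ) - 2) / n) := by
  unfold blo
  rw [if_pos (by omega)]
  have h : (2 * l) / 2 = l := by omega
  rw [h]

theorem blo_odd (n l : ℕ) : blo n (2 * l + 1) = max 0 (((l : ℝ) - 1) / (n + 1)) := by
  unfold blo
  rw [if_neg (by omega)]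
  have h : (2 * l + 1 + 1) / 2 = l + 1 := by omega
  rw [h]
  push_cast
  congr 2
  ring

theorem bup_even (n l : ℕ) : bup n (2 * l) = min 1 ((l : ℝ) / n) := by
  unfold bup
  rw [if_pos (by omega)]
  have h : (2 * l) / 2 = l := by omega
  rw [h]

theorem bup_odd (n l : ℕ) : bup n (2 * l + 1) = min 1 (((l : ℝ) + 1) / (n + 1)) := by
  unfold bup
  rw [if_neg (by omega)]
  have h : (2 * l + 1 + 1) / 2 = l + 1 := by omega
  rw [h]
  push_cast
  rfl

/-- barycentric coordinates -/
theorem tri_mem {V : Fin 3 → E2} {p : E2} (hp : p ∈ tri V) : ∃ α β γ : ℝ, 0 ≤ α ∧ 0 ≤ β ∧ 0 ≤ γ ∧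
    α + β + γ = 1 ∧ la p = α * la (V 0) + β * la (V 1) + γ * la (V 2) ∧
    lb p = α * lb (V 0) + β * lb (V 1) + γ * lb (V 2) := by
  let S : Set E2 := {p | ∃ α β γ : ℝ, 0 ≤ α ∧ 0 ≤ β ∧ 0 ≤ γ ∧
    α + β + γ = 1 ∧ la p = α * la (V 0) + β * la (V 1) + γ * la (V 2) ∧
    lb p = α * lb (V 0) + β * lb (V 1) + γ * lb (V 2)}
  have hS : Convex ℝ S := by
    rintro x ⟨α, β, γ, h1, h2, h3, h4, h5, h6⟩ y ⟨α', β', γ', k1, k2, k3, k4, k5, k6⟩ s t hs ht hst
    refine ⟨s * α + t * α', s * β + t * β', s * γ + t * γ', by positivity, by positivity,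
      by positivity, ?_, ?_, ?_⟩
    · calc s * α + t * α' + (s * β + t * β') + (s * γ + t * γ')
          = s * (α + β + γ) + t * (α' + β' + γ') := by ring
        _ = 1 := by rw [h4, k4, mul_one, mul_one, hst]
    · have : la (s • x + t • y) = s * la x + t * la y := by
        unfold la
        simp only [PiLp.add_apply, PiLp.smul_apply, smul_eq_mul]
        ring
      rw [this, h5, k5]
      ring
    · have : lb (s • x + t • y) = s * lb x + t * lb y := by
        unfold lb
        simp only [PiLp.add_apply, PiLp.smul_apply, smul_eq_mul]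
        ring
      rw [this, h6, k6]
      ring
  have hV : range V ⊆ S := by
    rintro _ ⟨k, rfl⟩
    fin_cases k
    · exact ⟨1, 0, 0, by norm_num, le_refl _, le_refl _, by norm_num, by simp, by simp⟩
    · exact ⟨0, 1, 0, le_refl _, by norm_num, le_refl _, by norm_num, by simp, by simp⟩
    · exact ⟨0, 0, 1, le_refl _, le_refl _, by norm_num, by norm_num, by simp, by simp⟩
  exact convexHull_min hV hS hp

theorem lowp_even {n l : ℕ} {w : E2} (h1 : la w = l) (h2 : lb w = max 0 (((l : ℝ) - 2) / n)) :
    w = lowp n (2 * l) := by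
  apply ext_lab
  · rw [h1, lowp, la_slp_even]
  · rw [h2, lowp, lb_slp, blo_even]

theorem lowp_odd {n l : ℕ} {w : E2} (h1 : la w + lb w = l + 1)
    (h2 : lb w = max 0 (((l : ℝ) - 1) / (n + 1))) : w = lowp n (2 * l + 1) := by
  apply ext_lab
  · rw [lowp, la_slp_odd, blo_odd, ← h2]
    linarith
  · rw [h2, lowp, lb_slp, blo_odd]

theorem upp_even {n l : ℕ} {w : E2} (h1 : la w = l) (h2 : lb w = min 1 ((l : ℝ) / n)) :
    w = upp n (2 * l) := by
  apply ext_lab
  · rw [h1, upp, la_slp_even]
  · rw [h2, upp, lb_slp, bup_even]

theorem upp_odd {n l : ℕ} {w : E2} (h1 : la w + lb w = l + 1)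
    (h2 : lb w = min 1 (((l : ℝ) + 1) / (n + 1))) : w = upp n (2 * l + 1) := by
  apply ext_lab
  · rw [upp, la_slp_odd, bup_odd, ← h2]
    linarith
  · rw [h2, upp, lb_slp, bup_odd]

/-- coordinates of the end points of a slanted line -/
theorem line_even {n l : ℕ} {w : E2} (hw : w = lowp n (2 * l) ∨ w = upp n (2 * l)) :
    la w = l ∧ (lb w = max 0 (((l : ℝ) - 2) / n) ∨ lb w = min 1 ((l : ℝ) / n)) := by
  rcases hw with rfl | rfl
  · refine ⟨by rw [lowp, la_slp_even], Or.inl (by rw [lowp, lb_slp, blo_even])⟩
  · refine ⟨by rw [upp, la_slp_even], Or.inr (by rw [upp, lb_slp, bup_even])⟩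

theorem line_odd {n l : ℕ} {w : E2} (hw : w = lowp n (2 * l + 1) ∨ w = upp n (2 * l + 1)) :
    la w + lb w = l + 1 ∧ (lb w = max 0 (((l : ℝ) - 1) / (n + 1)) ∨
      lb w = min 1 (((l : ℝ) + 1) / (n + 1))) := by
  rcases hw with rfl | rfl
  · refine ⟨?_, Or.inl (by rw [lowp, lb_slp, blo_odd])⟩
    rw [lowp, la_slp_odd, lb_slp]
    ring
  · refine ⟨?_, Or.inr (by rw [upp, lb_slp, bup_odd])⟩
    rw [upp, la_slp_odd, lb_slp]
    ring

/-- an end point of the slanted line `i` in the cell `j` is one of the four end points -/
theorem four {n : ℕ} (hn : 2 ≤ n) {i j : ℕ} (hj : j < 2 * n + 4) {w : E2}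
    (hw : w = lowp n i ∨ w = upp n i) (hC : w ∈ tC n)
    (h1 : ((j / 2 : ℕ) : ℝ) ≤ la w) (h2 : la w ≤ (j / 2 : ℕ) + 1)
    (h3 : (((j + 1) / 2 : ℕ) : ℝ) ≤ la w + lb w) (h4 : la w + lb w ≤ ((j + 1) / 2 : ℕ) + 1) :
    w = lowp n j ∨ w = upp n j ∨ w = lowp n (j + 1) ∨ w = upp n (j + 1) := by
  obtain ⟨c1, c2, c3, c4⟩ := hC
  have hn0 : (0 : ℝ) < n := by
    have : 0 < n := by omega
    exact_mod_cast this
  obtain ⟨l, rfl | rfl⟩ := Nat.even_or_odd' j
  · -- `j = 2 l`
    have e1 : (2 * l) / 2 = l := by omega
    have e2 : (2 * l + 1) / 2 = l := by omega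
    rw [e1] at h1 h2
    rw [e2] at h3 h4
    obtain ⟨m, rfl | rfl⟩ := Nat.even_or_odd' i
    · obtain ⟨a1, _⟩ := line_even hw
      rw [a1] at h1 h2
      have b1 : l ≤ m := by exact_mod_cast h1
      have b2 : m ≤ l + 1 := by exact_mod_cast h2
      rcases Nat.lt_or_ge l m with h | h
      · have hm : m = l + 1 := by omega
        subst hm
        have hb : lb w = 0 := by
          rw [a1] at h4
          push_cast at h4
          linarith
        right; right; left
        apply lowp_odd
        · rw [a1, hb]
          push_cast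
          ring
        · rw [hb]
          rw [hb, mul_zero, a1] at c4
          push_cast at c4
          symm
          apply max_eq_left
          apply div_nonpos_of_nonpos_of_nonneg
          · linarith
          · linarith
      · have hm : m = l := by omega
        subst hm
        rcases hw with h | h
        · exact Or.inl h
        · exact Or.inr (Or.inl h)
    · obtain ⟨a1, _⟩ := line_odd hw
      rw [a1] at h3 h4
      have b1 : l ≤ m + 1 := by exact_mod_cast h3
      have b2 : m + 1 ≤ l + 1 := by exact_mod_cast h4
      rcases Nat.lt_or_ge m l with h | h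
      · have hm : l = m + 1 := by omega
        subst hm
        have hb : lb w = 0 := by
          push_cast at h1
          linarith
        have ha : la w = (m + 1 : ℕ) := by
          push_cast
          linarith
        left
        apply lowp_even ha
        rw [hb]
        rw [hb, mul_zero, ha] at c4
        symm
        apply max_eq_left
        apply div_nonpos_of_nonpos_of_nonneg
        · linarith
        · linarith
      · have hm : m = l := by omega
        subst hm
        rcases hw with h | h
        · exact Or.inr (Or.inr (Or.inl h))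
        · exact Or.inr (Or.inr (Or.inr h))
  · -- `j = 2 l + 1`
    have e1 : (2 * l + 1) / 2 = l := by omega
    have e2 : (2 * l + 1 + 1) / 2 = l + 1 := by omega
    rw [e1] at h1 h2
    rw [e2] at h3 h4
    push_cast at h3 h4
    obtain ⟨m, rfl | rfl⟩ := Nat.even_or_odd' i
    · obtain ⟨a1, _⟩ := line_even hw
      rw [a1] at h1 h2
      have b1 : l ≤ m := by exact_mod_cast h1
      have b2 : m ≤ l + 1 := by exact_mod_cast h2
      rcases Nat.lt_or_ge l m with h | h
      · have hm : m = l + 1 := by omega
        subst hm
        have e3 : 2 * l + 1 + 1 = 2 * (l + 1) := by ring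
        rw [e3]
        rcases hw with h | h
        · exact Or.inr (Or.inr (Or.inl h))
        · exact Or.inr (Or.inr (Or.inr h))
      · have hm : m = l := by omega
        subst hm
        have hb : lb w = 1 := by
          rw [a1] at h3
          linarith
        right; left
        apply upp_odd
        · rw [a1, hb]
        · rw [hb]
          rw [hb, mul_one, a1] at c3
          symm
          apply min_eq_left
          rw [le_div_iff₀ (by linarith)]
          linarith
    · obtain ⟨a1, _⟩ := line_odd hw
      rw [a1] at h3 h4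
      have b1 : l + 1 ≤ m + 1 := by exact_mod_cast h3
      have b2 : m + 1 ≤ l + 1 + 1 := by exact_mod_cast h4
      rcases Nat.lt_or_ge l m with h | h
      · have hm : m = l + 1 := by omega
        subst hm
        push_cast at a1
        have hb : lb w = 1 := by
          linarith
        have ha : la w = (l + 1 : ℕ) := by
          push_cast
          linarith
        have e3 : 2 * l + 1 + 1 = 2 * (l + 1) := by ring
        rw [e3]
        right; right; right
        apply upp_even ha
        rw [hb]
        rw [hb, mul_one, ha] at c3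
        symm
        apply min_eq_left
        rw [le_div_iff₀ hn0]
        linarith
      · have hm : m = l := by omega
        subst hm
        rcases hw with h | h
        · exact Or.inl h
        · exact Or.inr (Or.inl h)

theorem lowp_le (n l : ℕ) (hn : 2 ≤ n) (hl : l ≤ n + 1) : max 0 (((l : ℝ) - 2) / n) < 1 := by
  have hn0 : (0 : ℝ) < n := by
    have : 0 < n := by omega
    exact_mod_cast this
  have hl' : (l : ℝ) ≤ n + 1 := by exact_mod_cast hl
  apply max_lt one_pos
  rw [div_lt_one hn0]
  linarith

theorem lowp_le' (n l : ℕ) (hn : 2 ≤ n) (hl : l ≤ n + 1) : max 0 (((l : ℝ) - 1) / (n + 1)) < 1 := by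
  have hn0 : (0 : ℝ) < n := by
    have : 0 < n := by omega
    exact_mod_cast this
  have hl' : (l : ℝ) ≤ n + 1 := by exact_mod_cast hl
  apply max_lt one_pos
  rw [div_lt_one (by linarith)]
  linarith

/-- the first missing vertex -/
theorem miss_low {n : ℕ} (hn : 2 ≤ n) {j : ℕ} (hj : j < 2 * n + 4)
    (hp : lowp n j ∈ tri (tv n j true)) : ∃ k, tv n j true k = lowp n j := by
  have hn0 : (0 : ℝ) < n := by
    have : 0 < n := by omega
    exact_mod_cast this
  obtain ⟨α, β, γ, hα, hβ, hγ, hs, ea, eb⟩ := tri_mem hp
  have v0 : tv n j true 0 = lowp n (j + 1) := by simp [tv]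
  have v1 : tv n j true 1 = upp n (j + 1) := by simp [tv]
  have v2 : tv n j true 2 = upp n j := by simp [tv]
  rw [v0, v1, v2] at ea eb
  obtain ⟨l, rfl | rfl⟩ := Nat.even_or_odd' j
  · simp only [lowp, upp, lb_slp, la_slp_even, la_slp_odd, blo_even, blo_odd, bup_even,
      bup_odd] at ea eb
    have hl : l ≤ n + 1 := by omega
    have hlt := lowp_le' n l hn hl
    have hle : min 1 (((l : ℝ) + 1) / (n + 1)) ≤ 1 := min_le_left _ _
    have k1 : α * (1 - max 0 (((l : ℝ) - 1) / (n + 1))) +
        β * (1 - min 1 (((l : ℝ) + 1) / (n + 1))) = 0 := by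
      have : γ = 1 - α - β := by linarith
      subst this
      linarith
    have k2 : 0 ≤ β * (1 - min 1 (((l : ℝ) + 1) / (n + 1))) :=
      mul_nonneg hβ (by linarith)
    have k3 : α * (1 - max 0 (((l : ℝ) - 1) / (n + 1))) ≤ 0 := by linarith
    have hα0 : α = 0 := by
      by_contra hne
      have : 0 < α := lt_of_le_of_ne hα (Ne.symm hne)
      have := mul_pos this (sub_pos.2 hlt)
      linarith
    subst hα0
    have k4 : β * (1 - min 1 (((l : ℝ) + 1) / (n + 1))) = 0 := by linarith
    rcases mul_eq_zero.1 k4 with hb0 | hb1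
    · subst hb0
      have hγ1 : γ = 1 := by linarith
      subst hγ1
      refine ⟨2, ?_⟩
      rw [v2]
      symm
      apply ext_lab
      · rw [lowp, upp, la_slp_even, la_slp_even]
      · rw [lowp, upp, lb_slp, lb_slp, blo_even, bup_even]
        linarith
    · have hm : min 1 (((l : ℝ) + 1) / (n + 1)) = 1 := by linarith
      have hm' := min_le_right (1 : ℝ) (((l : ℝ) + 1) / (n + 1))
      rw [hm] at hm'
      rw [le_div_iff₀ (by linarith)] at hm'
      have hm2 : min 1 ((l : ℝ) / n) = 1 := by
        apply min_eq_left
        rw [le_div_iff₀ hn0]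
        linarith
      refine ⟨2, ?_⟩
      rw [v2]
      symm
      apply ext_lab
      · rw [lowp, upp, la_slp_even, la_slp_even]
      · rw [lowp, upp, lb_slp, lb_slp, blo_even, bup_even, hm2]
        rw [hm, hm2] at eb
        linarith
  · have e3 : 2 * l + 1 + 1 = 2 * (l + 1) := by ring
    rw [e3] at ea eb v0 v1
    simp only [lowp, upp, lb_slp, la_slp_even, la_slp_odd, blo_even, blo_odd, bup_even,
      bup_odd] at ea eb
    push_cast at ea eb
    have k1 : α * max 0 (((l : ℝ) + 1 - 2) / n) + β * min 1 (((l : ℝ) + 1) / n) = 0 := by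
      have : γ = 1 - α - β := by linarith
      subst this
      linarith
    have k0 : 0 ≤ α * max 0 (((l : ℝ) + 1 - 2) / n) := mul_nonneg hα (le_max_left _ _)
    have kpos : 0 < min 1 (((l : ℝ) + 1) / n) := lt_min one_pos (by positivity)
    have hβ0 : β = 0 := by
      by_contra hne
      have : 0 < β := lt_of_le_of_ne hβ (Ne.symm hne)
      have := mul_pos this kpos
      linarith
    subst hβ0
    have k4 : α * max 0 (((l : ℝ) + 1 - 2) / n) = 0 := by linarith
    rcases mul_eq_zero.1 k4 with hb0 | hb1
    · subst hb0
      have hγ1 : γ = 1 := by linarith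
      subst hγ1
      refine ⟨2, ?_⟩
      rw [v2]
      symm
      apply ext_lab
      · rw [lowp, upp, la_slp_odd, la_slp_odd, blo_odd, bup_odd]
        linarith
      · rw [lowp, upp, lb_slp, lb_slp, blo_odd, bup_odd]
        linarith
    · have hm' : ((l : ℝ) + 1 - 2) / n ≤ 0 := by
        rw [← hb1]
        exact le_max_right _ _
      have hm2 : (l : ℝ) + 1 - 2 ≤ 0 := by
        by_contra hh
        push Not at hh
        have := div_pos hh hn0
        linarith
      have hm3 : max 0 (((l : ℝ) - 1) / (n + 1)) = 0 := by
        apply max_eq_left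
        apply div_nonpos_of_nonpos_of_nonneg
        · linarith
        · linarith
      refine ⟨0, ?_⟩
      rw [v0]
      symm
      apply ext_lab
      · rw [lowp, lowp, la_slp_odd, la_slp_even, blo_odd, hm3]
        push_cast
        ring
      · rw [lowp, lowp, lb_slp, lb_slp, blo_odd, blo_even, hm3]
        push_cast
        rw [hb1]

/-- the second missing vertex -/
theorem miss_up {n : ℕ} (hn : 2 ≤ n) {j : ℕ} (hj : j < 2 * n + 4)
    (hp : upp n (j + 1) ∈ tri (tv n j false)) : ∃ k, tv n j false k = upp n (j + 1) := by
  have hn0 : (0 : ℝ) < n := by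
    have : 0 < n := by omega
    exact_mod_cast this
  obtain ⟨α, β, γ, hα, hβ, hγ, hs, ea, eb⟩ := tri_mem hp
  have v0 : tv n j false 0 = lowp n j := by simp [tv]
  have v1 : tv n j false 1 = lowp n (j + 1) := by simp [tv]
  have v2 : tv n j false 2 = upp n j := by simp [tv]
  rw [v0, v1, v2] at ea eb
  obtain ⟨l, rfl | rfl⟩ := Nat.even_or_odd' j
  · simp only [lowp, upp, lb_slp, la_slp_even, la_slp_odd, blo_even, blo_odd, bup_even,
      bup_odd] at ea eb
    have hl : l ≤ n + 1 := by omega
    have hlt := lowp_le n l hn hl
    have hle : min 1 ((l : ℝ) / n) ≤ 1 := min_le_left _ _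
    have k1 : α * (1 - max 0 (((l : ℝ) - 2) / n)) + γ * (1 - min 1 ((l : ℝ) / n)) = 0 := by
      have : β = 1 - α - γ := by linarith
      subst this
      linarith
    have k2 : 0 ≤ γ * (1 - min 1 ((l : ℝ) / n)) := mul_nonneg hγ (by linarith)
    have hα0 : α = 0 := by
      by_contra hne
      have : 0 < α := lt_of_le_of_ne hα (Ne.symm hne)
      have := mul_pos this (sub_pos.2 hlt)
      linarith
    subst hα0
    have k4 : γ * (1 - min 1 ((l : ℝ) / n)) = 0 := by linarith
    rcases mul_eq_zero.1 k4 with hb0 | hb1
    · subst hb0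
      have hβ1 : β = 1 := by linarith
      subst hβ1
      refine ⟨1, ?_⟩
      rw [v1]
      symm
      apply ext_lab
      · rw [lowp, upp, la_slp_odd, la_slp_odd, blo_odd, bup_odd]
        linarith
      · rw [lowp, upp, lb_slp, lb_slp, blo_odd, bup_odd]
        linarith
    · have hm : min 1 ((l : ℝ) / n) = 1 := by linarith
      have hm' : (1 : ℝ) ≤ (l : ℝ) / n := by
        rw [← hm]
        exact min_le_right _ _
      rw [le_div_iff₀ hn0] at hm'
      have hm2 : min 1 (((l : ℝ) + 1) / (n + 1)) = 1 := by
        apply min_eq_left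
        rw [le_div_iff₀ (by linarith)]
        linarith
      refine ⟨2, ?_⟩
      rw [v2]
      symm
      apply ext_lab
      · rw [upp, upp, la_slp_odd, la_slp_even, bup_odd, hm2]
        ring
      · rw [upp, upp, lb_slp, lb_slp, bup_odd, bup_even, hm, hm2]
  · have e3 : 2 * l + 1 + 1 = 2 * (l + 1) := by ring
    rw [e3] at ea eb v1
    simp only [lowp, upp, lb_slp, la_slp_even, la_slp_odd, blo_even, blo_odd, bup_even,
      bup_odd] at ea eb
    push_cast at ea eb
    have k1 : α * max 0 (((l : ℝ) - 1) / (n + 1)) + γ * min 1 (((l : ℝ) + 1) / (n + 1)) = 0 := by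
      have : β = 1 - α - γ := by linarith
      subst this
      linarith
    have k0 : 0 ≤ α * max 0 (((l : ℝ) - 1) / (n + 1)) := mul_nonneg hα (le_max_left _ _)
    have kpos : 0 < min 1 (((l : ℝ) + 1) / (n + 1)) := lt_min one_pos (by positivity)
    have hγ0 : γ = 0 := by
      by_contra hne
      have : 0 < γ := lt_of_le_of_ne hγ (Ne.symm hne)
      have := mul_pos this kpos
      linarith
    subst hγ0
    have k4 : α * max 0 (((l : ℝ) - 1) / (n + 1)) = 0 := by linarith
    rcases mul_eq_zero.1 k4 with hb0 | hb1
    · subst hb0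
      have hβ1 : β = 1 := by linarith
      subst hβ1
      refine ⟨1, ?_⟩
      rw [v1, e3]
      symm
      apply ext_lab
      · rw [lowp, upp, la_slp_even, la_slp_even]
      · rw [lowp, upp, lb_slp, lb_slp, blo_even, bup_even]
        push_cast
        linarith
    · have hm' : ((l : ℝ) - 1) / (n + 1) ≤ 0 := by
        rw [← hb1]
        exact le_max_right _ _
      have hm2 : (l : ℝ) - 1 ≤ 0 := by
        by_contra hh
        push Not at hh
        have := div_pos hh (by linarith : (0 : ℝ) < n + 1)
        linarith
      have hm3 : max 0 (((l : ℝ) + 1 - 2) / n) = 0 := by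
        apply max_eq_left
        apply div_nonpos_of_nonpos_of_nonneg
        · linarith
        · linarith
      refine ⟨1, ?_⟩
      rw [v1, e3]
      symm
      apply ext_lab
      · rw [lowp, upp, la_slp_even, la_slp_even]
      · rw [lowp, upp, lb_slp, lb_slp, blo_even, bup_even]
        push_cast
        rw [hm3]
        rw [hb1, hm3] at eb
        linarith

end TTbAux

open TTbAux in
theorem tT_vertex {n : ℕ} (hn : 2 ≤ n) {i j : ℕ} (hi : i ≤ 2 * n + 4) (hj : j < 2 * n + 4) (c : Bool)
    (hA : AffineIndependent ℝ (tv n j c)) {w : E2} (hw : w = lowp n i ∨ w = upp n i)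
    (hp : w ∈ tri (tv n j c)) : ∃ k, tv n j c k = w := by
  obtain ⟨hC, h1, h2, h3, h4⟩ := tT_cell hn hj c hp
  rcases four hn hj hw hC h1 h2 h3 h4 with h | h | h | h
  · cases c with
    | false => exact ⟨0, by rw [h]; simp [tv]⟩
    | true =>
      subst h
      exact miss_low hn hj hp
  · cases c with
    | false => exact ⟨2, by rw [h]; simp [tv]⟩
    | true => exact ⟨2, by rw [h]; simp [tv]⟩
  · cases c with
    | false => exact ⟨1, by rw [h]; simp [tv]⟩
    | true => exact ⟨0, by rw [h]; simp [tv]⟩
  · cases c with
    | false =>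
      subst h
      exact miss_up hn hj hp
    | true => exact ⟨1, by rw [h]; simp [tv]⟩

open TTbAux in
/-- the vertices are closed under the gluing -/
theorem tT_glue {n : ℕ} (hn : 2 ≤ n) {i : ℕ} (hi : i ≤ 2 * n + 4) {w q : E2}
    (hw : w = lowp n i ∨ w = upp n i) (hq : q ∈ tC n) (h : tG n w q) :
    ∃ k ≤ 2 * n + 4, q = lowp n k ∨ q = upp n k := by
  have hn0 : (0 : ℝ) < n := by
    have : 0 < n := by omega
    exact_mod_cast this
  obtain ⟨c1, c2, c3, c4⟩ := hq
  rcases h with ⟨hb, ha⟩ | ⟨hb, hb', ha⟩ | ⟨hb, hb', ha⟩
  · obtain ⟨m, rfl | rfl⟩ := Nat.even_or_odd' i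
    · obtain ⟨a1, a2⟩ := line_even hw
      have hm : m ≤ n + 2 := by omega
      have hm' : (m : ℝ) ≤ n + 2 := by exact_mod_cast hm
      have hm0 : (0 : ℝ) ≤ m := Nat.cast_nonneg m
      -- `w` is in the parallelogram
      have d1 : n * lb w ≤ la w := by
        rw [a1]
        rcases a2 with a2 | a2
        · rw [a2, mul_max_of_nonneg _ _ hn0.le, mul_zero, mul_div_cancel₀ _ hn0.ne']
          exact max_le hm0 (by linarith)
        · rw [a2]
          calc (n : ℝ) * min 1 ((m : ℝ) / n) ≤ n * ((m : ℝ) / n) :=
                mul_le_mul_of_nonneg_left (min_le_right _ _) hn0.le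
            _ = m := mul_div_cancel₀ _ hn0.ne'
      have d2 : la w ≤ n * lb w + 2 := by
        rw [a1]
        rcases a2 with a2 | a2
        · rw [a2, mul_max_of_nonneg _ _ hn0.le, mul_zero, mul_div_cancel₀ _ hn0.ne']
          have := le_max_right (0 : ℝ) ((m : ℝ) - 2)
          linarith
        · rw [a2, mul_min_of_nonneg _ _ hn0.le, mul_one, mul_div_cancel₀ _ hn0.ne']
          have : (m : ℝ) - 2 ≤ min (n : ℝ) m := le_min (by linarith) (by linarith)
          linarith
      rcases ha with ha | ha
      · have f1 : la w = n * lb w := by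
          rw [← hb] at c4
          linarith
        have f2 : (m : ℝ) ≤ n := by
          rw [← a1, f1, hb]
          nlinarith
        have f3 : m ≤ n := by exact_mod_cast f2
        refine ⟨2 * (m + 2), by omega, Or.inl (lowp_even ?_ ?_)⟩
        · rw [ha, a1]
          push_cast
          ring
        · rw [← hb]
          push_cast
          have : (m : ℝ) + 2 - 2 = m := by ring
          rw [this, max_eq_right (by positivity), ← a1, f1, mul_div_cancel_left₀ _ hn0.ne']
      · have f1 : la w = n * lb w + 2 := by
          rw [← hb] at c3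
          linarith
        have f2 : (2 : ℝ) ≤ m := by
          rw [← a1, f1, hb]
          nlinarith
        have f3 : 2 ≤ m := by exact_mod_cast f2
        obtain ⟨m', rfl⟩ := Nat.exists_eq_add_of_le f3
        refine ⟨2 * m', by omega, Or.inr (upp_even ?_ ?_)⟩
        · rw [a1] at ha
          push_cast at ha
          linarith
        · rw [a1] at f1
          push_cast at f1
          have f4 : (m' : ℝ) = n * lb w := by linarith
          rw [f4, mul_div_cancel_left₀ _ hn0.ne', min_eq_right]
          · exact hb.symm
          · rw [hb]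
            exact c2
    · obtain ⟨a1, a2⟩ := line_odd hw
      have hm : m ≤ n + 1 := by omega
      have hm' : (m : ℝ) ≤ n + 1 := by exact_mod_cast hm
      have hm0 : (0 : ℝ) ≤ m := Nat.cast_nonneg m
      have hn1 : (0 : ℝ) < n + 1 := by linarith
      have d1 : (n + 1) * lb w ≤ m + 1 := by
        rcases a2 with a2 | a2
        · rw [a2, mul_max_of_nonneg _ _ hn1.le, mul_zero, mul_div_cancel₀ _ hn1.ne']
          exact max_le (by linarith) (by linarith)
        · rw [a2]
          calc ((n : ℝ) + 1) * min 1 (((m : ℝ) + 1) / (n + 1)) ≤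
                (n + 1) * (((m : ℝ) + 1) / (n + 1)) :=
                mul_le_mul_of_nonneg_left (min_le_right _ _) hn1.le
            _ = m + 1 := mul_div_cancel₀ _ hn1.ne'
      have d2 : (m : ℝ) + 1 ≤ (n + 1) * lb w + 2 := by
        rcases a2 with a2 | a2
        · rw [a2, mul_max_of_nonneg _ _ hn1.le, mul_zero, mul_div_cancel₀ _ hn1.ne']
          have := le_max_right (0 : ℝ) ((m : ℝ) - 1)
          linarith
        · rw [a2, mul_min_of_nonneg _ _ hn1.le, mul_one, mul_div_cancel₀ _ hn1.ne']
          have : (m : ℝ) - 1 ≤ min ((n : ℝ) + 1) (m + 1) := le_min (by linarith) (by linarith)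
          linarith
      rcases ha with ha | ha
      · -- `q` on the right side
        have f1 : la w = n * lb w := by
          rw [← hb] at c4
          linarith
        have f5 : (n + 1) * lb w = m + 1 := by linarith
        have f2 : (m : ℝ) + 1 ≤ n + 1 := by
          rw [← f5, hb]
          nlinarith
        have f3 : m ≤ n := by exact_mod_cast (by linarith : (m : ℝ) ≤ n)
        rcases Nat.lt_or_ge m n with hlt | hge
        · refine ⟨2 * (m + 2) + 1, by omega, Or.inl (lowp_odd ?_ ?_)⟩
          · rw [← hb]
            push_cast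
            linarith
          · rw [← hb]
            push_cast
            have : (m : ℝ) + 2 - 1 = (n + 1) * lb w := by linarith
            rw [this, mul_div_cancel_left₀ _ hn1.ne', max_eq_right]
            rw [hb]
            exact c1
        · have hmn : m = n := le_antisymm f3 hge
          subst hmn
          have hb1 : lb w = 1 := by
            have : ((m : ℝ) + 1) * (lb w - 1) = 0 := by linarith
            rcases mul_eq_zero.1 this with h | h
            · linarith
            · linarith
          refine ⟨2 * (m + 2), by omega, Or.inl (lowp_even ?_ ?_)⟩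
          · rw [ha, f1, hb1]
            push_cast
            ring
          · rw [← hb, hb1]
            push_cast
            have : ((m : ℝ) + 2 - 2) / m = 1 := by
              rw [add_sub_cancel_right, div_self hn0.ne']
            rw [this, max_eq_right zero_le_one]
      · have f1 : la w = n * lb w + 2 := by
          rw [← hb] at c3
          linarith
        have f5 : (n + 1) * lb w = m - 1 := by linarith
        have f2 : (1 : ℝ) ≤ m := by
          have : 0 ≤ (n + 1) * lb w := by
            rw [hb]
            positivity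
          linarith
        have f3 : 1 ≤ m := by exact_mod_cast f2
        obtain ⟨m', rfl⟩ := Nat.exists_eq_add_of_le f3
        push_cast at f5
        rcases Nat.eq_zero_or_pos m' with h0 | hpos
        · subst h0
          have hb0 : lb w = 0 := by
            have : ((n : ℝ) + 1) * lb w = 0 := by
              rw [f5]
              simp
            rcases mul_eq_zero.1 this with h | h
            · linarith
            · exact h
          refine ⟨2 * 0, by omega, Or.inr (upp_even ?_ ?_)⟩
          · push_cast
            rw [f1, hb0] at ha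
            linarith
          · rw [← hb, hb0]
            simp
        · obtain ⟨m'', rfl⟩ := Nat.exists_eq_add_of_le (show 1 ≤ m' from hpos)
          refine ⟨2 * m'' + 1, by omega, Or.inr (upp_odd ?_ ?_)⟩
          · rw [← hb]
            push_cast at a1 ⊢
            linarith
          · rw [← hb]
            push_cast at f5
            have : (m'' : ℝ) + 1 = (n + 1) * lb w := by linarith
            rw [this, mul_div_cancel_left₀ _ hn1.ne', min_eq_right]
            rw [hb]
            exact c2
  · -- bottom
    rw [hb', mul_zero] at c3 c4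
    obtain ⟨m, rfl | rfl⟩ := Nat.even_or_odd' i
    · obtain ⟨a1, _⟩ := line_even hw
      rw [a1] at ha
      have hm : (m : ℝ) ≤ 2 := by linarith
      have hm' : m ≤ 2 := by exact_mod_cast hm
      obtain ⟨m', hm2⟩ := Nat.exists_eq_add_of_le hm'
      have hm3 : (2 : ℝ) = m + m' := by exact_mod_cast hm2
      refine ⟨2 * m', by omega, Or.inl (lowp_even ?_ ?_)⟩
      · linarith
      · rw [hb']
        symm
        apply max_eq_left
        apply div_nonpos_of_nonpos_of_nonneg
        · have := Nat.cast_nonneg (α := ℝ) m
          linarith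
        · linarith
    · obtain ⟨a1, _⟩ := line_odd hw
      rw [hb, add_zero] at a1
      rw [a1] at ha
      have hm : (m : ℝ) ≤ 1 := by linarith
      have hm' : m ≤ 1 := by exact_mod_cast hm
      obtain ⟨m', hm2⟩ := Nat.exists_eq_add_of_le hm'
      have hm3 : (1 : ℝ) = m + m' := by exact_mod_cast hm2
      refine ⟨2 * m', by omega, Or.inl (lowp_even ?_ ?_)⟩
      · linarith
      · rw [hb']
        symm
        apply max_eq_left
        apply div_nonpos_of_nonpos_of_nonneg
        · have := Nat.cast_nonneg (α := ℝ) m
          linarith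
        · linarith
  · -- top
    rw [hb', mul_one] at c3 c4
    have key : ∀ m : ℕ, la w = m → ∃ k ≤ 2 * n + 4, q = lowp n k ∨ q = upp n k := by
      intro m a1
      rw [a1] at ha
      have hm : (m : ℝ) ≤ 2 * n + 2 := by linarith
      have hm' : m ≤ 2 * n + 2 := by exact_mod_cast hm
      obtain ⟨m', hm2⟩ := Nat.exists_eq_add_of_le hm'
      have hm3 : 2 * (n : ℝ) + 2 = m + m' := by exact_mod_cast hm2
      have e1 : la q = m' := by linarith
      have hk : (m' : ℝ) ≤ n + 2 := by linarith
      have hk' : m' ≤ n + 2 := by exact_mod_cast hk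
      refine ⟨2 * m', by omega, Or.inr (upp_even e1 ?_)⟩
      rw [hb']
      symm
      apply min_eq_left
      rw [le_div_iff₀ hn0]
      linarith
    obtain ⟨m, rfl | rfl⟩ := Nat.even_or_odd' i
    · obtain ⟨a1, _⟩ := line_even hw
      exact key m a1
    · obtain ⟨a1, _⟩ := line_odd hw
      rw [hb] at a1
      exact key m (by linarith)

end Pool.Agent.Lib.FOLD
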