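import Pool.Agent.Lib.FOLD.TM
import Pool.Agent.Lib.FOLD.TTb
import Pool.Agent.Lib.FOLD.TA
import Pool.Agent.Lib.FOLD.Sim

/-!
# FOLD.TZ: thin regions that fold to the regular tetrahedron (1 h)
PROOF. `fold_fintype`: a `Fold` with the triangles indexed by a finite type (use `Fintype.equivFin`). `par_fold`: `n ≥ 2`, index type `{x : Fin (2n+4) × Bool // AffineIndependent ℝ (tv n x.1 x.2)}`; `cover` = `tT_cover`, `tT_cell`; `rigid` = `tf_rigid` with `i = j/2`, `k = (j+1)/2` and `tT_cell`; `onto`, `glue` = `tf_onto`, `tf_glue`, `tC_arc`;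
`edge`: if `tf w = tf p`, `w` a vertex (`tv` values are `lowp`/`upp` points), `p` in the triangle, then `p = w` or `tG n w p` (`tf_glue`), so `p` is a `lowp`/`upp` point (`tT_glue`) in the triangle, hence a vertex of it (`tT_vertex`). `thin_exact`: `plf_sim` with `t = 1/√(√3)`, so the area is `√3 t² = 1`, the volume `(√2/12) t³ = vt`, the
diameter `≥ n t` (`diam_sim`).
-/

set_option autoImplicit false

open MeasureTheory Set Filter Topology Metric
open scoped MeasureTheory ENNReal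

namespace Pool.Agent.Lib.FOLD

theorem fold_fintype {ι : Type} [Fintype ι] {C : Set E2} {L : ℝ} {γ : ℝ → E2} {Q : Set E3}
    (V : ι → Fin 3 → E2) (A : ι → (E2 →ᵃⁱ[ℝ] E3)) (f : E2 → E3) (region : Region C)
    (arc : ArcParam C L γ) (inj : InjOn γ (Ico 0 L)) (cpt : IsCompact Q) (cvx : Convex ℝ Q)
    (int : (interior Q).Nonempty) (indep : ∀ k, AffineIndependent ℝ (V k))
    (cover : (⋃ k, tri (V k)) = C)
    (disj : ∀ j k, j ≠ k → Disjoint (interior (tri (V j))) (interior (tri (V k))))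
    (rigid : ∀ k, ∀ p ∈ tri (V k), f p = A k p) (onto : f '' C = frontier Q)
    (glue : ∀ p ∈ C, ∀ q ∈ C, (f p = f q ↔ p = q ∨ Glued L γ p q))
    (edge : ∀ k i j, f (V k i) ∈ f '' tri (V j) → ∃ i', f (V j i') = f (V k i)) :
    PLFolding C L γ Q := by
  classical
  have e := Fintype.equivFin ι
  exact ⟨{
    n := Fintype.card ι
    V := fun k => V (e.symm k)
    A := fun k => A (e.symm k)
    f := f
    region := region
    arc := arc
    inj := inj
    cpt := cpt
    cvx := cvx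
    int := int
    indep := fun k => indep _
    cover := by
      rw [← cover]
      exact e.symm.surjective.iUnion_comp (fun k => tri (V k))
    disj := fun j k hjk => disj _ _ (fun h => hjk (e.symm.injective h))
    rigid := fun k => rigid _
    onto := onto
    glue := glue
    edge := fun k i j h => edge _ _ _ h }⟩

theorem TZAux.tv_vert (n j : ℕ) (c : Bool) (i : Fin 3) :
    ∃ m ≤ j + 1, tv n j c i = lowp n m ∨ tv n j c i = upp n m := by
  unfold tv
  cases c
  · fin_cases i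
    · exact ⟨j, by omega, Or.inl rfl⟩
    · exact ⟨j + 1, by omega, Or.inl rfl⟩
    · exact ⟨j, by omega, Or.inr rfl⟩
  · fin_cases i
    · exact ⟨j + 1, by omega, Or.inl rfl⟩
    · exact ⟨j + 1, by omega, Or.inr rfl⟩
    · exact ⟨j, by omega, Or.inr rfl⟩

theorem par_fold {n : ℕ} (hn : 2 ≤ n) : ∃ (L : ℝ) (γ : ℝ → E2), PLFolding (tC n) L γ tQ := by
  classical
  obtain ⟨L, γ, harc, hinj, hgl⟩ := tC_arc n
  refine ⟨L, γ, ?_⟩
  choose A hA using tf_rigid
  have mem_self : ∀ (V : Fin 3 → E2) (i : Fin 3), V i ∈ tri V := fun V i =>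
    subset_convexHull ℝ _ (mem_range_self i)
  apply fold_fintype (ι := {x : Fin (2 * n + 4) × Bool // AffineIndependent ℝ (tv n x.1 x.2)})
    (fun x => tv n x.1.1 x.1.2) (fun x => A ((x.1.1 / 2 : ℕ) : ℤ) (((x.1.1 + 1) / 2 : ℕ) : ℤ)) tf
    (tC_region n) harc hinj tQ_cpt tQ_cvx tQ_int
  · intro k
    exact k.2
  · ext p
    simp only [mem_iUnion]
    constructor
    · rintro ⟨k, hk⟩
      exact (tT_cell hn k.1.1.2 _ hk).1
    · intro hp
      obtain ⟨j, hj, c, h1, h2⟩ := tT_cover hn hp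
      exact ⟨⟨(⟨j, hj⟩, c), h1⟩, h2⟩
  · intro j k hjk
    apply tT_disj hn j.1.1.2 k.1.1.2
    intro h
    apply hjk
    apply Subtype.ext
    have h1 := congrArg Prod.fst h
    have h2 := congrArg Prod.snd h
    exact Prod.ext (Fin.ext h1) h2
  · intro k p hp
    obtain ⟨-, h1, h2, h3, h4⟩ := tT_cell hn k.1.1.2 _ hp
    apply hA
    · rw [Int.cast_natCast]
      exact h1
    · rw [Int.cast_natCast]
      exact h2
    · rw [Int.cast_natCast]
      exact h3
    · rw [Int.cast_natCast]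
      exact h4
  · exact tf_onto n
  · intro p hp q hq
    rw [tf_glue n p hp q hq, hgl p hp q hq]
  · rintro k i j ⟨p, hp, hpw⟩
    obtain ⟨m, hm, hw⟩ := TZAux.tv_vert n k.1.1 k.1.2 i
    have hk := k.1.1.2
    have hw' : tv n k.1.1 k.1.2 i ∈ tC n := (tT_cell hn k.1.1.2 _ (mem_self _ i)).1
    have hp' : p ∈ tC n := (tT_cell hn j.1.1.2 _ hp).1
    have hm' : m ≤ 2 * n + 4 := by omega
    rcases (tf_glue n _ hw' p hp').1 hpw.symm with h | h
    · rw [← h] at hp
      obtain ⟨i', hi'⟩ := tT_vertex hn hm' j.1.1.2 j.1.2 j.2 hw hp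
      exact ⟨i', by rw [hi']⟩
    · obtain ⟨m', hm2, hq⟩ := tT_glue hn hm' hw hp' h
      obtain ⟨i', hi'⟩ := tT_vertex hn hm2 j.1.1.2 j.1.2 j.2 hq hp
      exact ⟨i', by rw [hi', hpw]⟩

theorem thin_exact (R : ℝ) : ∃ (C : Set E2) (L : ℝ) (γ : ℝ → E2) (Q : Set E3), PLFolding C L γ Q ∧
    volume C = 1 ∧ R ≤ diam C ∧ volume Q = ENNReal.ofReal vt := by
  have h3 : 0 < √3 := by positivity
  have hs : 0 < √(√3) := by positivity
  have hs2 : √(√3) ^ 2 = √3 := Real.sq_sqrt h3.le
  have ht : 0 < 1 / √(√3) := by positivity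
  obtain ⟨m, hm⟩ := exists_nat_ge (R * √(√3))
  have hn : 2 ≤ max 2 m := le_max_left _ _
  obtain ⟨L, γ, hF⟩ := par_fold hn
  refine ⟨_, _, _, _, plf_sim hF ht 0 0, ?_, ?_, ?_⟩
  · rw [vol_sim ht, tC_vol, ← ENNReal.ofReal_mul (by positivity), finrank_euclideanSpace_fin]
    have : (1 / √(√3)) ^ 2 * √3 = 1 := by
      rw [div_pow, hs2]
      field_simp
    rw [this, ENNReal.ofReal_one]
  · rw [diam_sim ht]
    have h1 := tC_diam (max 2 m)
    have h2 : (m : ℝ) ≤ ((max 2 m : ℕ) : ℝ) := by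
      exact_mod_cast le_max_right 2 m
    calc R = 1 / √(√3) * (R * √(√3)) := by field_simp
      _ ≤ 1 / √(√3) * diam (tC (max 2 m)) := by
        apply mul_le_mul_of_nonneg_left _ ht.le
        linarith
  · rw [vol_sim ht, tQ_vol, ← ENNReal.ofReal_mul (by positivity), finrank_euclideanSpace_fin, mul_comm,
      vt_eq]

theorem folding_of_pl {C : Set E2} {L : ℝ} {γ : ℝ → E2} {Q : Set E3} (h : PLFolding C L γ Q) :
    Folding C L γ Q := by
  obtain ⟨F⟩ := h
  refine ⟨F.region, F.arc, F.cpt, F.cvx, F.int.mono interior_subset, fun _ => C, fun _ => L,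
    fun _ => γ, fun _ => Q, fun _ => ⟨F⟩, ?_, tendsto_const_nhds, ?_, ?_⟩
  · simp [hausdorffDist_self_zero]
  · intro ε hε
    filter_upwards with i t _
    simpa using hε
  · simp [hausdorffDist_self_zero]

end Pool.Agent.Lib.FOLD
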