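import Pool.Agent.Lib.FOLD.Defs

/-!
# FOLD.TeI: the isoperimetric inequality for tetrahedra (1.5 h)
PROOF. Let `N1 = a × b`, `N2 = b × c`, `N3 = c × a` (define `cr x y : E3` by coordinates), `N4 = N1 + N2 + N3 = (b-a) × (c-a)`; `‖x × y‖² = ‖x‖²‖y‖² - ⟪x,y⟫²`, so `2 tar a b = ‖N1‖` and so on, and with `σ = ‖N1‖+‖N2‖+‖N3‖+‖N4‖`
the right side is `(σ/2)³/(216√3)`. `det3 N1 N2 N3 = (det3 a b c)²` (ring in coordinates). To prove: `|det3 N1 N2 N3| ≤ σ³/(48√3)`; then `det²/36 ≤ σ³/(1728√3) = (σ/2)³/(216√3)`.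
Let `M = N1 + N2 = N4 - N3`. `det3 N1 N2 N3 = det3 N1 M N3`. If `M = 0` it is `0`. Let `m = ‖M‖`, `d` = norm of the component of `N1` orthogonal to `M` (the one of `N2 = M - N1` has the same norm), `e` = norm of the component of `N3`
orthogonal to `M` (same for `N4 = M + N3`). `|det3 N1 M N3| ≤ d m e` (the parallel components do not contribute; `|det3 x M y| ≤ ‖x‖‖M‖‖y‖`, Hadamard: `|⟪x, M × y⟫|`).
`‖N1‖ + ‖N2‖ ≥ √(m² + 4d²)`: with the parallel components `α₁ + α₂ = m`, `√(α₁²+d²) + √(α₂²+d²) ≥ √((α₁+α₂)²+(2d)²)` (triangle inequality in the plane); similarly `‖N3‖+‖N4‖ ≥ √(m² + 4e²)` (components `-α₃`, `α₄`, `α₄ - α₃ = m`).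
Let `A = √(m²+4d²)`, `B = √(m²+4e²)`, `s = A + B ≤ σ`: `(4 m d e)² = m²(A²-m²)(B²-m²) ≤ m²(AB-m²)² ≤ m²(s²/4-m²)²` (`AB ≥ m²`), and `m(s²/4 - m²) ≤ s³/(12√3)` for `m ≥ 0`: with `m0 = s/(2√3)`:
`m³ - (s²/4)m + s³/(12√3) = (m - m0)²(m + 2 m0) ≥ 0` (`m0² = s²/12`, `2 m0³ = s³/(12√3)`). So `m d e ≤ s³/(48√3)`.
-/

set_option autoImplicit false

open MeasureTheory Set Filter Topology Metric
open scoped MeasureTheory ENNReal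

namespace Pool.Agent.Lib.FOLD

namespace TeIAux

theorem core (p q r t u v m D E Δ : ℝ) (hp : 0 ≤ p) (hq : 0 ≤ q) (hr : 0 ≤ r) (ht : 0 ≤ t)
    (hm0 : 0 ≤ m) (hD0 : 0 ≤ D) (hE0 : 0 ≤ E)
    (hm : m ^ 2 = p ^ 2 + q ^ 2 + 2 * u) (hm' : m ^ 2 = t ^ 2 + r ^ 2 - 2 * v)
    (hD : D ^ 2 = p ^ 2 * q ^ 2 - u ^ 2) (hE : E ^ 2 = t ^ 2 * r ^ 2 - v ^ 2)
    (hΔ : Δ * m ≤ D * E) (h0 : m = 0 → Δ = 0) :
    Δ ≤ (p + q + r + t) ^ 3 / (48 * √3) := by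
  have hk : √(3 : ℝ) ^ 2 = 3 := Real.sq_sqrt (by norm_num)
  have hk0 : 0 < √(3 : ℝ) := Real.sqrt_pos.mpr (by norm_num)
  set k := √(3 : ℝ) with hkdef
  have hs : 0 ≤ p + q + r + t := by positivity
  rcases hm0.eq_or_lt with h | hmpos
  · rw [h0 h.symm]; positivity
  -- |u| ≤ p q and |v| ≤ r t
  have hupq : u ≤ p * q := by
    have : u ^ 2 ≤ (p * q) ^ 2 := by nlinarith [sq_nonneg D]
    exact (abs_le_of_sq_le_sq' this (by positivity)).2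
  have hvrt : -(r * t) ≤ v := by
    have : v ^ 2 ≤ (r * t) ^ 2 := by nlinarith [sq_nonneg E]
    exact (abs_le_of_sq_le_sq' this (by positivity)).1
  set A := p + q with hA
  set B := r + t with hB
  have hA0 : 0 ≤ A := by positivity
  have hB0 : 0 ≤ B := by positivity
  have h1 : 4 * D ^ 2 ≤ m ^ 2 * (A ^ 2 - m ^ 2) := by
    have e1 : m ^ 2 * (A ^ 2 - m ^ 2) - 4 * D ^ 2 = 2 * (p * q - u) * (p - q) ^ 2 := by
      rw [hD, hm, hA]; ring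
    have : 0 ≤ 2 * (p * q - u) * (p - q) ^ 2 := by
      have : 0 ≤ p * q - u := by linarith
      positivity
    linarith
  have h2 : 4 * E ^ 2 ≤ m ^ 2 * (B ^ 2 - m ^ 2) := by
    have e1 : m ^ 2 * (B ^ 2 - m ^ 2) - 4 * E ^ 2 = 2 * (r * t + v) * (r - t) ^ 2 := by
      rw [hE, hm', hB]; ring
    have : 0 ≤ 2 * (r * t + v) * (r - t) ^ 2 := by
      have : 0 ≤ r * t + v := by linarith
      positivity
    linarith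
  have hmA2 : m ^ 2 ≤ A ^ 2 := by rw [hm, hA]; nlinarith
  have hmB2 : m ^ 2 ≤ B ^ 2 := by rw [hm', hB]; nlinarith
  have hmA : m ≤ A := by
    exact (abs_le_of_sq_le_sq' hmA2 hA0).2
  have hmB : m ≤ B := by
    exact (abs_le_of_sq_le_sq' hmB2 hB0).2
  have hAB : m ^ 2 ≤ A * B := by nlinarith
  have h3 : (4 * (D * E)) ^ 2 ≤ (m ^ 2 * (A * B - m ^ 2)) ^ 2 := by
    have a1 : (4 * D ^ 2) * (4 * E ^ 2) ≤ (m ^ 2 * (A ^ 2 - m ^ 2)) * (m ^ 2 * (B ^ 2 - m ^ 2)) := by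
      apply mul_le_mul h1 h2 (by positivity)
      have : 0 ≤ A ^ 2 - m ^ 2 := by linarith
      positivity
    have a2 : (A ^ 2 - m ^ 2) * (B ^ 2 - m ^ 2) ≤ (A * B - m ^ 2) ^ 2 := by
      nlinarith [mul_nonneg (sq_nonneg m) (sq_nonneg (A - B))]
    have a3 : (m ^ 2) ^ 2 * ((A ^ 2 - m ^ 2) * (B ^ 2 - m ^ 2)) ≤ (m ^ 2) ^ 2 * (A * B - m ^ 2) ^ 2 :=
      mul_le_mul_of_nonneg_left a2 (by positivity)
    calc (4 * (D * E)) ^ 2 = (4 * D ^ 2) * (4 * E ^ 2) := by ring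
      _ ≤ _ := a1
      _ = (m ^ 2) ^ 2 * ((A ^ 2 - m ^ 2) * (B ^ 2 - m ^ 2)) := by ring
      _ ≤ _ := a3
      _ = _ := by ring
  have h4 : 4 * (D * E) ≤ m ^ 2 * (A * B - m ^ 2) := by
    have : 0 ≤ m ^ 2 * (A * B - m ^ 2) := by
      have : 0 ≤ A * B - m ^ 2 := by linarith
      positivity
    exact (abs_le_of_sq_le_sq' h3 this).2
  have h5 : Δ ≤ m * (A * B - m ^ 2) / 4 := by
    have : Δ * m ≤ (m * (A * B - m ^ 2) / 4) * m := by nlinarith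
    exact le_of_mul_le_mul_right this hmpos
  have h6 : A * B ≤ (A + B) ^ 2 / 4 := by nlinarith [sq_nonneg (A - B)]
  have h7 : m * (A * B - m ^ 2) ≤ m * ((A + B) ^ 2 / 4 - m ^ 2) :=
    mul_le_mul_of_nonneg_left (by linarith) hm0
  set s := A + B with hsdef
  have hs0 : 0 ≤ s := by positivity
  have h8 : m * (s ^ 2 / 4 - m ^ 2) ≤ s ^ 3 * k / 36 := by
    have e : s ^ 3 * k / 36 - m * (s ^ 2 / 4 - m ^ 2)
        = (m - s * k / 6) ^ 2 * (m + s * k / 3)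
          + (s ^ 3 * k / 108 - s ^ 2 * m / 12) * (3 - k ^ 2) := by ring
    have : 0 ≤ (m - s * k / 6) ^ 2 * (m + s * k / 3) := by positivity
    have z : (s ^ 3 * k / 108 - s ^ 2 * m / 12) * (3 - k ^ 2) = 0 := by rw [hk]; ring
    rw [z] at e
    linarith
  have h9 : (p + q + r + t) ^ 3 / (48 * k) = s ^ 3 * k / 144 := by
    have : p + q + r + t = s := by rw [hsdef, hA, hB]; ring
    rw [this, div_eq_div_iff (by positivity) (by norm_num)]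
    have : s ^ 3 * k * (48 * k) = s ^ 3 * 48 * k ^ 2 := by ring
    rw [this, hk]; ring
  rw [h9]
  linarith

/-- Lagrange: `det(M,X,Z)² |M|² + ⟨M×X, M×Z⟩² = |M×X|² |M×Z|²`. -/
theorem lag (m0 m1 m2 x0 x1 x2 z0 z1 z2 : ℝ) :
    (m0 * (x1 * z2 - x2 * z1) - m1 * (x0 * z2 - x2 * z0) + m2 * (x0 * z1 - x1 * z0)) ^ 2 *
        (m0 ^ 2 + m1 ^ 2 + m2 ^ 2) +
      ((m1 * x2 - m2 * x1) * (m1 * z2 - m2 * z1) + (m2 * x0 - m0 * x2) * (m2 * z0 - m0 * z2) +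
        (m0 * x1 - m1 * x0) * (m0 * z1 - m1 * z0)) ^ 2 =
      ((m1 * x2 - m2 * x1) ^ 2 + (m2 * x0 - m0 * x2) ^ 2 + (m0 * x1 - m1 * x0) ^ 2) *
        ((m1 * z2 - m2 * z1) ^ 2 + (m2 * z0 - m0 * z2) ^ 2 + (m0 * z1 - m1 * z0) ^ 2) := by
  ring

theorem key (x0 x1 x2 y0 y1 y2 z0 z1 z2 : ℝ) :
    x0 * (y1 * z2 - y2 * z1) - x1 * (y0 * z2 - y2 * z0) + x2 * (y0 * z1 - y1 * z0) ≤
      (√(x0 ^ 2 + x1 ^ 2 + x2 ^ 2) + √(y0 ^ 2 + y1 ^ 2 + y2 ^ 2) + √(z0 ^ 2 + z1 ^ 2 + z2 ^ 2) +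
        √((x0 + y0 + z0) ^ 2 + (x1 + y1 + z1) ^ 2 + (x2 + y2 + z2) ^ 2)) ^ 3 / (48 * √3) := by
  have sp : √(x0 ^ 2 + x1 ^ 2 + x2 ^ 2) ^ 2 = x0 ^ 2 + x1 ^ 2 + x2 ^ 2 := Real.sq_sqrt (by positivity)
  have sq' : √(y0 ^ 2 + y1 ^ 2 + y2 ^ 2) ^ 2 = y0 ^ 2 + y1 ^ 2 + y2 ^ 2 := Real.sq_sqrt (by positivity)
  have sr : √(z0 ^ 2 + z1 ^ 2 + z2 ^ 2) ^ 2 = z0 ^ 2 + z1 ^ 2 + z2 ^ 2 := Real.sq_sqrt (by positivity)
  have st : √((x0 + y0 + z0) ^ 2 + (x1 + y1 + z1) ^ 2 + (x2 + y2 + z2) ^ 2) ^ 2 =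
      (x0 + y0 + z0) ^ 2 + (x1 + y1 + z1) ^ 2 + (x2 + y2 + z2) ^ 2 := Real.sq_sqrt (by positivity)
  have sm : √((x0 + y0) ^ 2 + (x1 + y1) ^ 2 + (x2 + y2) ^ 2) ^ 2 =
      (x0 + y0) ^ 2 + (x1 + y1) ^ 2 + (x2 + y2) ^ 2 := Real.sq_sqrt (by positivity)
  have sD : √((y1 * x2 - y2 * x1) ^ 2 + (y2 * x0 - y0 * x2) ^ 2 + (y0 * x1 - y1 * x0) ^ 2) ^ 2 =
      (y1 * x2 - y2 * x1) ^ 2 + (y2 * x0 - y0 * x2) ^ 2 + (y0 * x1 - y1 * x0) ^ 2 :=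
    Real.sq_sqrt (by positivity)
  have sE : √(((x1 + y1) * z2 - (x2 + y2) * z1) ^ 2 + ((x2 + y2) * z0 - (x0 + y0) * z2) ^ 2 +
      ((x0 + y0) * z1 - (x1 + y1) * z0) ^ 2) ^ 2 =
      ((x1 + y1) * z2 - (x2 + y2) * z1) ^ 2 + ((x2 + y2) * z0 - (x0 + y0) * z2) ^ 2 +
      ((x0 + y0) * z1 - (x1 + y1) * z0) ^ 2 :=
    Real.sq_sqrt (by positivity)
  refine core _ _ _ _ (x0 * y0 + x1 * y1 + x2 * y2)
    ((x0 + y0 + z0) * z0 + (x1 + y1 + z1) * z1 + (x2 + y2 + z2) * z2)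
    (√((x0 + y0) ^ 2 + (x1 + y1) ^ 2 + (x2 + y2) ^ 2))
    (√((y1 * x2 - y2 * x1) ^ 2 + (y2 * x0 - y0 * x2) ^ 2 + (y0 * x1 - y1 * x0) ^ 2))
    (√(((x1 + y1) * z2 - (x2 + y2) * z1) ^ 2 + ((x2 + y2) * z0 - (x0 + y0) * z2) ^ 2 +
      ((x0 + y0) * z1 - (x1 + y1) * z0) ^ 2)) _
    (Real.sqrt_nonneg _) (Real.sqrt_nonneg _) (Real.sqrt_nonneg _) (Real.sqrt_nonneg _)
    (Real.sqrt_nonneg _) (Real.sqrt_nonneg _) (Real.sqrt_nonneg _) ?_ ?_ ?_ ?_ ?_ ?_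
  · rw [sm, sp, sq']; ring
  · rw [sm, st, sr]; ring
  · rw [sD, sp, sq']; ring
  · rw [sE, st, sr]; ring
  · set m := √((x0 + y0) ^ 2 + (x1 + y1) ^ 2 + (x2 + y2) ^ 2)
    set D := √((y1 * x2 - y2 * x1) ^ 2 + (y2 * x0 - y0 * x2) ^ 2 + (y0 * x1 - y1 * x0) ^ 2)
    set E := √(((x1 + y1) * z2 - (x2 + y2) * z1) ^ 2 + ((x2 + y2) * z0 - (x0 + y0) * z2) ^ 2 +
      ((x0 + y0) * z1 - (x1 + y1) * z0) ^ 2)
    set d := x0 * (y1 * z2 - y2 * z1) - x1 * (y0 * z2 - y2 * z0) + x2 * (y0 * z1 - y1 * z0) with hd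
    have hDE : 0 ≤ D * E := by positivity
    have h := lag (x0 + y0) (x1 + y1) (x2 + y2) x0 x1 x2 z0 z1 z2
    have e1 : (x0 + y0) * (x1 * z2 - x2 * z1) - (x1 + y1) * (x0 * z2 - x2 * z0) +
        (x2 + y2) * (x0 * z1 - x1 * z0) = -d := by rw [hd]; ring
    have e2 : ((x1 + y1) * x2 - (x2 + y2) * x1) ^ 2 + ((x2 + y2) * x0 - (x0 + y0) * x2) ^ 2 +
        ((x0 + y0) * x1 - (x1 + y1) * x0) ^ 2 = D ^ 2 := by rw [sD]; ring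
    rw [e1, e2, ← sE, ← sm] at h
    have h2 : (d * m) ^ 2 ≤ (D * E) ^ 2 := by nlinarith [sq_nonneg (((x1 + y1) * x2 - (x2 + y2) * x1) *
      ((x1 + y1) * z2 - (x2 + y2) * z1) + ((x2 + y2) * x0 - (x0 + y0) * x2) *
      ((x2 + y2) * z0 - (x0 + y0) * z2) + ((x0 + y0) * x1 - (x1 + y1) * x0) *
      ((x0 + y0) * z1 - (x1 + y1) * z0))]
    exact (abs_le_of_sq_le_sq' h2 hDE).2
  · intro h
    have h' : (x0 + y0) ^ 2 + (x1 + y1) ^ 2 + (x2 + y2) ^ 2 = 0 := by rw [← sm, h]; norm_num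
    have a0 : x0 + y0 = 0 := by nlinarith [sq_nonneg (x0 + y0), sq_nonneg (x1 + y1), sq_nonneg (x2 + y2)]
    have a1 : x1 + y1 = 0 := by nlinarith [sq_nonneg (x0 + y0), sq_nonneg (x1 + y1), sq_nonneg (x2 + y2)]
    have a2 : x2 + y2 = 0 := by nlinarith [sq_nonneg (x0 + y0), sq_nonneg (x1 + y1), sq_nonneg (x2 + y2)]
    have b0 : y0 = -x0 := by linarith
    have b1 : y1 = -x1 := by linarith
    have b2 : y2 = -x2 := by linarith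
    rw [b0, b1, b2]; ring

theorem tar_eq (a b : E3) : tar a b =
    √((a 1 * b 2 - a 2 * b 1) ^ 2 + (a 2 * b 0 - a 0 * b 2) ^ 2 + (a 0 * b 1 - a 1 * b 0) ^ 2) / 2 := by
  unfold tar
  congr 2
  rw [EuclideanSpace.norm_sq_eq, EuclideanSpace.norm_sq_eq]
  simp only [PiLp.inner_apply, Fin.sum_univ_three, Real.norm_eq_abs, sq_abs, RCLike.inner_apply,
    conj_trivial]
  ring

end TeIAux

theorem tet_ineq (a b c : E3) :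
    det3 a b c ^ 2 / 36 ≤ (tar a b + tar b c + tar c a + tar (b - a) (c - a)) ^ 3 / (216 * √3) := by
  rw [TeIAux.tar_eq, TeIAux.tar_eq, TeIAux.tar_eq, TeIAux.tar_eq]
  have h := TeIAux.key (a 1 * b 2 - a 2 * b 1) (a 2 * b 0 - a 0 * b 2) (a 0 * b 1 - a 1 * b 0)
    (b 1 * c 2 - b 2 * c 1) (b 2 * c 0 - b 0 * c 2) (b 0 * c 1 - b 1 * c 0)
    (c 1 * a 2 - c 2 * a 1) (c 2 * a 0 - c 0 * a 2) (c 0 * a 1 - c 1 * a 0)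
  have e0 : (a 1 * b 2 - a 2 * b 1) + (b 1 * c 2 - b 2 * c 1) + (c 1 * a 2 - c 2 * a 1) =
      (b - a) 1 * (c - a) 2 - (b - a) 2 * (c - a) 1 := by
    simp only [PiLp.sub_apply]; ring
  have e1 : (a 2 * b 0 - a 0 * b 2) + (b 2 * c 0 - b 0 * c 2) + (c 2 * a 0 - c 0 * a 2) =
      (b - a) 2 * (c - a) 0 - (b - a) 0 * (c - a) 2 := by
    simp only [PiLp.sub_apply]; ring
  have e2 : (a 0 * b 1 - a 1 * b 0) + (b 0 * c 1 - b 1 * c 0) + (c 0 * a 1 - c 1 * a 0) =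
      (b - a) 0 * (c - a) 1 - (b - a) 1 * (c - a) 0 := by
    simp only [PiLp.sub_apply]; ring
  rw [e0, e1, e2] at h
  have e3 : (a 1 * b 2 - a 2 * b 1) * ((b 2 * c 0 - b 0 * c 2) * (c 0 * a 1 - c 1 * a 0) -
      (b 0 * c 1 - b 1 * c 0) * (c 2 * a 0 - c 0 * a 2)) -
      (a 2 * b 0 - a 0 * b 2) * ((b 1 * c 2 - b 2 * c 1) * (c 0 * a 1 - c 1 * a 0) -
      (b 0 * c 1 - b 1 * c 0) * (c 1 * a 2 - c 2 * a 1)) +
      (a 0 * b 1 - a 1 * b 0) * ((b 1 * c 2 - b 2 * c 1) * (c 2 * a 0 - c 0 * a 2) -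
      (b 2 * c 0 - b 0 * c 2) * (c 1 * a 2 - c 2 * a 1)) = det3 a b c ^ 2 := by
    unfold det3; ring
  rw [e3] at h
  set P := √((a 1 * b 2 - a 2 * b 1) ^ 2 + (a 2 * b 0 - a 0 * b 2) ^ 2 + (a 0 * b 1 - a 1 * b 0) ^ 2)
  set Q := √((b 1 * c 2 - b 2 * c 1) ^ 2 + (b 2 * c 0 - b 0 * c 2) ^ 2 + (b 0 * c 1 - b 1 * c 0) ^ 2)
  set R := √((c 1 * a 2 - c 2 * a 1) ^ 2 + (c 2 * a 0 - c 0 * a 2) ^ 2 + (c 0 * a 1 - c 1 * a 0) ^ 2)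
  set T := √(((b - a) 1 * (c - a) 2 - (b - a) 2 * (c - a) 1) ^ 2 +
    ((b - a) 2 * (c - a) 0 - (b - a) 0 * (c - a) 2) ^ 2 +
    ((b - a) 0 * (c - a) 1 - (b - a) 1 * (c - a) 0) ^ 2)
  have hk0 : 0 < √(3 : ℝ) := Real.sqrt_pos.mpr (by norm_num)
  have e4 : (P / 2 + Q / 2 + R / 2 + T / 2) ^ 3 / (216 * √3) = ((P + Q + R + T) ^ 3 / (48 * √3)) / 36 := by
    field_simp
    ring
  rw [e4]
  linarith

end Pool.Agent.Lib.FOLD
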