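import Pool.Agent.Lib.FOLD.Soft
import Pool.Agent.Lib.FOLD.TeV
import Pool.Agent.Lib.FOLD.TeI

/-!
# FOLD.ThA: volume bound in the limit (1 h)
PROOF. Pass to a subsequence with `q i j → qq j` for all `j` (compactness of the product of the balls). By `soft` `volume (Q i) ≤ volume (cthickening η T)` eventually, `T = convexHull (range qq)`, so `m ≤ volume (cthickening η T)` for all `η > 0`,
and `volume (cthickening η T) → volume T` as `η → 0` (`tendsto_measure_cthickening_of_isCompact` / `tendsto_measure_cthickening_of_isClosed`). So `m ≤ volume T = |det3 qq|/6` (`vol_tet`), in particular `det3 qq ≠ 0`, and `det3 (q i) → det3 qq` along the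
subsequence, so `det3 (q i) ≠ 0` eventually and `hS` applies. `tet_ineq`: `(det3 (q i))²/36 ≤ (A i)³/(216√3)` (`0 ≤` the sum of the areas `≤ A i`); in the limit `m² ≤ (det3 qq)²/36 ≤ 1/(216√3) = vt²`.
-/

set_option autoImplicit false

open MeasureTheory Set Filter Topology Metric
open scoped MeasureTheory ENNReal

namespace Pool.Agent.Lib.FOLD

theorem lim_bound {Q : ℕ → Set E3} {q : ℕ → Fin 4 → E3} {R m : ℝ} {ε A : ℕ → ℝ}
    (hQ : ∀ i, Q i ⊆ closedBall 0 R) (hqQ : ∀ i j, q i j ∈ Q i)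
    (hε : Tendsto ε atTop (𝓝 0)) (hA : Tendsto A atTop (𝓝 1))
    (hG : Tendsto (fun i => G3 {u | ∃ z ∈ Q i, ∀ j, inner ℝ u (q i j) + ‖u‖ * ε i < inner ℝ u z})
      atTop (𝓝 0))
    (hm : 0 < m) (hv : ∀ i, ENNReal.ofReal m ≤ volume (Q i))
    (hS : ∀ i, det3 (q i 1 - q i 0) (q i 2 - q i 0) (q i 3 - q i 0) ≠ 0 →
      tar (q i 1 - q i 0) (q i 2 - q i 0) + tar (q i 2 - q i 0) (q i 3 - q i 0) +
        tar (q i 3 - q i 0) (q i 1 - q i 0) + tar (q i 2 - q i 1) (q i 3 - q i 1) ≤ A i) :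
    m ≤ vt := by
  have hcp : IsCompact (Set.pi univ (fun _ : Fin 4 => closedBall (0 : E3) R)) :=
    isCompact_univ_pi (fun _ => isCompact_closedBall 0 R)
  obtain ⟨qq, -, φ, hφ, hlim⟩ := hcp.tendsto_subseq (x := q)
    (fun i => by
      rw [Set.mem_univ_pi]
      exact fun j => hQ i (hqQ i j))
  have hlimj : ∀ j, Tendsto (fun i => q (φ i) j) atTop (𝓝 (qq j)) :=
    fun j => (tendsto_pi_nhds.1 hlim) j
  have hφt : Tendsto φ atTop atTop := hφ.tendsto_atTop
  have hTc : IsCompact (convexHull ℝ (range qq)) := (finite_range qq).isCompact_convexHull ℝ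
  have hstep : ∀ η : ℝ, 0 < η →
      ENNReal.ofReal m ≤ volume (cthickening η (convexHull ℝ (range qq))) := by
    intro η hη
    have h1 := soft (Q := fun i => Q (φ i)) (q := fun i => q (φ i)) (qq := qq) (R := R)
      (ε := fun i => ε (φ i)) (fun i => hQ (φ i)) hlimj (hε.comp hφt) (hG.comp hφt) hη
    obtain ⟨i, hi⟩ := h1.exists
    exact (hv (φ i)).trans (measure_mono hi)
  have hvol : ENNReal.ofReal m ≤ volume (convexHull ℝ (range qq)) := by
    have h2 : Tendsto (fun r => volume (cthickening r (convexHull ℝ (range qq)))) (𝓝[>] 0)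
        (𝓝 (volume (convexHull ℝ (range qq)))) :=
      (tendsto_measure_cthickening_of_isCompact hTc).mono_left nhdsWithin_le_nhds
    refine ge_of_tendsto h2 ?_
    filter_upwards [self_mem_nhdsWithin] with η hη
    exact hstep η hη
  rw [vol_tet] at hvol
  have hmd : m ≤ |det3 (qq 1 - qq 0) (qq 2 - qq 0) (qq 3 - qq 0)| / 6 :=
    (ENNReal.ofReal_le_ofReal_iff (by positivity)).1 hvol
  have hcont : Continuous (fun p : Fin 4 → E3 => det3 (p 1 - p 0) (p 2 - p 0) (p 3 - p 0)) := by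
    unfold det3
    fun_prop
  have hdet : Tendsto (fun i => det3 (q (φ i) 1 - q (φ i) 0) (q (φ i) 2 - q (φ i) 0)
      (q (φ i) 3 - q (φ i) 0)) atTop
      (𝓝 (det3 (qq 1 - qq 0) (qq 2 - qq 0) (qq 3 - qq 0))) :=
    (hcont.tendsto qq).comp hlim
  have hne : det3 (qq 1 - qq 0) (qq 2 - qq 0) (qq 3 - qq 0) ≠ 0 := by
    intro h0
    rw [h0, abs_zero, zero_div] at hmd
    linarith
  have hev : ∀ᶠ i in atTop, det3 (q (φ i) 1 - q (φ i) 0) (q (φ i) 2 - q (φ i) 0)
      (q (φ i) 3 - q (φ i) 0) ≠ 0 := hdet.eventually_ne hne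
  have hle : ∀ᶠ i in atTop, det3 (q (φ i) 1 - q (φ i) 0) (q (φ i) 2 - q (φ i) 0)
      (q (φ i) 3 - q (φ i) 0) ^ 2 / 36 ≤ A (φ i) ^ 3 / (216 * √3) := by
    filter_upwards [hev] with i hi
    have h1 := tet_ineq (q (φ i) 1 - q (φ i) 0) (q (φ i) 2 - q (φ i) 0) (q (φ i) 3 - q (φ i) 0)
    rw [sub_sub_sub_cancel_right, sub_sub_sub_cancel_right] at h1
    refine h1.trans ?_
    have h2 := hS (φ i) hi
    have h3 : ∀ x y : E3, 0 ≤ tar x y := fun x y => by
      unfold tar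
      positivity
    have h4 : 0 ≤ tar (q (φ i) 1 - q (φ i) 0) (q (φ i) 2 - q (φ i) 0) +
        tar (q (φ i) 2 - q (φ i) 0) (q (φ i) 3 - q (φ i) 0) +
        tar (q (φ i) 3 - q (φ i) 0) (q (φ i) 1 - q (φ i) 0) +
        tar (q (φ i) 2 - q (φ i) 1) (q (φ i) 3 - q (φ i) 1) :=
      add_nonneg (add_nonneg (add_nonneg (h3 _ _) (h3 _ _)) (h3 _ _)) (h3 _ _)
    gcongr
  have hL : Tendsto (fun i => det3 (q (φ i) 1 - q (φ i) 0) (q (φ i) 2 - q (φ i) 0)
      (q (φ i) 3 - q (φ i) 0) ^ 2 / 36) atTop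
      (𝓝 (det3 (qq 1 - qq 0) (qq 2 - qq 0) (qq 3 - qq 0) ^ 2 / 36)) :=
    (hdet.pow 2).div_const 36
  have hR : Tendsto (fun i => A (φ i) ^ 3 / (216 * √3)) atTop (𝓝 (1 ^ 3 / (216 * √3))) :=
    ((hA.comp hφt).pow 3).div_const _
  have hfin := le_of_tendsto_of_tendsto hL hR hle
  have hsq : m ^ 2 ≤ vt ^ 2 := by
    have h5 : m ^ 2 ≤ (|det3 (qq 1 - qq 0) (qq 2 - qq 0) (qq 3 - qq 0)| / 6) ^ 2 :=
      pow_le_pow_left₀ hm.le hmd 2
    have h6 : vt ^ 2 = 1 ^ 3 / (216 * √3) := by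
      unfold vt
      rw [div_pow, Real.sq_sqrt (by positivity)]
      norm_num
    rw [h6]
    refine h5.trans ?_
    refine le_trans (le_of_eq ?_) hfin
    rw [div_pow, sq_abs]
    norm_num
  have hvt : 0 ≤ vt := by
    unfold vt
    positivity
  exact (pow_le_pow_iff_left₀ hm.le hvt two_ne_zero).1 hsq

end Pool.Agent.Lib.FOLD
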