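import Pool.Agent.Lib.FOLD.V3A
import Pool.Agent.Lib.FOLD.Gau
import Pool.Agent.Lib.FOLD.Cnt

/-!
# FOLD.V3: the vertex inequality (0.7 h)
PROOF. `cnt_le` with `μ = G3`, `S = F.S3`, `E = Ext Q v` (closed, so measurable), `corner_card` and `corner_ext` (the pointwise facts hold for all `u`). `s3_eq`: `f = A k` on the triangle `k`, so
`f(V k j) - f(V k i) = (A k).linear (V k j - V k i)`, and `corner_prob` for the linear isometry `(A k).linearIsometry`.
-/

set_option autoImplicit false

open MeasureTheory Set Filter Topology Metric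
open scoped MeasureTheory ENNReal

namespace Pool.Agent.Lib.FOLD

variable {C : Set E2} {L : ℝ} {γ : ℝ → E2} {Q : Set E3}

private theorem f_sub (F : Fold C L γ Q) (k : Fin F.n) (i j : Fin 3) :
    F.f (F.V k i) - F.f (F.V k j) = (F.A k).linearIsometry (F.V k i - F.V k j) := by
  have h1 : ∀ i, F.f (F.V k i) = F.A k (F.V k i) := fun i =>
    F.rigid k _ (subset_convexHull ℝ _ (mem_range_self i))
  rw [h1 i, h1 j]
  have := (F.A k).map_vsub (F.V k i) (F.V k j)
  simpa using this.symm

theorem s3_eq (F : Fold C L γ Q) (c : Fin F.n × Fin 3) : G3 (F.S3 c) = G2 (F.S2 c) := by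
  have h := corner_prob (F.A c.1).linearIsometry (F.e1 c) (F.e2 c)
  have h1 : F.S3 c = {u | inner ℝ u ((F.A c.1).linearIsometry (F.e1 c)) *
      inner ℝ u ((F.A c.1).linearIsometry (F.e2 c)) < 0} := by
    unfold Fold.S3 Fold.e1 Fold.e2
    rw [f_sub, f_sub]
  rw [h1, h]
  rfl

private theorem ext_closed (Q : Set E3) (v : E3) : IsClosed (Ext Q v) := by
  have h1 : Ext Q v = (⋂ z ∈ Q, {u : E3 | inner ℝ u z ≤ inner ℝ u v}) ∪
      (⋂ z ∈ Q, {u : E3 | inner ℝ u v ≤ inner ℝ u z}) := by
    ext u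
    simp [Ext]
  rw [h1]
  refine IsClosed.union ?_ ?_
  · exact isClosed_biInter fun z _ => isClosed_le (by fun_prop) (by fun_prop)
  · exact isClosed_biInter fun z _ => isClosed_le (by fun_prop) (by fun_prop)

open Classical in
theorem vertex3 (F : Fold C L γ Q) (v : E3) :
    ∑ c ∈ Finset.univ.filter (fun c : Fin F.n × Fin 3 => F.f (F.V c.1 c.2) = v), G2 (F.S2 c) +
      2 * G3 (Ext Q v) ≤ 2 := by
  have h0 := cnt_le G3 (Finset.univ.filter (fun c : Fin F.n × Fin 3 => F.f (F.V c.1 c.2) = v))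
    F.S3 (fun c _ => (isOpen_lt (by fun_prop) continuous_const).measurableSet)
    (ext_closed Q v).measurableSet (Filter.Eventually.of_forall fun u =>
      ⟨corner_card F v u, fun hu c hc => by
        have hv := (Finset.mem_filter.1 hc).2
        exact corner_ext F c (by rw [hv]; exact hu)⟩)
  rw [Finset.sum_congr rfl fun c _ => s3_eq F c] at h0
  exact h0

end Pool.Agent.Lib.FOLD
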