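import Pool.Agent.Lib.FOLD.Ray

/-!
# FOLD.V3A: at most two corners at a vertex have a sign change (1.2 h)
PROOF. `corner_ext`: `f(V k i)`, `f(V k (i+1))`, `f(V k (i+2)) ∈ frontier Q ⊆ Q` (`onto`, `cover`, `Q` closed); if `v` is the maximum (minimum) both factors are `≤ 0` (`≥ 0`).
`corner_card`: if there are three different corners `c j = (k j, i j)` (`Finset.two_lt_card`), with `a j = f(V k (i+1)) - v`, `b j = f(V k (i+2)) - v`, `⟪u,a⟫⟪u,b⟫ < 0`: put
`α = |⟪u,b⟫|/(2(|⟪u,a⟫|+|⟪u,b⟫|))`, `β = |⟪u,a⟫|/(2(...))`, `α, β > 0`, `α + β = 1/2`, `ρ j = α a + β b`, `⟪u, ρ j⟫ = 0`. On the triangle `k` the map `f` is the affine map `A k`, so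
`v + t ρ j = f(p j t)` with `p j t = V k i + t (α e1 + β e2) ∈ tri (V k)` for `0 ≤ t ≤ 1`, interior to the triangle for `0 < t ≤ 1` (barycentric coordinates positive:
`interior_convexHull_affineBasis`/`AffineBasis.interior_convexHull`). Hence `v + ρ j ∈ Q`, `v + ½ ρ j ∈ frontier Q`, `ρ j ≠ 0` (`A k` is injective). `two_rays` gives `ρ i = c ρ j`, `c > 0`, `i ≠ j`; choose
`t > 0` with `t, t c ≤ 1`: `f(p i t) = f(p j (t c))`. By `glue` the two points are equal or glued; glued points lie on `frontier C` (`arc.onto`), impossible since `p i t ∈ interior (tri ..) ⊆ interior C`. So they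
are equal, the interiors of the triangles meet, `k i = k j` (`disj`); then `f(V k (i i)) = v = f(V k (i j))`, `A k` injective and `V k` injective (`indep`), so the corners are equal.
-/

set_option autoImplicit false

open MeasureTheory Set Filter Topology Metric
open scoped MeasureTheory ENNReal

namespace Pool.Agent.Lib.FOLD

variable {C : Set E2} {L : ℝ} {γ : ℝ → E2} {Q : Set E3}

theorem V3AAux.mem_tri {V : Fin 3 → E2} (i : Fin 3) : V i ∈ tri V :=
  subset_convexHull ℝ _ (mem_range_self i)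

theorem V3AAux.tri_subset (F : Fold C L γ Q) (k : Fin F.n) : tri (F.V k) ⊆ C := by
  intro p hp
  have h : p ∈ ⋃ k, tri (F.V k) := mem_iUnion.2 ⟨k, hp⟩
  rwa [F.cover] at h

theorem V3AAux.fQ (F : Fold C L γ Q) {p : E2} (hp : p ∈ C) : F.f p ∈ frontier Q := by
  have h : F.f p ∈ F.f '' C := mem_image_of_mem _ hp
  rwa [F.onto] at h

theorem V3AAux.fr_sub (F : Fold C L γ Q) : frontier Q ⊆ Q := by
  have h := frontier_subset_closure (s := Q)
  rwa [F.cpt.isClosed.closure_eq] at h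

theorem V3AAux.interior_tri {V : Fin 3 → E2} (hV : AffineIndependent ℝ V) {p : E2} :
    p ∈ interior (tri V) ↔ ∃ b : AffineBasis (Fin 3) ℝ E2, ⇑b = V ∧ ∀ i, 0 < b.coord i p := by
  have htop : affineSpan ℝ (range V) = ⊤ := by
    rw [hV.affineSpan_eq_top_iff_card_eq_finrank_add_one]
    simp
  constructor
  · intro h
    refine ⟨⟨V, hV, htop⟩, rfl, ?_⟩
    have h1 := AffineBasis.interior_convexHull (⟨V, hV, htop⟩ : AffineBasis (Fin 3) ℝ E2)
    have h2 : p ∈ interior (convexHull ℝ (range (⟨V, hV, htop⟩ : AffineBasis (Fin 3) ℝ E2))) := h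
    rw [h1] at h2
    exact h2
  · rintro ⟨b, hb, h⟩
    have h1 := AffineBasis.interior_convexHull b
    have h2 : p ∈ {x : E2 | ∀ i, 0 < b.coord i x} := h
    rw [← h1, hb] at h2
    exact h2

theorem V3AAux.coord_p (b : AffineBasis (Fin 3) ℝ E2) (i j : Fin 3) (s r : ℝ) :
    b.coord j (b i + (s • (b (i + 1) - b i) + r • (b (i + 2) - b i))) =
      (if j = i then 1 else 0) + (s * ((if j = i + 1 then 1 else 0) - (if j = i then 1 else 0)) +
        r * ((if j = i + 2 then 1 else 0) - (if j = i then 1 else 0))) := by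
  have h1 : ∀ x y : Fin 3, (b.coord j).linear (b x - b y) =
      (if j = x then 1 else 0) - (if j = y then 1 else 0) := by
    intro x y
    have h := (b.coord j).linearMap_vsub (b x) (b y)
    rw [vsub_eq_sub, vsub_eq_sub] at h
    rw [h, AffineBasis.coord_apply, AffineBasis.coord_apply]
  have h2 : b i + (s • (b (i + 1) - b i) + r • (b (i + 2) - b i)) =
      (s • (b (i + 1) - b i) + r • (b (i + 2) - b i)) +ᵥ b i := by
    rw [vadd_eq_add, add_comm]
  rw [h2, AffineMap.map_vadd, map_add, map_smul, map_smul, h1, h1, AffineBasis.coord_apply,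
    vadd_eq_add, smul_eq_mul, smul_eq_mul, add_comm]

theorem V3AAux.inner_mem {V : Fin 3 → E2} (hV : AffineIndependent ℝ V) (i : Fin 3) {s r : ℝ}
    (hs : 0 < s) (hr : 0 < r) (hsr : s + r < 1) :
    V i + (s • (V (i + 1) - V i) + r • (V (i + 2) - V i)) ∈ interior (tri V) := by
  have htop : affineSpan ℝ (range V) = ⊤ := by
    rw [hV.affineSpan_eq_top_iff_card_eq_finrank_add_one]
    simp
  rw [V3AAux.interior_tri hV]
  refine ⟨⟨V, hV, htop⟩, rfl, ?_⟩
  intro j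
  have h := V3AAux.coord_p ⟨V, hV, htop⟩ i j s r
  have h' : (⇑(⟨V, hV, htop⟩ : AffineBasis (Fin 3) ℝ E2)) = V := rfl
  rw [h'] at h
  rw [h]
  fin_cases i <;> fin_cases j <;> simp <;> linarith

theorem V3AAux.vert_notMem {V : Fin 3 → E2} (hV : AffineIndependent ℝ V) (i : Fin 3) :
    V i ∉ interior (tri V) := by
  rw [V3AAux.interior_tri hV]
  rintro ⟨b, hb, h⟩
  have h1 := h (i + 1)
  rw [← hb, AffineBasis.coord_apply] at h1
  fin_cases i <;> simp at h1

theorem V3AAux.f_p (F : Fold C L γ Q) (c : Fin F.n × Fin 3) {s r : ℝ}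
    (hs : 0 < s) (hr : 0 < r) (hsr : s + r < 1) :
    F.f (F.V c.1 c.2 + (s • (F.V c.1 (c.2 + 1) - F.V c.1 c.2) +
      r • (F.V c.1 (c.2 + 2) - F.V c.1 c.2))) =
    F.f (F.V c.1 c.2) + (s • (F.f (F.V c.1 (c.2 + 1)) - F.f (F.V c.1 c.2)) +
      r • (F.f (F.V c.1 (c.2 + 2)) - F.f (F.V c.1 c.2))) := by
  have h0 := V3AAux.inner_mem (F.indep c.1) c.2 hs hr hsr
  rw [F.rigid c.1 _ (interior_subset h0), F.rigid c.1 _ (V3AAux.mem_tri c.2),
    F.rigid c.1 _ (V3AAux.mem_tri (c.2 + 1)), F.rigid c.1 _ (V3AAux.mem_tri (c.2 + 2))]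
  have h1 : ∀ x y : E2, (F.A c.1).linear (x - y) = F.A c.1 x - F.A c.1 y := by
    intro x y
    have h := (F.A c.1).toAffineMap.linearMap_vsub x y
    exact h
  have h2 : F.V c.1 c.2 + (s • (F.V c.1 (c.2 + 1) - F.V c.1 c.2) +
      r • (F.V c.1 (c.2 + 2) - F.V c.1 c.2)) =
      (s • (F.V c.1 (c.2 + 1) - F.V c.1 c.2) +
      r • (F.V c.1 (c.2 + 2) - F.V c.1 c.2)) +ᵥ F.V c.1 c.2 := by
    rw [vadd_eq_add, add_comm]
  have h3 := (F.A c.1).toAffineMap.map_vadd (F.V c.1 c.2)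
    (s • (F.V c.1 (c.2 + 1) - F.V c.1 c.2) + r • (F.V c.1 (c.2 + 2) - F.V c.1 c.2))
  rw [h2]
  have h4 : (F.A c.1) ((s • (F.V c.1 (c.2 + 1) - F.V c.1 c.2) +
      r • (F.V c.1 (c.2 + 2) - F.V c.1 c.2)) +ᵥ F.V c.1 c.2) =
      (F.A c.1).linear (s • (F.V c.1 (c.2 + 1) - F.V c.1 c.2) +
      r • (F.V c.1 (c.2 + 2) - F.V c.1 c.2)) +ᵥ (F.A c.1) (F.V c.1 c.2) := h3
  rw [h4, map_add, map_smul, map_smul, h1, h1, vadd_eq_add, add_comm]

theorem V3AAux.key (F : Fold C L γ Q) (v u : E3) (c : Fin F.n × Fin 3)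
    (hv : F.f (F.V c.1 c.2) = v) (hu : u ∈ F.S3 c) :
    ∃ ρ : E3, ρ ≠ 0 ∧ inner ℝ u ρ = 0 ∧ ∀ t : ℝ, 0 < t → t ≤ 1 →
      ∃ p ∈ interior (tri (F.V c.1)), F.f p = v + t • ρ := by
  have hu' : inner ℝ u (F.f (F.V c.1 (c.2 + 1)) - F.f (F.V c.1 c.2)) *
    inner ℝ u (F.f (F.V c.1 (c.2 + 2)) - F.f (F.V c.1 c.2)) < 0 := hu
  set a := F.f (F.V c.1 (c.2 + 1)) - F.f (F.V c.1 c.2) with ha
  set b := F.f (F.V c.1 (c.2 + 2)) - F.f (F.V c.1 c.2) with hb
  obtain ⟨α, β, hα, hβ, hαβ, h0⟩ : ∃ α β : ℝ, 0 < α ∧ 0 < β ∧ α + β = 1 / 2 ∧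
      α * inner ℝ u a + β * inner ℝ u b = 0 := by
    set x := inner ℝ u a
    set y := inner ℝ u b
    rcases mul_neg_iff.1 hu' with ⟨hx, hy⟩ | ⟨hx, hy⟩
    · have hd : 0 < 2 * (x - y) := by linarith
      have hd' : x - y ≠ 0 := by intro h0; rw [h0] at hd; simp at hd
      refine ⟨-y / (2 * (x - y)), x / (2 * (x - y)), by apply div_pos <;> linarith,
        by apply div_pos <;> linarith, ?_, ?_⟩
      · field_simp
        ring
      · field_simp
        ring
    · have hd : 0 < 2 * (y - x) := by linarith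
      have hd' : y - x ≠ 0 := by intro h0; rw [h0] at hd; simp at hd
      refine ⟨y / (2 * (y - x)), -x / (2 * (y - x)), by apply div_pos <;> linarith,
        by apply div_pos <;> linarith, ?_, ?_⟩
      · field_simp
        ring
      · field_simp
        ring
  have hall : ∀ t : ℝ, 0 < t → t ≤ 1 →
      ∃ p ∈ interior (tri (F.V c.1)), F.f p = v + t • (α • a + β • b) := by
    intro t ht ht1
    have h1 : 0 < t * α := mul_pos ht hα
    have h2 : 0 < t * β := mul_pos ht hβ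
    have h3 : t * α + t * β < 1 := by nlinarith
    refine ⟨_, V3AAux.inner_mem (F.indep c.1) c.2 h1 h2 h3, ?_⟩
    rw [V3AAux.f_p F c h1 h2 h3, hv, smul_add, smul_smul, smul_smul, ha, hb, hv]
  refine ⟨α • a + β • b, ?_, ?_, hall⟩
  · intro hρ
    have h3 : α + β < 1 := by linarith
    have h4 := V3AAux.inner_mem (F.indep c.1) c.2 hα hβ h3
    have h5 := V3AAux.f_p F c hα hβ h3
    rw [← ha, ← hb, hρ, add_zero, F.rigid c.1 _ (interior_subset h4),
      F.rigid c.1 _ (V3AAux.mem_tri c.2)] at h5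
    have h6 := (F.A c.1).injective h5
    rw [h6] at h4
    exact V3AAux.vert_notMem (F.indep c.1) c.2 h4
  · rw [inner_add_right, inner_smul_right, inner_smul_right]
    exact h0

theorem corner_ext (F : Fold C L γ Q) {u : E3} (c : Fin F.n × Fin 3)
    (hu : u ∈ Ext Q (F.f (F.V c.1 c.2))) : u ∉ F.S3 c := by
  intro h
  have h' : inner ℝ u (F.f (F.V c.1 (c.2 + 1)) - F.f (F.V c.1 c.2)) *
    inner ℝ u (F.f (F.V c.1 (c.2 + 2)) - F.f (F.V c.1 c.2)) < 0 := h
  have hm : ∀ i, F.f (F.V c.1 i) ∈ Q := fun i =>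
    V3AAux.fr_sub F (V3AAux.fQ F (V3AAux.tri_subset F c.1 (V3AAux.mem_tri i)))
  rw [inner_sub_right, inner_sub_right] at h'
  rcases hu with hu | hu
  · have h1 := hu _ (hm (c.2 + 1))
    have h2 := hu _ (hm (c.2 + 2))
    nlinarith [mul_nonneg (sub_nonneg.2 h1) (sub_nonneg.2 h2)]
  · have h1 := hu _ (hm (c.2 + 1))
    have h2 := hu _ (hm (c.2 + 2))
    nlinarith [mul_nonneg (sub_nonneg.2 h1) (sub_nonneg.2 h2)]

open Classical in
theorem corner_card (F : Fold C L γ Q) (v u : E3) :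
    ((Finset.univ.filter fun c : Fin F.n × Fin 3 => F.f (F.V c.1 c.2) = v).filter
      fun c => u ∈ F.S3 c).card ≤ 2 := by
  by_contra hcon
  rw [not_le, Finset.two_lt_card] at hcon
  obtain ⟨x, hx, y, hy, z, hz, hxy, hxz, hyz⟩ := hcon
  simp only [Finset.mem_filter, Finset.mem_univ, true_and] at hx hy hz
  have hC : ∀ {k : Fin F.n} {p : E2}, p ∈ interior (tri (F.V k)) → p ∈ interior C :=
    fun {k p} hp => interior_mono (V3AAux.tri_subset F k) hp
  set c : Fin 3 → Fin F.n × Fin 3 := ![x, y, z] with hc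
  have hcv : ∀ j, F.f (F.V (c j).1 (c j).2) = v := by
    intro j
    fin_cases j
    · exact hx.1
    · exact hy.1
    · exact hz.1
  have hcu : ∀ j, u ∈ F.S3 (c j) := by
    intro j
    fin_cases j
    · exact hx.2
    · exact hy.2
    · exact hz.2
  have hcinj : ∀ i j, i ≠ j → c i ≠ c j := by
    intro i j hij
    fin_cases i <;> fin_cases j <;> first | exact absurd rfl hij | skip
    · exact hxy
    · exact hxz
    · exact hxy.symm
    · exact hyz
    · exact hxz.symm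
    · exact hyz.symm
  choose ρ hρ0 hρu hρp using fun j => V3AAux.key F v u (c j) (hcv j) (hcu j)
  have hvQ : v ∈ Q := by
    rw [← hcv 0]
    exact V3AAux.fr_sub F (V3AAux.fQ F (V3AAux.tri_subset F _ (V3AAux.mem_tri _)))
  have hρQ : ∀ j, v + ρ j ∈ Q := by
    intro j
    obtain ⟨p, hp, hfp⟩ := hρp j 1 one_pos le_rfl
    rw [one_smul] at hfp
    rw [← hfp]
    exact V3AAux.fr_sub F (V3AAux.fQ F (interior_subset (hC hp)))
  have hmid : ∀ j, v + (1 / 2 : ℝ) • ρ j ∉ interior Q := by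
    intro j hj
    obtain ⟨p, hp, hfp⟩ := hρp j (1 / 2) (by norm_num) (by norm_num)
    rw [← hfp] at hj
    exact (disjoint_interior_frontier (s := Q)).le_bot
      ⟨hj, V3AAux.fQ F (interior_subset (hC hp))⟩
  have hee : ∃ e e' : E3, v + e ∈ Q ∧ v + e' ∈ Q ∧ inner ℝ u e < 0 ∧ 0 < inner ℝ u e' := by
    have h0 : inner ℝ u (F.f (F.V (c 0).1 ((c 0).2 + 1)) - F.f (F.V (c 0).1 (c 0).2)) *
      inner ℝ u (F.f (F.V (c 0).1 ((c 0).2 + 2)) - F.f (F.V (c 0).1 (c 0).2)) < 0 := hcu 0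
    rw [hcv 0] at h0
    have hm : ∀ i, v + (F.f (F.V (c 0).1 i) - v) ∈ Q := by
      intro i
      rw [add_sub_cancel]
      exact V3AAux.fr_sub F (V3AAux.fQ F (V3AAux.tri_subset F _ (V3AAux.mem_tri _)))
    rcases mul_neg_iff.1 h0 with ⟨h1, h2⟩ | ⟨h1, h2⟩
    · exact ⟨_, _, hm _, hm _, h2, h1⟩
    · exact ⟨_, _, hm _, hm _, h1, h2⟩
  obtain ⟨e, e', he, he', h1, h2⟩ := hee
  obtain ⟨i, j, hij, r, hr, hrij⟩ :=
    two_rays F.cvx F.int hvQ ρ hρ0 hρQ hmid hρu he he' h1 h2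
  have hr1 : 0 < 1 + r := by linarith
  obtain ⟨p, hp, hfp⟩ := hρp i (1 / (1 + r)) (by positivity) (by
    rw [div_le_one hr1]; linarith)
  obtain ⟨q, hq, hfq⟩ := hρp j (1 / (1 + r) * r) (by positivity) (by
    rw [one_div_mul_eq_div, div_le_one hr1]; linarith)
  have hpq : F.f p = F.f q := by
    rw [hfp, hfq, hrij, smul_smul]
  have hpC := interior_subset (hC hp)
  have hqC := interior_subset (hC hq)
  rcases (F.glue p hpC q hqC).1 hpq with h | h
  · have hk : (c i).1 = (c j).1 := by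
      by_contra hne
      exact (F.disj _ _ hne).le_bot ⟨hp, by rw [h]; exact hq⟩
    apply hcinj i j hij
    apply Prod.ext hk
    have h3 : F.f (F.V (c i).1 (c i).2) = F.f (F.V (c i).1 (c j).2) := by
      rw [hcv i, hk, hcv j]
    rw [F.rigid _ _ (V3AAux.mem_tri _), F.rigid _ _ (V3AAux.mem_tri _)] at h3
    exact (F.indep _).injective ((F.A _).injective h3)
  · obtain ⟨s, hs, hps, -⟩ := h
    have h4 : p ∈ frontier C := by
      rw [← F.arc.onto, hps]
      exact mem_image_of_mem _ hs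
    exact (disjoint_interior_frontier (s := C)).le_bot ⟨hC hp, h4⟩

end Pool.Agent.Lib.FOLD
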