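import Pool.Agent.Lib.FOLD.V3
import Pool.Agent.Lib.FOLD.CovB
import Pool.Agent.Lib.FOLD.Comp

/-!
# FOLD.Vtx: extremal directions of a vertex against supporting lines of the polygon (1 h)
PROOF. `v = f w0`, `w0 = V k0 i0`. If `w0 ∈ interior C`: the corners at `w0` are corners over `v`, so `cov_int` (`compat`) and `vertex3` give `2 + 2 G3(Ext Q v) ≤ 2` (all terms finite), hence
`G3(Ext Q v) = 0`. If `w0 ∈ frontier C` let `w'` be its partner (`partner`); both have `f = v` and `compat` applies to both, and both are in `F.vs` (`is_vertex`). The corners at `w0` and those at `w'` are disjoint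
sets of corners over `v`. So with `Σ = ∑_{corners over v} G2(S2 c)`: `2 ≤ Σ + G2(Ext C w0) + G2(Ext C w')` (`cov_fr` twice) and `Σ + 2 G3(Ext Q v) ≤ 2`, so `2 G3(Ext Q v) ≤ G2(Ext C w0) + G2(Ext C w')`,
and `w0, w'` are two different elements of the index set on the right. (Finite sums in `ℝ≥0∞`, `Σ ≤ 2 < ∞`: cancel with `ENNReal.add_le_add_iff_left`.)
-/

set_option autoImplicit false

open MeasureTheory Set Filter Topology Metric
open scoped MeasureTheory ENNReal

namespace Pool.Agent.Lib.FOLD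

variable {C : Set E2} {L : ℝ} {γ : ℝ → E2} {Q : Set E3}

open Classical in
theorem vertex_main (F : Fold C L γ Q) {w0 : E2} (hw0 : w0 ∈ F.vs) (hx : F.f w0 ≠ F.f (γ 0))
    (hy : F.f w0 ≠ F.f (γ (L / 2))) :
    2 * G3 (Ext Q (F.f w0)) ≤
      ∑ w ∈ F.vs.filter (fun w => w ∈ frontier C ∧ F.f w = F.f w0), G2 (Ext C w) := by
  obtain ⟨c0, hc0⟩ : ∃ c : Fin F.n × Fin 3, F.V c.1 c.2 = w0 := by
    have h := hw0
    simp only [Fold.vs, Finset.mem_image, Finset.mem_univ, true_and] at h
    exact h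
  have hw0C : w0 ∈ C := by
    apply tri_sub F c0.1
    rw [← hc0]
    exact subset_convexHull ℝ _ (mem_range_self _)
  have hclosed : IsClosed C := F.region.cpt.isClosed
  -- the sum of the corners over v
  set Sv : ℝ≥0∞ := ∑ c ∈ Finset.univ.filter
    (fun c : Fin F.n × Fin 3 => F.f (F.V c.1 c.2) = F.f w0), G2 (F.S2 c) with hSv
  have hv3 : Sv + 2 * G3 (Ext Q (F.f w0)) ≤ 2 := vertex3 F (F.f w0)
  have hSv2 : Sv ≤ 2 := le_trans le_self_add hv3
  have hSvtop : Sv ≠ ∞ := ne_top_of_le_ne_top (by simp) hSv2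
  have hcomp : ∀ w, F.f w = F.f w0 → ∀ k, w ∈ tri (F.V k) → ∃ i, F.V k i = w := by
    intro w hw k hk
    exact compat F (k0 := c0.1) (i0 := c0.2) (by rw [hw, hc0]) k hk
  by_cases hint : w0 ∈ interior C
  · have h1 := cov_int F hint (hcomp w0 rfl)
    have h2 : ∑ c ∈ Finset.univ.filter (fun c : Fin F.n × Fin 3 => F.V c.1 c.2 = w0),
        G2 (F.S2 c) ≤ Sv := by
      apply Finset.sum_le_sum_of_subset
      intro c hc
      simp only [Finset.mem_filter, Finset.mem_univ, true_and] at hc ⊢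
      rw [hc]
    have h3 : Sv = 2 := le_antisymm hSv2 (h1.trans h2)
    rw [h3] at hv3
    have h4 : (2 : ℝ≥0∞) + 2 * G3 (Ext Q (F.f w0)) ≤ 2 + 0 := by simpa using hv3
    have h5 := (ENNReal.add_le_add_iff_left (by simp : (2 : ℝ≥0∞) ≠ ∞)).1 h4
    exact h5.trans bot_le
  · have hfr : w0 ∈ frontier C := by
      rw [frontier, hclosed.closure_eq]
      exact ⟨hw0C, hint⟩
    obtain ⟨w', hw'fr, hne, hfw'⟩ := partner F hfr hx hy
    have hw'C : w' ∈ C := by
      have := frontier_subset_closure hw'fr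
      rwa [hclosed.closure_eq] at this
    have hw'vs : w' ∈ F.vs := is_vertex F hw'C (k0 := c0.1) (i0 := c0.2) (by rw [hfw', hc0])
    have h1 := cov_fr F hfr (hcomp w0 rfl)
    have h2 := cov_fr F hw'fr (hcomp w' hfw')
    have hdisj : Disjoint (Finset.univ.filter (fun c : Fin F.n × Fin 3 => F.V c.1 c.2 = w0))
        (Finset.univ.filter (fun c : Fin F.n × Fin 3 => F.V c.1 c.2 = w')) := by
      rw [Finset.disjoint_left]
      intro c hc hc'
      simp only [Finset.mem_filter, Finset.mem_univ, true_and] at hc hc'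
      exact hne (hc'.symm.trans hc)
    have h3 : ∑ c ∈ Finset.univ.filter (fun c : Fin F.n × Fin 3 => F.V c.1 c.2 = w0),
        G2 (F.S2 c) + ∑ c ∈ Finset.univ.filter (fun c : Fin F.n × Fin 3 => F.V c.1 c.2 = w'),
        G2 (F.S2 c) ≤ Sv := by
      rw [← Finset.sum_union hdisj]
      apply Finset.sum_le_sum_of_subset
      intro c hc
      simp only [Finset.mem_union, Finset.mem_filter, Finset.mem_univ, true_and] at hc ⊢
      rcases hc with hc | hc
      · rw [hc]
      · rw [hc, hfw']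
    have h4 : (2 : ℝ≥0∞) ≤ Sv + (G2 (Ext C w0) + G2 (Ext C w')) := by
      calc (2 : ℝ≥0∞) = 1 + 1 := by norm_num
        _ ≤ _ := add_le_add h1 h2
        _ = (∑ c ∈ Finset.univ.filter (fun c : Fin F.n × Fin 3 => F.V c.1 c.2 = w0),
              G2 (F.S2 c) + ∑ c ∈ Finset.univ.filter
                (fun c : Fin F.n × Fin 3 => F.V c.1 c.2 = w'), G2 (F.S2 c)) +
            (G2 (Ext C w0) + G2 (Ext C w')) := by
              rw [add_add_add_comm]
        _ ≤ _ := by gcongr
    have h5 : Sv + 2 * G3 (Ext Q (F.f w0)) ≤ Sv + (G2 (Ext C w0) + G2 (Ext C w')) :=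
      hv3.trans h4
    have h6 := (ENNReal.add_le_add_iff_left hSvtop).1 h5
    refine h6.trans ?_
    rw [← Finset.sum_pair (f := fun w => G2 (Ext C w)) (Ne.symm hne)]
    apply Finset.sum_le_sum_of_subset
    intro w hw
    simp only [Finset.mem_insert, Finset.mem_singleton] at hw
    simp only [Finset.mem_filter]
    rcases hw with rfl | rfl
    · exact ⟨hw0, hfr, rfl⟩
    · exact ⟨hw'vs, hw'fr, hfw'⟩

end Pool.Agent.Lib.FOLD
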